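import Pool.Agent.MVF.C032
import Pool.Agent.MVF.C034
import Pool.Agent.MVF.C035
import Pool.Agent.MVF.C047
import Pool.Agent.MVF.C049
import Pool.Agent.MVF.C057
import Pool.Agent.MVF.C080
import Pool.Agent.MVF.C133
import Pool.Agent.MVF.C134
import Pool.Agent.MVF.C158
import Pool.Agent.OBM.C04

/-! Parts: OE.J_LEV, OE.StE, OE.E_CTX, OE.E_EXO, OE.E_IDL, OE.E_INN, OE.E_MAIN, OE.E_ONE, OE.E_PIS, OE.E_PTS, OE.E_SIG -/

section

/-!
# OE, block J: a field of degree prime to `p` over `k` has a level `f q0`, `d ∣ f`, `d` even, exceptional `k` (helper19)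

After `Pool/Agent/OB/J_LEVO.lean` and `Pool/Agent/ME/X/J_LEVG.lean`.
-/

set_option autoImplicit false

namespace Pool.Agent.OEJ

open _root_.MU3 Pool.Agent.MU3 Pool.Agent.MU3A Pool.Agent.MU3B Pool.Agent.RI Pool.Agent.RID
  Pool.Agent.MUX Pool.Agent.ME Pool.Agent.MUXK Pool.Agent.MUXE Pool.Agent.MUXJ

noncomputable section

open LEV in
/-- a field of degree prime to `p` over `k` is contained in a ray class field of level `f q0` -/
theorem t_LEVE (p d : ℕ) (A B : ℤ) (hp : p.Prime) (hd0 : d ≠ 0) (hdp : ¬ p ∣ d) (hd2 : 2 ∣ d)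
    (T : TorXE A B) (hN : NLex_E A B) (K : IntermediateField ℚ ℂ) [FiniteDimensional ℚ K]
    (hk : kk A B ≤ K)
    (hKp : ¬ p ∣ Module.finrank (kk A B) (IntermediateField.extendScalars hk)) (M : ℕ)
    (hM0 : M ≠ 0) (hM : ∀ x ∈ K, x ∈ RFE (idl (A := A) (B := B) M)) :
    ∃ f : ℕ, f ≠ 0 ∧ ¬ p ∣ f ∧ d ∣ f ∧
      ∀ x ∈ K, x ∈ RFE (idl (A := A) (B := B) (lvX p f 0)) := by
  obtain ⟨j, M', hM', hMj⟩ := Nat.exists_eq_pow_mul_and_not_dvd hM0 p hp.ne_one
  have hM'0 : M' ≠ 0 := by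
    rintro rfl
    exact hM' (dvd_zero p)
  set f : ℕ := d * M' with hf
  have hf0 : f ≠ 0 := mul_ne_zero hd0 hM'0
  have hfp : ¬ p ∣ f := by
    rw [hf, hp.dvd_mul]
    push Not
    exact ⟨hdp, hM'⟩
  have hq0 : q0 p ≠ 0 := by
    unfold q0
    split_ifs with h2
    · norm_num
    · exact hp.ne_zero
  have hpq0 : p ∣ q0 p := by
    unfold q0
    split_ifs with h2
    · rw [h2]; norm_num
    · exact dvd_rfl
  refine ⟨f, hf0, hfp, Dvd.intro _ rfl, ?_⟩
  -- the two levels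
  set m1 : Ideal (OO A B) := idl (lvX p f j) with hm1
  set m0 : Ideal (OO A B) := idl (lvX p f 0) with hm0
  have hm1' : m1 ≠ ⊥ := idl_ne (mul_ne_zero (mul_ne_zero hf0 hq0) (pow_ne_zero _ hp.ne_zero))
  have hm0' : m0 ≠ ⊥ := idl_ne (mul_ne_zero (mul_ne_zero hf0 hq0) (pow_ne_zero _ hp.ne_zero))
  have h2m0 : m0 ≤ idl 2 := idl_le (by
    unfold lvX
    have h9 : 2 ∣ f := hd2.trans (Dvd.intro _ rfl)
    exact (h9.mul_right _).mul_right _)
  have h01 : m1 ≤ m0 := idl_le (mul_dvd_mul_left _ (pow_dvd_pow p (Nat.zero_le j)))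
  have hMm : m1 ≤ idl M := idl_le (by
    rw [hMj]
    exact ⟨d * q0 p, by unfold lvX; rw [hf]; ring⟩)
  have hK1 : ∀ x ∈ K, x ∈ RFE m1 := fun x hx => T.mono _ _ hMm (hM x hx)
  have hfin := T.fin m1 hm1'
  have hgal := T.gal m1 hm1'
  have h01' : RFE m0 ≤ RFE m1 := T.mono _ _ h01
  let K' : IntermediateField (kk A B) ℂ := IntermediateField.extendScalars hk
  have hK' : K' ≤ RFE m1 := fun x hx => hK1 x hx
  let E : IntermediateField (kk A B) (RFE m1) := IntermediateField.restrict hK'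
  let F0 : IntermediateField (kk A B) (RFE m1) := IntermediateField.restrict h01'
  have hcomm := T.comm m1 hm1'
  have hnorm : E.fixingSubgroup.Normal := by
    constructor
    intro n hn g
    rw [hcomm g n, mul_assoc, mul_inv_cancel, mul_one]
    exact hn
  have hidx : ¬ p ∣ E.fixingSubgroup.index := by
    rw [← IntermediateField.finrank_eq_fixingSubgroup_index,
      ← (IntermediateField.restrictAlgEquiv hK').toLinearEquiv.finrank_eq]
    exact hKp
  -- elements which are trivial on `RFE m0`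
  have hkey : F0.fixingSubgroup ≤ E.fixingSubgroup := by
    intro σ hσ
    rw [IntermediateField.mem_fixingSubgroup_iff] at hσ
    obtain ⟨s, hs, hsσ⟩ := lift_E T hm1' σ
    obtain ⟨a, hac, ha⟩ := T.act m1 hm1' s hs
    obtain ⟨b, L, om, hL⟩ := hN
    obtain ⟨b', L', om', mu, hL', hact⟩ := ha b L om hL
    have htr0 : ∀ y ∈ RFE m0, s y = y := by
      intro y hy
      have h1 := hsσ ⟨y, h01' hy⟩
      have h2 := hσ ⟨y, h01' hy⟩ ((IntermediateField.mem_restrict h01' _).2 hy)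
      rw [h2] at h1
      exact h1
    obtain ⟨x, hx, hax⟩ := (T.triv m0 a s b L L' om mu hm0' (Or.inl h2m0) hs hL (act_mono_E h01 hact)
      hL'.nrm).1 htr0
    -- powers
    have hpow : ∀ n : ℕ, ∃ t : ℂ ≃+* ℂ, FixK A B t ∧
        (∀ y : RFE m1, t (y : ℂ) = ((σ ^ (n + 1)) y : ℂ)) ∧
        ∃ (b' : Ideal (OO A B)) (L' : PeriodPair) (om' mu : ℂ), IsNE b' L' om' ∧
          ActE t m1 (a ^ (n + 1)) L L' mu := by
      intro n
      induction n with
      | zero =>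
        refine ⟨s, hs, fun y => ?_, b', L', om', mu, hL', ?_⟩
        · rw [zero_add, pow_one]; exact hsσ y
        · rw [zero_add, pow_one]; exact hact
      | succ n ih =>
        obtain ⟨t, ht, ht1, b₁, L₁, om₁, mu₁, hL₁, hact₁⟩ := ih
        obtain ⟨b₂, L₂, om₂, mu₂, hL₂, hact₂⟩ := ha b₁ L₁ om₁ hL₁
        refine ⟨t.trans s, ?_, fun y => ?_, b₂, L₂, om₂, mu₂ * mu₁, hL₂, ?_⟩
        · show s (t (wC A B)) = wC A B
          rw [show t (wC A B) = wC A B from ht]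
          exact hs
        · show s (t (y : ℂ)) = _
          rw [ht1 y, hsσ, pow_succ' σ (n + 1)]
          rfl
        · rw [pow_succ a (n + 1)]
          exact T.comp m1 _ a t s L L₁ L₂ mu₁ mu₂ hact₁ hact₂
    have hpj : 0 < p ^ j := pow_pos hp.pos j
    obtain ⟨t, ht, ht1, b₁, L₁, om₁, mu₁, hL₁, hact₁⟩ := hpow (p ^ j - 1)
    rw [Nat.sub_add_cancel hpj] at ht1 hact₁
    have h3 : x ^ p ^ j - 1 ∈ m1 := by
      have h4 : ((f * q0 p : ℕ) : OO A B) ∣ x - 1 := by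
        have h5 := Ideal.mem_span_singleton.1 hx
        simpa [lvX] using h5
      have h5 : ((p : ℕ) : OO A B) ∣ ((f * q0 p : ℕ) : OO A B) :=
        Nat.cast_dvd_cast (hpq0.mul_left f)
      have h6 := pow_dvd p _ x h5 h4 j
      rw [hm1, Ideal.mem_span_singleton]
      unfold lvX
      push_cast at h6 ⊢
      exact h6
    have h4 : σ ^ p ^ j = 1 := by
      have h5 := (T.triv m1 _ t b L L₁ om mu₁ hm1' (Or.inl (h01.trans h2m0)) ht hL hact₁
        hL₁.nrm).2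
        ⟨x ^ p ^ j, h3, by rw [hax, Ideal.span_singleton_pow]⟩
      refine AlgEquiv.ext fun y => Subtype.ext ?_
      rw [← ht1 y, h5 y y.2]
      rfl
    have h5 : σ ^ E.fixingSubgroup.index ∈ E.fixingSubgroup := Subgroup.pow_index_mem _ σ
    refine mem_of_pow_mem _ (m := p ^ j) (by rw [h4]; exact one_mem _) h5 ?_
    exact Nat.Coprime.pow_left j ((Nat.Prime.coprime_iff_not_dvd hp).2 hidx)
  have hEF : E ≤ F0 := by
    rw [← IsGalois.fixedField_fixingSubgroup F0, IntermediateField.le_iff_le]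
    exact hkey
  intro x hx
  have h1 : (⟨x, hK1 x hx⟩ : RFE m1) ∈ F0 :=
    hEF ((IntermediateField.mem_restrict hK' _).2 hx)
  exact (IntermediateField.mem_restrict h01' _).1 h1

end

end Pool.Agent.OEJ


end

section

/-!
# OE, block E: the exceptional fields `ℚ(i)`, `ℚ(√-3)`, every prime `p ≥ 5` (helper96; twin of `OB/StE.lean`)

The statements of `Pool/Agent/OB/StE.lean` which see the frame (`NL`, `RF`, `TorX`, `GalE`, `Reps`), for the frame of `ME/DefsE.lean`, `ME/StXEE.lean` (`NLE`, `RFE`, `TorXE`, `GalEE`, `RepsE`). All levels are even, `xnE = ℘`. The other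
statements of block E (`Pool.Agent.OBE.e_ALG, e_PRO, e_PUL, e_COE, e_GRN, e_LEG, e_TNC, e_GEN, e_UNT, e_RAT, e_KIS, e_NE1, e_DSM`) are used as they are. The ramification index `er` is kept, so that the ports are literal; `er = 1` is used.
-/

set_option autoImplicit false

open Polynomial

namespace Pool.Agent.OEE

open _root_.MU3 _root_.Pool.Agent.MU3A _root_.Pool.Agent.MU3B _root_.Pool.Agent.MUX _root_.Pool.Agent.MUXU
open _root_.Pool.Agent.RI _root_.Pool.Agent.NS _root_.Pool.Agent.OB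
open _root_.Pool.Agent.ME hiding ActE
open _root_.Pool.Agent.MEE
open _root_.Pool.Agent.MUXE (RingE)
open _root_.Pool.Agent.MUXV (GR InK tX)
open _root_.Pool.Agent.NSE (su ru WL IntP)
open _root_.Pool.Agent.OBE (SP Ann Ker0 PtsO RepO Cp lv0)

noncomputable section

/-- the hypotheses on `p`, `k`, `P`, `V`; `er` is the ramification index -/
structure CaseX (p er : ℕ) (A B : ℤ) (P : Ideal (OO A B)) (V : ValuationSubring ℂ) : Prop where
  cq : CQ A B
  exc : CaseE A B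
  pp : p.Prime
  p5 : 5 ≤ p
  prime : P.IsPrime
  mem : ((p : ℕ) : OO A B) ∈ P
  ram : (er = 1 ∧ ((p : ℕ) : OO A B) ∉ P ^ 2) ∨ (er = 2 ∧ ((p : ℕ) : OO A B) ∈ P ^ 2)
  hV : OverI V P

lemma CaseX.not_le {p er : ℕ} {A B : ℤ} {P : Ideal (OO A B)} {V : ValuationSubring ℂ}
    (h : CaseX p er A B P V) {m : Ideal (OO A B)} (hm : IsCoprime m P) : ¬ m ≤ P := by
  intro h1
  have h2 := Ideal.isCoprime_iff_sup_eq.1 hm
  rw [sup_eq_right.2 h1] at h2
  exact h.prime.ne_top h2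

/-- everything on `O`, `k`, `P`, `V` and the reduction which is used; `al` is a uniformiser of `P`, prime to the other primes above `p` -/
structure CtxX (p er : ℕ) (A B : ℤ) (P : Ideal (OO A B)) (V : ValuationSubring ℂ)
    (al : OO A B) : Prop extends CaseX p er A B P V, Cp p V where
  ring : RingE A B
  ne : P ≠ ⊥
  max : P.IsMaximal
  er1 : 1 ≤ er
  fac : idl (A := A) (B := B) p = P ^ er * Pc P
  cne : Pc P ≠ ⊥
  cnl : ¬ Pc P ≤ P
  int : ∀ x : OO A B, V.valuation (emb x) ≤ 1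
  unit : ∀ x : OO A B, x ∉ P → V.valuation (emb x) = 1
  nat : ∀ n : ℕ, ¬ p ∣ n → V.valuation (n : ℂ) = 1 ∧ ((n : ℕ) : OO A B) ∉ P
  alP : al ∈ P
  al2 : al ∉ P ^ 2
  alv : V.valuation (emb al) ^ er = V.valuation (p : ℂ)
  vP : ∀ x ∈ P, V.valuation (emb x) ≤ V.valuation (emb al)
  alN : ∃ N : ℕ, ¬ p ∣ N ∧ ∀ x ∈ P, ∃ y : OO A B, ((N : ℕ) : OO A B) * x = al * y
  nP : er = 2 → nI P = p ∧ Pc P = ⊤
  n3 : 3 ≤ nI P
  good : ∀ L, NLE A B L → ∃ u e lam : ℂ, GoodL V L u e lam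
  iner : ∀ m : Ideal (OO A B), m ≠ ⊥ → m ≤ idl (A := A) (B := B) 2 → ¬ m ≤ P → ∀ σ : ℂ ≃+* ℂ, FixK A B σ →
    (∀ y ∈ RFE m, y ∈ V → σ y - y ∈ V.nonunits) → ∀ y ∈ RFE m, σ y = y
  exq : ∀ L, NLE A B L → ∃ (N : PeriodPair) (nu : ℂ), NLE A B N ∧ IsQ P L N nu

/-- (BAS) elementary facts on `P` and `V`. PORT of `Pool/Agent/OB/T_BAS.lean`. -/
def Sb_BASE : Prop :=
  ∀ (p er : ℕ) (A B : ℤ) (P : Ideal (OO A B)) (V : ValuationSubring ℂ), CaseX p er A B P V →
    V.valuation (p : ℂ) < 1 ∧ V.valuation (2 : ℂ) = 1 ∧ P.IsMaximal ∧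
    (∀ x : OO A B, V.valuation (emb x) ≤ 1) ∧ (∀ x : OO A B, V.valuation (emb x) < 1 ↔ x ∈ P) ∧
    (∀ n : ℕ, ¬ p ∣ n → V.valuation (n : ℂ) = 1) ∧
    (nI P = p ∨ nI P = p ^ 2) ∧ ¬ p ∣ nI P - 1 ∧ 4 ≤ nI P - 1 ∧
    (∃ y : OO A B, (∀ x ∈ P, ∃ z, x * y = (p : OO A B) * z) ∧ ∀ z, y ≠ (p : OO A B) * z) ∧
    IsCoprime (Pc P) P ∧ idl (A := A) (B := B) p = Pc P * P ^ er

/-- the input from block R (the result of `O_RFINE` for even levels) -/
def RFX {A B : ℤ} (P : Ideal (OO A B)) (V : ValuationSubring ℂ) : Prop :=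
  (∀ (b : Ideal (OO A B)) (L : PeriodPair) (om : ℂ), IsNE b L om →
      ∃ u e lam : ℂ, GoodL V L u e lam) ∧
    ∀ m : Ideal (OO A B), m ≠ ⊥ → m ≤ idl (A := A) (B := B) 2 → ¬ m ≤ P →
      ∀ σ : ℂ ≃+* ℂ, FixK A B σ →
      (∀ y ∈ RFE m, y ∈ V → σ y - y ∈ V.nonunits) → ∀ y ∈ RFE m, σ y = y

/-- (CFA) the ideals above `p`. PORT of `Pool/Agent/OB/E_CFA.lean`. -/
def Sb_CFAE : Prop :=
  ∀ (p er : ℕ) (A B : ℤ) (P : Ideal (OO A B)) (V : ValuationSubring ℂ), CaseX p er A B P V →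
    P ≠ ⊥ ∧ P.IsMaximal ∧ idl (A := A) (B := B) p = P ^ er * Pc P ∧ Pc P ≠ ⊥ ∧ ¬ Pc P ≤ P ∧
    (er = 2 → nI P = p ∧ Pc P = ⊤) ∧ 3 ≤ nI P ∧
    ∀ Q : Ideal (OO A B), Q.IsPrime → ((p : ℕ) : OO A B) ∈ Q → Q = P ∨ Q = Pc P

/-- (CAL) a uniformiser `al` of `P` which is prime to the other primes above `p`. PORT of `Pool/Agent/OB/E_CAL.lean`. -/
def Sb_CALE : Prop :=
  ∀ (p er : ℕ) (A B : ℤ) (P : Ideal (OO A B)) (V : ValuationSubring ℂ), CaseX p er A B P V →
    ∃ al : OO A B, al ∈ P ∧ al ∉ P ^ 2 ∧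
      ∃ N : ℕ, ¬ p ∣ N ∧ ∀ x ∈ P, ∃ y : OO A B, ((N : ℕ) : OO A B) * x = al * y

/-- (CTX) from the hypotheses to `CtxO`. PORT of `Pool/Agent/OB/E_CTX.lean`. -/
def Sb_CTXE : Prop :=
  ∀ (p er : ℕ) (A B : ℤ) (P : Ideal (OO A B)) (V : ValuationSubring ℂ), CaseX p er A B P V →
    TorXE A B → RFX P V → ∃ al : OO A B, CtxX p er A B P V al

/-- (PVL) elements of `O`: multiplication by `x ∉ P`, and the kernel of reduction as an `O`-module. PORT of `Pool/Agent/OB/E_PVL.lean`. -/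
def Sb_PVLE : Prop :=
  ∀ (p er : ℕ) (A B : ℤ) (P : Ideal (OO A B)) (V : ValuationSubring ℂ) (al : OO A B),
    CtxX p er A B P V al → ∀ (L : PeriodPair) (u e lam : ℂ), NLE A B L → GoodL V L u e lam →
    (∀ x : OO A B, x ∉ P → Ker0 V L L u e (emb x) ∧
      ∀ z, InK V L (xu L u e) z → z ∉ L.lattice →
        emb x * z ∉ L.lattice ∧ InK V L (xu L u e) (emb x * z) ∧
        V.valuation (xu L u e (emb x * z)) = V.valuation (xu L u e z)) ∧
    (∀ (x : OO A B) (z : ℂ), InK V L (xu L u e) z → InK V L (xu L u e) (emb x * z)) ∧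
    ∀ m : Ideal (OO A B), ¬ m ≤ P → ∀ z, Tor m L z → InK V L (xu L u e) z → z ∈ L.lattice

/-- (PIS) the isogeny `L → N = ν P⁻¹ L`, and the points of `E[P]`. `q = nI P`. PORT of `Pool/Agent/OB/E_PIS.lean`. -/
def Sb_PISE : Prop :=
  ∀ (p er : ℕ) (A B : ℤ) (P : Ideal (OO A B)) (V : ValuationSubring ℂ) (al : OO A B),
    CtxX p er A B P V al → ∀ (L N : PeriodPair) (nu u e lam u' e' lam' : ℂ), NLE A B L →
      NLE A B N → IsQ P L N nu → GoodL V L u e lam → GoodL V N u' e' lam' →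
      V.valuation (nu * u' / u) = V.valuation (emb al) ∧
      (∃ R : Finset ℂ, IsRpM L N nu R ∧ R.card + 1 = nI P) ∧
      ∀ z, Tor P L z → z ∉ L.lattice → InK V L (xu L u e) z ∧ xu L u e z ≠ 0 ∧
        V.valuation (su L u e z) ^ (nI P - 1) = V.valuation (emb al) ^ 2

/-- (TPR) the values of the points of exact order `P^(j+1)`. PORT of `Pool/Agent/OB/E_TPR.lean`. -/
def Sb_TPRE : Prop :=
  ∀ (p er : ℕ) (A B : ℤ) (P : Ideal (OO A B)) (V : ValuationSubring ℂ) (al : OO A B),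
    CtxX p er A B P V al → ∀ (j : ℕ) (L : PeriodPair) (u e lam : ℂ), NLE A B L →
      GoodL V L u e lam → ∀ z, Tor (P ^ (j + 1)) L z → ¬ Tor (P ^ j) L z →
        InK V L (xu L u e) z ∧ xu L u e z ≠ 0 ∧
          V.valuation (su L u e z) ^ ((nI P - 1) * nI P ^ j) = V.valuation (emb al) ^ 2

/-- (PTS) the points of `E[P^er]` satisfy `PtsO`. PORT of `Pool/Agent/OB/E_PTS.lean`. -/
def Sb_PTSE : Prop :=
  ∀ (p er : ℕ) (A B : ℤ) (P : Ideal (OO A B)) (V : ValuationSubring ℂ) (al : OO A B),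
    CtxX p er A B P V al → ∀ (L : PeriodPair) (u e lam : ℂ), NLE A B L → GoodL V L u e lam →
      PtsO p V (SP P er L) (su L u e) (ru L u e) (-(1 + lam)) lam ∧
      (∀ Y ∈ SP P er L, InK V L (xu L u e) Y ∧ xu L u e Y ≠ 0) ∧
      ∀ Y ∈ SP P er L, ∀ w ∈ L.lattice, Y + w ∈ SP P er L ∧
        su L u e (Y + w) = su L u e Y ∧ ru L u e (Y + w) = ru L u e Y

/-- (ADD) addition of a point of `SP`. PORT of `Pool/Agent/OB/E_ADD.lean`. -/
def Sb_ADDE : Prop :=
  ∀ (p er : ℕ) (A B : ℤ) (P : Ideal (OO A B)) (V : ValuationSubring ℂ) (al : OO A B),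
    CtxX p er A B P V al → ∀ (L : PeriodPair) (u e lam : ℂ), NLE A B L → GoodL V L u e lam →
      ∀ z, ¬ InK V L (xu L u e) z →
        RepO p V (SP P er L) (su L u e) (ru L u e) (fun Y => xu L u e (z + Y)) (xu L u e z)
          (2 * yu L u z)

/-- (ISO) the isogeny on the points of `SP`. PORT of `Pool/Agent/OB/E_ISO.lean`. -/
def Sb_ISOE : Prop :=
  ∀ (p er : ℕ) (A B : ℤ) (P : Ideal (OO A B)) (V : ValuationSubring ℂ) (al : OO A B),
    CtxX p er A B P V al → ∀ (L M : PeriodPair) (u e lam u' e' lam' μ : ℂ), NLE A B L →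
    NLE A B M → GoodL V L u e lam → GoodL V M u' e' lam' → μ ≠ 0 → Isg L M μ →
    Ker0 V L M u e μ →
    (∀ Y ∈ SP P er L, μ * Y ∈ SP P er M) ∧
    RepO p V (SP P er L) (su L u e) (ru L u e) (fun Y => su M u' e' (μ * Y)) 0 0 ∧
    RepO p V (SP P er L) (su L u e) (ru L u e) (fun Y => ru M u' e' (μ * Y)) 0 (μ * u' / u)

/-- (THN) the functions `Θ_a(z + μ Y)`, `Y ∈ SP P er L`, on the lattice `M`. PORT of `Pool/Agent/OB/E_THN.lean`. -/
def Sb_THNE : Prop :=
  ∀ (p er : ℕ) (A B : ℤ) (P : Ideal (OO A B)) (V : ValuationSubring ℂ) (al : OO A B),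
    CtxX p er A B P V al → ∀ (L M : PeriodPair) (u e lam u' e' lam' μ : ℂ), NLE A B L →
    NLE A B M → GoodL V L u e lam → GoodL V M u' e' lam' → μ ≠ 0 → Isg L M μ →
    Ker0 V L M u e μ →
    ∀ (a : ℕ) (H : Finset ℂ), a ≠ 0 → IsHalf M (a : ℂ) H → ∀ z, ¬ InK V M (xu M u' e') z →
      (a : ℂ) * z ∉ M.lattice →
      (∀ q ∈ H, ¬ InK V M (xu M u' e') q ∧ ¬ InK V M (xu M u' e') (z + q) ∧
        ¬ InK V M (xu M u' e') (z - q)) →
      V.valuation (ThetaH M H z) = V.valuation (u' ^ 2) ^ H.card ∧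
      V.valuation (μ * dlX M a z / u) ≤ 1 ∧
      RepO p V (SP P er L) (su L u e) (ru L u e)
        (fun Y => ThetaH M H (z + μ * Y) / ThetaH M H z) 1 (μ * dlX M a z / u)

/-- (IDL) the level `(f p^(n+1)) = P^(er (n+1)) · lv0`. PORT of `Pool/Agent/OB/E_IDL.lean`. -/
def Sb_IDLE : Prop :=
  ∀ (p er : ℕ) (A B : ℤ) (P : Ideal (OO A B)) (V : ValuationSubring ℂ) (al : OO A B),
    CtxX p er A B P V al → ∀ (f n : ℕ), f ≠ 0 → ¬ p ∣ f →
      idl (A := A) (B := B) (p ^ (n + 1) * f) = P ^ (er * (n + 1)) * lv0 P f n ∧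
      lv0 P f n ≠ ⊥ ∧ ¬ lv0 P f n ≤ P ∧ IsCoprime (P ^ (er * (n + 1))) (lv0 P f n) ∧
      (∀ y ∈ Pc P, ((p ^ n * f : ℕ) : OO A B) * y ∈ lv0 P f n) ∧
      lv0 P f n ≤ idl (A := A) (B := B) f ∧
      (∀ (a : ℕ) (y : OO A B), a ≠ 0 → 1 ≤ n →
        IsCoprime (1 + ((p ^ n * f * a : ℕ) : OO A B) * y) ((p ^ (n + 1) * f * a : ℕ) : OO A B)) ∧
      lvX p f n = p ^ (n + 1) * f

/-- (UNR) `RF m'` is unramified over `k` at `V` if `m'` is not contained in `P`. PORT of `Pool/Agent/OB/E_UNR.lean`. -/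
def Sb_UNRE : Prop :=
  ∀ (p er : ℕ) (A B : ℤ) (P : Ideal (OO A B)) (V : ValuationSubring ℂ) (al : OO A B),
    CtxX p er A B P V al → TorXE A B →
    ∀ m' : Ideal (OO A B), m' ≠ ⊥ → m' ≤ idl (A := A) (B := B) 2 → ¬ m' ≤ P → ∀ y ∈ RFE m', y ≠ 0 →
      ∃ k : ℤ, V.valuation y = V.valuation (emb al) ^ k

/-- (DEG) the degree of `RF (P^(j+1) m')` over `RF m'`. PORT of `Pool/Agent/OB/E_DEG.lean`. -/
def Sb_DEGE : Prop :=
  ∀ (p er : ℕ) (A B : ℤ) (P : Ideal (OO A B)) (V : ValuationSubring ℂ) (al : OO A B),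
    CtxX p er A B P V al → GalEE A B → ∀ (j : ℕ) (m' : Ideal (OO A B)), m' ≠ ⊥ →
      m' ≤ idl (A := A) (B := B) 2 → ¬ m' ≤ P →
      Module.finrank (kk A B) (RFE (P ^ (j + 1) * m')) ≤
        ((nI P - 1) * nI P ^ j) * Module.finrank (kk A B) (RFE m')

/-- (UNI) a uniformiser of `RF (P^(J+1) m')` over `RF m'`, from a point `z₁` with annihilator `P^(J+1) m₁`, `m' ≤ m₁`. PORT of `Pool/Agent/OB/E_UNI.lean`. -/
def Sb_UNIE : Prop :=
  ∀ (p er : ℕ) (A B : ℤ) (P : Ideal (OO A B)) (V : ValuationSubring ℂ) (al : OO A B),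
    CtxX p er A B P V al → TorXE A B → GalEE A B → ∀ (L : PeriodPair) (u e lam : ℂ), NLE A B L →
    GoodL V L u e lam → ∀ (J f : ℕ) (m₁ m' : Ideal (OO A B)), 3 ≤ f → 2 ∣ f → m' ≤ m₁ →
    m₁ ≤ idl (A := A) (B := B) f → m' ≠ ⊥ → ¬ m' ≤ P → ∀ z₁ : ℂ, Ann (P ^ (J + 1) * m₁) L z₁ →
    ∃ P₀ : ℂ, Tor m₁ L P₀ ∧ P₀ ∉ L.lattice ∧ ¬ InK V L (xu L u e) P₀ ∧
      ¬ InK V L (xu L u e) z₁ ∧ u ^ 2 ∈ RFE m' ∧ e ∈ RFE m' ∧ xu L u e P₀ ∈ RFE m' ∧
      xu L u e z₁ - xu L u e P₀ ∈ RFE (P ^ (J + 1) * m') ∧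
      ∀ w ∈ RFE (P ^ (J + 1) * m'), V.valuation w ≤ 1 →
        ∃ c : Fin ((nI P - 1) * nI P ^ J) → RFE m',
          (∀ i, V.valuation (c i : ℂ) ≤ 1) ∧
          w = ∑ i, (c i : ℂ) * (xu L u e z₁ - xu L u e P₀) ^ (i : ℕ)

/-- (SIG) `Y ↦ σ_Y(w)` for `w` in the ray class field, `σ_Y(z₁) = z₁ + Y`. PORT of `Pool/Agent/OB/E_SIG.lean`. -/
def Sb_SIGE : Prop :=
  ∀ (p er : ℕ) (A B : ℤ) (P : Ideal (OO A B)) (V : ValuationSubring ℂ) (al : OO A B),
    CtxX p er A B P V al → TorXE A B → GalEE A B → ∀ (L : PeriodPair) (u e lam : ℂ), NLE A B L →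
    GoodL V L u e lam → ∀ (J f : ℕ) (m₁ m' : Ideal (OO A B)), 3 ≤ f → 2 ∣ f → m' ≤ m₁ →
    m₁ ≤ idl (A := A) (B := B) f → m' ≠ ⊥ → ¬ m' ≤ P → ∀ z₁ : ℂ, Ann (P ^ (J + 1) * m₁) L z₁ →
    ∀ w ∈ RFE (P ^ (J + 1) * m'), V.valuation w ≤ 1 →
    ∃ (F : ℂ → ℂ) (β : ℂ), V.valuation β ≤ 1 ∧
      RepO p V (SP P er L) (su L u e) (ru L u e) F w β ∧
      ∀ (c : OO A B), c - 1 ∈ m' →
      ∀ (σ : RFE (P ^ (J + 1) * m') ≃ₐ[kk A B] RFE (P ^ (J + 1) * m')),
      ActEE (_root_.Pool.Agent.MU3A.em σ) (P ^ (J + 1) * m') c →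
      ∀ hw : w ∈ RFE (P ^ (J + 1) * m'), (σ ⟨w, hw⟩ : ℂ) = F (emb (c - 1) * z₁)

/-- (EXO) exact orders of the points of level `m = p^(n+1) f`. PORT of `Pool/Agent/OB/E_EXO.lean`. -/
def Sb_EXOE : Prop :=
  ∀ (p er : ℕ) (A B : ℤ) (P : Ideal (OO A B)) (V : ValuationSubring ℂ) (al : OO A B),
    CtxX p er A B P V al → ∀ (n f : ℕ) (ι : Type) (R : RepsE A B (p * f) ι), f ≠ 0 → ¬ p ∣ f →
      (∀ (i : ι) (x : OO A B), IsCoprime x ((p ^ (n + 1) * f : ℕ) : OO A B) →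
        Ann (idl (A := A) (B := B) (p ^ (n + 1) * f)) (R.L i) (ptE R (p ^ (n + 1) * f) i x) ∧
        ptE R (p ^ (n + 1) * f) i x =
          muXE R i * emb x * (R.om R.i0 / (p ^ (n + 1) * f : ℕ)) ∧
        ∀ q : ℂ, (p : ℂ) * q ∈ (R.L i).lattice →
          ((p ^ (n + 1) * f : ℕ) : ℂ) * (ptE R (p ^ (n + 1) * f) i x + q) ∈ (R.L i).lattice ∧
          ∀ c : ℕ, (c : ℂ) * (ptE R (p ^ (n + 1) * f) i x + q) ∈ (R.L i).lattice → f ∣ c) ∧
      Ann (idl (A := A) (B := B) (p ^ (n + 1) * f)) (R.L R.i0)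
        (R.om R.i0 / (p ^ (n + 1) * f : ℕ)) ∧
      (∀ a : ℕ, ¬ p ∣ a →
        (∀ y ∈ Pc P, y ∉ idl (A := A) (B := B) p →
          emb y * (a * R.om R.i0 / p) ∈ SP P er (R.L R.i0)) ∧
        ∀ Y ∈ SP P er (R.L R.i0), ∃ y ∈ Pc P, y ∉ idl (A := A) (B := B) p ∧
          emb y * (a * R.om R.i0 / p) - Y ∈ (R.L R.i0).lattice)

/-- (MUL) the isogenies `μ_i x : L_(i0) → L_i` have degree prime to `p`. PORT of `Pool/Agent/OB/E_MUL.lean`. -/
def Sb_MULE : Prop :=
  ∀ (p : ℕ) (A B : ℤ), p.Prime → RingE A B → ∀ (n : ℕ) (ι : Type) (R : RepsE A B n ι),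
    n ≠ 0 → p ∣ n → ∀ (i : ι) (x : OO A B), IsCoprime x ((n : ℕ) : OO A B) →
      muXE R i * emb x ≠ 0 ∧ Isg (R.L R.i0) (R.L i) (muXE R i * emb x) ∧
      ∃ N : ℕ, ¬ p ∣ N ∧ ∀ z, muXE R i * emb x * z ∈ (R.L i).lattice →
        (N : ℂ) * z ∈ (R.L R.i0).lattice

/-- (INN) integrality of the logarithmic derivatives; `er = 2`: the sums over `E[P]`. PORT of `Pool/Agent/OB/E_INN.lean`. -/
def Sb_INNE : Prop :=
  ∀ (p er : ℕ) (A B : ℤ) (P : Ideal (OO A B)) (V : ValuationSubring ℂ) (al : OO A B),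
    CtxX p er A B P V al → ∀ (n f a : ℕ), 2 ≤ f → ¬ p ∣ f → 3 ≤ a → Odd a → ¬ p ∣ a →
    a.Coprime f →
    ∀ (ι : Type) (R : RepsE A B (p * f) ι) (u e lam : ℂ), GoodL V (R.L R.i0) u e lam →
    ∀ (i : ι) (x : OO A B), IsCoprime x ((p ^ (n + 1) * f : ℕ) : OO A B) →
      (∀ H : Finset ℂ, IsHalf (R.L i) (a : ℂ) H → ∀ ui ei lami : ℂ,
        GoodL V (R.L i) ui ei lami → V.valuation (ThetaH (R.L i) H
          (ptE R (p ^ (n + 1) * f) i x)) = V.valuation (ui ^ 2) ^ H.card) ∧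
      V.valuation (muXE R i * dlX (R.L i) a (ptE R (p ^ (n + 1) * f) i x) / u) ≤ 1 ∧
      (er = 2 → ∀ q : ℂ, Tor P (R.L i) q → q ∉ (R.L i).lattice →
        V.valuation (muXE R i * (∑ t ∈ Finset.range p,
          dlX (R.L i) a (ptE R (p ^ (n + 1) * f) i x + t * q)) / u) ≤ V.valuation (emb al))

/-- (ONE) Lemma E, for products over arbitrary finite families of points `(i, x)`, weights `emb x`. PORT of `Pool/Agent/OB/E_ONE.lean`. -/
def Sb_ONEE : Prop :=
  ∀ (p er : ℕ) (A B : ℤ) (P : Ideal (OO A B)) (V : ValuationSubring ℂ) (al : OO A B),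
    CtxX p er A B P V al → TorXE A B → GalEE A B →
    ∀ (n f a : ℕ), 1 ≤ n → 3 ≤ f → 2 ∣ f → ¬ p ∣ f → 3 ≤ a → Odd a → p ∣ a - 1 →
    a.Coprime f →
    ∀ (ι : Type) (R : RepsE A B (p * f) ι) (u e lam : ℂ), GoodL V (R.L R.i0) u e lam →
    ∀ (H : ι → Finset ℂ), (∀ i, IsHalf (R.L i) (a : ℂ) (H i)) →
    ∀ (J : Type) [Fintype J] (X : J → Finset (ι × OO A B)) (g : J → ℤ),
      (∀ j, ∀ y ∈ X j, IsCoprime y.2 ((p ^ (n + 1) * f : ℕ) : OO A B)) →
      (∃ y ∈ RFE (idl (A := A) (B := B) (p ^ (n + 1) * f)), y ^ p =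
        ∏ j, (∏ y ∈ X j, ThetaH (R.L y.1) (H y.1) (ptE R (p ^ (n + 1) * f) y.1 y.2)) ^ g j) →
      V.valuation ((∑ j, (g j : ℂ) * ∑ y ∈ X j, emb y.2 * muXE R y.1 *
        dlX (R.L y.1) a (ptE R (p ^ (n + 1) * f) y.1 y.2)) / u) ≤ V.valuation (p : ℂ)

/-- (MAIN) Lemma E for a conjugate family, weights `emb x`. PORT of `Pool/Agent/OB/E_MAIN.lean`. -/
def Sb_MAINE : Prop :=
  ∀ (p er : ℕ) (A B : ℤ) (P : Ideal (OO A B)) (V : ValuationSubring ℂ) (al : OO A B),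
    CtxX p er A B P V al → TorXE A B → GalEE A B →
    ∀ (n f : ℕ), 1 ≤ n → 3 ≤ f → 2 ∣ f → ¬ p ∣ f →
    ∀ (ι : Type) (R : RepsE A B (p * f) ι) (u e lam : ℂ), GoodL V (R.L R.i0) u e lam →
    ∀ (H : ι → Finset ℂ), (∀ i, IsHalf (R.L i) (aX p f : ℂ) (H i)) →
    ∀ (D : IntermediateField ℚ ℂ) (h : kk A B ≤ D),
      (∀ y ∈ D, y ∈ RFE (idl (A := A) (B := B) (lvX p f n))) →
    letI := algC h
    ∀ (C : (D ≃ₐ[kk A B] D) → ℂ)
      (S : (D ≃ₐ[kk A B] D) → Finset (ι × (OO A B ⧸ idl (A := A) (B := B) (lvX p f n)))),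
    (∀ τ : D ≃ₐ[kk A B] D, ∃ y : D, (y : ℂ) = C 1 ∧ ((τ y : D) : ℂ) = C τ) →
    (∀ τ, ∀ q ∈ S τ, IsCoprime (Quotient.out q.2 : OO A B) ((lvX p f n : ℕ) : OO A B)) →
    (∀ τ, C τ = ∏ q ∈ S τ, ThetaH (R.L q.1) (H q.1) (ptE R (lvX p f n) q.1 (Quotient.out q.2))) →
    ∀ g : (D ≃ₐ[kk A B] D) → ℤ,
      (∃ y ∈ D, y ^ p = ∏ᶠ τ : D ≃ₐ[kk A B] D, C τ ^ g τ) →
      ∀ τ' : D ≃ₐ[kk A B] D,
        V.valuation ((∑ᶠ τ : D ≃ₐ[kk A B] D, (g τ : ℂ) * ∑ q ∈ S (τ * τ'),
          emb (Quotient.out q.2) * muXE R q.1 *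
            dlX (R.L q.1) (aX p f) (ptE R (lvX p f n) q.1 (Quotient.out q.2))) / u) ≤
          V.valuation (p : ℂ)

/-- (FN1) the final form for `er = 1`. PORT of `Pool/Agent/OB/E_FN1.lean`. -/
def Sb_FN1E : Prop :=
  ∀ (p : ℕ) (A B : ℤ) (P : Ideal (OO A B)) (V : ValuationSubring ℂ) (al : OO A B),
    CtxX p 1 A B P V al → TorXE A B → GalEE A B →
    ∀ (n f : ℕ), 1 ≤ n → 3 ≤ f → 2 ∣ f → ¬ p ∣ f →
    ∀ (ι : Type) [Fintype ι] (R : RepsE A B (p * f) ι) (u e lam : ℂ),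
    GoodL V (R.L R.i0) u e lam → ∀ w : OO A B → ℂ, IsTeiP p 1 P V w →
    ∀ (H : ι → Finset ℂ), (∀ i, IsHalf (R.L i) (aX p f : ℂ) (H i)) →
    ∀ (D : IntermediateField ℚ ℂ) (h : kk A B ≤ D), (∀ y ∈ D, y ∈ RFE (idl (A := A) (B := B) (lvX p f n))) →
    letI := algC h
    (∀ τ : D ≃ₐ[kk A B] D, ∃ y : D, (y : ℂ) = cXE R (lvX p f n) H h 1 ∧
      ((τ y : D) : ℂ) = cXE R (lvX p f n) H h τ) →
    ∀ g : (D ≃ₐ[kk A B] D) → ℤ,
      (∃ y ∈ D, y ^ p = ∏ᶠ τ : D ≃ₐ[kk A B] D, cXE R (lvX p f n) H h τ ^ g τ) →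
      ∀ τ' : D ≃ₐ[kk A B] D,
        V.valuation ((∑ᶠ τ : D ≃ₐ[kk A B] D, (g τ : ℂ) *
          TTNE R w (lvX p f n) (aX p f) h (τ * τ')) / u) ≤ V.valuation (p : ℂ)

end

end Pool.Agent.OEE


end

section

/-!
# OE, block E (port of `OB/E_CTX.lean`), module CTX (helper98): from the hypotheses to `CtxX`

Models: `NS/F_CTX.lean`, `NS/E_CTX.lean`.
-/

set_option autoImplicit false

namespace Pool.Agent.OEE

open _root_.MU3 _root_.Pool.Agent.MU3A _root_.Pool.Agent.MU3B _root_.Pool.Agent.MUX _root_.Pool.Agent.MUXU _root_.Pool.Agent.MUXE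
open _root_.Pool.Agent.RI _root_.Pool.Agent.NS _root_.Pool.Agent.OB
open _root_.Pool.Agent.ME hiding ActE
open _root_.Pool.Agent.MEE
open _root_.Pool.Agent.OBE (SP Ann Ker0 PtsO RepO Cp lv0 Sb_ALG Sb_PRO Sb_PUL Sb_COE Sb_GRN Sb_LEG Sb_TNC Sb_GEN Sb_UNT Sb_RAT Sb_KIS Sb_NE1 Sb_DSM)

noncomputable section

namespace CTX

variable {A B : ℤ}

lemma emb_nat (h : CQ A B) (n : ℕ) : emb ((n : ℕ) : OO A B) = (n : ℂ) := by
  rw [← RNGaux.eH_apply h, map_natCast]

lemma emb_mul (h : CQ A B) (x y : OO A B) : emb (x * y) = emb x * emb y := by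
  rw [← RNGaux.eH_apply h, map_mul, RNGaux.eH_apply h, RNGaux.eH_apply h]

lemma emb_add (h : CQ A B) (x y : OO A B) : emb (x + y) = emb x + emb y := by
  rw [← RNGaux.eH_apply h, map_add, RNGaux.eH_apply h, RNGaux.eH_apply h]

lemma emb_one (h : CQ A B) : emb (1 : OO A B) = 1 := by
  rw [← RNGaux.eH_apply h, map_one]

lemma emb_zero (h : CQ A B) : emb (0 : OO A B) = 0 := by
  rw [← RNGaux.eH_apply h, map_zero]

lemma val_le (h : CQ A B) (V : ValuationSubring ℂ) (x : OO A B) : V.valuation (emb x) ≤ 1 := by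
  rw [ValuationSubring.valuation_le_one_iff]
  have h1 : IsIntegral V (emb x) := (RNGaux.emb_int h x).tower_top
  obtain ⟨y, hy⟩ := IsIntegrallyClosed.isIntegral_iff.1 h1
  rw [← hy]
  exact y.2

lemma val_unit (h : CQ A B) {P : Ideal (OO A B)} {V : ValuationSubring ℂ} (hV : OverI V P)
    {x : OO A B} (hx : x ∉ P) : V.valuation (emb x) = 1 := by
  refine le_antisymm (val_le h V x) (not_lt.1 fun h1 => hx ((hV x).1 ?_))
  exact (ValuationSubring.mem_nonunits_iff V).2 h1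

/-- elements of `P^n` -/
lemma val_pow (h : CQ A B) {P : Ideal (OO A B)} {V : ValuationSubring ℂ} {al : OO A B}
    (hP : ∀ x ∈ P, V.valuation (emb x) ≤ V.valuation (emb al)) :
    ∀ (n : ℕ) (x : OO A B), x ∈ P ^ n → V.valuation (emb x) ≤ V.valuation (emb al) ^ n := by
  intro n
  induction n with
  | zero =>
    intro x _
    rw [pow_zero]
    exact val_le h V x
  | succ n ih =>
    intro x hx
    rw [pow_succ] at hx
    refine Submodule.mul_induction_on hx ?_ ?_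
    · intro a ha b hb
      rw [emb_mul h, map_mul, pow_succ]
      exact mul_le_mul' (ih a ha) (hP b hb)
    · intro a b ha hb
      rw [emb_add h]
      exact (V.valuation.map_add _ _).trans (max_le ha hb)

end CTX

open _root_.Pool.Agent.OEE.CTX in
/-- (CTX) from the hypotheses to `CtxX` -/
theorem tb_CTXE (hCFA : Sb_CFAE) (hCAL : Sb_CALE) : Sb_CTXE := by
  intro p er A B P V hC hT hF
  obtain ⟨hF1, hF2⟩ := hF
  obtain ⟨hne, hmax, hfac, hcne, hcnl, hnP, hn3, -⟩ := hCFA p er A B P V hC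
  obtain ⟨al, halP, hal2, N, hN, hNx⟩ := hCAL p er A B P V hC
  have h := hC.cq
  have hp := hC.pp
  have hp5 := hC.p5
  have hV := hC.hV
  have h1P : (1 : OO A B) ∉ P := fun h1 => hC.prime.ne_top ((Ideal.eq_top_iff_one P).2 h1)
  have hvp : V.valuation (p : ℂ) < 1 := by
    have h1 := (hV ((p : ℕ) : OO A B)).2 hC.mem
    rw [ValuationSubring.mem_nonunits_iff, emb_nat h] at h1
    exact h1
  have hnP' : ∀ n : ℕ, ¬ p ∣ n → ((n : ℕ) : OO A B) ∉ P := by
    intro n hn hmem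
    have h2 : IsCoprime (n : ℤ) (p : ℤ) := by
      rw [Nat.isCoprime_iff_coprime]
      exact ((Nat.Prime.coprime_iff_not_dvd hp).2 hn).symm
    obtain ⟨a, b, hab⟩ := h2
    have h4 := congrArg (Int.cast : ℤ → OO A B) hab
    push_cast at h4
    apply h1P
    rw [← h4]
    exact P.add_mem (P.mul_mem_left _ hmem) (P.mul_mem_left _ hC.mem)
  have hnat : ∀ n : ℕ, ¬ p ∣ n → V.valuation (n : ℂ) = 1 ∧ ((n : ℕ) : OO A B) ∉ P := by
    intro n hn
    refine ⟨?_, hnP' n hn⟩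
    rw [← emb_nat h]
    exact val_unit h hV (hnP' n hn)
  have hvP : ∀ x ∈ P, V.valuation (emb x) ≤ V.valuation (emb al) := by
    intro x hx
    obtain ⟨y, hy⟩ := hNx x hx
    have h2 := congrArg (fun z => V.valuation (emb z)) hy
    simp only [CTX.emb_mul h, map_mul, emb_nat h] at h2
    rw [(hnat N hN).1, one_mul] at h2
    rw [h2]
    exact mul_le_of_le_one_right' (val_le h V y)
  have her : 1 ≤ er := by
    rcases hC.ram with ⟨h1, -⟩ | ⟨h1, -⟩ <;> omega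
  have hmem : ((p : ℕ) : OO A B) ∈ P ^ er := by
    rcases hC.ram with ⟨h1, -⟩ | ⟨h1, h2⟩
    · rw [h1, pow_one]
      exact hC.mem
    · rw [h1]
      exact h2
  have halv : V.valuation (emb al) ^ er = V.valuation (p : ℂ) := by
    refine le_antisymm ?_ ?_
    · obtain ⟨c, hc, hcP⟩ := Set.not_subset.1 hcnl
      have h2 : al ^ er * c ∈ idl (A := A) (B := B) p := by
        rw [hfac]
        exact Ideal.mul_mem_mul (Ideal.pow_mem_pow halP er) hc
      obtain ⟨y, hy⟩ := Ideal.mem_span_singleton.1 h2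
      have h3 := congrArg (fun z => V.valuation (emb z)) hy
      simp only [CTX.emb_mul h, map_mul, emb_nat h] at h3
      rw [val_unit h hV hcP, mul_one] at h3
      have h4 : V.valuation (emb (al ^ er)) = V.valuation (emb al) ^ er := by
        rw [← RNGaux.eH_apply h, map_pow, RNGaux.eH_apply h, map_pow]
      rw [← h4, h3]
      exact mul_le_of_le_one_right' (val_le h V y)
    · have h2 := val_pow h hvP er _ hmem
      rw [emb_nat h] at h2
      exact h2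
  refine ⟨al, ?_⟩
  exact
    { hC with
      p2 := by omega
      vp := hvp
      ring := te_RNG A B h
      ne := hne
      max := hmax
      er1 := her
      fac := hfac
      cne := hcne
      cnl := hcnl
      int := val_le h V
      unit := fun x hx => val_unit h hV hx
      nat := hnat
      alP := halP
      al2 := hal2
      alv := halv
      vP := hvP
      alN := ⟨N, hN, hNx⟩
      nP := hnP
      n3 := hn3
      good := by
        rintro L ⟨b, om, hL⟩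
        exact hF1 b L om hL
      iner := hF2
      exq := by
        rintro L ⟨b, om, hL⟩
        have htop : (⊤ : Ideal (OO A B)) ≠ ⊥ := fun h0 => hne (eq_bot_iff.2 (h0 ▸ le_top))
        obtain ⟨σ, -, hσ⟩ := hT.surj ⊤ htop P hne (Ideal.isCoprime_iff_sup_eq.2 (sup_top_eq _))
        obtain ⟨b', L', om', mu, hL', hact⟩ := hσ b L om hL
        exact ⟨L', mu, ⟨b', om', hL'⟩, hact.isq⟩ }

end

end Pool.Agent.OEE


end

section

/-!
# OE, block E (port of `OB/E_EXO.lean`), module EXO: exact orders of the points of level `m = p^(n+1) f` (helper12)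

Port of `Pool/Agent/NS/F_EXO.lean`.
-/

set_option autoImplicit false

namespace Pool.Agent.OEE

open _root_.MU3 _root_.Pool.Agent.MU3A _root_.Pool.Agent.MU3B _root_.Pool.Agent.MUX
open _root_.Pool.Agent.MUXU _root_.Pool.Agent.MUXE
open _root_.Pool.Agent.RI _root_.Pool.Agent.NS _root_.Pool.Agent.OB
open _root_.Pool.Agent.NSE (su ru WL IntP)
open _root_.Pool.Agent.MUXV (GR InK tX)
open _root_.Pool.Agent.ME hiding ActE
open _root_.Pool.Agent.MEE
open _root_.Pool.Agent.OBE (SP Ann Ker0 PtsO RepO Cp lv0 Sb_ALG Sb_PRO Sb_PUL Sb_COE Sb_GRN Sb_LEG Sb_TNC Sb_GEN Sb_UNT Sb_RAT Sb_KIS Sb_NE1 Sb_DSM)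

noncomputable section

namespace EXO

lemma inj {A B : ℤ} (hR : RingE A B) (x y : OO A B) (h : emb x = emb y) : x = y := by
  obtain ⟨φ, hφ⟩ := hR.hom
  have h1 : emb (x - y) = 0 := by
    rw [← hφ, map_sub, hφ, hφ, h, sub_self]
  exact sub_eq_zero.1 (hR.inj0 _ h1)

lemma nI_ne {A B : ℤ} (hR : RingE A B) (b : Ideal (OO A B)) (hb : b ≠ ⊥) :
    nI b ≠ 0 ∧ ((nI b : ℕ) : OO A B) ∈ b := by
  have := hR.ded
  refine ⟨?_, ?_⟩
  · change Ideal.absNorm b ≠ 0
    rw [Ne, Ideal.absNorm_eq_zero_iff]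
    exact hb
  · change ((Ideal.absNorm b : ℕ) : OO A B) ∈ b
    exact Ideal.absNorm_mem b

lemma nat {A B : ℤ} (m k : ℕ) (h : ((m : ℕ) : OO A B) ∣ ((k : ℕ) : OO A B)) :
    m ∣ k := by
  obtain ⟨z, hz⟩ := h
  have h5 : (k : ℤ) = (m : ℤ) * z.re := by
    have := congrArg QuadraticAlgebra.re hz
    simpa using this
  exact Int.natCast_dvd_natCast.1 ⟨z.re, h5⟩

lemma bez {A B : ℤ} {p a : ℕ} (hp : p.Prime) (ha : ¬ p ∣ a) :
    ∃ s t : ℤ, (s : ℂ) * a + t * p = 1 ∧ (s : OO A B) * (a : ℕ) + (t : OO A B) * (p : ℕ) = 1 := by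
  have h1 : a.Coprime p := ((Nat.Prime.coprime_iff_not_dvd hp).2 ha).symm
  obtain ⟨s, t, hst⟩ := Nat.isCoprime_iff_coprime.2 h1
  refine ⟨s, t, by exact_mod_cast hst, ?_⟩
  have := congrArg (fun k : ℤ => (k : OO A B)) hst
  push_cast at this
  exact this

end EXO

/-- (EXO) exact orders of the points of level `m = p^(n+1) f` -/
theorem tb_EXOE : Sb_EXOE := by
  intro p er A B P V al hC n f ι R hf hpf
  have hR := hC.ring
  have hded := hR.ded
  have hp : p.Prime := hC.toCaseX.pp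
  have hp0 : p ≠ 0 := hp.ne_zero
  have hpC : (p : ℂ) ≠ 0 := by exact_mod_cast hp0
  obtain ⟨φ, hφ⟩ := hR.hom
  set m : ℕ := p ^ (n + 1) * f with hm
  have hm0 : m ≠ 0 := by
    rw [hm]
    exact mul_ne_zero (pow_ne_zero _ hp0) hf
  have hmC : (m : ℂ) ≠ 0 := by exact_mod_cast hm0
  have hnl0 := R.nl R.i0
  have hom0 : R.om R.i0 ≠ 0 := hnl0.om_ne
  have heN : ∀ k : ℕ, emb ((k : ℕ) : OO A B) = (k : ℂ) := fun k => by rw [← hφ, map_natCast]
  have heZ : ∀ k : ℤ, emb ((k : ℤ) : OO A B) = (k : ℂ) := fun k => by rw [← hφ, map_intCast]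
  have hem : ∀ x y : OO A B, emb (x * y) = emb x * emb y := fun x y => by
    rw [← hφ, ← hφ, ← hφ, map_mul]
  have hL0 : ∀ z, z ∈ (R.L R.i0).lattice ↔ ∃ x : OO A B, z = R.om R.i0 * emb x := by
    intro z
    rw [hnl0.mem, R.b0]
    simp
  have hidl : ∀ (k : ℕ) (c : OO A B), c ∈ idl (A := A) (B := B) k ↔
      ((k : ℕ) : OO A B) ∣ c := fun k c => Ideal.mem_span_singleton
  refine ⟨?_, ?_, ?_⟩
  · intro i x hx
    have hnl := R.nl i
    obtain ⟨hN0, hNb⟩ := EXO.nI_ne hR (R.b i) hnl.b_ne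
    have hNC : ((nI (R.b i) : ℕ) : ℂ) ≠ 0 := by exact_mod_cast hN0
    have hom : R.om i ≠ 0 := hnl.om_ne
    have hLi := hnl.mem
    have hcop : (nI (R.b i)).Coprime m := by
      have h1 := R.cop i
      rw [hm]
      exact Nat.Coprime.mul_right
        (Nat.Coprime.pow_right _ (Nat.Coprime.coprime_mul_right_right h1))
        (Nat.Coprime.coprime_mul_left_right h1)
    obtain ⟨s, t, hst⟩ := Nat.isCoprime_iff_coprime.2 hcop
    have h2 : (s : OO A B) * ((nI (R.b i) : ℕ) : OO A B) + (t : OO A B) * (m : ℕ) = 1 := by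
      have := congrArg (fun k : ℤ => (k : OO A B)) hst
      push_cast at this
      exact this
    have hEx : Ann (idl (A := A) (B := B) m) (R.L i) (ptE R m i x) := by
      intro c
      rw [hLi, hidl]
      constructor
      · rintro ⟨y, -, hy⟩
        have h1 : ((nI (R.b i) : ℕ) : OO A B) * (c * x) = (m : ℕ) * y := by
          apply EXO.inj hR
          rw [hem, hem, hem, heN, heN]
          unfold ptE at hy
          field_simp at hy
          linear_combination hy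
        have h3 : ((m : ℕ) : OO A B) ∣ x * c := by
          refine ⟨(s : OO A B) * y + (t : OO A B) * c * x, ?_⟩
          linear_combination (-(x * c)) * h2 + (s : OO A B) * h1
        exact hx.symm.dvd_of_dvd_mul_left h3
      · rintro ⟨y, rfl⟩
        refine ⟨(nI (R.b i) : ℕ) * (y * x), (R.b i).mul_mem_right _ hNb, ?_⟩
        rw [hem, hem, hem, heN, heN]
        unfold ptE
        field_simp
    refine ⟨hEx, ?_, ?_⟩
    · unfold ptE muXE
      field_simp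
    · intro q hq
      have hnat : ∀ (k : ℕ) (u : ℂ), u ∈ (R.L i).lattice → (k : ℂ) * u ∈ (R.L i).lattice := by
        intro k u hu
        have := (R.L i).lattice.smul_mem (k : ℤ) hu
        simpa using this
      constructor
      · have h1 : ((m : ℕ) : ℂ) * ptE R m i x ∈ (R.L i).lattice := by
          rw [← heN]
          exact (hEx _).2 (Ideal.mem_span_singleton_self _)
        have h4 := hnat (p ^ n * f) _ hq
        have h5 : ((m : ℕ) : ℂ) * (ptE R m i x + q) =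
            ((m : ℕ) : ℂ) * ptE R m i x + ((p ^ n * f : ℕ) : ℂ) * (p * q) := by
          rw [hm]
          push_cast
          ring
        rw [h5]
        exact add_mem h1 h4
      · intro c hc
        have h1 : emb (((p * c : ℕ)) : OO A B) * ptE R m i x ∈ (R.L i).lattice := by
          rw [heN]
          have h4 := hnat p _ hc
          have h5 := hnat c _ hq
          have h6 : ((p * c : ℕ) : ℂ) * ptE R m i x =
              ((p : ℕ) : ℂ) * ((c : ℂ) * (ptE R m i x + q)) - ((c : ℕ) : ℂ) * (p * q) := by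
            push_cast
            ring
          rw [h6]
          exact sub_mem h4 h5
        have h4 := EXO.nat _ _ ((hidl _ _).1 ((hEx _).1 h1))
        have h5 : p * (p ^ n * f) ∣ p * c := by
          have h6 : m = p * (p ^ n * f) := by rw [hm, pow_succ]; ring
          rwa [← h6]
        exact (Dvd.intro_left _ rfl).trans (Nat.dvd_of_mul_dvd_mul_left hp.pos h5)
  · intro c
    rw [hL0, hidl]
    constructor
    · rintro ⟨y, hy⟩
      refine ⟨y, EXO.inj hR _ _ ?_⟩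
      rw [hem, heN]
      field_simp at hy
      linear_combination hy
    · rintro ⟨y, rfl⟩
      refine ⟨y, ?_⟩
      rw [hem, heN]
      field_simp
  · intro a ha
    obtain ⟨s, t, h1, h2⟩ := EXO.bez (A := A) (B := B) hp ha
    have hfac := hC.fac
    refine ⟨fun y hy hyp => ⟨fun x hx => ?_, fun hmem => ?_⟩, fun Y hY => ?_⟩
    · have h3 : x * y ∈ idl (A := A) (B := B) p := by
        rw [hfac]
        exact Ideal.mul_mem_mul hx hy
      obtain ⟨z, hz⟩ := (hidl _ _).1 h3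
      rw [hL0]
      refine ⟨(a : ℕ) * z, ?_⟩
      have h4 : emb x * emb y = p * emb z := by rw [← hem, hz, hem, heN]
      rw [hem, heN]
      field_simp
      linear_combination (a : ℂ) * h4
    · obtain ⟨z, hz⟩ := (hL0 _).1 hmem
      apply hyp
      rw [hidl]
      have h4 : y * (a : ℕ) = (p : ℕ) * z := by
        apply EXO.inj hR
        rw [hem, hem, heN, heN]
        field_simp at hz
        linear_combination hz
      refine ⟨(s : OO A B) * z + (t : OO A B) * y, ?_⟩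
      linear_combination (-y) * h2 + (s : OO A B) * h4
    · obtain ⟨hT, hYL⟩ := hY
      have hpP : ((p : ℕ) : OO A B) ∈ P ^ er := by
        have h3 : P ^ er * Pc P ≤ P ^ er := Ideal.mul_le_left
        rw [← hfac] at h3
        exact h3 ((hidl _ _).2 dvd_rfl)
      obtain ⟨b, hb⟩ := (hL0 _).1 (hT _ hpP)
      rw [heN] at hb
      have hPb : Ideal.span {b} ≤ Pc P := by
        have h3 : P ^ er * Ideal.span {b} ≤ P ^ er * Pc P := by
          rw [← hfac, Ideal.mul_le]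
          intro x hx c hc
          obtain ⟨d, rfl⟩ := Ideal.mem_span_singleton.1 hc
          obtain ⟨z, hz⟩ := (hL0 _).1 (hT x hx)
          rw [hidl]
          refine ⟨z * d, ?_⟩
          have h4 : x * b = (p : ℕ) * z := by
            apply EXO.inj hR
            rw [hem, hem, heN]
            apply mul_left_cancel₀ hom0
            linear_combination (-(emb x)) * hb + (p : ℂ) * hz
          linear_combination d * h4
        rw [← Ideal.dvd_iff_le] at h3 ⊢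
        exact (mul_dvd_mul_iff_left (pow_ne_zero _ hC.ne)).1 h3
      have hbP : b ∈ Pc P := hPb (Ideal.mem_span_singleton_self _)
      refine ⟨(s : OO A B) * b, (Pc P).mul_mem_left _ hbP, fun h3 => ?_, ?_⟩
      · obtain ⟨z, hz⟩ := (hidl _ _).1 h3
        apply hYL
        rw [hL0]
        refine ⟨(a : ℕ) * z + (t : OO A B) * b, ?_⟩
        have h4 : (s : ℂ) * emb b = p * emb z := by
          rw [← heZ, ← hem, hz, hem, heN]
        have h5 : emb (((a : ℕ) : OO A B) * z + (t : OO A B) * b) = a * emb z + t * emb b := by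
          rw [← hφ, map_add, map_mul, map_mul, map_natCast, map_intCast, hφ, hφ]
        rw [h5]
        apply mul_left_cancel₀ hpC
        linear_combination hb - R.om R.i0 * emb b * h1 + R.om R.i0 * (a : ℂ) * h4
      · rw [hL0]
        refine ⟨-((t : OO A B) * b), ?_⟩
        have h5 : emb (-((t : OO A B) * b)) = -(t * emb b) := by
          rw [← hφ, map_neg, map_mul, map_intCast, hφ]
        rw [h5, hem, heZ]
        apply mul_left_cancel₀ hpC
        field_simp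
        linear_combination R.om R.i0 * emb b * h1 - hb

end

end Pool.Agent.OEE


end

section

/-!
# OE, block E (port of `OB/E_IDL.lean`), module IDL: the level `(f p^(n+1)) = P^(er (n+1)) lv0` (helper11)
-/

set_option autoImplicit false

open Polynomial

namespace Pool.Agent.OEE

open _root_.MU3 _root_.Pool.Agent.MU3A _root_.Pool.Agent.MU3B _root_.Pool.Agent.MUX _root_.Pool.Agent.MUXU _root_.Pool.Agent.MUXE
open _root_.Pool.Agent.RI _root_.Pool.Agent.NS _root_.Pool.Agent.OB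
open _root_.Pool.Agent.ME hiding ActE
open _root_.Pool.Agent.MEE
open _root_.Pool.Agent.OBE (SP Ann Ker0 PtsO RepO Cp lv0 Sb_ALG Sb_PRO Sb_PUL Sb_COE Sb_GRN Sb_LEG Sb_TNC Sb_GEN Sb_UNT Sb_RAT Sb_KIS Sb_NE1 Sb_DSM)

noncomputable section

namespace IDL

variable {A B : ℤ}

lemma nat_ne (k : ℕ) (hk : k ≠ 0) : ((k : ℕ) : OO A B) ≠ 0 := by
  intro h
  have h1 := congrArg QuadraticAlgebra.re h
  rw [QuadraticAlgebra.re_zero] at h1
  have h2 : ((k : ℕ) : OO A B).re = (k : ℤ) := by simp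
  rw [h2] at h1
  exact hk (by exact_mod_cast h1)

lemma idl_mul (a b : ℕ) : idl (A := A) (B := B) (a * b) = idl a * idl b := by
  unfold idl
  rw [Ideal.span_singleton_mul_span_singleton, Nat.cast_mul]

lemma idl_pow (a n : ℕ) : idl (A := A) (B := B) (a ^ n) = idl a ^ n := by
  unfold idl
  rw [Ideal.span_singleton_pow, Nat.cast_pow]

end IDL

open _root_.Pool.Agent.OEE.IDL in
/-- (IDL) the level `(f p^(n+1)) = P^(er (n+1)) · lv0` -/
theorem tb_IDLE : Sb_IDLE := by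
  intro p er A B P V al hc f n hf hpf
  have := hc.ring.ded
  have hPr := hc.prime
  have hfO : ((f : ℕ) : OO A B) ≠ 0 := nat_ne f hf
  have hif : idl (A := A) (B := B) f ≠ ⊥ := by
    unfold idl
    rw [Ne, Ideal.span_singleton_eq_bot]
    exact hfO
  have hnle : ¬ lv0 P f n ≤ P := by
    intro h
    rcases hPr.mul_le.1 h with h1 | h1
    · exact (hc.nat f hpf).2 (h1 (Ideal.mem_span_singleton_self _))
    · exact hc.cnl (hPr.le_of_pow_le h1)
  have hcop : IsCoprime P (lv0 P f n) := by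
    rw [Ideal.isCoprime_iff_sup_eq]
    exact hc.max.1.2 _ (left_lt_sup.2 hnle)
  refine ⟨?_, ?_, hnle, hcop.pow_left, ?_, Ideal.mul_le_left, ?_, ?_⟩
  · unfold lv0
    rw [idl_mul, idl_pow, hc.fac, mul_pow, ← pow_mul]
    ring
  · unfold lv0
    have h1 : idl (A := A) (B := B) f * Pc P ^ (n + 1) ≠ 0 :=
      mul_ne_zero hif (pow_ne_zero _ hc.cne)
    exact h1
  · intro y hy
    have h1 : ((p ^ n : ℕ) : OO A B) ∈ Pc P ^ n := by
      have h2 : ((p ^ n : ℕ) : OO A B) ∈ idl (A := A) (B := B) (p ^ n) :=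
        Ideal.mem_span_singleton_self _
      rw [idl_pow, hc.fac, mul_pow] at h2
      exact Ideal.mul_le_right h2
    have h3 : ((p ^ n * f : ℕ) : OO A B) * y = ((f : ℕ) : OO A B) * (((p ^ n : ℕ) : OO A B) * y) := by
      push_cast
      ring
    rw [h3]
    unfold lv0
    rw [pow_succ]
    exact Ideal.mul_mem_mul (Ideal.mem_span_singleton_self _) (Ideal.mul_mem_mul h1 hy)
  · intro a y _ hn
    have h1 : IsCoprime (1 + ((p ^ n * f * a : ℕ) : OO A B) * y) ((p ^ n * f * a : ℕ) : OO A B) :=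
      ⟨1, -y, by ring⟩
    have h2 : IsCoprime (1 + ((p ^ n * f * a : ℕ) : OO A B) * y) ((p : ℕ) : OO A B) := by
      refine IsCoprime.of_isCoprime_of_dvd_right h1 ?_
      obtain ⟨m, rfl⟩ : ∃ m, n = m + 1 := ⟨n - 1, by omega⟩
      refine ⟨((p ^ m * f * a : ℕ) : OO A B), ?_⟩
      push_cast
      ring
    have h3 : ((p ^ (n + 1) * f * a : ℕ) : OO A B) =
        ((p : ℕ) : OO A B) * ((p ^ n * f * a : ℕ) : OO A B) := by
      push_cast
      ring
    rw [h3]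
    exact h2.mul_right h1
  · unfold lvX q0
    rw [if_neg hc.p2, pow_succ]
    ring

end

end Pool.Agent.OEE


end

section

/-!
# OE, block E (port of `OB/E_INN.lean`), module INN: integrality of the logarithmic derivatives, and the sums over `E[P]` (helper93)
-/

set_option autoImplicit false

open Polynomial

namespace Pool.Agent.OEE

open _root_.MU3 _root_.Pool.Agent.MU3A _root_.Pool.Agent.MU3B _root_.Pool.Agent.MUX _root_.Pool.Agent.MUXU _root_.Pool.Agent.MUXE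
open _root_.Pool.Agent.RI _root_.Pool.Agent.NS _root_.Pool.Agent.OB
open _root_.Pool.Agent.MUXV (GR InK tX)
open _root_.Pool.Agent.NSE (su ru WL IntP)
open _root_.Pool.Agent.ME hiding ActE
open _root_.Pool.Agent.MEE
open _root_.Pool.Agent.OBE (SP Ann Ker0 PtsO RepO Cp lv0 Sb_ALG Sb_PRO Sb_PUL Sb_COE Sb_GRN Sb_LEG Sb_TNC Sb_GEN Sb_UNT Sb_RAT Sb_KIS Sb_NE1 Sb_DSM)

noncomputable section

namespace INN

/-- half systems for odd `a` -/
lemma half (L : PeriodPair) {a : ℕ} (ha0 : a ≠ 0) (hao : Odd a) :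
    ∃ H : Finset ℂ, IsHalf L (a : ℂ) H :=
  b_HAL L (a : ℂ) (by exact_mod_cast ha0) (fun w hw => by
    have := nsmul_mem hw a
    rwa [nsmul_eq_mul] at this) (fun z h1 h2 => by
      obtain ⟨k, hk⟩ := hao
      have h3 := nsmul_mem h2 k
      rw [nsmul_eq_mul] at h3
      have h4 : z = (a : ℂ) * z - (k : ℂ) * (2 * z) := by
        rw [hk]
        push_cast
        ring
      rw [h4]
      exact sub_mem h1 h3)

/-- the theta product and the logarithmic derivative at one point -/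
lemma core (hTHN : Sb_THNE) (hNE1 : Sb_NE1) {p er : ℕ} {A B : ℤ} {P : Ideal (OO A B)}
    {V : ValuationSubring ℂ} {al : OO A B} (hC : CtxX p er A B P V al) {L M : PeriodPair}
    {u e lam u' e' lam' mu : ℂ} (hL : NLE A B L) (hM : NLE A B M) (hg : GoodL V L u e lam)
    (hg' : GoodL V M u' e' lam') (hmu : mu ≠ 0) (hI : Isg L M mu) (hk : Ker0 V L M u e mu)
    {j f a : ℕ} (hf2 : 2 ≤ f) (hf : ¬ p ∣ f) (ha0 : a ≠ 0) (ha : ¬ p ∣ a)
    (hco : a.Coprime f) {H : Finset ℂ} (hH : IsHalf M (a : ℂ) H) {z : ℂ}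
    (hm : ((p ^ j * f : ℕ) : ℂ) * z ∈ M.lattice)
    (ho : ∀ c : ℕ, (c : ℂ) * z ∈ M.lattice → f ∣ c) :
    V.valuation (ThetaH M H z) = V.valuation (u' ^ 2) ^ H.card ∧
      V.valuation (mu * dlX M a z / u) ≤ 1 := by
  obtain ⟨hzK, hza, hzq⟩ := hNE1 p V M u' e' lam' hC.toCp hg' j f a hf2 hf ha hco z hm ho
  obtain ⟨k1, k2, -⟩ := hTHN p er A B P V al hC L M u e lam u' e' lam' mu hL hM hg hg' hmu hI hk
    a H ha0 hH z hzK hza (fun q hq => hzq q (hH.mem q hq) (fun hqL => hH.ne q hq (by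
      rw [two_mul]; exact add_mem hqL hqL)))
  exact ⟨k1, k2⟩

/-- an integer prime to `p` does not kill a point of order `p` -/
lemma not_mem {p : ℕ} (hp : p.Prime) {L : PeriodPair} {q : ℂ} (hpq : (p : ℂ) * q ∈ L.lattice)
    (hq : q ∉ L.lattice) {d : ℤ} (hd : ¬ (p : ℤ) ∣ d) : (d : ℂ) * q ∉ L.lattice := by
  intro h
  apply hq
  have hc : IsCoprime (p : ℤ) d := (Nat.prime_iff_prime_int.1 hp).coprime_iff_not_dvd.2 hd
  obtain ⟨r, s, hrs⟩ := hc
  have h1 := zsmul_mem hpq r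
  have h2 := zsmul_mem h s
  rw [zsmul_eq_mul] at h1 h2
  have h3 : q = (r : ℂ) * ((p : ℂ) * q) + (s : ℂ) * ((d : ℂ) * q) := by
    have h4 : ((r * p + s * d : ℤ) : ℂ) = 1 := by rw [hrs]; simp
    calc q = ((r * p + s * d : ℤ) : ℂ) * q := by rw [h4, one_mul]
      _ = _ := by push_cast; ring
  rw [h3]
  exact add_mem h1 h2

/-- the multiples of a point of order `p` represent the nonzero classes of a kernel of order `p` -/
lemma reps {p : ℕ} (hp : p.Prime) {L M : PeriodPair} {nu : ℂ} {R : Finset ℂ}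
    (hR : IsRpM L M nu R) (hc : R.card + 1 = p) {q : ℂ} (hpq : (p : ℂ) * q ∈ L.lattice)
    (hq : q ∉ L.lattice) (hnu : nu * q ∈ M.lattice) :
    ∃ R' : Finset ℂ, IsRpM L M nu R' ∧
      R' = ((Finset.range p).erase 0).image (fun t : ℕ => (t : ℂ) * q) ∧
      Set.InjOn (fun t : ℕ => (t : ℂ) * q) ((Finset.range p).erase 0 : Finset ℕ) := by
  classical
  have hdiff : ∀ t ∈ Finset.range p, ∀ t' ∈ Finset.range p,
      (t : ℂ) * q - (t' : ℂ) * q ∈ L.lattice → t = t' := by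
    intro t ht t' ht' h
    by_contra hne
    rw [Finset.mem_range] at ht ht'
    refine not_mem hp hpq hq (d := (t : ℤ) - t') ?_ ?_
    · intro hd
      have h1 : |(t : ℤ) - t'| < p := by rw [abs_lt]; constructor <;> omega
      have h2 := Int.eq_zero_of_abs_lt_dvd hd h1
      omega
    · push_cast
      rw [sub_mul]
      exact h
  have hinj : Set.InjOn (fun t : ℕ => (t : ℂ) * q) ((Finset.range p).erase 0 : Finset ℕ) := by
    intro t ht t' ht' h
    have ht1 : t ∈ Finset.range p := Finset.mem_of_mem_erase (Finset.mem_coe.1 ht)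
    have ht2 : t' ∈ Finset.range p := Finset.mem_of_mem_erase (Finset.mem_coe.1 ht')
    refine hdiff t ht1 t' ht2 ?_
    have h1 : (t : ℂ) * q = (t' : ℂ) * q := h
    rw [h1, sub_self]
    exact zero_mem _
  set T : Finset ℂ := ((Finset.range p).erase 0).image (fun t : ℕ => (t : ℂ) * q) with hT
  have hTc : T.card + 1 = p := by
    rw [hT, Finset.card_image_of_injOn hinj, Finset.card_erase_of_mem
      (Finset.mem_range.2 hp.pos), Finset.card_range]
    have := hp.pos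
    omega
  have hmem : ∀ y ∈ T, ∃ t : ℕ, t ∈ Finset.range p ∧ t ≠ 0 ∧ (t : ℂ) * q = y := by
    intro y hy
    rw [hT, Finset.mem_image] at hy
    obtain ⟨t, ht, rfl⟩ := hy
    exact ⟨t, Finset.mem_of_mem_erase ht, Finset.ne_of_mem_erase ht, rfl⟩
  have hTmem : ∀ y ∈ T, nu * y ∈ M.lattice := by
    intro y hy
    obtain ⟨t, -, -, rfl⟩ := hmem y hy
    have := nsmul_mem hnu t
    rw [nsmul_eq_mul] at this
    have e : nu * ((t : ℂ) * q) = (t : ℂ) * (nu * q) := by ring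
    rwa [e]
  have hTne : ∀ y ∈ T, y ∉ L.lattice := by
    intro y hy
    obtain ⟨t, ht, ht0, rfl⟩ := hmem y hy
    intro h
    refine ht0 (hdiff t ht 0 (Finset.mem_range.2 hp.pos) ?_)
    simpa using h
  have hTinj : ∀ y ∈ T, ∀ y' ∈ T, y - y' ∈ L.lattice → y = y' := by
    intro y hy y' hy' h
    obtain ⟨t, ht, -, rfl⟩ := hmem y hy
    obtain ⟨t', ht', -, rfl⟩ := hmem y' hy'
    rw [hdiff t ht t' ht' h]
  refine ⟨T, ⟨hTmem, hTne, hTinj, ?_⟩, rfl, hinj⟩
  -- the map `T → R` is injective, so surjective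
  have hex : ∀ y ∈ T, ∃ r ∈ R, y - r ∈ L.lattice := fun y hy =>
    hR.surj y (hTmem y hy) (hTne y hy)
  choose! g hgR hgL using hex
  have hginj : Set.InjOn g (T : Set ℂ) := by
    intro y hy y' hy' h
    refine hTinj y hy y' hy' ?_
    have h1 := hgL y hy
    have h2 := hgL y' hy'
    rw [← h] at h2
    have h3 := sub_mem h1 h2
    have e : y - g y - (y' - g y) = y - y' := by ring
    rwa [e] at h3
  have himg : T.image g = R := by
    refine Finset.eq_of_subset_of_card_le ?_ ?_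
    · intro r hr
      rw [Finset.mem_image] at hr
      obtain ⟨y, hy, rfl⟩ := hr
      exact hgR y hy
    · rw [Finset.card_image_of_injOn hginj]
      omega
  intro z hz hzL
  obtain ⟨r, hr, hzr⟩ := hR.surj z hz hzL
  rw [← himg, Finset.mem_image] at hr
  obtain ⟨y, hy, rfl⟩ := hr
  refine ⟨y, hy, ?_⟩
  have h3 := sub_mem hzr (hgL y hy)
  have e : z - g y - (y - g y) = z - y := by ring
  rwa [e] at h3

/-- the distribution relation over the multiples of a point of order `p` -/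
lemma dist (hDSM : Sb_DSM) {p : ℕ} (hp : p.Prime) {L M : PeriodPair} {nu : ℂ} {R : Finset ℂ}
    (hnu0 : nu ≠ 0) (hI : Isg L M nu) (hR : IsRpM L M nu R) (hc : R.card + 1 = p) {q : ℂ}
    (hpq : (p : ℂ) * q ∈ L.lattice) (hq : q ∉ L.lattice) (hnu : nu * q ∈ M.lattice) (z : ℂ) :
    ∑ t ∈ Finset.range p, ee L (z + t * q) = nu * ee M (nu * z) := by
  classical
  obtain ⟨R', hR', hR'e, hinj⟩ := reps hp hR hc hpq hq hnu
  have h := hDSM L M nu R' hnu0 hI hR' z
  rw [← h, hR'e, Finset.sum_image hinj, ← Finset.add_sum_erase (Finset.range p)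
    (fun t : ℕ => ee L (z + t * q)) (Finset.mem_range.2 hp.pos)]
  congr 2
  push_cast
  ring

end INN

open _root_.Pool.Agent.OEE.INN in
theorem tb_INNE (hTHN : Sb_THNE) (hNE1 : Sb_NE1) (hEXO : Sb_EXOE) (hMUL : Sb_MULE) (hUNT : Sb_UNT)
    (hPIS : Sb_PISE) (hDSM : Sb_DSM) : Sb_INNE := by
  intro p er A B P V al hC n f a hf2 hf ha3 hao hpa hco ι R u e lam hgood i x hx
  have ha0 : a ≠ 0 := by omega
  have hf0 : f ≠ 0 := by omega
  have hpp : p.Prime := hC.pp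
  have hp0 : p ≠ 0 := hpp.ne_zero
  have hring := hC.ring
  have hCp : Cp p V := hC.toCp
  obtain ⟨φ, hφ⟩ := hring.hom
  have emul : ∀ x y : OO A B, emb (x * y) = emb x * emb y := fun x y => by
    rw [← hφ, map_mul, hφ, hφ]
  have enat : ∀ n : ℕ, emb ((n : ℕ) : OO A B) = n := fun n => by rw [← hφ, map_natCast]
  have eone : emb (1 : OO A B) = 1 := by rw [← hφ, map_one]
  have hxP : x ∉ P := by
    intro h
    apply hC.max.ne_top
    rw [Ideal.eq_top_iff_one]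
    obtain ⟨b1, b2, hb⟩ := hx
    rw [← hb]
    refine add_mem (Ideal.mul_mem_left _ _ h) (Ideal.mul_mem_left _ _ ?_)
    have h2 : ((p ^ (n + 1) * f : ℕ) : OO A B) = ((p ^ n * f : ℕ) : OO A B) * ((p : ℕ) : OO A B) := by
      push_cast
      ring
    rw [h2]
    exact Ideal.mul_mem_left _ _ hC.mem
  have vx : V.valuation (emb x) = 1 := hC.unit x hxP
  have hxc : IsCoprime x ((p * f : ℕ) : OO A B) := by
    refine IsCoprime.of_isCoprime_of_dvd_right hx ?_
    refine ⟨((p ^ n : ℕ) : OO A B), ?_⟩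
    push_cast
    ring
  have hpf0 : p * f ≠ 0 := Nat.mul_ne_zero hp0 hf0
  obtain ⟨hmu, hisg, N, hNp, hN⟩ := hMUL p A B hpp hring (p * f) ι R hpf0 (dvd_mul_right _ _) i x
    hxc
  obtain ⟨hmu1, hisg1, N1, hN1p, hN1⟩ := hMUL p A B hpp hring (p * f) ι R hpf0
    (dvd_mul_right _ _) i 1 isCoprime_one_left
  obtain ⟨hEx0, -⟩ := hEXO p er A B P V al hC n f ι R hf0 hf
  obtain ⟨hAnn, -, hzl⟩ := hEx0 i x hx
  have hLi : NLE A B (R.L i) := ⟨_, _, R.nl i⟩
  have hL0 : NLE A B (R.L R.i0) := ⟨_, _, R.nl R.i0⟩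
  obtain ⟨hm0, ho0⟩ := hzl 0 (by rw [mul_zero]; exact zero_mem _)
  rw [add_zero] at hm0
  simp only [add_zero] at ho0
  -- the first two claims
  have main : ∀ H : Finset ℂ, IsHalf (R.L i) (a : ℂ) H → ∀ ui ei lami : ℂ,
      GoodL V (R.L i) ui ei lami → V.valuation (ThetaH (R.L i) H
        (ptE R (p ^ (n + 1) * f) i x)) = V.valuation (ui ^ 2) ^ H.card ∧
      V.valuation (muXE R i * dlX (R.L i) a (ptE R (p ^ (n + 1) * f) i x) / u) ≤ 1 := by
    intro H hH ui ei lami hgi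
    have hk : Ker0 V (R.L R.i0) (R.L i) u e (muXE R i * emb x) :=
      (hUNT p V (R.L R.i0) (R.L i) u e lam ui ei lami (muXE R i * emb x) hCp hgood hgi hmu
        hisg).2 N hNp hN
    obtain ⟨k1, k2⟩ := core hTHN hNE1 hC hL0 hLi hgood hgi hmu hisg hk hf2 hf ha0 hpa hco hH
      hm0 ho0
    refine ⟨k1, ?_⟩
    have e1 : muXE R i * emb x * dlX (R.L i) a (ptE R (p ^ (n + 1) * f) i x) / u =
        emb x * (muXE R i * dlX (R.L i) a (ptE R (p ^ (n + 1) * f) i x) / u) := by ring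
    rwa [e1, map_mul, vx, one_mul] at k2
  obtain ⟨H0, hH0⟩ := half (R.L i) ha0 hao
  obtain ⟨ui, ei, lami, hgi⟩ := hC.good (R.L i) hLi
  refine ⟨fun H hH ui ei lami hgi => (main H hH ui ei lami hgi).1, (main H0 hH0 ui ei lami hgi).2,
    fun her q hqT hqL => ?_⟩
  -- the sums over `E[P]`
  obtain ⟨M, nu, hM, hQ⟩ := hC.exq (R.L i) hLi
  obtain ⟨uM, eM, lamM, hgM⟩ := hC.good M hM
  obtain ⟨hpis, ⟨RR, hRR, hRRc⟩, -⟩ := hPIS p er A B P V al hC (R.L i) M nu ui ei lami uM eM lamM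
    hLi hM hQ hgi hgM
  rw [(hC.nP her).1] at hRRc
  have hnu0 : nu ≠ 0 := hQ.1
  have hIsg : Isg (R.L i) M nu := by
    intro w hw
    rw [hQ.2]
    intro y _
    obtain ⟨b, om, hb⟩ := hLi
    obtain ⟨c, hc, rfl⟩ := (hb.mem w).1 hw
    exact (hb.mem _).2 ⟨y * c, b.mul_mem_left y hc, by rw [emul]; ring⟩
  have hpz : ∀ z : ℂ, Tor P (R.L i) z → (p : ℂ) * z ∈ (R.L i).lattice := by
    intro z hz
    have := hz ((p : ℕ) : OO A B) hC.mem
    rwa [enat] at this
  have hnuz : ∀ z : ℂ, Tor P (R.L i) z → nu * z ∈ M.lattice := fun z hz => (hQ.2 z).2 hz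
  have haqT : Tor P (R.L i) ((a : ℂ) * q) := by
    intro y hy
    have h1 := nsmul_mem (hqT y hy) a
    rw [nsmul_eq_mul] at h1
    have e : emb y * ((a : ℂ) * q) = (a : ℂ) * (emb y * q) := by ring
    rwa [e]
  have haqL : (a : ℂ) * q ∉ (R.L i).lattice := by
    have h := not_mem hpp (hpz q hqT) hqL (d := (a : ℤ)) (by exact_mod_cast hpa)
    simpa using h
  set z := ptE R (p ^ (n + 1) * f) i x with hz
  have hs1 := dist hDSM hpp hnu0 hIsg hRR hRRc (hpz q hqT) hqL (hnuz q hqT) z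
  have hs2 := dist hDSM hpp hnu0 hIsg hRR hRRc (hpz _ haqT) haqL (hnuz _ haqT) ((a : ℂ) * z)
  have hsum : ∑ t ∈ Finset.range p, dlX (R.L i) a (z + t * q) = nu * dlX M a (nu * z) := by
    unfold dlX
    rw [Finset.sum_sub_distrib, ← Finset.mul_sum, ← Finset.mul_sum, hs1]
    have e2 : ∑ t ∈ Finset.range p, ee (R.L i) ((a : ℂ) * (z + t * q)) =
        ∑ t ∈ Finset.range p, ee (R.L i) ((a : ℂ) * z + t * ((a : ℂ) * q)) := by
      refine Finset.sum_congr rfl fun t _ => ?_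
      congr 1
      ring
    rw [e2, hs2]
    have e3 : nu * ((a : ℂ) * z) = (a : ℂ) * (nu * z) := by ring
    rw [e3]
    ring
  obtain ⟨HM, hHM⟩ := half M ha0 hao
  have hm1 : ((p ^ (n + 1) * f : ℕ) : ℂ) * (nu * z) ∈ M.lattice := by
    have e2 : ((p ^ (n + 1) * f : ℕ) : ℂ) * (nu * z) = nu * (((p ^ (n + 1) * f : ℕ) : ℂ) * z) := by
      ring
    rw [e2]
    exact hIsg _ hm0
  have ho1 : ∀ c : ℕ, (c : ℂ) * (nu * z) ∈ M.lattice → f ∣ c := by
    intro c hc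
    have e2 : (c : ℂ) * (nu * z) = nu * ((c : ℂ) * z) := by ring
    rw [e2, hQ.2] at hc
    have h1 := hc ((p : ℕ) : OO A B) hC.mem
    rw [enat] at h1
    have h2 : f ∣ p * c := ho0 (p * c) (by push_cast; rw [mul_assoc]; exact h1)
    have h3 : Nat.Coprime f p := ((Nat.Prime.coprime_iff_not_dvd hpp).2 hf).symm
    exact h3.dvd_of_dvd_mul_left h2
  have hone : Isg M M 1 := fun w hw => by rwa [one_mul]
  obtain ⟨-, k2⟩ := core hTHN hNE1 hC hM hM hgM hgM one_ne_zero hone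
    (fun w hw _ => by rwa [one_mul] at hw) hf2 hf ha0 hpa hco hHM hm1 ho1
  rw [one_mul] at k2
  have hu1 : V.valuation (muXE R i * ui / u) = 1 := by
    have hU := hUNT p V (R.L R.i0) (R.L i) u e lam ui ei lami (muXE R i * emb 1) hCp hgood hgi
      hmu1 hisg1
    have h1 := hU.1.1 (hU.2 N1 hN1p hN1)
    rwa [eone, mul_one] at h1
  have hui0 := hgi.u0
  have huM0 := hgM.u0
  have hu0 := hgood.u0
  have e4 : muXE R i * (∑ t ∈ Finset.range p, dlX (R.L i) a (z + t * q)) / u =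
      (muXE R i * ui / u) * ((nu * uM / ui) * (dlX M a (nu * z) / uM)) := by
    rw [hsum]
    field_simp
  rw [e4, map_mul, hu1, one_mul, map_mul, hpis]
  exact mul_le_of_le_one_right' k2

end

end Pool.Agent.OEE


end

section

/-!
# OE, block E (port of `OB/E_MAIN.lean`), module MAIN: Lemma E for a conjugate family (helper81, after `NS/E_MAIN.lean` and `NS/F_MAIN.lean`)

Apply `τ'` to `w^p = ∏ C τ ^ g τ`: `(τ' w)^p = ∏ C(τ τ') ^ g τ`, because the Galois group of `D / k` is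
commutative; then (ONE) with `J = Gal(D/k)` and `X τ` the image of `S (τ τ')`.
-/

set_option autoImplicit false

namespace Pool.Agent.OEE

open _root_.MU3 _root_.Pool.Agent.MU3A _root_.Pool.Agent.MU3B _root_.Pool.Agent.MUX _root_.Pool.Agent.MUXU _root_.Pool.Agent.MUXE
open _root_.Pool.Agent.RI _root_.Pool.Agent.NS _root_.Pool.Agent.OB
open _root_.Pool.Agent.ME hiding ActE
open _root_.Pool.Agent.MEE
open _root_.Pool.Agent.OBE (SP Ann Ker0 PtsO RepO Cp lv0 Sb_ALG Sb_PRO Sb_PUL Sb_COE Sb_GRN Sb_LEG Sb_TNC Sb_GEN Sb_UNT Sb_RAT Sb_KIS Sb_NE1 Sb_DSM)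

noncomputable section

/-- (MAIN) Lemma E for a conjugate family, weights `emb x`. -/
theorem tb_MAINE (h1 : Sb_ONEE) : Sb_MAINE := by
  classical
  intro p er A B P V al hctx hT hgal n f hn hf3 hf2 hfp ι R u e lam hG H hH D hD hDF
  intro C S hC hcop hprod g hcube τ'
  letI := algC hD
  have hr := hctx.ring
  have hpp : p.Prime := hctx.pp
  have hp2 : p ≠ 2 := hctx.p2
  have hf0 : f ≠ 0 := by omega
  have hlv : lvX p f n = p ^ (n + 1) * f := by
    simp [lvX, q0, hp2]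
    ring
  have haX : aX p f = 1 + 2 * p * f := by
    simp [aX, q0, hp2]
  have hpf : 1 ≤ p * f := Nat.one_le_iff_ne_zero.2 (mul_ne_zero hpp.ne_zero hf0)
  have ha3 : 3 ≤ aX p f := by
    rw [haX, mul_assoc]
    omega
  have hodd : Odd (aX p f) := ⟨p * f, by rw [haX]; ring⟩
  have hap : p ∣ aX p f - 1 := ⟨2 * f, by rw [haX, Nat.add_sub_cancel_left]; ring⟩
  have haf : (aX p f).Coprime f := by
    rw [haX, Nat.Coprime, Nat.gcd_comm, show 1 + 2 * p * f = 1 + f * (2 * p) by ring,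
      Nat.gcd_add_mul_left_right]
    exact Nat.gcd_one_right f
  have hm0 : lvX p f n ≠ 0 := by
    rw [hlv]
    exact mul_ne_zero (pow_ne_zero _ hpp.ne_zero) hf0
  have hmb := m0_ne A B hr hm0
  have := hT.fin _ hmb
  -- D is finite over k
  let φ : D →ₗ[kk A B] RFE (idl (A := A) (B := B) (lvX p f n)) :=
    { toFun := fun y => ⟨y, hDF y y.2⟩
      map_add' := fun x y => rfl
      map_smul' := fun c x => by
        apply Subtype.ext
        show ((c • x : D) : ℂ) =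
          ((c • (⟨x, hDF x x.2⟩ : RFE (idl (A := A) (B := B) (lvX p f n))) :
            RFE (idl (A := A) (B := B) (lvX p f n))) : ℂ)
        rw [Algebra.smul_def, Algebra.smul_def]
        rfl }
  have hφ : Function.Injective φ := by
    intro x y hxy
    apply Subtype.ext
    exact congrArg (fun z : RFE (idl (A := A) (B := B) (lvX p f n)) => (z : ℂ)) hxy
  have : FiniteDimensional (kk A B) D := FiniteDimensional.of_injective φ hφ
  have : Finite (D ≃ₐ[kk A B] D) := inferInstance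
  letI : Fintype (D ≃ₐ[kk A B] D) := Fintype.ofFinite _
  have hcom := mx_comm hT _ hmb D hD hDF
  have hout : Function.Injective
      (fun q : ι × (OO A B ⧸ idl (A := A) (B := B) (lvX p f n)) =>
        ((q.1, Quotient.out q.2) : ι × OO A B)) := by
    intro q q' hq
    have hq0 : ((q.1, Quotient.out q.2) : ι × OO A B) = (q'.1, Quotient.out q'.2) := hq
    have h4 : q.1 = q'.1 := (Prod.mk.inj hq0).1
    have h5 : (Quotient.out q.2 : OO A B) = Quotient.out q'.2 := (Prod.mk.inj hq0).2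
    have h6 : Ideal.Quotient.mk (idl (A := A) (B := B) (lvX p f n)) (Quotient.out q.2) =
        Ideal.Quotient.mk (idl (A := A) (B := B) (lvX p f n)) (Quotient.out q'.2) :=
      congrArg _ h5
    rw [Ideal.Quotient.mk_out, Ideal.Quotient.mk_out] at h6
    exact Prod.ext h4 h6
  set X : (D ≃ₐ[kk A B] D) → Finset (ι × OO A B) := fun τ =>
    (S (τ * τ')).image (fun q => (q.1, Quotient.out q.2)) with hX
  have hcopX : ∀ τ : D ≃ₐ[kk A B] D, ∀ y ∈ X τ,
      IsCoprime y.2 ((p ^ (n + 1) * f : ℕ) : OO A B) := by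
    intro τ y hy
    rw [hX] at hy
    obtain ⟨q, hq, rfl⟩ := Finset.mem_image.1 hy
    have := hcop (τ * τ') q hq
    rw [← hlv]
    exact this
  have key := h1 p er A B P V al hctx hT hgal n f (aX p f) hn hf3 hf2 hfp ha3 hodd hap haf ι R
    u e lam hG H hH (D ≃ₐ[kk A B] D) X g hcopX
  rw [← hlv] at key
  have hprodX : ∀ τ : D ≃ₐ[kk A B] D,
      ∏ y ∈ X τ, ThetaH (R.L y.1) (H y.1) (ptE R (lvX p f n) y.1 y.2) = C (τ * τ') := by
    intro τ
    rw [hX, Finset.prod_image (fun x _ y _ hxy => hout hxy), hprod (τ * τ')]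
  have hsumX : ∀ τ : D ≃ₐ[kk A B] D,
      ∑ y ∈ X τ, emb y.2 * muXE R y.1 * dlX (R.L y.1) (aX p f) (ptE R (lvX p f n) y.1 y.2) =
      ∑ q ∈ S (τ * τ'), emb (Quotient.out q.2) * muXE R q.1 *
        dlX (R.L q.1) (aX p f) (ptE R (lvX p f n) q.1 (Quotient.out q.2)) := by
    intro τ
    rw [hX, Finset.sum_image (fun x _ y _ hxy => hout hxy)]
  rw [finsum_eq_sum_of_fintype]
  have e1 : (∑ τ : D ≃ₐ[kk A B] D, (g τ : ℂ) * ∑ q ∈ S (τ * τ'),
      emb (Quotient.out q.2) * muXE R q.1 *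
        dlX (R.L q.1) (aX p f) (ptE R (lvX p f n) q.1 (Quotient.out q.2))) =
      ∑ j : D ≃ₐ[kk A B] D, (g j : ℂ) * ∑ y ∈ X j, emb y.2 * muXE R y.1 *
      dlX (R.L y.1) (aX p f) (ptE R (lvX p f n) y.1 y.2) :=
    Finset.sum_congr rfl (fun τ _ => by rw [hsumX])
  rw [e1]
  apply key
  obtain ⟨v, hv, hvp⟩ := hcube
  rw [finprod_eq_prod_of_fintype] at hvp
  obtain ⟨y, hy1, -⟩ := hC 1
  have hyτ : ∀ τ : D ≃ₐ[kk A B] D, ((τ y : D) : ℂ) = C τ := by
    intro τ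
    obtain ⟨y', hy', hy''⟩ := hC τ
    have : y' = y := Subtype.ext (hy'.trans hy1.symm)
    rw [← hy'', this]
  have hw4 : (⟨v, hv⟩ : D) ^ p = ∏ τ : D ≃ₐ[kk A B] D, (τ y) ^ g τ := by
    apply Subtype.ext
    rw [IntermediateField.coe_prod]
    rw [show (((⟨v, hv⟩ : D) ^ p : D) : ℂ) = v ^ p from rfl, hvp]
    refine Finset.prod_congr rfl (fun τ _ => ?_)
    rw [← hyτ τ, ← m0_zpc (D := D)]
  refine ⟨(τ' ⟨v, hv⟩ : D), hDF _ (τ' ⟨v, hv⟩).2, ?_⟩
  have hw5 := congrArg τ' hw4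
  rw [map_pow, map_prod] at hw5
  have hw6 := congrArg (fun y : D => (y : ℂ)) hw5
  push_cast at hw6
  rw [hw6]
  refine Finset.prod_congr rfl (fun τ _ => ?_)
  rw [hprodX, hcom τ τ', map_zpow₀, ← hyτ (τ' * τ), m0_zpc]
  rfl

end

end Pool.Agent.OEE


end

section

/-!
# OE, block E (port of `OB/E_ONE.lean`), module ONE: Lemma E for products over finite families of points (helper96; model helper76, helper86)
-/

set_option autoImplicit false

open Polynomial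

namespace Pool.Agent.OEE

open _root_.MU3 _root_.Pool.Agent.MU3A _root_.Pool.Agent.MU3B _root_.Pool.Agent.MUX _root_.Pool.Agent.MUXU _root_.Pool.Agent.MUXE
open _root_.Pool.Agent.RI _root_.Pool.Agent.NS _root_.Pool.Agent.OB
open _root_.Pool.Agent.MUXV (GR InK tX)
open _root_.Pool.Agent.NSE (su ru WL IntP)
open _root_.Pool.Agent.ME hiding ActE
open _root_.Pool.Agent.MEE
open _root_.Pool.Agent.OBE (SP Ann Ker0 PtsO RepO Cp lv0 Sb_ALG Sb_PRO Sb_PUL Sb_COE Sb_GRN Sb_LEG Sb_TNC Sb_GEN Sb_UNT Sb_RAT Sb_KIS Sb_NE1 Sb_DSM)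

noncomputable section

namespace ONE

/-- `|H|` is divisible by `p` -/
lemma cardp {L : PeriodPair} {p a : ℕ} {H : Finset ℂ} (hp : p.Prime) (hp2 : p ≠ 2) (ha : 1 ≤ a)
    (hpa : p ∣ a - 1) (hH : IsHalf L (a : ℂ) H) : p ∣ H.card := by
  obtain ⟨-, -, h⟩ := b_HRE L a H (by exact_mod_cast (by omega : a ≠ 0)) (fun w hw => by
    have := nsmul_mem hw a
    rwa [nsmul_eq_mul] at this) hH
  have h1 : 2 * H.card + 1 = a ^ 2 := by
    rw [Complex.norm_natCast] at h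
    exact_mod_cast h
  obtain ⟨t, ht⟩ := hpa
  have h2 : a = p * t + 1 := by omega
  have h3 : 2 * H.card = p * (t * (p * t + 2)) := by
    have h4 : a ^ 2 = p * (t * (p * t + 2)) + 1 := by rw [h2]; ring
    omega
  have h5 : p ∣ 2 * H.card := ⟨_, h3⟩
  rcases (Nat.Prime.dvd_mul hp).1 h5 with h6 | h6
  · exact absurd ((Nat.prime_dvd_prime_iff_eq hp Nat.prime_two).1 h6) hp2
  · exact h6

lemma usq (h5 : Sb_LEG) (h7 : Sb_UNRE) {p er : ℕ} {A B : ℤ} {P : Ideal (OO A B)}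
    {V : ValuationSubring ℂ} {al : OO A B} (hC : CtxX p er A B P V al)
    (hT : TorXE A B) {L : PeriodPair} {u e lam : ℂ} (hL : NLE A B L) (hg : GoodL V L u e lam) :
    ∃ k : ℤ, V.valuation (u ^ 2) = V.valuation (emb al) ^ k := by
  obtain ⟨w₁, w₂, h1, h1', h2, h2', he, hu, -⟩ := h5 p V L u e lam hC.toCp hg
  have hring := hC.ring
  obtain ⟨φ, hφ⟩ := hring.hom
  have e2 : emb ((2 : ℕ) : OO A B) = 2 := by rw [← hφ, map_natCast]; norm_num
  obtain ⟨-, hx, -⟩ := tm_FAC tm_TRA A B hring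
  have hsp := (tm_TRA A B hring L hL).2.2.2.2.1
  have m1 : xnE L w₁ ∈ RFE (idl (A := A) (B := B) 2) :=
    (hx _ L hL).2 w₁ ((hsp _ _).2 (by rw [e2]; exact h1)) h1'
  have m2 : xnE L w₂ ∈ RFE (idl (A := A) (B := B) 2) :=
    (hx _ L hL).2 w₂ ((hsp _ _).2 (by rw [e2]; exact h2)) h2'
  have e3 : u ^ 2 = xnE L w₂ - xnE L w₁ := by
    rw [← hu, xnE, xnE]
  have hp2 : ¬ p ∣ 2 := fun h => hC.p2 ((Nat.prime_dvd_prime_iff_eq hC.pp Nat.prime_two).1 h)
  refine h7 p er A B P V al hC hT (idl (A := A) (B := B) 2) ?_ le_rfl ?_ _ ?_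
    (pow_ne_zero 2 hg.u0)
  · intro h
    rw [Ideal.span_singleton_eq_bot] at h
    have h3 := congrArg emb h
    rw [e2, ← hφ 0, map_zero] at h3
    norm_num at h3
  · intro h
    exact (hC.nat 2 hp2).2 (h (Ideal.mem_span_singleton_self _))
  · rw [e3]
    exact sub_mem m2 m1

lemma theta_per (L : PeriodPair) (H : Finset ℂ) (z v : ℂ) (hv : v ∈ L.lattice) :
    ThetaH L H (z + v) = ThetaH L H z := by
  have h2 : L.weierstrassP (z + v) = L.weierstrassP z := L.weierstrassP_add_coe z ⟨v, hv⟩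
  simp only [ThetaH, h2]

/-- everything about one point `(i, x)` -/
lemma point (hLEG : Sb_LEG) (hTHN : Sb_THNE) (hUNT : Sb_UNT) (hUNR : Sb_UNRE) (hNE1 : Sb_NE1)
    (hMUL : Sb_MULE) {p er : ℕ} {A B : ℤ} {P : Ideal (OO A B)} {V : ValuationSubring ℂ}
    {al : OO A B} (hC : CtxX p er A B P V al) (hT : TorXE A B) {n f a : ℕ}
    (hf3 : 3 ≤ f) (hf : ¬ p ∣ f) (ha : 3 ≤ a) (hpa : p ∣ a - 1) (hco : a.Coprime f) {ι : Type}
    (R : RepsE A B (p * f) ι) {u e lam : ℂ} (hgood : GoodL V (R.L R.i0) u e lam)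
    {H : ι → Finset ℂ} (hH : ∀ i, IsHalf (R.L i) (a : ℂ) (H i)) (i : ι) (x : OO A B)
    (hx : IsCoprime x ((p ^ (n + 1) * f : ℕ) : OO A B)) :
    Isg (R.L R.i0) (R.L i) (muXE R i * emb x) ∧
    ptE R (p ^ (n + 1) * f) i x = muXE R i * (emb x * (R.om R.i0 / (p ^ (n + 1) * f : ℕ))) ∧
    ((p ^ (n + 1) * f : ℕ) : ℂ) * ptE R (p ^ (n + 1) * f) i x ∈ (R.L i).lattice ∧
    ptE R (p ^ (n + 1) * f) i x ∉ (R.L i).lattice ∧
    (∃ k : ℤ, V.valuation (ThetaH (R.L i) (H i) (ptE R (p ^ (n + 1) * f) i x)) =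
      V.valuation (emb al) ^ (p * k)) ∧
    RepO p V (SP P er (R.L R.i0)) (su (R.L R.i0) u e) (ru (R.L R.i0) u e)
      (fun Y => ThetaH (R.L i) (H i) (ptE R (p ^ (n + 1) * f) i x + muXE R i * emb x * Y) /
        ThetaH (R.L i) (H i) (ptE R (p ^ (n + 1) * f) i x)) 1
      (muXE R i * emb x * dlX (R.L i) a (ptE R (p ^ (n + 1) * f) i x) / u) := by
  have hring := hC.ring
  have hp0 := hC.pp.pos
  have hpa' : ¬ p ∣ a := by
    intro h
    have h1 : p ∣ a - (a - 1) := Nat.dvd_sub h hpa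
    rw [show a - (a - 1) = 1 by omega, Nat.dvd_one] at h1
    exact hC.pp.one_lt.ne' h1
  have hxn : IsCoprime x ((p * f : ℕ) : OO A B) := by
    refine hx.of_isCoprime_of_dvd_right ⟨((p ^ n : ℕ) : OO A B), ?_⟩
    push_cast
    ring
  have hpf0 : p * f ≠ 0 := mul_ne_zero (by omega) (by omega)
  obtain ⟨hmu, hisg, N, hN3, hN⟩ := hMUL p A B hC.pp hring (p * f) ι R hpf0 (dvd_mul_right _ _) i x
    hxn
  have hm0 : p ^ (n + 1) * f ≠ 0 := mul_ne_zero (pow_ne_zero _ (by omega)) (by omega)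
  have hmf : (p ^ (n + 1) * f).primeFactors ⊆ (p * f).primeFactors := by
    rw [Nat.primeFactors_mul (pow_ne_zero _ (by omega)) (by omega),
      Nat.primeFactors_pow _ (by omega), Nat.primeFactors_mul (by omega) (by omega)]
  obtain ⟨-, -, -, hpt⟩ := tm_PT tm_TRA A B hring (p * f) ι R hpf0 i
  obtain ⟨hz, hzm, hzo, -⟩ := hpt (p ^ (n + 1) * f) hm0 hmf x
  obtain ⟨u', e', lam', hg'⟩ := hC.good (R.L i) ⟨_, _, R.nl i⟩
  obtain ⟨hzK, hza, hzq⟩ := hNE1 p V (R.L i) u' e' lam' hC.toCp hg' (n + 1) f a (by omega) hf hpa'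
    hco _ hzm (fun c hc => (dvd_mul_left f _).trans (hzo hx c hc))
  have hK0 : Ker0 V (R.L R.i0) (R.L i) u e (muXE R i * emb x) :=
    (hUNT p V (R.L R.i0) (R.L i) u e lam u' e' lam' _ hC.toCp hgood hg' hmu hisg).2 N hN3 hN
  obtain ⟨k1, -, k3⟩ := hTHN p er A B P V al hC (R.L R.i0) (R.L i) u e lam u' e' lam'
    (muXE R i * emb x) ⟨_, _, R.nl _⟩ ⟨_, _, R.nl i⟩ hgood
    hg' hmu hisg hK0 a (H i) (by omega) (hH i) _ hzK hza (fun q hq =>
      hzq q ((hH i).mem q hq) (fun hqL => (hH i).ne q hq (by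
        rw [two_mul]; exact add_mem hqL hqL)))
  obtain ⟨k, hk⟩ := usq hLEG hUNR hC hT ⟨_, _, R.nl i⟩ hg'
  obtain ⟨t, ht⟩ := cardp hC.pp hC.p2 (by omega) hpa (hH i)
  refine ⟨hisg, hz, hzm, fun h => hzK (Or.inl h), ⟨k * t, ?_⟩, k3⟩
  rw [k1, hk, ht, ← zpow_natCast, ← zpow_mul]
  congr 1
  push_cast
  ring

/-- the product of the functions `G y` -/
lemma asm (hALG : Sb_ALG) (hPRO : Sb_PRO) {p : ℕ} {V : ValuationSubring ℂ} {S : Set ℂ}
    {s r : ℂ → ℂ} {a2 a4 : ℂ} (hP : PtsO p V S s r a2 a4) {J κ : Type} [Fintype J]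
    (X : J → Finset κ) (g : J → ℤ)
    (G : κ → ℂ → ℂ) (l : κ → ℂ) (hG : ∀ j, ∀ y ∈ X j, RepO p V S s r (G y) 1 (l y)) :
    RepO p V S s r (fun Y => ∏ j, (∏ y ∈ X j, G y Y) ^ g j) 1
      (∑ j, (g j : ℂ) * ∑ y ∈ X j, l y) := by
  obtain ⟨-, -, -, hcg, -⟩ := hALG p V S s r a2 a4 hP
  obtain ⟨-, hpr, -⟩ := hPRO p V S s r a2 a4 hP
  have v0 : V.valuation (0 : ℂ) ≤ V.valuation (p : ℂ) := by rw [map_zero]; exact zero_le
  have h1 : ∀ j, RepO p V S s r (fun Y => ∏ y ∈ X j, G y Y) 1 (∑ y ∈ X j, l y) := by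
    intro j
    have h2 := (hpr (X j) (fun y => G y.1) (fun _ => 1) (fun y => l y.1) (fun _ => 1)
      (fun y => by rw [one_mul]; exact hG j y.1 y.2) (fun y => map_one _)).2
    refine hcg _ _ _ _ _ _ h2 (fun Y _ => ?_) ?_ ?_
    · simp only [zpow_one]
      exact (Finset.prod_coe_sort (X j) (fun y => G y Y)).symm
    · simp only [one_zpow, Finset.prod_const_one, sub_self]
      exact v0
    · simp only [one_zpow, Finset.prod_const_one, one_mul, Int.cast_one]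
      rw [Finset.sum_coe_sort (X j) (fun y => l y), sub_self]
      exact v0
  have h3 := (hpr J (fun j Y => ∏ y ∈ X j, G y Y) (fun _ => 1) (fun j => ∑ y ∈ X j, l y) g
    (fun j => by rw [one_mul]; exact h1 j) (fun y => map_one _)).2
  refine hcg _ _ _ _ _ _ h3 (fun Y _ => rfl) ?_ ?_
  · simp only [one_zpow, Finset.prod_const_one, sub_self]
    exact v0
  · simp only [one_zpow, Finset.prod_const_one, one_mul, sub_self]
    exact v0

/-- an automorphism applied to the root -/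
lemma conj {p : ℕ} {A B : ℤ} {F : IntermediateField (kk A B) ℂ} (σ : F ≃ₐ[kk A B] F)
    {J κ : Type} [Fintype J] (X : J → Finset κ) (g : J → ℤ) (T T' : κ → ℂ)
    (hT : ∀ j, ∀ y ∈ X j, ∃ h : T y ∈ F, (σ ⟨T y, h⟩ : ℂ) = T' y) {y0 : ℂ} (hy0 : y0 ∈ F)
    (h : y0 ^ p = ∏ j, (∏ y ∈ X j, T y) ^ g j) :
    (σ ⟨y0, hy0⟩ : ℂ) ^ p = ∏ j, (∏ y ∈ X j, T' y) ^ g j := by
  have h1 : ∀ y, ∃ th : F, ∀ j, y ∈ X j → (th : ℂ) = T y ∧ (σ th : ℂ) = T' y := by
    intro y
    by_cases hy : ∃ j, y ∈ X j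
    · obtain ⟨j, hj⟩ := hy
      obtain ⟨h2, h3⟩ := hT j y hj
      exact ⟨⟨T y, h2⟩, fun _ _ => ⟨rfl, h3⟩⟩
    · exact ⟨1, fun j hj => absurd ⟨j, hj⟩ hy⟩
  choose θ hθ using h1
  have h2 : (⟨y0, hy0⟩ : F) ^ p = ∏ j, (∏ y ∈ X j, θ y) ^ g j := by
    apply F.val.injective
    rw [map_pow, map_prod]
    simp only [map_zpow₀, map_prod]
    change y0 ^ p = _
    rw [h]
    refine Finset.prod_congr rfl fun j _ => ?_
    congr 1
    exact Finset.prod_congr rfl fun y hy => ((hθ y j hy).1).symm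
  have h3 : (em σ ⟨y0, hy0⟩) ^ p = ∏ j, (∏ y ∈ X j, em σ (θ y)) ^ g j := by
    rw [← map_pow, h2, map_prod]
    simp only [map_zpow₀, map_prod]
  refine h3.trans (Finset.prod_congr rfl fun j _ => ?_)
  congr 1
  exact Finset.prod_congr rfl fun y hy => (hθ y j hy).2

/-- multiplication by a power of an element of `k` -/
lemma conjk {A B : ℤ} {F : IntermediateField (kk A B) ℂ} (σ : F ≃ₐ[kk A B] F) {y0 w0 d : ℂ}
    (hd : d ∈ kk A B) (K : ℤ) (hy0 : y0 ∈ F) (hw0 : w0 ∈ F) (h : y0 = w0 * d ^ K) :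
    (σ ⟨y0, hy0⟩ : ℂ) = σ ⟨w0, hw0⟩ * d ^ K := by
  have h1 : (⟨y0, hy0⟩ : F) = ⟨w0, hw0⟩ * (algebraMap (kk A B) F ⟨d, hd⟩) ^ K := by
    apply F.val.injective
    rw [map_mul, map_zpow₀]
    exact h
  have h2 : em σ ⟨y0, hy0⟩ = em σ ⟨w0, hw0⟩ * d ^ K := by
    rw [h1, map_mul, map_zpow₀, AlgHom.commutes]
    rfl
  exact h2

/-- powers of `v(d)^p` -/
def Cb (p : ℕ) (V : ValuationSubring ℂ) (d x : ℂ) : Prop :=
  ∃ k : ℤ, V.valuation x = V.valuation d ^ (p * k)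

lemma Cb.one (p : ℕ) (V : ValuationSubring ℂ) (d : ℂ) : Cb p V d 1 := ⟨0, by simp⟩

lemma Cb.mul {p : ℕ} {V : ValuationSubring ℂ} {d x y : ℂ} (hd : d ≠ 0) (hx : Cb p V d x)
    (hy : Cb p V d y) : Cb p V d (x * y) := by
  obtain ⟨k, hk⟩ := hx
  obtain ⟨l, hl⟩ := hy
  refine ⟨k + l, ?_⟩
  rw [map_mul, hk, hl, ← zpow_add₀ ((Valuation.ne_zero_iff _).2 hd)]
  congr 1
  ring

lemma Cb.zpow {p : ℕ} {V : ValuationSubring ℂ} {d x : ℂ} (hx : Cb p V d x) (g : ℤ) :
    Cb p V d (x ^ g) := by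
  obtain ⟨k, hk⟩ := hx
  refine ⟨k * g, ?_⟩
  rw [map_zpow₀, hk, ← zpow_mul]
  congr 1
  ring

end ONE

open _root_.Pool.Agent.OEE.ONE in
theorem tb_ONEE (hALG : Sb_ALG) (hPRO : Sb_PRO) (hLEG : Sb_LEG) (hPTS : Sb_PTSE) (hTHN : Sb_THNE)
    (hIDL : Sb_IDLE) (hUNR : Sb_UNRE) (hSIG : Sb_SIGE) (hNE1 : Sb_NE1) (hEXO : Sb_EXOE)
    (hMUL : Sb_MULE) (hUNT : Sb_UNT) : Sb_ONEE := by
  intro p er A B P V al hC hT hG n f a hn hf3 hf2 hf ha3 _ hpa hco ι R u e lam hgood H hH J _ X g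
    hX ⟨y0, hy0, hy3⟩
  have ha0 : a ≠ 0 := by omega
  have hpa' : ¬ p ∣ a := by
    intro h
    have h1 : p ∣ a - (a - 1) := Nat.dvd_sub h hpa
    rw [show a - (a - 1) = 1 by omega, Nat.dvd_one] at h1
    exact hC.pp.one_lt.ne' h1
  have hf0 : f ≠ 0 := by omega
  have hp0 : p ≠ 0 := hC.pp.ne_zero
  have hpc : (p : ℂ) ≠ 0 := by exact_mod_cast hp0
  have hring := hC.ring
  obtain ⟨φ, hφ⟩ := hring.hom
  have emul : ∀ x y : OO A B, emb (x * y) = emb x * emb y := fun x y => by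
    rw [← hφ, map_mul, hφ, hφ]
  have eadd : ∀ x y : OO A B, emb (x + y) = emb x + emb y := fun x y => by
    rw [← hφ, map_add, hφ, hφ]
  have eone : emb (1 : OO A B) = 1 := by rw [← hφ, map_one]
  have enat : ∀ n : ℕ, emb ((n : ℕ) : OO A B) = n := fun n => by rw [← hφ, map_natCast]
  have hP := fun j y hy => point (n := n) hLEG hTHN hUNT hUNR hNE1 hMUL hC hT hf3 hf ha3 hpa hco R
    hgood hH y.1 y.2 (hX j y hy)
  have hNL0 : NLE A B (R.L R.i0) := ⟨_, _, R.nl _⟩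
  obtain ⟨hPts, -, hper⟩ := hPTS p er A B P V al hC (R.L R.i0) u e lam hNL0 hgood
  -- the uniformiser
  obtain ⟨d, hd⟩ : ∃ d : ℂ, d = emb al := ⟨_, rfl⟩
  have hdk : d ∈ kk A B := by rw [hd]; exact Pool.Agent.MU3A.emb_mem _
  have hd0 : d ≠ 0 := by
    intro h
    have h1 := hC.alv
    have h2 := hC.er1
    rw [← hd, h, map_zero, zero_pow (by omega)] at h1
    exact (Valuation.ne_zero_iff V.valuation).2 hpc h1.symm
  have vd0 : V.valuation d ≠ 0 := (Valuation.ne_zero_iff _).2 hd0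
  -- the product and its root
  have hCW : Cb p V d (∏ j, (∏ y ∈ X j, ThetaH (R.L y.1) (H y.1)
      (ptE R (p ^ (n + 1) * f) y.1 y.2)) ^ g j) := by
    refine Finset.prod_induction _ (Cb p V d) (fun _ _ => Cb.mul hd0) (Cb.one p V d)
      fun j _ => Cb.zpow ?_ _
    refine Finset.prod_induction _ (Cb p V d) (fun _ _ => Cb.mul hd0) (Cb.one p V d)
      fun y hy => ?_
    rw [hd]
    exact (hP j y hy).2.2.2.2.1
  obtain ⟨K, hK⟩ := hCW
  rw [← hy3, map_pow, mul_comm, zpow_mul] at hK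
  have hK' : V.valuation y0 ^ p = (V.valuation d ^ K) ^ p := by
    rw [hK, zpow_natCast]
  have vy0 : V.valuation y0 = V.valuation d ^ K :=
    (pow_left_inj₀ zero_le zero_le hp0).1 hK'
  obtain ⟨w0, hw0⟩ : ∃ w0 : ℂ, w0 = y0 / d ^ K := ⟨_, rfl⟩
  have hdK : d ^ K ≠ 0 := zpow_ne_zero _ hd0
  have hyw : y0 = w0 * d ^ K := by rw [hw0, div_mul_cancel₀ _ hdK]
  have vw0 : V.valuation w0 = 1 := by
    rw [hw0, map_div₀, map_zpow₀, vy0, div_self (zpow_ne_zero _ vd0)]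
  have hw00 : w0 ≠ 0 := by
    intro h
    rw [h, map_zero] at vw0
    exact zero_ne_one vw0
  have hdF : ∀ F : IntermediateField (kk A B) ℂ, d ^ K ∈ F := fun F =>
    zpow_mem (F.algebraMap_mem ⟨d, hdk⟩) K
  -- the level
  have hpfa : ¬ p ∣ f * a := fun h => ((Nat.Prime.dvd_mul hC.pp).1 h).elim hf hpa'
  obtain ⟨i1, -, -, -, -, i6, -⟩ := hIDL p er A B P V al hC f n hf0 hf
  obtain ⟨j1, j2, j3, -, j5, -, j7, -⟩ := hIDL p er A B P V al hC (f * a) n
    (mul_ne_zero hf0 ha0) hpfa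
  obtain ⟨J', hJ'⟩ : ∃ J', er * (n + 1) = J' + 1 := by
    have h1 := hC.er1
    have h2 : 0 < er * (n + 1) := Nat.mul_pos (by omega) (by omega)
    exact ⟨er * (n + 1) - 1, by omega⟩
  rw [hJ'] at i1 j1
  have hle1 : lv0 P (f * a) n ≤ lv0 P f n := by
    refine Ideal.mul_mono_left ?_
    rw [Ideal.span_singleton_le_span_singleton]
    exact ⟨(a : OO A B), by push_cast; ring⟩
  have hmid : idl (A := A) (B := B) (p ^ (n + 1) * (f * a)) = P ^ (J' + 1) * lv0 P (f * a) n := j1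
  -- the big field
  obtain ⟨mm, hmm⟩ : ∃ mm : Ideal (OO A B), mm = P ^ (J' + 1) * lv0 P (f * a) n := ⟨_, rfl⟩
  have hmma : mm ≤ idl (A := A) (B := B) (p ^ (n + 1) * f) := by
    rw [hmm, ← hmid, Ideal.span_singleton_le_span_singleton]
    exact ⟨(a : OO A B), by push_cast; ring⟩
  have hmmA : mm ≤ sp (a : OO A B) := by
    rw [hmm, ← hmid, Ideal.span_singleton_le_span_singleton]
    exact ⟨((p ^ (n + 1) * f : ℕ) : OO A B), by push_cast; ring⟩
  have hmm2 : mm ≤ idl (A := A) (B := B) 2 := by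
    refine hmma.trans ?_
    rw [Ideal.span_singleton_le_span_singleton]
    obtain ⟨f', hf'⟩ := hf2
    exact ⟨((p ^ (n + 1) * f' : ℕ) : OO A B), by rw [hf']; push_cast; ring⟩
  have hmm0 : mm ≠ ⊥ := by
    rw [hmm, ← hmid]
    intro h
    rw [Ideal.span_singleton_eq_bot] at h
    have h2 := congrArg emb h
    rw [enat, ← hφ 0, map_zero] at h2
    exact mul_ne_zero (pow_ne_zero _ hp0) (mul_ne_zero hf0 ha0) (by exact_mod_cast h2)
  have hFAC := (tm_FAC tm_TRA A B hring).1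
  have hy0M : y0 ∈ RFE mm := hFAC _ _ hmma hy0
  have hw0M : w0 ∈ RFE mm := by
    rw [hw0]
    exact div_mem hy0M (hdF _)
  obtain ⟨z₁, hz₁⟩ : ∃ z₁ : ℂ, z₁ = R.om R.i0 / (p ^ (n + 1) * f : ℕ) := ⟨_, rfl⟩
  obtain ⟨-, hEz, hEY⟩ := hEXO p er A B P V al hC n f ι R hf0 hf
  rw [← hz₁, i1] at hEz
  have hsig := hSIG p er A B P V al hC hT hG (R.L R.i0) u e lam hNL0 hgood J' f (lv0 P f n)
    (lv0 P (f * a) n) hf3 hf2 hle1 i6 j2 j3 z₁ hEz w0 (by rw [← hmm]; exact hw0M) vw0.le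
  rw [← hmm] at hsig
  obtain ⟨F, β, vβ, hF, hσF⟩ := hsig
  have hm0 : ((p ^ (n + 1) * f : ℕ) : ℂ) ≠ 0 := by
    exact_mod_cast mul_ne_zero (pow_ne_zero _ hp0) hf0
  have h3n : ∀ eb : ℂ, ((p ^ n * (f * a) : ℕ) : ℂ) * eb * z₁ = eb * (a * R.om R.i0 / p) := by
    intro eb
    have h5 : ((p ^ (n + 1) * f : ℕ) : ℂ) = p * ((p ^ n * f : ℕ) : ℂ) := by
      push_cast
      ring
    have h6 : ((p ^ n * (f * a) : ℕ) : ℂ) = ((p ^ n * f : ℕ) : ℂ) * a := by
      push_cast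
      ring
    have h7 : ((p ^ n * f : ℕ) : ℂ) ≠ 0 := by
      intro h
      rw [h5, h, mul_zero] at hm0
      exact hm0 rfl
    rw [hz₁, h5, h6]
    field_simp
  -- the identity at the points `Y_b`
  have key : ∀ b ∈ Pc P,
      ∏ j, (∏ y ∈ X j, ThetaH (R.L y.1) (H y.1) (ptE R (p ^ (n + 1) * f) y.1 y.2 +
        muXE R y.1 * emb y.2 * (emb b * (a * R.om R.i0 / p))) /
        ThetaH (R.L y.1) (H y.1) (ptE R (p ^ (n + 1) * f) y.1 y.2)) ^ g j =
      (F (emb b * (a * R.om R.i0 / p)) * w0⁻¹) ^ p := by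
    intro b hb
    obtain ⟨c, hc⟩ : ∃ c : OO A B, c = 1 + ((p ^ n * (f * a) : ℕ) : OO A B) * b := ⟨_, rfl⟩
    have hc1 : c - 1 ∈ lv0 P (f * a) n := by
      rw [hc, add_sub_cancel_left]
      exact j5 b hb
    have hcop : IsCoprime (sp c) mm := by
      rw [hmm, ← hmid, Ideal.isCoprime_span_singleton_iff, hc]
      have h1 := j7 1 b one_ne_zero hn
      rwa [mul_one, mul_one] at h1
    have hc2 : c - 1 ∈ idl (A := A) (B := B) 2 := by
      rw [hc, add_sub_cancel_left]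
      obtain ⟨f', hf'⟩ := hf2
      exact Ideal.mul_mem_right _ _ (Ideal.mem_span_singleton.2
        ⟨((p ^ n * (f' * a) : ℕ) : OO A B), by rw [hf']; push_cast; ring⟩)
    obtain ⟨σ, hσ⟩ := hG.sur _ hmm0 hmm2 _ hcop hc2
    have hemc : ∀ z : ℂ, emb (c - 1) * z = ((p ^ n * (f * a) : ℕ) : ℂ) * emb b * z := by
      intro z
      rw [hc, add_sub_cancel_left, emul, enat]
    have k1 := conj σ X g
      (fun y => ThetaH (R.L y.1) (H y.1) (ptE R (p ^ (n + 1) * f) y.1 y.2))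
      (fun y => ThetaH (R.L y.1) (H y.1) (ptE R (p ^ (n + 1) * f) y.1 y.2 +
        muXE R y.1 * emb y.2 * (emb b * (a * R.om R.i0 / p)))) (fun j y hy => by
          obtain ⟨-, hz, hzm, hzL, -⟩ := hP j y hy
          have hNLi : NLE A B (R.L y.1) := ⟨_, _, R.nl y.1⟩
          have hzT0 : Tor (idl (A := A) (B := B) (p ^ (n + 1) * f)) (R.L y.1)
              (ptE R (p ^ (n + 1) * f) y.1 y.2) := by
            refine ((tm_TRA A B hring _ hNLi).2.2.2.2.1 _ _).2 ?_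
            rw [enat]
            exact hzm
          have hzT : Tor mm (R.L y.1) (ptE R (p ^ (n + 1) * f) y.1 y.2) := fun x hx =>
            hzT0 x (hmma hx)
          obtain ⟨hmem, hθ⟩ := tm_GTH tm_TRA A B hring _ hNLi a (H y.1) (hH y.1)
            mm hmmA σ _ hσ (by
              rw [hc, add_sub_cancel_left, Ideal.mem_span_singleton]
              exact ⟨((p ^ n * f : ℕ) : OO A B) * b, by push_cast; ring⟩) _ hzT hzL
          refine ⟨hmem, hθ.trans ?_⟩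
          congr 1
          have h4 : emb c * ptE R (p ^ (n + 1) * f) y.1 y.2 =
              ptE R (p ^ (n + 1) * f) y.1 y.2 + emb (c - 1) * ptE R (p ^ (n + 1) * f) y.1 y.2 := by
            have h5 : c = 1 + (c - 1) := by ring
            conv_lhs => rw [h5, eadd, eone]
            ring
          rw [h4, hemc, ← h3n]
          congr 1
          rw [hz, ← hz₁]
          ring) hy0M hy3
    have k2 := conjk σ hdk K hy0M hw0M hyw
    rw [hσF c hc1 σ hσ hw0M, hemc, h3n] at k2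
    simp only [Finset.prod_div_distrib, div_zpow]
    rw [← k1, ← hy3, k2, hyw, ← div_pow]
    congr 1
    field_simp
  -- the identity on `SP`
  have key2 : ∀ Y ∈ SP P er (R.L R.i0),
      ∏ j, (∏ y ∈ X j, ThetaH (R.L y.1) (H y.1) (ptE R (p ^ (n + 1) * f) y.1 y.2 +
        muXE R y.1 * emb y.2 * Y) /
        ThetaH (R.L y.1) (H y.1) (ptE R (p ^ (n + 1) * f) y.1 y.2)) ^ g j =
      (F Y * w0⁻¹) ^ p := by
    intro Y hY
    obtain ⟨b, hb, hbp, hbY⟩ := (hEY a hpa').2 Y hY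
    obtain ⟨l, hl⟩ : ∃ l : ℂ, l = emb b * (a * R.om R.i0 / p) - Y := ⟨_, rfl⟩
    rw [← hl] at hbY
    have hYb : emb b * (a * R.om R.i0 / p) = Y + l := by rw [hl]; ring
    have h2 := key b hb
    rw [hYb] at h2
    obtain ⟨hYl, hs, hr⟩ := hper Y hY _ hbY
    have hFY : F (Y + l) = F Y := by
      obtain ⟨P, Q, -, -, hPQ, -⟩ := hF
      rw [hPQ _ hYl, hPQ _ hY, hs, hr]
    rw [hFY] at h2
    rw [← h2]
    refine Finset.prod_congr rfl fun j _ => ?_
    congr 1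
    refine Finset.prod_congr rfl fun y hy => ?_
    congr 1
    have h3 : ptE R (p ^ (n + 1) * f) y.1 y.2 + muXE R y.1 * emb y.2 * (Y + l) =
        (ptE R (p ^ (n + 1) * f) y.1 y.2 + muXE R y.1 * emb y.2 * Y) +
        muXE R y.1 * emb y.2 * l := by ring
    rw [h3, theta_per _ _ _ _ ((hP j y hy).1 _ hbY)]
  -- the comparison
  have hS := asm hALG hPRO hPts X g
    (fun y Y => ThetaH (R.L y.1) (H y.1) (ptE R (p ^ (n + 1) * f) y.1 y.2 +
      muXE R y.1 * emb y.2 * Y) / ThetaH (R.L y.1) (H y.1) (ptE R (p ^ (n + 1) * f) y.1 y.2))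
    (fun y => muXE R y.1 * emb y.2 * dlX (R.L y.1) a (ptE R (p ^ (n + 1) * f) y.1 y.2) / u)
    (fun j y hy => (hP j y hy).2.2.2.2.2)
  obtain ⟨hcst, -, -, -, -, hmul, -⟩ := hALG _ _ _ _ _ _ _ hPts
  have hG' : RepO p V (SP P er (R.L R.i0)) (su (R.L R.i0) u e) (ru (R.L R.i0) u e)
      (fun Y => F Y * w0⁻¹) (w0 * w0⁻¹) (w0 * 0 + w0⁻¹ * β) :=
    hmul _ _ _ _ _ _ hF (hcst w0⁻¹ (by rw [map_inv₀, vw0, inv_one]))
  have hS' := (hPRO _ _ _ _ _ _ _ hPts).2.2 _ _ _ _ _ _ hG' key2 hS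
  have hdiff : (∑ j, (g j : ℂ) * ∑ y ∈ X j, emb y.2 * muXE R y.1 *
      dlX (R.L y.1) a (ptE R (p ^ (n + 1) * f) y.1 y.2)) / u =
      ∑ j, (g j : ℂ) * ∑ y ∈ X j, muXE R y.1 * emb y.2 *
        dlX (R.L y.1) a (ptE R (p ^ (n + 1) * f) y.1 y.2) / u := by
    rw [Finset.sum_div]
    refine Finset.sum_congr rfl fun j _ => ?_
    rw [mul_div_assoc, Finset.sum_div]
    congr 1
    refine Finset.sum_congr rfl fun y _ => ?_
    ring
  rw [hdiff]
  exact hS'

end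

end Pool.Agent.OEE


end

section

/-!
# OE, block E (port of `OB/E_PIS.lean`), module PIS: the isogeny `L → ν P⁻¹ L` and the points of `E[P]` (helper78)
-/

set_option autoImplicit false

open Polynomial

namespace Pool.Agent.OEE

open _root_.MU3 _root_.Pool.Agent.MU3A _root_.Pool.Agent.MU3B _root_.Pool.Agent.MUX _root_.Pool.Agent.MUXU _root_.Pool.Agent.MUXE
open _root_.Pool.Agent.RI _root_.Pool.Agent.NS _root_.Pool.Agent.OB
open _root_.Pool.Agent.MUXV (GR InK tX)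
open _root_.Pool.Agent.NSE (su ru WL IntP)
open _root_.Pool.Agent.ME hiding ActE
open _root_.Pool.Agent.MEE
open _root_.Pool.Agent.OBE (SP Ann Ker0 PtsO RepO Cp lv0 Sb_ALG Sb_PRO Sb_PUL Sb_COE Sb_GRN Sb_LEG Sb_TNC Sb_GEN Sb_UNT Sb_RAT Sb_KIS Sb_NE1 Sb_DSM)

noncomputable section

namespace PIS

theorem xu_per (L : PeriodPair) (u e z w : ℂ) (h : z - w ∈ L.lattice) :
    xu L u e z = xu L u e w := by
  have h1 : L.weierstrassP z = L.weierstrassP w := by
    have h2 := L.weierstrassP_add_coe w ⟨z - w, h⟩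
    rw [← h2]
    congr 1
    simp
  unfold xu
  rw [h1]

theorem card_of {A B : ℤ} (P : Ideal (OO A B)) (L : PeriodPair) (R : Finset ℂ) (q0 : ℂ)
    (hne : ∀ q ∈ R, q ∉ L.lattice) (hinj : ∀ q ∈ R, ∀ q' ∈ R, q - q' ∈ L.lattice → q = q')
    (φ : OO A B →+* ℂ) (hφ : ∀ x, φ x = emb x)
    (hker : ∀ x : OO A B, emb x * q0 ∈ L.lattice ↔ x ∈ P)
    (hcov : ∀ q ∈ R, ∃ x : OO A B, q - emb x * q0 ∈ L.lattice)
    (hsur : ∀ x : OO A B, x ∉ P → ∃ q ∈ R, emb x * q0 - q ∈ L.lattice) :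
    R.card + 1 = nI P := by
  classical
  have hsub : ∀ x y : OO A B, emb (x - y) = emb x - emb y := by
    intro x y
    rw [← hφ, ← hφ, ← hφ, map_sub]
  have h0R : (0 : ℂ) ∉ R := fun h => hne 0 h (zero_mem _)
  have hcov' : ∀ q : ℂ, ∃ x : OO A B, q ∈ insert 0 R → q - emb x * q0 ∈ L.lattice := by
    intro q
    by_cases hq : q ∈ R
    · obtain ⟨x, hx⟩ := hcov q hq
      exact ⟨x, fun _ => hx⟩
    · refine ⟨0, fun h => ?_⟩
      rcases Finset.mem_insert.1 h with rfl | h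
      · rw [(hφ 0).symm.trans (map_zero φ)]
        simp
      · exact absurd h hq
  choose g hg using hcov'
  have hinj' : ∀ q ∈ insert 0 R, ∀ q' ∈ insert 0 R, q - q' ∈ L.lattice → q = q' := by
    intro q hq q' hq' h
    rcases Finset.mem_insert.1 hq with rfl | hq
    · rcases Finset.mem_insert.1 hq' with rfl | hq'
      · rfl
      · exact absurd (by simpa using h) (hne q' hq')
    · rcases Finset.mem_insert.1 hq' with rfl | hq'
      · exact absurd (by simpa using h) (hne q hq)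
      · exact hinj q hq q' hq' h
  let f : {q : ℂ // q ∈ insert 0 R} → OO A B ⧸ P := fun q => Ideal.Quotient.mk P (g q.1)
  have hf : Function.Bijective f := by
    constructor
    · rintro ⟨q, hq⟩ ⟨q', hq'⟩ h
      have h1 : g q - g q' ∈ P := (Ideal.Quotient.eq).1 h
      have h2 := (hker _).2 h1
      rw [hsub] at h2
      have h3 := add_mem (sub_mem (hg q hq) (hg q' hq')) h2
      have h4 : q - q' ∈ L.lattice := by
        convert h3 using 1
        ring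
      exact Subtype.ext (hinj' q hq q' hq' h4)
    · intro c
      obtain ⟨x, rfl⟩ := Ideal.Quotient.mk_surjective c
      have key : ∃ q ∈ insert 0 R, emb x * q0 - q ∈ L.lattice := by
        by_cases hx : x ∈ P
        · exact ⟨0, Finset.mem_insert_self _ _, by simpa using (hker x).2 hx⟩
        · obtain ⟨q, hq, h⟩ := hsur x hx
          exact ⟨q, Finset.mem_insert_of_mem hq, h⟩
      obtain ⟨q, hq, h⟩ := key
      refine ⟨⟨q, hq⟩, ?_⟩
      refine (Ideal.Quotient.eq).2 ((hker _).1 ?_)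
      rw [hsub]
      have h3 := neg_mem (add_mem h (hg q hq))
      convert h3 using 1
      ring
  have h1 := Nat.card_congr (Equiv.ofBijective f hf)
  rw [Nat.card_eq_fintype_card, Fintype.card_coe, Finset.card_insert_of_notMem h0R] at h1
  exact h1

end PIS

open _root_.Pool.Agent.OEE.PIS in
theorem tb_PISE (h1 : Sb_GEN) (h2 : Sb_UNT) (h3 : Sb_PVLE) (h4 : Su_BAC) : Sb_PISE := by
  intro p er A B P V al C L N nu u e lam u' e' lam' hL hN hQ hg hg'
  obtain ⟨φ, hφ⟩ := C.ring.hom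
  have hmul : ∀ x y : OO A B, emb (x * y) = emb x * emb y := by
    intro x y
    rw [← hφ, ← hφ, ← hφ, map_mul]
  have hnat : ∀ n : ℕ, emb ((n : ℕ) : OO A B) = n := fun n => by rw [← hφ, map_natCast]
  obtain ⟨tra1, tra2, tra3, tra4, tra5, tra6, tra7, tra8, tra9⟩ := tm_TRA A B C.ring L hL
  have hCp : Cp p V := C.toCp
  have hν : nu ≠ 0 := hQ.1
  have hTor : ∀ z, nu * z ∈ N.lattice ↔ Tor P L z := hQ.2
  have hIsg : Isg L N nu := fun w hw => (hTor w).2 (fun x _ => tra1 x w hw)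
  have hu := hg.u0
  have hu' := hg'.u0
  have hal0 : emb al ≠ 0 := by
    intro h0
    have := C.ring.inj0 al h0
    exact C.al2 (this ▸ zero_mem _)
  have hva : V.valuation (emb al) ≠ 0 := (Valuation.ne_zero_iff _).2 hal0
  have hva1 : V.valuation (emb al) < 1 := by
    by_contra hc
    have h5 : 1 ≤ V.valuation (emb al) := not_lt.1 hc
    have h6 : (1 : V.ValueGroup) ≤ V.valuation (emb al) ^ er := one_le_pow_of_one_le' h5 er
    rw [C.alv] at h6
    exact absurd C.vp (not_lt.2 h6)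
  -- the multiplier
  have hκ : emb al / nu ≠ 0 := div_ne_zero hal0 hν
  have hIκ : Isg N L (emb al / nu) := by
    intro w hw
    have h5 : nu * (w / nu) ∈ N.lattice := by rwa [mul_div_cancel₀ _ hν]
    have h6 := (hTor _).1 h5 al C.alP
    convert h6 using 1
    field_simp
  obtain ⟨N0, hN0, hN1⟩ := C.alN
  have hker : Ker0 V N L u' e' (emb al / nu) := by
    refine (h2 p V N L u' e' lam' u e lam (emb al / nu) hCp hg' hg hκ hIκ).2 N0 hN0 ?_
    intro z hz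
    have h5 : emb al * (z / nu) ∈ L.lattice := by
      convert hz using 1
      field_simp
    have h6 : Tor P L ((N0 : ℂ) * (z / nu)) := by
      intro x hx
      obtain ⟨y, hy⟩ := hN1 x hx
      have h7 := tra1 y _ h5
      rw [← mul_assoc, ← hmul, mul_comm y al, ← hy, hmul, hnat] at h7
      convert h7 using 1
      ring
    have h8 := (hTor _).2 h6
    convert h8 using 1
    field_simp
  have hm : V.valuation (emb al / nu * u / u') = 1 :=
    (h2 p V N L u' e' lam' u e lam (emb al / nu) hCp hg' hg hκ hIκ).1.1 hker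
  have hmult : V.valuation (nu * u' / u) = V.valuation (emb al) := by
    have h5 : emb al = (nu * u' / u) * (emb al / nu * u / u') := by
      field_simp
    rw [h5, map_mul, hm, mul_one]
  obtain ⟨⟨R, hR⟩, -⟩ := h4.2 L N nu hν hIsg
  have hgen := h1 p V L N u e lam u' e' lam' nu hCp hg hg' hν hIsg R hR
  rw [hmult] at hgen
  have torR : ∀ q ∈ R, Tor P L q := fun q hq => (hTor q).1 (hR.mem q hq)
  -- a point with a pole
  obtain ⟨q0, hq0R, hq0v⟩ : ∃ q ∈ R, 1 < V.valuation (xu L u e q) := by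
    by_contra hc
    push Not at hc
    have h5 : ∏ q ∈ R, max 1 (V.valuation (xu L u e q)) = 1 :=
      Finset.prod_eq_one fun q hq => max_eq_left (hc q hq)
    rw [h5, mul_one] at hgen
    have h6 : V.valuation (emb al) ^ 2 < 1 := pow_lt_one' hva1 two_ne_zero
    rw [hgen] at h6
    exact lt_irrefl _ h6
  have hq0L := hR.ne q0 hq0R
  have hq0T := torR q0 hq0R
  have hq0K : InK V L (xu L u e) q0 := by
    right
    rw [← ValuationSubring.valuation_le_one_iff]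
    exact not_le.2 hq0v
  have hpvl := h3 p er A B P V al C L u e lam hL hg
  have hkerP : ∀ x : OO A B, emb x * q0 ∈ L.lattice ↔ x ∈ P := by
    intro x
    constructor
    · intro h
      by_contra hx
      exact ((hpvl.1 x hx).2 q0 hq0K hq0L).1 h
    · exact fun hx => hq0T x hx
  have hcov : ∀ z, Tor P L z → ∃ x : OO A B, z - emb x * q0 ∈ L.lattice := fun z hz =>
    (tm_TRB A B C.ring L hL).2 P C.ne C.max q0 z hq0T hz hq0L
  have hall : ∀ z, Tor P L z → z ∉ L.lattice → InK V L (xu L u e) z ∧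
      V.valuation (xu L u e z) = V.valuation (xu L u e q0) := by
    intro z hz hzL
    obtain ⟨x, hx⟩ := hcov z hz
    have hxP : x ∉ P := by
      intro h
      apply hzL
      have h5 := add_mem hx ((hkerP x).2 h)
      rwa [sub_add_cancel] at h5
    obtain ⟨k1, k2, k3⟩ := (hpvl.1 x hxP).2 q0 hq0K hq0L
    have h5 := xu_per L u e _ _ hx
    rw [h5]
    refine ⟨Or.inr ?_, k3⟩
    rw [h5]
    rcases k2 with k2 | k2
    · exact absurd k2 k1
    · exact k2
  have hcard : R.card + 1 = nI P := by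
    refine card_of P L R q0 hR.ne hR.inj φ hφ hkerP (fun q hq => hcov q (torR q hq)) ?_
    intro x hx
    have h5 : Tor P L (emb x * q0) := tra3 P x q0 hq0T
    exact hR.surj _ ((hTor _).2 h5) (fun h => hx ((hkerP x).1 h))
  have hprod : ∏ q ∈ R, max 1 (V.valuation (xu L u e q)) =
      V.valuation (xu L u e q0) ^ (nI P - 1) := by
    have h5 : nI P - 1 = R.card := by omega
    rw [h5, ← Finset.prod_const]
    refine Finset.prod_congr rfl fun q hq => ?_
    rw [(hall q (torR q hq) (hR.ne q hq)).2]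
    exact max_eq_right hq0v.le
  rw [hprod] at hgen
  refine ⟨hmult, ⟨R, hR, hcard⟩, fun z hz hzL => ?_⟩
  obtain ⟨k1, k2⟩ := hall z hz hzL
  have hT0 : V.valuation (xu L u e q0) ≠ 0 := fun h => by
    rw [h] at hq0v
    exact absurd hq0v (not_lt.2 zero_le)
  have hz0 : xu L u e z ≠ 0 := by
    intro h
    rw [h, map_zero] at k2
    exact hT0 k2.symm
  refine ⟨k1, hz0, ?_⟩
  unfold su
  rw [map_inv₀, k2, inv_pow]
  exact inv_eq_of_mul_eq_one_left hgen

end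

end Pool.Agent.OEE


end

section

/-!
# OE, block E (port of `OB/E_PTS.lean`), module PTS: the points of `E[P^er]` satisfy `PtsO` (helper5)
-/

set_option autoImplicit false

open Polynomial

namespace Pool.Agent.OEE

open _root_.MU3 _root_.Pool.Agent.MU3A _root_.Pool.Agent.MU3B _root_.Pool.Agent.MUX _root_.Pool.Agent.MUXU _root_.Pool.Agent.MUXE
open _root_.Pool.Agent.RI _root_.Pool.Agent.NS _root_.Pool.Agent.OB
open _root_.Pool.Agent.MUXV (GR InK tX)
open _root_.Pool.Agent.NSE (su ru WL IntP)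
open _root_.Pool.Agent.ME hiding ActE
open _root_.Pool.Agent.MEE
open _root_.Pool.Agent.OBE (SP Ann Ker0 PtsO RepO Cp lv0 Sb_ALG Sb_PRO Sb_PUL Sb_COE Sb_GRN Sb_LEG Sb_TNC Sb_GEN Sb_UNT Sb_RAT Sb_KIS Sb_NE1 Sb_DSM)

noncomputable section

namespace PTS

/-- the lattice is closed under `O` -/
lemma lat {A B : ℤ} (hr : RingE A B) {L : PeriodPair} (hN : NLE A B L) (x : OO A B) {z : ℂ}
    (hz : z ∈ L.lattice) : emb x * z ∈ L.lattice := by
  obtain ⟨b, om, hL⟩ := hN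
  obtain ⟨φ, hφ⟩ := hr.hom
  obtain ⟨y, hy, rfl⟩ := (hL.mem z).1 hz
  refine (hL.mem _).2 ⟨x * y, b.mul_mem_left x hy, ?_⟩
  rw [← hφ (x * y), map_mul, hφ, hφ]
  ring

/-- `1 ∈ P ^ 0` -/
lemma one_mem {A B : ℤ} (P : Ideal (OO A B)) : (1 : OO A B) ∈ P ^ 0 := by
  rw [pow_zero, Ideal.one_eq_top]
  exact Submodule.mem_top (R := OO A B) (M := OO A B)

/-- `I J ≤ I` -/
lemma le_r {A B : ℤ} (I J : Ideal (OO A B)) {x : OO A B} (h : x ∈ I * J) : x ∈ I :=
  (Submodule.mem_inf.1 (Ideal.mul_le_inf h)).1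

/-- natural multiples of lattice points -/
lemma nat_lat {L : PeriodPair} (n : ℕ) {w : ℂ} (hw : w ∈ L.lattice) :
    (n : ℂ) * w ∈ L.lattice := by
  have h := L.lattice.nsmul_mem hw n
  rwa [nsmul_eq_mul] at h

/-- the points of `SP` are in the kernel of reduction -/
lemma ker (hTPR : Sb_TPRE) {p er : ℕ} {A B : ℤ} {P : Ideal (OO A B)} {V : ValuationSubring ℂ}
    {al : OO A B} (hC : CtxX p er A B P V al) {L : PeriodPair} {u e lam : ℂ} (hN : NLE A B L)
    (hG : GoodL V L u e lam) {Y : ℂ} (hY : Y ∈ SP P er L) :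
    InK V L (xu L u e) Y ∧ xu L u e Y ≠ 0 := by
  obtain ⟨φ, hφ⟩ := hC.ring.hom
  obtain ⟨hT, hn⟩ := hY
  by_cases h1 : Tor P L Y
  · have h0 : ¬ Tor (P ^ 0) L Y := by
      intro h0
      apply hn
      have h2 := h0 (1 : OO A B) (one_mem P)
      rwa [← hφ, map_one, one_mul] at h2
    obtain ⟨h3, h4, -⟩ := hTPR p er A B P V al hC 0 L u e lam hN hG Y
      (by rw [zero_add, pow_one]; exact h1) h0
    exact ⟨h3, h4⟩
  · rcases hC.ram with ⟨he, -⟩ | ⟨he, -⟩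
    · exfalso
      apply h1
      rw [he, pow_one] at hT
      exact hT
    · obtain ⟨h3, h4, -⟩ := hTPR p er A B P V al hC 1 L u e lam hN hG Y
        (by rw [he] at hT; exact hT) (by rw [pow_one]; exact h1)
      exact ⟨h3, h4⟩

/-- a point outside the lattice in the kernel of reduction has `v x > 1` -/
lemma gt_one {V : ValuationSubring ℂ} {L : PeriodPair} {u e Y : ℂ} (hn : Y ∉ L.lattice)
    (h : InK V L (xu L u e) Y) : 1 < V.valuation (xu L u e Y) := by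
  rcases h with h | h
  · exact absurd h hn
  · by_contra h1
    rw [not_lt] at h1
    exact h ((V.valuation_le_one_iff _).1 h1)

end PTS

open _root_.Pool.Agent.OEE.PTS

/-- PTS. -/
theorem tb_PTSE (hCOE : Sb_COE) (hGEN : Sb_GEN) (hPVL : Sb_PVLE) (hTPR : Sb_TPRE) : Sb_PTSE := by
  classical
  intro p er A B P V al hC L u e lam hN hG
  have hCp : Cp p V := hC.toCp
  obtain ⟨φ, hφ⟩ := hC.ring.hom
  obtain ⟨-, -, -, -, hl1, heq, -, hper⟩ := hCOE p V L u e lam hCp hG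
  have hp0 : (p : ℂ) ≠ 0 := Nat.cast_ne_zero.2 hC.pp.ne_zero
  have hE : ∀ Y ∈ SP P er L, ∀ w ∈ L.lattice, Y + w ∈ SP P er L := by
    intro Y hY w hw
    constructor
    · intro x hx
      rw [mul_add]
      exact add_mem (hY.1 x hx) (lat hC.ring hN x hw)
    · intro h
      apply hY.2
      have h1 := sub_mem h hw
      rwa [add_sub_cancel_right] at h1
  have hP : ∀ (z w : ℂ), w ∈ L.lattice → su L u e (z + w) = su L u e z ∧
      ru L u e (z + w) = ru L u e z := by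
    intro z w hw
    obtain ⟨h1, h2⟩ := (hper z).1 w hw
    unfold su ru
    rw [h1, h2]
    exact ⟨rfl, rfl⟩
  have hpP : ((p : ℕ) : OO A B) ∈ P ^ er := by
    have h1 : ((p : ℕ) : OO A B) ∈ idl (A := A) (B := B) p := Ideal.mem_span_singleton_self _
    rw [hC.fac] at h1
    exact le_r _ _ h1
  have hpE : emb ((p : ℕ) : OO A B) = (p : ℂ) := by rw [← hφ, map_natCast]
  have hK := fun (Y : ℂ) (hY : Y ∈ SP P er L) => ker hTPR hC hN hG hY
  refine ⟨⟨hC.vp, ?_, hG.vl.le, ?_, ?_, ?_, ?_, ?_⟩, hK, ?_⟩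
  · rw [Valuation.map_neg]
    exact hl1
  · intro Y hY
    obtain ⟨h1, h2⟩ := hK Y hY
    have h3 := gt_one hY.2 h1
    unfold su
    refine ⟨inv_ne_zero h2, ?_⟩
    rw [map_inv₀]
    exact inv_lt_one_of_one_lt₀ h3
  · intro Y hY
    have hx : xu L u e Y ≠ 0 := (hK Y hY).2
    have h1 := heq Y hY.2
    unfold ru su
    rw [div_pow, neg_sq, h1]
    field_simp
    ring
  · intro Y hY
    refine ⟨-Y, ⟨?_, ?_⟩, ?_, ?_⟩
    · intro x hx
      rw [mul_neg]
      exact neg_mem (hY.1 x hx)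
    · intro h
      apply hY.2
      have h1 := neg_mem h
      rwa [neg_neg] at h1
    · unfold su
      rw [(hper Y).2.1]
    · unfold ru
      rw [(hper Y).2.1, (hper Y).2.2, neg_div, neg_div, neg_neg]
  · have hcl : ∀ w ∈ L.lattice, (p : ℂ) * w ∈ L.lattice := fun w hw => nat_lat p hw
    have hodd : ∀ z, (p : ℂ) * z ∈ L.lattice → 2 * z ∈ L.lattice → z ∈ L.lattice := by
      intro z h1 h2
      obtain ⟨k, hk⟩ := hC.pp.odd_of_ne_two hC.p2
      have h3 := sub_mem h1 (nat_lat k h2)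
      have e1 : (p : ℂ) * z - (k : ℂ) * (2 * z) = z := by
        rw [hk]
        push_cast
        ring
      rwa [e1] at h3
    obtain ⟨H, hH⟩ := b_HAL L (p : ℂ) hp0 hcl hodd
    obtain ⟨hR, hdis, -⟩ := b_HRE L (p : ℂ) H hp0 hcl hH
    have hRM : IsRpM L L (p : ℂ) (H ∪ H.image (fun q => -q)) := ⟨hR.mem, hR.ne, hR.inj, hR.surj⟩
    have hgen := hGEN p V L L u e lam u e lam (p : ℂ) hCp hG hG hp0 hcl _ hRM
    rw [Finset.prod_union hdis, Finset.prod_image (fun a _ b _ h => neg_injective h)] at hgen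
    have e2 : ∏ q ∈ H, max 1 (V.valuation (xu L u e (-q))) =
        ∏ q ∈ H, max 1 (V.valuation (xu L u e q)) :=
      Finset.prod_congr rfl fun q _ => by rw [(hper q).2.1]
    rw [e2, mul_div_assoc, div_self hG.u0, mul_one, ← sq, ← mul_pow] at hgen
    have h1 : V.valuation (p : ℂ) * ∏ q ∈ H, max 1 (V.valuation (xu L u e q)) = 1 := by
      rcases lt_trichotomy (V.valuation (p : ℂ) * ∏ q ∈ H, max 1 (V.valuation (xu L u e q))) 1
        with h | h | h
      · exact absurd hgen (ne_of_lt (pow_lt_one₀ zero_le h two_ne_zero))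
      · exact h
      · exact absurd hgen (ne_of_gt (one_lt_pow₀ h two_ne_zero))
    have hHn : ∀ q ∈ H, q ∉ L.lattice := by
      intro q hq h
      apply hH.ne q hq
      rw [two_mul]
      exact add_mem h h
    set T : Finset ℂ := H.filter (fun q => ¬ (xu L u e q ∈ V)) with hT
    have hTH : ∀ q ∈ T, q ∈ H ∧ xu L u e q ∉ V := by
      intro q hq
      rw [hT, Finset.mem_filter] at hq
      exact hq
    have h2 : ∏ q ∈ H, max 1 (V.valuation (xu L u e q)) = ∏ q ∈ T, V.valuation (xu L u e q) := by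
      rw [hT, Finset.prod_filter]
      refine Finset.prod_congr rfl fun q _ => ?_
      by_cases h : xu L u e q ∈ V
      · rw [if_neg (not_not.2 h)]
        exact max_eq_left ((V.valuation_le_one_iff _).2 h)
      · rw [if_pos h]
        apply max_eq_right
        by_contra h3
        rw [not_le] at h3
        exact h ((V.valuation_le_one_iff _).1 h3.le)
    rw [h2] at h1
    have hxT : ∀ q ∈ T, xu L u e q ≠ 0 := by
      intro q hq h
      apply (hTH q hq).2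
      rw [h]
      exact V.zero_mem
    have hTS : ∀ q ∈ T, q ∈ SP P er L := by
      intro q hq
      obtain ⟨hqH, hqV⟩ := hTH q hq
      have hK1 : InK V L (xu L u e) q := Or.inr hqV
      refine ⟨?_, hHn q hqH⟩
      intro x hx
      obtain ⟨-, hp2, hp3⟩ := hPVL p er A B P V al hC L u e lam hN hG
      refine hp3 (Pc P) hC.cnl _ ?_ (hp2 x q hK1)
      intro c hc
      have h3 : x * c ∈ idl (A := A) (B := B) p := by
        rw [hC.fac]
        exact Ideal.mul_mem_mul hx hc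
      obtain ⟨d, hd⟩ := Ideal.mem_span_singleton'.1 h3
      have h4 : emb c * (emb x * q) = emb d * ((p : ℂ) * q) := by
        have h5 := congrArg φ hd
        rw [map_mul, map_mul, map_natCast, hφ, hφ, hφ] at h5
        linear_combination -q * h5
      rw [h4]
      exact lat hC.ring hN d (hH.mem q hqH)
    refine ⟨T.card, fun i => ((T.equivFin.symm i : T) : ℂ), ?_, ?_, ?_⟩
    · intro i
      exact hTS _ (T.equivFin.symm i).2
    · intro i j hij
      simp only [su] at hij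
      have h3 : xu L u e (T.equivFin.symm i : T) = xu L u e (T.equivFin.symm j : T) :=
        inv_injective hij
      have h4 : L.weierstrassP (T.equivFin.symm i : T) = L.weierstrassP (T.equivFin.symm j : T) := by
        unfold xu at h3
        have hu : u ^ 2 ≠ 0 := pow_ne_zero 2 hG.u0
        have h5 := (div_left_inj' hu).1 h3
        exact sub_left_injective h5
      have hi := hTH _ (T.equivFin.symm i).2
      have hj := hTH _ (T.equivFin.symm j).2
      have h6 : ((T.equivFin.symm i : T) : ℂ) = ((T.equivFin.symm j : T) : ℂ) := by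
        rcases b_NEQ L _ _ (hHn _ hj.1) (hHn _ hi.1) h4 with h | h
        · exact hH.inj _ hi.1 _ hj.1 h
        · exact absurd h (hH.neg _ hi.1 _ hj.1)
      exact T.equivFin.symm.injective (Subtype.ext h6)
    · have h3 : ∏ i : Fin T.card, su L u e ((T.equivFin.symm i : T) : ℂ) =
          ∏ q ∈ T, su L u e q := by
        rw [Equiv.prod_comp T.equivFin.symm (fun q : T => su L u e (q : ℂ))]
        exact Finset.prod_coe_sort T (fun q => su L u e q)
      have h4 : V.valuation (∏ q ∈ T, su L u e q) = (∏ q ∈ T, V.valuation (xu L u e q))⁻¹ := by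
        rw [map_prod, ← Finset.prod_inv_distrib]
        refine Finset.prod_congr rfl fun q _ => ?_
        unfold su
        rw [map_inv₀]
      show V.valuation (∏ i : Fin T.card, su L u e ((T.equivFin.symm i : T) : ℂ)) ≤ _
      rw [h3, h4]
      exact (eq_inv_of_mul_eq_one_left h1).symm.le
  · refine (Set.finite_range (fun q : Fin p × Fin p =>
      (su L u e (((q.1 : ℕ) * L.ω₁ + (q.2 : ℕ) * L.ω₂) / p),
        ru L u e (((q.1 : ℕ) * L.ω₁ + (q.2 : ℕ) * L.ω₂) / p)))).subset ?_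
    rintro _ ⟨Y, hY, rfl⟩
    have hpY := hY.1 _ hpP
    rw [hpE] at hpY
    obtain ⟨i, j, hij⟩ := PeriodPair.mem_lattice.1 hpY
    have hpz : (0 : ℤ) < p := by exact_mod_cast hC.pp.pos
    have hi0 : 0 ≤ i % p := Int.emod_nonneg i hpz.ne'
    have hi1 : i % p < p := Int.emod_lt_of_pos i hpz
    have hj0 : 0 ≤ j % p := Int.emod_nonneg j hpz.ne'
    have hj1 : j % p < p := Int.emod_lt_of_pos j hpz
    have hi : i = p * (i / p) + i % p := (Int.mul_ediv_add_emod i p).symm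
    have hj : j = p * (j / p) + j % p := (Int.mul_ediv_add_emod j p).symm
    refine ⟨(⟨(i % p).toNat, by omega⟩, ⟨(j % p).toNat, by omega⟩), ?_⟩
    have c1 : (((i % p).toNat : ℕ) : ℂ) = ((i % p : ℤ) : ℂ) := by
      have := Int.toNat_of_nonneg hi0
      exact_mod_cast congrArg (fun n : ℤ => (n : ℂ)) this
    have c2 : (((j % p).toNat : ℕ) : ℂ) = ((j % p : ℤ) : ℂ) := by
      have := Int.toNat_of_nonneg hj0
      exact_mod_cast congrArg (fun n : ℤ => (n : ℂ)) this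
    have hiC : (i : ℂ) = p * ((i / p : ℤ) : ℂ) + ((i % p : ℤ) : ℂ) := by
      exact_mod_cast congrArg (fun n : ℤ => (n : ℂ)) hi
    have hjC : (j : ℂ) = p * ((j / p : ℤ) : ℂ) + ((j % p : ℤ) : ℂ) := by
      exact_mod_cast congrArg (fun n : ℤ => (n : ℂ)) hj
    have e1 : Y = (((i % p).toNat : ℕ) * L.ω₁ + ((j % p).toNat : ℕ) * L.ω₂) / p +
        (((i / p : ℤ) : ℂ) * L.ω₁ + ((j / p : ℤ) : ℂ) * L.ω₂) := by
      rw [c1, c2]
      apply mul_left_cancel₀ hp0
      rw [← hij, hiC, hjC]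
      field_simp
      ring
    have h5 := hP ((((i % p).toNat : ℕ) * L.ω₁ + ((j % p).toNat : ℕ) * L.ω₂) / p) _
      (PeriodPair.mem_lattice.2 ⟨i / p, j / p, rfl⟩)
    rw [← e1] at h5
    simp only [h5.1, h5.2]
  · intro Y hY w hw
    exact ⟨hE Y hY w hw, hP Y w hw⟩

end

end Pool.Agent.OEE


end

section

/-!
# OE, block E (port of `OB/E_SIG.lean`), module SIG: `Y ↦ σ_Y(w)` for `w` in the ray class field (helper1; model: `NS/F_SIG.lean`)
-/

set_option autoImplicit false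

open Polynomial

namespace Pool.Agent.OEE

open _root_.MU3 _root_.Pool.Agent.MU3A _root_.Pool.Agent.MU3B _root_.Pool.Agent.MUX _root_.Pool.Agent.MUXU _root_.Pool.Agent.MUXE
open _root_.Pool.Agent.RI _root_.Pool.Agent.NS _root_.Pool.Agent.OB
open _root_.Pool.Agent.MUXV (GR InK tX)
open _root_.Pool.Agent.NSE (su ru WL IntP)
open _root_.Pool.Agent.ME hiding ActE
open _root_.Pool.Agent.MEE
open _root_.Pool.Agent.OBE (SP Ann Ker0 PtsO RepO Cp lv0 Sb_ALG Sb_PRO Sb_PUL Sb_COE Sb_GRN Sb_LEG Sb_TNC Sb_GEN Sb_UNT Sb_RAT Sb_KIS Sb_NE1 Sb_DSM)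

noncomputable section

namespace SIG

variable {A B : ℤ}

/-- polynomials over `V` -/
theorem intP_iff {V : ValuationSubring ℂ} {P : ℂ[X]} :
    IntP V P ↔ P ∈ Polynomial.liftsRing (algebraMap V ℂ) := by
  rw [← Polynomial.lifts_iff_liftsRing, Polynomial.lifts_iff_coeff_lifts]
  refine forall_congr' fun i => ?_
  rw [ValuationSubring.valuation_le_one_iff]
  constructor
  · intro h
    exact ⟨⟨_, h⟩, rfl⟩
  · rintro ⟨c, hc⟩
    rw [← hc]
    exact c.2

theorem intP_sum {V : ValuationSubring ℂ} {N : ℕ} (a : Fin N → ℂ) (c : ℂ)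
    (ha : ∀ i, V.valuation (a i) ≤ 1) (hc : V.valuation c ≤ 1) :
    IntP V (∑ i, C (a i) * (X - C c) ^ (i : ℕ)) := by
  have hC : ∀ b : ℂ, V.valuation b ≤ 1 → C b ∈ Polynomial.liftsRing (algebraMap V ℂ) := by
    intro b hb
    rw [← intP_iff]
    intro i
    rw [coeff_C]
    split_ifs
    · exact hb
    · rw [map_zero]; exact zero_le
  rw [intP_iff]
  refine sum_mem fun i _ => mul_mem (hC _ (ha i)) (pow_mem (sub_mem ?_ (hC _ hc)) _)
  rw [← intP_iff]
  intro i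
  rw [coeff_X]
  split_ifs
  · rw [map_one]
  · rw [map_zero]; exact zero_le

end SIG

open _root_.Pool.Agent.OEE.SIG in
theorem tb_SIGE (h1 : Sb_ALG) (h2 : Sb_PRO) (h5 : Sb_PTSE) (h7 : Sb_ADDE) (h8 : Sb_UNIE) :
    Sb_SIGE := by
  intro p er A B P V al hC hT hG N u e lam hN hgood J f m₁ m' hf h2f hm₁ hmf hm0 hmP z₁ hz₁
    w hw hvw
  have hR := hC.ring
  obtain ⟨φ, hφ⟩ := hR.hom
  have hsub : ∀ x y : OO A B, emb (x - y) = emb x - emb y := fun x y => by
    rw [← hφ, map_sub, hφ, hφ]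
  have hone : emb (1 : OO A B) = 1 := by rw [← hφ, map_one]
  obtain ⟨P₀, -, -, hP₀E, hz₁E, huM, heM, hx0M, hπM', hexp⟩ :=
    h8 p er A B P V al hC hT hG N u e lam hN hgood J f m₁ m' hf h2f hm₁ hmf hm0 hmP z₁ hz₁
  -- the fields
  have hmm : P ^ (J + 1) * m' ≤ m' := Ideal.mul_le_right
  obtain ⟨c1, c2, c3, c4, c5⟩ := Pool.Agent.MEE.tm_FAC Pool.Agent.MEE.tm_TRA A B hR
  have hle := c1 _ _ hmm
  obtain ⟨hP, -⟩ := h5 p er A B P V al hC N u e lam hN hgood
  -- torsion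
  have hTor : Tor (P ^ (J + 1) * m') N z₁ := by
    intro x hx
    exact (hz₁ x).2 (Ideal.mul_mono_right hm₁ hx)
  have hz₁L : z₁ ∉ N.lattice := fun h => hz₁E (Or.inl h)
  have hPM : xnE N z₁ ∈ RFE (P ^ (J + 1) * m') := (c2 _ N hN).2 _ hTor hz₁L
  have hxx : ∀ z : ℂ, xu N u e z = (xnE N z + ((0 : ℚ) : ℂ) - e) / u ^ 2 := by
    intro z; unfold xu xnE; push_cast; ring
  obtain ⟨π, hπ⟩ : ∃ z, z = xu N u e z₁ - xu N u e P₀ := ⟨_, rfl⟩
  have hπM : π ∈ RFE (P ^ (J + 1) * m') := by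
    rw [hπ]; exact hπM'
  obtain ⟨c, hc1, hc2⟩ := hexp w hw hvw
  rw [← hπ] at hc2
  -- the function
  have hvx0 : V.valuation (xu N u e P₀) ≤ 1 := (Pool.Agent.MUXV.int_X hP₀E).2
  obtain ⟨Pol, hPol⟩ : ∃ Q : ℂ[X], Q = ∑ i : Fin ((nI P - 1) * nI P ^ J),
    C ((c i : ℂ)) * (X - C (xu N u e P₀)) ^ (i : ℕ) := ⟨_, rfl⟩
  have hPolI : IntP V Pol := by
    rw [hPol]; exact intP_sum _ _ hc1 hvx0
  have hPolE : ∀ t : ℂ, Pol.eval t =
      ∑ i : Fin ((nI P - 1) * nI P ^ J), (c i : ℂ) * (t - xu N u e P₀) ^ (i : ℕ) := by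
    intro t
    rw [hPol, eval_finsetSum]
    refine Finset.sum_congr rfl fun i _ => ?_
    simp
  have hPolw : Pol.eval (xu N u e z₁) = w := by rw [hPolE, ← hπ, ← hc2]
  have hRep := (h2 p V (SP P er N) (su N u e) (ru N u e) _ _ hP).1 _ _ _ Pol
    (h7 p er A B P V al hC N u e lam hN hgood z₁ hz₁E) hPolI
  have hβ := ((h1 p V (SP P er N) (su N u e) (ru N u e) _ _ hP).2.2.2.2.2.2.2.1 _ _ _ hRep).2.1
  rw [hPolw] at hRep
  refine ⟨_, _, hβ, hRep, ?_⟩
  intro y hy σ hσ hw'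
  have hc4 : ∀ (t : ℂ) (ht : t ∈ RFE (P ^ (J + 1) * m')),
      t ∈ RFE m' → (σ ⟨t, ht⟩ : ℂ) = t := by
    intro t ht ht'
    exact c4 _ _ hmm (em σ) _ hσ hy t ht ht'
  have hemb3 : emb y * z₁ = z₁ + emb (y - 1) * z₁ := by
    rw [hsub, hone]
    ring
  have hσx : (σ ⟨xnE N z₁, hPM⟩ : ℂ) = xnE N (z₁ + emb (y - 1) * z₁) := by
    rw [← hemb3]
    exact ((hσ.2 N hN).2 z₁ hTor hz₁L).2 hPM
  have hσπ : (σ ⟨π, hπM⟩ : ℂ) = xu N u e (z₁ + emb (y - 1) * z₁) - xu N u e P₀ := by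
    have h11 : (⟨π, hπM⟩ : RFE (P ^ (J + 1) * m')) =
        (⟨xnE N z₁, hPM⟩ + (((0 : ℚ)) : RFE (P ^ (J + 1) * m')) -
          ⟨e, hle heM⟩) / ⟨u ^ 2, hle huM⟩ - ⟨xu N u e P₀, hle hx0M⟩ := by
      apply Subtype.ext
      show π = _
      rw [hπ, hxx z₁]
      rfl
    rw [h11, map_sub, map_div₀, map_sub, map_add, map_ratCast]
    show ((σ ⟨xnE N z₁, hPM⟩ : ℂ) + ((0 : ℚ) : ℂ) - (σ ⟨e, hle heM⟩ : ℂ)) /
      (σ ⟨u ^ 2, hle huM⟩ : ℂ) - (σ ⟨xu N u e P₀, hle hx0M⟩ : ℂ) = _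
    rw [hσx, hc4 _ _ heM, hc4 _ _ huM, hc4 _ _ hx0M, ← hxx]
  have hww : (⟨w, hw'⟩ : RFE (P ^ (J + 1) * m')) =
      ∑ i : Fin ((nI P - 1) * nI P ^ J), ⟨(c i : ℂ), hle (c i).2⟩ * ⟨π, hπM⟩ ^ (i : ℕ) := by
    apply Subtype.ext
    rw [IntermediateField.coe_sum]
    show w = _
    rw [hc2]
    rfl
  rw [hww, map_sum]
  show _ = Pol.eval (xu N u e (z₁ + emb (y - 1) * z₁))
  rw [hPolE, IntermediateField.coe_sum]
  refine Finset.sum_congr rfl fun i _ => ?_
  rw [map_mul, map_pow]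
  show (σ ⟨(c i : ℂ), hle (c i).2⟩ : ℂ) * (σ ⟨π, hπM⟩ : ℂ) ^ (i : ℕ) = _
  rw [hc4 _ _ (c i).2, hσπ]

end

end Pool.Agent.OEE


end
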