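import Pool.Agent.MVF.C014
import Pool.Agent.MVF.C016
import Pool.Agent.MVF.C032
import Pool.Agent.MVF.C033
import Pool.Agent.MVF.C034
import Pool.Agent.MVF.C041
import Pool.Agent.MVF.C046
import Pool.Agent.MVF.C047
import Pool.Agent.MVF.C057
import Pool.Agent.MVF.C068
import Pool.Agent.MVF.C071
import Pool.Agent.MVF.C076
import Pool.Agent.MVF.C080
import Pool.Agent.MVF.C109
import Pool.Agent.MVF.C113
import Pool.Agent.MVF.C133
import Pool.Agent.MVF.C139
import Pool.Agent.MVF.C155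
import Pool.Agent.MVF.C158
import Pool.Agent.MVF.C159
import Pool.Agent.MVF.C162
import Pool.Agent.OBM.C01
import Pool.Agent.OBM.C07
import Pool.Agent.OBM.C11
import Pool.Agent.OBM.C12
import Pool.Agent.OBM.C17
import Pool.Agent.OTM.C01
import Pool.Agent.OTM.C03
import Pool.Agent.OTM.Defs2
import Pool.Agent.OVM.C01

/-! Parts: OE.Defs, OE.E_FIN, OE.E_ISO, OE.E_MUL, OE.E_THN, OE.E_UNI, OE.E_UNR, OE.R_RFIN, OE.StHQ, OE.StL, OE.T_Lib, OE.HQ_ELM, OE.HQ_SAF -/

section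

/-!
# OE: the exceptional fields `ℚ(i)`, `ℚ(√-3)` for every prime `p ≥ 5` (Theorem T+ without the hypothesis on `k`): common definitions (helper59)

Pattern: `OB`/`OT` is to `NS` as `OE` is to `ME`. The frame (`CaseE`, `TorXE`, `RepsE`, `RFE`, `IsNE`, `XXE`, `cXE`, `muXE`, `TTNE`, `TTEE`, `STXE`, `PhiKE`, `IsEIE`, `rE`) is the one of `ME/DefsE.lean`, which does not
depend on `p`. `p ≥ 5` is unramified in both fields, so there is no `er` (`er = 1` everywhere): `P` is a prime of `O` with `p ∈ P`, `p ∉ P²` (split or inert), below the valuation ring `V` of `ℂ`.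
From `OB/Defs0.lean`, `OT/Defs.lean` we use `Pc P`, `gO P f`, `GoodL V L u e lam`, `IsTeiP p 1 P V w`, `IsZ0`, `IsTw`, `HypT`, `PV`, `Yh`, `coT`.
There is one ideal class; all sums are written over a finite type `ι` with `RepsE A B (p * f) ι` as in `ME`. All levels are even (`12 ∣ f`). `rE A B = |O^*|/2` is `2` or `3`, a unit at `V`:
the sums `SnXE`, `STXE` run over all `x` modulo `m`, the sets `XXE` over the `x ≡ 1` modulo `2` (`ME/X`, `ME/N`: `Sn_TH_E` has the factor `rE A B`).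

RULE: files in `Pool/Agent/OE` import the original files (`MU3`, `MUX`, `NS`, `ME`, `OB`, `OT`, ..), never `Pool.Agent.MVF`, `OBM`, `OTM`, `OUM`.
-/

set_option autoImplicit false

namespace Pool.Agent.OE

open _root_.MU3 _root_.Pool.Agent.MU3A _root_.Pool.Agent.MU3B _root_.Pool.Agent.RI
  _root_.Pool.Agent.MUX _root_.Pool.Agent.NS _root_.Pool.Agent.ME _root_.Pool.Agent.MuSym
  _root_.Pool.Agent.OB _root_.Pool.Agent.OBH _root_.Pool.Agent.OT OnePoint
open _root_.Pool.Agent.TWR (Gen)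

noncomputable section

/-- the hypotheses on `p`, `k`, `P`, `V` -/
structure CaseOE (p : ℕ) (A B : ℤ) (P : Ideal (OO A B)) (V : ValuationSubring ℂ) : Prop
    extends CaseE A B where
  pp : p.Prime
  p5 : 5 ≤ p
  prime : P.IsPrime
  mem : ((p : ℕ) : OO A B) ∈ P
  unr : ((p : ℕ) : OO A B) ∉ P ^ 2
  hV : OverI V P

/-- the standing hypotheses -/
structure SetOE (p : ℕ) (A B : ℤ) (P : Ideal (OO A B)) (V : ValuationSubring ℂ) (f : ℕ) : Prop
    extends CaseOE p A B P V where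
  f0 : f ≠ 0
  fp : ¬ p ∣ f
  f12 : 12 ∣ f
  fD : 2 * absD A B ∣ ((p * f : ℕ) : ℤ)

lemma SetOE.f6 {p : ℕ} {A B : ℤ} {P : Ideal (OO A B)} {V : ValuationSubring ℂ} {f : ℕ}
    (h : SetOE p A B P V f) : 6 ∣ f ∧ 12 ≤ f :=
  ⟨(by norm_num : 6 ∣ 12).trans h.f12, Nat.le_of_dvd (Nat.pos_of_ne_zero h.f0) h.f12⟩

lemma SetOE.f2 {p : ℕ} {A B : ℤ} {P : Ideal (OO A B)} {V : ValuationSubring ℂ} {f : ℕ}
    (h : SetOE p A B P V f) : 2 ∣ f := (by norm_num : 2 ∣ 12).trans h.f12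

lemma CaseOE.not_le {p : ℕ} {A B : ℤ} {P : Ideal (OO A B)} {V : ValuationSubring ℂ}
    (h : CaseOE p A B P V) {m : Ideal (OO A B)} (hm : IsCoprime m P) : ¬ m ≤ P := by
  intro h1
  have h2 := Ideal.isCoprime_iff_sup_eq.1 hm
  rw [sup_eq_right.2 h1] at h2
  exact h.prime.ne_top h2

/-- the field `D` is in `k(x(E[f p^(n+1)]))` -/
def InRFE {A B : ℤ} (p f n : ℕ) (D : IntermediateField ℚ ℂ) : Prop :=
  ∀ y ∈ D, y ∈ RFE (idl (A := A) (B := B) (lvX p f n))

/-- the input from block E for one field `D` (twin of `EInpO`) -/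
structure EInpOE {A B : ℤ} (p : ℕ) (P : Ideal (OO A B)) (V : ValuationSubring ℂ) (f : ℕ)
    {ι : Type} (R : RepsE A B (p * f) ι) (u : ℂ) (n : ℕ) {D : IntermediateField ℚ ℂ}
    (h : kk A B ≤ D) (C : (letI := algC h; D ≃ₐ[kk A B] D) → ℂ) : Prop where
  ne : C (letI := algC h; 1) ≠ 0
  conj : letI := algC h
    ∀ τ : D ≃ₐ[kk A B] D, ∃ y : D, (y : ℂ) = C 1 ∧ ((τ y : D) : ℂ) = C τ
  ew : letI := algC h
    ∀ w : OO A B → ℂ, IsTeiP p 1 P V w → ∀ g : (D ≃ₐ[kk A B] D) → ℤ,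
      (∃ y ∈ D, y ^ p = ∏ᶠ τ : D ≃ₐ[kk A B] D, C τ ^ g τ) → ∀ τ' : D ≃ₐ[kk A B] D,
        V.valuation ((∑ᶠ τ : D ≃ₐ[kk A B] D, (g τ : ℂ) *
          TTNE R w (lvX p f n) (aX p f) h (τ * τ')) / u) ≤ V.valuation (p : ℂ)

/-! ## Final statements of the blocks -/

/-- (RFINE, block R) good models of the normalised lattices (`D = -4`: `y² = x³ - x`, `u = 1`, `e = 0`, `lam = -1`; `D = -3`: `y² = x³ + 1`, `u²` = a difference of two cube roots of `-1`),
with `u², e, lam` in `k`, so in `RFE (2)`; and: an automorphism which is in the inertia group of `RFE m` at `V`, `m` an EVEN ideal not contained in `P`, is trivial on `RFE m`. -/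
def O_RFINE : Prop :=
  ∀ (p : ℕ) (A B : ℤ) (P : Ideal (OO A B)) (V : ValuationSubring ℂ), CaseOE p A B P V →
    TorXE A B →
    (∀ (b : Ideal (OO A B)) (L : PeriodPair) (om : ℂ), IsNE b L om →
      ∃ u e lam : ℂ, GoodL V L u e lam ∧ u ^ 2 ∈ RFE (idl (A := A) (B := B) 2) ∧
        e ∈ RFE (idl (A := A) (B := B) 2) ∧ lam ∈ RFE (idl (A := A) (B := B) 2)) ∧
    ∀ m : Ideal (OO A B), m ≠ ⊥ → m ≤ idl 2 → ¬ m ≤ P → ∀ σ : ℂ ≃+* ℂ, FixK A B σ →
      (∀ y ∈ RFE m, y ∈ V → σ y - y ∈ V.nonunits) → ∀ y ∈ RFE m, σ y = y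

/-- (EFINE, block E) `p`-th powers have a logarithmic derivative divisible by `p`. -/
def O_EFINE : Prop :=
  ∀ (p : ℕ) (A B : ℤ) (P : Ideal (OO A B)) (V : ValuationSubring ℂ) (f : ℕ),
    SetOE p A B P V f → TorXE A B →
    ∀ (ι : Type) [Fintype ι] (R : RepsE A B (p * f) ι) (u e lam : ℂ),
    GoodL V (R.L R.i0) u e lam → ∀ w : OO A B → ℂ, IsTeiP p 1 P V w →
    ∀ n : ℕ, 1 ≤ n →
    ∀ (H : ι → Finset ℂ), (∀ i, IsHalf (R.L i) (aX p f : ℂ) (H i)) →
    ∀ (D : IntermediateField ℚ ℂ) (h : kk A B ≤ D), InRFE (A := A) (B := B) p f n D →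
    letI := algC h
    (∀ τ : D ≃ₐ[kk A B] D, ∃ y : D, (y : ℂ) = cXE R (lvX p f n) H h 1 ∧
      ((τ y : D) : ℂ) = cXE R (lvX p f n) H h τ) →
    ∀ g : (D ≃ₐ[kk A B] D) → ℤ,
      (∃ y ∈ D, y ^ p = ∏ᶠ τ : D ≃ₐ[kk A B] D, cXE R (lvX p f n) H h τ ^ g τ) →
      ∀ τ' : D ≃ₐ[kk A B] D,
        V.valuation ((∑ᶠ τ : D ≃ₐ[kk A B] D, (g τ : ℂ) *
          TTNE R w (lvX p f n) (aX p f) h (τ * τ')) / u) ≤ V.valuation (p : ℂ)

/-- (TYFE, block T) TYPE, one family of weights. -/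
def O_TYFE : Prop :=
  ∀ (p : ℕ) (A B : ℤ) (P : Ideal (OO A B)) (V : ValuationSubring ℂ) (f : ℕ),
    SetOE p A B P V f → TorXE A B →
    ∀ (ι : Type) [Fintype ι] (R : RepsE A B (p * f) ι) (u el lam : ℂ),
    GoodL V (R.L R.i0) u el lam → ∀ w : OO A B → ℂ, IsTeiP p 1 P V w →
    ∀ e : OO A B → ℂ, IsEIE (idl (A := A) (B := B) (p * f)) e → ∀ r : ℕ, ¬ p ∣ r →
    (∀ x, e x ≠ 0 → e x ^ r = 1) → ∀ i : ℕ,
    (∀ x, x - 1 ∈ gO P f → x ∉ P → e x = w x ^ i) →
    ∀ kk : ι → ℂ, (∀ i, kk i ^ r = 1) →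
    ∃ (pi : ℂ) (KI : Subfield ℂ),
      (∀ x y : OnePoint ℚ, ∃ w' ∈ KI, PhiKE R e kk x y / (u * R.om R.i0) = pi * w') ∧
      (∀ w' ∈ KI, V.valuation w' < 1 → V.valuation w' ≤ V.valuation (p : ℂ)) ∧
      V.valuation pi ^ (nI P - 1) * V.valuation (p : ℂ) ^ i = 1

/-- (GPTE, block G) Theorem G for `PT p (PhiKE R e kk / (u om_0))`, `t = 1/p³`. -/
def O_GPTE : Prop :=
  ∀ (p : ℕ) (A B : ℤ) (P : Ideal (OO A B)) (V : ValuationSubring ℂ) (f : ℕ),
    SetOE p A B P V f → TorXE A B →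
    ∀ (ι : Type) [Fintype ι] (R : RepsE A B (p * f) ι) (u el lam : ℂ),
    GoodL V (R.L R.i0) u el lam → ∀ e : OO A B → ℂ, IsEIE (idl (A := A) (B := B) (p * f)) e →
    ∀ r : ℕ, r ≠ 0 → (∀ x, e x ≠ 0 → e x ^ r = 1) → ∀ kk : ι → ℂ, V.valuation (kk R.i0) = 1 →
    ∀ N' : ℕ, N' ≠ 0 → absD A B * ((p * f : ℕ) : ℤ) ^ 2 ∣ (N' : ℤ) →
    ∃ a b c d : ℤ, a * d - b * c = 1 ∧ (N' : ℤ) ∣ c ∧ (N' : ℤ) ∣ d - 1 ∧
      V.valuation (p : ℂ) ≤
        V.valuation (Pool.Agent.OBH.PT p (fun x y => PhiKE R e kk x y / (u * R.om R.i0)) ∞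
          (mob a b c d ∞)) ^ ((p - 1) * p ^ 2)

/-! ## Theta series (twins of `OT/Defs.lean`) -/

/-- the representatives for the level `f l^r`, `l ∣ f` -/
def RLE {A B : ℤ} {p f : ℕ} {ι : Type} (R : RepsE A B (p * f) ι) (l r : ℕ) (hl : l ∣ f) :
    RepsE A B (p * (f * l ^ r)) ι :=
  { R with
    cop := fun i => by
      have h := R.cop i
      have h1 : (nI (R.b i)).Coprime f := Nat.Coprime.coprime_mul_left_right h
      have h2 : (nI (R.b i)).Coprime p := Nat.Coprime.coprime_mul_right_right h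
      have h3 : (nI (R.b i)).Coprime l := Nat.Coprime.coprime_dvd_right hl h1
      exact h2.mul_right (h1.mul_right (h3.pow_right r)) }

/-- the symbol `Φ + s ι^* Φ`, divided by the period `u om_0` (the `Q k` of `HypT`, for every `k`) -/
def QTE {A B : ℤ} {n : ℕ} {ι : Type} [Fintype ι] (R : RepsE A B n ι) (e : OO A B → ℂ)
    (kk : ι → ℂ) (s u : ℂ) (x y : OnePoint ℚ) : ℂ :=
  (PhiKE R e kk x y + s * PhiKE R e kk (mob (-1) 0 0 1 x) (mob (-1) 0 0 1 y)) /
    (u * R.om R.i0)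

/-- `Σ_k t(z₀^k) STXE (z₀^k c)` (twin of `OT.SG`) -/
def SGX {A B : ℤ} {n : ℕ} {ι : Type} [Fintype ι] (p : ℕ) (R : RepsE A B n ι) (m M a : ℕ)
    (e : OO A B → ℂ) (kk : ι → ℂ) (t : ℤ → ℂ) (z₀ c : ℤ) : ℂ :=
  ∑ k ∈ Finset.range (p - 1), t (z₀ ^ k) * STXE R m M a e kk (z₀ ^ k * c)

/-- (HETAE) THE RESULT of the blocks H, HB (twin of `OT.O_HETA`); the sums are over ALL `x` modulo `m`. -/
def O_HETAE : Prop :=
  ∀ (p : ℕ) (A B : ℤ) (P : Ideal (OO A B)) (V : ValuationSubring ℂ) (f : ℕ),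
    SetOE p A B P V f → TorXE A B →
    ∀ (ι : Type) [Fintype ι] (R : RepsE A B (p * f) ι) (u el lam : ℂ),
    GoodL V (R.L R.i0) u el lam → ∀ w : OO A B → ℂ, IsTeiP p 1 P V w →
    ∀ e : OO A B → ℂ, IsEIE (idl (A := A) (B := B) (p * f)) e → ∀ r₁ : ℕ, ¬ p ∣ r₁ →
    (∀ x, e x ≠ 0 → e x ^ r₁ = 1) → ∀ i : ℕ, nI P - 1 ≤ i * (p - 1) → i ≤ nI P - 2 →
    (∀ x, x - 1 ∈ gO P f → x ∉ P → e x = w x ^ i) →
    ∀ t : ℤ → ℂ, IsTw p (nI P - 1) t → ∀ kk : ι → ℂ, (∀ i, kk i ^ r₁ = 1) →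
    ∀ (l g h : ℕ), Gen l g h → ∀ (hl : l ∣ f) (n : ℕ), 5 ≤ n → ∀ z₀ : ℤ, IsZ0 p n z₀ →
    ∃ r₀ : ℕ, ∀ r, r₀ ≤ r → ∀ ψ : DirichletCharacter ℂ (l ^ r), ψ (-1) = 1 →
      ψ (1 + (l : ZMod (l ^ r)) ^ (r - 1)) ≠ 1 → ∃ k' : ℕ,
        V.valuation (p : ℂ) < V.valuation ((∑ j ∈ Finset.range 2, (-1) ^ (1 - j) *
          SGX p (RLE R l r hl) (lvX p (f * l ^ r) n) (p ^ (n + 1)) (aX p (f * l ^ r))
            (fun x => e x * ψ (nm x)) (fun i => kk i * ψ ((nI (R.b i) : ℕ))) t z₀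
            ((1 + (p : ℤ)) ^ (k' + j))) / u)

end

end Pool.Agent.OE


end

section

/-!
# OE, block E, module FIN: the final form (helper96; port of `OB/E_FIN.lean` of helper23)
-/

set_option autoImplicit false

namespace Pool.Agent.OEE

open _root_.MU3 Pool.Agent.MU3A Pool.Agent.MU3B Pool.Agent.MUX Pool.Agent.MUXU
open Pool.Agent.RI Pool.Agent.NS Pool.Agent.OB Pool.Agent.OE
open Pool.Agent.ME hiding ActE
open Pool.Agent.MEE

lemma toX {p : ℕ} {A B : ℤ} {P : Ideal (OO A B)} {V : ValuationSubring ℂ}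
    (h : CaseOE p A B P V) : CaseX p 1 A B P V :=
  { cq := h.toCQ
    exc := h.toCaseE
    pp := h.pp
    p5 := h.p5
    prime := h.prime
    mem := h.mem
    ram := Or.inl ⟨rfl, h.unr⟩
    hV := h.hV }

lemma toRFX (hR : O_RFINE) {p : ℕ} {A B : ℤ} {P : Ideal (OO A B)} {V : ValuationSubring ℂ}
    (h : CaseOE p A B P V) (hT : TorXE A B) : RFX P V := by
  obtain ⟨h1, h2⟩ := hR p A B P V h hT
  refine ⟨fun b L om hL => ?_, h2⟩
  obtain ⟨u, e, lam, h3, -⟩ := h1 b L om hL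
  exact ⟨u, e, lam, h3⟩

theorem tb_FINE (h1 : Sb_CTXE) (h2 : Sb_FN1E) : O_RFINE → O_EFINE := by
  intro hR p A B P V f hS hT ι _ R u e lam hG w hw n hn H hH D h hD hb
  obtain ⟨al, hC⟩ := h1 p 1 A B P V (toX hS.toCaseOE) hT (toRFX hR hS.toCaseOE hT)
  have hE := Pool.Agent.MEE.tm_GAL A B hS.toCaseE hC.ring hT
  obtain ⟨hf6, hf12⟩ := hS.f6
  have hf3 : 3 ≤ f := by omega
  exact h2 p A B P V al hC hT hE n f hn hf3 hS.f2 hS.fp ι R u e lam hG w hw H hH D h hD hb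

end Pool.Agent.OEE


end

section

/-!
# OE, block E (port of `OB/E_ISO.lean`), module ISO: the isogeny on the points of `SP`
-/

set_option autoImplicit false

open Polynomial

namespace Pool.Agent.OEE

open _root_.MU3 _root_.Pool.Agent.MU3A _root_.Pool.Agent.MU3B _root_.Pool.Agent.MUX _root_.Pool.Agent.MUXU _root_.Pool.Agent.MUXE
open _root_.Pool.Agent.RI _root_.Pool.Agent.NS _root_.Pool.Agent.OB
open _root_.Pool.Agent.MUXV (GR InK tX)
open _root_.Pool.Agent.NSE (su ru WL IntP)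
open _root_.Pool.Agent.ME hiding ActE
open _root_.Pool.Agent.MEE
open _root_.Pool.Agent.OBE (SP Ann Ker0 PtsO RepO Cp lv0 Sb_ALG Sb_PRO Sb_PUL Sb_COE Sb_GRN Sb_LEG Sb_TNC Sb_GEN Sb_UNT Sb_RAT Sb_KIS Sb_NE1 Sb_DSM)

noncomputable section

namespace ISO

variable {V : ValuationSubring ℂ}

lemma intP_iff {P : ℂ[X]} : IntP V P ↔ ∃ p : V[X], p.map (algebraMap V ℂ) = P := by
  constructor
  · intro h
    have h1 : P ∈ Polynomial.lifts (algebraMap V ℂ) := by
      rw [Polynomial.lifts_iff_coeff_lifts]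
      intro n
      exact ⟨⟨P.coeff n, (V.valuation_le_one_iff _).1 (h n)⟩, rfl⟩
    exact (Polynomial.mem_lifts _).1 h1
  · rintro ⟨p, rfl⟩ i
    rw [Polynomial.coeff_map]
    exact (V.valuation_le_one_iff _).2 (p.coeff i).2

lemma intP_W {P Q : ℂ[X]} (hP : IntP V P) (hQ : IntP V Q) :
    IntP V (derivative P * Q - P * derivative Q) := by
  obtain ⟨p, rfl⟩ := intP_iff.1 hP
  obtain ⟨q, rfl⟩ := intP_iff.1 hQ
  refine intP_iff.2 ⟨derivative p * q - p * derivative q, ?_⟩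
  rw [Polynomial.map_sub, Polynomial.map_mul, Polynomial.map_mul, Polynomial.derivative_map,
    Polynomial.derivative_map]

lemma intP_reflect {P : ℂ[X]} (N : ℕ) (h : IntP V P) : IntP V (reflect N P) := fun i => by
  rw [coeff_reflect]
  exact h _

lemma eval_reflect {P : ℂ[X]} {N : ℕ} (hf : P.natDegree ≤ N) {x : ℂ} (hx : x ≠ 0) :
    P.eval x = x ^ N * (reflect N P).eval x⁻¹ := by
  let _ := invertibleOfNonzero hx
  have h := eval₂_reflect_mul_pow (RingHom.id ℂ) x N P hf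
  rw [invOf_eq_inv] at h
  unfold Polynomial.eval
  rw [← h, mul_comm]

lemma eval_reflect_zero (P : ℂ[X]) (N : ℕ) : (reflect N P).eval 0 = P.coeff N := by
  rw [← coeff_zero_eq_eval_zero, coeff_reflect, revAt_zero]

lemma deg_W {P Q : ℂ[X]} (hPQ : P.natDegree = Q.natDegree + 1) :
    (derivative P * Q - P * derivative Q).natDegree ≤ Q.natDegree + Q.natDegree := by
  refine (natDegree_sub_le _ _).trans (max_le ?_ ?_)
  · refine natDegree_mul_le.trans ?_
    have h := natDegree_derivative_le P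
    omega
  · rcases Nat.eq_zero_or_pos Q.natDegree with h0 | h0
    · have h1 : derivative Q = 0 := by
        rw [eq_C_of_natDegree_eq_zero h0, derivative_C]
      rw [h1, mul_zero, natDegree_zero]
      omega
    · refine natDegree_mul_le.trans ?_
      have h := natDegree_derivative_le Q
      omega

lemma coeff_W {P Q : ℂ[X]} (hm : P.Monic) (hPQ : P.natDegree = Q.natDegree + 1) :
    (derivative P * Q - P * derivative Q).coeff (Q.natDegree + Q.natDegree) =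
      Q.leadingCoeff := by
  have hP1 : P.coeff (Q.natDegree + 1) = 1 := by
    rw [← hPQ]
    exact hm
  have h1 : (derivative P * Q).coeff (Q.natDegree + Q.natDegree) =
      (Q.natDegree + 1) * Q.leadingCoeff := by
    have h' : (derivative P).natDegree ≤ Q.natDegree := by
      have h := natDegree_derivative_le P
      omega
    rw [coeff_mul_add_eq_of_natDegree_le h' le_rfl, coeff_derivative, hP1, one_mul]
    rfl
  have h2 : (P * derivative Q).coeff (Q.natDegree + Q.natDegree) =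
      Q.natDegree * Q.leadingCoeff := by
    rcases Nat.eq_zero_or_pos Q.natDegree with h0 | h0
    · have h1 : derivative Q = 0 := by
        rw [eq_C_of_natDegree_eq_zero h0, derivative_C]
      rw [h1, mul_zero, coeff_zero, h0, Nat.cast_zero, zero_mul]
    · obtain ⟨d, hd⟩ : ∃ d, Q.natDegree = d + 1 := ⟨Q.natDegree - 1, by omega⟩
      have h3 : Q.natDegree + Q.natDegree = (d + 2) + d := by omega
      have h4 : (derivative Q).natDegree ≤ d := by
        have h := natDegree_derivative_le Q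
        omega
      have h5 : P.natDegree ≤ d + 2 := by omega
      rw [h3, coeff_mul_add_eq_of_natDegree_le h5 h4, coeff_derivative]
      have h6 : P.coeff (d + 2) = 1 := by
        rw [hd] at hP1
        exact hP1
      rw [h6, one_mul]
      unfold Polynomial.leadingCoeff
      rw [hd]
      push_cast
      ring
  rw [coeff_sub, h1, h2]
  ring

end ISO

open _root_.Pool.Agent.OEE.ISO in
/-- ISO. -/
theorem tb_ISOE (h1 : Sb_ALG) (h2 : Sb_PRO) (h3 : Sb_PTSE) (h5 : Sb_UNT) (h6 : Sb_RAT) :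
    Sb_ISOE := by
  intro p er A B Pi V al hctx L M u e lam u' e' lam' μ hNL hNM hL hM hμ hI hK
  obtain ⟨hpts, hin, -⟩ := h3 p er A B Pi V al hctx L u e lam hNL hL
  have hE : ∀ Y ∈ SP Pi er L, μ * Y ∈ SP Pi er M := by
    rintro Y ⟨hY3, hY⟩
    refine ⟨fun x hx => ?_, fun hmem => hY (hK Y hmem (hin Y ⟨hY3, hY⟩).1)⟩
    have h7 := hI _ (hY3 x hx)
    rwa [mul_left_comm] at h7
  refine ⟨hE, ?_⟩
  have hν := ((h5 p V L M u e lam u' e' lam' μ hctx.toCp hL hM hμ hI).1).1 hK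
  obtain ⟨P, Q, hP, hQ, hPm, hPQ, hQl, hPE⟩ := h6 p V L M u e lam u' e' lam' μ hctx.toCp hL hM hμ hI hK
  set ν : ℂ := μ * u' / u with hνdef
  have hν0 : ν ≠ 0 := by
    intro h0
    rw [h0, map_zero] at hν
    exact zero_ne_one hν
  obtain ⟨hc, hs, hr, hch, -, hmul, hinv, -, -⟩ :=
    h1 p V (SP Pi er L) (su L u e) (ru L u e) (-(1 + lam)) lam hpts
  obtain ⟨hpol, -, -⟩ := h2 p V (SP Pi er L) (su L u e) (ru L u e) (-(1 + lam)) lam hpts
  -- exact change of representatives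
  have hch0 : ∀ (F G : ℂ → ℂ) (α β α' β' : ℂ), RepO p V (SP Pi er L) (su L u e) (ru L u e) F α β →
      (∀ Y ∈ SP Pi er L, G Y = F Y) → α' = α → β' = β →
      RepO p V (SP Pi er L) (su L u e) (ru L u e) G α' β' := by
    intro F G α β α' β' hF hG ha hb
    refine hch F G α β α' β' hF hG ?_ ?_
    · rw [ha, sub_self, map_zero]
      exact zero_le
    · rw [hb, sub_self, map_zero]
      exact zero_le
  have hpR : ∀ (R : ℂ[X]) (n : ℕ), IntP V R → RepO p V (SP Pi er L) (su L u e) (ru L u e)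
      (fun Y => (reflect n R).eval (su L u e Y)) (R.coeff n) 0 := by
    intro R n hR
    refine hch0 _ _ _ _ _ _ (hpol (su L u e) 0 0 (reflect n R) hs (intP_reflect n hR))
      (fun _ _ => rfl) ?_ ?_
    · rw [eval_reflect_zero]
    · rw [zero_mul]
  have hP1 : P.coeff (Q.natDegree + 1) = 1 := by
    rw [← hPQ]
    exact hPm
  have rp := hpR P (Q.natDegree + 1) hP
  rw [hP1] at rp
  have rq := hpR Q Q.natDegree hQ
  have rw' := hpR (derivative P * Q - P * derivative Q) (Q.natDegree + Q.natDegree) (intP_W hP hQ)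
  rw [coeff_W hPm hPQ, hQl] at rw'
  have hq0 : Q.coeff Q.natDegree = ν ^ 2 := hQl
  rw [hq0] at rq
  obtain ⟨hpu, rpi⟩ := hinv _ 1 0 rp (map_one _)
  have rpi' : RepO p V (SP Pi er L) (su L u e) (ru L u e)
      (fun Y => ((reflect (Q.natDegree + 1) P).eval (su L u e Y))⁻¹) 1 0 := by
    refine hch0 _ _ _ _ _ _ rpi (fun _ _ => rfl) ?_ ?_
    · rw [inv_one]
    · rw [neg_zero, zero_div]
  have r1 := hmul _ _ _ _ _ _ hs (hmul _ _ _ _ _ _ rq rpi')
  have hνi : V.valuation ν⁻¹ ≤ 1 := by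
    rw [map_inv₀, hν, inv_one]
  have r2 := hmul _ _ _ _ _ _ (hc ν⁻¹ hνi)
    (hmul _ _ _ _ _ _ hr (hmul _ _ _ _ _ _ rw' (hmul _ _ _ _ _ _ rpi' rpi')))
  -- the identities
  have key : ∀ Y ∈ SP Pi er L,
      su M u' e' (μ * Y) = su L u e Y * ((reflect Q.natDegree Q).eval (su L u e Y) *
        ((reflect (Q.natDegree + 1) P).eval (su L u e Y))⁻¹) ∧
      ru M u' e' (μ * Y) = ν⁻¹ * (ru L u e Y *
        ((reflect (Q.natDegree + Q.natDegree) (derivative P * Q - P * derivative Q)).eval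
          (su L u e Y) * (((reflect (Q.natDegree + 1) P).eval (su L u e Y))⁻¹ *
            ((reflect (Q.natDegree + 1) P).eval (su L u e Y))⁻¹))) := by
    intro Y hY
    obtain ⟨-, hx0⟩ := hin Y hY
    obtain ⟨e1, e2⟩ := hPE Y (hE Y hY).2
    have hp1 := hpu Y hY
    have hPe := eval_reflect (P := P) (N := Q.natDegree + 1) hPQ.le hx0
    have hQe := eval_reflect (P := Q) (N := Q.natDegree) le_rfl hx0
    have hWe := eval_reflect (P := derivative P * Q - P * derivative Q) (deg_W hPQ) hx0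
    have hsu : su L u e Y = (xu L u e Y)⁻¹ := rfl
    have hru : ru L u e Y = -yu L u Y / xu L u e Y ^ 2 := rfl
    have hsu' : su M u' e' (μ * Y) = (xu M u' e' (μ * Y))⁻¹ := rfl
    have hru' : ru M u' e' (μ * Y) = -yu M u' (μ * Y) / xu M u' e' (μ * Y) ^ 2 := rfl
    rw [hsu] at hp1 ⊢
    rw [hru, hsu', hru']
    rw [hQe, hPe] at e1
    rw [hQe, hWe] at e2
    clear hPe hQe hWe hsu hru hsu' hru' r1 r2 rp rq rw' rpi rpi'
    generalize (reflect (Q.natDegree + 1) P).eval (xu L u e Y)⁻¹ = pp at *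
    generalize (reflect Q.natDegree Q).eval (xu L u e Y)⁻¹ = q at *
    generalize (reflect (Q.natDegree + Q.natDegree)
      (derivative P * Q - P * derivative Q)).eval (xu L u e Y)⁻¹ = w at *
    generalize xu L u e Y = x at *
    generalize xu M u' e' (μ * Y) = x' at *
    generalize yu L u Y = y at *
    generalize yu M u' (μ * Y) = y' at *
    generalize Q.natDegree = d at *
    have hp0 : pp ≠ 0 := by
      intro h0
      rw [h0, map_zero] at hp1
      exact zero_ne_one hp1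
    have hxd : x ^ d ≠ 0 := pow_ne_zero _ hx0
    have e1' : x' * q = x * pp := by
      apply mul_left_cancel₀ hxd
      rw [pow_succ] at e1
      linear_combination e1
    have hx'0 : x' ≠ 0 := by
      rintro rfl
      rw [zero_mul] at e1'
      exact mul_ne_zero hx0 hp0 e1'.symm
    have hq0 : q ≠ 0 := by
      rintro rfl
      rw [mul_zero] at e1'
      exact mul_ne_zero hx0 hp0 e1'.symm
    have e2' : ν * y' * q ^ 2 = y * w := by
      apply mul_left_cancel₀ (mul_ne_zero hxd hxd)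
      rw [pow_add] at e2
      linear_combination e2
    constructor
    · field_simp
      linear_combination -e1'
    · have hx'e : x' = x * pp / q := by
        field_simp
        exact e1'
      have hy'e : y' = y * w / (ν * q ^ 2) := by
        field_simp
        linear_combination e2'
      rw [hx'e, hy'e]
      field_simp
  refine ⟨?_, ?_⟩
  · refine hch0 _ _ _ _ _ _ r1 (fun Y hY => (key Y hY).1) ?_ ?_
    · rw [zero_mul]
    · ring
  · refine hch0 _ _ _ _ _ _ r2 (fun Y hY => (key Y hY).2) ?_ ?_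
    · ring
    · field_simp
      ring

end

end Pool.Agent.OEE


end

section

/-!
# OE, block E (port of `OB/E_MUL.lean`), module MUL (helper92): the isogenies `μ_i x : L_(i0) → L_i` have degree prime to `p`
-/

set_option autoImplicit false

open Polynomial

namespace Pool.Agent.OEE

open _root_.MU3 _root_.Pool.Agent.MU3A _root_.Pool.Agent.MU3B _root_.Pool.Agent.MUX _root_.Pool.Agent.MUXU _root_.Pool.Agent.MUXE
open _root_.Pool.Agent.RI _root_.Pool.Agent.NS _root_.Pool.Agent.OB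
open _root_.Pool.Agent.ME hiding ActE
open _root_.Pool.Agent.MEE
open _root_.Pool.Agent.OBE (SP Ann Ker0 PtsO RepO Cp lv0 Sb_ALG Sb_PRO Sb_PUL Sb_COE Sb_GRN Sb_LEG Sb_TNC Sb_GEN Sb_UNT Sb_RAT Sb_KIS Sb_NE1 Sb_DSM)

noncomputable section

namespace MUL

theorem nI_mem' {A B : ℤ} (b : Ideal (OO A B)) : ((nI b : ℕ) : OO A B) ∈ b := by
  rw [← Ideal.Quotient.eq_zero_iff_mem, map_natCast, ← nsmul_one]
  exact card_nsmul_eq_zero'

theorem nm_mul' {A B : ℤ} (x y : OO A B) : nm (x * y) = nm x * nm y := by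
  simp only [nm, QuadraticAlgebra.re_mul, QuadraticAlgebra.im_mul]
  ring

theorem mul_star' {A B : ℤ} (x : OO A B) : x * star x = ((nm x : ℤ) : OO A B) := by
  apply QuadraticAlgebra.ext
  · simp only [QuadraticAlgebra.re_mul, QuadraticAlgebra.re_star, QuadraticAlgebra.im_star,
      QuadraticAlgebra.re_intCast, nm, Int.cast_id]
    ring
  · simp only [QuadraticAlgebra.im_mul, QuadraticAlgebra.re_star, QuadraticAlgebra.im_star,
      QuadraticAlgebra.im_intCast]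
    ring

/-- the norm of an element prime to `n` is prime to `p`, `p ∣ n` -/
theorem not_dvd_nm {A B : ℤ} (p n : ℕ) (hp : p.Prime) (hpn : p ∣ n) (x : OO A B)
    (hx : IsCoprime x ((n : ℕ) : OO A B)) : ¬ (p : ℤ) ∣ nm x := by
  intro hd
  obtain ⟨y, t, hyt⟩ := hx
  have h1 : nm (y * x) = nm y * nm x := nm_mul' y x
  have h2 : y * x = 1 - t * ((n : ℕ) : OO A B) := by rw [← hyt]; ring
  have hre : (y * x).re = 1 - (n : ℤ) * t.re := by
    rw [h2]
    simp only [QuadraticAlgebra.re_sub, QuadraticAlgebra.re_one, QuadraticAlgebra.re_mul,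
      QuadraticAlgebra.re_natCast, QuadraticAlgebra.im_natCast]
    ring
  have him : (y * x).im = -((n : ℤ) * t.im) := by
    rw [h2]
    simp only [QuadraticAlgebra.im_sub, QuadraticAlgebra.im_one, QuadraticAlgebra.im_mul,
      QuadraticAlgebra.re_natCast, QuadraticAlgebra.im_natCast]
    ring
  have h3 : nm (y * x) - 1 = (n : ℤ) * ((n : ℤ) * t.re ^ 2 - 2 * t.re +
      B * (-t.im + (n : ℤ) * t.re * t.im) - A * (n : ℤ) * t.im ^ 2) := by
    unfold nm
    rw [hre, him]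
    ring
  have h4 : (p : ℤ) ∣ nm (y * x) := by
    rw [h1]
    exact Dvd.dvd.mul_left hd _
  have h5 : (p : ℤ) ∣ nm (y * x) - 1 := by
    rw [h3]
    exact Dvd.dvd.mul_right (by exact_mod_cast hpn) _
  have h6 : (p : ℤ) ∣ 1 := (Int.dvd_iff_dvd_of_dvd_sub h5).1 h4
  exact hp.one_lt.ne' (by exact_mod_cast Int.eq_one_of_dvd_one (by positivity) h6)

end MUL

open _root_.Pool.Agent.OEE.MUL in
theorem tb_MULE : Sb_MULE := by
  intro p A B hp hR n ι R _ hpn i x hx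
  obtain ⟨φ, hφ⟩ := hR.hom
  have hnl := R.nl i
  have hnl0 := R.nl R.i0
  have hom : R.om i ≠ 0 := hnl.om_ne
  have hom0 : R.om R.i0 ≠ 0 := hnl0.om_ne
  have hN0 : nI (R.b i) ≠ 0 := by
    intro h0
    have h1 := R.cop i
    rw [h0, Nat.coprime_zero_left] at h1
    rw [h1] at hpn
    exact hp.one_lt.ne' (Nat.dvd_one.1 hpn)
  have hNC : ((nI (R.b i) : ℕ) : ℂ) ≠ 0 := by exact_mod_cast hN0
  have hNb : ((nI (R.b i) : ℕ) : OO A B) ∈ R.b i := nI_mem' (R.b i)
  have heN : ∀ k : ℕ, emb ((k : ℕ) : OO A B) = (k : ℂ) := fun k => by rw [← hφ, map_natCast]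
  have heZ : ∀ k : ℤ, emb ((k : ℤ) : OO A B) = (k : ℂ) := fun k => by rw [← hφ, map_intCast]
  have hem : ∀ x y : OO A B, emb (x * y) = emb x * emb y := fun x y => by
    rw [← hφ, ← hφ, ← hφ, map_mul]
  have hnmx := not_dvd_nm p n hp hpn x hx
  have hx0 : x ≠ 0 := by
    rintro rfl
    apply hnmx
    simp [nm]
  have hex : emb x ≠ 0 := fun h => hx0 (hR.inj0 x h)
  have hmu : muXE R i ≠ 0 := by
    unfold muXE
    exact div_ne_zero (mul_ne_zero hom hNC) hom0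
  have hL0 : ∀ z, z ∈ (R.L R.i0).lattice ↔ ∃ x : OO A B, z = R.om R.i0 * emb x := by
    intro z
    rw [hnl0.mem, R.b0]
    simp
  refine ⟨mul_ne_zero hmu hex, ?_, (nm x).natAbs * nI (R.b i), ?_, ?_⟩
  · intro u hu
    obtain ⟨y, rfl⟩ := (hL0 u).1 hu
    rw [hnl.mem]
    refine ⟨(nI (R.b i) : ℕ) * (x * y), (R.b i).mul_mem_right _ hNb, ?_⟩
    rw [hem, hem, heN]
    unfold muXE
    field_simp
  · intro hd
    rcases hp.dvd_mul.1 hd with h4 | h4
    · exact hnmx (Int.natCast_dvd.2 h4)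
    · have h5 : p ∣ Nat.gcd (nI (R.b i)) n := Nat.dvd_gcd h4 hpn
      rw [Nat.Coprime.gcd_eq_one (R.cop i)] at h5
      exact hp.one_lt.ne' (Nat.dvd_one.1 h5)
  · intro z hz
    obtain ⟨y, -, hy⟩ := (hnl.mem _).1 hz
    have h1 : (nI (R.b i) : ℂ) * emb x * z = R.om R.i0 * emb y := by
      unfold muXE at hy
      field_simp at hy
      linear_combination hy
    have h2 : ((nm x : ℤ) : ℂ) = emb x * emb (star x) := by
      rw [← hem, MUL.mul_star', heZ]
    have h7 : ((nm x : ℤ) : ℂ) * (nI (R.b i) : ℂ) * z ∈ (R.L R.i0).lattice := by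
      rw [hL0]
      refine ⟨star x * y, ?_⟩
      rw [hem, h2]
      linear_combination (emb (star x)) * h1
    rcases Int.natAbs_eq (nm x) with h8 | h8
    · have h9 : (((nm x).natAbs * nI (R.b i) : ℕ) : ℂ) * z =
          ((nm x : ℤ) : ℂ) * (nI (R.b i) : ℂ) * z := by
        have : ((nm x : ℤ) : ℂ) = (((nm x).natAbs : ℕ) : ℂ) := by
          rw [← Int.cast_natCast, ← h8]
        rw [this, Nat.cast_mul]
      rw [h9]
      exact h7
    · have h9 : (((nm x).natAbs * nI (R.b i) : ℕ) : ℂ) * z =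
          -(((nm x : ℤ) : ℂ) * (nI (R.b i) : ℂ) * z) := by
        have : ((nm x : ℤ) : ℂ) = -(((nm x).natAbs : ℕ) : ℂ) := by
          rw [← Int.cast_natCast, ← Int.cast_neg, ← h8]
        rw [this, Nat.cast_mul]
        ring
      rw [h9]
      exact neg_mem h7

end

end Pool.Agent.OEE


end

section

/-!
# OE, block E (port of `OB/E_THN.lean`), module THN (helper26): the functions `Θ_a(z + μ Y)`, `Y ∈ SP P er L`

Port of `Pool/Agent/NS/F_THN.lean`.
-/

set_option autoImplicit false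

open Polynomial

namespace Pool.Agent.OEE

open _root_.MU3 _root_.Pool.Agent.MU3A _root_.Pool.Agent.MU3B _root_.Pool.Agent.MUX _root_.Pool.Agent.MUXU _root_.Pool.Agent.MUXE
open _root_.Pool.Agent.RI _root_.Pool.Agent.NS _root_.Pool.Agent.OB
open _root_.Pool.Agent.MUXV (GR InK tX)
open _root_.Pool.Agent.NSE (su ru WL IntP)
open _root_.Pool.Agent.ME hiding ActE
open _root_.Pool.Agent.MEE
open _root_.Pool.Agent.OBE (SP Ann Ker0 PtsO RepO Cp lv0 Sb_ALG Sb_PRO Sb_PUL Sb_COE Sb_GRN Sb_LEG Sb_TNC Sb_GEN Sb_UNT Sb_RAT Sb_KIS Sb_NE1 Sb_DSM)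

noncomputable section

/-- THN. -/
theorem tb_THNE (h1 : Sb_ALG) (h2 : Sb_PRO) (h3 : Sb_PUL) (h4 : Sb_GRN) (h5 : Sb_ISOE)
    (h6 : Sb_ADDE) (h7 : Sb_PTSE) : Sb_THNE := by
  intro p er A B P V al hC L M u e lam u' e' lam' μ nL nM hL hM hμ hI hK a H ha hH z hz haz hq
  obtain ⟨ξ, G⟩ := h4 p V M u' e' lam' hC.toCp hM
  have PP := (h7 p er A B P V al hC L u e lam nL hL).1
  obtain ⟨a1, -, -, a4, a5, a6, -, a8, -⟩ := h1 p V (SP P er L) (su L u e) (ru L u e) _ _ PP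
  obtain ⟨-, p2, -⟩ := h2 p V (SP P er L) (su L u e) (ru L u e) _ _ PP
  obtain ⟨i1, i2, i3⟩ := h5 p er A B P V al hC L M u e lam u' e' lam' μ nL nM hL hM hμ hI hK
  have hu' : u' ≠ 0 := hM.u0
  have hu : u ≠ 0 := hL.u0
  have hx : ∀ w q, M.weierstrassP w - M.weierstrassP q =
      u' ^ 2 * (xu M u' e' w - xu M u' e' q) := by
    intro w q
    unfold xu
    field_simp
    ring
  have hcv : ∀ q : H, V.valuation (xu M u' e' z - xu M u' e' q) = 1 := fun q =>
    Pool.Agent.MUXV.v_X_sub G hz (hq q q.2).1 (hq q q.2).2.1 (hq q q.2).2.2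
  have hc0 : ∀ q : H, xu M u' e' z - xu M u' e' q ≠ 0 := fun q h0 => by
    have := hcv q
    rw [h0, map_zero] at this
    exact zero_ne_one this
  have hTh : ∀ w, ThetaH M H w =
      (u' ^ 2) ^ H.card * ∏ q : H, (xu M u' e' w - xu M u' e' q) := by
    intro w
    unfold ThetaH
    rw [← Finset.prod_coe_sort, ← Fintype.card_coe H, ← Finset.card_univ, ← Finset.prod_const,
      ← Finset.prod_mul_distrib]
    exact Finset.prod_congr rfl fun q _ => hx w q
  have hnat : ∀ w ∈ M.lattice, (a : ℂ) * w ∈ M.lattice := by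
    intro w hw
    have := M.lattice.smul_mem (a : ℤ) hw
    rwa [zsmul_eq_mul, Int.cast_natCast] at this
  have hdl : ∑ q : H, M.derivWeierstrassP z / (M.weierstrassP z - M.weierstrassP q) =
      dlX M a z := by
    have h8 := (b_TDL M (a : ℂ) H (Nat.cast_ne_zero.2 ha) hnat hH z haz).1
    unfold dlX
    rw [← Finset.sum_coe_sort] at h8
    have h9 : ((‖(a : ℂ)‖ ^ 2 : ℝ) : ℂ) = (a : ℂ) ^ 2 := by
      rw [Complex.norm_natCast]; push_cast; rfl
    rw [h9] at h8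
    exact h8
  have r1 := h3 p V (SP P er L) (SP P er M) (su L u e) (ru L u e) (su M u' e') (ru M u' e') _ _
    (fun Y => μ * Y) (μ * u' / u) PP i1 i2 i3 (fun Y => xu M u' e' (z + Y)) (xu M u' e' z)
    (2 * yu M u' z) (h6 p er A B P V al hC M u' e' lam' nM hM z hz)
  have z0 : ∀ {x y : ℂ}, x = y → V.valuation (x - y) ≤ V.valuation (p : ℂ) := by
    rintro x y rfl
    rw [sub_self, map_zero]
    exact zero_le
  have r2 : ∀ q : H, RepO p V (SP P er L) (su L u e) (ru L u e)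
      (fun Y => xu M u' e' (z + μ * Y) - xu M u' e' q) (xu M u' e' z - xu M u' e' q)
      ((xu M u' e' z - xu M u' e' q) *
        (2 * yu M u' z * (μ * u' / u) / (xu M u' e' z - xu M u' e' q))) := by
    intro q
    have s1 := a5 _ _ _ _ _ _ r1 (a1 (-xu M u' e' q)
      (by rw [Valuation.map_neg]; exact (Pool.Agent.MUXV.int_X (hq q q.2).1).2))
    refine a4 _ _ _ _ _ _ s1 (fun Y _ => sub_eq_add_neg _ _) (z0 (sub_eq_add_neg _ _)) (z0 ?_)
    rw [mul_div_cancel₀ _ (hc0 q), add_zero]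
  obtain ⟨v1, r3⟩ := p2 H (fun q Y => xu M u' e' (z + μ * Y) - xu M u' e' q)
    (fun q => xu M u' e' z - xu M u' e' q)
    (fun q => 2 * yu M u' z * (μ * u' / u) / (xu M u' e' z - xu M u' e' q)) (fun _ => 1) r2 hcv
  have hP0 : ∏ q : H, (xu M u' e' z - xu M u' e' q) ^ (1 : ℤ) ≠ 0 :=
    Finset.prod_ne_zero_iff.2 fun q _ => zpow_ne_zero _ (hc0 q)
  have r4 := a6 _ _ _ _ _ _ r3 (a1 (∏ q : H, (xu M u' e' z - xu M u' e' q) ^ (1 : ℤ))⁻¹
    (by rw [map_inv₀, v1, inv_one]))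
  have r5 : RepO p V (SP P er L) (su L u e) (ru L u e)
      (fun Y => ThetaH M H (z + μ * Y) / ThetaH M H z) 1 (μ * dlX M a z / u) := by
    refine a4 _ _ _ _ _ _ r4 (fun Y _ => ?_) (z0 (mul_inv_cancel₀ hP0).symm) (z0 ?_)
    · have hk : (u' ^ 2) ^ H.card ≠ 0 := pow_ne_zero _ (pow_ne_zero _ hu')
      change ThetaH M H (z + μ * Y) / ThetaH M H z =
        (∏ q : H, (xu M u' e' (z + μ * Y) - xu M u' e' q) ^ (1 : ℤ)) *
          (∏ q : H, (xu M u' e' z - xu M u' e' q) ^ (1 : ℤ))⁻¹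
      rw [hTh, hTh, mul_div_mul_left _ _ hk, div_eq_mul_inv]
      simp only [zpow_one]
    · rw [mul_zero, zero_add, inv_mul_cancel_left₀ hP0, ← hdl, mul_div_right_comm,
        Finset.mul_sum]
      refine Finset.sum_congr rfl fun q _ => ?_
      have := hc0 q
      rw [hx]
      unfold yu
      push_cast
      field_simp
  refine ⟨?_, (a8 _ _ _ r5).2.1, r5⟩
  rw [hTh, map_mul, map_pow, map_prod, Finset.prod_eq_one fun q _ => hcv q, mul_one]

end

end Pool.Agent.OEE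


end

section

/-!
# OE, block E (port of `OB/E_UNI.lean`), module UNI: a uniformiser of `RFE (P^(J+1) m')` over `RFE m'` (helper94; model `NS/F_UNI.lean`)
-/

set_option autoImplicit false

open Polynomial

namespace Pool.Agent.OEE

open _root_.MU3 _root_.Pool.Agent.MU3A _root_.Pool.Agent.MU3B _root_.Pool.Agent.MUX _root_.Pool.Agent.MUXU _root_.Pool.Agent.MUXE
open _root_.Pool.Agent.RI _root_.Pool.Agent.NS _root_.Pool.Agent.OB
open _root_.Pool.Agent.MUXV (GR InK tX)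
open _root_.Pool.Agent.NSE (su ru WL IntP)
open _root_.Pool.Agent.ME hiding ActE
open _root_.Pool.Agent.MEE
open _root_.Pool.Agent.OBE (SP Ann Ker0 PtsO RepO Cp lv0 Sb_ALG Sb_PRO Sb_PUL Sb_COE Sb_GRN Sb_LEG Sb_TNC Sb_GEN Sb_UNT Sb_RAT Sb_KIS Sb_NE1 Sb_DSM)

noncomputable section

namespace UNI

theorem dvd_two {A B : ℤ} {f : ℕ} (h : (2 : OO A B) ∈ idl (A := A) (B := B) f) : f ∣ 2 := by
  rw [Ideal.mem_span_singleton] at h
  obtain ⟨y, hy⟩ := h
  have h1 := congrArg QuadraticAlgebra.re hy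
  simp at h1
  have h2 : (f : ℤ) ∣ 2 := ⟨y.re, h1⟩
  exact_mod_cast h2

end UNI

theorem tb_UNIE (hGRN : Sb_GRN) (hLEG : Sb_LEG) (hPVL : Sb_PVLE) (hTPR : Sb_TPRE) (hUNR : Sb_UNRE)
    (hDEG : Sb_DEGE) : Sb_UNIE := by
  intro p er A B P V al hC hT hG L u e lam hL hgood J f m₁ m' hf h2f hm'm hmf hm' hm'P z₁ hz₁
  have hR := hC.ring
  have := hR.ded
  obtain ⟨φ, hφ⟩ := hR.hom
  have hmul : ∀ x y : OO A B, emb (x * y) = emb x * emb y := fun x y => by
    rw [← hφ, map_mul, hφ, hφ]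
  have hadd : ∀ x y : OO A B, emb (x + y) = emb x + emb y := fun x y => by
    rw [← hφ, map_add, hφ, hφ]
  have hone : emb (1 : OO A B) = 1 := by rw [← hφ, map_one]
  have hnat : ∀ k : ℕ, emb ((k : ℕ) : OO A B) = k := fun k => by rw [← hφ, map_natCast]
  have hcp : Cp p V := ⟨hC.pp, hC.p2, hC.vp⟩
  have hq3 := hC.n3
  obtain ⟨c1, c2, c3, c4, c5⟩ := Pool.Agent.MEE.tm_FAC Pool.Agent.MEE.tm_TRA A B hR
  obtain ⟨r1, r2, r3, r4, r5, -⟩ := Pool.Agent.MEE.tm_TRA A B hR L hL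
  obtain ⟨ξ, G⟩ := hGRN p V L u e lam hcp hgood
  obtain ⟨-, -, pv3⟩ := hPVL p er A B P V al hC L u e lam hL hgood
  have hm₁P : ¬ m₁ ≤ P := fun h => hm'P (hm'm.trans h)
  -- `1 = s + t`
  have hcop : IsCoprime (P ^ (J + 1)) m₁ := by
    apply IsCoprime.pow_left
    rw [Ideal.isCoprime_iff_sup_eq]
    rcases hC.max.eq_of_le (J := P ⊔ m₁) with h1
    by_contra h2
    have h3 := h1 h2 le_sup_left
    apply hm₁P
    rw [h3]
    exact le_sup_right
  obtain ⟨s, hs, t, ht, hst⟩ := Ideal.isCoprime_iff_exists.1 hcop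
  obtain ⟨P₀, hP₀⟩ : ∃ z, z = emb s * z₁ := ⟨_, rfl⟩
  obtain ⟨P₁, hP₁⟩ : ∃ z, z = emb t * z₁ := ⟨_, rfl⟩
  have hsum : P₀ + P₁ = z₁ := by
    rw [hP₀, hP₁, ← add_mul, ← hadd, hst, hone, one_mul]
  have hTP₀ : Tor m₁ L P₀ := by
    intro x hx
    rw [hP₀, ← mul_assoc, ← hmul, hz₁, mul_comm x s]
    exact Ideal.mul_mem_mul hs hx
  have hTP₁ : Tor (P ^ (J + 1)) L P₁ := by
    intro x hx
    rw [hP₁, ← mul_assoc, ← hmul, hz₁]
    exact Ideal.mul_mem_mul hx ht
  have hTP₁' : ¬ Tor (P ^ J) L P₁ := by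
    intro h
    have hlt : P ^ (J + 1) < P ^ J := Ideal.pow_right_strictAnti P hC.ne hC.max.ne_top (Nat.lt_succ_self J)
    obtain ⟨x, hx, hx'⟩ := SetLike.exists_of_lt hlt
    have h1 := h x hx
    rw [hP₁, ← mul_assoc, ← hmul, hz₁] at h1
    apply hx'
    have h2 : x * t ∈ P ^ (J + 1) := (Ideal.mul_le_left : P ^ (J + 1) * m₁ ≤ P ^ (J + 1)) h1
    have h3 : x = x * s + x * t := by rw [← mul_add, hst, mul_one]
    rw [h3]
    exact add_mem (Ideal.mul_mem_left _ _ hs) h2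
  have h2P₀ : 2 * P₀ ∉ L.lattice := by
    intro h
    have h1 : emb (((2 : ℕ) : OO A B) * s) * z₁ ∈ L.lattice := by
      rw [hmul, hnat, mul_assoc, ← hP₀]
      exact_mod_cast h
    rw [hz₁] at h1
    have h2 : ((2 : ℕ) : OO A B) * s ∈ m₁ := (Ideal.mul_le_right : P ^ (J + 1) * m₁ ≤ m₁) h1
    have h3 : (2 : OO A B) ∈ m₁ := by
      have h4 : (2 : OO A B) = ((2 : ℕ) : OO A B) * s + 2 * t := by
        push_cast
        rw [← mul_add, hst, mul_one]
      rw [h4]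
      exact add_mem h2 (Ideal.mul_mem_left _ _ ht)
    have h5 := Nat.le_of_dvd (by norm_num) (UNI.dvd_two (hmf h3))
    omega
  have hP₀L : P₀ ∉ L.lattice := fun h => h2P₀ (by rw [two_mul]; exact add_mem h h)
  have hP₀E : ¬ InK V L (xu L u e) P₀ := fun h => hP₀L (pv3 m₁ hm₁P P₀ hTP₀ h)
  have hT2P₀ : Tor m₁ L (2 * P₀) := by
    rw [two_mul]
    exact r2 m₁ _ _ hTP₀ hTP₀
  have h2P₀E : ¬ InK V L (xu L u e) (2 * P₀) := fun h => h2P₀ (pv3 m₁ hm₁P _ hT2P₀ h)
  obtain ⟨hP₁E, hxP₁, hP₁v⟩ := hTPR p er A B P V al hC J L u e lam hL hgood P₁ hTP₁ hTP₁'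
  have hP₁L : P₁ ∉ L.lattice := fun h => hTP₁' (fun x _ => r1 x _ h)
  obtain ⟨hPE, -⟩ := Pool.Agent.MUXV.near G hP₀E hP₁E hP₁L
  rw [hsum] at hPE
  have hPL : z₁ ∉ L.lattice := fun h => hPE (Or.inl h)
  -- the fields
  obtain ⟨w₁, w₂, hw₁, hw₁L, hw₂, hw₂L, he1, hu1, -⟩ := hLEG p V L u e lam hcp hgood
  have hle2 : m' ≤ idl (A := A) (B := B) 2 := by
    refine (hm'm.trans hmf).trans ?_
    rw [Ideal.span_singleton_le_span_singleton]
    obtain ⟨f', hf'⟩ := h2f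
    refine ⟨((f' : ℕ) : OO A B), ?_⟩
    rw [hf']; push_cast; ring
  have hle20 := c1 _ _ hle2
  have hw : ∀ w : ℂ, 2 * w ∈ L.lattice → w ∉ L.lattice → L.weierstrassP w ∈ RFE m' := by
    intro w hw hwL
    have h1 : xnE L w ∈ RFE (idl (A := A) (B := B) 2) := by
      refine (c2 _ L hL).2 _ ((r5 ((2 : ℕ) : OO A B) w).2 ?_) hwL
      rw [hnat]
      exact_mod_cast hw
    have h2 : L.weierstrassP w = xnE L w + ((0 : ℚ) : ℂ) := by
      unfold xnE; push_cast; ring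
    rw [h2]
    exact add_mem (hle20 h1) (SubfieldClass.ratCast_mem _ _)
  have heM : e ∈ RFE m' := by
    rw [← he1]; exact hw w₁ hw₁ hw₁L
  have huM : u ^ 2 ∈ RFE m' := by
    rw [← hu1]; exact sub_mem (hw w₂ hw₂ hw₂L) (hw w₁ hw₁ hw₁L)
  have hlv : P ^ (J + 1) * m' ≤ m' := Ideal.mul_le_right
  have hle := c1 _ _ hlv
  have hlvf : P ^ (J + 1) * m' ≤ P ^ (J + 1) * m₁ := Ideal.mul_mono_right hm'm
  have hP₀M : xnE L P₀ ∈ RFE m' := (c2 _ L hL).2 _ (fun x hx => hTP₀ x (hm'm hx)) hP₀L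
  have hPM : xnE L z₁ ∈ RFE (P ^ (J + 1) * m') :=
    (c2 _ L hL).2 _ (fun x hx => (hz₁ x).2 (hlvf hx)) hPL
  have hxx : ∀ z : ℂ, xu L u e z = (xnE L z + ((0 : ℚ) : ℂ) - e) / u ^ 2 := by
    intro z; unfold xu xnE; push_cast; ring
  have hx0M : xu L u e P₀ ∈ RFE m' := by
    rw [hxx]
    exact div_mem (sub_mem (add_mem hP₀M (SubfieldClass.ratCast_mem _ _)) heM) huM
  have hxPM : xu L u e z₁ ∈ RFE (P ^ (J + 1) * m') := by
    rw [hxx]
    exact div_mem (sub_mem (add_mem hPM (SubfieldClass.ratCast_mem _ _)) (hle heM)) (hle huM)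
  obtain ⟨π, hπ⟩ : ∃ z, z = xu L u e z₁ - xu L u e P₀ := ⟨_, rfl⟩
  have hπM : π ∈ RFE (P ^ (J + 1) * m') := by
    rw [hπ]; exact sub_mem hxPM (hle hx0M)
  have hvπ : V.valuation π ^ ((nI P - 1) * nI P ^ J) = V.valuation (emb al) := by
    have h11 := (Pool.Agent.MUXV.tq_YUN V (WL lam) L (xu L u e) (yu L u) ξ G P₀ hP₀E h2P₀E).2 P₁
      hP₁E hP₁L
    rw [hsum, ← hπ] at h11
    obtain ⟨-, h12, h13⟩ := Pool.Agent.MUXV.v_tX_lt G hP₁E hP₁L
    have h14 : V.valuation (su L u e P₁) = V.valuation (tX (xu L u e) (yu L u) P₁) ^ 2 := by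
      unfold su
      rw [map_inv₀]
      exact inv_eq_of_mul_eq_one_right h13
    rw [h14, ← pow_mul] at hP₁v
    have h15 : (V.valuation π ^ ((nI P - 1) * nI P ^ J)) ^ 2 = V.valuation (emb al) ^ 2 := by
      rw [← hP₁v, h11, ← pow_mul]
      congr 1
      ring
    exact (pow_left_inj₀ zero_le zero_le (by norm_num)).1 h15
  have hp0' : (p : ℂ) ≠ 0 := by
    have := hC.pp.ne_zero
    exact_mod_cast this
  have hvp : V.valuation (emb al) < 1 := by
    by_contra h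
    have h11 : (1 : V.ValueGroup) ≤ V.valuation (emb al) ^ er := one_le_pow₀ (not_lt.1 h)
    rw [hC.alv] at h11
    exact absurd hC.vp (not_lt.2 h11)
  have hp0 : emb al ≠ 0 := by
    intro h
    have h11 := hC.alv
    rw [h, map_zero, zero_pow (by have := hC.er1; omega)] at h11
    exact (Valuation.ne_zero_iff _).2 hp0' h11.symm
  have hbot : P ^ (J + 1) * m' ≠ ⊥ := by
    rw [← Ideal.zero_eq_bot] at hm' ⊢
    exact mul_ne_zero (pow_ne_zero _ (by rw [Ideal.zero_eq_bot]; exact hC.ne)) hm'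
  have := hG.fin _ hm'
  have := hG.fin _ hbot
  refine ⟨P₀, hTP₀, hP₀L, hP₀E, hPE, huM, heM, hx0M, hπ ▸ hπM, ?_⟩
  intro w hw hvw
  rw [← hπ]
  exact Pool.Agent.NSE.te_BAS (kk A B) ℂ V.ValueGroup V.valuation
    (RFE m') (RFE (P ^ (J + 1) * m'))
    ((nI P - 1) * nI P ^ J) (emb al) π hle
    (Nat.mul_pos (by omega) (pow_pos (by omega) _)) (hDEG p er A B P V al hC hG J m' hm' hle2 hm'P) hp0
    hvp (hUNR p er A B P V al hC hT m' hm' hle2 hm'P) hπM hvπ w hw hvw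

end

end Pool.Agent.OEE


end

section

/-!
# OE, block E (port of `OB/E_UNR.lean`), module UNR: `RFE m'` is unramified at `V` if `m'` is not contained in `P`
-/

set_option autoImplicit false

open Polynomial

namespace Pool.Agent.OEE

open _root_.MU3 _root_.Pool.Agent.MU3A _root_.Pool.Agent.MU3B _root_.Pool.Agent.MUX _root_.Pool.Agent.MUXU _root_.Pool.Agent.MUXE
open _root_.Pool.Agent.RI _root_.Pool.Agent.NS _root_.Pool.Agent.OB
open _root_.Pool.Agent.ME hiding ActE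
open _root_.Pool.Agent.MEE
open _root_.Pool.Agent.OBE (SP Ann Ker0 PtsO RepO Cp lv0 Sb_ALG Sb_PRO Sb_PUL Sb_COE Sb_GRN Sb_LEG Sb_TNC Sb_GEN Sb_UNT Sb_RAT Sb_KIS Sb_NE1 Sb_DSM)

noncomputable section

namespace UNR

/-- extension of an automorphism of `RFE m` to `ℂ` (as `CXW.extn` in `W_CXW.lean` of MUX) -/
lemma extn {A B : ℤ} (hT : TorXE A B) {m : Ideal (OO A B)} (hm : m ≠ ⊥)
    (σ : (RFE m : IntermediateField (kk A B) ℂ) ≃ₐ[kk A B] RFE m) :
    ∃ s : ℂ ≃+* ℂ, FixK A B s ∧ ∀ y : (RFE m : IntermediateField (kk A B) ℂ),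
      s y = ((σ y : (RFE m : IntermediateField (kk A B) ℂ)) : ℂ) := by
  let D : IntermediateField ℚ ℂ :=
    (RFE m : IntermediateField (kk A B) ℂ).restrictScalars ℚ
  have hkD : kk A B ≤ D := fun x hx =>
    (RFE m : IntermediateField (kk A B) ℂ).algebraMap_mem ⟨x, hx⟩
  letI := algC hkD
  let f : D ≃+* D :=
    { toFun := fun y => σ y
      invFun := fun y => σ.symm y
      left_inv := fun y => σ.symm_apply_apply y
      right_inv := fun y => σ.apply_symm_apply y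
      map_mul' := fun x y => map_mul σ x y
      map_add' := fun x y => map_add σ x y }
  let τ : D ≃ₐ[kk A B] D := AlgEquiv.ofRingEquiv (f := f) (fun r => σ.commutes r)
  obtain ⟨s, hs, h1⟩ := hT.ext m hm D hkD (fun y hy => hy) τ
  exact ⟨s, hs, fun y => h1 ⟨y, y.2⟩⟩

lemma idl_ne {A B : ℤ} {f : ℕ} (hf : f ≠ 0) : idl (A := A) (B := B) f ≠ ⊥ := by
  intro h
  rw [Ideal.span_singleton_eq_bot] at h
  have h1 := congrArg QuadraticAlgebra.re h
  rw [QuadraticAlgebra.re_natCast, QuadraticAlgebra.re_zero] at h1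
  exact hf (by exact_mod_cast h1)

end UNR

/-- UNR. -/
theorem tb_UNRE : Sb_UNRE := by
  intro p er A B P V al hC hT m' hm hm2 hmP
  have := hT.fin _ hm
  have := hT.gal _ hm
  refine Pool.Agent.NSR.tr_RAM A B V P al hC.cq hC.max.isPrime hC.ne hC.hV hC.alP hC.al2
    (RFE m') ?_
  intro σ hσ
  obtain ⟨s, hs, hsv⟩ := UNR.extn hT hm σ
  have h1 : ∀ y ∈ (RFE m' : IntermediateField (kk A B) ℂ), y ∈ V →
      s y - y ∈ V.nonunits := by
    intro y hy hyV
    have h2 := hσ ⟨y, hy⟩ ((V.valuation_le_one_iff y).2 hyV)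
    rw [ValuationSubring.mem_nonunits_iff, hsv ⟨y, hy⟩]
    exact h2
  have h2 := hC.iner m' hm hm2 hmP s hs h1
  apply AlgEquiv.ext
  intro y
  apply Subtype.ext
  rw [← hsv]
  exact h2 y y.2

end

end Pool.Agent.OEE


end

section

/-!
# OE, block R (helper58): the reduction of the normalised lattices at the places above `p ≥ 5`, exceptional fields

`D = -4`: `y² = x³ - x`, `u = 1`, `e = 0`, `lam = -1`. `D = -3`: `y² = x³ + 1`, `e = -1`, `u² = 1 + w`, `lam = 1 - w`, `w = exp(π i/3)`.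
`σ` in the inertia group acts on `E[m]` as `mu ≡ ± 1`. Result: `oe_RFIN : O_RFINE`, without hypotheses.
Models: `ME/R_RFIN.lean`, `OB/R_INJ.lean` (helper23), `OB/GLib.lean` (helper60).
-/

set_option autoImplicit false

open Polynomial NumberField IsDedekindDomain

namespace Pool.Agent.OER

open _root_.MU3 Pool.Agent.MU3A Pool.Agent.MU3B Pool.Agent.MUX Pool.Agent.MUXU Pool.Agent.RI
open Pool.Agent.ME Pool.Agent.MEC Pool.Agent.OE
open Pool.Agent.NS (xu yu)
open Pool.Agent.NSR (Leg WL rtor rxil)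
open Pool.Agent.OB (GoodL vint vemb_le v_nat_unit)
open Pool.Agent.OBR (r_MLT r_GRL)
open Pool.Agent.MUXV (GR InK tX)

noncomputable section

section
variable {p : ℕ} {A B : ℤ} {P : Ideal (OO A B)} {V : ValuationSubring ℂ}

lemma vemb_lt (h : CaseOE p A B P V) (x : OO A B) : V.valuation (emb x) < 1 ↔ x ∈ P := by
  rw [← ValuationSubring.mem_nonunits_iff]
  exact h.hV x

lemma vemb_one (h : CaseOE p A B P V) {x : OO A B} (hx : x ∉ P) :
    V.valuation (emb x) = 1 := by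
  refine le_antisymm (vemb_le h.toCQ V x) ?_
  rw [← vemb_lt h, not_lt] at hx
  exact hx

lemma vp (h : CaseOE p A B P V) : V.valuation (p : ℂ) < 1 := by
  have h1 := (vemb_lt h _).2 h.mem
  rwa [Pool.Agent.MUX.emb_natCast h.toCQ] at h1

lemma vnat (h : CaseOE p A B P V) {n : ℕ} (hn : ¬ p ∣ n) : V.valuation (n : ℂ) = 1 :=
  v_nat_unit h.pp (vp h) hn

lemma v2 (h : CaseOE p A B P V) : V.valuation (2 : ℂ) = 1 := by
  have h1 := vnat h (n := 2) (fun hd => by
    have := Nat.le_of_dvd two_pos hd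
    have := h.p5
    omega)
  exact_mod_cast h1

lemma two (h : CaseOE p A B P V) : ((2 : ℕ) : OO A B) ∉ P := by
  intro h1
  have h2 := (vemb_lt h _).2 h1
  rw [Pool.Agent.MUX.emb_natCast h.toCQ] at h2
  have h3 := v2 h
  rw [Nat.cast_ofNat, h3] at h2
  exact lt_irrefl _ h2

lemma nm_unit (h : CaseOE p A B P V) {x : OO A B} (hx : x ∉ P) (hx' : star x ∉ P) :
    ∃ n : ℕ, nm x = (n : ℤ) ∧ V.valuation (n : ℂ) = 1 := by
  refine ⟨(nm x).toNat, (Int.toNat_of_nonneg (nm_nonneg h.toCQ x)).symm, vnat h fun hd => ?_⟩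
  obtain ⟨k, hk⟩ := hd
  have h1 : nm x = (p : ℤ) * k := by
    rw [← Int.toNat_of_nonneg (nm_nonneg h.toCQ x), hk]
    push_cast
    ring
  have h2 : x * star x ∈ P := by
    rw [mul_star, h1]
    have h3 : (((p : ℤ) * (k : ℤ) : ℤ) : OO A B) = (k : OO A B) * ((p : ℕ) : OO A B) := by
      push_cast
      ring
    rw [h3]
    exact P.mul_mem_left _ h.mem
  rcases h.prime.mem_or_mem h2 with h3 | h3
  · exact hx h3
  · exact hx' h3

/-- (INJ) points of level prime to `P` have integral coordinates -/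
theorem inj (h : CaseOE p A B P V) (b : Ideal (OO A B)) (L : PeriodPair) (om : ℂ)
    (hL : IsLI b L om) (u e lam : ℂ) (hG : GoodL V L u e lam) (m : Ideal (OO A B))
    (hm : ¬ m ≤ P) (z : ℂ) (hz : z ∉ L.lattice) (ht : Tor m L z) :
    V.valuation (xu L u e z) ≤ 1 := by
  obtain ⟨be, hbm, hbP⟩ : ∃ be ∈ m, be ∉ P := by
    by_contra hc
    push Not at hc
    exact hm hc
  have hcq := h.toCQ
  have hcm := hL.hasCM hcq
  have hbe : emb be * z ∈ L.lattice := ht be hbm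
  have hvbe : V.valuation (emb be) = 1 := vemb_one h hbP
  by_cases hs : star be ∈ P
  · -- the conjugate is in `P`
    by_contra hc
    rw [not_le] at hc
    obtain ⟨t, htz, hvt, hst, htP⟩ : ∃ t : OO A B, emb t * z ∈ L.lattice ∧
        V.valuation (emb t) = 1 ∧ star t ∈ P ∧ 1 + (t + t) ∉ P := by
      by_cases h4 : 1 + (be + be) ∈ P
      · refine ⟨-be, ?_, ?_, ?_, fun h5 => ?_⟩
        · rw [Pool.Agent.MUX.emb_neg hcq, neg_mul]
          exact neg_mem hbe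
        · rw [Pool.Agent.MUX.emb_neg hcq, Valuation.map_neg]
          exact hvbe
        · rw [star_neg]
          exact P.neg_mem hs
        · have h6 := P.add_mem h4 h5
          have h7 : (1 + (be + be)) + (1 + (-be + -be)) = ((2 : ℕ) : OO A B) := by
            push_cast
            ring
          rw [h7] at h6
          exact two h h6
      · exact ⟨be, hbe, hvbe, hs, h4⟩
    have hst' : star (1 + (t + t)) ∉ P := by
      intro h5
      rw [star_add, star_add, star_one] at h5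
      have h6 := P.sub_mem h5 (P.add_mem hst hst)
      rw [add_sub_cancel_right] at h6
      exact h.prime.ne_top ((Ideal.eq_top_iff_one _).2 h6)
    obtain ⟨n, hn, hvn⟩ := nm_unit h htP hst'
    have hodd : Odd n := by
      have h5 : (n : ℤ) = 2 * (2 * t.re + 2 * t.re ^ 2 + B * t.im * (1 + 2 * t.re) -
          2 * A * t.im ^ 2) + 1 := by
        rw [← hn]
        simp only [nm, QuadraticAlgebra.re_add, QuadraticAlgebra.im_add,
          QuadraticAlgebra.re_one, QuadraticAlgebra.im_one]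
        ring
      have h6 : Odd (n : ℤ) := ⟨_, h5⟩
      exact_mod_cast h6
    obtain ⟨-, -, h8⟩ := r_MLT A B V hcq (v2 h) b L om hL u e lam hG _ n hn hodd hvn z hz hc
    have hw : emb t * z + emb t * z ∈ L.lattice := add_mem htz htz
    have h9 : emb (1 + (t + t)) * z = z + (emb t * z + emb t * z) := by
      rw [Pool.Agent.MUX.emb_add hcq, Pool.Agent.MUX.emb_add hcq, Pool.Agent.MUX.emb_one hcq]
      ring
    have hx9 : xu L u e (emb (1 + (t + t)) * z) = xu L u e z := by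
      rw [h9]
      unfold xu
      rw [L.weierstrassP_add_coe z ⟨_, hw⟩]
    have hy9 : yu L u (emb (1 + (t + t)) * z) = yu L u z := by
      rw [h9]
      unfold yu
      rw [L.derivWeierstrassP_add_coe z ⟨_, hw⟩]
    have h10 : tX (xu L u e) (yu L u) (emb (1 + (t + t)) * z) =
        tX (xu L u e) (yu L u) z := by
      unfold tX
      rw [hx9, hy9]
    rw [h10] at h8
    have h11 : tX (xu L u e) (yu L u) z - emb (1 + (t + t)) * tX (xu L u e) (yu L u) z =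
        -(2 * emb t * tX (xu L u e) (yu L u) z) := by
      rw [Pool.Agent.MUX.emb_add hcq, Pool.Agent.MUX.emb_add hcq, Pool.Agent.MUX.emb_one hcq]
      ring
    rw [h11, Valuation.map_neg, map_mul, map_mul, v2 h, hvt, one_mul, one_mul] at h8
    exact lt_irrefl _ h8
  · obtain ⟨n, hn, hvn⟩ := nm_unit h hbP hs
    have h5 : (n : ℂ) * z ∈ L.lattice := by
      have h6 : (n : ℂ) = emb (star be) * emb be := by
        rw [← Pool.Agent.MUX.emb_mul hcq, mul_comm, mul_star, hn,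
          Pool.Agent.MUX.emb_intCast hcq]
        push_cast
        rfl
      rw [h6, mul_assoc]
      exact hcm _ _ hbe
    exact (rtor V L u e lam (v2 h) hG.vl.le hG.leg n hvn z hz h5).1

/-- `σ` in the inertia group of `RFE m` is trivial on `RFE m`, `m` even, not contained in `P` -/
theorem iner (h : CaseOE p A B P V) (T : TorXE A B) {u e lam : ℂ}
    (hu : u ^ 2 ∈ kk A B) (he : e ∈ kk A B)
    (G : ∀ L : PeriodPair, NrmE A B L → GoodL V L u e lam)
    {m : Ideal (OO A B)} (hm : m ≠ ⊥) (hm2 : m ≤ idl 2) (hmP : ¬ m ≤ P) (σ : ℂ ≃+* ℂ)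
    (hσ : FixK A B σ) (hin : ∀ y ∈ RFE m, y ∈ V → σ y - y ∈ V.nonunits) :
    ∀ y ∈ RFE m, σ y = y := by
  have hC := h.toCQ
  obtain ⟨L, om, hL⟩ := exists_isNE h.toCaseE (⊤ : Ideal (OO A B)) (by
    intro h0
    have := (Submodule.mem_bot (OO A B)).1 (h0 ▸ Submodule.mem_top : (1 : OO A B) ∈ (⊥ : Ideal _))
    have h1 := congrArg emb this
    rw [Pool.Agent.MUX.emb_one hC, Pool.Agent.MUX.emb_zero hC] at h1
    exact one_ne_zero h1)
  have hCM : HasCM A B L := hL.toIsLI.hasCM hC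
  obtain ⟨a, -, ha⟩ := T.act _ hm σ hσ
  obtain ⟨b', L', om', mu, hL', hact⟩ := ha ⊤ L om hL
  obtain ⟨c, hc, hac, -⟩ := T.two _ a σ ⊤ L L' om mu hm hm2 hσ hL hact hL'.nrm
  refine (T.triv _ a σ ⊤ L L' om mu hm (Or.inl hm2) hσ hL hact hL'.nrm).2 ?_
  obtain ⟨hlat, -, hco⟩ := c_SGQ A B L L' hL.nrm hL'.nrm
  obtain ⟨z, hz, hzm, -⟩ := Pool.Agent.MUXC.c_GEN A B hC ⊤ _ L om hL.toIsLI hm
  by_cases hzL : z ∈ L.lattice
  · have h1 : (1 : OO A B) ∈ m := (hzm 1).1 (by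
      rwa [Pool.Agent.MUX.emb_one hC, one_mul])
    exact ⟨c, by rw [(Ideal.eq_top_iff_one _).2 h1]; trivial, hac⟩
  rcases hact.act z hz with ⟨h1, -⟩ | ⟨-, hmz', hx, -⟩
  · exact absurd h1 hzL
  have hmz : mu * z ∉ L.lattice := fun h1 => hmz' ((hlat _).1 h1)
  have hfk := TRV.fix hσ
  have hxz : σ (xnE L z) = xnE L (mu * z) := by rw [hx, (hco _).1]
  have hX : σ (xu L u e z) = xu L u e (mu * z) := by
    unfold xu
    rw [map_div₀, map_sub, hfk _ hu, hfk _ he]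
    have : σ (L.weierstrassP z) = L.weierstrassP (mu * z) := hxz
    rw [this]
  have htm : Tor m L (mu * z) := by
    intro x hx
    have e1 : emb x * (mu * z) = mu * (emb x * z) := by ring
    rw [e1, hc]
    exact hCM c _ (hz x hx)
  obtain ⟨ξ, g, -⟩ := r_GRL V L u e lam (v2 h) (G L hL.nrm)
  have hK : ∀ y : ℂ, Tor m L y → InK V L (xu L u e) y → y ∈ L.lattice := by
    intro y hy hyK
    by_contra hyL
    rcases hyK with h1 | h1
    · exact hyL h1
    · exact h1 ((ValuationSubring.valuation_le_one_iff _ _).1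
        (inj h ⊤ L om hL.toIsLI u e lam (G L hL.nrm) m hmP y hyL hy))
  have hzK : ¬ InK V L (xu L u e) z := fun h1 => hzL (hK z hz h1)
  have hmK : ¬ InK V L (xu L u e) (mu * z) := fun h1 => hmz (hK _ htm h1)
  have hxV : xu L u e z ∈ V :=
    (ValuationSubring.valuation_le_one_iff _ _).1 (Pool.Agent.MUXV.int_X hzK).2
  have hxR : xu L u e z ∈ RFE m := by
    have h1 : xnE L z ∈ RFE m :=
      IntermediateField.subset_adjoin _ _ ⟨⊤, L, om, hL, Or.inr ⟨z, hz, hzL, rfl⟩⟩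
    have h3 : u ^ 2 ∈ RFE m := (RFE m).algebraMap_mem ⟨u ^ 2, hu⟩
    have h4 : e ∈ RFE m := (RFE m).algebraMap_mem ⟨e, he⟩
    exact div_mem (sub_mem h1 h4) h3
  have hlt := hin _ hxR hxV
  rw [hX, ValuationSubring.mem_nonunits_iff] at hlt
  by_cases hm1 : mu * z - z ∈ L.lattice
  · refine ⟨c, (hzm _).1 ?_, hac⟩
    rw [Pool.Agent.MUX.emb_sub hC, Pool.Agent.MUX.emb_one hC, ← hc, sub_mul, one_mul]
    exact hm1
  by_cases hp1 : mu * z + z ∈ L.lattice
  · refine ⟨-c, ?_, ?_⟩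
    · have h9 : c + 1 ∈ m := by
        refine (hzm _).1 ?_
        rw [Pool.Agent.MUX.emb_add hC, Pool.Agent.MUX.emb_one hC, ← hc, add_mul, one_mul]
        exact hp1
      have e1 : -c - 1 = -(c + 1) := by ring
      rw [e1]
      exact neg_mem h9
    · rw [hac]
      exact (Ideal.span_singleton_neg c).symm
  exfalso
  have := Pool.Agent.MUXV.v_X_sub g hmK hzK (fun h1 => hp1 (hK _ (htm.add hz) h1))
    (fun h1 => hm1 (hK _ (by
      have := htm.add hz.neg
      rwa [← sub_eq_add_neg] at this) h1))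
  exact absurd this hlt.ne

end

/-- the good model, over `k` -/
lemma model {p : ℕ} {A B : ℤ} {P : Ideal (OO A B)} {V : ValuationSubring ℂ}
    (h : CaseOE p A B P V) : ∃ u e lam : ℂ, u ^ 2 ∈ kk A B ∧ e ∈ kk A B ∧ lam ∈ kk A B ∧
      V.valuation u = 1 ∧ ∀ L : PeriodPair, NrmE A B L → GoodL V L u e lam := by
  have hE := h.toCaseE
  have hC := h.toCQ
  have hv2 := v2 h
  have hB : B = 0 ∨ B = 1 := hC.hB
  rcases hB with hB | hB
  · refine ⟨1, 0, -1, by rw [one_pow]; exact one_mem _, zero_mem _, neg_mem (one_mem _),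
      map_one _, fun L hL => ⟨one_ne_zero, (Pool.Agent.MER.leg4 hB hL).eq, ?_, ?_⟩⟩
    · rw [Valuation.map_neg, map_one]
    · rw [sub_neg_eq_add]
      norm_num
      exact hv2
  · have hw := w_sq hE
    have hwk : wC A B ∈ kk A B := wC_mem A B
    have vw : V.valuation (wC A B) ≤ 1 := by
      have h1 := vemb_le hC V (⟨0, 1⟩ : OO A B)
      rwa [Pool.Agent.MUX.emb_w] at h1
    have v1w : V.valuation (1 - wC A B) ≤ 1 := by
      have h1 := vemb_le hC V (1 - (⟨0, 1⟩ : OO A B))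
      rwa [Pool.Agent.MUX.emb_sub hC, Pool.Agent.MUX.emb_one hC, Pool.Agent.MUX.emb_w] at h1
    have e : (1 - wC A B) * wC A B = 1 := by
      have := w_inv hE
      rw [hB] at this ⊢
      exact_mod_cast this
    have h3 := congrArg V.valuation e
    rw [map_mul, map_one] at h3
    have vw1 : V.valuation (wC A B) = 1 := by
      refine le_antisymm vw ?_
      rw [← h3]
      exact mul_le_of_le_one_left' v1w
    have v1w1 : V.valuation (1 - wC A B) = 1 := by rwa [vw1, mul_one] at h3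
    obtain ⟨u, hu⟩ := IsAlgClosed.exists_pow_nat_eq (1 + wC A B) (n := 2) (by norm_num)
    have e4 : u ^ 4 = 3 * wC A B := by
      have : u ^ 4 = (u ^ 2) ^ 2 := by ring
      rw [this, hu]
      rw [hB] at hw ⊢
      push_cast at hw
      linear_combination hw
    have hw0 : wC A B ≠ 0 := w_ne hE
    have hu0 : u ≠ 0 := by
      rintro rfl
      rw [zero_pow (by norm_num)] at e4
      exact mul_ne_zero (by norm_num) hw0 e4.symm
    have hv3 : V.valuation (3 : ℂ) = 1 := by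
      have h1 := vnat h (n := 3) (fun hd => by
        have := Nat.le_of_dvd (by norm_num) hd
        have := h.p5
        omega)
      exact_mod_cast h1
    have vu : V.valuation u = 1 := by
      have h4 : V.valuation u ^ 4 = 1 := by rw [← map_pow, e4, map_mul, hv3, vw1, mul_one]
      exact (pow_eq_one_iff.1 h4).resolve_right (by norm_num)
    refine ⟨u, -1, 1 - wC A B, by rw [hu]; exact add_mem (one_mem _) hwk, neg_mem (one_mem _),
      sub_mem (one_mem _) hwk, vu,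
      fun L hL => ⟨hu0, (Pool.Agent.MER.leg3 hE hB hL hu hu0).eq, v1w1, ?_⟩⟩
    rw [sub_sub_cancel]
    exact vw1

/-- **(RFINE)** -/
theorem oe_RFIN : O_RFINE := by
  intro p A B P V h T
  obtain ⟨u, e, lam, hu, he, hl, -, G⟩ := model h
  have hk : ∀ x ∈ kk A B, x ∈ RFE (idl (A := A) (B := B) 2) := fun x hx =>
    (RFE (idl (A := A) (B := B) 2)).algebraMap_mem ⟨x, hx⟩
  refine ⟨fun b L om hL => ⟨u, e, lam, G L hL.nrm, hk _ hu, hk _ he, hk _ hl⟩, ?_⟩
  intro m hm hm2 hmP σ hσ hin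
  exact iner h T hu he G hm hm2 hmP σ hσ hin

end

end Pool.Agent.OER


end

section

/-!
# OE, block HQ (helper51): the symbols of the theta series, exceptional fields, `p ≥ 5`

Twins of the statements RAM VAL CHR QBO DEP PJ1 SAF UAL HQ1 of `OB/StHB.lean` for `SetOE`, with `er = 1`; the number `N0O p 1 A B f = |D| f²` and `HypQ` are those of OB. Every statement `Sq_X` is proved
without hypotheses except HQ1 (from `O_TYFE`, `O_GPTE`): theorems `Pool.Agent.OEHQ.oe_X` in `OE/HQ_ELM.lean` (RAM VAL CHR QBO DEP PJ1), `OE/HQ_SAF.lean` (SAF UAL), `OE/HQ_HQ1.lean` (HQ1).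
-/

set_option autoImplicit false

namespace Pool.Agent.OEHQ

open _root_.MU3 _root_.Pool.Agent.MU3A _root_.Pool.Agent.MU3B _root_.Pool.Agent.MU3F _root_.Pool.Agent.MUX
  _root_.Pool.Agent.MUXH _root_.Pool.Agent.MUXHY _root_.Pool.Agent.MuSym _root_.Pool.Agent.OB
  _root_.Pool.Agent.OBH _root_.Pool.Agent.OE OnePoint
open _root_.Pool.Agent.ME (CaseE TorXE RepsE IsNE IsEIE PhiKE)
open _root_.Pool.Agent.MUXF (qb)

noncomputable section

/-- (RAM) the norm of `P`, and `p` does not divide the discriminant (`3` or `4`). -/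
def Sq_RAM : Prop :=
  ∀ (p : ℕ) (A B : ℤ) (P : Ideal (OO A B)) (V : ValuationSubring ℂ), CaseOE p A B P V →
    (nI P = p ∨ nI P = p ^ 2) ∧ ¬ (p : ℤ) ∣ absD A B

/-- (VAL) elementary facts. -/
def Sq_VAL : Prop :=
  ∀ (p : ℕ) (A B : ℤ) (P : Ideal (OO A B)) (V : ValuationSubring ℂ) (f : ℕ),
    SetOE p A B P V f →
    V.valuation (p : ℂ) < 1 ∧ (∀ n : ℤ, V.valuation (n : ℂ) ≤ 1) ∧
    (∀ n : ℤ, ¬ (p : ℤ) ∣ n → V.valuation (n : ℂ) = 1) ∧
    (∀ (r : ℕ) (z : ℂ), r ≠ 0 → z ^ r = 1 → V.valuation z = 1) ∧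
    0 < absD A B ∧ idl (A := A) (B := B) (p * f) ≤ sp ((absD A B : ℤ) : OO A B) ∧
    idl (A := A) (B := B) (p * f) ≠ ⊥ ∧ idl (A := A) (B := B) (p * f) ≠ ⊤ ∧
    ((p * f : ℕ) : OO A B) ∈ idl (A := A) (B := B) (p * f) ∧
    ((p ^ (1 + 1) * N0O p 1 A B f : ℕ) : ℤ) = absD A B * ((p * f : ℕ) : ℤ) ^ 2 ∧
    N0O p 1 A B f ≠ 0 ∧ Nat.Coprime p (N0O p 1 A B f) ∧
    absD A B ∣ ((p * N0O p 1 A B f : ℕ) : ℤ) ∧
    ((p * f : ℕ) : ℤ) ∣ ((p * N0O p 1 A B f : ℕ) : ℤ)

/-- (CHR) the nebentypus. -/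
def Sq_CHR : Prop :=
  ∀ (p : ℕ) (A B : ℤ) (P : Ideal (OO A B)) (V : ValuationSubring ℂ) (f : ℕ),
    SetOE p A B P V f → ∀ e : OO A B → ℂ, IsEI (idl (A := A) (B := B) (p * f)) e →
    ∀ r : ℕ, r ≠ 0 → (∀ x, e x ≠ 0 → e x ^ r = 1) →
    nuX e 1 = 1 ∧ (∀ d d', nuX e (d * d') = nuX e d * nuX e d') ∧
    (∀ d d' : ℤ, ((p * N0O p 1 A B f : ℕ) : ℤ) ∣ d - d' → nuX e d = nuX e d') ∧
    (∀ d, V.valuation (nuX e d) ≤ 1)

/-- (QBO) the exponents modulo `p`. -/
def Sq_QBO : Prop :=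
  ∀ (p : ℕ) (A B : ℤ) (P : Ideal (OO A B)) (V : ValuationSubring ℂ) (f : ℕ),
    SetOE p A B P V f → ∀ e : OO A B → ℂ, IsEI (idl (A := A) (B := B) (p * f)) e →
    ∀ b : Ideal (OO A B), b ≠ ⊥ → ∀ x ∈ b, e x ≠ 0 → ¬ (p : ℤ) ∣ nm x ∧ ¬ (p : ℤ) ∣ qb b x

/-- (DEP) depletion at `p`. -/
def Sq_DEP : Prop :=
  ∀ (p : ℕ) (A B : ℤ) (P : Ideal (OO A B)) (V : ValuationSubring ℂ) (f : ℕ),
    SetOE p A B P V f → ∀ e : OO A B → ℂ, IsEI (idl (A := A) (B := B) (p * f)) e →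
    ∀ b : Ideal (OO A B), b ≠ ⊥ → ∀ x : ℚ,
    ∑ j ∈ Finset.range p, PhiI b e ∞ (((x + j) / p : ℚ) : OnePoint ℚ) = 0

/-- (PJ1) the projector. -/
def Sq_PJ1 : Prop :=
  ∀ (p : ℕ) (A B : ℤ) (P : Ideal (OO A B)) (V : ValuationSubring ℂ) (f : ℕ),
    SetOE p A B P V f → ∀ (ι : Type) [Fintype ι] (R : RepsE A B (p * f) ι) (e : OO A B → ℂ),
    IsEI (idl (A := A) (B := B) (p * f)) e → ∀ (kk : ι → ℂ) (Z s : ℂ),
    ∃ (q : ℕ) (c : ℕ → ℂ), q ≠ 0 ∧ (∀ t, V.valuation (c t) ≤ 1) ∧ ∀ x y : OnePoint ℚ,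
      ∑ t ∈ Finset.range q, c t * sgnPart s (fun x y => PhiKE R e kk x y / Z) (mob q t 0 q x)
        (mob q t 0 q y) = PhiKE R e kk x y / Z

/-- (SAF) `PhiKE/(u om_0)` is a symbol with algebraic values in a finitely generated group. -/
def Sq_SAF : Prop :=
  ∀ (p : ℕ) (A B : ℤ) (P : Ideal (OO A B)) (V : ValuationSubring ℂ) (f : ℕ),
    SetOE p A B P V f → TorXE A B → ∀ (ι : Type) [Fintype ι] (R : RepsE A B (p * f) ι)
    (e : OO A B → ℂ), IsEI (idl (A := A) (B := B) (p * f)) e → ∀ r : ℕ, r ≠ 0 →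
    (∀ x, e x ≠ 0 → e x ^ r = 1) → ∀ kk : ι → ℂ, (∀ i, kk i = 0 ∨ kk i ^ r = 1) →
    ∀ u : ℂ, u ≠ 0 → IsAlgebraic ℚ u →
    IsSym (p ^ (1 + 1) * N0O p 1 A B f) (nuX e)
      (fun x y => PhiKE R e kk x y / (u * R.om R.i0)) ∧
    (∀ x y, IsAlgebraic ℚ (PhiKE R e kk x y / (u * R.om R.i0))) ∧
    ∃ T : Finset ℂ, ∀ x y, PhiKE R e kk x y / (u * R.om R.i0) ∈ AddSubgroup.closure (T : Set ℂ)

/-- (UAL) `u` is algebraic. -/
def Sq_UAL : Prop :=
  ∀ (A B : ℤ), CaseE A B → ∀ (n : ℕ) (ι : Type) (R : RepsE A B n ι)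
    (V : ValuationSubring ℂ) (u el lam : ℂ), GoodL V (R.L R.i0) u el lam → IsAlgebraic ℚ u

/-- (HQ1) `HypQ` for `sgnPart s (PhiKE R e kk/(u om_0))`. -/
def Sq_HQ1 : Prop :=
  ∀ (p : ℕ) (A B : ℤ) (P : Ideal (OO A B)) (V : ValuationSubring ℂ) (f : ℕ),
    SetOE p A B P V f → TorXE A B →
    ∀ (ι : Type) [Fintype ι] (R : RepsE A B (p * f) ι) (u el lam : ℂ),
    GoodL V (R.L R.i0) u el lam → ∀ w : OO A B → ℂ, IsTeiP p 1 P V w →
    ∀ e : OO A B → ℂ, IsEIE (idl (A := A) (B := B) (p * f)) e → ∀ r : ℕ, ¬ p ∣ r →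
    (∀ x, e x ≠ 0 → e x ^ r = 1) → ∀ i : ℕ, nI P - 1 ≤ i * (p - 1) → i ≤ nI P - 2 →
    (∀ x, x - 1 ∈ gO P f → x ∉ P → e x = w x ^ i) →
    ∀ s : ℤ, s = 1 ∨ s = -1 → ∀ kk : ι → ℂ, (∀ i, kk i ^ r = 1) →
    ∃ (pi : ℂ) (KI : Subfield ℂ), HypQ p V (N0O p 1 A B f) 1 (nuX e)
        (sgnPart (s : ℂ) (fun x y => PhiKE R e kk x y / (u * R.om R.i0))) pi KI ∧
      (∀ x : ℚ, ∑ j ∈ Finset.range p, sgnPart (s : ℂ) (fun x y => PhiKE R e kk x y /
        (u * R.om R.i0)) ∞ (((x + j) / p : ℚ) : OnePoint ℚ) = 0) ∧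
      (∀ w ∈ KI, V.valuation w < 1 → V.valuation w ≤ V.valuation (p : ℂ)) ∧
      V.valuation pi ^ (nI P - 1) * V.valuation (p : ℂ) ^ i = 1

end

end Pool.Agent.OEHQ


end

section

/-!
# OE (Theorem T+ for `k = ℚ(i)`, `ℚ(√-3)`), bookkeeping for the fields `K B_m`, `B_m` the layers for `l` (helper84)

Twin of `OT/StL.lean` (see there) with `SetOE`, `RFE`, `RepsE`, `TorXE`, `AR_E`. `Bl m` = the `m`-th layer of the cyclotomic `ℤ_l`-extension of `ℚ`,
`l = 2, 3`. `K ≤ RFE (f p)`, `l ^ h ∣ f`, so `K B_m ≤ RFE (f l^(m+h) p)`. All levels are even (`12 ∣ f`).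

* `setOE_up`: the standing hypotheses at the levels `f m`.
* `S_LVTE`: the fields `K B_m` are in the ray class fields of their levels.
* `S_E0LE`: the new characters of `Gal(K B_(m+1) / k)`; additionally `e0 j z = 1` for all units `z`.
* `S_NEWE`, `S_NEWKE`: the new characters of the fields `K B_(r+1)`, for `k = ℚ(i)`, `ℚ(√-3)`; the reverse inflation is `OT/L_IFR.lean`.
-/

set_option autoImplicit false

open NumberField

namespace Pool.Agent.OE

open _root_.MU3 Pool.Agent.MU3 Pool.Agent.MU3A Pool.Agent.MU3B Pool.Agent.RI Pool.Agent.RID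
  Pool.Agent.MUX Pool.Agent.ME Pool.Agent.MUXK Pool.Agent.MUXI Pool.Agent.NS Pool.Agent.NSI
  Pool.Agent.OB Pool.Agent.OBI
open Pool.Agent.MU3I (zt)

noncomputable section

/-- The standing hypotheses at the level `f * m`. -/
theorem setOE_up {p : ℕ} {A B : ℤ} {P : Ideal (OO A B)} {V : ValuationSubring ℂ} {f : ℕ}
    (h : SetOE p A B P V f) (m : ℕ) (hm : m ≠ 0) (hpm : ¬ p ∣ m) :
    SetOE p A B P V (f * m) where
  toCaseOE := h.toCaseOE
  f0 := Nat.mul_ne_zero h.f0 hm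
  fp := fun h1 => by
    rcases h.pp.dvd_mul.1 h1 with h2 | h2
    · exact h.fp h2
    · exact hpm h2
  f12 := h.f12.mul_right m
  fD := by
    have h1 : ((p * (f * m) : ℕ) : ℤ) = ((p * f : ℕ) : ℤ) * (m : ℤ) := by push_cast; ring
    rw [h1]
    exact h.fD.mul_right _

/-- (LVT) the fields `K B_m` are in the ray class fields of their levels. Module of helper84. -/
def S_LVTE : Prop :=
  ∀ (l g h : ℕ), Pool.Agent.TWR.Gen l g h →
    ∀ (p : ℕ) (A B : ℤ) (P : Ideal (OO A B)) (V : ValuationSubring ℂ) (f : ℕ),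
    SetOE p A B P V f → TorXE A B →
    (∃ (b : Ideal (OO A B)) (L : PeriodPair) (om : ℂ), IsNE b L om) →
    ∀ (K : IntermediateField ℚ ℂ), (∀ y ∈ K, y ∈ RFE (idl (A := A) (B := B) (lvX p f 0))) →
    ∀ (m : ℕ) (Bm : IntermediateField ℚ ℂ), IsLayer l m Bm →
    ∀ y ∈ K ⊔ Bm, y ∈ RFE (idl (A := A) (B := B) (lvX p (f * l ^ (m + h)) 0))

/-- (E0L) the new characters of `Gal(K B_(m+1) / k)`, in a finite family. Module of helper84. -/
def S_E0LE : Prop :=
  ∀ (l g h : ℕ), Pool.Agent.TWR.Gen l g h →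
    ∀ (p : ℕ) (A B : ℤ) (P : Ideal (OO A B)) (V : ValuationSubring ℂ) (f : ℕ),
    SetOE p A B P V f → l ^ h ∣ f → TorXE A B →
    ∀ (ι : Type) [Finite ι] (R : RepsE A B (p * f) ι)
    (K : IntermediateField ℚ ℂ) [FiniteDimensional ℚ K] (_ : kk A B ≤ K),
    (∀ y ∈ K, y ∈ RFE (idl (A := A) (B := B) (lvX p f 0))) →
    ∀ (Bl : ℕ → IntermediateField ℚ ℂ), (∀ m, IsLayer l m (Bl m)) → Monotone Bl →
    ∃ (J : Type) (_ : Finite J) (r : ℕ) (e0 : J → OO A B → ℂ) (kp : J → ι → ℂ), ¬ p ∣ r ∧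
      (∀ j, e0 j 1 = 1 ∧ e0 j (-1) = 1 ∧ (∀ x y, e0 j (x * y) = e0 j x * e0 j y) ∧
        (∀ x y, x - y ∈ idl (A := A) (B := B) (lvX p f 0) → e0 j x = e0 j y) ∧
        (∀ x, e0 j x ≠ 0 ↔ IsCoprime x ((lvX p f 0 : ℕ) : OO A B)) ∧
        (∀ x, e0 j x ≠ 0 → e0 j x ^ r = 1) ∧ (∀ z, IsUnit z → e0 j z = 1) ∧
        (∀ i, kp j i ^ r = 1)) ∧
      ∀ (m : ℕ) (hm : kk A B ≤ K ⊔ Bl (m + 1)), letI := algC hm
      ∀ (X : (↥(K ⊔ Bl (m + 1)) ≃ₐ[kk A B] ↥(K ⊔ Bl (m + 1))) →* ℂˣ) (t : ℕ), ¬ p ∣ t →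
      (∀ τ, X τ ^ t = 1) →
      (∃ g : ↥(K ⊔ Bl (m + 1)) ≃ₐ[kk A B] ↥(K ⊔ Bl (m + 1)),
        (∀ x : ↥(K ⊔ Bl (m + 1)), (x : ℂ) ∈ K ⊔ Bl m → g x = x) ∧ X g ≠ 1) →
      ∃ (j : J) (ψ : DirichletCharacter ℂ (l ^ (m + 1 + h))), ψ (-1) = 1 ∧
        ψ (1 + (l : ZMod (l ^ (m + 1 + h))) ^ (m + 1 + h - 1)) ≠ 1 ∧
        ∀ (τ : ↥(K ⊔ Bl (m + 1)) ≃ₐ[kk A B] ↥(K ⊔ Bl (m + 1))) (i : ι) (x : OO A B),
          IsCoprime x ((lvX p (f * l ^ (m + 1 + h)) 0 : ℕ) : OO A B) →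
          AR_E hm (idl (lvX p (f * l ^ (m + 1 + h)) 0)) τ (sp x * cjI (R.b i)) →
          (((X τ)⁻¹ : ℂˣ) : ℂ) =
            kp j i * ψ ((nI (R.b i) : ℕ) : ZMod (l ^ (m + 1 + h))) *
              (e0 j x * ψ ((nm x : ℤ) : ZMod (l ^ (m + 1 + h))))

end

end Pool.Agent.OE


end

section

/-!
# OE, block T (helper96): library, after helper4's `ME/T_TYF4.lean`, `ME2/T_TYF3.lean`
-/

set_option autoImplicit false

namespace Pool.Agent.OETB

open _root_.MU3 Pool.Agent.MU3A Pool.Agent.MU3B Pool.Agent.RI Pool.Agent.MUX Pool.Agent.MUXU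
open OnePoint Pool.Agent.NS Pool.Agent.ME2 Pool.Agent.OB
open Pool.Agent.ME hiding ActE
open Pool.Agent.MUXV (GR InK)
open Pool.Agent.NSE (su ru)
open Pool.Agent.MUXY (ActN Dn)
open Pool.Agent.NST (KIn nt_GLC)
open Pool.Agent.NST.TYF (dn_mono idl_ne_bot)

noncomputable section

variable {A B : ℤ} {L : PeriodPair} {om : ℂ} {b : Ideal (OO A B)} {V : ValuationSubring ℂ}

/-- points killed by `n` are killed by the ideal `(n)` -/
lemma tor_of_mul (hC : CQ A B) (hL : IsLI b L om) {n : ℕ} {z : ℂ}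
    (hz : (n : ℂ) * z ∈ L.lattice) : Tor (idl (A := A) (B := B) n) L z := by
  intro x hx
  obtain ⟨y, rfl⟩ := Ideal.mem_span_singleton'.1 hx
  rw [MUX.emb_mul hC, MUX.emb_natCast hC, mul_assoc]
  exact hL.hasCM hC y _ hz

lemma wp_mem (hC : CQ A B) (hL : IsNE b L om) {n : ℕ} {z : ℂ} (hz : z ∉ L.lattice)
    (hz' : (n : ℂ) * z ∈ L.lattice) :
    L.weierstrassP z ∈ RFE (idl (A := A) (B := B) n) :=
  IntermediateField.subset_adjoin _ _
    ⟨b, L, om, hL, Or.inr ⟨z, tor_of_mul hC hL.toIsLI hz', hz, rfl⟩⟩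

lemma alg_RFE (hC : CQ A B) (T : TorXE A B) {n : ℕ} (hn : n ≠ 0) {y : ℂ}
    (hy : y ∈ RFE (idl (A := A) (B := B) n)) : IsAlgebraic ℚ y := by
  have hkk := Pool.Agent.MUXC.FGL.isAlgebraic_kk hC
  have hfd := T.fin _ (idl_ne_bot hC hn)
  have h1 : IsAlgebraic (kk A B) (⟨y, hy⟩ : RFE (idl (A := A) (B := B) n)) :=
    Algebra.IsAlgebraic.isAlgebraic _
  have h2 : IsAlgebraic (kk A B) y := h1.algebraMap (A := ℂ)
  exact h2.restrictScalars ℚ

/-- `u²`, `e`, `lam` are in `RFE (2)` -/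
theorem ueE (hC : CQ A B) (hL : IsNE b L om) {u e lam : ℂ} (hG : GoodL V L u e lam) :
    u ^ 2 ∈ RFE (idl (A := A) (B := B) 2) ∧ e ∈ RFE (idl (A := A) (B := B) 2) := by
  have hu0 := hG.u0
  have hu2' : u ^ 2 ≠ 0 := pow_ne_zero _ hu0
  obtain ⟨e1, -, -, -, -, ⟨w₁, hw1, hw1', he⟩, -⟩ :=
    Pool.Agent.NSR.tr_LGF L u e lam ⟨hG.u0, hG.eq⟩
  obtain ⟨w₂, hw2, hew⟩ := b_SUR L (e + u ^ 2)
  have hw2' : 2 * w₂ ∈ L.lattice := by
    apply (b_ZER L w₂ hw2).1
    have h1 := hG.eq w₂ hw2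
    have h4 : (L.weierstrassP w₂ - e) / u ^ 2 = 1 := by
      rw [hew, add_sub_cancel_left, div_self hu2']
    rw [h4, sub_self, mul_zero, zero_mul] at h1
    have h5 := (pow_eq_zero_iff two_ne_zero).1 h1
    rcases div_eq_zero_iff.1 h5 with h6 | h6
    · exact h6
    · exact absurd h6 (mul_ne_zero two_ne_zero (pow_ne_zero _ hu0))
  have hu : L.weierstrassP w₂ - L.weierstrassP w₁ = u ^ 2 := by
    rw [hew, he]
    ring
  have m1 := wp_mem (n := 2) hC hL hw1 (by push_cast; exact hw1')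
  have m2 := wp_mem (n := 2) hC hL hw2 (by push_cast; exact hw2')
  refine ⟨?_, ?_⟩
  · rw [← hu]; exact sub_mem m2 m1
  · rw [← he]; exact m1

/-- the coordinates of torsion points are algebraic -/
theorem coordE (hC : CQ A B) (T : TorXE A B) (hL : IsNE b L om) {u e : ℂ}
    (hua : IsAlgebraic ℚ (u ^ 2)) (hea : IsAlgebraic ℚ e) :
    ∀ N : ℕ, N ≠ 0 → ∀ z, z ∉ L.lattice → (N : ℂ) * z ∈ L.lattice →
      IsAlgebraic ℚ (xu L u e z) ∧ IsAlgebraic ℚ (yu L u z) ∧ IsAlgebraic ℚ (ru L u e z) := by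
  intro N hN z hz hz'
  have hu1 : IsAlgebraic ℚ u := IsAlgebraic.of_pow two_pos hua
  have hP : IsAlgebraic ℚ (L.weierstrassP z) := alg_RFE hC T hN (wp_mem hC hL hz hz')
  have h4 : IsAlgebraic ℚ (4 : ℂ) := by simpa using NST.ALT.alg_num 4
  have h0 : IsAlgebraic ℚ (0 : ℂ) := isAlgebraic_zero
  have hg2 : IsAlgebraic ℚ L.g₂ := by
    rw [hL.nrm.g2]
    unfold g2E
    split_ifs
    · exact h4
    · exact h0
  have hg3 : IsAlgebraic ℚ L.g₃ := by
    rw [hL.nrm.g3]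
    unfold g3E
    split_ifs
    · exact h0
    · exact h4.neg
  have hD : IsAlgebraic ℚ (L.derivWeierstrassP z) := by
    apply IsAlgebraic.of_pow two_pos
    rw [L.derivWeierstrassP_sq z hz]
    exact ((h4.mul (hP.pow 3)).sub (hg2.mul hP)).sub hg3
  have hx : IsAlgebraic ℚ (xu L u e z) := by
    unfold xu
    rw [div_eq_mul_inv]
    exact (hP.sub hea).mul hua.inv
  have hy : IsAlgebraic ℚ (yu L u z) := by
    unfold yu
    rw [div_eq_mul_inv]
    have h2 : IsAlgebraic ℚ (2 : ℂ) := by simpa using NST.ALT.alg_num 2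
    exact hD.mul (h2.mul (hu1.pow 3)).inv
  refine ⟨hx, hy, ?_⟩
  unfold ru
  rw [div_eq_mul_inv]
  exact hy.neg.mul (hx.pow 2).inv

/-! ### The action of an automorphism -/

/-- conjugation of the coordinates -/
theorem tcj {m : ℕ} {a : Ideal (OO A B)} {σ : ℂ ≃+* ℂ} {c : OO A B} {d : ℤ}
    (hd : d = 1 ∨ d = -1) (hA : ActN σ m a L L (d * emb c)) {u e : ℂ}
    (hu : σ u = d * u) (he : σ e = e) {z : ℂ} (hmz : (m : ℂ) * z ∈ L.lattice)
    (hz : z ∉ L.lattice) :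
    emb c * z ∉ L.lattice ∧ σ (xu L u e z) = xu L u e (emb c * z) ∧
      σ (yu L u z) = yu L u (emb c * z) ∧ σ (ru L u e z) = ru L u e (emb c * z) := by
  obtain ⟨h1, h2, h3⟩ := hA.act z hmz hz
  have key : emb c * z ∉ L.lattice ∧ L.weierstrassP (emb c * z) = σ (L.weierstrassP z) ∧
      L.derivWeierstrassP (emb c * z) = d * σ (L.derivWeierstrassP z) := by
    rcases hd with hd | hd
    · rw [hd] at h1 h2 h3 ⊢
      rw [Int.cast_one, one_mul] at h1 h2 h3
      refine ⟨h1, h2, ?_⟩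
      rw [h3, Int.cast_one, one_mul]
    · rw [hd] at h1 h2 h3 ⊢
      have e1 : (((-1 : ℤ) : ℂ) * emb c) * z = -(emb c * z) := by push_cast; ring
      rw [e1] at h1 h2 h3
      rw [L.weierstrassP_neg] at h2
      rw [L.derivWeierstrassP_neg] at h3
      refine ⟨fun h => h1 (neg_mem h), h2, ?_⟩
      rw [← h3]
      push_cast
      ring
  obtain ⟨k1, k2, k3⟩ := key
  have hdd : ((d : ℤ) : ℂ) ^ 2 = 1 := by
    rcases hd with hd | hd <;> rw [hd] <;> norm_num
  have hd0 : ((d : ℤ) : ℂ) ≠ 0 := by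
    intro h
    rw [h] at hdd
    norm_num at hdd
  have hx : σ (xu L u e z) = xu L u e (emb c * z) := by
    unfold xu
    rw [k2, map_div₀, map_sub, map_pow, hu, he, mul_pow, hdd, one_mul]
  have hy : σ (yu L u z) = yu L u (emb c * z) := by
    unfold yu
    rw [k3, map_div₀, map_mul, map_pow, hu, map_ofNat]
    have e2 : 2 * ((d : ℂ) * u) ^ 3 = (d : ℂ) ^ 2 * (d * (2 * u ^ 3)) := by ring
    have e3 : (d : ℂ) * σ (L.derivWeierstrassP z) / (2 * u ^ 3) =
        (d : ℂ) ^ 2 * σ (L.derivWeierstrassP z) / (d * (2 * u ^ 3)) := by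
      field_simp
    rw [e2, e3, hdd, one_mul, one_mul]
  refine ⟨k1, hx, hy, ?_⟩
  unfold ru
  rw [map_div₀, map_neg, map_pow, hx, hy]

/-- the sign `d` -/
theorem sgu (hC : CQ A B) (hv2 : V.valuation (2 : ℂ) = 1)
    (hL : IsLI (⊤ : Ideal (OO A B)) L om) {u e lam : ℂ} (hGd : GoodL V L u e lam) {m m' : ℕ}
    (hm3' : 3 ≤ m') (hvm : V.valuation (m' : ℂ) = 1) (hmm : m' ∣ m) {a : Ideal (OO A B)} {σ : ℂ ≃+* ℂ}
    {c : OO A B} {d : ℤ} (hcm : c - 1 ∈ idl (A := A) (B := B) m') (hd : d = 1 ∨ d = -1)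
    (hAct : ActN σ m a L L (d * emb c)) (hσu : σ (u ^ 2) = u ^ 2)
    (hlast : V.valuation (yu L u (om / m')) ≤ 1 →
      V.valuation (σ (yu L u (om / m')) - yu L u (om / m')) < 1) : σ u = d * u := by
  have hmem : ∀ z : ℂ, z ∈ L.lattice ↔ ∃ x : OO A B, z = om * emb x := by
    intro z
    rw [hL.mem]
    exact ⟨fun ⟨x, _, hx⟩ => ⟨x, hx⟩, fun ⟨x, hx⟩ => ⟨x, trivial, hx⟩⟩
  have hm0 : m' ≠ 0 := by omega
  have hom0 : om ≠ 0 := hL.om_ne
  have hmC : (m' : ℂ) ≠ 0 := Nat.cast_ne_zero.2 hm0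
  obtain ⟨ξ, G⟩ := Pool.Agent.OBT.SGU.grl V L u e lam hv2 hGd
  have hT2 : ∀ z : ℂ, (m' : ℂ) * z ∈ L.lattice → InK V L (xu L u e) z → z ∈ L.lattice :=
    fun z hz hK => Pool.Agent.MUXV.mem_of_nat_mul G hK hvm hz
  set z : ℂ := om / m' with hz
  have hmz : (m' : ℂ) * z = om := by rw [hz]; field_simp
  have homL : om ∈ L.lattice := (hmem om).2 ⟨1, by rw [Pool.Agent.MUX.emb_one hC, mul_one]⟩
  have hzz : z + z ∉ L.lattice := by
    intro h
    obtain ⟨x, hx⟩ := (hmem _).1 h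
    have h1 : (m' : ℂ) * emb x = 2 := by
      have h2 : om * ((m' : ℂ) * emb x) = om * 2 := by
        linear_combination (-(m' : ℂ)) * hx + 2 * hmz
      exact mul_left_cancel₀ hom0 h2
    have h2 : ((m' : ℕ) : OO A B) * x = ((2 : ℕ) : OO A B) := by
      apply Pool.Agent.MUX.emb_inj hC
      rw [Pool.Agent.MUX.emb_mul hC, Pool.Agent.MUX.emb_natCast hC,
        Pool.Agent.MUX.emb_natCast hC, h1]
      norm_num
    have h4 := congrArg nm h2
    rw [Pool.Agent.MUX.nm_mul hC] at h4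
    have h5 := Pool.Agent.MUX.nm_intCast (A := A) (B := B) (m' : ℤ)
    have h6 := Pool.Agent.MUX.nm_intCast (A := A) (B := B) (2 : ℤ)
    rw [Int.cast_natCast] at h5
    have h7 : ((2 : ℤ) : OO A B) = ((2 : ℕ) : OO A B) := by push_cast; rfl
    rw [h7] at h6
    rw [h5, h6] at h4
    have h8 : ((m' : ℤ) ^ 2) ∣ 2 ^ 2 := ⟨_, h4.symm⟩
    have h9 := Int.le_of_dvd (by norm_num) h8
    have h10 : (3 : ℤ) ≤ m' := by exact_mod_cast hm3'
    nlinarith
  have hzL : z ∉ L.lattice := fun h => hzz (add_mem h h)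
  have hzK : ¬ InK V L (xu L u e) z := fun h => hzL (hT2 z (by rw [hmz]; exact homL) h)
  have hzzK : ¬ InK V L (xu L u e) (z + z) := fun h => hzz (hT2 (z + z) (by
    rw [mul_add, hmz]
    exact add_mem homL homL) h)
  -- `v (yu z) = 1`
  have hy1 : V.valuation (yu L u z) = 1 := by
    obtain ⟨hns, hxi⟩ := G.some z hzL
    have e1 := (Pool.Agent.MUXV.inE_iff G z).not.2 hzK
    have e2 := (Pool.Agent.MUXV.inE_iff G (z + z)).not.2 hzzK
    rw [map_add, hxi] at e2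
    rw [hxi] at e1
    exact Pool.Agent.MU3.Val.v_y_unit G.int G.two G.disc hns e1 e2
  -- the action
  have hmzL : (m : ℂ) * z ∈ L.lattice := by
    obtain ⟨k, rfl⟩ := hmm
    have h1 : ((m' * k : ℕ) : ℂ) * z = (k : ℕ) * om := by
      rw [← hmz]; push_cast; ring
    rw [h1, ← nsmul_eq_mul]
    exact nsmul_mem homL _
  obtain ⟨-, -, hP'⟩ := hAct.act z hmzL hzL
  have hcz : emb c * z - z ∈ L.lattice := by
    obtain ⟨y, hy⟩ := Ideal.mem_span_singleton'.1 hcm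
    refine (hmem _).2 ⟨y, ?_⟩
    have h1 : emb c - 1 = emb y * m' := by
      have h2 := congrArg emb hy
      rw [Pool.Agent.MUX.emb_mul hC, Pool.Agent.MUX.emb_natCast hC, Pool.Agent.MUX.emb_sub hC,
        Pool.Agent.MUX.emb_one hC] at h2
      exact h2.symm
    have h2 : emb c * z - z = (emb c - 1) * z := by ring
    rw [h2, h1, mul_assoc, hmz, mul_comm]
  have hder : σ (L.derivWeierstrassP z) = d * L.derivWeierstrassP z := by
    rw [← hP']
    rcases hd with hd | hd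
    · rw [hd]
      push_cast
      rw [one_mul, one_mul]
      exact Pool.Agent.OBT.SGU.der_congr L hcz
    · rw [hd]
      push_cast
      have h1 : -1 * emb c * z = -(emb c * z) := by ring
      rw [h1, L.derivWeierstrassP_neg, Pool.Agent.OBT.SGU.der_congr L hcz]
      ring
  have hu0 := hGd.u0
  have hd2 : (d : ℂ) * d = 1 := by
    rcases hd with hd | hd <;> rw [hd] <;> norm_num
  have hs : σ u = d * u ∨ σ u = -(d * u) := by
    have h1 : (σ u) ^ 2 = (d * u) ^ 2 := by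
      rw [← map_pow, hσu]
      linear_combination (-(u ^ 2)) * hd2
    exact sq_eq_sq_iff_eq_or_eq_neg.1 h1
  rcases hs with hs | hs
  · exact hs
  · exfalso
    have hσy : σ (yu L u z) = -yu L u z := by
      unfold yu
      rw [map_div₀, map_mul, map_pow, hs, hder, map_ofNat]
      have hd0 : (d : ℂ) ≠ 0 := fun h0 => by
        rw [h0, zero_mul] at hd2
        exact zero_ne_one hd2
      rw [div_eq_iff (by
        refine mul_ne_zero two_ne_zero (pow_ne_zero _ ?_)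
        exact neg_ne_zero.2 (mul_ne_zero hd0 hu0))]
      have h5 : (d : ℂ) ^ 3 = d := by linear_combination (d : ℂ) * hd2
      have h6 : (2 : ℂ) * (-(d * u)) ^ 3 = -(d * (2 * u ^ 3)) := by
        linear_combination (-2 * u ^ 3) * h5
      rw [h6]
      field_simp
    have h1 := hlast hy1.le
    rw [hσy] at h1
    have h2 : -yu L u z - yu L u z = -(2 * yu L u z) := by ring
    rw [h2, Valuation.map_neg, map_mul, hy1, G.two, one_mul] at h1
    exact lt_irrefl _ h1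

/-- the action of an automorphism which is trivial on `RFE g`, `g` an even ideal -/
theorem actG (h : CaseE A B) (T : TorXE A B) {m : ℕ} (hm : m ≠ 0) {g : Ideal (OO A B)}
    (hmg : idl (A := A) (B := B) m ≤ g) (hg2 : g ≤ idl (A := A) (B := B) 2) {σ : ℂ ≃+* ℂ}
    (hσ : FixK A B σ) (hfix : ∀ y ∈ RFE g, σ y = y) :
    ∃ (c0 c : OO A B) (d : ℤ), (d = 1 ∨ d = -1) ∧ c0 = (d : OO A B) * c ∧ c - 1 ∈ g ∧
      IsCoprime (sp c0) (idl (A := A) (B := B) m) ∧
      (∀ (b : Ideal (OO A B)) (L : PeriodPair) (om : ℂ), IsNE b L om →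
        ActN σ m (sp c0) L L (emb c0)) ∧
      ∀ z : ℂ, z ^ m = 1 → σ z = z ^ nI (sp c0) := by
  have hC := h.toCQ
  have hI : idl (A := A) (B := B) m ≠ ⊥ := by
    rw [Ne, Ideal.span_singleton_eq_bot]
    exact natCast_ne_zero' hC hm
  have htop : (⊤ : Ideal (OO A B)) ≠ ⊥ := by
    intro h0
    have h3 : (1 : OO A B) ∈ (⊥ : Ideal (OO A B)) := h0 ▸ trivial
    rw [Ideal.mem_bot] at h3
    have h4 : (1 : ℤ) = 0 := congrArg QuadraticAlgebra.re h3
    exact one_ne_zero h4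
  obtain ⟨L₀, om₀, hL₀⟩ := MEC.exists_isNE h (⊤ : Ideal (OO A B)) htop
  obtain ⟨a, hcop, ha⟩ := T.act (idl m) hI σ hσ
  obtain ⟨b', L', om', mu, hL', hA⟩ := ha _ _ _ hL₀
  obtain ⟨c, hmu, hac, hc1⟩ := T.two (idl m) a σ _ L₀ L' om₀ mu hI (hmg.trans hg2) hσ hL₀ hA
    hL'.nrm
  obtain ⟨hlat, -, hpt⟩ := MEC.c_SGQ A B L₀ L' hL₀.nrm hL'.nrm
  subst hac
  subst hmu
  have hN : ActN σ m (sp c) L₀ L₀ (emb c) := by
    refine ⟨cj_self hL₀.nrm σ, hcop, hA.isq.1, fun z => ?_, fun z hz hz0 => ?_⟩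
    · rw [hlat]
      exact hA.isq.2 z
    · have hT : Tor (idl (A := A) (B := B) m) L₀ z := by
        intro x hx
        obtain ⟨y, rfl⟩ := Ideal.mem_span_singleton'.1 hx
        rw [MUX.emb_mul hC, MUX.emb_natCast hC, mul_assoc]
        exact hL₀.toIsLI.hasCM hC y _ hz
      rcases hA.act z hT with h3 | h3
      · exact absurd h3.1 hz0
      · refine ⟨fun h4 => h3.2.1 ((hlat _).1 h4), ?_, ?_⟩
        · have h5 := h3.2.2.1
          rw [← (hpt _).1] at h5
          exact h5.symm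
        · have h5 := h3.2.2.2
          rw [← (hpt _).2] at h5
          unfold yy at h5
          rw [map_div₀, map_ofNat] at h5
          linear_combination -2 * h5
  -- the ideal `g`
  have hgb : g ≠ ⊥ := by
    rintro rfl
    exact hI (le_bot_iff.1 hmg)
  have hA' : Pool.Agent.ME.ActE σ g (sp c) L₀ L' (emb c) := by
    refine ⟨hA.kapE, ?_, hA.isq, fun z hz => hA.act z fun x hx => hz x (hmg hx)⟩
    rw [Ideal.isCoprime_iff_sup_eq] at hcop ⊢
    rw [eq_top_iff, ← hcop]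
    exact sup_le_sup_left hmg _
  obtain ⟨c1, hc1g, hcc⟩ := (T.triv g (sp c) σ _ _ _ _ (emb c) hgb (Or.inl hg2) hσ hL₀ hA'
    hL'.nrm).1 hfix
  have hded := (Pool.Agent.MUXE.te_RNG A B hC).ded
  have : IsDomain (OO A B) := hded.toIsDomain
  obtain ⟨v, hv⟩ := Ideal.span_singleton_eq_span_singleton.1 hcc
  have hv2 : (v : OO A B) - 1 ∈ idl (A := A) (B := B) 2 := by
    have h3 : (v : OO A B) - 1 = (c1 - 1) - (c - 1) * (v : OO A B) := by
      rw [← hv]
      ring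
    rw [h3]
    exact sub_mem (hg2 hc1g) (Ideal.mul_mem_right _ _ hc1)
  refine ⟨c, c1, if (v : OO A B) = 1 then 1 else -1, ?_, ?_, hc1g, hcop,
    fun b L om hL => actN_congr hL₀.nrm hL.nrm hN, fun z hz => ?_⟩
  · split_ifs
    · exact Or.inl rfl
    · exact Or.inr rfl
  · split_ifs with h5
    · rw [← hv, h5]
      simp
    · rcases unit_two h v.isUnit hv2 with h6 | h6
      · exact absurd h6 h5
      · rw [← hv, h6]
        simp
  exact (T.zeta m (idl m) (sp c) σ _ _ _ _ (emb c) hI hσ hm le_rfl hL₀ hA z hz).2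

end

end Pool.Agent.OETB


end

section

/-!
# OE, block HQ (helper51): RAM VAL CHR QBO DEP PJ1 for the exceptional fields, `p ≥ 5`

After `OB/HB_RAM.lean`, `HB_VAL.lean`, `HB_CHR.lean`, `HB_QBO.lean`, `HB_DEP.lean`, `HB_PJ1.lean` (helper2, helper77, helper65, helper70, helper66, helper34).
-/

set_option autoImplicit false

namespace Pool.Agent.OEHQ

open _root_.MU3 _root_.Pool.Agent.MU3A _root_.Pool.Agent.MU3B _root_.Pool.Agent.MU3F _root_.Pool.Agent.MUX
  _root_.Pool.Agent.MUXH _root_.Pool.Agent.MUXHY _root_.Pool.Agent.MuSym _root_.Pool.Agent.OB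
  _root_.Pool.Agent.OBH _root_.Pool.Agent.OE OnePoint
open _root_.Pool.Agent.ME (CaseE TorXE RepsE IsNE IsEIE PhiKE)
open _root_.Pool.Agent.MUXF (qb)

noncomputable section

theorem oe_RAM : Sq_RAM := by
  intro p A B P V h
  have hq := h.toCQ
  have pp := h.pp
  have p5 := h.p5
  have hPt : P ≠ ⊤ := h.prime.ne_top
  have hle : idl (A := A) (B := B) p ≤ P := (Ideal.span_singleton_le_iff_mem _).2 h.mem
  refine ⟨?_, ?_⟩
  · have h1 := OBH.RAM.card_dvd hle
    rw [OBH.RAM.nI_idl hq pp.ne_zero, Nat.dvd_prime_pow pp] at h1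
    obtain ⟨k, hk, hk'⟩ := h1
    have h2 := OBH.RAM.nI_ne_one hPt
    interval_cases k
    · exact absurd (by simpa using hk') h2
    · exact Or.inl (by simpa using hk')
    · exact Or.inr hk'
  · intro hd
    have hA := h.hA
    have h5 : (5 : ℤ) ≤ p := by exact_mod_cast p5
    have h1 := Int.le_of_dvd (by
      have := hq.neg
      unfold absD
      omega) hd
    unfold absD at h1
    rw [hA] at h1
    rcases hq.hB with hB | hB <;> rw [hB] at h1 <;> omega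

theorem oe_VAL : Sq_VAL := by
  intro p A B P V f H
  have hp := H.pp
  have hp5 := H.p5
  have hpZ : Prime (p : ℤ) := Nat.prime_iff_prime_int.1 hp
  have hf0 := H.f0
  have h3 : V.valuation (p : ℂ) < 1 := by
    have h1 : emb ((p : ℕ) : OO A B) ∈ V.nonunits := (H.hV _).2 H.mem
    have h2 : emb ((p : ℕ) : OO A B) = (p : ℂ) := by
      unfold emb
      rw [QuadraticAlgebra.re_natCast, QuadraticAlgebra.im_natCast]
      push_cast
      ring
    rw [h2, ValuationSubring.mem_nonunits_iff] at h1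
    exact h1
  have hle : ∀ z : ℤ, V.valuation (z : ℂ) ≤ 1 := fun z =>
    (V.valuation_le_one_iff _).2 (intCast_mem V z)
  have hD0 : 0 < absD A B := by
    have := H.neg
    unfold absD
    omega
  have h3f : ((p * f : ℕ) : OO A B) ∈ idl (A := A) (B := B) (p * f) :=
    Ideal.mem_span_singleton_self _
  have hDn : (((absD A B).toNat : ℕ) : ℤ) = absD A B := Int.toNat_of_nonneg hD0.le
  obtain ⟨-, hpD⟩ := oe_RAM p A B P V H.toCaseOE
  have hN0 : N0O p 1 A B f = (absD A B).toNat * f ^ 2 := by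
    unfold N0O
    simp
  rw [hN0]
  refine ⟨h3, hle, ?_, ?_, hD0, ?_, ?_, ?_, h3f, ?_, ?_, ?_, ?_, ?_⟩
  · intro n hn
    have hc : IsCoprime n (p : ℤ) := by
      rw [isCoprime_comm]
      exact (hpZ.coprime_iff_not_dvd).2 hn
    obtain ⟨a, b, hab⟩ := hc
    by_contra hne
    have hlt : V.valuation (n : ℂ) < 1 := lt_of_le_of_ne (hle n) hne
    have h1 : V.valuation ((a : ℂ) * n + b * (p : ℂ)) < 1 := by
      refine lt_of_le_of_lt (V.valuation.map_add _ _) (max_lt ?_ ?_)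
      · rw [map_mul]
        exact mul_lt_one_of_nonneg_of_lt_one_right (hle a) zero_le hlt
      · rw [map_mul]
        exact mul_lt_one_of_nonneg_of_lt_one_right (hle b) zero_le h3
    have h2 : (a : ℂ) * n + b * (p : ℂ) = 1 := by exact_mod_cast hab
    rw [h2, map_one] at h1
    exact lt_irrefl _ h1
  · intro r z hr hz
    have h1 : V.valuation z ^ r = 1 := by rw [← map_pow, hz, map_one]
    exact (pow_eq_one_iff_of_nonneg zero_le hr).1 h1
  · rw [Ideal.span_singleton_le_iff_mem, Ideal.mem_span_singleton]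
    obtain ⟨t, ht⟩ := H.fD
    refine ⟨((2 * t : ℤ) : OO A B), ?_⟩
    have h1 : ((p * f : ℕ) : OO A B) = ((((p * f : ℕ) : ℤ) : ℤ) : OO A B) := by push_cast; rfl
    rw [h1, ht]
    push_cast
    ring
  · intro h
    rw [h, Ideal.mem_bot] at h3f
    have h1 := congrArg QuadraticAlgebra.re h3f
    simp only [QuadraticAlgebra.re_natCast, QuadraticAlgebra.re_zero] at h1
    have h2 : (p * f : ℕ) = 0 := by exact_mod_cast h1
    rcases Nat.mul_eq_zero.1 h2 with h | h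
    · exact hp.ne_zero h
    · exact hf0 h
  · intro h
    rw [Ideal.eq_top_iff_one, Ideal.mem_span_singleton] at h
    obtain ⟨y, hy⟩ := h
    have h1 := congrArg QuadraticAlgebra.re hy
    rw [QuadraticAlgebra.re_one, QuadraticAlgebra.re_mul, QuadraticAlgebra.re_natCast,
      QuadraticAlgebra.im_natCast, mul_zero, zero_mul, add_zero] at h1
    have h9 : ((p * f : ℕ) : ℤ) ∣ 1 := ⟨y.re, h1⟩
    have h10 : (p * f : ℕ) ∣ 1 := by exact_mod_cast h9
    have h11 := Nat.dvd_one.1 h10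
    have h12 : p ∣ 1 := ⟨f, h11.symm⟩
    have h13 := Nat.le_of_dvd one_pos h12
    omega
  · push_cast
    rw [hDn]
    ring
  · have h1 : (absD A B).toNat ≠ 0 := by omega
    exact Nat.mul_ne_zero h1 (pow_ne_zero _ hf0)
  · rw [Nat.Prime.coprime_iff_not_dvd hp]
    intro h
    rcases (Nat.Prime.dvd_mul hp).1 h with h | h
    · apply hpD
      rw [← hDn]
      exact_mod_cast h
    · exact H.fp (hp.dvd_of_dvd_pow h)
  · refine ⟨(p : ℤ) * (f : ℤ) ^ 2, ?_⟩
    push_cast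
    rw [hDn]
    ring
  · refine ⟨absD A B * (f : ℤ), ?_⟩
    push_cast
    rw [hDn]
    ring

theorem oe_CHR : Sq_CHR := by
  intro p A B P V f H e he r hr0 hr
  obtain ⟨-, vZ, -, vru, hDpos, hgD, hg0, -, hpf, -, -, -, hDN, hfN⟩ := oe_VAL p A B P V f H
  have hcq : CQ A B := H.toCQ
  have ev : ∀ x, V.valuation (e x) ≤ 1 := by
    intro x
    by_cases hx : e x = 0
    · rw [hx, map_zero]
      exact zero_le_one
    · exact (vru r (e x) hr0 (hr x hx)).le
  have hcopD : ∀ d : ℤ, e (d : OO A B) ≠ 0 → IsCoprime d (absD A B) := by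
    intro d hd
    have h5 := (he.supp _).1 hd
    apply Chr.coprime_int (A := A) (B := B)
    rw [← Ideal.isCoprime_span_singleton_iff]
    rw [Ideal.isCoprime_iff_sup_eq] at h5 ⊢
    exact top_le_iff.1 (h5 ▸ sup_le_sup_left hgD _)
  refine ⟨?_, ?_, ?_, ?_⟩
  · unfold nuX
    have : ((1 : ℤ) : OO A B) = 1 := by push_cast; rfl
    rw [Chr.chiX_one, this, he.one]
    norm_num
  · intro d d'
    unfold nuX
    have : ((d * d' : ℤ) : OO A B) = (d : OO A B) * (d' : OO A B) := by push_cast; rfl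
    rw [Chr.chiX_mul, this, he.mul]
    push_cast
    ring
  · intro d d' hd
    have hD : absD A B ∣ d - d' := hDN.trans hd
    obtain ⟨t, ht⟩ := hfN.trans hd
    unfold nuX
    by_cases hcop : IsCoprime d (absD A B)
    · have h5 : chiX A B d' = chiX A B d :=
        ((MUXF.tx_CHI A B (toCQ hcq) d hcop).2.2 d' hD)
      have h6 : e (d : OO A B) = e (d' : OO A B) := by
        apply he.per
        have h7 : (d : OO A B) - (d' : OO A B) =
            ((t : ℤ) : OO A B) * ((p * f : ℕ) : OO A B) := by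
          have h8 : (d : OO A B) - (d' : OO A B) = ((d - d' : ℤ) : OO A B) := by push_cast; rfl
          rw [h8, ht]
          push_cast
          ring
        rw [h7]
        exact Ideal.mul_mem_left _ _ hpf
      rw [h5, h6]
    · have h5 : e (d : OO A B) = 0 := by
        by_contra hne
        exact hcop (hcopD d hne)
      have h6 : e (d' : OO A B) = 0 := by
        by_contra hne
        apply hcop
        obtain ⟨s, hs⟩ := hD
        have h7 : d = d' + absD A B * s := by linarith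
        rw [h7]
        exact (IsCoprime.add_mul_left_left_iff).2 (hcopD d' hne)
      rw [h5, h6, mul_zero, mul_zero]
  · intro d
    unfold nuX
    rw [map_mul]
    exact mul_le_one' (vZ _) (ev _)

theorem oe_QBO : Sq_QBO := by
  intro p A B P V f hS e he b hb x hx hex
  have hp := hS.pp
  have hn : ¬ (p : ℤ) ∣ nm x := OBH.QBO.not_dvd hp he hex
  have hq : nm x = (nI b : ℤ) * qb b x := ((MUXF.xf_QB A B (toCQ hS.toCQ) b hb).1 x hx).1
  exact ⟨hn, fun h1 => hn (by rw [hq]; exact Dvd.dvd.mul_left h1 _)⟩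

theorem oe_DEP : Sq_DEP := by
  intro p A B P V f hS e he b hb x
  obtain ⟨-, -, -, -, -, -, hg, -, -, -, -, -, -, -⟩ := oe_VAL p A B P V f hS
  have hp0 : p ≠ 0 := hS.pp.ne_zero
  have hq := fun y hy h0 => (oe_QBO p A B P V f hS e he b hb y hy h0).2
  have hcq := toCQ hS.toCQ
  have hI := fun r : ℚ => MUXF.xf_ITG A B hcq b _ e hb hg (toEI he) r
  have e1 : ∀ j ∈ Finset.range p, PhiI b e ∞ (((x + j) / p : ℚ) : OnePoint ℚ) =
      2 * Real.pi * ∫ t in Set.Ioi (0 : ℝ), thetaI b e (((x / p : ℚ) : ℂ) + t * Complex.I +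
        (j : ℂ) / p) := by
    intro j _
    rw [Qsx.PhiI_inf]
    unfold IvI
    rw [neg_mul, neg_neg]
    congr 1
    refine MeasureTheory.integral_congr_ae (Filter.Eventually.of_forall fun t => ?_)
    show thetaI b e _ = thetaI b e _
    congr 1
    push_cast
    ring
  rw [Finset.sum_congr rfl e1, ← Finset.mul_sum, ← MeasureTheory.integral_finsetSum]
  · have e2 : ∫ t in Set.Ioi (0 : ℝ), ∑ j ∈ Finset.range p,
        thetaI b e (((x / p : ℚ) : ℂ) + t * Complex.I + (j : ℂ) / p) = 0 := by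
      rw [MeasureTheory.setIntegral_congr_fun (g := fun _ => (0 : ℂ)) measurableSet_Ioi]
      · simp
      · intro t ht
        refine DEP.theta_dep hp0 hS.toCQ hg he hb hq _ ?_
        have h1 : (((x / p : ℚ) : ℂ)).im = 0 := by
          rw [← Complex.ofReal_ratCast]
          exact Complex.ofReal_im _
        rw [Complex.add_im, h1, zero_add, Complex.mul_im]
        simpa using ht
    rw [e2, mul_zero]
  · intro j _
    have h1 := hI ((x + j) / p)
    refine h1.congr_fun ?_ measurableSet_Ioi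
    intro t _
    show thetaI b e _ = thetaI b e _
    congr 1
    push_cast
    ring

lemma sgn_PK {A B : ℤ} {n : ℕ} {ι : Type} [Fintype ι] (R : RepsE A B n ι) (e : OO A B → ℂ)
    (kk : ι → ℂ) (Z s : ℂ) (x y : OnePoint ℚ) :
    sgnPart s (fun x y => PhiKE R e kk x y / Z) x y =
      (∑ c, kk c * sgnPart s (PhiI (R.b c) e) x y) / Z := by
  unfold sgnPart PhiKE
  rw [← mul_div_assoc, ← add_div, Finset.mul_sum, ← Finset.sum_add_distrib]
  congr 1
  refine Finset.sum_congr rfl fun c _ => ?_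
  ring

theorem oe_PJ1 : Sq_PJ1 := by
  intro p A B P V f hS ι _ R e he kk Z s
  obtain ⟨-, -, hv1, hr, hD, hgD, hg, -, -, -, -, -, -, -⟩ := oe_VAL p A B P V f hS
  have hDp : ¬ (p : ℤ) ∣ absD A B := (oe_RAM p A B P V hS.toCaseOE).2
  obtain ⟨φ, hφ, hper, hφ2⟩ := MUXF.xf_PHX A B (toCQ hS.toCQ)
  have hqD : (((absD A B).toNat : ℕ) : ℤ) = absD A B := Int.toNat_of_nonneg hD.le
  have hq : (absD A B).toNat ≠ 0 := by omega
  have hv : V.valuation (((absD A B).toNat : ℕ) : ℂ) = 1 := by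
    have h5 : (((absD A B).toNat : ℕ) : ℂ) = ((absD A B : ℤ) : ℂ) := by
      rw [← Int.cast_natCast (R := ℂ) (absD A B).toNat, hqD]
    rw [h5]
    exact hv1 _ hDp
  refine ⟨(absD A B).toNat, fun t => (1 / ((absD A B).toNat : ℂ)) *
    ∑ n ∈ Finset.range (absD A B).toNat, φ n * ex (-(t * n) / (absD A B).toNat), hq,
    fun t => Prx.val_le V hr _ hq hv φ hφ t, fun x y => ?_⟩
  have key : ∀ c, ∑ t ∈ Finset.range (absD A B).toNat, ((1 / ((absD A B).toNat : ℂ)) *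
      ∑ n ∈ Finset.range (absD A B).toNat, φ n * ex (-(t * n) / (absD A B).toNat)) *
      sgnPart s (PhiI (R.b c) e) (mob (absD A B).toNat t 0 (absD A B).toNat x)
        (mob (absD A B).toNat t 0 (absD A B).toNat y) = PhiI (R.b c) e x y := by
    intro c
    exact MUXF.xf_PRJ A B (toCQ hS.toCQ) (R.b c) _ e (R.nl c).b_ne hg (toEI he) _ φ hq
      (fun n => by rw [hqD]; exact hper n)
      (hφ2 (R.b c) _ e (R.nl c).b_ne (toEI he) hgD) s x y
  simp only [sgn_PK]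
  simp only [← mul_div_assoc]
  rw [← Finset.sum_div]
  congr 1
  simp only [Finset.mul_sum (s := (Finset.univ : Finset ι))]
  rw [Finset.sum_comm]
  unfold PhiKE
  refine Finset.sum_congr rfl fun c _ => ?_
  rw [← key c, Finset.mul_sum]
  refine Finset.sum_congr rfl fun t _ => ?_
  ring

end

end Pool.Agent.OEHQ


end

section

/-!
# OE, block HQ (helper51): SAF, UAL for the exceptional fields, `p ≥ 5`

After `OB/HB_SAF.lean` (helper28) and `OB/HB_UAL.lean` (helper53).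
-/

set_option autoImplicit false

namespace Pool.Agent.OEHQ

open _root_.MU3 _root_.Pool.Agent.MU3A _root_.Pool.Agent.MU3B _root_.Pool.Agent.MU3F _root_.Pool.Agent.MUX
  _root_.Pool.Agent.MUXH _root_.Pool.Agent.MUXHY _root_.Pool.Agent.MuSym _root_.Pool.Agent.OB
  _root_.Pool.Agent.OBH _root_.Pool.Agent.OE OnePoint
open _root_.Pool.Agent.ME (CaseE TorXE RepsE IsNE IsEIE PhiKE g2E g3E NrmE)
open _root_.Pool.Agent.MUXF (qb)

noncomputable section

theorem oe_SAF : Sq_SAF := by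
  intro p A B P V f hS hT ι _ R e he r hr0 her kk hkk u hu hua
  obtain ⟨-, -, -, -, D0, -, gb, gt, hpf, hN, hNne, -, -, -⟩ := oe_VAL p A B P V f hS
  have hcq : CQ A B := hS.toCQ
  have hp0 : 0 < p := hS.pp.pos
  have hf0 : 0 < f := Nat.pos_of_ne_zero hS.f0
  have hcop : ∀ i, IsCoprime (MUX.sp ((MUX.nI (R.b i) : ℕ) : OO A B))
      (idl (A := A) (B := B) (p * f)) :=
    MUXY.y_COP_E A B (p * f) ι R _ 1 (by rw [pow_one]; exact hpf)
  refine ⟨?_, ?_, ?_⟩
  · have h1 : ∀ c, IsSym (p ^ (1 + 1) * N0O p 1 A B f) (nuX e) (PhiI (R.b c) e) := fun c =>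
      MUXT.sym_EI (toCQ hcq) (R.b c) (R.nl c).b_ne _ e (toEI he) (p * f) (Nat.mul_pos hp0 hf0)
        hpf _ (mul_ne_zero (pow_ne_zero _ hp0.ne') hNne) (by rw [hN])
    exact Sym.isSym_lin h1 kk (u * R.om R.i0)
  · intro x y
    have hka : ∀ c, IsAlgebraic ℚ (kk c) := fun c => by
      rcases hkk c with h0 | h1
      · rw [h0]
        exact isAlgebraic_zero
      · exact IsAlgebraic.of_pow (Nat.pos_of_ne_zero hr0) (by rw [h1]; exact isAlgebraic_one)
    have h1 := fun c =>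
      (MUXY.y_ALP_E A B hS.toCaseE hT (p * f) ι inferInstance R _ e gb gt he hcop r hr0 her c x y).2
    have e1 : PhiKE R e kk x y / (u * R.om R.i0) =
        (∑ c, kk c * (PhiI (R.b c) e x y / R.om R.i0)) * u⁻¹ := by
      unfold PhiKE
      rw [mul_comm u, ← div_div, Finset.sum_div, div_eq_mul_inv]
      congr 1
      refine Finset.sum_congr rfl fun c _ => ?_
      ring
    rw [e1]
    exact (OBH.SAF.sum_alg _ _ fun c _ => (hka c).mul (h1 c)).mul hua.inv
  · classical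
    have h1 := fun c => MUXT.fg_EI A B (toCQ hcq) (R.b c) _ e (R.nl c).b_ne gb (toEI he)
    choose S hS' using h1
    set Z : ℂ := u * R.om R.i0 with hZ
    refine ⟨Finset.univ.biUnion fun c => (S c).image fun t => kk c / Z * t, fun x y => ?_⟩
    have e1 : PhiKE R e kk x y / Z = ∑ c, kk c / Z * PhiI (R.b c) e x y := by
      unfold PhiKE
      rw [Finset.sum_div]
      refine Finset.sum_congr rfl fun c _ => ?_
      ring
    rw [e1]
    refine sum_mem fun c _ => ?_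
    have h2 := hS' c x y
    have h3 : AddMonoidHom.mulLeft (kk c / Z) (PhiI (R.b c) e x y) ∈
        (AddSubgroup.closure (S c : Set ℂ)).map (AddMonoidHom.mulLeft (kk c / Z)) :=
      AddSubgroup.mem_map_of_mem _ h2
    rw [AddMonoidHom.map_closure] at h3
    refine AddSubgroup.closure_mono ?_ h3
    rintro _ ⟨t, ht, rfl⟩
    simp only [Finset.coe_biUnion, Set.mem_iUnion]
    exact ⟨c, by simp, Finset.mem_coe.2 (Finset.mem_image.2 ⟨t, ht, rfl⟩)⟩

/-- the invariants of the normalised lattices are rational -/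
theorem nrm_alg {A B : ℤ} {L : PeriodPair} (h : NrmE A B L) :
    IsAlgebraic ℚ L.g₂ ∧ IsAlgebraic ℚ L.g₃ := by
  rw [h.g2, h.g3]
  unfold g2E g3E
  have h0 : IsAlgebraic ℚ (0 : ℂ) := isAlgebraic_zero
  have h4 : IsAlgebraic ℚ (4 : ℂ) := by
    have := isAlgebraic_algebraMap (R := ℚ) (A := ℂ) (4 : ℚ)
    simpa using this
  split_ifs
  · exact ⟨h4, h0⟩
  · exact ⟨h0, h4.neg⟩

theorem oe_UAL : Sq_UAL := by
  intro A B hc n ι R V u e lam h
  obtain ⟨h2, h3⟩ := nrm_alg (R.nl R.i0).nrm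
  have k1 : IsAlgebraic ℚ e := OBH.UAL.root_alg h2 h3 (by rw [OBH.UAL.cub h e]; ring)
  have k2 : IsAlgebraic ℚ (e + u ^ 2) :=
    OBH.UAL.root_alg h2 h3 (by rw [OBH.UAL.cub h (e + u ^ 2)]; ring)
  have k4 : IsAlgebraic ℚ (u ^ 2) := by
    have : u ^ 2 = (e + u ^ 2) - e := by ring
    rw [this]
    exact k2.sub k1
  exact IsAlgebraic.of_pow (by norm_num) k4

end

end Pool.Agent.OEHQ


end
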