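import Pool.Agent.MVF.C032
import Pool.Agent.MVF.C033
import Pool.Agent.MVF.C034
import Pool.Agent.MVF.C035
import Pool.Agent.MVF.C037
import Pool.Agent.MVF.C057
import Pool.Agent.MVF.C068
import Pool.Agent.MVF.C120
import Pool.Agent.MVF.C158
import Pool.Agent.MVF.C182
import Pool.Agent.OBM.C01
import Pool.Agent.OBM.C07
import Pool.Agent.OBM.C13
import Pool.Agent.OTM.C02
import Pool.Agent.OTM.C03
import Pool.Agent.OTM.C05
import Pool.Agent.OTM.C06
import Pool.Agent.OTM.C07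
import Pool.Agent.OTM.C10
import Pool.Agent.OVM.C01
import Pool.Agent.OVM.C02

/-! Parts: OE.StF, OE.StI0, OE.CaseG, OE.E_BAS, OE.E_CAL, OE.E_DEG, OE.E_PVL, OE.E_TPR, OE.F_NEW, OE.F_T1, OE.I_SUB, OE.I_TSH, OE.StI, OE.StJ, OE.E_CFA, OE.F_NEWK, OE.F_T2, OE.G_BAS, OE.G_TEI, OE.J_CONV, OE.I_ITE -/

section

/-!
# OE (Theorem T+ for ALL imaginary quadratic fields, problem MP_b78433_nt), block F (helper60): statements

`ImQ` : `k` is an imaginary quadratic field. `O_TJE` : the result of block J for `k = ℚ(i)`, `ℚ(√-3)` (twin of `OTJ.O_TJ`). `S_NEWX`, `S_NEWKX`, `FinalTX`, `FinalEX` : the twins of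
`OTF.S_NEW`, `OTF.S_NEWK`, `OTF.FinalT`, `OTF.FinalE` for all imaginary quadratic fields.
-/

set_option autoImplicit false

open NumberField

namespace Pool.Agent.OEF

open _root_.Pool.Agent.MuCyc
open Pool.Agent.TWR (Gen)
open Pool.Agent.OTJ (AbK LyL)

noncomputable section

/-- `k` is an imaginary quadratic field. -/
structure ImQ (k : IntermediateField ℚ ℂ) : Prop where
  deg : Module.finrank ℚ k = 2
  imag : ∃ z ∈ k, (starRingEnd ℂ) z ≠ z

/-- THE RESULT of block J for the exceptional fields: for all large `r`, `μ = 0` for all new characters of `Gal(K₀ Ln (r+1) / k)`. -/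
def O_TJE : Prop :=
  ∀ (p : ℕ) [Fact p.Prime], 5 ≤ p → ∀ (l g h : ℕ), Gen l g h →
    ∀ (k K₀ : IntermediateField ℚ ℂ) [FiniteDimensional ℚ K₀] (hk : k ≤ K₀),
    Module.finrank ℚ k = 2 → (∃ z ∈ k, (starRingEnd ℂ) z ≠ z) →
    ((∃ z ∈ k, z ^ 2 = -1) ∨ ∃ z ∈ k, z ^ 2 = -3) →
    AbK p hk → ∀ Ln : ℕ → IntermediateField ℚ ℂ, LyL l Ln →
    ∃ r₀ : ℕ, ∀ r, r₀ ≤ r → ∀ (h' : k ≤ K₀ ⊔ Ln (r + 1)) (χ : MuCyc.Chr p h'),
      (∃ s : MuCyc.Gal h', (∀ x : IntermediateField.extendScalars h',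
        (x : ℂ) ∈ K₀ ⊔ Ln r → s x = x) ∧ χ s ≠ 1) →
      MuCyc.MuZeroC p h' χ

/-- NEW: the new characters of the fields `K B_(r+1)`, `r` large. -/
def S_NEWX : Prop := ∀ (p : ℕ) [Fact p.Prime], 5 ≤ p → ∀ (k K : IntermediateField ℚ ℂ) (h : k ≤ K),
  ImQ k → Abelian p h → (∃ ζ ∈ K, IsPrimitiveRoot ζ p) → ∀ l : ℕ, l = 2 ∨ l = 3 →
  ∃ r₀ : ℕ, ∀ r, r₀ ≤ r → ∀ B B' : IntermediateField ℚ ℂ, IsLayer l r B → IsLayer l (r + 1) B' →
    ∀ (h' : k ≤ K ⊔ B') (χ : Chr p h'),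
      (∃ s : Gal h', (∀ x : IntermediateField.extendScalars h', (x : ℂ) ∈ K ⊔ B → s x = x) ∧
        χ s ≠ 1) → MuZeroC p h' χ

/-- NEWK: the same for all `K`. -/
def S_NEWKX : Prop := ∀ (p : ℕ) [Fact p.Prime], 5 ≤ p → ∀ (k K : IntermediateField ℚ ℂ)
  (h : k ≤ K), ImQ k → Abelian p h → ∀ l : ℕ, l = 2 ∨ l = 3 →
  ∃ r₀ : ℕ, ∀ r, r₀ ≤ r → ∀ B B' : IntermediateField ℚ ℂ, IsLayer l r B → IsLayer l (r + 1) B' →
    ∀ (h' : k ≤ K ⊔ B') (χ : Chr p h'),
      (∃ s : Gal h', (∀ x : IntermediateField.extendScalars h', (x : ℂ) ∈ K ⊔ B → s x = x) ∧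
        χ s ≠ 1) → MuZeroC p h' χ

/-- THE FINAL STATEMENT for `K/k` of degree prime to `p`. -/
def FinalTX : Prop := ∀ (p : ℕ) [Fact p.Prime], 5 ≤ p → ∀ (k K : IntermediateField ℚ ℂ)
  (h : k ≤ K), ImQ k → Abelian p h → ∀ l : ℕ, l = 2 ∨ l = 3 →
  ∃ (r₀ : ℕ) (B₀ : IntermediateField ℚ ℂ), IsLayer l r₀ B₀ ∧
    ∀ (r : ℕ) (B : IntermediateField ℚ ℂ), IsLayer l r B →
      (∀ (hB : k ≤ K ⊔ B) (χ : Chr p hB),
        (∃ s : Gal hB, (∀ x : IntermediateField.extendScalars hB, (x : ℂ) ∈ K ⊔ B₀ → s x = x) ∧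
          χ s ≠ 1) → MuZeroC p hB χ) ∧
      ∀ L : IntermediateField ℚ ℂ, k ≤ L → L ≤ K ⊔ B → MuLE p L (L ⊓ (K ⊔ B₀))

/-- THE FINAL STATEMENT (Theorem T+ for all imaginary quadratic fields). -/
def FinalEX : Prop := ∀ (p : ℕ) [Fact p.Prime], 5 ≤ p → ∀ (k K : IntermediateField ℚ ℂ)
  (h : k ≤ K), ImQ k → FiniteDimensional ℚ K →
  IsGalois k (IntermediateField.extendScalars h) → (∀ σ τ : Gal h, σ * τ = τ * σ) →
  ∀ l : ℕ, l = 2 ∨ l = 3 →
  ∃ (r₀ : ℕ) (B₀ : IntermediateField ℚ ℂ), IsLayer l r₀ B₀ ∧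
    ∀ (r : ℕ) (B : IntermediateField ℚ ℂ), IsLayer l r B →
      (∀ (L : IntermediateField ℚ ℂ) (hL : k ≤ L), L ≤ K ⊔ B →
        ¬ p ∣ Module.finrank k (IntermediateField.extendScalars hL) → ∀ χ : Chr p hL,
        (∃ s : Gal hL, (∀ x : IntermediateField.extendScalars hL, (x : ℂ) ∈ K ⊔ B₀ → s x = x) ∧
          χ s ≠ 1) → MuZeroC p hL χ) ∧
      ∀ L : IntermediateField ℚ ℂ, k ≤ L → L ≤ K ⊔ B →
        ∀ (E : IntermediateField ℚ ℂ) (hE : k ≤ E), FiniteDimensional ℚ E →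
        IsGalois k (IntermediateField.extendScalars hE) →
        (∃ a : ℕ, Module.finrank k (IntermediateField.extendScalars hE) = p ^ a) →
        ∃ C : ℕ, ∀ (m : ℕ) (Q : IntermediateField ℚ ℂ), IsLayer p m Q →
          padicValNat p (classNo (L ⊔ E ⊔ Q)) ≤
            padicValNat p (classNo ((L ⊓ (K ⊔ B₀)) ⊔ E ⊔ Q)) + C * (m + 1) ^ C

end

end Pool.Agent.OEF


end

section

/-!
# OE (Theorem T+ for `ℚ(i)`, `ℚ(√-3)`, problem MP_b78433_nt), block I (helper79), first part: statements which do not use `OE/Defs.lean`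

Twins of `OB/StI.lean`, `OT/StI.lean` for `RepsE`, `TorXE`, `XXE` (`ME/DefsE.lean`). Models of the changes for the exceptional fields: `ME/N/I_*.lean` (twins of `NS/I_*.lean`). All levels are even.
Every statement is a `def Te_X : Prop`; the module X proves `theorem te_X (h : ..) ... : Te_X` in the file `Pool/Agent/OE/I_X.lean`, namespace `Pool.Agent.OEI` (private lemmas in `Pool.Agent.OEI.Xx`).
-/

set_option autoImplicit false

open NumberField

namespace Pool.Agent.OEI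

open _root_.MU3 Pool.Agent.MU3 Pool.Agent.MU3A Pool.Agent.MU3B Pool.Agent.RI Pool.Agent.RID
  Pool.Agent.MUX Pool.Agent.ME Pool.Agent.MUXK Pool.Agent.MUXI Pool.Agent.NS Pool.Agent.NSI
  Pool.Agent.OB Pool.Agent.OBI Pool.Agent.OT Pool.Agent.OTI
open Pool.Agent.MU3I (zt)
open Pool.Agent.TWR (Gen)

noncomputable section

/-- the weights `kk_i = kp_i c_i / mu_i / t (N b_i)` -/
def kkTE {A B : ℤ} {n₀ : ℕ} {ι : Type} (R : RepsE A B n₀ ι) (kp c : ι → ℂ) (t : ℤ → ℂ) (i : ι) :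
    ℂ :=
  kp i * c i / muXE R i * (t (nI (R.b i)))⁻¹

/-- the sets `XXE`, as `XMF` (`OT/StI.lean`); the pairs `(i, x)` have `x ≡ 1` modulo `2` -/
structure XMFE {A B : ℤ} {n₀ : ℕ} {ι : Type} (R : RepsE A B n₀ ι) (p f n : ℕ) (z₀ : ℤ) {G : Type}
    [Group G] (γ : G) (Δ : Subgroup G)
    (X : G → Set (ι × (OO A B ⧸ idl (A := A) (B := B) (lvX p f n)))) : Prop where
  comm : ∀ σ τ : G, σ * τ = τ * σ
  cop : ∀ τ, ∀ q ∈ X τ, IsCoprime (Quotient.out q.2 : OO A B) ((lvX p f n : ℕ) : OO A B)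
  two : ∀ τ, ∀ q ∈ X τ, (Quotient.out q.2 : OO A B) - 1 ∈ idl (A := A) (B := B) 2
  ex : ∀ q : ι × (OO A B ⧸ idl (A := A) (B := B) (lvX p f n)),
    IsCoprime (Quotient.out q.2 : OO A B) ((lvX p f n : ℕ) : OO A B) →
    (Quotient.out q.2 : OO A B) - 1 ∈ idl (A := A) (B := B) 2 → ∃ τ, q ∈ X τ
  uniq : ∀ q τ τ', q ∈ X τ → q ∈ X τ' → τ = τ'
  nrm : ∀ q τ, q ∈ X τ → ∀ j : ℕ, (τ * (γ ^ j)⁻¹ ∈ Δ ↔ ∃ k < p - 1,
    ((p ^ (n + 1) : ℕ) : ℤ) ∣ nm (Quotient.out q.2) * nI (R.b q.1) - z₀ ^ k * (1 + (p : ℤ)) ^ j)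

/-- (TSH) the sums of the logarithmic derivatives. MODEL: `OB/I_TSH.lean`, `ME/N/I_TSH.lean`. -/
def Te_TSH : Prop :=
  ∀ (p : ℕ) (A B : ℤ) (f : ℕ),
    SetQ p A B f → ∀ g : Ideal (OO A B), idl (A := A) (B := B) (lvX p f 0) ≤ g →
    ∀ (ι : Type) (R : RepsE A B (p * f) ι) (n : ℕ) (e : OO A B → ℂ),
    IsEI g e → ∀ (i : ι) (t : ℤ),
    muXE R i * sumMod ((lvX p f n : ℕ) : OO A B) (fun x =>
      if ((p ^ (n + 1) : ℕ) : ℤ) ∣ nm x * nI (R.b i) - t then
        e x * dlX (R.L i) (aX p f) (ptE R (lvX p f n) i x) else 0) =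
      (aX p f : ℂ) * SnXE R (lvX p f n) (p ^ (n + 1)) e i ((aX p f : ℤ) ^ 2 * t) -
        (aX p f : ℂ) ^ 2 * SnXE R (lvX p f n) (p ^ (n + 1)) e i t

/-- (XMF) the sets `XXE` satisfy `XMFE` for the group `NC h Bn`. MODEL: `OT/I_XMF.lean`, `ME/N/I_XMX.lean`.

USES Si_XXF_E, Si_ARF_E, Ti_NCB, Ti_ZAR. -/
def Te_XMF : Prop :=
  ∀ (p : ℕ) [Fact p.Prime] (A B : ℤ) (f : ℕ),
    SetQ p A B f → CaseE A B → 2 ∣ f → TorXE A B → ∀ (ι : Type) (R : RepsE A B (p * f) ι)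
    (D : IntermediateField ℚ ℂ) (n : ℕ) (h : kk A B ≤ D) (Bn : IntermediateField ℚ ℂ),
    IsLayer p n Bn → Bn ≤ RB p n → RB p n ≤ D →
    (∀ y ∈ D, y ∈ RFE (idl (A := A) (B := B) (lvX p f n))) → letI := algC h
    ∀ (_ : IsGalois (kk A B) ↥D) (γ : ↥D ≃ₐ[kk A B] ↥D),
    (∀ x : ↥D, (x : ℂ) = zt (p ^ (n + 1)) + (zt (p ^ (n + 1)))⁻¹ →
        ((γ x : ↥D) : ℂ) =
          zt (p ^ (n + 1)) ^ (1 + p) + (zt (p ^ (n + 1)) ^ (1 + p))⁻¹) →
    ∀ z₀ : ℤ, IsZ0 p n z₀ →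
    XMFE R p f n z₀ γ (NC h Bn) (fun τ => XXE R (lvX p f n) h τ)

/-- (SUB) `K B_n ≤ RFE (lvX p f n)`. MODEL: `ME/N/I_SUB.lean`, `OB/I_SUB.lean` (first half).

USES Si_IAF_E, t_CYCO. -/
def Te_SUB : Prop :=
  ∀ (p : ℕ) (A B : ℤ) (f : ℕ), SetQ p A B f → TorXE A B →
    (∃ (b : Ideal (OO A B)) (L : PeriodPair) (om : ℂ), IsNE b L om) →
    ∀ (K : IntermediateField ℚ ℂ), (∀ y ∈ K, y ∈ RFE (idl (A := A) (B := B) (lvX p f 0))) →
    ∀ (n : ℕ) (Bn : IntermediateField ℚ ℂ), IsLayer p n Bn →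
    ∀ y ∈ K ⊔ Bn, y ∈ RFE (idl (A := A) (B := B) (lvX p f n))

/-- (EIX) the character `e ψ(N x)`. MODEL: `OT/I_EIX.lean` (`ti_EIX` gives `IsEI`; the units have norm `1`: `ME.isUnit_nm`). -/
def Te_EIX : Prop :=
  ∀ (p : ℕ) (A B : ℤ) (f : ℕ), SetQ p A B f → CaseE A B → ∀ (l r : ℕ), l.Prime → l ∣ f →
    ∀ e : OO A B → ℂ, IsEIE (idl (A := A) (B := B) (p * f)) e →
    ∀ ψ : DirichletCharacter ℂ (l ^ r),
    IsEIE (idl (A := A) (B := B) (p * (f * l ^ r))) (fun x => e x * ψ (nm x))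

end

end Pool.Agent.OEI


end

section

/-!
# OE (helper79): `CaseG`, `SetG`: the hypotheses `CaseO`, `SetO` of `OB/Defs0.lean` without the conditions `absD ≠ 3`, `absD ≠ 4`

They follow from `CaseO` / `SetO` and (with `er = 1`) from `CaseOE` / `SetOE`. Statements of `OB` on `P`, `V` only (BAS, PRF, TEI, EPS): the same texts with `CaseG`, `SetG`; the proofs in `OB` do not use `ex3`, `ex4`
(copy the file, `CaseO` → `CaseG`, `SetO` → `SetG`).
-/

set_option autoImplicit false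

namespace Pool.Agent.OE

open _root_.MU3 Pool.Agent.MU3A Pool.Agent.MU3B Pool.Agent.RI Pool.Agent.MUX Pool.Agent.ME
  Pool.Agent.NS Pool.Agent.OB

noncomputable section

/-- the hypotheses on `p`, `k`, `P`, `V`; `er` is the ramification index -/
structure CaseG (p er : ℕ) (A B : ℤ) (P : Ideal (OO A B)) (V : ValuationSubring ℂ) : Prop where
  cq : CQ A B
  pp : p.Prime
  p5 : 5 ≤ p
  prime : P.IsPrime
  mem : ((p : ℕ) : OO A B) ∈ P
  ram : (er = 1 ∧ ((p : ℕ) : OO A B) ∉ P ^ 2) ∨ (er = 2 ∧ ((p : ℕ) : OO A B) ∈ P ^ 2)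
  hV : OverI V P

/-- the standing hypotheses -/
structure SetG (p er : ℕ) (A B : ℤ) (P : Ideal (OO A B)) (V : ValuationSubring ℂ) (f : ℕ) : Prop
    extends CaseG p er A B P V where
  f0 : f ≠ 0
  fp : ¬ p ∣ f
  f12 : 12 ∣ f
  fD : 2 * absD A B ∣ ((p * f : ℕ) : ℤ)

variable {p er : ℕ} {A B : ℤ} {P : Ideal (OO A B)} {V : ValuationSubring ℂ} {f : ℕ}

lemma CaseO_toG (h : CaseO p er A B P V) : CaseG p er A B P V :=
  ⟨h.cq, h.pp, h.p5, h.prime, h.mem, h.ram, h.hV⟩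

lemma CaseOE.toG (h : CaseOE p A B P V) : CaseG p 1 A B P V :=
  ⟨h.toCQ, h.pp, h.p5, h.prime, h.mem, Or.inl ⟨rfl, h.unr⟩, h.hV⟩

lemma SetO_toG (h : SetO p er A B P V f) : SetG p er A B P V f :=
  ⟨CaseO_toG h.toCaseO, h.f0, h.fp, h.f12, h.fD⟩

lemma SetOE.toG (h : SetOE p A B P V f) : SetG p 1 A B P V f :=
  ⟨h.toCaseOE.toG, h.f0, h.fp, h.f12, h.fD⟩

lemma SetG.f6 (h : SetG p er A B P V f) : 6 ∣ f ∧ 12 ≤ f :=
  ⟨(by norm_num : 6 ∣ 12).trans h.f12, Nat.le_of_dvd (Nat.pos_of_ne_zero h.f0) h.f12⟩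

lemma CaseG.not_le (h : CaseG p er A B P V) {m : Ideal (OO A B)} (hm : IsCoprime m P) :
    ¬ m ≤ P := by
  intro h1
  have h2 := Ideal.isCoprime_iff_sup_eq.1 hm
  rw [sup_eq_right.2 h1] at h2
  exact h.prime.ne_top h2

/-- (BAS) `So_BAS` for `CaseG` -/
def S_BASG : Prop :=
  ∀ (p er : ℕ) (A B : ℤ) (P : Ideal (OO A B)) (V : ValuationSubring ℂ), CaseG p er A B P V →
    V.valuation (p : ℂ) < 1 ∧ V.valuation (2 : ℂ) = 1 ∧ P.IsMaximal ∧
    (∀ x : OO A B, V.valuation (emb x) ≤ 1) ∧ (∀ x : OO A B, V.valuation (emb x) < 1 ↔ x ∈ P) ∧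
    (∀ n : ℕ, ¬ p ∣ n → V.valuation (n : ℂ) = 1) ∧
    (nI P = p ∨ nI P = p ^ 2) ∧ ¬ p ∣ nI P - 1 ∧ 4 ≤ nI P - 1 ∧
    (∃ y : OO A B, (∀ x ∈ P, ∃ z, x * y = (p : OO A B) * z) ∧ ∀ z, y ≠ (p : OO A B) * z) ∧
    IsCoprime (Pc P) P ∧ idl (A := A) (B := B) p = Pc P * P ^ er

/-- (PRF) `Oi_PRF` for `CaseG` -/
def S_PRFG : Prop :=
  ∀ (p er : ℕ) (A B : ℤ) (P : Ideal (OO A B)) (V : ValuationSubring ℂ), CaseG p er A B P V →
    (∀ c : ℤ, (c : OO A B) ∈ P ↔ (p : ℤ) ∣ c) ∧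
    (∀ x ∈ P, V.valuation (emb x) ^ er ≤ V.valuation (p : ℂ)) ∧
    (∀ x ∉ P, x ^ (nI P - 1) - 1 ∈ P) ∧
    (∃ g ∉ P, ∀ x ∉ P, ∃ k : ℕ, x - g ^ k ∈ P) ∧
    ∃ m : ℕ, er * (nI P - 1) = m * (p - 1) ∧ m ∣ nI P - 1 ∧ 1 ≤ m ∧ 2 * m + 1 ≤ nI P ∧
      ∀ x : OO A B, x - 1 ∈ Pc P → x ∉ P → ((nm x : ℤ) : OO A B) - x ^ m ∈ P

/-- (TEI) `Oi_TEI` for `CaseG` -/
def S_TEIG : Prop :=
  ∀ (p er : ℕ) (A B : ℤ) (P : Ideal (OO A B)) (V : ValuationSubring ℂ), CaseG p er A B P V →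
    ∃ w : OO A B → ℂ, IsTeiP p er P V w

/-- (EPS) `Oi_EPS` for `SetG`, with the formula for `e` -/
def S_EPSG : Prop :=
  ∀ (p er : ℕ) (A B : ℤ) (P : Ideal (OO A B)) (V : ValuationSubring ℂ) (f : ℕ)
    (_ : SetG p er A B P V f) (w : OO A B → ℂ) (_ : IsTeiP p er P V w)
    (e0 : OO A B → ℂ) (r : ℕ) (_ : ¬ p ∣ r)
    (_ : e0 1 = 1) (_ : e0 (-1) = 1) (_ : ∀ x y, e0 (x * y) = e0 x * e0 y)
    (_ : ∀ x y, x - y ∈ idl (A := A) (B := B) (lvX p f 0) → e0 x = e0 y)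
    (_ : ∀ x, e0 x ≠ 0 ↔ IsCoprime x ((lvX p f 0 : ℕ) : OO A B))
    (_ : ∀ x, e0 x ≠ 0 → e0 x ^ r = 1),
    ∃ (e : OO A B → ℂ) (s : ℤ) (i : ℕ) (t : ℤ → ℂ),
      IsEI (idl (A := A) (B := B) (p * f)) e ∧ (s = 1 ∨ s = -1) ∧
      er * (nI P - 1) ≤ i * (p - 1) ∧ i ≤ nI P - 2 ∧
      (∀ x, x - 1 ∈ gO P f → x ∉ P → e x = w x ^ i) ∧
      (∀ x, e x ≠ 0 → e x ^ ((nI P - 1) * r) = 1) ∧
      (∀ a b : ℤ, t (a * b) = t a * t b) ∧ (∀ a b : ℤ, (p : ℤ) ∣ a - b → t a = t b) ∧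
      t 1 = 1 ∧ t (-1) = s ∧ (∀ a : ℤ, ¬ (p : ℤ) ∣ a → t a ^ (nI P - 1) = 1) ∧
      ∀ x, IsCoprime x ((lvX p f 0 : ℕ) : OO A B) → e0 x * w x = e x * t (nm x)

end

end Pool.Agent.OE


end

section

/-!
# OE, block E: BAS, elementary facts on `P` and `V` (port of `OB/T_BAS.lean` of helper16)
-/

set_option autoImplicit false

namespace Pool.Agent.OEE

open _root_.MU3 _root_.Pool.Agent.MU3A _root_.Pool.Agent.MU3B _root_.Pool.Agent.RI _root_.Pool.Agent.MUX _root_.Pool.Agent.MUXU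
open _root_.Pool.Agent.NS _root_.Pool.Agent.OB _root_.Pool.Agent.OBT.BAS

theorem tb_BASE : Sb_BASE := by
  intro p er A B P V h
  have hq := h.cq
  have hded : IsDedekindDomain (OO A B) := (Pool.Agent.MUXE.te_RNG A B hq).ded
  have hP := h.prime
  have hp0 : ((p : ℕ) : OO A B) ≠ 0 := natCast_ne_zero' hq h.pp.ne_zero
  have hPb : P ≠ ⊥ := fun e => hp0 (by simpa [e] using h.mem)
  have hmax : P.IsMaximal := hP.isMaximal hPb
  have hv : V.valuation (p : ℂ) < 1 := by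
    have h1 := (h.hV ((p : ℕ) : OO A B)).2 h.mem
    rw [emb_natCast hq] at h1
    exact (V.mem_nonunits_iff).1 h1
  have hib : idl (A := A) (B := B) p ≠ ⊥ := fun e =>
    hp0 (Ideal.span_singleton_eq_bot.1 e)
  obtain ⟨Q, hQ⟩ : P ∣ idl (A := A) (B := B) p := Ideal.dvd_iff_le.2 (idl_dvd h.mem)
  have hQb : Q ≠ ⊥ := fun e => hib (by rw [hQ, e, Ideal.mul_bot])
  have hnp : nI (idl (A := A) (B := B) p) = p ^ 2 := by
    have h1 := nI_sp hq hp0
    rw [show idl (A := A) (B := B) p = sp ((p : ℕ) : OO A B) from rfl, h1]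
    have h2 : nm ((p : ℕ) : OO A B) = (p : ℤ) ^ 2 := by
      have := nm_intCast (A := A) (B := B) (p : ℤ)
      simpa using this
    rw [h2, Int.natAbs_pow, Int.natAbs_natCast]
  have hmul : nI P * nI Q = p ^ 2 := by rw [← nI_mul hq hPb hQb, ← hQ, hnp]
  have hn1 : nI P ≠ 1 := fun e => hP.ne_top (eq_top_of_nI e)
  have hcase : nI P = p ∨ nI P = p ^ 2 := by
    obtain ⟨i, hi, hi2⟩ := (Nat.dvd_prime_pow h.pp).1 (Dvd.intro _ hmul)
    interval_cases i
    · exact absurd hi2 (by simpa using hn1)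
    · exact Or.inl (by simpa using hi2)
    · exact Or.inr hi2
  have hp5 := h.p5
  have hd : ¬ p ∣ nI P - 1 := by
    intro hd
    have h1 : p ∣ nI P := by
      rcases hcase with e | e
      · rw [e]
      · rw [e]
        exact dvd_pow_self p two_ne_zero
    have h2 : 1 ≤ nI P := by
      rcases hcase with e | e <;> rw [e]
      · omega
      · exact Nat.one_le_pow _ _ (by omega)
    have h3 : p ∣ 1 := by
      have := (Nat.dvd_sub h1 hd)
      rwa [Nat.sub_sub_self h2] at this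
    have := Nat.le_of_dvd one_pos h3
    omega
  have h4 : 4 ≤ nI P - 1 := by
    rcases hcase with e | e <;> rw [e]
    · omega
    · have : 5 * 5 ≤ p ^ 2 := by
        rw [pow_two]
        exact Nat.mul_le_mul hp5 hp5
      omega
  have hy : ∃ y : OO A B, (∀ x ∈ P, ∃ z, x * y = (p : OO A B) * z) ∧
      ∀ z, y ≠ (p : OO A B) * z := by
    have h1 : ¬ Q ≤ idl (A := A) (B := B) p := by
      intro h1
      have h2 : ⊤ * Q ≤ P * Q := by
        rw [← hQ, Ideal.top_mul]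
        exact h1
      rw [mul_comm ⊤ Q, mul_comm P Q] at h2
      exact hP.ne_top (top_le_iff.1 ((mul_le_mul_iff hq hQb).1 h2))
    obtain ⟨y, hyQ, hyp⟩ := SetLike.not_le_iff_exists.1 h1
    refine ⟨y, fun x hx => ?_, fun z hz => hyp ?_⟩
    · have h2 : x * y ∈ idl (A := A) (B := B) p := by
        rw [hQ]
        exact Ideal.mul_mem_mul hx hyQ
      obtain ⟨z, hz⟩ := Ideal.mem_span_singleton.1 h2
      exact ⟨z, hz⟩
    · rw [hz]
      exact Ideal.mem_span_singleton.2 ⟨z, rfl⟩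
  have hlast : IsCoprime (Pc P) P ∧ idl (A := A) (B := B) p = Pc P * P ^ er := by
    have hPP := mul_cjI hq hPb
    rcases hcase with e | e
    · have e1 : P * cjI P = idl (A := A) (B := B) p := by rw [hPP, e]
      by_cases hc : cjI P = P
      · have hPc : Pc P = ⊤ := by
          unfold Pc
          rw [if_pos hc]
        have e2 : P * P = idl (A := A) (B := B) p := by
          have e3 := e1
          rwa [hc] at e3
        have her : er = 2 := by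
          rcases h.ram with ⟨-, h1⟩ | ⟨h1, -⟩
          · exact absurd (not_mem_sq e2) h1
          · exact h1
        rw [hPc, her, Ideal.top_mul, pow_two]
        exact ⟨top_coprime P, e2.symm⟩
      · have hPc : Pc P = cjI P := by
          unfold Pc
          rw [if_neg hc]
        have hpr : (cjI P).IsPrime := by
          unfold cjI
          exact Ideal.IsPrime.comap _
        have hmx : (cjI P).IsMaximal := hpr.isMaximal (cjI_ne_bot hq hPb)
        have her : er = 1 := by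
          rcases h.ram with ⟨h1, -⟩ | ⟨-, h1⟩
          · exact h1
          · exfalso
            have h2 : P * cjI P ≤ P * P := by
              rw [e1, ← pow_two]
              exact idl_dvd h1
            exact hc (hmx.eq_of_le hP.ne_top ((mul_le_mul_iff hq hPb).1 h2))
        rw [hPc]
        refine ⟨Ideal.isCoprime_iff_sup_eq.2 (hmx.coprime_of_ne hmax hc), ?_⟩
        rw [her, pow_one, mul_comm, e1]
    · have hQ1 : nI Q = 1 := by
        have h1 : p ^ 2 * nI Q = p ^ 2 * 1 := by rw [← e, hmul, mul_one, e]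
        exact Nat.eq_of_mul_eq_mul_left (pow_pos h.pp.pos 2) h1
      have hPi : idl (A := A) (B := B) p = P := by rw [hQ, eq_top_of_nI hQ1, Ideal.mul_top]
      have hc : cjI P = P := by
        apply mul_cancel hq hPb
        rw [hPP, e]
        conv_rhs => rw [← hPi]
        rw [show sp ((p ^ 2 : ℕ) : OO A B) = idl (A := A) (B := B) (p ^ 2) from rfl, idl, idl,
          Ideal.span_singleton_mul_span_singleton]
        congr 2
        push_cast
        ring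
      have hPc : Pc P = ⊤ := by
        unfold Pc
        rw [if_pos hc]
      have her : er = 1 := by
        rcases h.ram with ⟨h1, -⟩ | ⟨-, h1⟩
        · exact h1
        · exfalso
          have h2 : P * ⊤ ≤ P * P := by
            rw [Ideal.mul_top, ← pow_two]
            conv_lhs => rw [← hPi]
            exact idl_dvd h1
          exact hP.ne_top (top_le_iff.1 ((mul_le_mul_iff hq hPb).1 h2))
      rw [hPc]
      refine ⟨top_coprime P, ?_⟩
      rw [Ideal.top_mul, her, pow_one, hPi]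
  refine ⟨hv, ?_, hmax, fun x => ?_, fun x => ?_, fun n hn => nat_unit h.pp hv hn, hcase, hd, h4,
    hy, hlast.1, hlast.2⟩
  · have h1 : ¬ p ∣ 2 := fun h1 => by
      have := Nat.le_of_dvd two_pos h1
      omega
    exact_mod_cast nat_unit h.pp hv h1
  · exact (V.valuation_le_one_iff _).2 (integral_mem V (Pool.Agent.MUXE.RNGaux.emb_int hq x))
  · rw [← h.hV x, V.mem_nonunits_iff]


end Pool.Agent.OEE


end

section

/-!
# OE, block E (port of `OB/E_CAL.lean`), module CAL: a uniformiser of `P` which is prime to the other primes above `p`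
-/

set_option autoImplicit false

open Polynomial

namespace Pool.Agent.OEE

open _root_.MU3 _root_.Pool.Agent.MU3A _root_.Pool.Agent.MU3B _root_.Pool.Agent.MUX _root_.Pool.Agent.MUXU _root_.Pool.Agent.MUXE
open _root_.Pool.Agent.RI _root_.Pool.Agent.NS _root_.Pool.Agent.OB
open _root_.Pool.Agent.MUXV (GR InK tX)
open _root_.Pool.Agent.NSE (su ru WL IntP)
open _root_.Pool.Agent.ME hiding ActE
open _root_.Pool.Agent.MEE
open _root_.Pool.Agent.OBE (SP Ann Ker0 PtsO RepO Cp lv0 Sb_ALG Sb_PRO Sb_PUL Sb_COE Sb_GRN Sb_LEG Sb_TNC Sb_GEN Sb_UNT Sb_RAT Sb_KIS Sb_NE1 Sb_DSM)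

noncomputable section

/-- (CAL) a uniformiser `al` of `P` which is prime to the other primes above `p`. -/
theorem tb_CALE (hcfa : Sb_CFAE) : Sb_CALE := by
  intro p er A B P V hC
  obtain ⟨hne, hmax, -, -, hcnl, -, -, hQ⟩ := hcfa p er A B P V hC
  have hcq := hC.cq
  have hded : IsDedekindDomain (OO A B) := (te_RNG A B hcq).ded
  have hdom : IsDomain (OO A B) := Pool.Agent.MUX.isDomain hcq
  -- a uniformiser
  have hnle : ¬ P ≤ P ^ 2 := by
    intro h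
    have h1 : P * P = P * ⊤ := by
      rw [← pow_two, Ideal.mul_top]
      exact le_antisymm (Ideal.pow_le_self two_ne_zero) h
    exact hmax.ne_top (Pool.Agent.MUX.mul_cancel hcq hne h1)
  obtain ⟨π, hπ, hπ2⟩ := Set.not_subset.1 hnle
  -- `P ^ 2` and `Pc P` are coprime
  have hco : IsCoprime (P ^ 2) (Pc P) := by
    apply IsCoprime.pow_left
    rw [Ideal.isCoprime_iff_sup_eq]
    by_contra h
    have h1 : P ⊔ Pc P = P := (hmax.eq_of_le h le_sup_left).symm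
    exact hcnl (le_sup_right.trans h1.le)
  obtain ⟨a, ha, b, hb, hab⟩ := Ideal.isCoprime_iff_exists.1 hco
  have hP2 : P ^ 2 ≤ P := Ideal.pow_le_self two_ne_zero
  set al : OO A B := π * b + a with hal
  have hal1 : al - π ∈ P ^ 2 := by
    have e : al - π = (1 - π) * a := by
      rw [hal]
      linear_combination π * hab
    rw [e]
    exact Ideal.mul_mem_left _ _ ha
  have hal2 : al - 1 ∈ Pc P := by
    have e : al - 1 = (π - 1) * b := by
      rw [hal]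
      linear_combination hab
    rw [e]
    exact Ideal.mul_mem_left _ _ hb
  have halP : al ∈ P := by
    have e : al = (al - π) + π := by ring
    rw [e]
    exact P.add_mem (hP2 hal1) hπ
  have halP2 : al ∉ P ^ 2 := by
    intro h
    apply hπ2
    have e : π = al - (al - π) := by ring
    rw [e]
    exact Ideal.sub_mem _ h hal1
  refine ⟨al, halP, halP2, ?_⟩
  -- the cofactor
  obtain ⟨c, hc⟩ := Ideal.dvd_iff_le.2 ((Ideal.span_singleton_le_iff_mem P).2 halP)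
  have halc : al ∈ P * c := by
    rw [← hc]
    exact Ideal.mem_span_singleton_self _
  have htop : c ⊔ idl (A := A) (B := B) p = ⊤ := by
    by_contra h
    obtain ⟨M, hM, hle⟩ := Ideal.exists_le_maximal _ h
    have hpM : ((p : ℕ) : OO A B) ∈ M :=
      hle (Ideal.mem_sup_right (Ideal.mem_span_singleton_self _))
    have hcM : c ≤ M := le_sup_left.trans hle
    rcases hQ M hM.isPrime hpM with h1 | h1
    · rw [h1] at hcM
      apply halP2
      rw [pow_two]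
      exact Ideal.mul_mono_right hcM halc
    · apply hM.ne_top
      rw [Ideal.eq_top_iff_one]
      have h2 : al ∈ M := hcM (Ideal.mul_le_right halc)
      have h3 : al - 1 ∈ M := by
        rw [h1]
        exact hal2
      have e : (1 : OO A B) = al - (al - 1) := by ring
      rw [e]
      exact M.sub_mem h2 h3
  obtain ⟨c0, hc0, w, hw, hcw⟩ := Submodule.mem_sup.1 ((Ideal.eq_top_iff_one _).1 htop)
  obtain ⟨t, ht⟩ := Ideal.mem_span_singleton'.1 hw
  have hst : star c0 = 1 - star t * ((p : ℕ) : OO A B) := by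
    have h1 : c0 = 1 - t * ((p : ℕ) : OO A B) := by
      rw [ht]
      exact eq_sub_of_add_eq hcw
    rw [h1, star_sub, star_one, star_mul, star_natCast]
    ring
  have hnm := Pool.Agent.MUX.mul_star c0
  refine ⟨(nm c0).natAbs, ?_, ?_⟩
  · intro hdvd
    obtain ⟨s, hs⟩ := Int.natCast_dvd.2 hdvd
    rw [hs] at hnm
    have h1 : c0 = 1 - t * ((p : ℕ) : OO A B) := by
      rw [ht]
      exact eq_sub_of_add_eq hcw
    have h2 : (1 : OO A B) = ((p : ℕ) : OO A B) *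
        ((s : OO A B) + t + star t - t * star t * ((p : ℕ) : OO A B)) := by
      rw [hst, h1] at hnm
      push_cast at hnm
      linear_combination hnm
    apply hmax.ne_top
    rw [Ideal.eq_top_iff_one, h2]
    exact Ideal.mul_mem_right _ _ hC.mem
  · intro x hx
    have hN : (((nm c0).natAbs : ℕ) : OO A B) ∈ c := by
      have h1 : ((nm c0 : ℤ) : OO A B) ∈ c := by
        rw [← hnm]
        exact Ideal.mul_mem_right _ _ hc0
      rcases Int.natAbs_eq (nm c0) with h2 | h2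
      · rw [h2, Int.cast_natCast] at h1
        exact h1
      · rw [h2, Int.cast_neg, Int.cast_natCast] at h1
        exact neg_mem_iff.1 h1
    have h1 : (((nm c0).natAbs : ℕ) : OO A B) * x ∈ P * c := by
      rw [mul_comm _ x]
      exact Ideal.mul_mem_mul hx hN
    rw [← hc] at h1
    obtain ⟨y, hy⟩ := Ideal.mem_span_singleton'.1 h1
    exact ⟨y, by rw [← hy]; ring⟩

end

end Pool.Agent.OEE


end

section

/-!
# OE, block E (port of `OB/E_DEG.lean`) (helper53): (DEG) the degree of `RFE (P^(j+1) m')` over `RFE m'`. Models: `MUX/E_DEG.lean`, `NS/F_DEG.lean`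
-/

set_option autoImplicit false

open Polynomial

namespace Pool.Agent.OEE

open _root_.MU3 _root_.Pool.Agent.MU3A _root_.Pool.Agent.MU3B _root_.Pool.Agent.MUX _root_.Pool.Agent.MUXU _root_.Pool.Agent.MUXE
open _root_.Pool.Agent.RI _root_.Pool.Agent.NS _root_.Pool.Agent.OB
open _root_.Pool.Agent.ME hiding ActE
open _root_.Pool.Agent.MEE
open _root_.Pool.Agent.OBE (SP Ann Ker0 PtsO RepO Cp lv0 Sb_ALG Sb_PRO Sb_PUL Sb_COE Sb_GRN Sb_LEG Sb_TNC Sb_GEN Sb_UNT Sb_RAT Sb_KIS Sb_NE1 Sb_DSM)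

noncomputable section

namespace DEG

lemma nI_top' {A B : ℤ} : nI (⊤ : Ideal (OO A B)) = 1 := by
  unfold nI
  have : Subsingleton (OO A B ⧸ (⊤ : Ideal (OO A B))) := Ideal.Quotient.subsingleton_iff.2 rfl
  exact Nat.card_of_subsingleton 0

lemma nI_pow' {A B : ℤ} (hc : CQ A B) {c : Ideal (OO A B)} (hc0 : c ≠ ⊥) (j : ℕ) :
    c ^ j ≠ ⊥ ∧ nI (c ^ j) = nI c ^ j := by
  induction j with
  | zero =>
    rw [pow_zero, pow_zero, Ideal.one_eq_top]
    refine ⟨?_, nI_top'⟩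
    intro h
    have h1 : (1 : OO A B) ∈ (⊤ : Ideal (OO A B)) := trivial
    rw [h, Ideal.mem_bot] at h1
    have := natCast_ne_zero' hc (n := 1) one_ne_zero
    rw [Nat.cast_one] at this
    exact this h1
  | succ j ih =>
    rw [pow_succ, pow_succ]
    exact ⟨mul_ne_bot hc ih.1 hc0, by rw [nI_mul hc ih.1 hc0, ih.2]⟩

/-- the number of the classes modulo `P^(j+1)` of the elements outside `P` -/
lemma card_out {A B : ℤ} (hc : CQ A B) {P : Ideal (OO A B)} (hP : P ≠ ⊥) (j : ℕ) :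
    Nat.card {y : OO A B ⧸ P ^ (j + 1) // ∀ x : OO A B, Ideal.Quotient.mk _ x = y → x ∉ P} ≤
      (nI P - 1) * nI P ^ j := by
  classical
  obtain ⟨h0, h1⟩ := nI_pow' hc hP (j + 1)
  haveI hfin : Finite (OO A B ⧸ P ^ (j + 1)) := finite_quot hc h0
  haveI hfinP : Finite (OO A B ⧸ P) := finite_quot hc hP
  have hle : P ^ (j + 1) ≤ P := Ideal.pow_le_self (by omega)
  let φ : OO A B ⧸ P ^ (j + 1) →+* OO A B ⧸ P := Ideal.Quotient.factor hle
  have hφ : Function.Surjective φ := Ideal.Quotient.factor_surjective hle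
  have hφm : ∀ x : OO A B, φ (Ideal.Quotient.mk _ x) = Ideal.Quotient.mk _ x := fun x => rfl
  let K : AddSubgroup (OO A B ⧸ P ^ (j + 1)) := φ.toAddMonoidHom.ker
  have hq : 0 < nI P := Nat.pos_of_ne_zero (nI_ne_zero hc hP)
  have e1 : Nat.card (OO A B ⧸ P ^ (j + 1)) = nI P ^ (j + 1) := h1
  have e2 : Nat.card ((OO A B ⧸ P ^ (j + 1)) ⧸ K) = nI P :=
    Nat.card_congr (QuotientAddGroup.quotientKerEquivOfSurjective φ.toAddMonoidHom hφ).toEquiv
  have e3 : Nat.card (OO A B ⧸ P ^ (j + 1)) =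
      Nat.card ((OO A B ⧸ P ^ (j + 1)) ⧸ K) * Nat.card K :=
    AddSubgroup.card_eq_card_quotient_mul_card_addSubgroup K
  have e4 : Nat.card K = nI P ^ j := by
    rw [e1, e2, pow_succ, mul_comm] at e3
    exact (Nat.eq_of_mul_eq_mul_left hq e3).symm
  have e5 : Nat.card (OO A B ⧸ P ^ (j + 1)) = Nat.card K +
      Nat.card {y : OO A B ⧸ P ^ (j + 1) // y ∉ K} := by
    have h2 := Nat.card_congr (Equiv.sumCompl (fun y : OO A B ⧸ P ^ (j + 1) => y ∈ K))
    rw [Nat.card_sum] at h2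
    exact h2.symm
  have e6 : Nat.card {y : OO A B ⧸ P ^ (j + 1) // y ∉ K} = (nI P - 1) * nI P ^ j := by
    rw [e1, e4] at e5
    rw [Nat.sub_mul, one_mul]
    have : nI P * nI P ^ j = nI P ^ (j + 1) := by rw [pow_succ, mul_comm]
    omega
  rw [← e6]
  refine Nat.card_le_card_of_injective (fun y => ⟨y.1, ?_⟩) ?_
  · intro hy
    obtain ⟨x, hx⟩ := Ideal.Quotient.mk_surjective y.1
    apply y.2 x hx
    have h2 : φ y.1 = 0 := hy
    rw [← hx, hφm] at h2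
    exact Ideal.Quotient.eq_zero_iff_mem.1 h2
  · intro y z h
    exact Subtype.ext (congrArg (fun w => w.1) h)

end DEG

open _root_.Pool.Agent.OEE.DEG in
theorem tb_DEGE : Sb_DEGE := by
  classical
  intro p er A B P V al hC hG j m' hm' hm2 hmP
  have hR := hC.ring
  have hcq := hC.cq
  haveI := hR.ded
  obtain ⟨f1, -, f3, -, f5⟩ := tm_FAC tm_TRA A B hR
  -- ideals
  set m : Ideal (OO A B) := P ^ (j + 1) * m' with hm
  have hmm' : m ≤ m' := Ideal.mul_le_right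
  have hmPj : m ≤ P ^ (j + 1) := Ideal.mul_le_left
  have hPjP : P ^ (j + 1) ≤ P := Ideal.pow_le_self (by omega)
  have hP0 : P ≠ ⊥ := hC.ne
  have hm0 : m ≠ ⊥ := mul_ne_bot hcq (nI_pow' hcq hP0 (j + 1)).1 hm'
  have hcop0 : P ⊔ m' = ⊤ := by
    by_contra h
    have h1 : P = P ⊔ m' := hC.max.eq_of_le h le_sup_left
    exact hmP (le_sup_right.trans (le_of_eq h1.symm))
  have hcop : IsCoprime (P ^ (j + 1)) m' := (Ideal.isCoprime_iff_sup_eq.2 hcop0).pow_left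
  have hinf : P ^ (j + 1) ⊓ m' = m := Ideal.inf_eq_mul_of_isCoprime hcop
  -- fields
  have hF : RFE m' ≤ RFE m := f1 m m' hmm'
  haveI := hG.fin m hm0
  haveI := hG.gal m hm0
  set E : IntermediateField (kk A B) (RFE m) := IntermediateField.restrict hF with hE
  have e1 : Module.finrank (kk A B) (RFE m') = Module.finrank (kk A B) E :=
    (IntermediateField.restrictAlgEquiv hF).toLinearEquiv.finrank_eq
  have e2 : Module.finrank (kk A B) E * Module.finrank E (RFE m) =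
      Module.finrank (kk A B) (RFE m) := Module.finrank_mul_finrank _ _ _
  have e3 : Nat.card E.fixingSubgroup = Module.finrank E (RFE m) :=
    IsGalois.card_fixingSubgroup_eq_finrank E
  rw [← e2, ← e3, e1, mul_comm]
  refine Nat.mul_le_mul_right _ ?_
  -- the kernel
  have hker : ∀ σ : E.fixingSubgroup, ∃ α : OO A B, α - 1 ∈ m' ∧ ActEE (em (σ : RFE m ≃ₐ[kk A B] RFE m)) m α := by
    intro σ
    refine hG.ker m m' hm0 hmm' hm2 (em (σ : RFE m ≃ₐ[kk A B] RFE m)) ?_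
    intro y hy hy'
    have h4 : (⟨y, hy⟩ : RFE m) ∈ E := (IntermediateField.mem_restrict hF _).2 hy'
    have h5 := (IntermediateField.mem_fixingSubgroup_iff E _).1 σ.2 ⟨y, hy⟩ h4
    exact congrArg Subtype.val h5
  choose α hα1 hα2 using hker
  have hαP : ∀ σ, α σ ∉ P := by
    intro σ hσ
    have h4 := (hα2 σ).1
    have h5 : sp (α σ) ≤ P := (Ideal.span_singleton_le_iff_mem P).2 hσ
    have h6 : m ≤ P := hmPj.trans hPjP
    have h7 : sp (α σ) ⊔ m = ⊤ := Ideal.isCoprime_iff_sup_eq.1 h4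
    have h8 : (⊤ : Ideal (OO A B)) ≤ P := h7 ▸ sup_le h5 h6
    exact hC.prime.ne_top (top_le_iff.1 h8)
  have hinj : ∀ σ τ, α σ - α τ ∈ P ^ (j + 1) → σ = τ := by
    intro σ τ h
    have h4 : α σ - α τ ∈ m' := by
      have := sub_mem (hα1 σ) (hα1 τ)
      rwa [sub_sub_sub_cancel_right] at this
    have h5 : α σ - α τ ∈ m := hinf ▸ Ideal.mem_inf.2 ⟨h, h4⟩
    have h6 := f5 m (RFE m) (em (σ : RFE m ≃ₐ[kk A B] RFE m)) (α σ) (α τ) (Or.inl h5) (hα2 σ)
    have h7 := f3 m _ _ _ h6 (hα2 τ)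
    apply Subtype.ext
    apply AlgEquiv.ext
    intro x
    apply Subtype.ext
    exact DFunLike.congr_fun h7 x
  haveI hfin : Finite (OO A B ⧸ P ^ (j + 1)) := finite_quot hcq (nI_pow' hcq hP0 (j + 1)).1
  refine le_trans ?_ (card_out hcq hP0 j)
  refine Nat.card_le_card_of_injective
    (fun σ => ⟨Ideal.Quotient.mk _ (α σ), ?_⟩) ?_
  · intro x hx hxP
    apply hαP σ
    have h4 : x - α σ ∈ P := hPjP ((Ideal.Quotient.mk_eq_mk_iff_sub_mem _ _).1 hx)
    have h5 := sub_mem hxP h4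
    rwa [sub_sub_cancel] at h5
  · intro σ τ h
    have h4 : Ideal.Quotient.mk (P ^ (j + 1)) (α σ) = Ideal.Quotient.mk (P ^ (j + 1)) (α τ) :=
      congrArg Subtype.val h
    exact hinj _ _ ((Ideal.Quotient.mk_eq_mk_iff_sub_mem _ _).1 h4)

end

end Pool.Agent.OEE


end

section

/-!
# OE, block E (port of `OB/E_PVL.lean`), module PVL (helper95): the kernel of reduction as a module over the integers
-/

set_option autoImplicit false

open Polynomial

namespace Pool.Agent.OEE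

open _root_.MU3 _root_.Pool.Agent.MU3A _root_.Pool.Agent.MU3B _root_.Pool.Agent.MUX _root_.Pool.Agent.MUXU _root_.Pool.Agent.MUXE
open _root_.Pool.Agent.RI _root_.Pool.Agent.NS _root_.Pool.Agent.OB
open _root_.Pool.Agent.MUXV (GR InK tX)
open _root_.Pool.Agent.NSE (su ru WL IntP)
open _root_.Pool.Agent.ME hiding ActE
open _root_.Pool.Agent.MEE
open _root_.Pool.Agent.OBE (SP Ann Ker0 PtsO RepO Cp lv0 Sb_ALG Sb_PRO Sb_PUL Sb_COE Sb_GRN Sb_LEG Sb_TNC Sb_GEN Sb_UNT Sb_RAT Sb_KIS Sb_NE1 Sb_DSM)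

noncomputable section

theorem tb_PVLE (hUNT : Sb_UNT) (hKIS : Sb_KIS) (hGRN : Sb_GRN) : Sb_PVLE := by
  intro p er A B P V al c L u e lam hL hG
  have hCp : Cp p V := c.toCp
  obtain ⟨φ, hφ⟩ := c.ring.hom
  have tra := tm_TRA A B c.ring L hL
  obtain ⟨ξ, G⟩ := hGRN p V L u e lam hCp hG
  have hu := hG.u0
  have key : ∀ x : OO A B, x ∉ P → Ker0 V L L u e (emb x) ∧
      ∀ z, InK V L (xu L u e) z → z ∉ L.lattice →
        emb x * z ∉ L.lattice ∧ InK V L (xu L u e) (emb x * z) ∧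
        V.valuation (xu L u e (emb x * z)) = V.valuation (xu L u e z) := by
    intro x hx
    have hx0 : x ≠ 0 := fun h => hx (h ▸ P.zero_mem)
    have he0 : emb x ≠ 0 := fun h => hx0 (c.ring.inj0 x h)
    have hI : Isg L L (emb x) := fun w hw => tra.1 x w hw
    have hv : V.valuation (emb x * u / u) = 1 := by
      rw [mul_div_assoc, div_self hu, mul_one]
      exact c.unit x hx
    have hK : Ker0 V L L u e (emb x) :=
      ((hUNT p V L L u e lam u e lam (emb x) hCp hG hG he0 hI).1).2 hv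
    exact ⟨hK, fun z hz hzL =>
      hKIS p V L L u e lam u e lam (emb x) hCp hG hG he0 hI hK z hz hzL⟩
  have k2 : ∀ (x : OO A B) (z : ℂ), InK V L (xu L u e) z →
      InK V L (xu L u e) (emb x * z) := by
    intro x z hz
    have main : ∀ x : OO A B, x ∉ P → InK V L (xu L u e) (emb x * z) := by
      intro x hx
      by_cases hzL : z ∈ L.lattice
      · exact Or.inl (tra.1 x z hzL)
      · exact ((key x hx).2 z hz hzL).2.1
    by_cases hx : x ∈ P
    · have h1 : x + 1 ∉ P := by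
        intro h
        have h4 : (1 : OO A B) ∈ P := by
          have h5 := P.sub_mem h hx
          rwa [add_sub_cancel_left] at h5
        exact c.max.ne_top ((Ideal.eq_top_iff_one P).2 h4)
      have h2 := main (x + 1) h1
      have h3 := Pool.Agent.MUXV.inK_sub G h2 hz
      have h6 : emb (x + 1) * z - z = emb x * z := by
        rw [← hφ, map_add, map_one, hφ]
        ring
      rwa [h6] at h3
    · exact main x hx
  refine ⟨key, k2, ?_⟩
  intro m hm z hT hz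
  obtain ⟨x, hxm, hxP⟩ := SetLike.not_le_iff_exists.1 hm
  by_contra hzL
  exact ((key x hxP).2 z hz hzL).1 (hT x hxm)

end

end Pool.Agent.OEE


end

section

/-!
# OE, block E (port of `OB/E_TPR.lean`): the points of exact order `P^(j+1)` (TPR) (helper94; model `NS/F_TPR.lean`)
-/

set_option autoImplicit false

open Polynomial

namespace Pool.Agent.OEE

open _root_.MU3 _root_.Pool.Agent.MU3A _root_.Pool.Agent.MU3B _root_.Pool.Agent.MUX _root_.Pool.Agent.MUXU _root_.Pool.Agent.MUXE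
open _root_.Pool.Agent.RI _root_.Pool.Agent.NS _root_.Pool.Agent.OB
open _root_.Pool.Agent.MUXV (GR InK tX)
open _root_.Pool.Agent.NSE (su ru WL IntP)
open _root_.Pool.Agent.ME hiding ActE
open _root_.Pool.Agent.MEE
open _root_.Pool.Agent.OBE (SP Ann Ker0 PtsO RepO Cp lv0 Sb_ALG Sb_PRO Sb_PUL Sb_COE Sb_GRN Sb_LEG Sb_TNC Sb_GEN Sb_UNT Sb_RAT Sb_KIS Sb_NE1 Sb_DSM)

noncomputable section

namespace TPR

theorem one_lt_of {Γ : Type*} [LinearOrderedCommGroupWithZero Γ] {T π : Γ} {m : ℕ}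
    (h : T ^ m * π = 1) (hπ : π < 1) : 1 < T := by
  by_contra hc
  have hc' : T ≤ 1 := not_lt.1 hc
  have h1 : T ^ m ≤ 1 := pow_le_one' hc' m
  have h2 : T ^ m * π ≤ 1 * π := mul_le_mul_left h1 π
  rw [h, one_mul] at h2
  exact absurd hπ (not_lt.2 h2)

theorem inv_pow_eq {Γ : Type*} [LinearOrderedCommGroupWithZero Γ] {T π : Γ} {m : ℕ}
    (hT : T ≠ 0) (h : T⁻¹ ^ m = π) : T ^ m * π = 1 := by
  rw [← h, inv_pow]
  exact mul_inv_cancel₀ (pow_ne_zero _ hT)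

theorem lt_one_of_pow {Γ : Type*} [LinearOrderedCommGroupWithZero Γ] {a b : Γ} {n : ℕ}
    (h : a ^ n = b) (hb : b < 1) : a < 1 := by
  by_contra hc
  have hc' : 1 ≤ a := not_lt.1 hc
  have h1 : 1 ≤ a ^ n := one_le_pow₀ hc'
  rw [h] at h1
  exact absurd hb (not_lt.2 h1)

end TPR

open _root_.Pool.Agent.OEE.TPR in
theorem tb_TPRE (h2 : Sb_GRN) (h3 : Sb_TNC) (h5 : Sb_PISE) (h7 : Su_PFI) : Sb_TPRE := by
  intro p er A B P V al h j
  obtain ⟨φ, hφ⟩ := h.ring.hom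
  have embn : ∀ n : ℕ, emb ((n : ℕ) : OO A B) = n := fun n => by rw [← hφ, map_natCast]
  have hcp : Cp p V := ⟨h.pp, h.p2, h.vp⟩
  have hp5 := h.p5
  have hq3 := h.n3
  have hp0 : (p : ℂ) ≠ 0 := by
    have := h.pp.ne_zero
    exact_mod_cast this
  have hπ1 : V.valuation (emb al) < 1 := lt_one_of_pow h.alv h.vp
  have hπ0 : V.valuation (emb al) ≠ 0 := by
    intro h0
    have h9 := h.alv
    rw [h0, zero_pow (by have := h.er1; omega)] at h9
    exact (Valuation.ne_zero_iff _).2 hp0 h9.symm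
  have hπ2 : V.valuation (emb al) ^ 2 < 1 := pow_lt_one₀ zero_le hπ1 two_ne_zero
  induction j with
  | zero =>
    intro L u e lam hL hg z hz hz0
    obtain ⟨tra1, -⟩ := tm_TRA A B h.ring L hL
    have hzL : z ∉ L.lattice := fun h8 => hz0 fun x _ => tra1 x z h8
    obtain ⟨N, ν, hN, hQ⟩ := h.exq L hL
    obtain ⟨u', e', lam', hg'⟩ := h.good N hN
    rw [zero_add, pow_one] at hz
    obtain ⟨-, -, k3⟩ := h5 p er A B P V al h L N ν u e lam u' e' lam' hL hN hQ hg hg'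
    obtain ⟨k4, k5, k6⟩ := k3 z hz hzL
    exact ⟨k4, k5, by rw [pow_zero, mul_one]; exact k6⟩
  | succ j ih =>
    intro L u e lam hL hg z hz hz0
    obtain ⟨tra1, tra2, tra3, tra4, tra5, tra6, tra7, tra8, tra9⟩ := tm_TRA A B h.ring L hL
    obtain ⟨N, ν, hN, hQ⟩ := h.exq L hL
    obtain ⟨u', e', lam', hg'⟩ := h.good N hN
    have hν : ν ≠ 0 := hQ.1
    have hTor : ∀ z, ν * z ∈ N.lattice ↔ Tor P L z := hQ.2
    have hIsg : Isg L N ν := fun w hw => (hTor w).2 (fun x _ => tra1 x w hw)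
    obtain ⟨ξ, G⟩ := h2 p V L u e lam hcp hg
    obtain ⟨hmu, ⟨R, hR, hcard⟩, hE⟩ :=
      h5 p er A B P V al h L N ν u e lam u' e' lam' hL hN hQ hg hg'
    have hu := hg.u0
    have hu' := hg'.u0
    have hp2 : ¬ p ∣ 2 := fun h8 => by
      have := Nat.le_of_dvd (by norm_num) h8
      omega
    -- the point of order 2
    have hw2 : ((2 : ℕ) : ℂ) * (L.ω₁ / 2) ∈ L.lattice := by
      convert L.ω₁_mem_lattice using 1; push_cast; ring
    have n1 := L.ω₁_div_two_notMem_lattice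
    set w : ℂ := L.ω₁ / 2 with hw
    have i1 : ¬ InK V L (xu L u e) w := fun hin =>
      n1 ((h3 p V L u e lam hcp hg 2 hp2).2 w hw2 hin)
    have m1 : ν * w ∉ N.lattice := by
      intro h8
      have h9 := (hTor w).1 h8 _ h.mem
      rw [embn] at h9
      apply n1
      obtain ⟨k, hk⟩ : ∃ k, p = 2 * k + 1 :=
        (h.pp.odd_of_ne_two h.p2)
      have h10 : ((k : ℕ) : ℂ) * (((2 : ℕ) : ℂ) * w) ∈ L.lattice := by
        have := nsmul_mem hw2 k
        rwa [nsmul_eq_mul] at this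
      have h11 := sub_mem h9 h10
      convert h11 using 1
      rw [hk]
      push_cast
      ring
    have i1' : ¬ InK V N (xu N u' e') (ν * w) := by
      intro hin
      refine m1 ((h3 p V N u' e' lam' hcp hg' 2 hp2).2 _ ?_ hin)
      have h8 := hIsg _ hw2
      rwa [show ν * (((2 : ℕ) : ℂ) * w) = ((2 : ℕ) : ℂ) * (ν * w) by ring] at h8
    -- the point `z' = ν z`
    have hz1 : Tor (P ^ (j + 1)) N (ν * z) := by
      intro x hx
      have h8 : Tor P L (emb x * z) := by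
        apply tra6 (P ^ (j + 1)) P x z hx
        rw [← pow_succ]
        exact hz
      have h9 := (hTor _).2 h8
      rwa [show ν * (emb x * z) = emb x * (ν * z) by ring] at h9
    have hz2 : ¬ Tor (P ^ j) N (ν * z) := by
      intro h8
      apply hz0
      rw [pow_succ]
      apply tra7
      intro x hx
      have h9 := h8 x hx
      rw [show emb x * (ν * z) = ν * (emb x * z) by ring] at h9
      exact (hTor _).1 h9
    obtain ⟨y1, y2, y3⟩ := ih N u' e' lam' hN hg' (ν * z) hz1 hz2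
    have hzN : ν * z ∉ N.lattice := by
      intro h8
      apply hz2
      obtain ⟨trb1, -⟩ := tm_TRA A B h.ring N hN
      exact fun x _ => trb1 x _ h8
    -- the representatives
    have torR : ∀ q ∈ R, Tor P L q := fun q hq => (hTor q).1 (hR.mem q hq)
    have hRk : ∀ q ∈ R, InK V L (xu L u e) q ∧ xu L u e q ≠ 0 ∧
        V.valuation (xu L u e q) ^ (nI P - 1) * V.valuation (emb al) ^ 2 = 1 := by
      intro q hq
      obtain ⟨k1, k2, k3⟩ := hE q (torR q hq) (hR.ne q hq)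
      refine ⟨k1, k2, ?_⟩
      unfold su at k3
      rw [map_inv₀] at k3
      exact inv_pow_eq ((Valuation.ne_zero_iff _).2 k2) k3
    have hRc : R.card = nI P - 1 := by omega
    obtain ⟨q0, hq0R⟩ : ∃ q, q ∈ R := by
      have : 0 < R.card := by omega
      exact Finset.card_pos.1 this
    have hRT : ∀ q ∈ R, V.valuation (xu L u e q) = V.valuation (xu L u e q0) := by
      intro q hq
      have h8 : V.valuation (xu L u e q) ^ (nI P - 1) * V.valuation (emb al) ^ 2 =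
          V.valuation (xu L u e q0) ^ (nI P - 1) * V.valuation (emb al) ^ 2 := by
        rw [(hRk q hq).2.2, (hRk q0 hq0R).2.2]
      exact (pow_left_inj₀ zero_le zero_le (by omega)).1
        (mul_right_cancel₀ (pow_ne_zero 2 hπ0) h8)
    -- the product formula
    have pf := h7 L N ν R hν hIsg hR w m1 z hzN
    have xd : ∀ a b : ℂ, L.weierstrassP a - L.weierstrassP b =
        u ^ 2 * (xu L u e a - xu L u e b) := by
      intro a b
      unfold xu
      field_simp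
      ring
    have xd' : ∀ a b : ℂ, N.weierstrassP a - N.weierstrassP b =
        u' ^ 2 * (xu N u' e' a - xu N u' e' b) := by
      intro a b
      unfold xu
      field_simp
      ring
    have pf' : (ν * u' / u) ^ 2 * (xu N u' e' (ν * z) - xu N u' e' (ν * w)) *
        ∏ q ∈ R, (xu L u e z - xu L u e q) =
        (xu L u e z - xu L u e w) * ∏ q ∈ R, (xu L u e z - xu L u e (w + q)) := by
      simp only [xd, xd', Finset.prod_mul_distrib, Finset.prod_const] at pf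
      have hu2 : u ^ 2 * (u ^ 2) ^ R.card ≠ 0 := by positivity
      apply mul_left_cancel₀ hu2
      have e1 : u ^ 2 * (ν * u' / u) ^ 2 = ν ^ 2 * u' ^ 2 := by
        field_simp
      linear_combination pf + ((u ^ 2) ^ R.card *
        (xu N u' e' (ν * z) - xu N u' e' (ν * w)) * ∏ q ∈ R, (xu L u e z - xu L u e q)) * e1
    have hy0 : V.valuation (xu N u' e' (ν * z)) ≠ 0 := (Valuation.ne_zero_iff _).2 y2
    have hyk : V.valuation (xu N u' e' (ν * z)) ^ ((nI P - 1) * nI P ^ j) *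
        V.valuation (emb al) ^ 2 = 1 := by
      unfold su at y3
      rw [map_inv₀] at y3
      exact inv_pow_eq hy0 y3
    obtain ⟨X1, X2⟩ := TP.num V.valuation (nI P) (nI P ^ j) (by omega)
      (pow_ne_zero _ (by omega)) R hRc
      (ν * u' / u) (xu N u' e' (ν * z)) (xu N u' e' (ν * w)) (xu L u e z) (xu L u e w)
      (fun q => xu L u e q) (fun q => xu L u e (w + q)) (V.valuation (xu L u e q0))
      (V.valuation (emb al)) hπ0 hπ1 hmu
      (by rw [mul_comm]; exact (hRk q0 hq0R).2.2)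
      (one_lt_of (hRk q0 hq0R).2.2 hπ2) hRT
      (fun q hqR => (Pool.Agent.MUXV.int_X (fun hin => i1 (by
        have := Pool.Agent.MUXV.inK_sub G hin (hRk q hqR).1
        rwa [add_sub_cancel_right] at this))).2)
      (Pool.Agent.MUXV.int_X i1).2 (Pool.Agent.MUXV.int_X i1').2
      (one_lt_of hyk hπ2) (by rw [mul_comm]; exact hyk) pf'
    have hx0 : xu L u e z ≠ 0 := by
      intro h0
      rw [h0, map_zero] at X1
      exact absurd X1 (not_lt.2 zero_le)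
    refine ⟨Or.inr fun hin => ?_, hx0, ?_⟩
    · exact absurd X1 (not_lt.2 ((V.valuation_le_one_iff _).2 hin))
    · calc V.valuation (su L u e z) ^ ((nI P - 1) * nI P ^ (j + 1))
          = (V.valuation (su L u e z) ^ nI P) ^ ((nI P - 1) * nI P ^ j) := by
            rw [← pow_mul]
            congr 1
            ring
        _ = V.valuation (su N u' e' (ν * z)) ^ ((nI P - 1) * nI P ^ j) := by
            unfold su
            rw [map_inv₀, map_inv₀, inv_pow, X2]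
        _ = V.valuation (emb al) ^ 2 := y3

end

end Pool.Agent.OEE


end

section

/-!
# OE, block F (helper60): the new characters for all imaginary quadratic fields, from the results of block J (`OTJ.O_TJ` and `O_TJE`)
-/

set_option autoImplicit false

open NumberField

namespace Pool.Agent.OEF

open _root_.Pool.Agent.MuCyc

/-- NEW -/
theorem t_NEWX (hLAY : _root_.Pool.Agent.MUXJ.Sj_LAY) (hTJ : _root_.Pool.Agent.OTJ.O_TJ)
    (hTJE : O_TJE) : S_NEWX := by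
  intro p _ hp k K h hk hK hz l hl
  have hfK := hK.fin
  obtain ⟨Ln, hlay, hmono, huniq⟩ := hLAY l hl
  have hGen : ∃ g e : ℕ, _root_.Pool.Agent.TWR.Gen l g e := by
    rcases hl with rfl | rfl
    · exact ⟨5, 2, Or.inr ⟨rfl, rfl, rfl⟩⟩
    · exact ⟨4, 1, Or.inl ⟨rfl, rfl, rfl⟩⟩
  obtain ⟨g, e, hG⟩ := hGen
  by_cases h1 : (∃ z ∈ k, z ^ 2 = -1) ∨ ∃ z ∈ k, z ^ 2 = -3
  · obtain ⟨r₀, hr₀⟩ := hTJE p hp l g e hG k K h hk.deg hk.imag h1
      ⟨hK.gal, hK.comm, hK.prime_to, hz⟩ Ln ⟨hlay, hmono⟩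
    refine ⟨r₀, fun r hr B B' hB hB' => ?_⟩
    obtain rfl : B = Ln r := huniq r B hB
    obtain rfl : B' = Ln (r + 1) := huniq (r + 1) B' hB'
    exact hr₀ r hr
  · obtain ⟨r₀, hr₀⟩ := hTJ p hp l g e hG k K h hk.deg hk.imag
      (fun z hz h2 => h1 (Or.inl ⟨z, hz, h2⟩)) (fun z hz h2 => h1 (Or.inr ⟨z, hz, h2⟩))
      ⟨hK.gal, hK.comm, hK.prime_to, hz⟩ Ln ⟨hlay, hmono⟩
    refine ⟨r₀, fun r hr B B' hB hB' => ?_⟩
    obtain rfl : B = Ln r := huniq r B hB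
    obtain rfl : B' = Ln (r + 1) := huniq (r + 1) B' hB'
    exact hr₀ r hr

end Pool.Agent.OEF


end

section

/-!
# OE, block F (helper60): the degree
-/

set_option autoImplicit false

open NumberField

namespace Pool.Agent.OEF

open _root_.Pool.Agent.MuCyc Pool.Agent.OBF Pool.Agent.OTF

theorem deg_QX (p : ℕ) [Fact p.Prime] (hp : 5 ≤ p) {k K : IntermediateField ℚ ℂ} (h : k ≤ K)
    (hk : ImQ k) (hK : Abelian p h) : ¬ p ∣ Module.finrank ℚ K := by
  have hpp : p.Prime := Fact.out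
  have := hK.fin
  rw [← mul_deg h, hk.deg, hpp.dvd_mul, not_or]
  refine ⟨fun h0 => ?_, hK.prime_to⟩
  have := Nat.le_of_dvd (by norm_num) h0
  omega

end Pool.Agent.OEF


end

section

/-!
# OE, block I, module SUB: the fields `K B_n` are contained in the ray class fields (after `Pool/Agent/OB/I_SUB.lean`)
-/

set_option autoImplicit false

namespace Pool.Agent.OEI

open _root_.MU3 Pool.Agent.MU3 Pool.Agent.MU3A Pool.Agent.MU3B Pool.Agent.RI Pool.Agent.RID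
  Pool.Agent.MUX Pool.Agent.ME Pool.Agent.MUXU Pool.Agent.MUXK Pool.Agent.MUXI Pool.Agent.NS
  Pool.Agent.NSI Pool.Agent.OB Pool.Agent.OBI Pool.Agent.OT Pool.Agent.OTI

noncomputable section

/-- Module SUB. -/
theorem te_SUB (h1 : Si_IAF_E) : Te_SUB := by
  intro p A B f hS hT hNL K hK n Bn hlay
  have hC : CQ A B := hS.cq
  have hp2 : p ≠ 2 := hS.p2
  have hp0 : p ≠ 0 := hS.pp.ne_zero
  have hpn : p ^ (n + 1) ≠ 0 := pow_ne_zero _ hp0
  have hlv : lvX p f n = f * p ^ (n + 1) := lvX_odd hp2 f n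
  have hlv0 : lvX p f n ≠ 0 := by
    rw [hlv]; exact Nat.mul_ne_zero hS.f0 hpn
  have hm : idl (A := A) (B := B) (lvX p f n) ≠ ⊥ := Pool.Agent.NST.ALT.idl_ne hC hlv0
  have hdiv : ∀ {M N : ℕ}, M ∣ N → idl (A := A) (B := B) N ≤ idl M := by
    intro M N h
    rw [Ideal.span_singleton_le_span_singleton]
    obtain ⟨c, rfl⟩ := h
    exact ⟨c, by push_cast; ring⟩
  have hle : idl (A := A) (B := B) (lvX p f n) ≤ idl (p ^ (n + 1)) :=
    hdiv ⟨f, by rw [hlv]; ring⟩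
  have hle0 : idl (A := A) (B := B) (lvX p f n) ≤ idl (lvX p f 0) :=
    hdiv ⟨p ^ n, by unfold lvX; ring⟩
  obtain ⟨i1, -, -, -, -, -, -, i8⟩ := h1 A B hC hT hNL _ hm
  obtain ⟨a, ha⟩ := i1 (RingEquiv.refl ℂ) rfl
  have hz : ∀ z : ℂ, z ^ p ^ (n + 1) = 1 → z ∈ RFE (idl (A := A) (B := B) (lvX p f n)) :=
    fun z hz => (i8 (p ^ (n + 1)) (RingEquiv.refl ℂ) a z hpn hle ha hz).1
  have hK' : K ≤ IntermediateField.restrictScalars ℚ
      (RFE (idl (A := A) (B := B) (lvX p f n))) := by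
    intro x hx
    exact hT.mono _ _ hle0 (hK x hx)
  intro y hy
  exact SUBx.sup_le_F hS.pp hp2 hlay _ hK' hz hy

end

end Pool.Agent.OEI


end

section

/-!
# OE, block I: the sums of the logarithmic derivatives (TSH), every odd prime `p` (copy of `OB/I_TSH.lean`)
-/

set_option autoImplicit false

namespace Pool.Agent.OEI

open _root_.MU3 Pool.Agent.MU3 Pool.Agent.MU3A Pool.Agent.MU3B Pool.Agent.RI Pool.Agent.RID
  Pool.Agent.MUX Pool.Agent.ME Pool.Agent.MUXK Pool.Agent.MUXI Pool.Agent.NS Pool.Agent.NSI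
  Pool.Agent.OB Pool.Agent.OBI
open Pool.Agent.MU3I (zt)

noncomputable section

open Pool.Agent.MUXI.TSH in
/-- (TSH) the sums of the logarithmic derivatives -/
theorem te_TSH (h1 : Pool.Agent.MUXI.Si_PTP_E) (h3 : Pool.Agent.MUXF.Sx_ALG) : Te_TSH := by
  intro p A B f hS g hg ι R n e he i t
  have hq : p ^ (n + 1) = q0 p * p ^ n := by
    rw [q0_odd hS.p2]
    ring
  rw [hq]
  have hCQ : CQ A B := hS.cq
  obtain ⟨alg1, alg2, alg3, alg4, -⟩ := h3 A B (Pool.Agent.MUXY.cqF hCQ)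
  have hpq : p ∣ q0 p := by
    unfold q0
    split_ifs with h
    · rw [h]; norm_num
    · exact dvd_rfl
  have hp0 : p ≠ 0 := hS.pp.ne_zero
  have hq0 : q0 p ≠ 0 := by
    unfold q0
    split_ifs with h
    · norm_num
    · exact hp0
  have hm0 : lvX p f n ≠ 0 := mul_ne_zero (mul_ne_zero hS.f0 hq0) (pow_ne_zero _ hp0)
  obtain ⟨ptp1, ptp2⟩ := h1 A B hCQ (p * f) ι R (lvX p f n) hm0 i
  have hmO : ((lvX p f n : ℕ) : OO A B) ≠ 0 := by
    intro h0
    have h5 := (alg3 (lvX p f n : ℤ)).1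
    rw [Int.cast_natCast, h0, (alg2 0).1.2 rfl] at h5
    apply hm0
    exact_mod_cast h5.symm
  have hfin : Finite (OO A B ⧸ Ideal.span {((lvX p f n : ℕ) : OO A B)}) := by
    apply alg4
    rw [Ne, Ideal.span_singleton_eq_bot]
    exact hmO
  have hmM : lvX p f n = f * (q0 p * p ^ n) := by unfold lvX; ring
  have hcN := cop_nat p f n hpq
  have hcZ : IsCoprime ((aX p f : ℕ) : ℤ) ((lvX p f n : ℕ) : ℤ) :=
    Nat.isCoprime_iff_coprime.2 hcN
  have hcO : IsCoprime ((aX p f : ℕ) : OO A B) ((lvX p f n : ℕ) : OO A B) := by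
    have h5 := hcZ.map (Int.castRingHom (OO A B))
    simpa using h5
  have hl0 : ((lvX p f 0 : ℕ) : OO A B) ∈ g := hg (Ideal.mem_span_singleton_self _)
  have hle : idl (A := A) (B := B) (lvX p f n) ≤ g := by
    rw [Ideal.span_singleton_le_iff_mem]
    have h5 : ((lvX p f n : ℕ) : OO A B) = ((lvX p f 0 : ℕ) : OO A B) * ((p ^ n : ℕ) : OO A B) := by
      rw [← Nat.cast_mul]
      congr 1
      unfold lvX
      ring
    rw [h5]
    exact g.mul_mem_right _ hl0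
  have hea : ∀ x, e (((aX p f : ℕ) : OO A B) * x) = e x := by
    intro x
    rw [he.mul, he.per ((aX p f : ℕ) : OO A B) 1, he.one, one_mul]
    have h5 : ((aX p f : ℕ) : OO A B) - 1 = ((lvX p f 0 : ℕ) : OO A B) * 2 := by
      unfold aX lvX
      push_cast
      ring
    rw [h5]
    exact g.mul_mem_right _ hl0
  -- the summands
  set F0 : ℤ → OO A B → ℂ := fun c x =>
    if ((q0 p * p ^ n : ℕ) : ℤ) ∣ nm x * nI (R.b i) - c then
      e x * ee (R.L i) (ptE R (lvX p f n) i x) else 0 with hF0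
  have hMm : ((q0 p * p ^ n : ℕ) : ℤ) ∣ ((lvX p f n : ℕ) : ℤ) :=
    ⟨f, by rw [hmM]; push_cast; ring⟩
  have hper : ∀ c, Per ((lvX p f n : ℕ) : OO A B) (F0 c) := by
    intro c x y hxy
    have h5 : ((q0 p * p ^ n : ℕ) : ℤ) ∣ nm x * nI (R.b i) - nm y * nI (R.b i) := by
      rw [← sub_mul]
      exact (hMm.trans (nm_per _ hxy)).mul_right _
    have h6 : ((q0 p * p ^ n : ℕ) : ℤ) ∣ nm x * nI (R.b i) - c ↔
        ((q0 p * p ^ n : ℕ) : ℤ) ∣ nm y * nI (R.b i) - c := by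
      constructor
      · intro h7
        have := dvd_sub h7 h5
        rwa [sub_sub_sub_cancel_left, show nm y * (nI (R.b i) : ℤ) - c =
          nm y * (nI (R.b i) : ℤ) - c from rfl] at this
      · intro h7
        have := dvd_add h5 h7
        rwa [sub_add_sub_cancel] at this
    simp only [hF0]
    rw [he.per x y (hle hxy), (ptp1 x y hxy).2.1]
    by_cases h7 : ((q0 p * p ^ n : ℕ) : ℤ) ∣ nm x * nI (R.b i) - c
    · rw [if_pos h7, if_pos (h6.1 h7)]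
    · rw [if_neg h7, if_neg (fun h8 => h7 (h6.2 h8))]
  have hcop2 : IsCoprime ((q0 p * p ^ n : ℕ) : ℤ) ((aX p f : ℤ) ^ 2) := by
    have h5 := (hcZ.of_isCoprime_of_dvd_right hMm).symm
    exact h5.pow_right
  have hnma : ∀ x : OO A B, nm (((aX p f : ℕ) : OO A B) * x) = (aX p f : ℤ) ^ 2 * nm x := by
    intro x
    have h5 := (alg3 (aX p f : ℤ)).2
    rw [Int.cast_natCast] at h5
    rw [(alg1 _ _).2.2, h5]
  have hdv : ∀ x : OO A B, ((q0 p * p ^ n : ℕ) : ℤ) ∣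
      nm (((aX p f : ℕ) : OO A B) * x) * nI (R.b i) - (aX p f : ℤ) ^ 2 * t ↔
      ((q0 p * p ^ n : ℕ) : ℤ) ∣ nm x * nI (R.b i) - t := by
    intro x
    rw [hnma, show (aX p f : ℤ) ^ 2 * nm x * (nI (R.b i) : ℤ) - (aX p f : ℤ) ^ 2 * t =
      (aX p f : ℤ) ^ 2 * (nm x * (nI (R.b i) : ℤ) - t) by ring]
    exact ⟨fun h => hcop2.dvd_of_dvd_mul_left h, fun h => h.mul_left _⟩
  have hS1 : ∀ c, SnXE R (lvX p f n) (q0 p * p ^ n) e i c =
      muXE R i * sumMod ((lvX p f n : ℕ) : OO A B) (F0 c) := fun c => rfl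
  have hS2 : sumMod ((lvX p f n : ℕ) : OO A B) (F0 ((aX p f : ℤ) ^ 2 * t)) =
      sumMod ((lvX p f n : ℕ) : OO A B)
        (fun x => F0 ((aX p f : ℤ) ^ 2 * t) (((aX p f : ℕ) : OO A B) * x)) :=
    (sumMod_mul hcO (hper _)).symm
  rw [hS1, hS1, hS2]
  have key : sumMod ((lvX p f n : ℕ) : OO A B) (fun x =>
      if ((q0 p * p ^ n : ℕ) : ℤ) ∣ nm x * nI (R.b i) - t then
        e x * dlX (R.L i) (aX p f) (ptE R (lvX p f n) i x) else 0) =
      (aX p f : ℂ) * sumMod ((lvX p f n : ℕ) : OO A B)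
        (fun x => F0 ((aX p f : ℤ) ^ 2 * t) (((aX p f : ℕ) : OO A B) * x)) -
      (aX p f : ℂ) ^ 2 * sumMod ((lvX p f n : ℕ) : OO A B) (F0 t) := by
    rw [← sumMod_cmul, ← sumMod_cmul, ← sumMod_sub hfin]
    congr 1
    funext x
    simp only [hF0]
    by_cases h7 : ((q0 p * p ^ n : ℕ) : ℤ) ∣ nm x * nI (R.b i) - t
    · rw [if_pos h7, if_pos ((hdv x).2 h7), if_pos h7, hea, ← ptp2]
      unfold dlX
      ring
    · rw [if_neg h7, if_neg (fun h8 => h7 ((hdv x).1 h8)), if_neg h7]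
      ring
  rw [key]
  ring

end

end Pool.Agent.OEI


end

section

/-!
# OE (Theorem T+ for `ℚ(i)`, `ℚ(√-3)`), block I (helper79), second part

THE ARGUMENT as in `OT/StI.lean`. The sums over `XXE` are `1/r` times the sums over all `x`, `r = rE A B ∈ {2, 3}` (`THF`), and `v(r) = 1`.
-/

set_option autoImplicit false

open NumberField

namespace Pool.Agent.OEI

open _root_.MU3 Pool.Agent.MU3 Pool.Agent.MU3A Pool.Agent.MU3B Pool.Agent.RI Pool.Agent.RID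
  Pool.Agent.MUX Pool.Agent.ME Pool.Agent.MUXK Pool.Agent.MUXI Pool.Agent.NS Pool.Agent.NSI
  Pool.Agent.OB Pool.Agent.OBI Pool.Agent.OT Pool.Agent.OTI Pool.Agent.OE
open Pool.Agent.MU3I (zt)
open Pool.Agent.TWR (Gen)

noncomputable section

/-- (THF) the sums over `Δ` are the sums `SGX`. MODEL: `OT/I_THF.lean`, `ME/N/I_TH.lean`.

USES TSH, Ti_ZAR, Si_PTP_E. -/
def Te_THF : Prop :=
  ∀ (p : ℕ) (A B : ℤ) (f : ℕ),
    SetQ p A B f → CaseE A B → 2 ∣ f →
    ∀ g : Ideal (OO A B), idl (A := A) (B := B) (lvX p f 0) ≤ g → g ≤ idl f →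
    ∀ (ι : Type) [Fintype ι] (R : RepsE A B (p * f) ι) (n : ℕ) (z₀ : ℤ), IsZ0 p n z₀ →
    ∀ (G : Type) [Group G] [Finite G] (γ : G) (Δ : Subgroup G) [Fintype Δ]
    (X : G → Set (ι × (OO A B ⧸ idl (A := A) (B := B) (lvX p f n)))), XMFE R p f n z₀ γ Δ X →
    ∀ (χ : Δ →* ℂˣ) (e0 : OO A B → ℂ) (kp c : ι → ℂ) (w e : OO A B → ℂ) (t : ℤ → ℂ) (q₁ : ℕ),
    q₁ ≠ 0 → IsTw p q₁ t → IsEIE g e →
    (∀ x, IsCoprime x ((lvX p f 0 : ℕ) : OO A B) → e0 x * w x = e x * t (nm x)) →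
    (∀ (δ : Δ) (j : ℕ), ∀ q ∈ X (γ ^ j * (δ : G)),
      (((χ δ)⁻¹ : ℂˣ) : ℂ) = kp q.1 * e0 (Quotient.out q.2)) →
    ∀ j : ℕ,
    (rE A B : ℂ) * ∑ δ : Δ, (((χ δ)⁻¹ : ℂˣ) : ℂ) * ∑ᶠ q ∈ X (γ ^ j * (δ : G)),
        w (Quotient.out q.2) *
        c q.1 * dlX (R.L q.1) (aX p f) (ptE R (lvX p f n) q.1 (Quotient.out q.2)) =
      SGX p R (lvX p f n) (p ^ (n + 1)) (aX p f) e (kkTE R kp c t) t z₀ ((1 + (p : ℤ)) ^ j)

/-- (POW) if the product is a `p`-th power then the sum is small. MODEL: `OT/I_POW.lean`.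

USES Sn_FOU, MU3I.St_ITG. -/
def Te_POW : Prop :=
  ∀ (p : ℕ) (A B : ℤ) (P : Ideal (OO A B)) (V : ValuationSubring ℂ) (f : ℕ)
    (ι : Type) (R : RepsE A B (p * f) ι) (u : ℂ)
    (n : ℕ) (D : IntermediateField ℚ ℂ) [FiniteDimensional ℚ D] (h : kk A B ≤ D)
    (C : (letI := algC h; D ≃ₐ[kk A B] D) → ℂ) (_ : EInpOE p P V f R u n h C)
    (w : OO A B → ℂ) (_ : IsTeiP p 1 P V w),
    letI := algC h
    ∀ (_ : ∀ σ τ : D ≃ₐ[kk A B] D, σ * τ = τ * σ) (c₁ : ℂ) (hc : c₁ ∈ D) (_ : c₁ = C 1)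
      (γ : D ≃ₐ[kk A B] D) (Δ : Subgroup (D ≃ₐ[kk A B] D)) [Fintype Δ] (N k' : ℕ) (b : Δ → ℕ)
      (X : Δ →* ℂˣ) (_ : (∑ δ : Δ, (b δ : ℂ) * (X δ : ℂ)) ∉ V.nonunits) (y : D)
      (_ : y ^ p = ∏ δ : Δ, ((δ : D ≃ₐ[kk A B] D) ((Tg γ)^[N] ⟨c₁, hc⟩)) ^ b δ),
      V.valuation ((∑ j ∈ Finset.range (N + 1),
        (((-1 : ℤ) ^ (N - j) * (N.choose j : ℤ) : ℤ) : ℂ) *
        ∑ δ : Δ, (((X δ)⁻¹ : ℂˣ) : ℂ) * TTNE R w (lvX p f n)
          (aX p f) h (γ ^ (k' + j) * (δ : D ≃ₐ[kk A B] D))) / u) ≤ V.valuation (p : ℂ)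

/-- (TEU) the Teichmueller character on the units.

PROOF. The units of `O` are 12th roots of unity (`ME.unit_list`), `12` is a unit at `V`, and 12th roots of unity which are congruent are equal (`OBI.TEIx.root_eq`). -/
def Te_TEU : Prop :=
  ∀ (p : ℕ) (A B : ℤ) (P : Ideal (OO A B)) (V : ValuationSubring ℂ), CaseOE p A B P V →
    ∀ w : OO A B → ℂ, IsTeiP p 1 P V w → ∀ z : OO A B, IsUnit z → w z = emb z

/-- (EPS) the odd character, the twist `t`, the sign `s` and the type `i`.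

USES S_EPSG, TEU. PROOF. For a unit `z`: `nm z = 1`, `e z = e z t(1) = e0 z w z = emb z`. -/
def Te_EPS : Prop :=
  ∀ (p : ℕ) (A B : ℤ) (P : Ideal (OO A B)) (V : ValuationSubring ℂ) (f : ℕ)
    (_ : SetOE p A B P V f) (w : OO A B → ℂ) (_ : IsTeiP p 1 P V w)
    (e0 : OO A B → ℂ) (r : ℕ) (_ : ¬ p ∣ r)
    (_ : e0 1 = 1) (_ : e0 (-1) = 1) (_ : ∀ x y, e0 (x * y) = e0 x * e0 y)
    (_ : ∀ x y, x - y ∈ idl (A := A) (B := B) (lvX p f 0) → e0 x = e0 y)
    (_ : ∀ x, e0 x ≠ 0 ↔ IsCoprime x ((lvX p f 0 : ℕ) : OO A B))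
    (_ : ∀ x, e0 x ≠ 0 → e0 x ^ r = 1) (_ : ∀ z, IsUnit z → e0 z = 1),
    ∃ (e : OO A B → ℂ) (i : ℕ) (t : ℤ → ℂ),
      IsEIE (idl (A := A) (B := B) (p * f)) e ∧
      nI P - 1 ≤ i * (p - 1) ∧ i ≤ nI P - 2 ∧
      (∀ x, x - 1 ∈ gO P f → x ∉ P → e x = w x ^ i) ∧
      (∀ x, e x ≠ 0 → e x ^ ((nI P - 1) * r) = 1) ∧
      IsTw p (nI P - 1) t ∧
      ∀ x, IsCoprime x ((lvX p f 0 : ℕ) : OO A B) → e0 x * w x = e x * t (nm x)

/-- THE RESULT of block I for the exceptional fields (twin of `OTI.O_IT`): for all large `m`, the input (I3) of block K for `K' = K B_(m+1)`, `N = 1`, `n = 5`, and every `χ` which is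
not trivial on `Gal(K B_(m+1)/K B_m)`. Module of helper79. -/
def O_ITE : Prop :=
  ∀ (l g h : ℕ), Gen l g h →
    ∀ (p : ℕ) [Fact p.Prime] (A B : ℤ) (P : Ideal (OO A B)) (V : ValuationSubring ℂ) (f : ℕ),
    SetOE p A B P V f → l ^ h ∣ f → ∀ (hl : l ∣ f), TorXE A B →
    ∀ (ι : Type) [Fintype ι] (R : RepsE A B (p * f) ι) (u el lam : ℂ),
    GoodL V (R.L R.i0) u el lam →
    ∀ (K : IntermediateField ℚ ℂ) [FiniteDimensional ℚ K], kk A B ≤ K →
    (∃ ω ∈ K, IsPrimitiveRoot ω p) →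
    (∀ y ∈ K, y ∈ RFE (idl (A := A) (B := B) (lvX p f 0))) →
    ∀ (Bl : ℕ → IntermediateField ℚ ℂ), (∀ m, IsLayer l m (Bl m)) → Monotone Bl →
    ∃ r₀ : ℕ, ∀ m, r₀ ≤ m → ∀ (Bn : ℕ → IntermediateField ℚ ℂ)
    [FiniteDimensional ℚ ↥(K ⊔ Bl (m + 1))]
    [∀ n, FiniteDimensional ℚ ↥((K ⊔ Bl (m + 1)) ⊔ Bn n)]
    (hB : BasX p (kk A B) (K ⊔ Bl (m + 1)) Bn)
    (_ : ¬ p ∣ Module.finrank (kk A B) (IntermediateField.extendScalars hB.hk))
    (hk : kk A B ≤ (K ⊔ Bl (m + 1)) ⊔ Bn 5) (hkK : kk A B ≤ K ⊔ Bl (m + 1))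
    (C : (letI := algC hk; ↥((K ⊔ Bl (m + 1)) ⊔ Bn 5) ≃ₐ[kk A B]
      ↥((K ⊔ Bl (m + 1)) ⊔ Bn 5)) → ℂ)
    (_ : EInpOE p P V (f * l ^ (m + 1 + h)) (RLE R l (m + 1 + h) hl) u 5 hk C) (c₀ : ℂ)
    (mem : c₀ ∈ (K ⊔ Bl (m + 1)) ⊔ Bn 5) (_ : c₀ = C (letI := algC hk; 1))
    (χ : (letI := algC hkK; (↥(K ⊔ Bl (m + 1)) ≃ₐ[kk A B] ↥(K ⊔ Bl (m + 1))) →*
      (IsLocalRing.ResidueField V)ˣ)),
    (letI := algC hkK; ∃ s : ↥(K ⊔ Bl (m + 1)) ≃ₐ[kk A B] ↥(K ⊔ Bl (m + 1)),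
      (∀ x : ↥(K ⊔ Bl (m + 1)), (x : ℂ) ∈ K ⊔ Bl m → s x = x) ∧ χ s ≠ 1) →
    I3At (IsLocalRing.ResidueField V) p (kk A B) (K ⊔ Bl (m + 1)) Bn hkK χ 1 5 hk c₀ mem

end

end Pool.Agent.OEI


end

section

/-!
# OE, block J (helper19): Theorem T+ for `k = ℚ(i)`, `ℚ(√-3)`, from the input (I3) of block I to `μ = 0` for all new characters of `K B_r`

The twin of `OT/StJ.lean`; `AbK`, `LyL`, `NewC` are those of `OT/StJ.lean`. `O_ITE` is the result of the block I in the form which is used here (the twin of `OTJ.O_IT`; `OTI.O_IT` of `OT/StI.lean` is as good, see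
`OT/J_CONV.lean`). The result of this block is `Pool.Agent.OEF.O_TJE` (`OE/StF.lean`): `OE/JAll.lean`, `o_TJE (hR : O_RFINE) (hE : O_EFINE) (hI : O_ITE) : OEF.O_TJE`.
-/

set_option autoImplicit false

open NumberField IsDedekindDomain

namespace Pool.Agent.OEJ

open _root_.MU3 Pool.Agent.MU3 Pool.Agent.MU3A Pool.Agent.MU3B Pool.Agent.RI Pool.Agent.RID
  Pool.Agent.MUX Pool.Agent.ME Pool.Agent.MUXK Pool.Agent.MUXE Pool.Agent.MUXJ Pool.Agent.MUXZ
  Pool.Agent.NSI Pool.Agent.OB Pool.Agent.OE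
open Pool.Agent.OTJ (AbK LyL NewC)
open _root_.Pool.Agent.TWR (Gen)

noncomputable section

/-- THE RESULT of block I (helper79) for the exceptional fields: for all large `r`, for every new character `χ` of `Gal(K'/k)`, `K' = K₀ ⊔ Ln (r + 1)`, the element `C 1` of
`K' ⊔ Bn 5` is not a `p`-th power in the sense of (I3): `I3At .. χ 1 5`. The number `r₀` depends on everything which is fixed before it. -/
def O_ITE : Prop :=
  ∀ (p : ℕ) [Fact p.Prime] (A B : ℤ) (P : Ideal (OO A B)) (V : ValuationSubring ℂ) (f : ℕ),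
    SetOE p A B P V f → TorXE A B →
    ∀ (ι : Type) [Fintype ι] (R : RepsE A B (p * f) ι) (u el lam : ℂ),
    GoodL V (R.L R.i0) u el lam →
    ∀ (l g h : ℕ), Gen l g h → ∀ (hl : l ∣ f) (K₀ : IntermediateField ℚ ℂ)
    [FiniteDimensional ℚ K₀] (hk : kk A B ≤ K₀), AbK p hk →
    (∀ y ∈ K₀, y ∈ RFE (idl (A := A) (B := B) (lvX p f 0))) →
    ∀ Ln : ℕ → IntermediateField ℚ ℂ, LyL l Ln →
    ∃ r₀ : ℕ, ∀ r, r₀ ≤ r → ∀ (K' : IntermediateField ℚ ℂ), K' = K₀ ⊔ Ln (r + 1) →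
    ∀ (Bn : ℕ → IntermediateField ℚ ℂ) [FiniteDimensional ℚ K']
    [∀ n, FiniteDimensional ℚ ↥(K' ⊔ Bn n)] (_ : BasX p (kk A B) K' Bn)
    (hkn : kk A B ≤ K' ⊔ Bn 5) (hkK : kk A B ≤ K') (_ : AbK p hkK)
    (_ : ∀ y ∈ K', y ∈ RFE (idl (A := A) (B := B) (lvX p (f * l ^ (r + 1 + h)) 0)))
    (C : (letI := algC hkn; ↥(K' ⊔ Bn 5) ≃ₐ[kk A B] ↥(K' ⊔ Bn 5)) → ℂ),
    EInpOE p P V (f * l ^ (r + 1 + h)) (RLE R l (r + 1 + h) hl) u 5 hkn C →
    ∀ (c₀ : ℂ) (mem : c₀ ∈ K' ⊔ Bn 5), c₀ = C (letI := algC hkn; 1) →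
    ∀ χ : (letI := algC hkK; (↥K' ≃ₐ[kk A B] ↥K') →* (IsLocalRing.ResidueField V)ˣ),
      NewC hkK (K₀ ⊔ Ln r) χ →
      I3At (IsLocalRing.ResidueField V) p (kk A B) K' Bn hkK χ 1 5 hkn c₀ mem

/-- the inputs of block K for the fields `K₀ ⊔ Ln (r + 1)`, for one prime `P` -/
def InpGTE (p : ℕ) (A B : ℤ) (V : ValuationSubring ℂ) : Prop :=
  ∀ (l g h : ℕ), Gen l g h → ∀ f : ℕ, f ≠ 0 → ¬ p ∣ f → 12 ∣ f →
  2 * absD A B ∣ ((p * f : ℕ) : ℤ) →
  ∀ (K₀ : IntermediateField ℚ ℂ) [FiniteDimensional ℚ K₀] (hk : kk A B ≤ K₀), AbK p hk →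
  (∀ y ∈ K₀, y ∈ RFE (idl (A := A) (B := B) (lvX p f 0))) →
  ∀ Ln : ℕ → IntermediateField ℚ ℂ, LyL l Ln →
  ∃ r₀ : ℕ, ∀ r, r₀ ≤ r → ∀ (K' K : IntermediateField ℚ ℂ) (Bn : ℕ → IntermediateField ℚ ℂ)
    [FiniteDimensional ℚ (kk A B)] [FiniteDimensional ℚ K'] [FiniteDimensional ℚ K]
    [∀ n, FiniteDimensional ℚ ↥(K ⊔ Bn n)] [∀ n, FiniteDimensional ℚ ↥(K' ⊔ Bn n)],
    K' = K₀ ⊔ Ln (r + 1) → SetX p (kk A B) K' K Bn →
    (∀ y ∈ K, y ∈ RFE (idl (A := A) (B := B) (lvX p (f * l ^ (r + 1 + h)) 0))) →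
    (∀ y ∈ RFE (⊤ : Ideal (OO A B)), y ∈ K) →
    ∀ (hk : ∀ n, kk A B ≤ K ⊔ Bn n) (hk₀ : ∀ n, kk A B ≤ K' ⊔ Bn n) (hkK : kk A B ≤ K'),
    ∃ (S : Finset ℕ) (c c₀ : ℕ → ℂ) (n₁ : ℕ)
      (hW : InpW p (kk A B) K' K Bn hk hk₀ S c c₀ n₁),
      ∀ χ : (letI := algC hkK; (↥K' ≃ₐ[kk A B] ↥K') →* (IsLocalRing.ResidueField V)ˣ),
        NewC hkK (K₀ ⊔ Ln r) χ → ∃ m, n₁ ≤ m ∧
          I3At (IsLocalRing.ResidueField V) p (kk A B) K' Bn hkK χ 1 m (hk₀ m) (c₀ m) (hW.mem₀ m)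

end

end Pool.Agent.OEJ


end

section

/-!
# OE, block E (port of `OB/E_CFA.lean`): CFA, the ideals `P` and `Pc P` (helper96)
-/

set_option autoImplicit false

namespace Pool.Agent.OEE

open _root_.MU3 _root_.Pool.Agent.MU3A _root_.Pool.Agent.MU3B _root_.Pool.Agent.MUX
open _root_.Pool.Agent.RI _root_.Pool.Agent.NS _root_.Pool.Agent.OB
open _root_.Pool.Agent.ME hiding ActE
open _root_.Pool.Agent.MEE
open _root_.Pool.Agent.OBE (SP Ann Ker0 PtsO RepO Cp lv0 Sb_ALG Sb_PRO Sb_PUL Sb_COE Sb_GRN Sb_LEG Sb_TNC Sb_GEN Sb_UNT Sb_RAT Sb_KIS Sb_NE1 Sb_DSM)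

theorem tb_CFAE : Sb_CFAE := by
  intro p er A B P V h
  obtain ⟨-, -, hmax, -, -, -, hnP, -, h4, -, hcop, hidl⟩ :=
    tb_BASE p er A B P V h
  have hq := h.cq
  have hded : IsDedekindDomain (OO A B) := (Pool.Agent.MUXE.te_RNG A B hq).ded
  have hp0 : ((p : ℕ) : OO A B) ≠ 0 := natCast_ne_zero' hq h.pp.ne_zero
  have hPb : P ≠ ⊥ := fun e => hp0 (by simpa [e] using h.mem)
  have hib : idl (A := A) (B := B) p ≠ ⊥ := fun e => hp0 (Ideal.span_singleton_eq_bot.1 e)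
  have hPc : Pc P ≠ ⊥ := fun e => hib (by rw [hidl, e, Ideal.bot_mul])
  have hPe : P ^ er ≠ ⊥ := fun e => hib (by rw [hidl, e, Ideal.mul_bot])
  have hnp : nI (idl (A := A) (B := B) p) = p ^ 2 := by
    have h1 := nI_sp hq hp0
    rw [show idl (A := A) (B := B) p = sp ((p : ℕ) : OO A B) from rfl, h1]
    have h2 : nm ((p : ℕ) : OO A B) = (p : ℤ) ^ 2 := by
      have := nm_intCast (A := A) (B := B) (p : ℤ)
      simpa using this
    rw [h2, Int.natAbs_pow, Int.natAbs_natCast]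
  have hmul : nI (Pc P) * nI (P ^ er) = p ^ 2 := by rw [← nI_mul hq hPc hPe, ← hidl, hnp]
  have hp1 : 1 < p := h.pp.one_lt
  refine ⟨hPb, hmax, by rw [hidl, mul_comm], hPc, h.not_le hcop, ?_, by omega, ?_⟩
  · intro he
    subst he
    have h2 : nI (P ^ 2) = nI P * nI P := by rw [pow_two, nI_mul hq hPb hPb]
    rw [h2] at hmul
    rcases hnP with e | e
    · refine ⟨e, Pool.Agent.OBT.BAS.eq_top_of_nI ?_⟩
      rw [e, ← pow_two] at hmul
      have h3 : 0 < p ^ 2 := by positivity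
      exact Nat.eq_of_mul_eq_mul_right h3 (by rw [hmul, one_mul])
    · exfalso
      rw [e] at hmul
      have h3 : p ^ 2 * p ^ 2 ∣ p ^ 2 := Dvd.intro_left _ hmul
      have h5 : 0 < p ^ 2 := by positivity
      have h6 := Nat.le_of_dvd h5 h3
      have h7 : 1 < p ^ 2 := Nat.one_lt_pow two_ne_zero hp1
      have h8 : p ^ 2 * 1 < p ^ 2 * p ^ 2 := Nat.mul_lt_mul_of_pos_left h7 h5
      omega
  · intro Q hQ hpQ
    have h1 : Pc P * P ^ er ≤ Q := by
      rw [← hidl]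
      exact (Ideal.span_singleton_le_iff_mem Q).2 hpQ
    rcases (Ideal.IsPrime.mul_le hQ).1 h1 with h2 | h2
    · right
      by_cases hc : cjI P = P
      · exfalso
        rw [Pc, if_pos hc] at h2
        exact hQ.ne_top (top_le_iff.1 h2)
      · have e1 : Pc P = cjI P := by rw [Pc, if_neg hc]
        have e2 : nI (Pc P) = nI P := by rw [e1, nI_cjI hq hPb]
        have hQb : Q ≠ ⊥ := fun e => hPc (le_bot_iff.1 (e ▸ h2))
        obtain ⟨J, hJ⟩ : Q ∣ Pc P := Ideal.dvd_iff_le.2 h2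
        have hJb : J ≠ ⊥ := fun e => hPc (by rw [hJ, e, Ideal.mul_bot])
        have hr : 1 ≤ er := by
          rcases h.ram with ⟨e, -⟩ | ⟨e, -⟩ <;> omega
        have hnPp : nI P = p := by
          rcases hnP with e | e
          · exact e
          · exfalso
            rw [e2, e] at hmul
            obtain ⟨r, rfl⟩ := Nat.exists_eq_add_of_le hr
            have h5 : P ^ (1 + r) = P * P ^ r := by rw [pow_add, pow_one]
            have h6 : P ^ r ≠ ⊥ := fun e' => hPe (by rw [h5, e', Ideal.mul_bot])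
            rw [h5, nI_mul hq hPb h6, e] at hmul
            have h3 : p ^ 2 * p ^ 2 ∣ p ^ 2 := ⟨nI (P ^ r), by rw [mul_assoc]; exact hmul.symm⟩
            have h5 : 0 < p ^ 2 := by positivity
            have h6 := Nat.le_of_dvd h5 h3
            have h7 : 1 < p ^ 2 := Nat.one_lt_pow two_ne_zero hp1
            have h8 : p ^ 2 * 1 < p ^ 2 * p ^ 2 := Nat.mul_lt_mul_of_pos_left h7 h5
            omega
        have h3 : nI Q * nI J = p := by rw [← nI_mul hq hQb hJb, ← hJ, e2, hnPp]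
        have hQ1 : nI Q ≠ 1 := fun e => hQ.ne_top (Pool.Agent.OBT.BAS.eq_top_of_nI e)
        have hJ1 : nI J = 1 := by
          rcases (Nat.dvd_prime h.pp).1 (Dvd.intro _ h3) with e | e
          · exact absurd e hQ1
          · rw [e] at h3
            exact Nat.eq_of_mul_eq_mul_left h.pp.pos (by rw [h3, mul_one])
        have hJt := Pool.Agent.OBT.BAS.eq_top_of_nI hJ1
        rw [hJt, Ideal.mul_top] at hJ
        exact hJ.symm
    · left
      have hr : er ≠ 0 := by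
        rcases h.ram with ⟨e, -⟩ | ⟨e, -⟩ <;> omega
      have h3 : P ≤ Q := by
        exact (Ideal.IsPrime.pow_le_iff hr).1 h2
      exact (hmax.eq_of_le hQ.ne_top h3).symm

end Pool.Agent.OEE


end

section

/-!
# OE, block F (helper60): `S_NEWKX` from `S_NEWX`; copy of `OT/L_NEWK.lean` (helper84) with `ImQ`
-/

set_option autoImplicit false

open NumberField

namespace Pool.Agent.OEF

open _root_.Pool.Agent.RI _root_.Pool.Agent.RID _root_.Pool.Agent.MU3 _root_.Pool.Agent.OTF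

open OTF.NEWKx in
/-- NEWK -/
theorem t_NEWKX (hLAY : _root_.Pool.Agent.MUXJ.Sj_LAY) (hIFM : _root_.Pool.Agent.OBF.Sf_IFM)
    (hNEW : S_NEWX) : S_NEWKX := by
  intro p _ hp k K h hk hK l hl
  have hpp : p.Prime := Fact.out
  have hfK := hK.fin
  have hlp : Fact l.Prime := ⟨prime_l hl⟩
  have hfk : FiniteDimensional ℚ k :=
    FiniteDimensional.of_injective (IntermediateField.inclusion h).toLinearMap
      (IntermediateField.inclusion h).injective
  -- the field `K' = K(ζ)`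
  obtain ⟨ζ, hζ⟩ : ∃ ζ : ℂ, IsPrimitiveRoot ζ p :=
    ⟨_, Complex.isPrimitiveRoot_exp p hpp.ne_zero⟩
  obtain ⟨hfK', hK'⟩ := VB.abE_zeta VB.tb_NRM p hpp.pos (⟨h, hK.gal, hK.comm⟩ : VB.AbE k K) ζ hζ
  set K' : IntermediateField ℚ ℂ := K ⊔ IntermediateField.adjoin ℚ {ζ} with hK'def
  obtain ⟨hkK', hG', hc'⟩ := hK'
  have hKK' : K ≤ K' := le_sup_left
  have hζK' : ζ ∈ K' := (le_sup_right : _ ≤ K') (IntermediateField.mem_adjoin_simple_self ℚ ζ)
  -- the degree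
  have hdeg : ¬ p ∣ Module.finrank k (IntermediateField.extendScalars hkK') := by
    have e1 : IntermediateField.extendScalars hKK' = IntermediateField.adjoin K {ζ} := by
      apply le_antisymm
      · have h2 : K' ≤ (IntermediateField.adjoin K {ζ}).restrictScalars ℚ := by
          refine sup_le ?_ ?_
          · intro x hx
            exact (IntermediateField.adjoin K {ζ}).algebraMap_mem ⟨x, hx⟩
          · rw [IntermediateField.adjoin_simple_le_iff]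
            exact IntermediateField.mem_adjoin_simple_self K ζ
        exact fun x hx => h2 hx
      · rw [IntermediateField.adjoin_simple_le_iff]
        exact hζK'
    have hint : IsIntegral K ζ := (hζ.isIntegral hpp.pos).tower_top
    have e2 : Module.finrank K (IntermediateField.extendScalars hKK') < p := by
      rw [e1, IntermediateField.adjoin.finrank hint]
      have h3 : minpoly K ζ ∣ Polynomial.cyclotomic p K := by
        apply minpoly.dvd
        rw [Polynomial.aeval_def, Polynomial.eval₂_eq_eval_map, Polynomial.map_cyclotomic]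
        exact hζ.isRoot_cyclotomic hpp.pos
      have h5 := Polynomial.natDegree_le_of_dvd h3 (Polynomial.cyclotomic_ne_zero p K)
      rw [Polynomial.natDegree_cyclotomic, Nat.totient_prime hpp] at h5
      have := hpp.one_lt
      omega
    have e3 : Module.finrank k (IntermediateField.extendScalars h) *
        Module.finrank K (IntermediateField.extendScalars hKK') =
        Module.finrank k (IntermediateField.extendScalars hkK') := by
      let _ := algC h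
      let _ := algC hKK'
      let _ := algC hkK'
      have : IsScalarTower k K K' := towerC h hKK'
      rw [← finrank_algC h, ← finrank_algC hKK', ← finrank_algC hkK']
      exact Module.finrank_mul_finrank k K K'
    rw [← e3, hpp.dvd_mul, not_or]
    refine ⟨hK.prime_to, fun h0 => ?_⟩
    have h6 : 0 < Module.finrank K (IntermediateField.extendScalars hKK') := by
      have f1 : FiniteDimensional K (IntermediateField.extendScalars hKK') := by
        have h1 : FiniteDimensional ℚ (IntermediateField.extendScalars hKK') :=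
          inferInstanceAs (FiniteDimensional ℚ K')
        exact Module.Finite.of_restrictScalars_finite ℚ K _
      exact Module.finrank_pos
    have := Nat.le_of_dvd h6 h0
    omega
  have hAb : MuCyc.Abelian p hkK' := ⟨hfK', hG', hc', hdeg⟩
  obtain ⟨r₀, hr₀⟩ := hNEW p hp k K' hkK' hk hAb ⟨ζ, hζK', hζ⟩ l hl
  -- the layers
  obtain ⟨Ln, hlay, hmono, huniq⟩ := hLAY l hl
  have hex : ∃ j : ℕ, ∀ r, j ≤ r → ¬ Ln (r + 1) ≤ K' := by
    refine ⟨Module.finrank ℚ K', fun r hr hle => ?_⟩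
    have h1 : Module.finrank ℚ (Ln (r + 1)) ∣ Module.finrank ℚ K' := by
      rw [← mul_deg hle]
      exact Dvd.intro _ rfl
    rw [(hlay (r + 1)).1] at h1
    have h2 := Nat.le_of_dvd Module.finrank_pos h1
    have h3 : r + 1 < l ^ (r + 1) := Nat.lt_pow_self hlp.out.one_lt
    omega
  obtain ⟨j, hj⟩ := hex
  refine ⟨max r₀ j, fun r hr B B' hB hB' h' χ hχ => ?_⟩
  obtain rfl : B = Ln r := huniq r B hB
  obtain rfl : B' = Ln (r + 1) := huniq (r + 1) B' hB'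
  have hle : Ln r ≤ Ln (r + 1) := hmono (Nat.le_succ r)
  have hnot := hj r (le_trans (le_max_right _ _) hr)
  have h'' : k ≤ K' ⊔ Ln (r + 1) := hkK'.trans le_sup_left
  have hA1 : MuCyc.Abelian p h' := ab_sup p hp h hK hl (hlay (r + 1)) h'
  have hA2 : MuCyc.Abelian p h'' := ab_sup p hp hkK' hAb hl (hlay (r + 1)) h''
  have hf1 := hA1.fin
  have hf2 := hA2.fin
  have hLL : K ⊔ Ln (r + 1) ≤ K' ⊔ Ln (r + 1) := sup_le_sup_right hKK' _
  obtain ⟨res, -, hres⟩ := exists_res h' hLL h'' hA1.gal hA2.gal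
  refine hIFM p (by omega) k (K ⊔ Ln (r + 1)) (K' ⊔ Ln (r + 1)) h' h'' hLL hf2 hA2.gal hA2.comm
    (deg_QX p hp h'' hk hA2) χ (χ.comp res) ?_ ?_
  · intro s s' hs
    show χ (res s') = χ s
    congr 1
    apply AlgEquiv.ext
    intro x
    apply Subtype.ext
    rw [← hres s' x ⟨(x : ℂ), hLL x.2⟩ rfl]
    exact hs x ⟨(x : ℂ), hLL x.2⟩ rfl
  · refine hr₀ r (le_trans (le_max_left _ _) hr) (Ln r) (Ln (r + 1)) hB hB' h'' (χ.comp res) ?_
    obtain ⟨s, hs, hχs⟩ := hχ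
    -- `s` on `B'`
    let aC := algC h'
    let aC' := algC h''
    have g1 : IsGalois k ↥(K ⊔ Ln (r + 1)) := (isGalois_algC h').2 hA1.gal
    have g2 : IsGalois k ↥(K' ⊔ Ln (r + 1)) := (isGalois_algC h'').2 hA2.gal
    obtain ⟨t, g, ht1, ht2, hgne, hgB⟩ := exists_t l r (Ln r) (Ln (r + 1)) hB hB' hle hkK' h'' g2
      hnot
    let s₁ : ↥(K ⊔ Ln (r + 1)) ≃ₐ[k] ↥(K ⊔ Ln (r + 1)) := AlgEquiv.autCongr (extEquiv h') s
    have hs₁ : ∀ x : ↥(K ⊔ Ln (r + 1)), ((s₁ x : ↥(K ⊔ Ln (r + 1))) : ℂ) =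
        (s ⟨(x : ℂ), x.2⟩ : IntermediateField.extendScalars h') := fun x => rfl
    let _ := algC (le_sup_right : Ln (r + 1) ≤ K ⊔ Ln (r + 1))
    obtain ⟨fdB, hGB, -⟩ := LAY_thm l (r + 1) (Ln (r + 1)) (hlay (r + 1))
    have tB : IsScalarTower ℚ (Ln (r + 1)) ↥(K ⊔ Ln (r + 1)) :=
      IsScalarTower.of_algebraMap_eq (fun _ => rfl)
    let g₁ : ↥(Ln (r + 1)) ≃ₐ[ℚ] ↥(Ln (r + 1)) :=
      AlgEquiv.restrictNormalHom ↥(Ln (r + 1)) (s₁.restrictScalars ℚ)
    have hg₁ : ∀ (x : ↥(K ⊔ Ln (r + 1))) (y : ↥(Ln (r + 1))), (x : ℂ) = y →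
        ((s₁ x : ↥(K ⊔ Ln (r + 1))) : ℂ) = (g₁ y : ↥(Ln (r + 1))) := by
      intro x y hxy
      have h2 := AlgEquiv.restrictNormal_commutes (s₁.restrictScalars ℚ) ↥(Ln (r + 1)) y
      have h3 : x = algebraMap ↥(Ln (r + 1)) ↥(K ⊔ Ln (r + 1)) y := Subtype.ext hxy
      rw [h3]
      exact (congrArg Subtype.val h2).symm
    have hg₁B : ∀ x : ↥(Ln (r + 1)), (x : ℂ) ∈ Ln r → g₁ x = x := by
      intro x hx
      apply Subtype.ext
      rw [← hg₁ ⟨(x : ℂ), (le_sup_right : Ln (r + 1) ≤ K ⊔ Ln (r + 1)) x.2⟩ x rfl, hs₁]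
      exact congrArg Subtype.val (hs ⟨(x : ℂ), (le_sup_right : Ln (r + 1) ≤ K ⊔ Ln (r + 1)) x.2⟩
        ((le_sup_right : Ln r ≤ K ⊔ Ln r) hx))
    obtain ⟨m, hm⟩ := lay_pow l r (Ln r) (Ln (r + 1)) hB hB' hle g₁ g hg₁B hgB hgne
    -- the power of `t`
    have htm : ∀ (n : ℕ), (∀ x : ↥(K' ⊔ Ln (r + 1)), (x : ℂ) ∈ K' → (t ^ n) x = x) ∧
        ∀ (x : ↥(K' ⊔ Ln (r + 1))) (y : ↥(Ln (r + 1))), (x : ℂ) = y →
          (((t ^ n) x : ↥(K' ⊔ Ln (r + 1))) : ℂ) = ((g ^ n) y : ↥(Ln (r + 1))) := by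
      intro n
      induction n with
      | zero => exact ⟨fun x _ => rfl, fun x y hxy => hxy⟩
      | succ n ih =>
        obtain ⟨i1, i2⟩ := ih
        refine ⟨fun x hx => ?_, fun x y hxy => ?_⟩
        · rw [pow_succ, AlgEquiv.mul_apply, ht1 x hx, i1 x hx]
        · rw [pow_succ, pow_succ, AlgEquiv.mul_apply, AlgEquiv.mul_apply]
          exact i2 _ _ (ht2 x y hxy)
    obtain ⟨w1, w2⟩ := htm m
    let u : MuCyc.Gal h'' := (AlgEquiv.autCongr (extEquiv h'')).symm (t ^ m)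
    have hu : ∀ x : IntermediateField.extendScalars h'',
        ((u x : IntermediateField.extendScalars h'') : ℂ) =
          ((t ^ m) ⟨(x : ℂ), x.2⟩ : ↥(K' ⊔ Ln (r + 1))) := fun x => rfl
    refine ⟨u, ?_, ?_⟩
    · intro x hx
      apply Subtype.ext
      rw [hu]
      have h3 := ext_sup (K := K') (B := Ln r) (C := K' ⊔ Ln (r + 1))
        (((K' ⊔ Ln (r + 1)).val : ↥(K' ⊔ Ln (r + 1)) →+* ℂ).comp
          ((t ^ m : ↥(K' ⊔ Ln (r + 1)) ≃ₐ[k] ↥(K' ⊔ Ln (r + 1))) :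
            ↥(K' ⊔ Ln (r + 1)) →+* ↥(K' ⊔ Ln (r + 1))))
        ((K' ⊔ Ln (r + 1)).val : ↥(K' ⊔ Ln (r + 1)) →+* ℂ)
        (fun y hy => congrArg Subtype.val (w1 y hy))
        (fun y hy => by
          have h4 := w2 y ⟨(y : ℂ), hle hy⟩ rfl
          rw [← hm, hg₁B ⟨(y : ℂ), hle hy⟩ hy] at h4
          exact h4)
        le_sup_left (hle.trans le_sup_right) ⟨(x : ℂ), x.2⟩ hx
      exact h3
    · have h3 : res u = s := by
        apply AlgEquiv.ext
        intro x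
        apply Subtype.ext
        rw [← hres u x ⟨(x : ℂ), hLL x.2⟩ rfl, hu]
        have h4 := ext_sup (K := K) (B := Ln (r + 1)) (C := K ⊔ Ln (r + 1))
          ((((K' ⊔ Ln (r + 1)).val : ↥(K' ⊔ Ln (r + 1)) →+* ℂ).comp
            ((t ^ m : ↥(K' ⊔ Ln (r + 1)) ≃ₐ[k] ↥(K' ⊔ Ln (r + 1))) :
              ↥(K' ⊔ Ln (r + 1)) →+* ↥(K' ⊔ Ln (r + 1)))).comp
            (IntermediateField.inclusion hLL : ↥(K ⊔ Ln (r + 1)) →+* ↥(K' ⊔ Ln (r + 1))))
          (((K ⊔ Ln (r + 1)).val : ↥(K ⊔ Ln (r + 1)) →+* ℂ).comp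
            ((s₁ : ↥(K ⊔ Ln (r + 1)) ≃ₐ[k] ↥(K ⊔ Ln (r + 1))) :
              ↥(K ⊔ Ln (r + 1)) →+* ↥(K ⊔ Ln (r + 1))))
          (fun y hy => by
            have h5 : (t ^ m) ⟨(y : ℂ), hLL y.2⟩ = ⟨(y : ℂ), hLL y.2⟩ := w1 _ (hKK' hy)
            have h6 : s ⟨(y : ℂ), y.2⟩ = ⟨(y : ℂ), y.2⟩ :=
              hs ⟨(y : ℂ), y.2⟩ ((le_sup_left : K ≤ K ⊔ Ln r) hy)
            show (((t ^ m) ⟨(y : ℂ), hLL y.2⟩ : ↥(K' ⊔ Ln (r + 1))) : ℂ) =
              ((s₁ y : ↥(K ⊔ Ln (r + 1))) : ℂ)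
            rw [h5, hs₁, h6])
          (fun y hy => by
            have h5 := w2 ⟨(y : ℂ), hLL y.2⟩ ⟨(y : ℂ), hy⟩ rfl
            have h6 := hg₁ y ⟨(y : ℂ), hy⟩ rfl
            show (((t ^ m) ⟨(y : ℂ), hLL y.2⟩ : ↥(K' ⊔ Ln (r + 1))) : ℂ) =
              ((s₁ y : ↥(K ⊔ Ln (r + 1))) : ℂ)
            rw [h5, h6, hm])
          le_sup_left le_sup_right ⟨(x : ℂ), x.2⟩ x.2
        exact h4
      show χ (res u) ≠ 1
      rw [h3]
      exact hχs

end Pool.Agent.OEF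


end

section

/-!
# OE, block F (helper60): `FinalTX` from `S_NEWKX`; copy of `OT/F_T2.lean` with `ImQ`
-/

set_option autoImplicit false

open NumberField

namespace Pool.Agent.OEF

open _root_.Pool.Agent.MuCyc Pool.Agent.OBF Pool.Agent.OTF

/-- (1) the characters -/
theorem chars (hNEW : S_NEWKX) (hIFR : OT.S_IFR) (hLAY : MUXJ.Sj_LAY) (p : ℕ) [Fact p.Prime]
    (hp : 5 ≤ p) (k K : IntermediateField ℚ ℂ) (h : k ≤ K) (hk : ImQ k) (hK : Abelian p h)
    (l : ℕ) (hl : l = 2 ∨ l = 3) :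
    ∃ (r₀ : ℕ) (B₀ : IntermediateField ℚ ℂ), IsLayer l r₀ B₀ ∧
      ∀ (r : ℕ) (B : IntermediateField ℚ ℂ), IsLayer l r B →
        ∀ (hB : k ≤ K ⊔ B) (χ : Chr p hB),
        (∃ s : Gal hB, (∀ x : IntermediateField.extendScalars hB, (x : ℂ) ∈ K ⊔ B₀ → s x = x) ∧
          χ s ≠ 1) → MuZeroC p hB χ := by
  classical
  obtain ⟨Bl, hlay, hmono, hu⟩ := hLAY l hl
  obtain ⟨r₀, hr₀⟩ := hNEW p hp k K h hk hK l hl
  refine ⟨r₀, Bl r₀, hlay r₀, ?_⟩
  intro r B hB hB' χ hχ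
  obtain rfl : B = Bl r := hu r B hB
  have hAb : ∀ (j : ℕ) (hj : k ≤ K ⊔ Bl j), Abelian p hj := fun j hj =>
    ab_sup p hp h hK hl (hlay j) hj
  have hkj : ∀ j, k ≤ K ⊔ Bl j := fun j => h.trans le_sup_left
  have hA := hAb r hB'
  have := hA.fin
  obtain ⟨s₀, hs₀, hχs⟩ := hχ
  let P : ℕ → Prop := fun j => ∀ s : Gal hB',
    (∀ x : IntermediateField.extendScalars hB', (x : ℂ) ∈ K ⊔ Bl j → s x = x) → χ s = 1
  have hPr : P r := by
    intro s hs
    have : s = 1 := by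
      apply AlgEquiv.ext
      intro x
      exact hs x x.2
    rw [this, map_one]
  have hPmono : ∀ i j, i ≤ j → P i → P j := by
    intro i j hij hi s hs
    exact hi s fun x hx => hs x ((sup_le_sup_left (hmono hij) K) hx)
  have hex : ∃ j, P j := ⟨r, hPr⟩
  have hP0 : ¬ P r₀ := fun h0 => hχs (h0 s₀ hs₀)
  have hlt : r₀ < Nat.find hex := by
    by_contra h0
    exact hP0 (hPmono _ _ (not_lt.1 h0) (Nat.find_spec hex))
  obtain ⟨j, hj⟩ : ∃ j, Nat.find hex = j + 1 := ⟨Nat.find hex - 1, by omega⟩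
  have hPj : ¬ P j := Nat.find_min hex (by omega)
  have hPj1 : P (j + 1) := by
    rw [← hj]
    exact Nat.find_spec hex
  have hjr : j + 1 ≤ r := by
    rw [← hj]
    exact Nat.find_min' hex hPr
  -- the character of the smaller field
  have hle : K ⊔ Bl (j + 1) ≤ K ⊔ Bl r := sup_le_sup_left (hmono hjr) K
  have hA1 := hAb (j + 1) (hkj (j + 1))
  obtain ⟨χ₁, hχ₁⟩ := factor p (hkj (j + 1)) hle hB' hA1.gal hA.gal χ hPj1
  obtain ⟨res, -, hres⟩ := exists_res (hkj (j + 1)) hle hB' hA1.gal hA.gal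
  have hm : MuZeroC p (hkj (j + 1)) χ₁ := by
    refine hr₀ j (by omega) (Bl j) (Bl (j + 1)) (hlay j) (hlay (j + 1)) (hkj (j + 1)) χ₁ ?_
    by_contra h0
    push Not at h0
    apply hPj
    intro s hs
    rw [hχ₁ (res s) s (fun x x' hx => hres s x x' hx)]
    apply h0
    intro x hx
    apply Subtype.ext
    rw [← hres s x ⟨x, hle x.2⟩ rfl, hs ⟨x, hle x.2⟩ hx]
  exact hIFR p (by omega) k (K ⊔ Bl (j + 1)) (K ⊔ Bl r) (hkj (j + 1)) hB' hle hA.fin hA.gal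
    hA.comm (deg_QX p hp hB' hk hA) χ₁ χ (fun s s' hss => hχ₁ s s' hss) hm

/-- (2) class numbers -/
theorem fields (hIFM : Sf_IFM) (hREL : Sf_REL) (p : ℕ) [Fact p.Prime]
    (hp : 5 ≤ p) (k K : IntermediateField ℚ ℂ) (h : k ≤ K) (hk : ImQ k) (hK : Abelian p h)
    (l : ℕ) (hl : l = 2 ∨ l = 3) (B₀ : IntermediateField ℚ ℂ)
    (r : ℕ) (B : IntermediateField ℚ ℂ) (hB : IsLayer l r B)
    (hχ : ∀ (hB : k ≤ K ⊔ B) (χ : Chr p hB),
        (∃ s : Gal hB, (∀ x : IntermediateField.extendScalars hB, (x : ℂ) ∈ K ⊔ B₀ → s x = x) ∧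
          χ s ≠ 1) → MuZeroC p hB χ)
    (L : IntermediateField ℚ ℂ) (hkL : k ≤ L) (hL : L ≤ K ⊔ B) : MuLE p L (L ⊓ (K ⊔ B₀)) := by
  have hkB : k ≤ K ⊔ B := h.trans le_sup_left
  have hA := ab_sup p hp h hK hl hB hkB
  have := hA.fin
  have hfL : FiniteDimensional ℚ L :=
    FiniteDimensional.of_injective (IntermediateField.inclusion hL).toLinearMap
      (IntermediateField.inclusion hL).injective
  obtain ⟨hGL, hcL⟩ := sub_ab hkL hL hkB hA.gal hA.comm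
  have hdM : ¬ p ∣ Module.finrank ℚ ↥(K ⊔ B) := deg_QX p hp hkB hk hA
  have hdL : ¬ p ∣ Module.finrank ℚ L := fun h0 => hdM ((mul_deg hL) ▸ h0.mul_right _)
  have hk' : k ≤ L ⊓ (K ⊔ B₀) := le_inf hkL (h.trans le_sup_left)
  refine hREL p (by omega) k (L ⊓ (K ⊔ B₀)) L hk' inf_le_left hkL hfL hGL hcL hdL ?_
  rintro χ ⟨s, hs, hχs⟩
  obtain ⟨res, hsur, hres⟩ := exists_res hkL hL hkB hGL hA.gal
  have hss : ∀ (s : Gal hkL) (s' : Gal hkB), (∀ (x : IntermediateField.extendScalars hkL)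
      (x' : IntermediateField.extendScalars hkB), (x' : ℂ) = x →
        ((s' x' : IntermediateField.extendScalars hkB) : ℂ) =
          (s x : IntermediateField.extendScalars hkL)) → (χ.comp res) s' = χ s := by
    intro s s' h1
    show χ (res s') = χ s
    rw [res_unique hL hres s s' h1]
  refine hIFM p (by omega) k L (K ⊔ B) hkL hkB hL hA.fin hA.gal hA.comm hdM χ (χ.comp res) hss ?_
  apply hχ
  by_contra h0
  push Not at h0
  -- `χ ∘ res` is trivial on `Gal(M/K B₀)` and on `Gal(M/L)`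
  have h1 : ∀ s : Gal hkB, (∀ x : IntermediateField.extendScalars hkB, (x : ℂ) ∈ L → s x = x) →
      (χ.comp res) s = 1 := by
    intro s hs
    show χ (res s) = 1
    have h2 : res s = 1 := by
      apply AlgEquiv.ext
      intro x
      apply Subtype.ext
      rw [← hres s x ⟨x, hL x.2⟩ rfl, hs ⟨x, hL x.2⟩ x.2]
      rfl
    rw [h2, map_one]
  have h3 : ∀ s : Gal hkB, (∀ x : IntermediateField.extendScalars hkB,
      (x : ℂ) ∈ (K ⊔ B₀) ⊓ (K ⊔ B) → s x = x) → (χ.comp res) s = 1 :=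
    fun s hs => h0 s fun x hx => hs x ⟨hx, x.2⟩
  obtain ⟨s', rfl⟩ := hsur s
  apply hχs
  refine two_fields hkL (le_inf (h.trans le_sup_left) hkB) hL inf_le_right hkB hA.gal
    (χ.comp res) h1 h3 s' ?_
  intro x hx
  have hxL : (x : ℂ) ∈ L := hx.1
  have h4 := hs ⟨x, hxL⟩ ⟨hxL, hx.2.1⟩
  apply Subtype.ext
  rw [hres s' ⟨x, hxL⟩ x rfl, h4]

/-- The final statement from `S_NEWKX`. -/
theorem final_T (hNEW : S_NEWKX) (hIFR : OT.S_IFR) (hIFM : Sf_IFM) (hREL : Sf_REL)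
    (hLAY : MUXJ.Sj_LAY) : FinalTX := by
  intro p _ hp k K h hk hK l hl
  obtain ⟨r₀, B₀, h0, h1⟩ := chars hNEW hIFR hLAY p hp k K h hk hK l hl
  refine ⟨r₀, B₀, h0, fun r B hB => ⟨h1 r B hB, fun L hkL hL => ?_⟩⟩
  exact fields hIFM hREL p hp k K h hk hK l hl B₀ r B hB (h1 r B hB) L hkL hL

end Pool.Agent.OEF


end

section

/-!
# OE: elementary facts on `P` and `V` for `CaseG` (copy of `OB/T_BAS.lean`)
-/

set_option autoImplicit false

namespace Pool.Agent.OE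

open _root_.MU3 Pool.Agent.MU3A Pool.Agent.MU3B Pool.Agent.RI Pool.Agent.MUX Pool.Agent.MUXU
open Pool.Agent.NS Pool.Agent.OB


open Pool.Agent.OBT.BAS

theorem o_BASG : S_BASG := by
  intro p er A B P V h
  have hq := h.cq
  have hded : IsDedekindDomain (OO A B) := (Pool.Agent.MUXE.te_RNG A B hq).ded
  have hP := h.prime
  have hp0 : ((p : ℕ) : OO A B) ≠ 0 := natCast_ne_zero' hq h.pp.ne_zero
  have hPb : P ≠ ⊥ := fun e => hp0 (by simpa [e] using h.mem)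
  have hmax : P.IsMaximal := hP.isMaximal hPb
  have hv : V.valuation (p : ℂ) < 1 := by
    have h1 := (h.hV ((p : ℕ) : OO A B)).2 h.mem
    rw [emb_natCast hq] at h1
    exact (V.mem_nonunits_iff).1 h1
  have hib : idl (A := A) (B := B) p ≠ ⊥ := fun e =>
    hp0 (Ideal.span_singleton_eq_bot.1 e)
  obtain ⟨Q, hQ⟩ : P ∣ idl (A := A) (B := B) p := Ideal.dvd_iff_le.2 (idl_dvd h.mem)
  have hQb : Q ≠ ⊥ := fun e => hib (by rw [hQ, e, Ideal.mul_bot])
  have hnp : nI (idl (A := A) (B := B) p) = p ^ 2 := by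
    have h1 := nI_sp hq hp0
    rw [show idl (A := A) (B := B) p = sp ((p : ℕ) : OO A B) from rfl, h1]
    have h2 : nm ((p : ℕ) : OO A B) = (p : ℤ) ^ 2 := by
      have := nm_intCast (A := A) (B := B) (p : ℤ)
      simpa using this
    rw [h2, Int.natAbs_pow, Int.natAbs_natCast]
  have hmul : nI P * nI Q = p ^ 2 := by rw [← nI_mul hq hPb hQb, ← hQ, hnp]
  have hn1 : nI P ≠ 1 := fun e => hP.ne_top (eq_top_of_nI e)
  have hcase : nI P = p ∨ nI P = p ^ 2 := by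
    obtain ⟨i, hi, hi2⟩ := (Nat.dvd_prime_pow h.pp).1 (Dvd.intro _ hmul)
    interval_cases i
    · exact absurd hi2 (by simpa using hn1)
    · exact Or.inl (by simpa using hi2)
    · exact Or.inr hi2
  have hp5 := h.p5
  have hd : ¬ p ∣ nI P - 1 := by
    intro hd
    have h1 : p ∣ nI P := by
      rcases hcase with e | e
      · rw [e]
      · rw [e]
        exact dvd_pow_self p two_ne_zero
    have h2 : 1 ≤ nI P := by
      rcases hcase with e | e <;> rw [e]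
      · omega
      · exact Nat.one_le_pow _ _ (by omega)
    have h3 : p ∣ 1 := by
      have := (Nat.dvd_sub h1 hd)
      rwa [Nat.sub_sub_self h2] at this
    have := Nat.le_of_dvd one_pos h3
    omega
  have h4 : 4 ≤ nI P - 1 := by
    rcases hcase with e | e <;> rw [e]
    · omega
    · have : 5 * 5 ≤ p ^ 2 := by
        rw [pow_two]
        exact Nat.mul_le_mul hp5 hp5
      omega
  have hy : ∃ y : OO A B, (∀ x ∈ P, ∃ z, x * y = (p : OO A B) * z) ∧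
      ∀ z, y ≠ (p : OO A B) * z := by
    have h1 : ¬ Q ≤ idl (A := A) (B := B) p := by
      intro h1
      have h2 : ⊤ * Q ≤ P * Q := by
        rw [← hQ, Ideal.top_mul]
        exact h1
      rw [mul_comm ⊤ Q, mul_comm P Q] at h2
      exact hP.ne_top (top_le_iff.1 ((mul_le_mul_iff hq hQb).1 h2))
    obtain ⟨y, hyQ, hyp⟩ := SetLike.not_le_iff_exists.1 h1
    refine ⟨y, fun x hx => ?_, fun z hz => hyp ?_⟩
    · have h2 : x * y ∈ idl (A := A) (B := B) p := by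
        rw [hQ]
        exact Ideal.mul_mem_mul hx hyQ
      obtain ⟨z, hz⟩ := Ideal.mem_span_singleton.1 h2
      exact ⟨z, hz⟩
    · rw [hz]
      exact Ideal.mem_span_singleton.2 ⟨z, rfl⟩
  have hlast : IsCoprime (Pc P) P ∧ idl (A := A) (B := B) p = Pc P * P ^ er := by
    have hPP := mul_cjI hq hPb
    rcases hcase with e | e
    · have e1 : P * cjI P = idl (A := A) (B := B) p := by rw [hPP, e]
      by_cases hc : cjI P = P
      · have hPc : Pc P = ⊤ := by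
          unfold Pc
          rw [if_pos hc]
        have e2 : P * P = idl (A := A) (B := B) p := by
          have e3 := e1
          rwa [hc] at e3
        have her : er = 2 := by
          rcases h.ram with ⟨-, h1⟩ | ⟨h1, -⟩
          · exact absurd (not_mem_sq e2) h1
          · exact h1
        rw [hPc, her, Ideal.top_mul, pow_two]
        exact ⟨top_coprime P, e2.symm⟩
      · have hPc : Pc P = cjI P := by
          unfold Pc
          rw [if_neg hc]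
        have hpr : (cjI P).IsPrime := by
          unfold cjI
          exact Ideal.IsPrime.comap _
        have hmx : (cjI P).IsMaximal := hpr.isMaximal (cjI_ne_bot hq hPb)
        have her : er = 1 := by
          rcases h.ram with ⟨h1, -⟩ | ⟨-, h1⟩
          · exact h1
          · exfalso
            have h2 : P * cjI P ≤ P * P := by
              rw [e1, ← pow_two]
              exact idl_dvd h1
            exact hc (hmx.eq_of_le hP.ne_top ((mul_le_mul_iff hq hPb).1 h2))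
        rw [hPc]
        refine ⟨Ideal.isCoprime_iff_sup_eq.2 (hmx.coprime_of_ne hmax hc), ?_⟩
        rw [her, pow_one, mul_comm, e1]
    · have hQ1 : nI Q = 1 := by
        have h1 : p ^ 2 * nI Q = p ^ 2 * 1 := by rw [← e, hmul, mul_one, e]
        exact Nat.eq_of_mul_eq_mul_left (pow_pos h.pp.pos 2) h1
      have hPi : idl (A := A) (B := B) p = P := by rw [hQ, eq_top_of_nI hQ1, Ideal.mul_top]
      have hc : cjI P = P := by
        apply mul_cancel hq hPb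
        rw [hPP, e]
        conv_rhs => rw [← hPi]
        rw [show sp ((p ^ 2 : ℕ) : OO A B) = idl (A := A) (B := B) (p ^ 2) from rfl, idl, idl,
          Ideal.span_singleton_mul_span_singleton]
        congr 2
        push_cast
        ring
      have hPc : Pc P = ⊤ := by
        unfold Pc
        rw [if_pos hc]
      have her : er = 1 := by
        rcases h.ram with ⟨h1, -⟩ | ⟨-, h1⟩
        · exact h1
        · exfalso
          have h2 : P * ⊤ ≤ P * P := by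
            rw [Ideal.mul_top, ← pow_two]
            conv_lhs => rw [← hPi]
            exact idl_dvd h1
          exact hP.ne_top (top_le_iff.1 ((mul_le_mul_iff hq hPb).1 h2))
      rw [hPc]
      refine ⟨top_coprime P, ?_⟩
      rw [Ideal.top_mul, her, pow_one, hPi]
  refine ⟨hv, ?_, hmax, fun x => ?_, fun x => ?_, fun n hn => nat_unit h.pp hv hn, hcase, hd, h4,
    hy, hlast.1, hlast.2⟩
  · have h1 : ¬ p ∣ 2 := fun h1 => by
      have := Nat.le_of_dvd two_pos h1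
      omega
    exact_mod_cast nat_unit h.pp hv h1
  · exact (V.valuation_le_one_iff _).2 (integral_mem V (Pool.Agent.MUXE.RNGaux.emb_int hq x))
  · rw [← h.hV x, V.mem_nonunits_iff]

end Pool.Agent.OE


end

section

/-!
# OE: existence of the Teichmueller character for `CaseG` (copy of `OB/I_TEI.lean`)

`N = nI P - 1` is prime to `p` and `x ^ N ≡ 1` modulo `P` for `x ∉ P`. For such an `x` there is exactly one
`N`-th root of unity `η` with `v (emb x - η) < 1`, and then `v (emb x - η) ^ er ≤ v p`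
(the product of the `emb x - η` is `emb x ^ N - 1`, and different `N`-th roots of unity differ by units at `V`).
Put `w x = η`, and `w x = 0` for `x ∈ P`; everything follows from the uniqueness.
-/

set_option autoImplicit false

namespace Pool.Agent.OE

open _root_.MU3 Pool.Agent.MU3 Pool.Agent.MU3A Pool.Agent.MU3B Pool.Agent.RI Pool.Agent.RID
  Pool.Agent.MUX Pool.Agent.MUXK Pool.Agent.MUXI Pool.Agent.NS Pool.Agent.NSI Pool.Agent.OB
open Pool.Agent.MU3I (zt)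

noncomputable section


open Pool.Agent.OBI.TEIx in
/-- (TEI) existence of the Teichmueller character -/
theorem o_TEIG (h1 : S_BASG) (h2 : S_PRFG) : S_TEIG := by
  classical
  intro p er A B P V hC
  have hc : CQ A B := hC.cq
  obtain ⟨vp, -, -, hV1, -, hnat, -, hnq, hq4, -, -, -⟩ := h1 p er A B P V hC
  obtain ⟨-, hP2, hP3, -, -⟩ := h2 p er A B P V hC
  have hP : P.IsPrime := hC.prime
  set N := nI P - 1 with hNd
  have hN : N ≠ 0 := by omega
  have vN : V.valuation (N : ℂ) = 1 := hnat N hnq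
  have hex : ∀ x : OO A B, x ∉ P →
      ∃ η : ℂ, η ^ N = 1 ∧ V.valuation (η - emb x) ^ er ≤ V.valuation (p : ℂ) := by
    intro x hx
    refine exists_root hN vN vp ?_
    have h3 := hP2 _ (hP3 x hx)
    rwa [emb_sub hc, emb_pow hc, emb_one hc] at h3
  choose η hη8 hηv using hex
  have key : ∀ (x : OO A B) (hx : x ∉ P) (ξ : ℂ), ξ ^ N = 1 →
      V.valuation (ξ - emb x) < 1 → η x hx = ξ := by
    intro x hx ξ hξ hv
    refine root_eq hN vN (hη8 x hx) hξ ?_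
    have e1 : η x hx - ξ = (η x hx - emb x) - (ξ - emb x) := by ring
    rw [e1]
    exact lt_of_le_of_lt (V.valuation.map_sub _ _) (max_lt (lt_of_pow vp (hηv x hx)) hv)
  refine ⟨fun x => if hx : x ∈ P then 0 else η x hx, ?_, ?_, ?_, ?_, ?_, ?_⟩
  · have h3 : (1 : OO A B) ∉ P := (Ideal.ne_top_iff_one _).1 hP.ne_top
    rw [dif_neg h3]
    refine key 1 h3 1 (one_pow N) ?_
    rw [emb_one hc, sub_self, map_zero]
    exact zero_lt_one
  · intro x y
    by_cases hx : x ∈ P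
    · rw [dif_pos hx, dif_pos (Ideal.mul_mem_right y _ hx), zero_mul]
    · by_cases hy : y ∈ P
      · rw [dif_pos hy, dif_pos (Ideal.mul_mem_left _ x hy), mul_zero]
      · have hxy : x * y ∉ P := fun h => (hP.mem_or_mem h).elim hx hy
        rw [dif_neg hx, dif_neg hy, dif_neg hxy]
        refine key (x * y) hxy _ (by rw [mul_pow, hη8, hη8, one_mul]) ?_
        have e1 : η x hx * η y hy - emb (x * y) =
            η x hx * (η y hy - emb y) + emb y * (η x hx - emb x) := by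
          rw [emb_mul hc]
          ring
        rw [e1]
        refine lt_of_le_of_lt (V.valuation.map_add _ _) (max_lt ?_ ?_)
        · rw [map_mul, v_root hN (hη8 x hx), one_mul]
          exact lt_of_pow vp (hηv y hy)
        · rw [map_mul]
          exact lt_of_le_of_lt (mul_le_of_le_one_left' (hV1 y)) (lt_of_pow vp (hηv x hx))
  · intro x y hxy
    by_cases hx : x ∈ P
    · have hy : y ∈ P := by
        have h := Ideal.sub_mem _ hx hxy
        rwa [sub_sub_cancel] at h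
      rw [dif_pos hx, dif_pos hy]
    · have hy : y ∉ P := by
        intro h
        apply hx
        have h := Ideal.add_mem _ hxy h
        rwa [sub_add_cancel] at h
      rw [dif_neg hx, dif_neg hy]
      refine key x hx _ (hη8 y hy) ?_
      have e1 : η y hy - emb x = (η y hy - emb y) - emb (x - y) := by
        rw [emb_sub hc]
        ring
      rw [e1]
      exact lt_of_le_of_lt (V.valuation.map_sub _ _)
        (max_lt (lt_of_pow vp (hηv y hy)) (lt_of_pow vp (hP2 _ hxy)))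
  · intro x hx
    rw [dif_pos hx]
  · intro x hx
    rw [dif_neg hx]
    exact hη8 x hx
  · intro x
    by_cases hx : x ∈ P
    · rw [dif_pos hx, zero_sub, Valuation.map_neg]
      exact hP2 x hx
    · rw [dif_neg hx]
      exact hηv x hx

end

end Pool.Agent.OE


end

section

/-!
# OE, block J (helper19): the result of block I (helper79) in the form of `StJ.lean`

After `OT/J_CONV.lean`.
-/

set_option autoImplicit false

open NumberField IsDedekindDomain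

namespace Pool.Agent.OEJ

open _root_.MU3 Pool.Agent.MU3 Pool.Agent.MU3A Pool.Agent.MU3B Pool.Agent.RI Pool.Agent.RID
  Pool.Agent.MUX Pool.Agent.ME Pool.Agent.MUXK Pool.Agent.MUXE Pool.Agent.MUXJ Pool.Agent.MUXZ
  Pool.Agent.NSI Pool.Agent.OB Pool.Agent.OE
open Pool.Agent.OTJ (AbK LyL NewC)
open _root_.Pool.Agent.TWR (Gen)

/-- the result of block I -/
theorem t_ITE (hI : OEI.O_ITE) : O_ITE := by
  intro p _ A B P V f hS T ι _ R u el lam hGL l g h hG hl K₀ _ hk hA hK₀ Ln hL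
  have hlh : l ^ h ∣ f := by
    refine Dvd.dvd.trans ?_ hS.f12
    rcases hG with ⟨rfl, -, rfl⟩ | ⟨rfl, -, rfl⟩ <;> norm_num
  obtain ⟨r₀, hr₀⟩ := hI l g h hG p A B P V f hS hlh hl T ι R u el lam hGL K₀ hk hA.om hK₀
    Ln hL.lay hL.mono
  refine ⟨r₀, fun r hr K' hKeq Bn _ _ hB hkn hkK hAK _ C hE c₀ mem hc χ hχ => ?_⟩
  subst hKeq
  exact hr₀ r hr Bn hB hAK.cop hkn hkK C hE c₀ mem hc χ hχ

end Pool.Agent.OEJ


end

section

/-!
# OE, block I, the final theorem (helper79); model: `OT/I_I31T.lean`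
-/

set_option autoImplicit false

namespace Pool.Agent.OEI

open _root_.MU3 Pool.Agent.MU3 Pool.Agent.MU3A Pool.Agent.MU3B Pool.Agent.RI Pool.Agent.RID
  Pool.Agent.MUX Pool.Agent.ME Pool.Agent.MUXK Pool.Agent.MUXI Pool.Agent.NS Pool.Agent.NSI
  Pool.Agent.OB Pool.Agent.OBI Pool.Agent.OT Pool.Agent.OTI Pool.Agent.OE
open Pool.Agent.MU3I (zt)
open Pool.Agent.TWR (Gen)

noncomputable section

lemma setQ_OE {p : ℕ} {A B : ℤ} {P : Ideal (OO A B)} {V : ValuationSubring ℂ} {f : ℕ}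
    (h : SetOE p A B P V f) : SetQ p A B f :=
  ⟨h.toCQ, h.pp, by have := h.p5; omega, h.f0⟩

namespace ITEx

lemma nI_ne {p f : ℕ} (hp : p.Prime) {A B : ℤ} {ι : Type} (R : RepsE A B (p * f) ι) (i : ι) :
    ¬ (p : ℤ) ∣ (nI (R.b i) : ℤ) := by
  intro h
  have h1 : p ∣ nI (R.b i) := by exact_mod_cast h
  have h2 : (nI (R.b i)).Coprime p := (R.cop i).coprime_mul_right_right
  have h3 := Nat.dvd_gcd h1 (dvd_refl p)
  rw [h2] at h3
  exact hp.one_lt.ne' (Nat.dvd_one.1 h3)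

lemma muX_ne' {p f : ℕ} (hp : p.Prime) {A B : ℤ} {ι : Type} (R : RepsE A B (p * f) ι) (i : ι) :
    muXE R i ≠ 0 := by
  have h1 : nI (R.b i) ≠ 0 := by
    intro h0
    apply nI_ne hp R i
    rw [h0]
    exact dvd_zero _
  unfold muXE
  refine div_ne_zero (mul_ne_zero (R.nl i).om_ne ?_) (R.nl R.i0).om_ne
  exact_mod_cast h1

lemma kkT_pow {p f : ℕ} (hp : p.Prime) {A B : ℤ} {ι : Type} (R : RepsE A B (p * f) ι)
    (kp : ι → ℂ) (r q : ℕ)
    (hkp : ∀ i, kp i ^ r = 1) (t : ℤ → ℂ) (ht : ∀ a : ℤ, ¬ (p : ℤ) ∣ a → t a ^ q = 1) (i : ι) :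
    kkTE R kp (fun i => muXE R i) t i ^ (q * r) = 1 := by
  have h1 : kp i * muXE R i / muXE R i = kp i := mul_div_cancel_right₀ _ (muX_ne' hp R i)
  unfold kkTE
  rw [h1, mul_pow, mul_comm q r, pow_mul, hkp, one_pow, one_mul, mul_comm r q, pow_mul, inv_pow,
    ht _ (nI_ne hp R i), inv_one, one_pow]

/-- `rE` is a unit at `V` -/
lemma v_rE {p : ℕ} {A B : ℤ} {P : Ideal (OO A B)} {V : ValuationSubring ℂ}
    (hBAS : S_BASG) (h : CaseOE p A B P V) : V.valuation (rE A B : ℂ) = 1 := by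
  obtain ⟨-, -, -, -, -, hnat, -⟩ := hBAS p 1 A B P V h.toG
  have h5 := h.p5
  refine hnat _ fun h1 => ?_
  unfold rE at h1
  split_ifs at h1
  · have := Nat.le_of_dvd two_pos h1
    omega
  · have := Nat.le_of_dvd three_pos h1
    omega

/-- one member of the family -/
theorem member (hEPS : Te_EPS) (hH : O_HETAE) (hBAS : S_BASG) {p : ℕ}
    (hpp : p.Prime)
    {A B : ℤ} {P : Ideal (OO A B)} {V : ValuationSubring ℂ} {f : ℕ} (hS : SetOE p A B P V f)
    (hTor : TorXE A B) {ι : Type} [Fintype ι] (R : RepsE A B (p * f) ι) (u el lam : ℂ)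
    (hG : GoodL V (R.L R.i0) u el lam) (w : OO A B → ℂ) (hw : IsTeiP p 1 P V w)
    {l g h : ℕ} (hgen : Gen l g h) (hl : l ∣ f) (z₀ : ℤ) (hz₀ : IsZ0 p 5 z₀)
    (e0 : OO A B → ℂ) (kp : ι → ℂ) (r : ℕ) (hr : ¬ p ∣ r)
    (h01 : e0 1 = 1) (h0m : e0 (-1) = 1) (h0mul : ∀ x y, e0 (x * y) = e0 x * e0 y)
    (h0per : ∀ x y, x - y ∈ idl (A := A) (B := B) (lvX p f 0) → e0 x = e0 y)
    (h0supp : ∀ x, e0 x ≠ 0 ↔ IsCoprime x ((lvX p f 0 : ℕ) : OO A B))
    (h0pow : ∀ x, e0 x ≠ 0 → e0 x ^ r = 1) (h0u : ∀ z, IsUnit z → e0 z = 1)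
    (hkp : ∀ i, kp i ^ r = 1) :
    ∃ (r₀ : ℕ) (e : OO A B → ℂ) (t : ℤ → ℂ), IsEIE (idl (A := A) (B := B) (p * f)) e ∧
      IsTw p (nI P - 1) t ∧
      (∀ x, IsCoprime x ((lvX p f 0 : ℕ) : OO A B) → e0 x * w x = e x * t (nm x)) ∧
      ∀ rr, r₀ ≤ rr → ∀ ψ : DirichletCharacter ℂ (l ^ rr), ψ (-1) = 1 →
      ψ (1 + (l : ZMod (l ^ rr)) ^ (rr - 1)) ≠ 1 → ∃ k' : ℕ,
        V.valuation (p : ℂ) < V.valuation ((∑ j ∈ Finset.range 2, (-1) ^ (1 - j) *
          SGX p (RLE R l rr hl) (lvX p (f * l ^ rr) 5) (p ^ (5 + 1)) (aX p (f * l ^ rr))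
            (fun x => e x * ψ (nm x))
            (fun i => kkTE R kp (fun i => muXE R i) t i * ψ ((nI (R.b i) : ℕ))) t z₀
            ((1 + (p : ℤ)) ^ (k' + j))) / u) := by
  obtain ⟨e, i, t, hei, hi4, hi7, hty, hepow, htw, hes⟩ :=
    hEPS p A B P V f hS w hw e0 r hr h01 h0m h0mul h0per h0supp h0pow h0u
  have hkk := kkT_pow hpp R kp r (nI P - 1) hkp t htw.pow
  obtain ⟨-, -, -, -, -, -, -, hq1, -⟩ := hBAS p 1 A B P V hS.toCaseOE.toG
  have h8 : ¬ p ∣ (nI P - 1) * r := by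
    intro h
    rcases (Nat.Prime.dvd_mul hpp).1 h with h | h
    · exact hq1 h
    · exact hr h
  obtain ⟨r₀, hr₀⟩ := hH p A B P V f hS hTor ι R u el lam hG w hw e hei ((nI P - 1) * r)
    h8 hepow i hi4 hi7 hty t htw (kkTE R kp (fun i => muXE R i) t) hkk l g h hgen hl 5 le_rfl z₀ hz₀
  exact ⟨r₀, e, t, hei, htw, hes, hr₀⟩

/-- one level `n`, one character `χ` with its lift `X` -/
theorem level (hARF : Si_ARF_E) (hXXF : Si_XXF_E) (hSUB : Te_SUB) (hGAM : Oi_GAM)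
    (hNCR : Oi_NCR)
    (hXMF : Te_XMF) (hTHF : Te_THF) (hPOW : Te_POW) (hGEN : Si_GEN) (hGAL : S_GALX)
    (hRSX : S_RSX) (hBAS : S_BASG) {p : ℕ} [Fact p.Prime] {A B : ℤ} {P : Ideal (OO A B)}
    {V : ValuationSubring ℂ} {f : ℕ} (hS : SetOE p A B P V f) (hTor : TorXE A B)
    {ι : Type} [Fintype ι] (R : RepsE A B (p * f) ι) (u : ℂ)
    (K : IntermediateField ℚ ℂ) (Bn : ℕ → IntermediateField ℚ ℂ)
    [FiniteDimensional ℚ K] [∀ n, FiniteDimensional ℚ ↥(K ⊔ Bn n)]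
    (hB : BasX p (kk A B) K Bn)
    (hcop : ¬ p ∣ Module.finrank (kk A B) (IntermediateField.extendScalars hB.hk))
    (hmu : ∃ ω ∈ K, IsPrimitiveRoot ω p)
    (hKT : ∀ y ∈ K, y ∈ RFE (idl (A := A) (B := B) (lvX p f 0))) (n : ℕ)
    (hk : kk A B ≤ K ⊔ Bn n) (hkK : kk A B ≤ K)
    (C : (letI := algC hk; ↥(K ⊔ Bn n) ≃ₐ[kk A B] ↥(K ⊔ Bn n)) → ℂ)
    (hE : EInpOE p P V f R u n hk C) (c₀ : ℂ) (mem : c₀ ∈ K ⊔ Bn n)
    (hc₀ : c₀ = C (letI := algC hk; 1))
    (χ : (letI := algC hkK; (↥K ≃ₐ[kk A B] ↥K) →* (IsLocalRing.ResidueField V)ˣ))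
    (X : (letI := algC hkK; (↥K ≃ₐ[kk A B] ↥K) →* ℂˣ))
    (hXθ : letI := algC hkK; ∀ (Δ' : Type) [Group Δ'] [Fintype Δ'] (j : Δ' →* (↥K ≃ₐ[kk A B] ↥K)),
      Function.Injective j → ∃ θ : IsLocalRing.ResidueField V →+ ZMod p,
        (∑ δ : Δ', ((θ ((χ (j δ))⁻¹ : (IsLocalRing.ResidueField V)ˣ)).val : ℂ) *
          (X (j δ) : ℂ)) ∉ V.nonunits)
    (w : OO A B → ℂ) (hw : IsTeiP p 1 P V w) (e0 e : OO A B → ℂ) (kp : ι → ℂ) (t : ℤ → ℂ)
    (q : ℕ) (hq : q ≠ 0) (htw : IsTw p q t) (hei : IsEIE (idl (A := A) (B := B) (p * f)) e)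
    (hes : ∀ x, IsCoprime x ((lvX p f 0 : ℕ) : OO A B) → e0 x * w x = e x * t (nm x))
    (hval : letI := algC hkK; ∀ (τ : ↥K ≃ₐ[kk A B] ↥K) (i : ι) (x : OO A B),
      IsCoprime x ((lvX p f 0 : ℕ) : OO A B) →
      AR_E hkK (idl (lvX p f 0)) τ (sp x * cjI (R.b i)) → (((X τ)⁻¹ : ℂˣ) : ℂ) = kp i * e0 x)
    (z₀ : ℤ) (hz₀ : IsZ0 p n z₀) (k' : ℕ)
    (hbig : V.valuation (p : ℂ) < V.valuation ((∑ j ∈ Finset.range 2, (-1) ^ (1 - j) *
      SGX p R (lvX p f n) (p ^ (n + 1)) (aX p f) e (kkTE R kp (fun i => muXE R i) t) t z₀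
        ((1 + (p : ℤ)) ^ (k' + j))) / u)) :
    I3At (IsLocalRing.ResidueField V) p (kk A B) K Bn hkK χ 1 n hk c₀ mem := by
  classical
  let aK : Algebra (kk A B) K := algC hkK
  have hpp : p.Prime := Fact.out
  have p5 := hS.p5
  have p2 : p ≠ 2 := by omega
  have hCQ : CQ A B := hS.toCQ
  have hL : SetQ p A B f := setQ_OE hS
  let akL : Algebra (kk A B) ↥(K ⊔ Bn n) := algC hk
  obtain ⟨ρ, hρ⟩ := Pool.Agent.MUXK.I3X19.restr hRSX p (kk A B) K Bn hB hcop hkK n hk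
  obtain ⟨gal, comm⟩ := hGAL p (kk A B) K Bn hB n hk
  have hNL : ∃ (b : Ideal (OO A B)) (L : PeriodPair) (om : ℂ), IsNE b L om :=
    ⟨_, _, _, R.nl R.i0⟩
  have hsub := hSUB p A B f hL hTor hNL K hKT n (Bn n) (hB.lay n)
  obtain ⟨γ₀, hγ₀, hγ₀z⟩ := hGAM p p2 (kk A B) K Bn hB hmu n hk
  obtain ⟨hBR, hRD, -⟩ := hNCR p p2 (kk A B) K n (Bn n) (hB.lay n) hmu hk
  have hXX := hXMF p A B f hL hS.toCaseE hS.f2 hTor ι R (K ⊔ Bn n) n hk (Bn n) (hB.lay n) hBR hRD hsub gal γ₀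
    hγ₀z z₀ hz₀
  have fdk : FiniteDimensional (kk A B) ↥(K ⊔ Bn n) :=
    Module.Finite.of_restrictScalars_finite ℚ (kk A B) ↥(K ⊔ Bn n)
  have iG : Finite (↥(K ⊔ Bn n) ≃ₐ[kk A B] ↥(K ⊔ Bn n)) := inferInstance
  have iN : Fintype (NC hk (Bn n)) := Fintype.ofFinite _
  obtain ⟨θ, hXθ1⟩ := hXθ (NC hk (Bn n)) ρ.toMonoidHom ρ.injective
  let X' : NC hk (Bn n) →* ℂˣ := X.comp ρ.toMonoidHom
  have hX'θ : (∑ δ : NC hk (Bn n),
      (((θ ((χ (ρ δ))⁻¹ : (IsLocalRing.ResidueField V)ˣ)).val : ℕ) : ℂ) * (X' δ : ℂ)) ∉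
        V.nonunits := hXθ1
  have hKD : K ≤ K ⊔ Bn n := le_sup_left
  have h2n : 2 ∣ lvX p f n := by
    rw [lvX_odd p2]
    exact hS.f2.mul_right _
  have hm2 : 2 ≤ lvX p f n := by
    have h2 : 1 ≤ p ^ n := Nat.one_le_pow _ _ hpp.pos
    have h3 : 1 ≤ f := Nat.one_le_iff_ne_zero.2 hS.f0
    rw [lvX_odd p2, pow_succ]
    nlinarith [Nat.mul_le_mul h3 h2]
  have hm0 : (idl (A := A) (B := B) (lvX p f n)) ≠ ⊥ := by
    intro h
    have h1 : ((lvX p f n : ℕ) : OO A B) = 0 := Ideal.span_singleton_eq_bot.1 h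
    have h2 := congrArg emb h1
    rw [Pool.Agent.OBI.I31.emb_nat] at h2
    have h3 : emb (0 : OO A B) = 0 := by
      unfold emb
      simp
    rw [h3] at h2
    have h4 : lvX p f n = 0 := by exact_mod_cast h2
    omega
  have hlv : lvX p f 0 ∣ lvX p f n := by
    unfold lvX
    rw [pow_zero, mul_one]
    exact dvd_mul_right _ _
  have hle : idl (A := A) (B := B) (lvX p f n) ≤ idl (lvX p f 0) := by
    refine Ideal.span_singleton_le_span_singleton.2 ?_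
    exact_mod_cast Nat.cast_dvd_cast hlv
  have hchi : ∀ (δ : NC hk (Bn n)) (j : ℕ),
      ∀ q ∈ XXE R (lvX p f n) hk (γ₀ ^ j * (δ : ↥(K ⊔ Bn n) ≃ₐ[kk A B] ↥(K ⊔ Bn n))),
      (((X' δ)⁻¹ : ℂˣ) : ℂ) = kp q.1 * e0 (Quotient.out q.2) := by
    intro δ j q hq
    have hqc : IsCoprime (Quotient.out q.2 : OO A B) ((lvX p f n : ℕ) : OO A B) := hq.1
    have h1 := hXXF A B hS.toCaseE hTor (p * f) ι R (lvX p f n) (by omega) h2n (K ⊔ Bn n) hk
      hsub gal
    have hq2 : (q.1, Ideal.Quotient.mk (idl (A := A) (B := B) (lvX p f n))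
        (Quotient.out q.2)) = q := Prod.ext rfl (Quotient.out_eq' q.2)
    have h2 := ((h1.1 (γ₀ ^ j * (δ : ↥(K ⊔ Bn n) ≃ₐ[kk A B] ↥(K ⊔ Bn n))) q.1
      (Quotient.out q.2) hqc).1 (by rw [hq2]; exact hq)).2
    obtain ⟨-, -, -, -, -, h3, -⟩ := hARF A B hCQ hTor hNL (idl (lvX p f n)) hm0
      (MUXI.Hit.idl_le h2n) (K ⊔ Bn n) hk hsub gal
    have hγj : ∀ (i : ℕ) (z : ↥(K ⊔ Bn n)), (z : ℂ) ∈ K → (γ₀ ^ i) z = z := by
      intro i z hz
      induction i with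
      | zero => rfl
      | succ i ih =>
        rw [pow_succ, AlgEquiv.mul_apply, (hγ₀ z).2 hz, ih]
    have h4 := h3 K hkK (idl (lvX p f 0)) hle hKD
      (γ₀ ^ j * (δ : ↥(K ⊔ Bn n) ≃ₐ[kk A B] ↥(K ⊔ Bn n))) (ρ δ)
      (sp (Quotient.out q.2) * cjI (R.b q.1)) (by
        intro x x' hx
        rw [AlgEquiv.mul_apply]
        have h5 := hρ δ x x' hx
        have h6 : (((δ : ↥(K ⊔ Bn n) ≃ₐ[kk A B] ↥(K ⊔ Bn n)) x' : ↥(K ⊔ Bn n)) : ℂ) ∈ K := by
          have h7 : (((δ : ↥(K ⊔ Bn n) ≃ₐ[kk A B] ↥(K ⊔ Bn n)) x' : ↥(K ⊔ Bn n)) : ℂ) =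
            (ρ δ x : ↥K) := h5
          rw [h7]
          exact (ρ δ x).2
        rw [hγj j _ h6]
        exact h5) h2
    have hco : IsCoprime (Quotient.out q.2 : OO A B) ((lvX p f 0 : ℕ) : OO A B) := by
      have h7 : ((lvX p f 0 : ℕ) : OO A B) ∣ ((lvX p f n : ℕ) : OO A B) := by
        exact_mod_cast Nat.cast_dvd_cast hlv
      exact hqc.of_isCoprime_of_dvd_right h7
    exact hval (ρ δ) q.1 (Quotient.out q.2) hco h4
  -- the ideal `(p f)`
  have hg1 : idl (A := A) (B := B) (lvX p f 0) ≤ idl (p * f) := by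
    refine Ideal.span_singleton_le_span_singleton.2 ?_
    have h1 : p * f ∣ lvX p f 0 := by
      rw [lvX_odd p2, zero_add, pow_one, mul_comm]
    exact_mod_cast Nat.cast_dvd_cast h1
  have hg2 : idl (A := A) (B := B) (p * f) ≤ idl f := by
    refine Ideal.span_singleton_le_span_singleton.2 ?_
    have h1 : f ∣ p * f := dvd_mul_left f p
    exact_mod_cast Nat.cast_dvd_cast h1
  have hTHi := hTHF p A B f hL hS.toCaseE hS.f2 (idl (p * f)) hg1 hg2 ι R n z₀ hz₀ _ γ₀ (NC hk (Bn n))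
    (fun τ => XXE R (lvX p f n) hk τ) hXX X' e0 kp (fun i => muXE R i) w e t q hq htw hei hes hchi
  have hcne : c₀ ≠ 0 := by
    rw [hc₀]
    exact hE.ne
  have key : ∀ y : ↥(K ⊔ Bn n), y ^ p ≠ ∏ δ : NC hk (Bn n),
      ((δ : ↥(K ⊔ Bn n) ≃ₐ[kk A B] ↥(K ⊔ Bn n)) ((Tg γ₀)^[1] ⟨c₀, mem⟩)) ^
        (θ ((χ (ρ δ))⁻¹ : (IsLocalRing.ResidueField V)ˣ)).val := by
    intro y hy
    have hHf := hPOW p A B P V f ι R u n (K ⊔ Bn n) hk C hE w
      hw comm c₀ mem hc₀ γ₀ (NC hk (Bn n)) 1 k'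
      (fun δ => (θ ((χ (ρ δ))⁻¹ : (IsLocalRing.ResidueField V)ˣ)).val) X' hX'θ y hy
    refine absurd hHf (not_le_of_gt ?_)
    have hS1 : (rE A B : ℂ) * ∑ j ∈ Finset.range (1 + 1),
        (((-1 : ℤ) ^ (1 - j) * (Nat.choose 1 j : ℤ) : ℤ) : ℂ) *
        ∑ δ : NC hk (Bn n), (((X' δ)⁻¹ : ℂˣ) : ℂ) * TTNE R w (lvX p f n)
          (aX p f) hk (γ₀ ^ (k' + j) * (δ : ↥(K ⊔ Bn n) ≃ₐ[kk A B] ↥(K ⊔ Bn n))) =
        ∑ j ∈ Finset.range 2, (-1) ^ (1 - j) *
          SGX p R (lvX p f n) (p ^ (n + 1)) (aX p f) e (kkTE R kp (fun i => muXE R i) t) t z₀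
            ((1 + (p : ℤ)) ^ (k' + j)) := by
      rw [Finset.mul_sum]
      refine Finset.sum_congr rfl fun j hj => ?_
      have hj1 : j ≤ 1 := by
        have := Finset.mem_range.1 hj
        omega
      have hch : Nat.choose 1 j = 1 := by
        interval_cases j <;> rfl
      have h9 := hTHi (k' + j)
      have h10 : (rE A B : ℂ) * ∑ δ : NC hk (Bn n), (((X' δ)⁻¹ : ℂˣ) : ℂ) *
          TTNE R w (lvX p f n)
          (aX p f) hk (γ₀ ^ (k' + j) * (δ : ↥(K ⊔ Bn n) ≃ₐ[kk A B] ↥(K ⊔ Bn n))) = _ := h9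
      rw [mul_left_comm, h10, hch]
      push_cast
      ring
    have hvr := v_rE hBAS hS.toCaseOE
    rw [← one_mul (V.valuation (_ / u)), ← hvr, ← map_mul, ← mul_div_assoc, hS1]
    exact hbig
  intro γ hγ iN' r hr
  obtain rfl : iN' = iN := Subsingleton.elim _ _
  have hrρ : ∀ δ, r δ = ρ δ := by
    intro δ
    refine AlgEquiv.ext fun x => Subtype.ext ?_
    have hx1 : (x : ℂ) ∈ K ⊔ Bn n := hKD x.2
    rw [← hr δ x ⟨x, hx1⟩ rfl, ← hρ δ x ⟨x, hx1⟩ rfl]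
  have key2 := hGEN p (kk A B) K Bn hB n hk c₀ mem hcne 1 γ₀ hγ₀
    (fun δ => (θ ((χ (ρ δ))⁻¹ : (IsLocalRing.ResidueField V)ˣ)).val) key γ hγ
  refine ⟨θ, fun y hy => key2 y (hy.trans ?_)⟩
  refine Finset.prod_congr rfl fun δ _ => ?_
  rw [hrρ δ]

end ITEx

/-- THE RESULT of block I -/
theorem te_ITE (hRES : Pool.Agent.MUXJ.Sj_RES) (hCHI : Oi_CHI) (hCHK : Ti_CHK) (hE0L : S_E0LE)
    (hEPS : Te_EPS) (hTEI : S_TEIG) (hLVT : S_LVTE) (hARF : Si_ARF_E) (hXXF : Si_XXF_E)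
    (hSUB : Te_SUB)
    (hGAM : Oi_GAM) (hNCR : Oi_NCR) (hZ0 : Ti_Z0) (hXMF : Te_XMF) (hTHF : Te_THF) (hPOW : Te_POW)
    (hEIX : Te_EIX) (hGEN : Si_GEN) (hH : O_HETAE) (hGAL : S_GALX) (hRSX : S_RSX)
    (hBAS : S_BASG) : O_ITE := by
  classical
  intro l g h hgen p iP A B P V f hS hlf hl hTor ι iι R u el lam hG K₀ iK₀ hkK₀ hmu₀ hK₀T Bl
    hlay hmono
  have hpp : p.Prime := iP.out
  have p5 := hS.p5
  have p2 : p ≠ 2 := by omega
  have hCQ : CQ A B := hS.toCQ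
  obtain ⟨hlp, hl3⟩ := OTI.I31T.lprime hgen
  obtain ⟨J, iJ, r, e0, kp, hpr, hfam, hnew⟩ := hE0L l g h hgen p A B P V f hS hlf hTor ι R K₀
    hkK₀ hK₀T Bl hlay hmono
  obtain ⟨w, hw⟩ := hTEI p 1 A B P V hS.toCaseOE.toG
  obtain ⟨z₀, hz₀⟩ := hZ0 p hpp p2 5
  have hmem := fun j : J => ITEx.member hEPS hH hBAS hpp hS hTor R u el lam hG w hw hgen hl z₀ hz₀
    (e0 j) (kp j) r hpr (hfam j).1 (hfam j).2.1 (hfam j).2.2.1 (hfam j).2.2.2.1 (hfam j).2.2.2.2.1
    (hfam j).2.2.2.2.2.1 (hfam j).2.2.2.2.2.2.1 (hfam j).2.2.2.2.2.2.2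
  choose rj e t hei htw hes hbig using hmem
  obtain ⟨M, hM⟩ := (Set.finite_range rj).bddAbove
  refine ⟨M, ?_⟩
  intro m hm Bn iK iKB hB hcop hk hkK C hE c₀ mem hc₀ χ hχ
  have hNL : ∃ (b : Ideal (OO A B)) (L : PeriodPair) (om : ℂ), IsNE b L om :=
    ⟨_, _, _, R.nl R.i0⟩
  -- the level `f'`
  obtain ⟨rr, hrr⟩ : ∃ rr, rr = m + 1 + h := ⟨_, rfl⟩
  have hKT' := hLVT l g h hgen p A B P V f hS hTor hNL K₀ hK₀T (m + 1) (Bl (m + 1))
    (hlay (m + 1))
  have hnewm := hnew m hkK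
  rw [← hrr] at hE hKT' hnewm
  have hlr : l ^ rr ≠ 0 := pow_ne_zero _ hlp.ne_zero
  have hplr : ¬ p ∣ l ^ rr := by
    intro h1
    have h2 := hpp.dvd_of_dvd_pow h1
    have h3 := Nat.le_of_dvd hlp.pos h2
    omega
  have hS' : SetOE p A B P V (f * l ^ rr) := setOE_up hS (l ^ rr) hlr hplr
  have hL : SetQ p A B f := setQ_OE hS
  have hmu : ∃ ω ∈ K₀ ⊔ Bl (m + 1), IsPrimitiveRoot ω p := by
    obtain ⟨ω, h1, h2⟩ := hmu₀
    exact ⟨ω, (le_sup_left : K₀ ≤ K₀ ⊔ Bl (m + 1)) h1, h2⟩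
  -- the lift of `χ`
  let aK : Algebra (kk A B) ↥(K₀ ⊔ Bl (m + 1)) := algC hkK
  have hpV : ((p : ℕ) : ℂ) ∈ V.nonunits := by
    have h1 := (hS.hV ((p : ℕ) : OO A B)).2 hS.mem
    rwa [Pool.Agent.OBI.I31.emb_nat] at h1
  obtain ⟨iF1, iF2⟩ := hRES p V hpV
  have galK : IsGalois (kk A B) ↥(K₀ ⊔ Bl (m + 1)) := (isGalois_algC hkK).2 hB.gal
  have fdkK : FiniteDimensional (kk A B) ↥(K₀ ⊔ Bl (m + 1)) :=
    Module.Finite.of_restrictScalars_finite ℚ (kk A B) ↥(K₀ ⊔ Bl (m + 1))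
  have commK : ∀ a b : ↥(K₀ ⊔ Bl (m + 1)) ≃ₐ[kk A B] ↥(K₀ ⊔ Bl (m + 1)), a * b = b * a := by
    intro a b
    have h1 := hB.ab ((extEquiv hkK).symm.autCongr a) ((extEquiv hkK).symm.autCongr b)
    rw [← map_mul, ← map_mul] at h1
    exact (extEquiv hkK).symm.autCongr.injective h1
  have hcard : Nat.card (↥(K₀ ⊔ Bl (m + 1)) ≃ₐ[kk A B] ↥(K₀ ⊔ Bl (m + 1))) =
      Module.finrank (kk A B) (IntermediateField.extendScalars hB.hk) := by
    rw [IsGalois.card_aut_eq_finrank]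
    exact (extEquiv hkK).toLinearEquiv.finrank_eq
  have hc3 : ¬ p ∣ Nat.card (↥(K₀ ⊔ Bl (m + 1)) ≃ₐ[kk A B] ↥(K₀ ⊔ Bl (m + 1))) := by
    rw [hcard]
    exact hcop
  obtain ⟨X, hXr, hXθ⟩ := hCHI p V hpV iF1 iF2
    (↥(K₀ ⊔ Bl (m + 1)) ≃ₐ[kk A B] ↥(K₀ ⊔ Bl (m + 1))) commK hc3 χ
  let H : Subgroup (↥(K₀ ⊔ Bl (m + 1)) ≃ₐ[kk A B] ↥(K₀ ⊔ Bl (m + 1))) :=
    { carrier := {s | ∀ x : ↥(K₀ ⊔ Bl (m + 1)), (x : ℂ) ∈ K₀ ⊔ Bl m → s x = x}
      one_mem' := fun x _ => rfl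
      mul_mem' := by
        intro a b ha hb x hx
        rw [AlgEquiv.mul_apply, hb x hx, ha x hx]
      inv_mem' := by
        intro a ha x hx
        have h1 := ha x hx
        calc a⁻¹ x = a⁻¹ (a x) := by rw [h1]
          _ = x := by rw [← AlgEquiv.mul_apply, inv_mul_cancel]; rfl }
  obtain ⟨s, hsH, hsX⟩ := hCHK p V hpV _ χ X hXθ H (by
    obtain ⟨s, h1, h2⟩ := hχ
    exact ⟨s, h1, h2⟩)
  obtain ⟨j, ψ, hψ1, hψ2, hval⟩ := hnewm X _ hc3 hXr ⟨s, hsH, hsX⟩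
  obtain ⟨k', hk'⟩ := hbig j rr (by
    have h1 : rj j ≤ M := hM ⟨j, rfl⟩
    omega) ψ hψ1 hψ2
  obtain ⟨-, -, -, -, -, -, -, hq1, -⟩ := hBAS p 1 A B P V hS.toCaseOE.toG
  have hq0 : nI P - 1 ≠ 0 := by
    intro h1
    rw [h1] at hq1
    exact hq1 (dvd_zero p)
  have hlv : lvX p f 0 ∣ lvX p (f * l ^ rr) 0 := by
    rw [lvX_odd p2, lvX_odd p2]
    exact mul_dvd_mul (dvd_mul_right _ _) (dvd_refl _)
  refine ITEx.level hARF hXXF hSUB hGAM hNCR hXMF hTHF hPOW hGEN hGAL hRSX hBAS hS' hTor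
    (RLE R l rr hl) u (K₀ ⊔ Bl (m + 1)) Bn hB hcop hmu hKT' 5 hk hkK C hE c₀ mem hc₀
    χ X hXθ w hw (fun x => e0 j x * ψ (nm x)) (fun x => e j x * ψ (nm x))
    (fun i => kp j i * ψ ((nI (R.b i) : ℕ))) (t j) (nI P - 1) hq0 (htw j)
    (hEIX p A B f hL hS.toCaseE l rr hlp hl (e j) (hei j) ψ) ?_ ?_ z₀ hz₀ k' ?_
  · intro x hx
    have h1 : IsCoprime x ((lvX p f 0 : ℕ) : OO A B) := by
      refine hx.of_isCoprime_of_dvd_right ?_
      exact_mod_cast Nat.cast_dvd_cast hlv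
    have h2 := hes j x h1
    linear_combination ψ (nm x) * h2
  · intro τ i x hx hAR
    exact hval τ i x hx hAR
  · have h1 : (kkTE (RLE R l rr hl) (fun i => kp j i * ψ ((nI (R.b i) : ℕ)))
        (fun i => muXE (RLE R l rr hl) i) (t j)) =
        fun i => kkTE R (kp j) (fun i => muXE R i) (t j) i * ψ ((nI (R.b i) : ℕ)) := by
      funext i
      show kp j i * ψ ((nI (R.b i) : ℕ)) * muXE R i / muXE R i * (t j (nI (R.b i)))⁻¹ =
        kp j i * muXE R i / muXE R i * (t j (nI (R.b i)))⁻¹ * ψ ((nI (R.b i) : ℕ))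
      ring
    rw [h1]
    exact hk'

end

end Pool.Agent.OEI


end
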