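import Pool.Agent.MVF.C032
import Pool.Agent.MVF.C033
import Pool.Agent.MVF.C034
import Pool.Agent.MVF.C037
import Pool.Agent.MVF.C041
import Pool.Agent.MVF.C057
import Pool.Agent.MVF.C080
import Pool.Agent.MVF.C112
import Pool.Agent.MVF.C135
import Pool.Agent.MVF.C137
import Pool.Agent.MVF.C158
import Pool.Agent.MVF.C182
import Pool.Agent.MVF.C183
import Pool.Agent.OBM.C07
import Pool.Agent.OBM.C10
import Pool.Agent.OBM.C13
import Pool.Agent.OBM.C14
import Pool.Agent.OBM.C17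
import Pool.Agent.OTM.C03
import Pool.Agent.OTM.C06
import Pool.Agent.OTM.C11
import Pool.Agent.OVM.C01
import Pool.Agent.OVM.C02
import Pool.Agent.OVM.C03

/-! Parts: OE.E_ADD, OE.E_FN1, OE.I_EIX, OE.I_XMF, OE.G_EPS, OE.G_PRF, OE.I_POW, OE.I_THF, OE.L_E0L, OE.EAll, OE.I_TEU, OE.IAll, OE.T_TAU, OE.T_TYF, OE.TAll -/

section

/-!
# OE, block E (port of `OB/E_ADD.lean`), module ADD: addition of a point of `SP` (helper54; model: helper42's `NS/F_ADD.lean`)
-/

set_option autoImplicit false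

open Polynomial

namespace Pool.Agent.OEE

open _root_.MU3 _root_.Pool.Agent.MU3A _root_.Pool.Agent.MU3B _root_.Pool.Agent.MUX _root_.Pool.Agent.MUXU _root_.Pool.Agent.MUXE
open _root_.Pool.Agent.RI _root_.Pool.Agent.NS _root_.Pool.Agent.OB
open _root_.Pool.Agent.MUXV (GR InK tX)
open _root_.Pool.Agent.NSE (su ru WL IntP)
open _root_.Pool.Agent.ME hiding ActE
open _root_.Pool.Agent.MEE
open _root_.Pool.Agent.OBE (SP Ann Ker0 PtsO RepO Cp lv0 Sb_ALG Sb_PRO Sb_PUL Sb_COE Sb_GRN Sb_LEG Sb_TNC Sb_GEN Sb_UNT Sb_RAT Sb_KIS Sb_NE1 Sb_DSM)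

noncomputable section

namespace ADD

lemma intP_quad {V : ValuationSubring ℂ} {a b c : ℂ} (ha : V.valuation a ≤ 1)
    (hb : V.valuation b ≤ 1) (hc : V.valuation c ≤ 1) : IntP V (C a + C b * X + C c * X ^ 2) := by
  intro i
  rcases i with _ | _ | _ | i
  · simpa using ha
  · simpa [coeff_X, coeff_C] using hb
  · simpa [coeff_X, coeff_C] using hc
  · simp

/-- a function `A(s) + r c` with `A` of degree at most two -/
lemma rep_quad {p : ℕ} {V : ValuationSubring ℂ} {S : Set ℂ} {s r F : ℂ → ℂ} {a b c d : ℂ}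
    (ha : V.valuation a ≤ 1) (hb : V.valuation b ≤ 1) (hc : V.valuation c ≤ 1)
    (hd : V.valuation d ≤ 1)
    (hF : ∀ Y ∈ S, F Y = a + b * s Y + c * s Y ^ 2 + r Y * d) : RepO p V S s r F a d := by
  refine ⟨C a + C b * X + C c * X ^ 2, C d, intP_quad ha hb hc, ?_, ?_, ?_, ?_⟩
  · intro i
    rw [coeff_C]
    split_ifs
    · exact hd
    · simp
  · intro Y hY
    rw [hF Y hY]
    simp
  · simp
  · simp

end ADD

open _root_.Pool.Agent.OEE.ADD

/-- the module ADD -/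
theorem tb_ADDE (h1 : Sb_ALG) (h2 : Sb_COE) (h3 : Sb_GRN) (h5 : Sb_PTSE) : Sb_ADDE := by
  intro p er A B P V al hC L u e lam hNL hG z hz
  obtain ⟨ξ, G⟩ := h3 p V L u e lam hC.toCp hG
  obtain ⟨c1, -, -, c2, c3, c4, -, -⟩ := h2 p V L u e lam hC.toCp hG
  obtain ⟨hP, hInK, -⟩ := h5 p er A B P V al hC L u e lam hNL hG
  obtain ⟨-, -, -, a4, -, a6, a7, -, -⟩ := h1 p V (SP P er L) (su L u e) (ru L u e) _ _ hP
  obtain ⟨hzL, hx⟩ := Pool.Agent.MUXV.int_X hz
  have hy := Pool.Agent.MUXV.int_Y G hz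
  have hu := hG.u0
  have hl : V.valuation lam ≤ 1 := hG.vl.le
  have ha2 : V.valuation (-(1 + lam)) ≤ 1 := by
    rw [Valuation.map_neg]
    exact c3
  set x := xu L u e z with hxdef
  set y := yu L u z with hydef
  have h2x : V.valuation (2 * (-(1 + lam)) * x) ≤ 1 := by
    rw [map_mul, map_mul, c2, one_mul]
    exact mul_le_one' ha2 hx
  have hxx : V.valuation (x ^ 2) ≤ 1 := by
    rw [map_pow]
    exact pow_le_one₀ zero_le hx
  -- numerator and denominator
  have hN : RepO p V (SP P er L) (su L u e) (ru L u e)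
      (fun Y => x + (x ^ 2 + lam + 2 * (-(1 + lam)) * x) * su L u e Y + (lam * x) * su L u e Y ^ 2 +
        ru L u e Y * (2 * y)) x (2 * y) := by
    refine rep_quad hx ?_ ?_ ?_ fun Y _ => rfl
    · exact V.valuation.map_add_le (V.valuation.map_add_le hxx hl) h2x
    · rw [map_mul]
      exact mul_le_one' hl hx
    · rw [map_mul, c2, one_mul]
      exact hy
  have hD : RepO p V (SP P er L) (su L u e) (ru L u e) (fun Y => (1 - su L u e Y * x) ^ 2) 1 0 := by
    refine rep_quad (b := -(2 * x)) (c := x ^ 2) (by simp) ?_ hxx (by simp) fun Y _ => ?_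
    · rw [Valuation.map_neg, map_mul, c2, one_mul]
      exact hx
    · ring
  obtain ⟨d1, d2⟩ := a7 _ _ _ hD (by simp)
  have hM := a6 _ _ _ _ _ _ hN d2
  refine a4 _ _ _ _ _ _ hM ?_ (by simp) (by simp)
  intro Y hY
  obtain ⟨t1, t2⟩ := hInK Y hY
  have hYL : Y ∉ L.lattice := hY.2
  have hzp : z + Y ∉ L.lattice := fun h => hz (by
    have := Pool.Agent.MUXV.inK_sub G (Pool.Agent.MUXV.inK_of_mem h) t1
    rwa [add_sub_cancel_right] at this)
  have hzm : z - Y ∉ L.lattice := fun h => hz (by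
    have := Pool.Agent.MUXV.inK_add G (Pool.Agent.MUXV.inK_of_mem h) t1
    rwa [sub_add_cancel] at this)
  have hadd := (b_ADD L Y z hYL hzL hzp hzm).1
  have hxY : xu L u e Y ∉ V := t1.resolve_left hYL
  have hne : x - xu L u e Y ≠ 0 := by
    intro h
    apply hxY
    rw [← sub_eq_zero.1 h]
    exact (ValuationSubring.valuation_le_one_iff _ _).1 hx
  have e1 : ∀ w, L.weierstrassP w = u ^ 2 * xu L u e w + e := by
    intro w
    unfold xu
    field_simp
    ring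
  have e2 : ∀ w, L.derivWeierstrassP w = 2 * u ^ 3 * yu L u w := by
    intro w
    unfold yu
    field_simp
  rw [e1 (z + Y), e1 z, e1 Y, e2 z, e2 Y, ← hxdef, ← hydef] at hadd
  have k1 := c4 z hzL
  have k2 := c4 Y hYL
  rw [← hxdef, ← hydef] at k1
  have hD1 : (1 - su L u e Y * x) ^ 2 ≠ 0 := by
    intro h
    have := d1 Y hY
    simp only [h, map_zero] at this
    exact zero_ne_one this
  show xu L u e (z + Y) = _ * ((1 - su L u e Y * x) ^ 2)⁻¹
  rw [eq_mul_inv_iff_mul_eq₀ hD1]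
  unfold su ru
  set X' := xu L u e Y with hX'
  set Y' := yu L u Y with hY'
  set W := xu L u e (z + Y) with hW
  have hm : (2 * u ^ 3 * y - 2 * u ^ 3 * Y') / (2 * (u ^ 2 * x + e - (u ^ 2 * X' + e))) =
      u * ((y - Y') / (x - X')) := by
    have : u ^ 2 * x + e - (u ^ 2 * X' + e) = u ^ 2 * (x - X') := by ring
    rw [this]
    field_simp
  rw [hm] at hadd
  have k3 : (W + x + X' - (1 + lam)) * (x - X') ^ 2 = (y - Y') ^ 2 := by
    have h6 : u ^ 2 * ((W + x + X' - (1 + lam)) * (x - X') ^ 2) = u ^ 2 * (y - Y') ^ 2 := by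
      have h7 : u ^ 2 * (W + x + X' - (1 + lam)) = (u * ((y - Y') / (x - X'))) ^ 2 := by
        linear_combination hadd - c1
      calc u ^ 2 * ((W + x + X' - (1 + lam)) * (x - X') ^ 2)
          = (u ^ 2 * (W + x + X' - (1 + lam))) * (x - X') ^ 2 := by ring
        _ = (u * ((y - Y') / (x - X'))) ^ 2 * (x - X') ^ 2 := by rw [h7]
        _ = u ^ 2 * (y - Y') ^ 2 := by field_simp
    exact mul_left_cancel₀ (pow_ne_zero 2 hu) h6
  field_simp
  linear_combination k3 + k1 + k2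

end

end Pool.Agent.OEE


end

section

/-!
# OE, block E (port of `OB/E_FN1.lean`), module FN1: the final form for `er = 1` (helper96; model helper86)
-/

set_option autoImplicit false

namespace Pool.Agent.OEE

open _root_.MU3 _root_.Pool.Agent.MU3A _root_.Pool.Agent.MU3B _root_.Pool.Agent.MUX _root_.Pool.Agent.MUXU _root_.Pool.Agent.MUXE
open _root_.Pool.Agent.RI _root_.Pool.Agent.NS _root_.Pool.Agent.OB
open _root_.Pool.Agent.ME hiding ActE
open _root_.Pool.Agent.MEE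
open _root_.Pool.Agent.OBE (SP Ann Ker0 PtsO RepO Cp lv0 Sb_ALG Sb_PRO Sb_PUL Sb_COE Sb_GRN Sb_LEG Sb_TNC Sb_GEN Sb_UNT Sb_RAT Sb_KIS Sb_NE1 Sb_DSM)

noncomputable section

namespace FN1

/-- `O/m` is finite -/
lemma fin_quot (A B : ℤ) (hr : RingE A B) {m : ℕ} (hm : m ≠ 0) :
    Finite (OO A B ⧸ idl (A := A) (B := B) m) ∧ idl (A := A) (B := B) m ≠ ⊥ := by
  haveI := hr.ded
  have h0 : idl (A := A) (B := B) m ≠ ⊥ := by
    intro h
    rw [Ideal.span_singleton_eq_bot] at h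
    obtain ⟨φ, hφ⟩ := hr.hom
    have h1 : φ ((m : ℕ) : OO A B) = 0 := by rw [h, map_zero]
    rw [map_natCast] at h1
    exact hm (by exact_mod_cast h1)
  exact ⟨Ideal.finiteQuotientOfFreeOfNeBot _ h0, h0⟩

/-- `Gal(D/k)` is finite -/
lemma fin_gal {A B : ℤ} (hT : TorXE A B) {m : Ideal (OO A B)} (hm : m ≠ ⊥)
    (D : IntermediateField ℚ ℂ) (h : kk A B ≤ D) (hD : ∀ y ∈ D, y ∈ RFE m) :
    letI := algC h
    Finite (D ≃ₐ[kk A B] D) := by
  letI := algC h
  have := hT.fin _ hm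
  let φ : D →ₗ[kk A B] RFE m :=
    { toFun := fun y => ⟨y, hD y y.2⟩
      map_add' := fun x y => rfl
      map_smul' := fun c x => by
        apply Subtype.ext
        show ((c • x : D) : ℂ) = ((c • (⟨x, hD x x.2⟩ : RFE m) : RFE m) : ℂ)
        rw [Algebra.smul_def, Algebra.smul_def]
        rfl }
  have hφ : Function.Injective φ := by
    intro x y hxy
    apply Subtype.ext
    exact congrArg (fun z : RFE m => (z : ℂ)) hxy
  have : FiniteDimensional (kk A B) D := FiniteDimensional.of_injective φ hφ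
  exact inferInstance

lemma lv_eq {p : ℕ} (hp : p ≠ 2) (f n : ℕ) : lvX p f n = p ^ (n + 1) * f := by
  simp [lvX, q0, hp]
  ring

lemma aX_eq {p : ℕ} (hp : p ≠ 2) (f : ℕ) : aX p f = 1 + 2 * p * f := by
  simp [aX, q0, hp]

lemma aX_facts {p : ℕ} (hp : p.Prime) (hp2 : p ≠ 2) {f : ℕ} (hf : f ≠ 0) :
    3 ≤ aX p f ∧ Odd (aX p f) ∧ ¬ p ∣ aX p f ∧ (aX p f).Coprime f := by
  rw [aX_eq hp2]
  have h1 : 1 ≤ p * f := Nat.mul_pos hp.pos (Nat.pos_of_ne_zero hf)
  refine ⟨by nlinarith, ⟨p * f, by ring⟩, fun h => ?_, ?_⟩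
  · have h2 : p ∣ 1 := (Nat.dvd_add_right (⟨2 * f, by ring⟩ : p ∣ 2 * p * f)).1 (by
      rwa [add_comm] at h)
    exact hp.one_lt.ne' (Nat.dvd_one.1 h2)
  · have h2 : 1 + 2 * p * f = 1 + f * (2 * p) := by ring
    rw [h2, Nat.coprime_add_mul_left_left]
    exact Nat.coprime_one_left f

end FN1

open _root_.Pool.Agent.OEE.FN1 in
theorem tb_FN1E (hMAIN : Sb_MAINE) (hINN : Sb_INNE) : Sb_FN1E := by
  classical
  intro p A B P V al hC hT hG n f hn hf3 hf2 hf ι _ R u e lam hgood w hw H hH D h hD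
  letI := algC h
  intro hconj g hroot τ'
  have hf0 : f ≠ 0 := by omega
  have hlv := lv_eq hC.p2 f n
  obtain ⟨ha3, hao, hap, haf⟩ := aX_facts hC.pp hC.p2 hf0
  have hm0 : lvX p f n ≠ 0 := by
    rw [hlv]
    exact mul_ne_zero (pow_ne_zero _ hC.pp.ne_zero) hf0
  obtain ⟨hq, hmb⟩ := fin_quot A B hC.ring hm0
  haveI := hq
  have hfin : ∀ τ : D ≃ₐ[kk A B] D, (XXE R (lvX p f n) h τ).Finite := fun τ => Set.toFinite _
  let S : (D ≃ₐ[kk A B] D) → Finset (ι × (OO A B ⧸ idl (A := A) (B := B) (lvX p f n))) :=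
    fun τ => (hfin τ).toFinset
  have key := hMAIN p 1 A B P V al hC hT hG n f hn hf3 hf2 hf ι R u e lam hgood H hH D h hD
    (fun τ => cXE R (lvX p f n) H h τ) S hconj
    (fun τ q hq => ((hfin τ).mem_toFinset.1 hq).1)
    (fun τ => by
      show cXE R (lvX p f n) H h τ = _
      rw [cXE, finprod_mem_eq_finite_toFinset_prod _ (hfin τ)])
    g hroot τ'
  haveI : Finite (D ≃ₐ[kk A B] D) := fin_gal hT hmb D h hD
  letI : Fintype (D ≃ₐ[kk A B] D) := Fintype.ofFinite _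
  rw [finsum_eq_sum_of_fintype] at key ⊢
  have e1 : ∀ τ : D ≃ₐ[kk A B] D, TTNE R w (lvX p f n) (aX p f) h (τ * τ') =
      ∑ q ∈ S (τ * τ'), emb (Quotient.out q.2) * muXE R q.1 *
        dlX (R.L q.1) (aX p f) (ptE R (lvX p f n) q.1 (Quotient.out q.2)) +
      ∑ q ∈ S (τ * τ'), (w (Quotient.out q.2) - emb (Quotient.out q.2)) * (muXE R q.1 *
        dlX (R.L q.1) (aX p f) (ptE R (lvX p f n) q.1 (Quotient.out q.2))) := by
    intro τ
    rw [TTNE, finsum_mem_eq_finite_toFinset_sum _ (hfin (τ * τ')), ← Finset.sum_add_distrib]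
    refine Finset.sum_congr rfl fun q _ => ?_
    ring
  have e2 : (∑ τ : D ≃ₐ[kk A B] D, (g τ : ℂ) * TTNE R w (lvX p f n) (aX p f) h (τ * τ')) / u =
      (∑ τ : D ≃ₐ[kk A B] D, (g τ : ℂ) * ∑ q ∈ S (τ * τ'), emb (Quotient.out q.2) * muXE R q.1 *
        dlX (R.L q.1) (aX p f) (ptE R (lvX p f n) q.1 (Quotient.out q.2))) / u +
      ∑ τ : D ≃ₐ[kk A B] D, (g τ : ℂ) * ∑ q ∈ S (τ * τ'),
        (w (Quotient.out q.2) - emb (Quotient.out q.2)) * (muXE R q.1 *
        dlX (R.L q.1) (aX p f) (ptE R (lvX p f n) q.1 (Quotient.out q.2)) / u) := by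
    rw [Finset.sum_div, Finset.sum_div, ← Finset.sum_add_distrib]
    refine Finset.sum_congr rfl fun τ _ => ?_
    rw [e1, mul_add, add_div, mul_div_assoc (g τ : ℂ) (∑ q ∈ S (τ * τ'), (w (Quotient.out q.2) -
      emb (Quotient.out q.2)) * _), Finset.sum_div]
    congr 2
    refine Finset.sum_congr rfl fun q _ => ?_
    ring
  rw [e2]
  refine (V.valuation.map_add _ _).trans (max_le key ?_)
  refine V.valuation.map_sum_le fun τ _ => ?_
  rw [map_mul]
  have vg : V.valuation ((g τ : ℤ) : ℂ) ≤ 1 := (V.valuation_le_one_iff _).2 (intCast_mem V (g τ))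
  refine (mul_le_mul' vg (V.valuation.map_sum_le (g := V.valuation (p : ℂ)) fun q hq => ?_)).trans
    (one_mul _).le
  rw [map_mul]
  have hcp := ((hfin (τ * τ')).mem_toFinset.1 hq).1
  have h1 := (hINN p 1 A B P V al hC n f (aX p f) (by omega) hf ha3 hao hap haf ι R u e lam hgood
    q.1 (Quotient.out q.2) (by rw [← hlv]; exact hcp)).2.1
  rw [← hlv] at h1
  have h2 := hw.cong (Quotient.out q.2)
  rw [pow_one] at h2
  exact (mul_le_mul' h2 h1).trans (mul_one _).le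

end

end Pool.Agent.OEE


end

section

/-!
# OE, block I: module EIX, the character `e ψ(N x)`
-/

set_option autoImplicit false

namespace Pool.Agent.OEI

open _root_.MU3 Pool.Agent.MU3 Pool.Agent.MU3A Pool.Agent.MU3B Pool.Agent.RI Pool.Agent.RID
  Pool.Agent.MUX Pool.Agent.ME Pool.Agent.MUXK Pool.Agent.MUXI Pool.Agent.NS Pool.Agent.NSI
  Pool.Agent.OB Pool.Agent.OBI Pool.Agent.OT Pool.Agent.OTI

noncomputable section

/-- EIX -/
theorem te_EIX : Te_EIX := by
  intro p A B f hS hE l r hl hlf e he ψ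
  refine ⟨ti_EIX p A B f hS l r hl hlf e he.toIsEI ψ, ?_⟩
  intro z hz
  show e z * ψ ((nm z : ℤ) : ZMod (l ^ r)) = emb z
  rw [(isUnit_nm hE z).1 hz, he.unit z hz, Int.cast_one, map_one, mul_one]

end

end Pool.Agent.OEI


end

section

/-!
# OE, block I, module XMF: the sets `XXE` for the group `NC h Bn` (after `Pool/Agent/OT/I_XMF.lean`)
-/

set_option autoImplicit false

namespace Pool.Agent.OEI

open _root_.MU3 Pool.Agent.MU3 Pool.Agent.MU3A Pool.Agent.MU3B Pool.Agent.RI Pool.Agent.RID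
  Pool.Agent.MUX Pool.Agent.ME Pool.Agent.MUXK Pool.Agent.MUXI Pool.Agent.NS Pool.Agent.NSI
  Pool.Agent.OB Pool.Agent.OBI Pool.Agent.OT Pool.Agent.OTI
open Pool.Agent.MU3I (zt)

noncomputable section

open XMXx in
theorem te_XMF (h1 : Si_XXF_E) (h2 : Si_ARF_E) (h3 : Ti_NCB) (h4 : Ti_ZAR) : Te_XMF := by
  intro p hpF A B f hS hE h2f hT ι R D n h Bn hLay hBR hRB hD
  let aD : Algebra (kk A B) ↥D := algC h
  intro hG γ hγ z₀ hz₀
  have hQ := hS.cq
  have hp0 : 0 < p := hS.pp.pos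
  have hq3 : 3 ≤ p := by
    have h4 := hS.pp.two_le
    have h5 := hS.p2
    omega
  have hf1 : 1 ≤ f := Nat.one_le_iff_ne_zero.2 hS.f0
  have hpn : 1 ≤ p ^ n := Nat.one_le_pow _ _ hp0
  set m : ℕ := lvX p f n with hm
  set M : ℕ := p ^ (n + 1) with hM
  have hmM : m = f * M := by rw [hm, hM, lvX_odd hS.p2]
  have hM3 : 3 ≤ M := by
    rw [hM]
    calc 3 = 1 * 3 := rfl
      _ ≤ p ^ n * p := Nat.mul_le_mul hpn hq3
      _ = p ^ (n + 1) := (pow_succ p n).symm
  have hm3 : 3 ≤ m := by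
    rw [hmM]
    calc 3 = 1 * 3 := rfl
      _ ≤ f * M := Nat.mul_le_mul hf1 hM3
  have hm2 : 2 ≤ m := by omega
  have hM0 : M ≠ 0 := by omega
  have hm0 : idl (A := A) (B := B) m ≠ ⊥ := by
    rw [Ne, Ideal.span_singleton_eq_bot]
    exact natCast_ne_zero' hQ (by omega)
  have h2n : 2 ∣ m := by
    rw [hmM]
    exact h2f.mul_right M
  have hcop : ∀ i, (nI (R.b i)).Coprime m := by
    intro i
    have h4 := R.cop i
    have h5 : (nI (R.b i)).Coprime p := h4.coprime_mul_right_right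
    have h6 : (nI (R.b i)).Coprime f := h4.coprime_mul_left_right
    rw [hmM, hM]
    exact h6.mul_right (h5.pow_right (n + 1))
  have hNL : ∃ (b : Ideal (OO A B)) (L : PeriodPair) (om : ℂ), IsNE b L om :=
    ⟨_, _, _, R.nl R.i0⟩
  obtain ⟨a1, -, a3, a4, a5, -, a7⟩ := h2 A B hQ hT hNL (idl m) hm0
    (MUXI.Hit.idl_le h2n) D h hD hG
  obtain ⟨x1, xt, x2⟩ := h1 A B hE hT (p * f) ι R m (by omega) h2n D h hD hG
  have hcomm : ∀ σ τ : ↥D ≃ₐ[kk A B] ↥D, σ * τ = τ * σ := by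
    intro σ τ
    obtain ⟨a, -, ha⟩ := a3 σ
    obtain ⟨b, -, hb⟩ := a3 τ
    have h5 := a5 σ τ a b ha hb
    have h6 := a5 τ σ b a hb ha
    refine a4 _ _ _ _ h5 h6 ⟨1, 1, ?_, ?_, ?_, ?_, ?_⟩
    · have := natCast_ne_zero' hQ (n := 1) one_ne_zero
      rwa [Nat.cast_one] at this
    · have := natCast_ne_zero' hQ (n := 1) one_ne_zero
      rwa [Nat.cast_one] at this
    · rw [sp, Ideal.span_singleton_one, ← Ideal.one_eq_top]
      exact isCoprime_one_left
    · rw [sub_self]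
      exact Ideal.zero_mem _
    · rw [mul_comm a b]
  have hcopr : ∀ τ, ∀ q ∈ XXE R m h τ,
      IsCoprime (Quotient.out q.2 : OO A B) ((m : ℕ) : OO A B) := fun τ q hq => hq.1
  refine ⟨hcomm, hcopr, xt, fun q hq hq2 => (x2 q hq).1 hq2,
    fun q τ τ' hq hq' => (x2 q (hcopr τ q hq)).2 τ τ' hq hq', ?_⟩
  intro q τ hq j
  set ζ : ℂ := zt M with hζd
  have hζ : IsPrimitiveRoot ζ M := Complex.isPrimitiveRoot_exp M hM0
  have hζM : ζ ^ M = 1 := hζ.pow_eq_one
  have htB : ζ + ζ⁻¹ ∈ RB p n := IntermediateField.mem_adjoin_simple_self ℚ _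
  have htD : ζ + ζ⁻¹ ∈ D := hRB htB
  set y : ↥D := ⟨ζ + ζ⁻¹, htD⟩ with hy
  have hle : idl (A := A) (B := B) m ≤ idl M := by
    rw [Ideal.span_singleton_le_span_singleton, hmM]
    push_cast
    exact dvd_mul_left _ _
  -- the ideal of `τ`
  set x : OO A B := Quotient.out q.2 with hx
  have hxc : IsCoprime x ((m : ℕ) : OO A B) := hcopr τ q hq
  have hqe : (q.1, Ideal.Quotient.mk (idl (A := A) (B := B) m) x) = q := by
    have h5 : Ideal.Quotient.mk (idl (A := A) (B := B) m) x = q.2 := Quotient.out_eq q.2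
    rw [h5]
  have hAR : AR_E h (idl m) τ (sp x * cjI (R.b q.1)) := by
    refine ((x1 τ q.1 x hxc).1 ?_).2
    rw [hqe]
    exact hq
  have hx0 : x ≠ 0 := by
    intro h0
    rw [h0, isCoprime_zero_left] at hxc
    obtain ⟨z, hz⟩ := hxc.exists_right_inv
    exact natCast_not_unit hm2 z hz
  have hb0 : R.b q.1 ≠ ⊥ := (R.nl q.1).b_ne
  have hspx : sp x ≠ ⊥ := by
    rwa [Ne, Ideal.span_singleton_eq_bot]
  have hN : ((nI (sp x * cjI (R.b q.1)) : ℕ) : ℤ) = nm x * nI (R.b q.1) := by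
    rw [nI_mul hQ hspx (cjI_ne_bot hQ hb0), nI_sp hQ hx0, nI_cjI hQ hb0]
    push_cast
    rw [abs_of_nonneg (nm_nonneg hQ x)]
  have e1 := a7 M τ _ ζ y hM0 hle hAR hζM rfl
  -- the ideal of `γ`
  obtain ⟨c, hcc, hc⟩ := a3 γ
  have hc0 : c ≠ ⊥ := by
    rintro rfl
    have h5 : IsUnit (idl (A := A) (B := B) m) := isCoprime_zero_left.1 hcc
    rw [Ideal.isUnit_iff, Ideal.eq_top_iff_one] at h5
    obtain ⟨z, hz⟩ := Ideal.mem_span_singleton.1 h5
    exact natCast_not_unit hm2 z hz.symm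
  have hARj : ∀ j : ℕ, AR_E h (idl m) (γ ^ j) (c ^ j) := by
    intro j
    induction j with
    | zero =>
      rw [pow_zero, pow_zero, Ideal.one_eq_top]
      exact a1
    | succ j ih =>
      rw [pow_succ, pow_succ]
      exact a5 _ _ _ _ ih hc
  have e2 := a7 M (γ ^ j) _ ζ y hM0 hle (hARj j) hζM rfl
  rw [(nI_pow hQ hc0 j).2] at e2
  have e3 := a7 M γ _ ζ y hM0 hle hc hζM rfl
  have e4 := hγ y rfl
  rw [e3] at e4
  have e5 := (pm hM0 hζ _ _).1 e4
  have e6 := pw (M : ℤ) (nI c : ℤ) ((1 + p : ℕ) : ℤ) e5 j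
  -- the condition on `τ`
  let φ : ↥D →+* ℂ := (algebraMap ↥D ℂ).comp (τ : ↥D →+* ↥D)
  let ψ : ↥D →+* ℂ := (algebraMap ↥D ℂ).comp ((γ ^ j : ↥D ≃ₐ[kk A B] ↥D) : ↥D →+* ↥D)
  have key : τ * (γ ^ j)⁻¹ ∈ NC h Bn ↔ ∀ z : ↥D, (z : ℂ) ∈ Bn → φ z = ψ z := by
    rw [hcomm τ (γ ^ j)⁻¹]
    constructor
    · intro hmem z hz
      have h5 : ((γ ^ j)⁻¹ * τ) z = z := hmem z hz
      have h6 : τ z = (γ ^ j) z := by
        have h7 : (γ ^ j) (((γ ^ j)⁻¹ * τ) z) = (γ ^ j) z := by rw [h5]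
        rwa [← AlgEquiv.mul_apply, mul_inv_cancel_left] at h7
      show ((τ z : ↥D) : ℂ) = (((γ ^ j) z : ↥D) : ℂ)
      rw [h6]
    · intro he z hz
      have h6 : τ z = (γ ^ j) z := Subtype.ext (he z hz)
      show (γ ^ j)⁻¹ (τ z) = z
      rw [h6, ← AlgEquiv.mul_apply, inv_mul_cancel]
      rfl
  -- the norms are prime to `p`
  have hpp : Prime (p : ℤ) := Nat.prime_iff_prime_int.1 hS.pp
  have hpm : p ∣ m := by
    rw [hmM, hM, pow_succ]
    exact (dvd_mul_left p (p ^ n)).mul_left f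
  have hpM : (p : ℤ) ∣ (M : ℤ) := by
    rw [hM, pow_succ]
    push_cast
    exact dvd_mul_left _ _
  have hpa : ¬ p ∣ nI (sp x * cjI (R.b q.1)) := by
    intro h5
    have h6 : (p : ℤ) ∣ nm x * nI (R.b q.1) := by
      rw [← hN]
      exact_mod_cast h5
    rcases hpp.dvd_or_dvd h6 with h7 | h7
    · have h8 : IsCoprime (nm x) ((m : ℕ) : ℤ) := EIXx.nm_cop hQ hxc
      have h9 : (p : ℤ) ∣ ((m : ℕ) : ℤ) := by exact_mod_cast hpm
      exact hpp.not_isUnit (h8.isUnit_of_dvd' h7 h9)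
    · have h8 : p ∣ nI (R.b q.1) := by exact_mod_cast h7
      have h9 := Nat.dvd_gcd h8 hpm
      rw [hcop q.1] at h9
      exact hS.pp.one_lt.ne' (Nat.dvd_one.1 h9)
  have hpb : ¬ p ∣ nI c ^ j := by
    intro h5
    have h6 : (p : ℤ) ∣ (nI c : ℤ) := by exact_mod_cast hS.pp.dvd_of_dvd_pow h5
    have h7 : (p : ℤ) ∣ ((1 + p : ℕ) : ℤ) := by
      rcases e5 with h8 | h8
      · have h9 := dvd_sub h6 (hpM.trans h8)
        rwa [sub_sub_cancel] at h9
      · have h9 := dvd_sub (hpM.trans h8) h6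
        rwa [add_sub_cancel_left] at h9
    have h8 : p ∣ 1 + p := by exact_mod_cast h7
    have h9 : p ∣ 1 := (Nat.dvd_add_left (dvd_refl p)).1 h8
    exact hS.pp.one_lt.ne' (Nat.dvd_one.1 h9)
  have e7 := h3 p hS.p2 n Bn hLay hBR D hRB φ ψ _ _ hpa hpb y rfl e1 e2
  have hMp : (M : ℤ) ∣ ((nI c ^ j : ℕ) : ℤ) ^ (p - 1) - ((1 + (p : ℤ)) ^ j) ^ (p - 1) := by
    have h5 : Even (p - 1) := by
      obtain ⟨k, hk⟩ := hS.pp.odd_of_ne_two hS.p2
      exact ⟨k, by omega⟩
    have h6 : ((nI c ^ j : ℕ) : ℤ) = (nI c : ℤ) ^ j := by push_cast; rfl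
    have h7 : ((1 + p : ℕ) : ℤ) ^ j = (1 + (p : ℤ)) ^ j := by push_cast; rfl
    rw [h6, ← h7]
    rcases e6 with h8 | h8
    · exact h8.trans (sub_dvd_pow_sub_pow _ _ _)
    · have h9 : (M : ℤ) ∣ (nI c : ℤ) ^ j - -(((1 + p : ℕ) : ℤ) ^ j) := by
        rwa [sub_neg_eq_add]
      have h10 := h9.trans (sub_dvd_pow_sub_pow _ _ (p - 1))
      rwa [h5.neg_pow] at h10
  have e8 := (h4 p n hS.pp hS.p2 z₀ hz₀).2.2 ((nI (sp x * cjI (R.b q.1)) : ℕ) : ℤ) j
    (by exact_mod_cast hpa)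
  rw [key, e7, ← hN, ← e8]
  constructor
  · intro h5
    have h6 := dvd_add h5 hMp
    rwa [sub_add_sub_cancel] at h6
  · intro h5
    have h6 := dvd_sub h5 hMp
    rwa [sub_sub_sub_cancel_right] at h6

end

end Pool.Agent.OEI


end

section

/-!
# OE: the odd character, the twist `t`, the sign `s` and the type `i`, for `SetG` (copy of `OB/I_EPS.lean`)
-/

set_option autoImplicit false

namespace Pool.Agent.OE

open _root_.MU3 Pool.Agent.MU3 Pool.Agent.MU3A Pool.Agent.MU3B Pool.Agent.RI Pool.Agent.RID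
  Pool.Agent.MUX Pool.Agent.MUXK Pool.Agent.MUXI Pool.Agent.NS Pool.Agent.NSI Pool.Agent.OB
open Pool.Agent.MU3I (zt)

noncomputable section


open Pool.Agent.OBI Pool.Agent.OBI.EPSx

theorem o_EPSG (hbas : S_BASG) (hprf : S_PRFG) : S_EPSG := by
  intro p er A B P V f hS w hw e0 r hpr h1 hm1 hmul hper hsupp hpow
  have hc : CQ A B := hS.cq
  obtain ⟨vp, v2, hmax, vle, vlt, vnat, hq, -, hN4, -, hPc, hidl⟩ := hbas p er A B P V hS.toCaseG
  obtain ⟨hPZ, -, hpowN, ⟨g, hgP, hrep⟩, m, hm, hmN, hm1', hmq, hnm⟩ :=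
    hprf p er A B P V hS.toCaseG
  have hprime := hS.prime
  have hpP := hS.mem
  have lv : lvX p f 0 = p * f := by
    rw [lvX_odd (by have := hS.p5; omega)]
    ring
  rw [lv] at hper hsupp
  rw [lv]
  have h1P : (1 : OO A B) ∉ P := fun h => hprime.ne_top ((Ideal.eq_top_iff_one _).2 h)
  have hpowP : ∀ (x : OO A B) (k : ℕ), x ∉ P → x ^ k ∉ P := fun x k hx h =>
    hx (hprime.mem_of_pow_mem k h)
  -- `idl (p f) = gO * P^er`
  have hidlmul : idl (A := A) (B := B) (p * f) = gO P f * P ^ er := by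
    have h2 : idl (A := A) (B := B) (p * f) = idl (A := A) (B := B) p * idl (A := A) (B := B) f := by
      have e : ((p * f : ℕ) : OO A B) = ((p : ℕ) : OO A B) * ((f : ℕ) : OO A B) := by
        push_cast
        rfl
      have e2 := Ideal.span_singleton_mul_span_singleton ((p : ℕ) : OO A B) ((f : ℕ) : OO A B)
      rw [← e] at e2
      exact e2.symm
    rw [h2, hidl]
    unfold gO
    rw [mul_comm (Pc P) (P ^ er), mul_comm (P ^ er * Pc P), mul_comm (P ^ er), mul_assoc]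
  have herle : er ≤ 2 := by rcases hS.ram with ⟨h, -⟩ | ⟨h, -⟩ <;> omega
  have her1 : 1 ≤ er := by rcases hS.ram with ⟨h, -⟩ | ⟨h, -⟩ <;> omega
  have hleP : ∀ x, x ∈ idl (A := A) (B := B) (p * f) → x ∈ P := by
    intro x hx
    rw [hidlmul] at hx
    exact EPSx.gle_pow her1 (EPSx.gmem_left hx)
  have hleG : ∀ x, x ∈ idl (A := A) (B := B) (p * f) → x ∈ gO P f := by
    intro x hx
    rw [hidlmul] at hx
    exact EPSx.gmem_right hx
  have hGPc : ∀ x, x ∈ gO P f → x ∈ Pc P := by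
    intro x hx
    unfold gO at hx
    exact EPSx.gmem_left hx
  -- `gO` is prime to `P`
  have hcopf : IsCoprime (idl (A := A) (B := B) f) P := by
    have h2 : IsCoprime ((p : ℕ) : ℤ) ((f : ℕ) : ℤ) :=
      Nat.isCoprime_iff_coprime.2 ((Nat.Prime.coprime_iff_not_dvd hS.pp).2 hS.fp)
    obtain ⟨a, b, hab⟩ := h2
    rw [Ideal.isCoprime_iff_exists]
    refine ⟨(b : OO A B) * ((f : ℕ) : OO A B), Ideal.mul_mem_left _ _
      (Ideal.mem_span_singleton_self _), (a : OO A B) * ((p : ℕ) : OO A B),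
      Ideal.mul_mem_left _ _ hpP, ?_⟩
    have h3 := congrArg (fun n : ℤ => (n : OO A B)) hab
    push_cast at h3 ⊢
    linear_combination h3
  have hG : IsCoprime (gO P f) P := by
    unfold gO
    exact IsCoprime.mul_left hcopf hPc
  -- elements of `k*` are prime to `p f`
  have hkcop : ∀ x, x - 1 ∈ gO P f → x ∉ P → IsCoprime x ((p * f : ℕ) : OO A B) := by
    intro x hx hxP
    have h2 : IsCoprime (sp x) (gO P f) := by
      rw [Ideal.isCoprime_iff_exists]
      refine ⟨x, Ideal.mem_span_singleton_self _, -(x - 1), neg_mem hx, ?_⟩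
      ring
    have h3 : IsCoprime (sp x) P := by
      obtain ⟨y, i, hi, hy⟩ := hmax.exists_inv hxP
      rw [Ideal.isCoprime_iff_exists]
      exact ⟨y * x, Ideal.mul_mem_left _ _ (Ideal.mem_span_singleton_self _), i, hi, hy⟩
    have h4 : IsCoprime (sp x) (idl (A := A) (B := B) (p * f)) := by
      rw [hidlmul]
      exact IsCoprime.mul_right h2 (IsCoprime.pow_right h3)
    exact (Ideal.isCoprime_span_singleton_iff _ _).1 h4
  -- step A
  have stepA : ∀ x x', x - 1 ∈ gO P f → x ∉ P → x' - 1 ∈ gO P f → x' ∉ P → x - x' ∈ P →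
      e0 x = e0 x' := by
    intro x x' hx hxP hx' hxP' hxx
    obtain ⟨x'', b, hab⟩ := hkcop x' hx' hxP'
    have h2 : x'' * x' - 1 ∈ idl (A := A) (B := B) (p * f) := by
      rw [EPSx.mem_idl]
      refine ⟨-b, ?_⟩
      linear_combination hab
    have h3 : e0 x'' * e0 x' = 1 := by rw [← hmul, hper _ _ h2, h1]
    -- `y = x x''`
    have hyP : x'' * x - 1 ∈ P := by
      have e : x'' * x - 1 = x'' * (x - x') + (x'' * x' - 1) := by ring
      rw [e]
      exact Ideal.add_mem _ (Ideal.mul_mem_left _ _ hxx) (hleP _ h2)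
    have hyG : x'' * x - 1 ∈ gO P f := by
      have e : x'' * x - 1 = x'' * ((x - 1) - (x' - 1)) + (x'' * x' - 1) := by ring
      rw [e]
      exact Ideal.add_mem _ (Ideal.mul_mem_left _ _ (Ideal.sub_mem _ hx hx')) (hleG _ h2)
    have hyGP : x'' * x - 1 ∈ gO P f * P := by
      exact EPSx.gmem_inf hG hyG hyP
    have hs : (∑ i ∈ Finset.range p, (x'' * x) ^ i) ∈ P := by
      have e : (∑ i ∈ Finset.range p, (x'' * x) ^ i) =
          (∑ i ∈ Finset.range p, ((x'' * x) ^ i - 1)) + ((p : ℕ) : OO A B) := by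
        rw [Finset.sum_sub_distrib]
        simp
      rw [e]
      refine Ideal.add_mem _ (Ideal.sum_mem _ fun i _ => ?_) hpP
      have h5 := sub_dvd_pow_sub_pow (x'' * x) 1 i
      rw [one_pow] at h5
      exact Ideal.mem_of_dvd _ h5 hyP
    have hyp : (x'' * x) ^ p - 1 ∈ idl (A := A) (B := B) (p * f) := by
      have e : (x'' * x) ^ p - 1 = (x'' * x - 1) * ∑ i ∈ Finset.range p, (x'' * x) ^ i := by
        rw [mul_comm (x'' * x - 1), geom_sum_mul]
      rw [e, hidlmul]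
      exact EPSx.gmem_pow herle hyGP hs
    have h4 : e0 (x'' * x) ^ p = 1 := by
      rw [← mul_pow' h1 hmul, hper _ _ hyp, h1]
    have h5 : e0 (x'' * x) ≠ 0 := by
      intro h
      rw [h, zero_pow hS.pp.ne_zero] at h4
      exact zero_ne_one h4
    have h6 := hpow _ h5
    have h7 : e0 (x'' * x) = 1 := by
      have h8 : Nat.Coprime p r := (Nat.Prime.coprime_iff_not_dvd hS.pp).2 hpr
      have h9 := orderOf_dvd_of_pow_eq_one h4
      have h10 := orderOf_dvd_of_pow_eq_one h6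
      have h11 := Nat.dvd_gcd h9 h10
      rw [h8] at h11
      exact orderOf_eq_one_iff.1 (Nat.dvd_one.1 h11)
    rw [hmul] at h7
    have h8 : e0 x'' ≠ 0 := left_ne_zero_of_mul_eq_one h3
    exact mul_left_cancel₀ h8 (h7.trans h3.symm)
  -- the lift `Y` of the generator
  obtain ⟨a, ha, b, hb, hab⟩ := Ideal.isCoprime_iff_exists.1 hG
  obtain ⟨Y, hYP, hYG⟩ : ∃ Y : OO A B, Y - g ∈ P ∧ Y - 1 ∈ gO P f := by
    refine ⟨g * a + b, ?_, ?_⟩
    · have e : g * a + b - g = (1 - g) * b := by linear_combination g * hab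
      rw [e]
      exact Ideal.mul_mem_left _ _ hb
    · have e : g * a + b - 1 = (g - 1) * a := by linear_combination hab
      rw [e]
      exact Ideal.mul_mem_left _ _ ha
  have hYPn : Y ∉ P := by
    intro h
    apply hgP
    have := Ideal.sub_mem _ h hYP
    rwa [sub_sub_cancel] at this
  have hYkP : ∀ k : ℕ, Y ^ k - g ^ k ∈ P := fun k =>
    Ideal.mem_of_dvd _ (sub_dvd_pow_sub_pow Y g k) hYP
  have hYkG : ∀ k : ℕ, Y ^ k - 1 ∈ gO P f := fun k => by
    have h2 := sub_dvd_pow_sub_pow Y 1 k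
    rw [one_pow] at h2
    exact Ideal.mem_of_dvd _ h2 hYG
  have h11 : (1 : OO A B) - 1 ∈ gO P f := by
    rw [sub_self]
    exact Ideal.zero_mem _
  have eYN : e0 Y ^ (nI P - 1) = 1 := by
    rw [← mul_pow' h1 hmul, stepA (Y ^ (nI P - 1)) 1 (hYkG _) (hpowP _ _ hYPn) h11 h1P
      (hpowN Y hYPn), h1]
  have wne : ∀ x, x ∉ P → w x ≠ 0 := by
    intro x hx h
    have h5 := hw.pow x hx
    rw [h, zero_pow (by omega)] at h5
    exact zero_ne_one h5
  -- `w (-1) = -1`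
  have wm1 : w (-1) = -1 := by
    have h2 : w (-1) * w (-1) = 1 := by
      rw [← hw.mul, neg_mul_neg, one_mul, hw.one]
    rcases mul_self_eq_one_iff.1 h2 with h | h
    · exfalso
      have h4 := hw.cong (-1)
      rw [h, MUX.emb_neg hc, MUX.emb_one hc] at h4
      have e : (1 : ℂ) - -1 = 2 := by norm_num
      rw [e, v2, one_pow] at h4
      exact absurd (h4.trans_lt vp) (lt_irrefl _)
    · exact h
  have hprim : IsPrimitiveRoot (w g) (nI P - 1) := by
    refine ⟨hw.pow g hgP, fun l hl => ?_⟩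
    apply ord_dvd hmax hN4 hgP hrep
    rw [← mul_pow' hw.one hw.mul] at hl
    have h4 := hw.cong (g ^ l)
    rw [hl] at h4
    have h5 : V.valuation (1 - emb (g ^ l)) < 1 := by
      by_contra hcon
      have h6 : 1 ≤ V.valuation (1 - emb (g ^ l)) ^ er := one_le_pow₀ (not_lt.1 hcon)
      exact absurd ((h6.trans h4).trans_lt vp) (lt_irrefl _)
    rw [← MUX.emb_one hc, ← MUX.emb_sub hc] at h5
    have h6 := (vlt _).1 h5
    have h7 := neg_mem h6
    rwa [neg_sub] at h7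
  have _ : NeZero (nI P - 1) := ⟨by omega⟩
  obtain ⟨b0, hb0N, hb0⟩ := hprim.eq_pow_of_pow_eq_one eYN
  -- `e0 = w ^ b0` on `k*`
  have he0 : ∀ x, x - 1 ∈ gO P f → x ∉ P → e0 x = w x ^ b0 := by
    intro x hx hxP
    obtain ⟨k, hk⟩ := hrep x hxP
    have h4 : x - Y ^ k ∈ P := by
      have := Ideal.sub_mem _ hk (hYkP k)
      have e : x - g ^ k - (Y ^ k - g ^ k) = x - Y ^ k := by ring
      rwa [e] at this
    rw [stepA x (Y ^ k) hx hxP (hYkG k) (hpowP _ _ hYPn) h4, hw.per _ _ hk, mul_pow' h1 hmul,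
      mul_pow' hw.one hw.mul, ← hb0, ← pow_mul, ← pow_mul, mul_comm]
  have wnm : ∀ x, x - 1 ∈ gO P f → x ∉ P → w ((nm x : ℤ) : OO A B) = w x ^ m := by
    intro x hx hxP
    rw [hw.per _ _ (hnm x (hGPc _ hx) hxP), mul_pow' hw.one hw.mul]
  -- the exponents
  obtain ⟨cc, hcc⟩ := hmN
  have hcc1 : 1 ≤ cc := by
    rcases Nat.eq_zero_or_pos cc with h | h
    · rw [h, mul_zero] at hcc
      omega
    · exact h
  obtain ⟨i, j, hmi, hi, hij⟩ : ∃ i j : ℕ, m ≤ i ∧ i ≤ nI P - 2 ∧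
      i + m * j = b0 + 1 + (nI P - 1) := by
    refine ⟨m + (b0 + 1) % m, (b0 + 1) / m + (cc - 1), by omega, ?_, ?_⟩
    · have := Nat.mod_lt (b0 + 1) (show 0 < m by omega)
      omega
    · obtain ⟨c', rfl⟩ : ∃ c', cc = c' + 1 := ⟨cc - 1, by omega⟩
      have h5 := Nat.mod_add_div (b0 + 1) m
      rw [hcc, Nat.add_sub_cancel, mul_add, mul_add, mul_one]
      omega
  -- norms
  have hpf : ∀ x : OO A B, IsCoprime x ((p * f : ℕ) : OO A B) → IsCoprime x ((p : ℕ) : OO A B) := by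
    intro x hx
    have e : ((p * f : ℕ) : OO A B) = ((p : ℕ) : OO A B) * ((f : ℕ) : OO A B) := by push_cast; rfl
    rw [e] at hx
    exact hx.of_mul_right_left
  have hcopP : ∀ x : OO A B, IsCoprime x ((p * f : ℕ) : OO A B) → x ∉ P := by
    intro x hx hxP
    obtain ⟨u, z, huz⟩ := hpf x hx
    apply h1P
    rw [← huz]
    exact Ideal.add_mem _ (Ideal.mul_mem_left _ _ hxP) (Ideal.mul_mem_left _ _ hpP)
  have hnmP : ∀ x : OO A B, IsCoprime x ((p * f : ℕ) : OO A B) → ((nm x : ℤ) : OO A B) ∉ P := by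
    intro x hx h
    exact nm_ndvd hprime hpP (hpf x hx) ((hPZ _).1 h)
  refine ⟨fun x => e0 x * w x * (w ((nm x : ℤ) : OO A B) ^ j)⁻¹, (-1) ^ j, i,
    fun a => w (a : OO A B) ^ j, ?_, neg_one_pow_eq_or ℤ j, ?_, hi, ?_, ?_, ?_, ?_, ?_, ?_, ?_, ?_⟩
  · refine ⟨?_, ?_, ?_, ?_, ?_⟩
    · simp only [h1, nm_one, Int.cast_one, hw.one, one_pow, inv_one, mul_one]
    · intro x y
      simp only [hmul, hw.mul, MUX.nm_mul hc, Int.cast_mul, mul_pow, mul_inv]
      ring
    · intro x y hxy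
      have h5 : ((nm x : ℤ) : OO A B) - ((nm y : ℤ) : OO A B) ∈ P := by
        rw [← Int.cast_sub, hPZ]
        apply nm_congr
        rw [EPSx.mem_idl] at hxy ⊢
        refine dvd_trans ⟨((f : ℕ) : OO A B), ?_⟩ hxy
        push_cast
        rfl
      rw [hper x y hxy, hw.per x y (hleP _ hxy), hw.per _ _ h5]
    · intro x
      rw [Ideal.isCoprime_span_singleton_iff]
      constructor
      · intro h
        exact (hsupp x).1 (left_ne_zero_of_mul (left_ne_zero_of_mul h))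
      · intro h
        exact mul_ne_zero (mul_ne_zero ((hsupp x).2 h) (wne x (hcopP x h)))
          (inv_ne_zero (pow_ne_zero _ (wne _ (hnmP x h))))
    · simp only [hm1, wm1, nm_neg_one, Int.cast_one, hw.one, one_pow, inv_one, mul_one, one_mul]
  · rw [hm]
    exact Nat.mul_le_mul_right _ hmi
  · intro x hx hxP
    simp only
    rw [he0 x hx hxP, wnm x hx hxP, ← pow_mul, ← pow_succ]
    have h5 : w x ^ (m * j) ≠ 0 := pow_ne_zero _ (wne x hxP)
    rw [← div_eq_mul_inv, div_eq_iff h5, ← pow_add, hij, pow_add _ (b0 + 1), hw.pow x hxP, mul_one,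
      pow_succ]
  · intro x hx
    simp only at hx ⊢
    have hcx := (hsupp x).1 (left_ne_zero_of_mul (left_ne_zero_of_mul hx))
    have hxP := hcopP x hcx
    have e1 : e0 x ^ ((nI P - 1) * r) = 1 := by
      rw [mul_comm, pow_mul, hpow x ((hsupp x).2 hcx), one_pow]
    have e2 : w x ^ ((nI P - 1) * r) = 1 := by
      rw [pow_mul, hw.pow x hxP, one_pow]
    have e3 : (w ((nm x : ℤ) : OO A B) ^ j) ^ ((nI P - 1) * r) = 1 := by
      rw [← pow_mul, mul_comm j, mul_assoc, pow_mul, hw.pow _ (hnmP x hcx), one_pow]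
    rw [mul_pow, mul_pow, e1, e2, inv_pow, e3]
    norm_num
  · intro a b
    simp only [Int.cast_mul, hw.mul, mul_pow]
  · intro a b hab
    simp only
    rw [hw.per (a : OO A B) (b : OO A B) (by rw [← Int.cast_sub]; exact (hPZ _).2 hab)]
  · simp only [Int.cast_one, hw.one, one_pow]
  · simp only [Int.cast_neg, Int.cast_one, wm1, Int.cast_pow]
  · intro a ha'
    simp only
    rw [← pow_mul, mul_comm, pow_mul, hw.pow _ (fun h => ha' ((hPZ _).1 h)), one_pow]
  · intro x hx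
    simp only
    have h5 : w ((nm x : ℤ) : OO A B) ^ j ≠ 0 := pow_ne_zero _ (wne _ (hnmP x hx))
    rw [mul_assoc _ (w ((nm x : ℤ) : OO A B) ^ j)⁻¹, inv_mul_cancel₀ h5, mul_one]

end

end Pool.Agent.OE


end

section

/-!
# OE: facts on `P`, continued, for `CaseG` (copy of `OB/I_PRF.lean`)
-/

set_option autoImplicit false

namespace Pool.Agent.OE

open _root_.MU3 Pool.Agent.MU3 Pool.Agent.MU3A Pool.Agent.MU3B Pool.Agent.RI Pool.Agent.RID
  Pool.Agent.MUX Pool.Agent.MUXK Pool.Agent.MUXI Pool.Agent.NS Pool.Agent.NSI Pool.Agent.OB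

noncomputable section


open Pool.Agent.OBI.PRFx in
theorem o_PRFG (hB : S_BASG) : S_PRFG := by
  intro p er A B P V hc
  obtain ⟨v1, v2, hM, vle, vlt, vn, hq, hqn, hq4, hy, hcop, hid⟩ := hB p er A B P V hc
  have hcq := hc.cq
  have hp := hc.pp
  have hp5 := hc.p5
  have hfp : Fact p.Prime := ⟨hp⟩
  have hp0 : ((p : ℕ) : OO A B) ≠ 0 := natCast_ne_zero' hcq hp.ne_zero
  have hPb : P ≠ ⊥ := by
    intro h0
    have := hc.mem
    rw [h0, Ideal.mem_bot] at this
    exact hp0 this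
  have hfin : Finite (OO A B ⧸ P) := finite_quot hcq hPb
  have hpn : nI (idl (A := A) (B := B) p) = p ^ 2 := by
    rw [show (idl (A := A) (B := B) p) = sp ((p : ℕ) : OO A B) from rfl, nI_sp hcq hp0]
    have : ((p : ℕ) : OO A B) = (((p : ℕ) : ℤ) : OO A B) := by push_cast; rfl
    rw [this, nm_intCast, Int.natAbs_pow, Int.natAbs_natCast]
  let _ : Field (OO A B ⧸ P) := Ideal.Quotient.field P
  let _ : Fintype (OO A B ⧸ P) := Fintype.ofFinite _
  have hcard : Fintype.card (OO A B ⧸ P) = nI P := by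
    unfold nI
    rw [Nat.card_eq_fintype_card]
  have hchar : CharP (OO A B ⧸ P) p := charP_quot hM hp hc.mem
  refine ⟨int_mem hM.ne_top hp hc.mem, ?_, ?_, ?_, ?_⟩
  · -- (2)
    intro x hx
    obtain ⟨t, ht, s, hs, hts⟩ := Ideal.isCoprime_iff_exists.1 hcop
    have htP : t ∉ P := by
      intro htP
      apply hM.ne_top
      rw [Ideal.eq_top_iff_one, ← hts]
      exact P.add_mem htP hs
    have h1 : t * x ^ er ∈ idl (A := A) (B := B) p := by
      rw [hid]
      exact Ideal.mul_mem_mul ht (Ideal.pow_mem_pow hx er)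
    obtain ⟨z, hz⟩ := Ideal.mem_span_singleton.1 h1
    have h2 := congrArg emb hz
    rw [emb_mul hcq, emb_pow hcq, emb_mul hcq, emb_natCast hcq] at h2
    have h3 := congrArg V.valuation h2
    rw [map_mul, map_mul, map_pow] at h3
    have h4 : V.valuation (emb t) = 1 :=
      le_antisymm (vle t) (not_lt.1 fun h => htP ((vlt t).1 h))
    rw [h4, one_mul] at h3
    rw [h3]
    exact mul_le_of_le_one_right' (vle z)
  · -- (3)
    intro x hx
    have h1 : Ideal.Quotient.mk P x ≠ 0 := fun h => hx (Ideal.Quotient.eq_zero_iff_mem.1 h)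
    have h2 := FiniteField.pow_card_sub_one_eq_one _ h1
    rw [hcard, ← map_pow, ← map_one (Ideal.Quotient.mk P)] at h2
    exact Ideal.Quotient.eq.1 h2
  · -- (4)
    obtain ⟨g, hg⟩ := IsCyclic.exists_generator (α := (OO A B ⧸ P)ˣ)
    obtain ⟨g0, hg0⟩ := Ideal.Quotient.mk_surjective (I := P) (g : OO A B ⧸ P)
    refine ⟨g0, ?_, ?_⟩
    · intro h
      have h1 := Ideal.Quotient.eq_zero_iff_mem.2 h
      rw [hg0] at h1
      exact g.ne_zero h1
    · intro x hx
      have h1 : Ideal.Quotient.mk P x ≠ 0 := fun h => hx (Ideal.Quotient.eq_zero_iff_mem.1 h)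
      have h2 := hg (Units.mk0 _ h1)
      rw [← mem_powers_iff_mem_zpowers] at h2
      obtain ⟨k, hk⟩ := h2
      refine ⟨k, Ideal.Quotient.eq.1 ?_⟩
      have h3 := congrArg (fun u : (OO A B ⧸ P)ˣ => (u : OO A B ⧸ P)) hk
      simp only [Units.val_pow_eq_pow_val, Units.val_mk0] at h3
      rw [map_pow, hg0, h3]
  · -- (5)
    have hcb : cjI P ≠ ⊥ := cjI_ne_bot hcq hPb
    have hcn : nI (cjI P) = nI P := nI_cjI hcq hPb
    have hp1 : 1 < p := hp.one_lt
    have hPe : P ^ er ≠ ⊥ := by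
      rcases hc.ram with ⟨rfl, -⟩ | ⟨rfl, -⟩
      · rw [pow_one]; exact hPb
      · rw [pow_two]; exact mul_ne_bot hcq hPb hPb
    have hne : nI (P ^ er) = nI P ^ er := by
      rcases hc.ram with ⟨rfl, -⟩ | ⟨rfl, -⟩
      · rw [pow_one, pow_one]
      · rw [pow_two, pow_two]; exact nI_mul hcq hPb hPb
    -- the norm equation
    have hnc : cjI P = P → nI P ^ er = p ^ 2 := by
      intro h1
      have h2 : Pc P = ⊤ := by unfold Pc; rw [if_pos h1]
      rw [h2, Ideal.top_mul] at hid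
      rw [← hne, ← hid, hpn]
    have hnn : cjI P ≠ P → nI P * nI P ^ er = p ^ 2 := by
      intro h1
      have h2 : Pc P = cjI P := by unfold Pc; rw [if_neg h1]
      rw [h2] at hid
      rw [← hne, ← hpn, hid, nI_mul hcq hcb hPe, hcn]
    rcases hc.ram with ⟨her, -⟩ | ⟨her, -⟩
    · subst her
      rcases hq with hq | hq
      · -- split
        have h1 : cjI P ≠ P := by
          intro h
          have := hnc h
          rw [hq, pow_one] at this
          nlinarith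
        have h2 : Pc P = cjI P := by unfold Pc; rw [if_neg h1]
        refine ⟨1, by rw [hq], one_dvd _, le_rfl, by omega, ?_⟩
        intro x hx _
        rw [h2, mem_cjI, star_sub, star_one] at hx
        rw [← mul_star, pow_one]
        have : x * star x - x = x * (star x - 1) := by ring
        rw [this]
        exact P.mul_mem_left _ hx
      · -- inert
        have h1 : cjI P = P := by
          by_contra h
          have h3 := hnn h
          rw [hq, pow_one] at h3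
          have : 1 < p ^ 2 := Nat.one_lt_pow (by norm_num) hp1
          nlinarith
        have e1 : p ^ 2 - 1 = (p + 1) * (p - 1) := by
          have := Nat.sq_sub_sq p 1
          simpa using this
        refine ⟨p + 1, ?_, ?_, by omega, by rw [hq]; nlinarith, ?_⟩
        · rw [hq, one_mul, e1]
        · rw [hq, e1]; exact dvd_mul_right _ _
        · intro x _ _
          have key : star x - x ^ p ∈ P := by
            have hT := add_star x
            have hN := mul_star x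
            set T : ℤ := 2 * x.re + B * x.im with hTd
            set a : OO A B ⧸ P := Ideal.Quotient.mk P x with ha
            set b : OO A B ⧸ P := Ideal.Quotient.mk P (star x) with hb
            have hT' : a + b = ((T : ℤ) : OO A B ⧸ P) := by
              rw [ha, hb, ← map_add, hT, map_intCast]
            have hN' : a * b = ((nm x : ℤ) : OO A B ⧸ P) := by
              rw [ha, hb, ← map_mul, hN, map_intCast]
            have hTp : (a + b) ^ p = a + b := by rw [hT']; exact int_pow hM hp hc.mem T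
            have hNp : (a * b) ^ p = a * b := by rw [hN']; exact int_pow hM hp hc.mem _
            have h3 : (a ^ p - a) * (a ^ p - b) = 0 := by
              rw [add_pow_char] at hTp
              rw [mul_pow] at hNp
              linear_combination (a ^ p) * hTp - hNp
            rcases mul_eq_zero.1 h3 with h4 | h4
            · have h5 : x ^ p - x ∈ P := by
                rw [← Ideal.Quotient.eq_zero_iff_mem, map_sub, map_pow]
                exact h4
              obtain ⟨c, hcx⟩ := int_of_pow hM hp hc.mem x h5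
              have h6 : star x - (c : OO A B) ∈ P := by
                rw [← h1, mem_cjI, star_sub, star_star, star_int]
                exact hcx
              have h7 : star x - x ^ p = (star x - (c : OO A B)) - (x - (c : OO A B)) -
                (x ^ p - x) := by ring
              rw [h7]
              exact P.sub_mem (P.sub_mem h6 hcx) h5
            · have h5 : x ^ p - star x ∈ P := by
                rw [← Ideal.Quotient.eq_zero_iff_mem, map_sub, map_pow]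
                exact h4
              have h7 : star x - x ^ p = - (x ^ p - star x) := by ring
              rw [h7]
              exact P.neg_mem h5
          rw [← mul_star]
          have : x * star x - x ^ (p + 1) = x * (star x - x ^ p) := by ring
          rw [this]
          exact P.mul_mem_left _ key
    · subst her
      rcases hq with hq | hq
      · -- ramified
        have h1 : cjI P = P := by
          by_contra h
          have h3 := hnn h
          rw [hq] at h3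
          have : 1 < p ^ 2 := Nat.one_lt_pow (by norm_num) hp1
          nlinarith
        have hodd : ¬ 2 ∣ p := by
          intro h
          have := (Nat.prime_dvd_prime_iff_eq Nat.prime_two hp).1 h
          omega
        refine ⟨2, by rw [hq], by rw [hq]; omega, by norm_num, by omega, ?_⟩
        intro x _ _
        have h5 : x ^ p - x ∈ P := by
          rw [← Ideal.Quotient.eq_zero_iff_mem, map_sub, map_pow]
          have := FiniteField.pow_card (Ideal.Quotient.mk P x)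
          rw [hcard, hq] at this
          rw [this, sub_self]
        obtain ⟨c, hcx⟩ := int_of_pow hM hp hc.mem x h5
        have h6 : star x - (c : OO A B) ∈ P := by
          rw [← h1, mem_cjI, star_sub, star_star, star_int]
          exact hcx
        rw [← mul_star]
        have : x * star x - x ^ 2 = x * ((star x - (c : OO A B)) - (x - (c : OO A B))) := by ring
        rw [this]
        exact P.mul_mem_left _ (P.sub_mem h6 hcx)
      · exfalso
        have hp2 : 1 < p ^ 2 := Nat.one_lt_pow (by norm_num) hp1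
        by_cases h : cjI P = P
        · have h3 := hnc h
          rw [hq] at h3
          nlinarith
        · have h3 := hnn h
          rw [hq] at h3
          nlinarith [Nat.one_lt_pow (n := 2) (by norm_num) hp2]

end

end Pool.Agent.OE


end

section

/-!
# OE, block I, module POW (helper79); model: `OT/I_POW.lean`
-/

set_option autoImplicit false

namespace Pool.Agent.OEI

open _root_.MU3 Pool.Agent.MU3 Pool.Agent.MU3A Pool.Agent.MU3B Pool.Agent.RI Pool.Agent.RID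
  Pool.Agent.MUX Pool.Agent.ME Pool.Agent.MUXK Pool.Agent.MUXI Pool.Agent.NS Pool.Agent.NSI
  Pool.Agent.OB Pool.Agent.OBI Pool.Agent.OT Pool.Agent.OTI Pool.Agent.OE
open Pool.Agent.MU3I (zt St_ITG)

noncomputable section

/-- (POW) if the product is a `p`-th power, then the sums, translated by `γ^k'`, are small -/
theorem te_POW (hFOU : Sn_FOU) (hTG : St_ITG) : Te_POW := by
  classical
  intro p A B P V f ι R u n D iD h C hE w hw
  let akL : Algebra (kk A B) D := algC h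
  intro comm c₁ hc hc1 γ Δ iΔ N k' b X hX y hy
  have fdk : FiniteDimensional (kk A B) D := Module.Finite.of_restrictScalars_finite ℚ (kk A B) D
  have iG : Fintype (D ≃ₐ[kk A B] D) := Fintype.ofFinite _
  let e : ℕ → ℤ := fun j => (-1 : ℤ) ^ (N - j) * (N.choose j : ℤ)
  let g : (D ≃ₐ[kk A B] D) → ℤ := fun τ => ∑ δ : Δ, ∑ j ∈ Finset.range (N + 1),
      if (δ : D ≃ₐ[kk A B] D) * γ ^ j = τ then (b δ : ℤ) * e j else 0
  have hcτ : ∀ τ : D ≃ₐ[kk A B] D, ((τ ⟨c₁, hc⟩ : D) : ℂ) = C τ := by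
    intro τ
    obtain ⟨y', hy1, hy2⟩ := hE.conj τ
    have h3 : y' = ⟨c₁, hc⟩ := Subtype.ext (hy1.trans hc1.symm)
    rw [← h3]
    exact hy2
  have hcne : (⟨c₁, hc⟩ : D) ≠ 0 := by
    intro h0
    apply hE.ne
    have h1 : c₁ = 0 := congrArg Subtype.val h0
    rw [hc1] at h1
    exact h1
  have hu : ∀ τ : D ≃ₐ[kk A B] D, C τ ≠ 0 := by
    intro τ h0
    rw [← hcτ τ] at h0
    have h1 : τ (⟨c₁, hc⟩ : D) = 0 := Subtype.ext h0
    exact hcne ((map_eq_zero_iff τ τ.injective).1 h1)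
  have e1 : (y : ℂ) ^ p = ∏ᶠ τ : D ≃ₐ[kk A B] D, C τ ^ g τ := by
    rw [MU3I.I3F.prod_exp γ Δ _ hu (fun δ => (b δ : ℤ)) N e g (fun τ => rfl)]
    have h1 : (y : ℂ) ^ p = D.val (y ^ p) := rfl
    rw [h1, hy, map_prod]
    refine Finset.prod_congr rfl fun δ _ => ?_
    rw [MU3I.I3F.tg_pow hTG _ _ γ δ _ hcne N (b δ), map_prod]
    refine Finset.prod_congr rfl fun j _ => ?_
    rw [map_zpow₀]
    exact congrArg (fun w : ℂ => w ^ ((b δ : ℤ) * e j)) (hcτ ((δ : D ≃ₐ[kk A B] D) * γ ^ j))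
  have e2 := hE.ew w hw g ⟨y, y.2, e1⟩
  obtain ⟨q1, q2, q3, q4⟩ := I31.val_prop V u (p : ℂ)
  have key := hFOU V (fun x => V.valuation (x / u) ≤ V.valuation (p : ℂ)) q1 q2 q3 q4
    (D ≃ₐ[kk A B] D) comm γ Δ
    (fun τ => TTNE R w (lvX p f n) (aX p f) h (γ ^ k' * τ)) (fun δ => (b δ : ℤ)) N e X
    (by simpa using hX) (by
      intro τ'
      have e3 := e2 (γ ^ k' * τ')
      rw [MU3I.I3F.sum_exp γ Δ (fun τ => TTNE R w (lvX p f n) (aX p f) h τ)
        (fun δ => (b δ : ℤ)) N e g (fun τ => rfl) (γ ^ k' * τ')] at e3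
      have e4 : ∀ (δ : Δ) (j : ℕ), γ ^ k' * ((δ : D ≃ₐ[kk A B] D) * γ ^ j * τ') =
          (δ : D ≃ₐ[kk A B] D) * γ ^ j * (γ ^ k' * τ') := by
        intro δ j
        rw [← mul_assoc, comm (γ ^ k') ((δ : D ≃ₐ[kk A B] D) * γ ^ j), mul_assoc]
      simp only [e4]
      exact e3)
  have e5 : ∀ (δ : Δ) (j : ℕ), γ ^ k' * (γ ^ j * (δ : D ≃ₐ[kk A B] D)) =
      γ ^ (k' + j) * (δ : D ≃ₐ[kk A B] D) := by
    intro δ j
    rw [← mul_assoc, ← pow_add]
  simp only [e5] at key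
  exact key

end

end Pool.Agent.OEI


end

section

/-!
# OE, block I, module THF: the sums over `Δ` are the sums `SGX` (after `Pool/Agent/OT/I_THF.lean` and `Pool/Agent/ME/N/I_TH.lean`)
-/

set_option autoImplicit false

open NumberField

namespace Pool.Agent.OEI

open _root_.MU3 Pool.Agent.MU3 Pool.Agent.MU3A Pool.Agent.MU3B Pool.Agent.RI Pool.Agent.RID
  Pool.Agent.MUX Pool.Agent.ME Pool.Agent.MUXK Pool.Agent.MUXI Pool.Agent.NS Pool.Agent.NSI
  Pool.Agent.OB Pool.Agent.OBI Pool.Agent.OT Pool.Agent.OTI Pool.Agent.OE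

noncomputable section

namespace THFx

section

variable {A B : ℤ} {p f n : ℕ} {ι : Type} {R : RepsE A B (p * f) ι} {z₀ : ℤ} {G : Type} [Group G]
  {γ : G} {Δ : Subgroup G} {X : G → Set (ι × (OO A B ⧸ idl (A := A) (B := B) (lvX p f n)))}

lemma mem_iff (hM : XMFE R p f n z₀ γ Δ X)
    (q : ι × (OO A B ⧸ idl (A := A) (B := B) (lvX p f n))) (j : ℕ) :
    (∃ δ : Δ, q ∈ X (γ ^ j * (δ : G))) ↔
      (Quotient.out q.2 : OO A B) - 1 ∈ idl (A := A) (B := B) 2 ∧
      (IsCoprime (Quotient.out q.2 : OO A B) ((lvX p f n : ℕ) : OO A B) ∧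
      ∃ k < p - 1, ((p ^ (n + 1) : ℕ) : ℤ) ∣
        nm (Quotient.out q.2) * nI (R.b q.1) - z₀ ^ k * (1 + (p : ℤ)) ^ j) := by
  constructor
  · rintro ⟨δ, hδ⟩
    refine ⟨hM.two _ _ hδ, hM.cop _ _ hδ, (hM.nrm q _ hδ j).1 ?_⟩
    rw [hM.comm (γ ^ j) δ, mul_inv_cancel_right]
    exact δ.2
  · rintro ⟨h2, hc, hC⟩
    obtain ⟨τ, hτ⟩ := hM.ex q hc h2
    have h1 := (hM.nrm q τ hτ j).2 hC
    refine ⟨⟨_, h1⟩, ?_⟩
    have h2 : γ ^ j * (τ * (γ ^ j)⁻¹) = τ := by
      rw [hM.comm (γ ^ j), inv_mul_cancel_right]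
    rw [h2]
    exact hτ

end

lemma muX_ne {p : ℕ} {A B : ℤ} {f : ℕ}
    (hS : SetQ p A B f) {ι : Type} (R : RepsE A B (p * f) ι) (i : ι) : muXE R i ≠ 0 := by
  have h1 : nI (R.b i) ≠ 0 := by
    intro h0
    have h2 := R.cop i
    rw [h0, Nat.coprime_zero_left] at h2
    have h3 : p = 1 := Nat.eq_one_of_mul_eq_one_right h2
    exact hS.pp.one_lt.ne' h3
  unfold muXE
  refine div_ne_zero (mul_ne_zero (R.nl i).om_ne ?_) (R.nl R.i0).om_ne
  exact_mod_cast h1

end THFx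

open Classical in
/-- (THF) the sums over `Δ` are the sums `SGX` -/
theorem te_THF (h1 : Te_TSH) (h2 : Ti_ZAR) (hP : Si_PTP_E) : Te_THF := by
  intro p A B f hS hE2 h2f g hlv hg ι _ R n z₀ hz G _ _ γ Δ _ X hM χ e0 kp c w e t q₁ hq₁ ht hE
    hes hχ j
  have hm0 : lvX p f n ≠ 0 := OBI.THx.lvX_ne hS n
  have hfin : Finite (OO A B ⧸ idl (A := A) (B := B) (lvX p f n)) := MUXI.TH.finR _ hm0
  rw [MUXI.TH.sum_disj (fun δ : Δ => X (γ ^ j * (δ : G)))
    (fun q δ δ' h2 h4 => Subtype.ext (mul_left_cancel (hM.uniq q _ _ h2 h4)))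
    (fun δ => (((χ δ)⁻¹ : ℂˣ) : ℂ)) _ (fun q => kp q.1 * e0 (Quotient.out q.2))
    (fun δ q hq => hχ δ j q hq)]
  set GG : ι → OO A B → ℂ := fun i x =>
      kp i * c i * (t (nI (R.b i)))⁻¹ * ∑ k ∈ Finset.range (p - 1), t (z₀ ^ k) *
      (if ((p ^ (n + 1) : ℕ) : ℤ) ∣ nm x * nI (R.b i) - z₀ ^ k * (1 + (p : ℤ)) ^ j then
        e x * dlX (R.L i) (aX p f) (ptE R (lvX p f n) i x) else 0) with hGG
  have hind : ∀ q : ι × (OO A B ⧸ idl (A := A) (B := B) (lvX p f n)),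
      (if ∃ δ : Δ, q ∈ X (γ ^ j * (δ : G)) then
        kp q.1 * e0 (Quotient.out q.2) * (w (Quotient.out q.2) *
        c q.1 * dlX (R.L q.1) (aX p f) (ptE R (lvX p f n) q.1 (Quotient.out q.2))) else 0) =
      if (Quotient.out q.2 : OO A B) - 1 ∈ idl (A := A) (B := B) 2 then
        GG q.1 (Quotient.out q.2) else 0 := by
    intro q
    rw [if_congr (THFx.mem_iff hM q j) rfl rfl, ite_and]
    refine if_congr Iff.rfl ?_ rfl
    exact OTI.THFx.term hS n h2 hz hg hE.toIsEI hq₁ ht hes _ j _ _ _ _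
  have hmM : lvX p f n = f * p ^ (n + 1) := lvX_odd hS.p2 f n
  have hlvd : ((p ^ (n + 1) : ℕ) : ℤ) ∣ ((lvX p f n : ℕ) : ℤ) := ⟨(f : ℤ), by
    rw [hmM]; push_cast; ring⟩
  have hle0 : idl (A := A) (B := B) (lvX p f n) ≤ idl (A := A) (B := B) (lvX p f 0) := by
    refine Ideal.span_singleton_le_span_singleton.2 ⟨((p ^ n : ℕ) : OO A B), ?_⟩
    unfold lvX
    push_cast
    ring
  have h2n : 2 ∣ lvX p f n := by
    rw [hmM]
    exact h2f.mul_right _
  have hus : ∀ i : ι, (rE A B : ℂ) * ∑ᶠ q : OO A B ⧸ idl (A := A) (B := B) (lvX p f n),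
      (if (Quotient.out q : OO A B) - 1 ∈ idl (A := A) (B := B) 2 then
        GG i (Quotient.out q) else 0) =
      ∑ᶠ q : OO A B ⧸ idl (A := A) (B := B) (lvX p f n), GG i (Quotient.out q) := by
    intro i
    refine USum.usum hE2 hm0 h2n (GG i) ?_ ?_ ?_
    · intro x y hxy
      have e1 : e x = e y := hE.per x y (hlv (hle0 hxy))
      have e2 := (hP A B hE2.toCQ (p * f) ι R (lvX p f n) hm0 i).1 x y hxy
      have e3 := e2.2.2 (aX p f)
      have e4 : ∀ t : ℤ, ((p ^ (n + 1) : ℕ) : ℤ) ∣ nm x * nI (R.b i) - t ↔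
          ((p ^ (n + 1) : ℕ) : ℤ) ∣ nm y * nI (R.b i) - t := by
        intro t
        have e5 : ((p ^ (n + 1) : ℕ) : ℤ) ∣ (nm x - nm y) * nI (R.b i) :=
          (hlvd.trans (NSI.TH.nm_per hxy)).mul_right _
        have e6 : nm x * nI (R.b i) - t = (nm y * nI (R.b i) - t) + (nm x - nm y) * nI (R.b i) := by
          ring
        rw [e6]
        exact (Int.dvd_add_left e5)
      simp only [hGG]
      rw [e1, e3]
      congr 1
      refine Finset.sum_congr rfl fun k _ => ?_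
      rw [if_congr (e4 _) rfl rfl]
    · intro x hx
      have e1 : e x ≠ 0 := by
        intro h0
        apply hx
        simp only [hGG, h0, zero_mul, ite_self, mul_zero, Finset.sum_const_zero]
      have h8 : IsCoprime x ((f : ℕ) : OO A B) := OBI.THx.cop_f hg ((hE.supp x).1 e1)
      obtain ⟨k, hk⟩ := h2f
      have h9 : (2 : OO A B) ∣ ((f : ℕ) : OO A B) := ⟨(k : OO A B), by rw [hk]; push_cast; rfl⟩
      exact h8.of_isCoprime_of_dvd_right h9
    · intro z x hz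
      have e1 : nm (z * x) = nm x := by
        rw [nm_mul hE2.toCQ, (isUnit_nm hE2 z).1 hz, one_mul]
      have e2 : e (z * x) = emb z * e x := by rw [hE.mul, hE.unit z hz]
      have e3 : dlX (R.L i) (aX p f) (ptE R (lvX p f n) i (z * x)) =
          dlX (R.L i) (aX p f) (ptE R (lvX p f n) i x) / emb z := by
        rw [NSI.TH.ptE_mul hE2.toCQ]
        exact dlX_unit hE2 (R.nl i).toIsLI hz _ _
      have hz0 : emb z ≠ 0 := emb_ne_zero hE2.toCQ fun h0 => not_isUnit_zero (by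
        haveI := isDomain hE2.toCQ
        exact (h0 ▸ hz : IsUnit (0 : OO A B)))
      have e4 : e (z * x) * dlX (R.L i) (aX p f) (ptE R (lvX p f n) i (z * x)) =
          e x * dlX (R.L i) (aX p f) (ptE R (lvX p f n) i x) := by
        rw [e2, e3]
        field_simp
      simp only [hGG]
      rw [e1, e4]
  rw [finsum_congr hind, MUXI.TH.sum_pairs, Finset.mul_sum, Finset.sum_congr rfl fun i _ => hus i]
  have hsum : ∀ i : ι, ∑ᶠ q : OO A B ⧸ idl (A := A) (B := B) (lvX p f n),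
      GG i (Quotient.out q) =
      ∑ k ∈ Finset.range (p - 1), t (z₀ ^ k) * (kkTE R kp c t i *
        ((aX p f : ℂ) * SnXE R (lvX p f n) (p ^ (n + 1)) e i
          ((aX p f : ℤ) ^ 2 * (z₀ ^ k * (1 + (p : ℤ)) ^ j)) -
        (aX p f : ℂ) ^ 2 * SnXE R (lvX p f n) (p ^ (n + 1)) e i
          (z₀ ^ k * (1 + (p : ℤ)) ^ j))) := by
    intro i
    rw [OTI.THFx.comb_sumk (Q := OO A B ⧸ idl (A := A) (B := B) (lvX p f n)) (p - 1) _ _ _ _
      (fun x => rfl), Finset.mul_sum]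
    refine Finset.sum_congr rfl fun k _ => ?_
    have hT := h1 p A B f hS g hlv ι R n e hE.toIsEI i (z₀ ^ k * (1 + (p : ℤ)) ^ j)
    rw [← hT]
    have hmu := THFx.muX_ne hS R i
    unfold kkTE sumMod
    field_simp
  rw [Finset.sum_congr rfl fun i _ => hsum i]
  unfold SGX STXE
  simp_rw [Finset.mul_sum]
  rw [Finset.sum_comm]

end

end Pool.Agent.OEI


end

section

/-!
# OE, modules LVT and E0L (helper84); models: `OT/L_E0L.lean`, `ME/N/I_E0.lean`, `TWF/LVL.lean`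
-/

set_option autoImplicit false

open NumberField IsDedekindDomain Finset
open scoped nonZeroDivisors Pointwise

namespace Pool.Agent.OE

open _root_.MU3 Pool.Agent.MU3 Pool.Agent.MU3A Pool.Agent.MU3B Pool.Agent.RI Pool.Agent.RID
  Pool.Agent.MUX Pool.Agent.ME Pool.Agent.MUXK Pool.Agent.MUXI Pool.Agent.NS Pool.Agent.NSI
  Pool.Agent.OB Pool.Agent.OBI
open Pool.Agent.MU3I (zt)
open Pool.Agent.TWF (Twr cyc chr_split gal_ab)
open Pool.Agent.OT (gen_ls)
open Pool.Agent.OT.E0Lx (fin_chr fix_ord)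

/-- `K B_n` is contained in the ray class field of level `f l^(n+s)` (model: `TWF/LVL.lean`) -/
theorem lvlE (hLAY : Si_LAY) (hIAF : Si_IAF_E) (l s : ℕ)
    (hls : (l = 3 ∧ s = 1) ∨ (l = 2 ∧ s = 2))
    (A B : ℤ) (hc : CQ A B) (T : TorXE A B)
    (hNL : ∃ (b : Ideal (OO A B)) (L : PeriodPair) (om : ℂ), IsNE b L om) (f : ℕ) (hf : f ≠ 0)
    (K : IntermediateField ℚ ℂ) (hK : ∀ y ∈ K, y ∈ RFE (idl (A := A) (B := B) f)) (n : ℕ)
    (Bn : IntermediateField ℚ ℂ) (hB : IsLayer l n Bn) :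
    ∀ y ∈ K ⊔ Bn, y ∈ RFE (idl (A := A) (B := B) (f * l ^ (n + s))) := by
  have hl0 : l ≠ 0 := by rcases hls with ⟨rfl, -⟩ | ⟨rfl, -⟩ <;> norm_num
  set M : ℕ := l ^ (n + s) with hM
  have hM0 : M ≠ 0 := pow_ne_zero _ hl0
  have hm0 : idl (A := A) (B := B) (f * M) ≠ ⊥ := by
    rw [Ne, Ideal.span_singleton_eq_bot]
    exact natCast_ne_zero' hc (mul_ne_zero hf hM0)
  have hmf : idl (A := A) (B := B) (f * M) ≤ idl f := by
    rw [Ideal.span_singleton_le_span_singleton]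
    push_cast
    exact dvd_mul_right _ _
  have hmM : idl (A := A) (B := B) (f * M) ≤ idl M := by
    rw [Ideal.span_singleton_le_span_singleton]
    push_cast
    exact dvd_mul_left _ _
  obtain ⟨i1, -, -, -, -, -, -, i8⟩ := hIAF A B hc T hNL _ hm0
  obtain ⟨a₀, ha₀⟩ := i1 (RingEquiv.refl ℂ) rfl
  have hq0 : q0 l * l ^ n = M := by
    rcases hls with ⟨rfl, rfl⟩ | ⟨rfl, rfl⟩
    · have h3 : q0 3 = 3 := by simp [q0]
      rw [h3, hM]
      ring
    · have h3 : q0 2 = 4 := by simp [q0]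
      rw [h3, hM]
      ring
  have hζ : IsPrimitiveRoot (zt M) M := Complex.isPrimitiveRoot_exp M hM0
  have hz := (i8 M (RingEquiv.refl ℂ) a₀ (zt M) hM0 hmM ha₀ hζ.pow_eq_one).1
  have hBeq := hLAY l n (by rcases hls with ⟨h, -⟩ | ⟨h, -⟩ <;> tauto) Bn hB
  rw [hq0] at hBeq
  have hBn : Bn ≤ IntermediateField.restrictScalars ℚ (RFE (idl (A := A) (B := B) (f * M))) := by
    rw [hBeq, IntermediateField.adjoin_le_iff]
    intro x hx
    rw [Set.mem_singleton_iff] at hx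
    rw [hx]
    exact add_mem hz (inv_mem hz)
  have hK' : K ≤ IntermediateField.restrictScalars ℚ (RFE (idl (A := A) (B := B) (f * M))) := by
    intro x hx
    exact T.mono _ _ hmf (hK x hx)
  intro y hy
  exact (sup_le hK' hBn) hy

/-- LVT -/
theorem t_LVTE (hLAY : Si_LAY) (hIAF : Si_IAF_E) : S_LVTE := by
  intro l g h hGen p A B P V f hS T hNL K hK m Bm hB
  have hp2 : p ≠ 2 := by have := hS.p5; omega
  have h1 := lvlE hLAY hIAF l h (gen_ls hGen) A B hS.toCQ T hNL (lvX p f 0)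
    (by
      rw [lvX_odd hp2]
      exact Nat.mul_ne_zero hS.f0 (pow_ne_zero _ hS.pp.ne_zero)) K hK m Bm hB
  have h2 : lvX p f 0 * l ^ (m + h) = lvX p (f * l ^ (m + h)) 0 := by
    rw [lvX_odd hp2, lvX_odd hp2]
    ring
  rw [h2] at h1
  exact h1

/-- `m ≤ (2)` for even `m` -/
theorem idl_le2 {A B : ℤ} {n : ℕ} (h : 2 ∣ n) : (idl n : Ideal (OO A B)) ≤ idl 2 := by
  obtain ⟨k, rfl⟩ := h
  rw [Ideal.span_singleton_le_span_singleton]
  push_cast
  exact dvd_mul_right _ _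

open Pool.Agent.MUXI.E0 in
/-- the characters `e0` and `kp` attached to a character of `Gal(K/k)` (model: `ME/N/I_E0.lean`) -/
theorem e0E (h1 : Pool.Agent.MUXI.Si_ARF_E) (h4 : Pool.Agent.MUXF.Sx_NIM) (p : ℕ) (A B : ℤ) (f : ℕ)
    (S : SetQ p A B f) (h2l : 2 ∣ lvX p f 0) (T : TorXE A B) (ι : Type) (R : RepsE A B (p * f) ι)
    (K : IntermediateField ℚ ℂ) (hK : kk A B ≤ K)
    (hKm : ∀ y ∈ K, y ∈ RFE (idl (A := A) (B := B) (lvX p f 0))) : letI := algC hK
    ∀ (_ : IsGalois (kk A B) K) (X : (K ≃ₐ[kk A B] K) →* ℂˣ) (r : ℕ) (_ : ∀ τ, X τ ^ r = 1),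
    ∃ (e0 : OO A B → ℂ) (kp : ι → ℂ), e0 1 = 1 ∧ e0 (-1) = 1 ∧ (∀ x y, e0 (x * y) = e0 x * e0 y) ∧
      (∀ x y, x - y ∈ idl (A := A) (B := B) (lvX p f 0) → e0 x = e0 y) ∧
      (∀ x, e0 x ≠ 0 ↔ IsCoprime x ((lvX p f 0 : ℕ) : OO A B)) ∧
      (∀ x, e0 x ≠ 0 → e0 x ^ r = 1) ∧ (∀ z, IsUnit z → e0 z = 1) ∧ (∀ i, kp i ^ r = 1) ∧
      ∀ (τ : K ≃ₐ[kk A B] K) (i : ι) (x : OO A B), IsCoprime x ((lvX p f 0 : ℕ) : OO A B) →
        AR_E hK (idl (lvX p f 0)) τ (sp x * cjI (R.b i)) → (((X τ)⁻¹ : ℂˣ) : ℂ) = kp i * e0 x := by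
  intro hG X r hX
  have hlv : 3 ≤ lvX p f 0 := by
    have hf : 1 ≤ f := Nat.one_le_iff_ne_zero.2 S.f0
    have h2 := S.pp.two_le
    have h3 := S.p2
    have h4 : 3 ≤ p := by omega
    rw [lvX_odd S.p2 f 0, zero_add, pow_one]
    calc 3 = 1 * 3 := by norm_num
      _ ≤ f * p := Nat.mul_le_mul hf h4
  have hm : (idl (lvX p f 0) : Ideal (OO A B)) ≠ ⊥ := by
    rw [Ne, Ideal.span_singleton_eq_bot]
    exact nat_ne (by omega)
  have hm1 : (idl (lvX p f 0) : Ideal (OO A B)) ≠ ⊤ := by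
    rw [Ne, Ideal.span_singleton_eq_top]
    intro hu
    obtain ⟨y, hy⟩ := hu.exists_right_inv
    have h := congrArg QuadraticAlgebra.re hy
    rw [QuadraticAlgebra.re_mul] at h
    simp only [QuadraticAlgebra.re_natCast, QuadraticAlgebra.im_natCast, QuadraticAlgebra.re_one,
      mul_zero, zero_mul, add_zero] at h
    have h' : ((lvX p f 0 : ℕ) : ℤ) ∣ 1 := ⟨_, h.symm⟩
    have h'' := Int.le_of_dvd one_pos h'
    omega
  have hbot : ∀ a : Ideal (OO A B), IsCoprime a (idl (lvX p f 0)) → a ≠ ⊥ := by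
    rintro a ha rfl
    apply hm1
    rw [← Ideal.isCoprime_iff_sup_eq.1 ha, bot_sup_eq]
  obtain ⟨a1, a2, -, a4, a5, -, -⟩ := h1 A B S.cq T ⟨_, _, _, R.nl R.i0⟩
    (idl (lvX p f 0)) hm (idl_le2 h2l) K hK hKm hG
  let _ : Algebra (kk A B) K := algC hK
  obtain ⟨ψ, s1, s2, s3, s4, s5, s6⟩ := psi (idl (lvX p f 0))
    (fun τ a => AR_E hK (idl (lvX p f 0)) τ a) X r hX a1
    (fun a ha => a2 a (hbot a ha) ha)
    (fun τ a h => by obtain ⟨σ, h, -⟩ := h; exact h.cop)
    a4 a5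
  have hcop : ∀ x : OO A B, IsCoprime (sp x) (idl (lvX p f 0)) ↔
      IsCoprime x ((lvX p f 0 : ℕ) : OO A B) := fun x => Ideal.isCoprime_span_singleton_iff _ _
  refine ⟨fun x => ψ (sp x), fun i => ψ (cjI (R.b i)), ?_, ?_, ?_, ?_, ?_, ?_, ?_, ?_, ?_⟩
  · show ψ (sp 1) = 1
    rw [sp, Ideal.span_singleton_one, s3]
  · show ψ (sp (-1)) = 1
    rw [sp, Ideal.span_singleton_neg, Ideal.span_singleton_one, s3]
  · intro x y
    show ψ (sp (x * y)) = ψ (sp x) * ψ (sp y)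
    rw [← s2, sp, sp, sp, Ideal.span_singleton_mul_span_singleton]
  · intro x y hxy
    show ψ (sp x) = ψ (sp y)
    by_cases hx : IsCoprime (sp x) (idl (lvX p f 0))
    · have hy := cop_sub hxy hx
      have hx0 : x ≠ 0 := by
        rintro rfl
        exact hbot _ hx (by rw [sp, Ideal.span_singleton_eq_bot])
      have hy0 : y ≠ 0 := by
        rintro rfl
        exact hbot _ hy (by rw [sp, Ideal.span_singleton_eq_bot])
      refine s6 _ _ ⟨y, x, hy0, hx0, hy, ?_, mul_comm _ _⟩ hx hy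
      rw [← neg_sub]
      exact neg_mem hxy
    · have hy : ¬ IsCoprime (sp y) (idl (lvX p f 0)) := fun hy => hx (cop_sub (by
        rw [← neg_sub]
        exact neg_mem hxy) hy)
      rw [not_not.1 fun h => hx ((s4 _).1 h), not_not.1 fun h => hy ((s4 _).1 h)]
  · intro x
    exact (s4 _).trans (hcop x)
  · intro x hx
    exact s5 _ hx
  · intro z hz
    show ψ (sp z) = 1
    rw [sp, Ideal.span_singleton_eq_top.2 hz, s3]
  · intro i
    apply s5
    rw [s4]
    obtain ⟨-, -, n3, -⟩ := h4 A B (Pool.Agent.MUXY.cqF S.cq)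
    obtain ⟨-, -, -, n4⟩ := n3 (R.b i) (R.nl i).b_ne
    have h5 : ((nI (R.b i) : ℕ) : OO A B) ∈ cjI (R.b i) := by
      show (starRingEnd (OO A B)) ((nI (R.b i) : ℕ) : OO A B) ∈ R.b i
      rw [map_natCast]
      exact n4
    obtain ⟨u, v, huv⟩ := cop_nat (A := A) (B := B) (lv_cop (R.cop i))
    exact Ideal.isCoprime_iff_exists.2 ⟨u * _, Ideal.mul_mem_left _ _ h5, v * _,
      Ideal.mul_mem_left _ _ (Ideal.mem_span_singleton_self _), huv⟩
  · intro τ i x hx hA
    show (((X τ)⁻¹ : ℂˣ) : ℂ) = ψ (cjI (R.b i)) * ψ (sp x)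
    rw [← s1 τ _ hA, s2, mul_comm]


/-- E0L -/
theorem t_E0LE (hARF : Si_ARF_E) (hIAF : Si_IAF_E) (hLAY : Si_LAY)
    (hNIM : Pool.Agent.MUXF.Sx_NIM) (hGAL : Pool.Agent.MUXJ.Sj_GAL_E) : S_E0LE := by
  classical
  intro l g s hGen p A B P V f hS hlf T ι _ R K _ hK hSub Bl hlay hmono
  have hc : CQ A B := hS.toCQ
  have hpp : p.Prime := hS.pp
  have hp2 : p ≠ 2 := by have := hS.p5; omega
  have hls := gen_ls hGen
  have hlp : l.Prime := by
    rcases hls with ⟨rfl, -⟩ | ⟨rfl, -⟩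
    · exact Nat.prime_three
    · exact Nat.prime_two
  have : Fact l.Prime := ⟨hlp⟩
  have hs1 : 1 ≤ s := by rcases hls with ⟨-, h⟩ | ⟨-, h⟩ <;> omega
  have hlf1 : l ∣ f := (dvd_pow_self l (by omega)).trans hlf
  have hpl : ¬ p ∣ l := by
    intro h
    exact hS.fp (h.trans hlf1)
  have hlv : ∀ f' : ℕ, lvX p f' 0 = f' * p := fun f' => by
    rw [lvX_odd hp2, zero_add, pow_one]
  have h2l : 2 ∣ lvX p f 0 := by
    rw [hlv]
    exact ((by norm_num : 2 ∣ 12).trans hS.f12).mul_right _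
  have hfm : (idl (lvX p f 0) : Ideal (OO A B)) ≠ ⊥ := by
    rw [Ne, Ideal.span_singleton_eq_bot, hlv]
    exact natCast_ne_zero' hc (mul_ne_zero hS.f0 hpp.ne_zero)
  have fdk : FiniteDimensional ℚ (kk A B) := FiniteDimensional.of_injective
    (IntermediateField.inclusion hK).toLinearMap
    (IntermediateField.inclusion hK).toRingHom.injective
  obtain ⟨gK, -, cK⟩ := hGAL A B T (idl (lvX p f 0)) hfm K hK hSub
  have hB : Twr l (kk A B) K Bl := ⟨hK, gK, cK, hlay, hmono⟩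
  let aK : Algebra (kk A B) K := algC hK
  have galK : IsGalois (kk A B) K := (isGalois_algC hK).2 gK
  have tK : IsScalarTower ℚ (kk A B) K := IsScalarTower.of_algebraMap_eq (fun _ => rfl)
  have fdK : FiniteDimensional (kk A B) K := Module.Finite.of_restrictScalars_finite ℚ (kk A B) K
  have hfB : ∀ n, FiniteDimensional ℚ (Bl n) := fun n => (LAY_thm l n (Bl n) (hlay n)).1
  have hfL : ∀ n, FiniteDimensional ℚ ↥(K ⊔ Bl n) := fun n =>
    IntermediateField.finiteDimensional_sup K (Bl n)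
  have hc0 : Nat.card (K ≃ₐ[kk A B] K) ≠ 0 := Nat.card_pos.ne'
  obtain ⟨a, r, hr, hcr⟩ := Nat.exists_eq_pow_mul_and_not_dvd hc0 p hpp.ne_one
  have hr0 : r ≠ 0 := by
    rintro rfl
    exact hr (dvd_zero p)
  have hcopf : ∀ i, (nI (R.b i)).Coprime f := fun i => (R.cop i).coprime_mul_left_right
  have hcopp : ∀ i, (nI (R.b i)).Coprime p := fun i => (R.cop i).coprime_mul_right_right
  -- the characters of `Gal(K/k)`
  have hE := fun (j : {X : (K ≃ₐ[kk A B] K) →* ℂˣ // ∀ g, X g ^ r = 1}) =>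
    e0E hARF hNIM p A B f ⟨hS.toCQ, hS.pp, hp2, hS.f0⟩ h2l T ι R K hK hSub galK j.1 r j.2
  choose e0 kp e1 e2 e3 e4 e5 e6 eu e7 e8 using hE
  refine ⟨{X : (K ≃ₐ[kk A B] K) →* ℂˣ // ∀ g, X g ^ r = 1}, fin_chr r hr0, r, e0, kp, hr,
    fun j => ⟨e1 j, e2 j, e3 j, e4 j, e5 j, e6 j, eu j, e7 j⟩, ?_⟩
  intro n hn
  let aL : Algebra (kk A B) ↥(K ⊔ Bl (n + 1)) := algC hn
  intro X t ht hXt hg₀
  obtain ⟨g₀, hg1, hg2⟩ := hg₀
  obtain ⟨galL, comL⟩ := gal_ab l (kk A B) K Bl hB (n + 1) hn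
  have tL : IsScalarTower ℚ (kk A B) ↥(K ⊔ Bl (n + 1)) :=
    IsScalarTower.of_algebraMap_eq (fun _ => rfl)
  have fdL : FiniteDimensional (kk A B) ↥(K ⊔ Bl (n + 1)) :=
    Module.Finite.of_restrictScalars_finite ℚ (kk A B) _
  obtain ⟨r₁, r₂, hr1, hr2, hsplit⟩ := chr_split l (kk A B) K Bl hB (n + 1) hn
  obtain ⟨X₁, X₂, hX12⟩ := hsplit X
  have hX2 : ∀ g : Bl (n + 1) ≃ₐ[ℚ] Bl (n + 1), X₂ g ^ (l ^ (n + 1)) = 1 := by
    intro g
    have hGB : IsGalois ℚ (Bl (n + 1)) := (LAY_thm l (n + 1) (Bl (n + 1)) (hlay (n + 1))).2.1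
    have h1 : Nat.card (Bl (n + 1) ≃ₐ[ℚ] Bl (n + 1)) = l ^ (n + 1) := by
      rw [IsGalois.card_aut_eq_finrank, (hlay (n + 1)).1]
    rw [← h1, ← map_pow, pow_card_eq_one', map_one]
  have hpl' : ¬ p ∣ l ^ (n + 1) := fun h => hpl (hpp.dvd_of_dvd_pow h)
  obtain ⟨Y, hYr, hXY⟩ := fix_ord p a r t (l ^ (n + 1)) hpp hcr r₁ r₂ X X₁ X₂ hX12 ht hXt
    hpl' hX2
  obtain ⟨ψ, hψ1, hψ2, hψ3⟩ := cyc hLAY l s n hls (Bl n) (Bl (n + 1)) (hlay n) (hlay (n + 1))
    (hmono (Nat.le_succ n)) X₂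
  refine ⟨⟨Y, hYr⟩, ψ, hψ1, hψ2 ?_, ?_⟩
  · -- the ramified part
    refine ⟨r₂ g₀, ?_, ?_⟩
    · intro x hx
      have h1 := hr2 g₀ x ⟨(x : ℂ), (le_sup_right : Bl (n + 1) ≤ K ⊔ Bl (n + 1)) x.2⟩ rfl
      have h2 := hg1 ⟨(x : ℂ), (le_sup_right : Bl (n + 1) ≤ K ⊔ Bl (n + 1)) x.2⟩
        ((le_sup_right : Bl n ≤ K ⊔ Bl n) hx)
      rw [h2] at h1
      exact Subtype.ext h1.symm
    · intro h1
      have h2 : r₁ g₀ = 1 := by
        ext x
        have h3 := hr1 g₀ x ⟨(x : ℂ), (le_sup_left : K ≤ K ⊔ Bl (n + 1)) x.2⟩ rfl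
        have h4 := hg1 ⟨(x : ℂ), (le_sup_left : K ≤ K ⊔ Bl (n + 1)) x.2⟩
          ((le_sup_left : K ≤ K ⊔ Bl n) x.2)
        rw [h4] at h3
        exact h3.symm
      have h3 : X g₀ = 1 := by rw [hXY g₀, h1, h2, map_one, mul_one]
      exact hg2 h3
  · intro τ i x hxc hAR
    have hM0 : (l ^ (n + 1 + s)) ≠ 0 := pow_ne_zero _ hlp.ne_zero
    have hm2 : 2 ≤ lvX p (f * l ^ (n + 1 + s)) 0 := by
      rw [hlv]
      calc 2 ≤ p := hpp.two_le
        _ = 1 * p := (one_mul p).symm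
        _ ≤ f * l ^ (n + 1 + s) * p := Nat.mul_le_mul_right _
          (Nat.pos_of_ne_zero (mul_ne_zero hS.f0 hM0))
    have hm0 : idl (A := A) (B := B) (lvX p (f * l ^ (n + 1 + s)) 0) ≠ ⊥ := by
      rw [Ne, Ideal.span_singleton_eq_bot]
      exact natCast_ne_zero' hc (by omega)
    have hNL : ∃ (b : Ideal (OO A B)) (L : PeriodPair) (om : ℂ), IsNE b L om :=
      ⟨_, _, _, R.nl R.i0⟩
    have hmf : idl (A := A) (B := B) (lvX p (f * l ^ (n + 1 + s)) 0) ≤ idl (lvX p f 0) := by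
      rw [hlv, hlv, Ideal.span_singleton_le_span_singleton]
      push_cast
      exact mul_dvd_mul_right (dvd_mul_right _ _) _
    have hmM : idl (A := A) (B := B) (lvX p (f * l ^ (n + 1 + s)) 0) ≤
        idl (l ^ (n + 1 + s)) := by
      rw [hlv, Ideal.span_singleton_le_span_singleton]
      push_cast
      exact (dvd_mul_left _ _).mul_right _
    -- the field is contained in the ray class field
    obtain ⟨i1, -, -, -, -, -, -, i8⟩ := hIAF A B hc T hNL _ hm0
    have hD := t_LVTE hLAY hIAF l g s hGen p A B P V f hS T hNL K hSub (n + 1) (Bl (n + 1))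
      (hlay (n + 1))
    have h2m : 2 ∣ lvX p (f * l ^ (n + 1 + s)) 0 := by
      rw [hlv]
      exact (((by norm_num : 2 ∣ 12).trans hS.f12).mul_right _).mul_right _
    obtain ⟨a1, -, a3, a4, a5, a6, a7⟩ := hARF A B hc T hNL
      (idl (lvX p (f * l ^ (n + 1 + s)) 0)) hm0 (idl_le2 h2m) (K ⊔ Bl (n + 1)) hn hD galL
    have hx0 : x ≠ 0 := by
      intro h0
      rw [h0, isCoprime_zero_left] at hxc
      obtain ⟨z, hz⟩ := hxc.exists_right_inv
      have h := congrArg QuadraticAlgebra.re hz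
      rw [QuadraticAlgebra.re_mul] at h
      simp only [QuadraticAlgebra.re_natCast, QuadraticAlgebra.im_natCast,
        QuadraticAlgebra.re_one, mul_zero, zero_mul, add_zero] at h
      have h' : ((lvX p (f * l ^ (n + 1 + s)) 0 : ℕ) : ℤ) ∣ 1 := ⟨_, h.symm⟩
      have h'' := Int.le_of_dvd one_pos h'
      omega
    have hb0 : R.b i ≠ ⊥ := (R.nl i).b_ne
    have hspx : sp x ≠ ⊥ := by
      rwa [Ne, Ideal.span_singleton_eq_bot]
    obtain ⟨N, hNdef⟩ : ∃ N : ℕ, N = nI (sp x * cjI (R.b i)) := ⟨_, rfl⟩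
    have hN : ((N : ℕ) : ℤ) = nm x * nI (R.b i) := by
      rw [hNdef, nI_mul hc hspx (cjI_ne_bot hc hb0), nI_sp hc hx0, nI_cjI hc hb0]
      push_cast
      rw [abs_of_nonneg (nm_nonneg hc x)]
    -- the automorphism of `ℂ`
    obtain ⟨σ, hσ, hσe⟩ := hAR
    have hσz : ∀ z : ℂ, z ^ (l ^ (n + 1 + s)) = 1 → σ z = z ^ N := fun z hz => by
      rw [hNdef]
      exact (i8 (l ^ (n + 1 + s)) σ _ z hM0 hmM hσ hz).2
    have hNl : N.Coprime l := by
      have hζ : IsPrimitiveRoot (zt (l ^ (n + 1 + s))) (l ^ (n + 1 + s)) :=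
        Complex.isPrimitiveRoot_exp (l ^ (n + 1 + s)) hM0
      have h1 : IsPrimitiveRoot (σ (zt (l ^ (n + 1 + s)))) (l ^ (n + 1 + s)) :=
        hζ.map_of_injective (f := σ) σ.injective
      rw [hσz _ hζ.pow_eq_one] at h1
      have h2 := (hζ.pow_iff_coprime (Nat.pos_of_ne_zero hM0) N).1 h1
      exact h2.coprime_dvd_right (dvd_pow_self l (by omega))
    have hσB : ∀ y : Bl (n + 1), (σ : ℂ →+* ℂ) (y : ℂ) = (r₂ τ y : Bl (n + 1)) := by
      intro y
      have h1 := hσe ⟨(y : ℂ), (le_sup_right : Bl (n + 1) ≤ K ⊔ Bl (n + 1)) y.2⟩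
      have h2 := hr2 τ y ⟨(y : ℂ), (le_sup_right : Bl (n + 1) ≤ K ⊔ Bl (n + 1)) y.2⟩ rfl
      rw [h2] at h1
      exact h1
    have hψN := hψ3 (σ : ℂ →+* ℂ) N (r₂ τ) hNl hσz hσB
    have hARK : AR_E hK (idl (lvX p f 0)) (r₁ τ) (sp x * cjI (R.b i)) :=
      a6 K hK (idl (lvX p f 0)) hmf le_sup_left τ (r₁ τ) _ (fun y y' h => hr1 τ y y' h)
        ⟨σ, hσ, hσe⟩
    have hxfp : IsCoprime x ((lvX p f 0 : ℕ) : OO A B) := by
      refine IsCoprime.of_isCoprime_of_dvd_right hxc ?_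
      rw [hlv, hlv]
      push_cast
      exact mul_dvd_mul_right (dvd_mul_right _ _) _
    have hΨ := e8 ⟨Y, hYr⟩ (r₁ τ) i x hxfp hARK
    have hcast : ((nI (R.b i) : ℕ) : ZMod (l ^ (n + 1 + s))) *
        ((nm x : ℤ) : ZMod (l ^ (n + 1 + s))) = ((N : ℕ) : ZMod (l ^ (n + 1 + s))) := by
      have h1 := congrArg (Int.cast : ℤ → ZMod (l ^ (n + 1 + s))) hN
      push_cast at h1
      rw [h1, mul_comm]
    have h2 : kp ⟨Y, hYr⟩ i * ψ ((nI (R.b i) : ℕ) : ZMod (l ^ (n + 1 + s))) *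
        (e0 ⟨Y, hYr⟩ x * ψ ((nm x : ℤ) : ZMod (l ^ (n + 1 + s)))) =
        (kp ⟨Y, hYr⟩ i * e0 ⟨Y, hYr⟩ x) * (ψ ((nI (R.b i) : ℕ) : ZMod (l ^ (n + 1 + s))) *
          ψ ((nm x : ℤ) : ZMod (l ^ (n + 1 + s)))) := by ring
    rw [h2, ← map_mul, hcast, hψN, ← hΨ, ← Units.val_mul, ← mul_inv, ← hXY τ]

end Pool.Agent.OE


end

section

/-!
# OE, block E: assembly (helper96)
-/

set_option autoImplicit false

namespace Pool.Agent.OEE

open Pool.Agent.OE
open Pool.Agent.OBE (e_ALG e_COE e_LEG e_DSM e_PRO e_PUL e_GRN e_TNC e_GEN e_UNT e_NE1 e_RAT e_KIS)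

theorem ee_DEG : Sb_DEGE := tb_DEGE
theorem ee_EXO : Sb_EXOE := tb_EXOE
theorem ee_IDL : Sb_IDLE := tb_IDLE
theorem ee_MUL : Sb_MULE := tb_MULE
theorem ee_UNR : Sb_UNRE := tb_UNRE
theorem ee_PVL : Sb_PVLE := tb_PVLE e_UNT e_KIS e_GRN
theorem ee_PIS : Sb_PISE := tb_PISE e_GEN e_UNT ee_PVL Pool.Agent.MUXU.u_BAC
theorem ee_TPR : Sb_TPRE := tb_TPRE e_GRN e_TNC ee_PIS Pool.Agent.MUXU.u_PFI
theorem ee_PTS : Sb_PTSE := tb_PTSE e_COE e_GEN ee_PVL ee_TPR
theorem ee_ADD : Sb_ADDE := tb_ADDE e_ALG e_COE e_GRN ee_PTS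
theorem ee_ISO : Sb_ISOE := tb_ISOE e_ALG e_PRO ee_PTS e_UNT e_RAT
theorem ee_THN : Sb_THNE := tb_THNE e_ALG e_PRO e_PUL e_GRN ee_ISO ee_ADD ee_PTS
theorem ee_UNI : Sb_UNIE := tb_UNIE e_GRN e_LEG ee_PVL ee_TPR ee_UNR ee_DEG
theorem ee_SIG : Sb_SIGE := tb_SIGE e_ALG e_PRO ee_PTS ee_ADD ee_UNI
theorem ee_ONE : Sb_ONEE :=
  tb_ONEE e_ALG e_PRO e_LEG ee_PTS ee_THN ee_IDL ee_UNR ee_SIG e_NE1 ee_EXO ee_MUL e_UNT
theorem ee_MAIN : Sb_MAINE := tb_MAINE ee_ONE
theorem ee_INN : Sb_INNE := tb_INNE ee_THN e_NE1 ee_EXO ee_MUL e_UNT ee_PIS e_DSM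
theorem ee_FN1 : Sb_FN1E := tb_FN1E ee_MAIN ee_INN
theorem ee_BAS : Sb_BASE := tb_BASE
theorem ee_CFA : Sb_CFAE := tb_CFAE
theorem ee_CAL : Sb_CALE := tb_CALE ee_CFA
theorem ee_CTX : Sb_CTXE := tb_CTXE ee_CFA ee_CAL

/-- block E -/
theorem oe_EFIN : O_RFINE → O_EFINE := tb_FINE ee_CTX ee_FN1

end Pool.Agent.OEE


end

section

/-!
# OE, block I: modules TEU and EPS, the Teichmueller character on the units and the character `e` (helper79)
-/

set_option autoImplicit false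

namespace Pool.Agent.OEI

open _root_.MU3 Pool.Agent.MU3 Pool.Agent.MU3A Pool.Agent.MU3B Pool.Agent.RI Pool.Agent.RID
  Pool.Agent.MUX Pool.Agent.ME Pool.Agent.MUXK Pool.Agent.MUXI Pool.Agent.NS Pool.Agent.NSI
  Pool.Agent.OB Pool.Agent.OBI Pool.Agent.OT Pool.Agent.OTI Pool.Agent.OE

noncomputable section

namespace TEUx

variable {A B : ℤ}

/-- the units are 12th roots of unity -/
lemma pow12 (h : CaseE A B) {z : OO A B} (hz : IsUnit z) : z ^ 12 = 1 := by
  have hw : (⟨0, 1⟩ : OO A B) ^ 12 = 1 := by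
    have h2 : (⟨0, 1⟩ : OO A B) ^ 2 = ⟨A, B⟩ := by
      rw [pow_two]
      ext <;> simp
    rcases h.or with ⟨hA, hB⟩ | ⟨hA, hB⟩
    · have h3 : (⟨0, 1⟩ : OO A B) ^ 2 = -1 := by
        rw [h2]
        ext <;> simp [hA, hB, QuadraticAlgebra.re_one, QuadraticAlgebra.im_one]
      have h4 : (⟨0, 1⟩ : OO A B) ^ 12 = ((⟨0, 1⟩ : OO A B) ^ 2) ^ 6 := by rw [← pow_mul]
      rw [h4, h3]
      ring
    · have h3 : (⟨0, 1⟩ : OO A B) ^ 3 = -1 := by
        rw [pow_succ, h2]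
        ext <;> simp [hA, hB, QuadraticAlgebra.re_one, QuadraticAlgebra.im_one]
      have h4 : (⟨0, 1⟩ : OO A B) ^ 12 = ((⟨0, 1⟩ : OO A B) ^ 3) ^ 4 := by rw [← pow_mul]
      rw [h4, h3]
      ring
  have hn : (⟨0, -1⟩ : OO A B) = -⟨0, 1⟩ := by ext <;> simp
  rcases unit_list h hz with rfl | rfl | rfl | rfl | ⟨hB, h1⟩
  · exact one_pow 12
  · ring
  · exact hw
  · rw [hn, Even.neg_pow (by decide)]
    exact hw
  · have h3 : (⟨1, -1⟩ : OO A B) ^ 3 = -1 := by
      have h2 : (⟨1, -1⟩ : OO A B) ^ 2 = ⟨0, -1⟩ := by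
        rw [pow_two]
        ext <;> simp [h.hA, hB]
      rw [pow_succ, h2]
      ext <;> simp [h.hA, hB, QuadraticAlgebra.re_one, QuadraticAlgebra.im_one]
    have hn' : (⟨-1, 1⟩ : OO A B) = -⟨1, -1⟩ := by ext <;> simp
    have h4 : (⟨1, -1⟩ : OO A B) ^ 12 = 1 := by
      have h5 : (⟨1, -1⟩ : OO A B) ^ 12 = ((⟨1, -1⟩ : OO A B) ^ 3) ^ 4 := by rw [← pow_mul]
      rw [h5, h3]
      ring
    rcases h1 with rfl | rfl
    · exact h4
    · rw [hn', Even.neg_pow (by decide)]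
      exact h4

end TEUx

/-- (TEU) -/
theorem te_TEU : Te_TEU := by
  intro p A B P V hC w hw z hz
  obtain ⟨vp, -, -, -, -, hnat, -⟩ := o_BASG p 1 A B P V hC.toG
  have hc : CQ A B := hC.toCQ
  have h12 : V.valuation ((12 : ℕ) : ℂ) = 1 := by
    refine hnat 12 fun h => ?_
    have h1 := hC.p5
    have h2 : p ∣ 2 ^ 2 * 3 := by simpa using h
    rcases (Nat.Prime.dvd_mul hC.pp).1 h2 with h3 | h3
    · have h4 := Nat.le_of_dvd two_pos (hC.pp.dvd_of_dvd_pow h3)
      omega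
    · have h4 := Nat.le_of_dvd three_pos h3
      omega
  have hz12 := TEUx.pow12 hC.toCaseE hz
  have e1 : w z ^ 12 = 1 := by
    have h1 := EPSx.mul_pow' hw.one hw.mul z 12
    rw [hz12, hw.one] at h1
    exact h1.symm
  have e2 : emb z ^ 12 = 1 := by
    rw [← emb_pow hc, hz12, emb_one hc]
  refine TEIx.root_eq (N := 12) (by norm_num) h12 e1 e2 ?_
  exact TEIx.lt_of_pow vp (hw.cong z)

/-- (EPS) -/
theorem te_EPS (h1 : S_EPSG) (h2 : Te_TEU) : Te_EPS := by
  intro p A B P V f hS w hw e0 r hr h01 h0m h0mul h0per h0supp h0pow h0u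
  obtain ⟨e, s, i, t, hei, -, hi1, hi2, hty, hepow, ht1, ht2, ht3, -, ht5, hes⟩ :=
    h1 p 1 A B P V f hS.toG w hw e0 r hr h01 h0m h0mul h0per h0supp h0pow
  rw [one_mul] at hi1
  refine ⟨e, i, t, ⟨hei, ?_⟩, hi1, hi2, hty, hepow, ⟨ht3, ht1, ht2, ht5⟩, hes⟩
  intro z hz
  have h3 : IsCoprime z ((lvX p f 0 : ℕ) : OO A B) := by
    obtain ⟨y, hy⟩ := hz.exists_left_inv
    exact ⟨y, 0, by rw [hy, zero_mul, add_zero]⟩
  have h4 := hes z h3
  rw [(isUnit_nm hS.toCaseE z).1 hz, ht3, mul_one, h0u z hz, one_mul] at h4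
  rw [← h4]
  exact h2 p A B P V hS.toCaseOE w hw z hz

end

end Pool.Agent.OEI


end

section

/-!
# OE, block I: the result from `O_HETAE` (helper79)
-/

set_option autoImplicit false

namespace Pool.Agent.OEI

open Pool.Agent.MUXF Pool.Agent.MUXU Pool.Agent.MUXY Pool.Agent.MUXK Pool.Agent.MUXI
  Pool.Agent.NSI Pool.Agent.OB Pool.Agent.OBT Pool.Agent.RI Pool.Agent.RID Pool.Agent.OT
  Pool.Agent.OTI Pool.Agent.OE

/-- (PRF) for `CaseG` -/
theorem g_PRF : S_PRFG := o_PRFG o_BASG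

/-- (TEI) for `CaseG` -/
theorem g_TEI : S_TEIG := o_TEIG o_BASG g_PRF

/-- (EPS) for `SetG` -/
theorem g_EPS : S_EPSG := o_EPSG o_BASG g_PRF

/-- THE RESULT of block I -/
theorem oei_ITE (hH : O_HETAE) : O_ITE :=
  te_ITE Pool.Agent.MUXJ.j_RES Pool.Agent.OBI.o_CHI ti_CHK
    (t_E0LE i_ARF_E i_IAF_E i_LAY xf_NIM Pool.Agent.MUXJ.j_GAL_E) (te_EPS g_EPS te_TEU)
    g_TEI (t_LVTE i_LAY i_IAF_E) i_ARF_E i_XXF_E (te_SUB i_IAF_E)
    Pool.Agent.OBI.o_GAM Pool.Agent.OBI.o_NCR ti_Z0 (te_XMF i_XXF_E i_ARF_E ti_NCB ti_ZAR)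
    (te_THF (te_TSH i_PTP_E xf_ALG) ti_ZAR i_PTP_E) (te_POW n_FOU Pool.Agent.MU3I.t_ITG) te_EIX
    i_GEN hH k_GALX k_RSX o_BASG

end Pool.Agent.OEI


end

section

/-!
# OE, block T (helper96): the points of `L[P]` and the number `tau` (after `OB/T_TRC.lean`, `OB/T_TAU.lean`)
-/

set_option autoImplicit false

open Polynomial

namespace Pool.Agent.OETB

open _root_.MU3 Pool.Agent.MU3A Pool.Agent.MU3B Pool.Agent.RI Pool.Agent.MUX Pool.Agent.MUXU
open Pool.Agent.NS Pool.Agent.OB Pool.Agent.OE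
open Pool.Agent.ME hiding ActE
open Pool.Agent.MEE
open Pool.Agent.MUXV (GR InK)
open Pool.Agent.NSE (su ru IntP)
open Pool.Agent.MUXY (ActN Dn)
open Pool.Agent.OBT (EP)
open Pool.Agent.OBT.TRC (eval_near)
open Pool.Agent.OBE (SP)

noncomputable section

variable {A B : ℤ} {L : PeriodPair} {om : ℂ} {b : Ideal (OO A B)} {V : ValuationSubring ℂ}

theorem trcY {p er : ℕ} {P : Ideal (OO A B)} {al : OO A B} (hx : OEE.CtxX p er A B P V al)
    (hL : IsNE b L om) {u e lam : ℂ} (hg : GoodL V L u e lam) :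
    (∀ Y ∈ EP P L, V.valuation (ru L u e Y) ^ (er * (nI P - 1)) = V.valuation (p : ℂ)) ∧
    ∀ x : OO A B, x ∉ P → ∀ Y ∈ EP P L,
      emb x * Y ∈ EP P L ∧
      V.valuation (ru L u e (emb x * Y) - emb x * ru L u e Y) < V.valuation (ru L u e Y) := by
  have hNL : NLE A B L := ⟨b, om, hL⟩
  obtain ⟨t1, t2, t3, -, -, -, -, -, -⟩ := tm_TRA A B hx.ring L hNL
  obtain ⟨N, nu, hN, hq⟩ := hx.exq L hNL
  obtain ⟨u', e', lam', hg'⟩ := hx.good N hN
  obtain ⟨-, -, hpis⟩ := OEE.ee_PIS p er A B P V al hx L N nu u e lam u' e' lam' hNL hN hq hg hg'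
  obtain ⟨hpt, hpts, hper⟩ := OEE.ee_PTS p er A B P V al hx L u e lam hNL hg
  have hsub : ∀ Y ∈ EP P L, Y ∈ SP P er L := by
    intro Y hY
    refine ⟨fun x hxP => hY.1 x ?_, hY.2⟩
    exact Ideal.pow_le_self (by have := hx.er1; omega) hxP
  have hq2 : 2 ≤ nI P - 1 := by have := hx.n3; omega
  have hsr : ∀ Y ∈ EP P L, V.valuation (ru L u e Y) ^ 2 = V.valuation (su L u e Y) := by
    intro Y hY
    obtain ⟨hs0, hs1⟩ := hpt.vs Y (hsub Y hY)
    have h5 := hpt.eq Y (hsub Y hY)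
    rw [← map_pow, h5, map_mul]
    have h6 : V.valuation (1 + -(1 + lam) * su L u e Y + lam * su L u e Y ^ 2) = 1 := by
      have h7 : 1 + -(1 + lam) * su L u e Y + lam * su L u e Y ^ 2 =
          1 + su L u e Y * (-(1 + lam) + lam * su L u e Y) := by ring
      rw [h7]
      apply Valuation.map_one_add_of_lt
      rw [map_mul]
      have h8 : V.valuation (-(1 + lam) + lam * su L u e Y) ≤ 1 := by
        refine Valuation.map_add_le _ hpt.i2 ?_
        rw [map_mul]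
        exact mul_le_one' hpt.i4 hs1.le
      calc V.valuation (su L u e Y) * V.valuation (-(1 + lam) + lam * su L u e Y)
          ≤ V.valuation (su L u e Y) * 1 := by gcongr
        _ = V.valuation (su L u e Y) := mul_one _
        _ < 1 := hs1
    rw [h6, mul_one]
  have hval : ∀ Y ∈ EP P L, V.valuation (ru L u e Y) ^ (er * (nI P - 1)) =
      V.valuation (p : ℂ) := by
    intro Y hY
    obtain ⟨-, -, h5⟩ := hpis Y hY.1 hY.2
    rw [← hsr Y hY, ← pow_mul, mul_comm 2, pow_mul] at h5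
    have h6 : V.valuation (ru L u e Y) ^ (nI P - 1) = V.valuation (emb al) :=
        (pow_left_inj₀ zero_le zero_le two_ne_zero).1 h5
    rw [mul_comm, pow_mul, h6, hx.alv]
  refine ⟨hval, fun x hxP Y hY => ?_⟩
  obtain ⟨p1, p2, -⟩ := OEE.ee_PVL p er A B P V al hx L u e lam hNL hg
  obtain ⟨hk, hk'⟩ := p1 x hxP
  obtain ⟨hInK, hx0⟩ := hpts Y (hsub Y hY)
  have hEP : emb x * Y ∈ EP P L := ⟨t3 P x Y hY.1, (hk' Y hInK hY.2).1⟩
  refine ⟨hEP, ?_⟩
  have hv := hval Y hY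
  have hvp : V.valuation (p : ℂ) < 1 := hx.vp
  have hvp0 : V.valuation (p : ℂ) ≠ 0 := by
    rw [Ne, map_eq_zero]
    exact_mod_cast hx.pp.ne_zero
  set ρ := V.valuation (ru L u e Y) with hρ
  have hn2 : 2 ≤ er * (nI P - 1) := by
    calc 2 ≤ 1 * (nI P - 1) := by omega
      _ ≤ er * (nI P - 1) := Nat.mul_le_mul_right _ hx.er1
  have hρ0 : ρ ≠ 0 := by
    intro h0
    rw [h0, zero_pow (by omega)] at hv
    exact hvp0 hv.symm
  have hρpos : 0 < ρ := zero_lt_iff.2 hρ0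
  have hρ1 : ρ < 1 := by
    by_contra hc
    rw [not_lt] at hc
    exact absurd (one_le_pow₀ hc (n := er * (nI P - 1))) (by rw [hv]; exact not_le.2 hvp)
  have hpρ : V.valuation (p : ℂ) < ρ := by
    rw [← hv]
    exact pow_lt_self_of_lt_one₀ hρpos hρ1 (by omega)
  have hsρ : V.valuation (su L u e Y) < ρ := by
    rw [← hsr Y hY]
    exact pow_lt_self_of_lt_one₀ hρpos hρ1 (by omega)
  -- the representation of the difference
  have hemb0 : emb x ≠ 0 := by
    intro h0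
    have h5 := hx.unit x hxP
    rw [h0, map_zero] at h5
    exact zero_ne_one h5
  obtain ⟨-, -, hiso⟩ := OEE.ee_ISO p er A B P V al hx L L u e lam u e lam (emb x) hNL hNL hg hg hemb0
    (fun w hw => t1 x w hw) hk
  obtain ⟨a1, -, a3, a4, a5, a6, -, -, -⟩ := Pool.Agent.OBE.e_ALG p V _ _ _ _ _ hpt
  have hc := a1 (-emb x) (by rw [Valuation.map_neg]; exact hx.int x)
  have hd := a6 _ _ _ _ _ _ hc a3
  have hf := a5 _ _ _ _ _ _ hiso hd
  obtain ⟨Pl, Q, hPl, hQ, hFY, hP0, hQ0⟩ := hf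
  have hF := hFY Y (hsub Y hY)
  have hmu : emb x * u / u = emb x := by
    field_simp [hg.u0]
  have e1 : ru L u e (emb x * Y) - emb x * ru L u e Y =
      Pl.eval (su L u e Y) + ru L u e Y * Q.eval (su L u e Y) := by
    rw [← hF]
    ring
  have hs1 := (hpt.vs Y (hsub Y hY)).2
  have n1 := eval_near hPl hs1
  have n2 := eval_near hQ hs1
  have hP0' : V.valuation (Pl.coeff 0) ≤ V.valuation (p : ℂ) := by
    have : Pl.coeff 0 = Pl.coeff 0 - (0 + -emb x * 0) := by ring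
    rw [this]
    exact hP0
  have hQ0' : V.valuation (Q.coeff 0) ≤ V.valuation (p : ℂ) := by
    have : Q.coeff 0 = Q.coeff 0 - (emb x * u / u + (-emb x * 1 + 0 * 0)) := by
      rw [hmu]
      ring
    rw [this]
    exact hQ0
  rw [e1]
  apply Valuation.map_add_lt
  · have : Pl.eval (su L u e Y) = (Pl.eval (su L u e Y) - Pl.coeff 0) + Pl.coeff 0 := by ring
    rw [this]
    exact Valuation.map_add_lt _ (lt_of_le_of_lt n1 hsρ) (lt_of_le_of_lt hP0' hpρ)
  · have h9 : V.valuation (Q.eval (su L u e Y)) < 1 := by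
      have : Q.eval (su L u e Y) = (Q.eval (su L u e Y) - Q.coeff 0) + Q.coeff 0 := by ring
      rw [this]
      exact Valuation.map_add_lt _ (lt_of_le_of_lt n2 hs1) (lt_of_le_of_lt hQ0' hvp)
    rw [map_mul]
    calc V.valuation (ru L u e Y) * V.valuation (Q.eval (su L u e Y)) < ρ * 1 :=
          mul_lt_mul_of_pos_left h9 hρpos
      _ = ρ := mul_one _

/-- (TRC) -/
theorem trcX (hR : O_RFINE) {p : ℕ} {P : Ideal (OO A B)} (hS : CaseOE p A B P V)
    (hT : TorXE A B) (hL : IsNE b L om) {u e lam : ℂ} (hg : GoodL V L u e lam) :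
    (∀ Y ∈ EP P L, V.valuation (ru L u e Y) ^ (1 * (nI P - 1)) = V.valuation (p : ℂ)) ∧
    ∀ x : OO A B, x ∉ P → ∀ Y ∈ EP P L,
      emb x * Y ∈ EP P L ∧
      V.valuation (ru L u e (emb x * Y) - emb x * ru L u e Y) < V.valuation (ru L u e Y) := by
  obtain ⟨al, hx⟩ := OEE.ee_CTX p 1 A B P V (OEE.toX hS) hT (OEE.toRFX hR hS hT)
  exact trcY hx hL hg

namespace TAU

variable {A B : ℤ}

/-- the term of the sum -/
def T (w : OO A B → ℂ) (L : PeriodPair) (u e Y : ℂ) (x : OO A B) : ℂ :=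
  (w x)⁻¹ * ru L u e (emb x * Y)

lemma ru_per (L : PeriodPair) (u e z v : ℂ) (hv : v ∈ L.lattice) :
    ru L u e (z + v) = ru L u e z := by
  have h1 := L.weierstrassP_add_coe z ⟨v, hv⟩
  have h2 := L.derivWeierstrassP_add_coe z ⟨v, hv⟩
  simp only at h1 h2
  unfold ru xu yu
  rw [h1, h2]

end TAU


theorem tauE (hR : O_RFINE) {p : ℕ} {P : Ideal (OO A B)} (hcase : CaseOE p A B P V)
    (hTor : TorXE A B) (hNL : IsNE (⊤ : Ideal (OO A B)) L om) {u e lam : ℂ}
    (hg : GoodL V L u e lam) {w : OO A B → ℂ} (hw : IsTeiP p 1 P V w) :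
    ∃ tau : ℂ, V.valuation tau ^ (1 * (nI P - 1)) = V.valuation (p : ℂ) ∧ IsAlgebraic ℚ tau ∧
      ∀ (m : ℕ), p ∣ m → ∀ (a : Ideal (OO A B)) (σ : ℂ ≃+* ℂ) (c : OO A B) (d : ℤ),
        (d = 1 ∨ d = -1) → ActN σ m a L L (d * emb c) →
        c ∉ P → σ u = d * u → σ e = e → (∀ x, σ (w x) = w x) → σ tau = w c * tau := by
  classical
  have hcq := hcase.toCQ
  obtain ⟨hvp, -, hmax, -, -, hnat, -, hnq, hq4, ⟨y, hy1, hy2⟩, -, -⟩ :=
    OEE.ee_BAS p 1 A B P V (OEE.toX hcase)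
  have hli : IsLI (⊤ : Ideal (OO A B)) L om := hNL.toIsLI
  have hmem : ∀ z : ℂ, z ∈ L.lattice ↔ ∃ x : OO A B, z = om * emb x := by
    intro z
    rw [hli.mem z]
    simp
  have hom0 : om ≠ 0 := hli.om_ne
  have hp0 : p ≠ 0 := hcase.pp.ne_zero
  have hpC : (p : ℂ) ≠ 0 := Nat.cast_ne_zero.2 hp0
  have hpO : ((p : ℕ) : OO A B) ≠ 0 := natCast_ne_zero' hcq hp0
  have hq0' : nI P - 1 ≠ 0 := by omega
  have hqe0 : 1 * (nI P - 1) ≠ 0 := by omega
  -- facts on the points of order `P`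
  obtain ⟨hr8, hrx⟩ := trcX hR hcase hTor hNL hg
  have hep : emb ((p : ℕ) : OO A B) = (p : ℂ) := emb_natCast hcq p
  have hmulY : ∀ x z : OO A B, x * y = (p : OO A B) * z → emb x * (om * emb y / p) = om * emb z := by
    intro x z hxz
    have h5 : emb x * emb y = p * emb z := by
      rw [← emb_mul hcq, hxz, emb_mul hcq, hep]
    rw [mul_div_assoc', div_eq_iff hpC]
    linear_combination om * h5
  have hY0 : om * emb y / p ∈ EP P L := by
    refine ⟨?_, ?_⟩
    · intro x hx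
      obtain ⟨z, hz⟩ := hy1 x hx
      rw [hmem]
      exact ⟨z, hmulY x z hz⟩
    · intro hc
      obtain ⟨x, hx⟩ := (hmem _).1 hc
      apply hy2 x
      apply emb_inj hcq
      rw [emb_mul hcq, hep]
      rw [div_eq_iff hpC] at hx
      apply mul_left_cancel₀ hom0
      linear_combination hx
  set Y := om * emb y / p with hY
  set ρ := ru L u e Y with hρ
  have hvp0 : V.valuation (p : ℂ) ≠ 0 := by
    rw [Ne, map_eq_zero]
    exact hpC
  have hρ8 : V.valuation ρ ^ (1 * (nI P - 1)) = V.valuation (p : ℂ) := hr8 Y hY0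
  have hρ0 : V.valuation ρ ≠ 0 := by
    intro h0
    rw [h0, zero_pow hqe0] at hρ8
    exact hvp0 hρ8.symm
  have hρpos : 0 < V.valuation ρ := zero_lt_iff.2 hρ0
  have hw0 : ∀ x, x ∉ P → w x ≠ 0 := by
    intro x hx h0
    have h5 := hw.pow x hx
    rw [h0, zero_pow hq0'] at h5
    exact zero_ne_one h5
  have hwv : ∀ x, x ∉ P → V.valuation (w x) = 1 := by
    intro x hx
    have h5 := congrArg V.valuation (hw.pow x hx)
    rw [map_pow, map_one] at h5
    exact (pow_eq_one_iff.1 h5).resolve_right hq0'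
  have hwc : ∀ x, V.valuation (w x - emb x) < 1 := by
    intro x
    by_contra hc
    rw [not_lt] at hc
    exact absurd ((one_le_pow₀ hc).trans (hw.cong x)) (not_le.2 hvp)
  -- the terms are periodic
  have hTper : ∀ x x' : OO A B, x - x' ∈ P → TAU.T w L u e Y x = TAU.T w L u e Y x' := by
    intro x x' hxy
    have hwxy := hw.per x x' hxy
    unfold TAU.T
    rw [hwxy]
    congr 1
    have h5 : emb x * Y = emb x' * Y + emb (x - x') * Y := by
      rw [emb_sub hcq]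
      ring
    rw [h5]
    exact TAU.ru_per L u e _ _ (hY0.1 _ hxy)
  -- the quotient
  have hne : P ≠ ⊥ := by
    intro h0
    have h5 := hcase.mem
    rw [h0, Ideal.mem_bot] at h5
    exact hpO h5
  have hfin : Finite (OO A B ⧸ P) := MUX.finite_quot hcq hne
  have hfq : Fintype (OO A B ⧸ P) := Fintype.ofFinite _
  have hcard : Fintype.card (OO A B ⧸ P) = nI P := by
    rw [← Nat.card_eq_fintype_card]
    rfl
  have hout : ∀ q : OO A B ⧸ P, Ideal.Quotient.mk P (Quotient.out q) = q := fun q =>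
    Ideal.Quotient.mk_out q
  have hq0 : ∀ q : OO A B ⧸ P, q ≠ 0 → (Quotient.out q : OO A B) ∉ P := by
    intro q hq h0
    apply hq
    rw [← hout q]
    exact Ideal.Quotient.eq_zero_iff_mem.2 h0
  have hT0 : TAU.T w L u e Y (Quotient.out (0 : OO A B ⧸ P)) = 0 := by
    have h0 : (Quotient.out (0 : OO A B ⧸ P) : OO A B) ∈ P := by
      rw [← Ideal.Quotient.eq_zero_iff_mem, hout]
    unfold TAU.T
    rw [hw.zero _ h0]
    simp
  refine ⟨∑ q : OO A B ⧸ P, TAU.T w L u e Y (Quotient.out q), ?_, ?_, ?_⟩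
  · -- the valuation
    have h8 : V.valuation ((nI P - 1 : ℕ) : ℂ) = 1 := hnat (nI P - 1) hnq
    have hsum : ∑ q : OO A B ⧸ P, TAU.T w L u e Y (Quotient.out q) =
        ((nI P - 1 : ℕ) : ℂ) * ρ + ∑ q ∈ Finset.univ.erase (0 : OO A B ⧸ P),
          (TAU.T w L u e Y (Quotient.out q) - ρ) := by
      rw [Finset.sum_sub_distrib, Finset.sum_const, Finset.card_erase_of_mem (Finset.mem_univ _),
        Finset.card_univ, hcard, ← Finset.add_sum_erase _ _ (Finset.mem_univ 0), hT0, nsmul_eq_mul]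
      ring
    have hlt : V.valuation (∑ q ∈ Finset.univ.erase (0 : OO A B ⧸ P),
        (TAU.T w L u e Y (Quotient.out q) - ρ)) < V.valuation ρ := by
      apply Valuation.map_sum_lt _ hρ0
      intro q hq
      have hq' : (Quotient.out q : OO A B) ∉ P := hq0 q (Finset.ne_of_mem_erase hq)
      generalize (Quotient.out q : OO A B) = x at hq'
      have h5 : TAU.T w L u e Y x - ρ = (w x)⁻¹ * (ru L u e (emb x * Y) - emb x * ρ) +
          (w x)⁻¹ * (-(w x - emb x)) * ρ := by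
        unfold TAU.T
        have := hw0 x hq'
        field_simp
        ring
      rw [h5]
      apply Valuation.map_add_lt
      · rw [map_mul, map_inv₀, hwv x hq', inv_one, one_mul]
        exact (hrx x hq' Y hY0).2
      · rw [map_mul, map_mul, map_inv₀, hwv x hq', inv_one, one_mul, Valuation.map_neg]
        calc V.valuation (w x - emb x) * V.valuation ρ
            < 1 * V.valuation ρ := mul_lt_mul_of_pos_right (hwc x) hρpos
          _ = V.valuation ρ := one_mul _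
    have h9 : V.valuation (((nI P - 1 : ℕ) : ℂ) * ρ) = V.valuation ρ := by
      rw [map_mul, h8, one_mul]
    rw [hsum, Valuation.map_add_eq_of_lt_left _ (by rw [h9]; exact hlt), h9, hρ8]
  · -- algebraic
    obtain ⟨hua, hea⟩ := ueE hcq hNL hg
    have halg := coordE hcq hTor hNL (u := u) (e := e) (alg_RFE hcq hTor two_ne_zero hua)
      (alg_RFE hcq hTor two_ne_zero hea)
    rw [isAlgebraic_iff_isIntegral]
    apply IsIntegral.sum
    intro q _
    rw [← isAlgebraic_iff_isIntegral]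
    by_cases hq : q = 0
    · rw [hq, hT0]
      exact isAlgebraic_zero
    · have hx := hq0 q hq
      generalize (Quotient.out q : OO A B) = x at hx
      unfold TAU.T
      have hE := (hrx x hx Y hY0).1
      apply IsAlgebraic.mul
      · apply IsAlgebraic.inv
        rw [isAlgebraic_iff_isIntegral]
        apply IsIntegral.of_pow (n := nI P - 1) (Nat.pos_of_ne_zero hq0')
        rw [hw.pow x hx]
        exact isIntegral_one
      · refine (halg p hp0 _ hE.2 ?_).2.2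
        rw [← hep]
        exact hE.1 _ hcase.mem
  · -- conjugation
    intro m hm a σ c d hd hact hc hσu hσe hσw
    obtain ⟨k, rfl⟩ := hm
    have hc0 := hw0 c hc
    have hterm : ∀ x : OO A B, σ (TAU.T w L u e Y x) = w c * TAU.T w L u e Y (c * x) := by
      intro x
      by_cases hx : x ∈ P
      · unfold TAU.T
        rw [hw.zero x hx, hw.zero (c * x) (Ideal.mul_mem_left _ c hx)]
        simp
      · have hE := (hrx x hx Y hY0).1
        have h5 := (tcj hd hact hσu hσe (z := emb x * Y) (by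
          have h6 : ((p * k : ℕ) : ℂ) * (emb x * Y) =
              (k : ℕ) • (emb ((p : ℕ) : OO A B) * (emb x * Y)) := by
            rw [nsmul_eq_mul, hep]
            push_cast
            ring
          rw [h6]
          exact nsmul_mem (hE.1 _ hcase.mem) k) hE.2).2.2.2
        unfold TAU.T
        rw [map_mul, map_inv₀, hσw, h5, hw.mul, emb_mul hcq]
        have := hw0 x hx
        have e6 : emb c * (emb x * Y) = emb c * emb x * Y := by ring
        rw [e6]
        field_simp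
    rw [map_sum]
    simp_rw [hterm]
    rw [← Finset.mul_sum]
    congr 1
    have hprime : P.IsPrime := hcase.prime
    have hdom : IsDomain (OO A B ⧸ P) := Ideal.Quotient.isDomain _
    set cb := Ideal.Quotient.mk P c with hcb
    have hcb0 : cb ≠ 0 := fun h => hc (Ideal.Quotient.eq_zero_iff_mem.1 h)
    have hbij : Function.Bijective (fun q : OO A B ⧸ P => cb * q) := by
      rw [← Finite.injective_iff_bijective]
      intro a b hab
      exact mul_left_cancel₀ hcb0 hab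
    rw [← Function.Bijective.sum_comp hbij (fun q => TAU.T w L u e Y (Quotient.out q))]
    apply Finset.sum_congr rfl
    intro q _
    apply hTper
    rw [← Ideal.Quotient.eq, map_mul, hout, hout]

end

end Pool.Agent.OETB


end

section

/-!
# OE, block T (helper96): TYPE, every prime `p ≥ 5` (after helper4's `ME/T_TYF4.lean`)

`σ` in the inertia group at `V` of a large Galois extension `F / k` is trivial on `RFE g`, `g = (m') Pc(P)^(j+1)` (`O_RFINE`), so it acts on the points of level `m = p^(j+1) m'` of `L_0` as `d c`, `d = ± 1`, `c ≡ 1`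
modulo `g` (`actG`). `σ u = d u` (`sgu`), `σ tau = w(c) tau`, `v(tau)^(q-1) = v p` (`tauE`), `e(d c) σ(P/om) = P/om` (`valE`), so `e(c) σ(P/(u om)) = P/(u om)` and `tau^i P/(u om)` is fixed by the inertia group.
-/

set_option autoImplicit false

namespace Pool.Agent.OETB

open _root_.MU3 Pool.Agent.MU3A Pool.Agent.MU3B Pool.Agent.RI Pool.Agent.MUX Pool.Agent.MUXU
open OnePoint Pool.Agent.NS Pool.Agent.ME2 Pool.Agent.OB Pool.Agent.OE
open Pool.Agent.ME hiding ActE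
open Pool.Agent.MUXV (GR InK)
open Pool.Agent.NSE (su ru)
open Pool.Agent.MUXY (ActN Dn)
open Pool.Agent.NST (KIn nt_GLC)
open Pool.Agent.NST.TYF (dn_mono idl_ne_bot)

noncomputable section

/-- (TYFE) -/
theorem tyf (hR : O_RFINE) : O_TYFE := by
  intro p A B P V f hS hT ι _ R u el lam hG w hw e he r hr her i hi ka hka
  have hE := hS.toCaseE
  have hQ : CQ A B := hE.toCQ
  have hp : p.Prime := hS.pp
  obtain ⟨hvp, hv2, -, -, hemP, hnu, -, hq1, hq4, -, hcopP, hidp⟩ :=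
    OEE.ee_BAS p 1 A B P V (OEE.toX hS.toCaseOE)
  rw [pow_one] at hidp
  have hu0 : u ≠ 0 := hG.u0
  have hr0 : r ≠ 0 := by
    rintro rfl
    exact hr (dvd_zero p)
  have hf2 : 2 ∣ f := hS.f2
  have hf3 : 3 ≤ f := by
    have := hS.f6.2
    omega
  have h3f : p * f ≠ 0 := mul_ne_zero hp.ne_zero hS.f0
  have h1f : 1 * f ≤ p * f := Nat.mul_le_mul_right _ hp.one_lt.le
  have hL := R.nl R.i0
  have hL0 : IsNE (⊤ : Ideal (OO A B)) (R.L R.i0) (R.om R.i0) := by
    have h1 := hL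
    rw [R.b0] at h1
    exact h1
  have hom0 : R.om R.i0 ≠ 0 := hL.om_ne
  have hgt : idl (A := A) (B := B) (p * f) ≠ ⊤ := NST.VAL.idl_ne_top (by omega)
  have hgb : idl (A := A) (B := B) (p * f) ≠ ⊥ := idl_ne_bot hQ h3f
  have hcopb : IsCoprime (sp ((nI (R.b R.i0) : ℕ) : OO A B))
      (idl (A := A) (B := B) (p * f)) := NST.VAL.coprime_idl (R.cop R.i0)
  obtain ⟨hu2, hel⟩ := ueE hQ hL hG
  have hua2 := alg_RFE hQ hT two_ne_zero hu2
  have hua : IsAlgebraic ℚ u := IsAlgebraic.of_pow two_pos hua2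
  have hea := alg_RFE hQ hT two_ne_zero hel
  -- the values
  obtain ⟨Q, hQdef⟩ : ∃ Q : OnePoint ℚ × OnePoint ℚ → ℂ,
    Q = fun q => PhiI (R.b R.i0) e q.1 q.2 / (u * R.om R.i0) := ⟨_, rfl⟩
  obtain ⟨S, N00, hN00, hSD0, hgen⟩ := fgE hQ hL.b_ne hgb he.toIsEI (u * R.om R.i0)
  have hgen' : ∀ x y, Q (x, y) ∈ AddSubgroup.closure
      (Q '' (S : Set (OnePoint ℚ × OnePoint ℚ))) := by
    rw [hQdef]
    exact hgen
  obtain ⟨j, N, hN3, hjN⟩ := Nat.exists_eq_pow_mul_and_not_dvd hN00 p hp.ne_one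
  rw [hjN] at hSD0
  have hN0 : N ≠ 0 := by
    rintro rfl
    exact hN3 (dvd_zero p)
  obtain ⟨tau, htau8, htaua, htau⟩ := tauE hR hS.toCaseOE hT hL0 hG hw
  obtain ⟨m', hm'⟩ : ∃ m', m' = f * N := ⟨_, rfl⟩
  have hm'0 : m' ≠ 0 := by rw [hm']; exact mul_ne_zero hS.f0 hN0
  have hm'3 : ¬ p ∣ m' := by
    intro h
    rw [hm'] at h
    rcases (Nat.Prime.dvd_mul hp).1 h with h | h
    · exact hS.fp h
    · exact hN3 h
  have hm'C : (m' : ℂ) ≠ 0 := by exact_mod_cast hm'0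
  have hfm : f ∣ m' := by rw [hm']; exact Dvd.intro _ rfl
  have h3m' : 3 ≤ m' := hf3.trans (Nat.le_of_dvd (Nat.pos_of_ne_zero hm'0) hfm)
  obtain ⟨m, hm⟩ : ∃ m, m = p ^ (j + 1) * m' := ⟨_, rfl⟩
  have hm0 : m ≠ 0 := by rw [hm]; exact mul_ne_zero (pow_ne_zero _ hp.ne_zero) hm'0
  have h3m : p ∣ m := by
    rw [hm]
    exact (dvd_pow_self p (Nat.succ_ne_zero j)).mul_right _
  have hmm : m' ∣ m := by rw [hm]; exact dvd_mul_left _ _
  have hpm : p * f ∣ m := by
    rw [hm, pow_succ, mul_assoc]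
    exact (mul_dvd_mul_left p hfm).mul_left _
  have hdvd : p ^ j * N ∣ m := by
    rw [hm, hm']
    exact mul_dvd_mul (pow_dvd_pow p (Nat.le_succ j)) (Dvd.intro_left _ rfl)
  -- the ideal `g`
  obtain ⟨g, hg⟩ : ∃ g : Ideal (OO A B), g = idl m' * Pc P ^ (j + 1) := ⟨_, rfl⟩
  have hidpP : idl (A := A) (B := B) p ≤ Pc P := by
    rw [hidp]
    exact Ideal.mul_le_left
  have hmg : idl (A := A) (B := B) m ≤ g := by
    rw [hm, mul_comm, Pool.Agent.OBT.TYF.idl_mul, Pool.Agent.OBT.TYF.idl_pow, hg]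
    exact Ideal.mul_mono le_rfl (Ideal.pow_right_mono hidpP _)
  have hgm : g ≤ idl (A := A) (B := B) m' := by
    rw [hg]
    exact Ideal.mul_le_left
  have hgO : g ≤ gO P f := by
    rw [hg, gO]
    exact Ideal.mul_mono (idl_mono hfm) (Ideal.pow_le_self (Nat.succ_ne_zero _))
  have hg2 : g ≤ idl (A := A) (B := B) 2 := hgm.trans (idl_mono (hf2.trans hfm))
  have hgbot : g ≠ ⊥ := by
    intro h
    rw [h, le_bot_iff] at hmg
    exact idl_ne_bot hQ hm0 hmg
  have hgP : ¬ g ≤ P := by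
    intro h
    have hPp : P.IsPrime := hS.prime
    rw [hg] at h
    rcases hPp.mul_le.1 h with h1 | h1
    · have h2 : ((m' : ℕ) : OO A B) ∈ P := h1 (Ideal.mem_span_singleton_self _)
      have h3 := (hemP _).2 h2
      rw [MUX.emb_natCast hQ, hnu m' hm'3] at h3
      exact lt_irrefl _ h3
    · exact hS.toCaseOE.not_le hcopP (hPp.le_of_pow_le h1)
  -- the point of level `m'`
  have hm'1 : m' ≠ 1 := by omega
  have hz1 : R.om R.i0 / m' ∉ (R.L R.i0).lattice := by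
    intro h
    obtain ⟨x, -, hx⟩ := (hL.mem _).1 h
    apply NST.TYF.nat_mul_ne_one hQ hm'1 x
    apply MUX.emb_inj hQ
    rw [MUX.emb_mul hQ, MUX.emb_natCast hQ, MUX.emb_one hQ]
    field_simp at hx
    rw [← hx]
  have hz2 : (m' : ℂ) * (R.om R.i0 / m') ∈ (R.L R.i0).lattice := by
    rw [mul_div_cancel₀ _ hm'C]
    exact (hL0.mem _).2 ⟨1, trivial, by rw [MUX.emb_one hQ, mul_one]⟩
  have hYa := (coordE hQ hT hL hua2 hea m' hm'0 _ hz1 hz2).2.1
  have hQalg : ∀ q, IsAlgebraic ℚ (Q q) := by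
    intro q
    have h1 := algE hE hT hL he.toIsEI hgt h3f (natCast_mem_idl (p * f)) hcopb hr0 her q.1 q.2
    have h3 : Q q = PhiI (R.b R.i0) e q.1 q.2 / R.om R.i0 * u⁻¹ := by
      rw [hQdef]
      field_simp
    rw [h3]
    exact h1.mul hua.inv
  -- the field
  have h8r : (nI P - 1) * r ≠ 0 := mul_ne_zero (by omega) hr0
  set Ts : Set ℂ := (Q '' (S : Set (OnePoint ℚ × OnePoint ℚ))) ∪
    ({tau, yu (R.L R.i0) u (R.om R.i0 / m')} ∪
      ((Polynomial.nthRootsFinset ((nI P - 1) * r) (1 : ℂ) : Finset ℂ) : Set ℂ)) with hTs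
  have hTfin : Ts.Finite := by
    refine Set.Finite.union ?_ (Set.Finite.union ?_ ?_)
    · exact (Finset.finite_toSet S).image _
    · exact Set.toFinite _
    · exact Finset.finite_toSet _
  have hTalg : ∀ t ∈ Ts, IsAlgebraic ℚ t := by
    rintro t (⟨q, -, rfl⟩ | (ht | ht))
    · exact hQalg q
    · rcases ht with rfl | ht
      · exact htaua
      · rw [Set.mem_singleton_iff] at ht
        rw [ht]
        exact hYa
    · rw [Finset.mem_coe, Polynomial.mem_nthRootsFinset (Nat.pos_of_ne_zero h8r)] at ht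
      refine ⟨Polynomial.X ^ ((nI P - 1) * r) - 1, Polynomial.X_pow_sub_C_ne_zero
        (Nat.pos_of_ne_zero h8r) (1 : ℚ), ?_⟩
      simp [ht]
  obtain ⟨F, hFf, hFg, hEF, hTF⟩ := nt_GLC A B hQ (RFE g)
    (hT.fin _ hgbot) Ts hTfin hTalg
  have htau0 : tau ≠ 0 := by
    rintro rfl
    rw [map_zero, zero_pow (by omega)] at htau8
    exact (V.valuation.ne_zero_iff.2 (Nat.cast_ne_zero.2 hp.ne_zero)) htau8.symm
  have htauF : tau ∈ F := hTF (Or.inr (Or.inl (Or.inl rfl)))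
  have hyF : yu (R.L R.i0) u (R.om R.i0 / m') ∈ F := hTF (Or.inr (Or.inl (Or.inr rfl)))
  have hrF : ∀ z : ℂ, z ^ ((nI P - 1) * r) = 1 → z ∈ F := fun z hz => hTF (Or.inr (Or.inr (by
    rw [Finset.mem_coe, Polynomial.mem_nthRootsFinset (Nat.pos_of_ne_zero h8r)]
    exact hz)))
  have h38r : ¬ p ∣ (nI P - 1) * r := by
    intro h
    rcases (Nat.Prime.dvd_mul hp).1 h with h | h
    · exact hq1 h
    · exact hr h
  have hunf : ∀ w' ∈ KIn A B V F, V.valuation w' < 1 →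
      V.valuation w' ≤ V.valuation (p : ℂ) := by
    intro w' hw' hw1
    have h2 := Pool.Agent.N2T.unfP hQ hS.hV hS.mem hS.unr F w' hw' hw1
    rwa [MUX.emb_natCast hQ] at h2
  -- the key point
  have hkey : ∀ σ : ℂ ≃+* ℂ, InI A B V (F : Set ℂ) σ → ∀ q ∈ S,
      σ (Q q * tau ^ i) = Q q * tau ^ i := by
    intro σ hσ q hq
    have hRF : ∀ y ∈ RFE g, σ y = y :=
      (hR p A B P V hS.toCaseOE hT).2 g hgbot hg2 hgP σ hσ.fix
        (fun y hy hyV => hσ.iner y (hEF hy) hyV)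
    have hle : (RFE (idl (A := A) (B := B) 2) : IntermediateField (kk A B) ℂ) ≤
        RFE g := hT.mono _ _ hg2
    have hsu2 : σ (u ^ 2) = u ^ 2 := hRF _ (hle hu2)
    have hsel : σ el = el := hRF _ (hle hel)
    obtain ⟨c0, c, d, hd, hc0, hcg, hcop, hact, hz⟩ := actG hE hT hm0 hmg hg2 hσ.fix hRF
    have hA := hact _ _ _ hL
    have hcm : c - 1 ∈ idl (A := A) (B := B) m' := hgm hcg
    have hembc : emb c0 = (d : ℂ) * emb c := by
      rw [hc0, MUX.emb_mul hQ, MUX.emb_intCast hQ]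
    have hec0 : e c0 = (d : ℂ) * e c := by
      rw [hc0, he.mul]
      congr 1
      rcases hd with rfl | rfl
      · rw [Int.cast_one, Int.cast_one, he.one]
      · rw [Int.cast_neg, Int.cast_one, Int.cast_neg, Int.cast_one, he.neg]
    have hc3 : c ∉ P := by
      intro h
      have h6 : c0 ∈ P := by
        rw [hc0]
        exact Ideal.mul_mem_left _ _ h
      exact Pool.Agent.OBT.TYF.not_mem hS.prime hS.mem h3m hcop h6
    have hA' : ActN σ m (sp c0) (R.L R.i0) (R.L R.i0) ((d : ℂ) * emb c) := by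
      rw [← hembc]
      exact hA
    have hsu : σ u = d * u := by
      refine sgu hQ hv2 hL0.toIsLI hG h3m' (hnu m' hm'3) hmm hcm hd hA' hsu2 ?_
      intro h
      have h1 := hσ.iner _ hyF ((V.valuation_le_one_iff _).1 h)
      rwa [ValuationSubring.mem_nonunits_iff] at h1
    have hroot : ∀ z : ℂ, (z = 0 ∨ z ^ ((nI P - 1) * r) = 1) → σ z = z := by
      refine (Pool.Agent.OBT.o_RTU p hp V hvp ((nI P - 1) * r) h38r).2 σ ?_
      intro z hz
      have hz1 : V.valuation z = 1 := by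
        have h1 : (V.valuation z) ^ ((nI P - 1) * r) = 1 := by rw [← map_pow, hz, map_one]
        exact (pow_eq_one_iff.1 h1).resolve_right h8r
      have h1 := hσ.iner z (hrF z hz) ((V.valuation_le_one_iff _).1 hz1.le)
      rwa [ValuationSubring.mem_nonunits_iff] at h1
    have hse : ∀ x, σ (e x) = e x := by
      intro x
      apply hroot
      by_cases hx : e x = 0
      · exact Or.inl hx
      · right
        rw [mul_comm, pow_mul, her x hx, one_pow]
    have hsw : ∀ x, σ (w x) = w x := by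
      intro x
      apply hroot
      by_cases hx : x ∈ P
      · exact Or.inl (hw.zero x hx)
      · right
        rw [pow_mul, hw.pow x hx, one_pow]
    have h1 := valE hQ hL.toIsLI hm0 hA hz he.toIsEI hgt
      (idl_mono hpm (natCast_mem_idl m)) hcopb hse q.1 q.2
      (dn_mono hdvd (hSD0 q hq).1) (dn_mono hdvd (hSD0 q hq).2)
    have h2 : σ tau = w c * tau := htau m h3m _ σ c d hd hA' hc3 hsu hsel hsw
    have h3 : e c = w c ^ i := hi c (hgO hcg) hc3
    have hdd : (d : ℂ) * d = 1 := by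
      rcases hd with rfl | rfl <;> norm_num
    have hd0 : (d : ℂ) ≠ 0 := left_ne_zero_of_mul_eq_one hdd
    have h6 : e c * σ (Q q) = Q q := by
      have h7 : ∀ q, Q q = PhiI (R.b R.i0) e q.1 q.2 / R.om R.i0 / u := by
        intro q
        rw [hQdef]
        field_simp
      rw [h7, map_div₀, hsu]
      nth_rewrite 2 [← h1]
      rw [hec0]
      field_simp
      linear_combination (-(e c * σ (PhiI (R.b R.i0) e q.1 q.2 / R.om R.i0))) * hdd
    rw [map_mul, map_pow, h2, mul_pow, ← h3]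
    calc σ (Q q) * (e c * tau ^ i) = (e c * σ (Q q)) * tau ^ i := by ring
      _ = Q q * tau ^ i := by rw [h6]
  have hi0 : ∀ i, i = R.i0 := one_elt hE R
  have hQU : ∀ x y, PhiKE R e ka x y / (u * R.om R.i0) = ka R.i0 * Q (x, y) := by
    intro x y
    unfold PhiKE
    rw [Finset.sum_eq_single R.i0 (fun i _ hi => absurd (hi0 i) hi)
      (fun h => absurd (Finset.mem_univ _) h), hQdef]
    field_simp
  have hvk : V.valuation (ka R.i0) = 1 := NST.RTU.v_root hr0 (hka R.i0)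
  refine ⟨ka R.i0 * (tau ^ i)⁻¹, KIn A B V F, ?_, hunf, ?_⟩
  · have hle : AddSubgroup.closure (Q '' (S : Set (OnePoint ℚ × OnePoint ℚ))) ≤
        ((KIn A B V F).toAddSubgroup).map (AddMonoidHom.mulLeft ((tau ^ i)⁻¹)) := by
      rw [AddSubgroup.closure_le]
      rintro _ ⟨q, hq, rfl⟩
      refine ⟨Q q * tau ^ i, ⟨?_, fun σ hσ => hkey σ hσ q hq⟩, ?_⟩
      · exact F.mul_mem (hTF (Or.inl ⟨q, hq, rfl⟩)) (F.pow_mem htauF i)
      · rw [AddMonoidHom.coe_mulLeft]
        field_simp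
    intro x y
    obtain ⟨w', hw', hw2⟩ := hle (hgen' x y)
    refine ⟨w', hw', ?_⟩
    rw [hQU, ← hw2, AddMonoidHom.coe_mulLeft]
    ring
  · rw [map_mul, hvk, one_mul, map_inv₀, map_pow, inv_pow, ← pow_mul,
      mul_comm i (nI P - 1), pow_mul, ← one_mul (nI P - 1), htau8]
    exact inv_mul_cancel₀ (pow_ne_zero _ (V.valuation.ne_zero_iff.2
      (Nat.cast_ne_zero.2 hp.ne_zero)))

end

end Pool.Agent.OETB


end

section

/-!
# OE, block T: the result (helper96)
-/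

set_option autoImplicit false

namespace Pool.Agent.OETB

open Pool.Agent.OE

/-- block T -/
theorem oe_TYF (hR : O_RFINE) : O_TYFE := tyf hR

end Pool.Agent.OETB


end
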