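import Pool.Agent.MVF.C038
import Pool.Agent.MVF.C039
import Pool.Agent.MVF.C076
import Pool.Agent.MVF.C116
import Pool.Agent.MVF.C120
import Pool.Agent.MVF.C134
import Pool.Agent.MVF.C135
import Pool.Agent.MVF.C168
import Pool.Agent.MVF.C170
import Pool.Agent.MVF.C187
import Pool.Agent.MVF.C189
import Pool.Agent.MVF.C190
import Pool.Agent.OBM.C03
import Pool.Agent.OBM.C07
import Pool.Agent.OBM.C11
import Pool.Agent.OBM.C12
import Pool.Agent.OBM.C19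
import Pool.Agent.OBM.C21
import Pool.Agent.OBM.C24
import Pool.Agent.OTM.C03
import Pool.Agent.OTM.C06
import Pool.Agent.OTM.C08
import Pool.Agent.OTM.C10
import Pool.Agent.OTM.C11
import Pool.Agent.OVM.C01
import Pool.Agent.OVM.C02
import Pool.Agent.OVM.C03

/-! Parts: OE.J_FLD, OE.J_SETF, OE.J_UNR, OE.G_GPT, OE.HB_SUM, OE.J_INW, OE.J_INPT, OE.J_MAIN, OE.HQ_HQ1, OE.J_NB, OE.HB_HT, OE.JAll, OE.HB_HETA, OE.HBAll -/

section

/-!
# OE, block J, modules SUB, LLV, ABL for the exceptional fields (helper19)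

After `OB/ZL.lean` (`o_SUB`) and `OT/J_LLV.lean`, `OT/J_ABL.lean` (helper88): `K₀ ⊔ Bn ≤ RFE (lvX p f n)`; the composite of a subfield of `RFE (lvX p f 0)` and of the `r`-th layer of
the cyclotomic `ℤ_l`-extension, `l = 2, 3`, is in `RFE (lvX p (f l^(r+h)) 0)`, abelian over `k`, of degree prime to `p`.
-/

set_option autoImplicit false

namespace Pool.Agent.OEJ

open _root_.MU3 Pool.Agent.MU3 Pool.Agent.MU3A Pool.Agent.MU3B Pool.Agent.RI Pool.Agent.RID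
  Pool.Agent.MUX Pool.Agent.ME Pool.Agent.MUXE Pool.Agent.MUXK Pool.Agent.MUXJ
open Pool.Agent.MU3I (zt)
open Pool.Agent.TWR (Gen)
open Pool.Agent.OT.JLLV (zt_pow idl_ne idl_le gen_cases gen_q0)
open Pool.Agent.OT.JABL (deg)
open Pool.Agent.OBZ (SetQ)

/-- roots of unity in ray class fields -/
theorem zeta_memE {A B : ℤ} (T : TorXE A B) (hN : NLex_E A B) {M m : ℕ} (hM : M ≠ 0)
    (hm : m ≠ 0) (h : M ∣ m) {z : ℂ} (hz : z ^ M = 1) : z ∈ RFE (idl (A := A) (B := B) m) := by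
  obtain ⟨b, L, om, hL⟩ := hN
  obtain ⟨a, -, ha⟩ := T.act _ (idl_ne hm) (RingEquiv.refl ℂ) rfl
  obtain ⟨b', L', om', mu, hL', hact⟩ := ha b L om hL
  exact (T.zeta M _ a (RingEquiv.refl ℂ) b L L' om mu (idl_ne hm) rfl hM (idl_le h) hL hact z
    hz).1

/-- (SUB) `K B_n ≤ RFE (lvX p f n)` -/
theorem t_SUBE (p : ℕ) (A B : ℤ) (f : ℕ) (hS : SetQ p A B f) (hT : TorXE A B) (hL : NLex_E A B)
    (K : IntermediateField ℚ ℂ) (hK : ∀ y ∈ K, y ∈ RFE (idl (A := A) (B := B) (lvX p f 0)))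
    (n : ℕ) (Bn : IntermediateField ℚ ℂ) (hlay : IsLayer p n Bn) :
    ∀ y ∈ K ⊔ Bn, y ∈ RFE (idl (A := A) (B := B) (lvX p f n)) := by
  have : Fact p.Prime := ⟨hS.hp⟩
  have hp0 : p ≠ 0 := hS.hp.ne_zero
  have hq : q0 p = p := if_neg hS.p2
  have hM : p ^ (n + 1) ≠ 0 := pow_ne_zero _ hp0
  have hlv : lvX p f n = f * p ^ (n + 1) := by unfold lvX; rw [hq]; ring
  have hlv0 : lvX p f n ≠ 0 := by
    rw [hlv]; exact Nat.mul_ne_zero hS.f0 hM
  have hle0 : idl (A := A) (B := B) (lvX p f n) ≤ idl (lvX p f 0) :=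
    idl_le ⟨p ^ n, by unfold lvX; ring⟩
  have hz : ∀ z : ℂ, z ^ (p ^ (n + 1)) = 1 → z ∈ RFE (idl (A := A) (B := B) (lvX p f n)) :=
    fun z hz => zeta_memE hT hL hM hlv0 ⟨f, by rw [hlv]; ring⟩ hz
  have hBn : Bn ≤ IntermediateField.restrictScalars ℚ
      (RFE (idl (A := A) (B := B) (lvX p f n))) := by
    refine (OB.t_CYCO p hS.p2 n Bn hlay).1.trans ?_
    rw [IntermediateField.adjoin_le_iff]
    intro x hx
    exact hz x hx
  have hK' : K ≤ IntermediateField.restrictScalars ℚ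
      (RFE (idl (A := A) (B := B) (lvX p f n))) := by
    intro x hx
    exact hT.mono _ _ hle0 (hK x hx)
  intro y hy
  exact (sup_le hK' hBn) hy

/-- Module LLV. -/
theorem t_LLVE (l g h : ℕ) (hG : Gen l g h) (A B : ℤ) (T : TorXE A B) (hN : NLex_E A B)
    (p f : ℕ) (hp : p ≠ 0) (hf : f ≠ 0) (K₀ : IntermediateField ℚ ℂ)
    (hK : ∀ y ∈ K₀, y ∈ RFE (idl (A := A) (B := B) (lvX p f 0))) (r : ℕ)
    (L : IntermediateField ℚ ℂ) (hL : IsLayer l r L) :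
    ∀ y ∈ K₀ ⊔ L, y ∈ RFE (idl (A := A) (B := B) (lvX p (f * l ^ (r + h)) 0)) := by
  have hl := gen_cases hG
  have hl0 : l ≠ 0 := by rcases hl with rfl | rfl <;> norm_num
  have hq : q0 p ≠ 0 := by
    unfold q0
    split_ifs with h2
    · norm_num
    · exact hp
  have hlv : lvX p (f * l ^ (r + h)) 0 = lvX p f 0 * l ^ (r + h) := by unfold lvX; ring
  have hM : l ^ (r + h) ≠ 0 := pow_ne_zero _ hl0
  have hlv0 : lvX p (f * l ^ (r + h)) 0 ≠ 0 := by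
    unfold lvX
    exact mul_ne_zero (mul_ne_zero (mul_ne_zero hf hM) hq) (pow_ne_zero _ hp)
  have hd1 : lvX p f 0 ∣ lvX p (f * l ^ (r + h)) 0 := ⟨_, hlv⟩
  have hd2 : l ^ (r + h) ∣ lvX p (f * l ^ (r + h)) 0 := ⟨lvX p f 0, by rw [hlv, mul_comm]⟩
  have hz : zt (l ^ (r + h)) ∈ RFE (idl (A := A) (B := B) (lvX p (f * l ^ (r + h)) 0)) :=
    zeta_memE T hN hM hlv0 hd2 (zt_pow _ hM)
  have hL' : L ≤ IntermediateField.restrictScalars ℚ
      (RFE (idl (A := A) (B := B) (lvX p (f * l ^ (r + h)) 0))) := by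
    rw [Pool.Agent.MUXI.ti_LAY l r hl L hL, gen_q0 hG, IntermediateField.adjoin_le_iff]
    intro x hx
    rw [Set.mem_singleton_iff] at hx
    rw [hx]
    exact add_mem hz (inv_mem hz)
  have hK' : K₀ ≤ IntermediateField.restrictScalars ℚ
      (RFE (idl (A := A) (B := B) (lvX p (f * l ^ (r + h)) 0))) := by
    intro x hx
    exact T.mono _ _ (idl_le hd1) (hK x hx)
  intro y hy
  exact (sup_le hK' hL') hy

/-- Module ABL. -/
theorem t_ABLE (l g h : ℕ) (hG : Gen l g h) (A B : ℤ) (T : TorXE A B) (hN : NLex_E A B)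
    (p f : ℕ) (hp : p.Prime) (hp5 : 5 ≤ p) (hf : f ≠ 0) (K₀ : IntermediateField ℚ ℂ)
    (hk : kk A B ≤ K₀) (hK : ∀ y ∈ K₀, y ∈ RFE (idl (A := A) (B := B) (lvX p f 0)))
    (hcop : ¬ p ∣ Module.finrank (kk A B) (IntermediateField.extendScalars hk)) (r : ℕ)
    (L : IntermediateField ℚ ℂ) (hL : IsLayer l r L) (hk' : kk A B ≤ K₀ ⊔ L) :
    IsGalois (kk A B) (IntermediateField.extendScalars hk') ∧
    (∀ σ τ : (IntermediateField.extendScalars hk') ≃ₐ[kk A B]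
      (IntermediateField.extendScalars hk'), σ * τ = τ * σ) ∧
    ¬ p ∣ Module.finrank (kk A B) (IntermediateField.extendScalars hk') := by
  have hl := gen_cases hG
  have hl0 : l ≠ 0 := by rcases hl with rfl | rfl <;> norm_num
  have hlp : Fact l.Prime := ⟨by rcases hl with rfl | rfl <;> norm_num⟩
  have hq : ∀ f', f' ≠ 0 → lvX p f' 0 ≠ 0 := by
    intro f' hf'
    unfold lvX q0
    split_ifs with h2
    · exact mul_ne_zero (mul_ne_zero hf' (by norm_num)) (pow_ne_zero _ hp.ne_zero)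
    · exact mul_ne_zero (mul_ne_zero hf' hp.ne_zero) (pow_ne_zero _ hp.ne_zero)
  obtain ⟨g1, g2, -⟩ := t_GAL_E A B T _ (idl_ne (hq f hf)) K₀ hk hK
  obtain ⟨g3, g4, g5⟩ := t_GAL_E A B T _
    (idl_ne (hq (f * l ^ (r + h)) (mul_ne_zero hf (pow_ne_zero _ hl0)))) (K₀ ⊔ L) hk'
    (t_LLVE l g h hG A B T hN p f hp.ne_zero hf K₀ hK r L hL)
  obtain ⟨h1, h2, -⟩ := LAY_thm l r L hL
  have hdeg : ¬ p ∣ Module.finrank ℚ L := by
    rw [hL.1]
    intro h3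
    have h4 := hp.dvd_of_dvd_pow h3
    have h5 := Nat.le_of_dvd (Nat.pos_of_ne_zero hl0) h4
    rcases hl with rfl | rfl <;> omega
  exact ⟨g3, g5, deg hk hk' hp hcop hdeg⟩

end Pool.Agent.OEJ


end

section

/-!
# OE, block J, module SETF: the large field `K = K₀ RFE(1)` for a given level `f`, exceptional `k` (helper19)

After `Pool/Agent/OT/J_SETF.lean` (helper14).
-/

set_option autoImplicit false

open NumberField IsDedekindDomain
open scoped nonZeroDivisors Pointwise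

namespace Pool.Agent.OEJ

open _root_.MU3 Pool.Agent.MU3 Pool.Agent.MU3A Pool.Agent.MU3B Pool.Agent.RI Pool.Agent.RID
  Pool.Agent.MUX Pool.Agent.ME Pool.Agent.MUXK Pool.Agent.MUXE Pool.Agent.MUXJ Pool.Agent.OB

open JSET in
/-- SETF: the large field `K`, the level `f` is given. -/
theorem t_SETFE (p : ℕ) (A B : ℤ) (P : Ideal (OO A B)) (V : ValuationSubring ℂ)
    (hE : CaseE A B) (hp : p.Prime) (h5 : 5 ≤ p) (hPp : P.IsPrime)
    (hPm : ((p : ℕ) : OO A B) ∈ P) (hV : OverI V P) (T : TorXE A B) (f : ℕ) (hf0 : f ≠ 0) (K₀ : IntermediateField ℚ ℂ)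
    [FiniteDimensional ℚ K₀] (hk : kk A B ≤ K₀)
    (hcop : ¬ p ∣ Module.finrank (kk A B) (IntermediateField.extendScalars hk))
    (hKf : ∀ y ∈ K₀, y ∈ RFE (idl (A := A) (B := B) (lvX p f 0)))
    (hom : ∃ ω ∈ K₀, IsPrimitiveRoot ω p)
    (Bn : ℕ → IntermediateField ℚ ℂ) (hlay : ∀ n, IsLayer p n (Bn n)) (hmono : Monotone Bn) :
    ∃ (K : IntermediateField ℚ ℂ) (_ : FiniteDimensional ℚ K),
      SetX p (kk A B) K₀ K Bn ∧
      (∀ y ∈ K, y ∈ RFE (idl (A := A) (B := B) (lvX p f 0))) ∧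
      ∀ y ∈ RFE (⊤ : Ideal (OO A B)), y ∈ K := by
  have : Fact p.Prime := ⟨hp⟩
  have hp2 : p ≠ 2 := by omega
  have hp3 : p ≠ 3 := by omega
  have hU : UnrH_E A B V := MEZ.unrH_E hE V
  have hq0 : q0 p = p := if_neg hp2
  have hodd : Odd p := hp.odd_of_ne_two hp2
  have hlv0 : lvX p f 0 ≠ 0 := by
    unfold lvX
    rw [hq0]
    exact mul_ne_zero (mul_ne_zero hf0 hp.ne_zero) (pow_ne_zero _ hp.ne_zero)
  set m₀ : Ideal (OO A B) := idl (lvX p f 0) with hm₀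
  have hm₀b : m₀ ≠ ⊥ := idl_ne _ hlv0
  -- the root of unity
  obtain ⟨ω, hω, hωp⟩ := hom
  have hζ : IsPrimitiveRoot (-ω) (2 * p) := by
    have h1 : orderOf (-ω) = 2 * p := by
      rw [neg_eq_neg_one_mul, (Commute.all _ _).orderOf_mul_eq_mul_orderOf_of_coprime]
      · simp [hωp.eq_orderOf]
      · simp [← hωp.eq_orderOf, hodd]
    rw [← h1]
    exact IsPrimitiveRoot.orderOf _
  -- the fields
  have hkfd : FiniteDimensional ℚ (kk A B) :=
    FiniteDimensional.of_injective (IntermediateField.inclusion hk).toLinearMap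
      (IntermediateField.inclusion hk).injective
  set E₀ : IntermediateField (kk A B) ℂ := IntermediateField.extendScalars hk with hE₀
  have hE₀m : E₀ ≤ RFE m₀ := fun x hx => hKf x hx
  set KK : IntermediateField (kk A B) ℂ := E₀ ⊔ RFE (⊤ : Ideal (OO A B)) with hKK
  have hHm : RFE (⊤ : Ideal (OO A B)) ≤ RFE m₀ := T.mono ⊤ m₀ le_top
  have hKKm : KK ≤ RFE m₀ := sup_le hE₀m hHm
  have hmfd := T.fin m₀ hm₀b
  have hfdE₀ : FiniteDimensional (kk A B) E₀ :=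
    FiniteDimensional.of_injective (IntermediateField.inclusion hE₀m).toLinearMap
      (IntermediateField.inclusion hE₀m).injective
  have hfdKK : FiniteDimensional (kk A B) KK :=
    FiniteDimensional.of_injective (IntermediateField.inclusion hKKm).toLinearMap
      (IntermediateField.inclusion hKKm).injective
  set K : IntermediateField ℚ ℂ := KK.restrictScalars ℚ with hK
  have hkK : kk A B ≤ K := fun x hx => KK.algebraMap_mem ⟨x, hx⟩
  have hKK' : IntermediateField.extendScalars hkK = KK := SetLike.ext fun x => Iff.rfl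
  have hfdK : FiniteDimensional ℚ K := by
    have : FiniteDimensional ℚ KK := FiniteDimensional.trans ℚ (kk A B) KK
    exact this
  have hK0K : K₀ ≤ K := fun x hx => (le_sup_left : E₀ ≤ KK) (show x ∈ E₀ from hx)
  obtain ⟨hgal0, -, hab0⟩ := t_GAL_E A B T m₀ hm₀b K₀ hk hKf
  obtain ⟨hgal, -, hab⟩ := t_GAL_E A B T m₀ hm₀b K hkK (fun x hx => hKKm hx)
  have hgalKK : IsGalois (kk A B) KK := by rw [← hKK']; exact hgal
  have hgalE₀ : IsGalois (kk A B) E₀ := hgal0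
  -- the first layer
  have hB1 : ¬ Bn 1 ≤ K := by
    intro hB
    obtain ⟨-, h8⟩ := t_CYCO p hp2 1 (Bn 1) (hlay 1)
    have hpp0 : p ^ (1 + 1) ≠ 0 := pow_ne_zero _ hp.ne_zero
    have hz := Complex.isPrimitiveRoot_exp (p ^ (1 + 1)) hpp0
    have hz1 := h8 K hB ⟨ω, hK0K hω, hωp⟩ _ hz.pow_eq_one
    have h9 := t_RAMO p A B P V hE.toCQ hp hPp hPm hV KK ⟨_, hz1, by
      have e : p * p = p ^ (1 + 1) := by rw [pow_succ, pow_one]
      rw [e]
      exact hz⟩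
    have h10 := t_INJ_E A B V hU T E₀ KK rfl
    have h11 := (h9.trans (mul_dvd_mul_left 2 h10))
    have h12 : p ∣ 2 * Module.finrank (kk A B) E₀ := (Dvd.intro _ rfl).trans h11
    rcases (Nat.Prime.dvd_mul hp).mp h12 with h13 | h13
    · have := Nat.le_of_dvd (by norm_num) h13
      omega
    · exact hcop h13
  have hB10 : ¬ Bn 1 ≤ K₀ := fun h => hB1 (h.trans hK0K)
  refine ⟨K, hfdK, ?_, ?_, ?_⟩
  · exact
      { b0 := ⟨hk, hgal0, hab0, t_LDX p K₀ Bn hlay hmono hB10, hlay, hmono⟩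
        b := ⟨hkK, hgal, hab, t_LDX p K Bn hlay hmono hB1, hlay, hmono⟩
        le := hK0K
        cop := hcop
        om := ⟨ω, hω, hωp⟩
        ze := ⟨-ω, neg_mem (hK0K hω), hζ⟩ }
  · exact fun y hy => hKKm hy
  · exact fun y hy => (le_sup_right : RFE (⊤ : Ideal (OO A B)) ≤ KK) hy

end Pool.Agent.OEJ


end

section

/-!
# OE, block J, module UNR (helper19): a prime `p` which does not divide the discriminant is unramified
-/

set_option autoImplicit false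

namespace Pool.Agent.OEJ

open _root_.MU3 Pool.Agent.MU3A Pool.Agent.MU3B Pool.Agent.MUX Pool.Agent.MUXE
  Pool.Agent.OBH.RAM

noncomputable section

variable {A B : ℤ}

/-- lift of the root modulo `p²` -/
theorem liftU {p r : ℤ} (h : p ∣ r ^ 2 - B * r - A) (hd : IsCoprime p (B ^ 2 + 4 * A)) :
    ∃ s : ℤ, p ^ 2 ∣ s ^ 2 - B * s - A ∧ p ∣ s - r := by
  obtain ⟨k, hk⟩ := h
  obtain ⟨a, b, hab⟩ := hd
  have h1 : (2 * r - B) ^ 2 = 4 * (p * k) + (B ^ 2 + 4 * A) := by linear_combination 4 * hk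
  refine ⟨r - p * k * (b * (2 * r - B)),
    ⟨k * a - 4 * k ^ 2 * b + k ^ 2 * (b * (2 * r - B)) ^ 2, ?_⟩,
    ⟨-(k * (b * (2 * r - B))), by ring⟩⟩
  linear_combination hk - p * k * b * h1 - p * k * hab

/-- `p` is not in `P²` -/
theorem not_sqU {p : ℕ} (hp : p.Prime) (hd : IsCoprime (p : ℤ) (B ^ 2 + 4 * A))
    {P : Ideal (OO A B)} (hcard : Nat.card (OO A B ⧸ P) = p) : ((p : ℕ) : OO A B) ∉ P ^ 2 := by
  intro hmem
  rw [pow_two] at hmem
  obtain ⟨r, hr, hP⟩ := CtxX.dgi P p hp hcard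
  obtain ⟨s, hs, hsr⟩ := liftU hr hd
  have hP' : ∀ x ∈ P, (p : ℤ) ∣ x.re + x.im * s := by
    intro x hx
    have h1 := (hP x).1 hx
    have h2 : x.re + x.im * s = (x.re + x.im * r) + x.im * (s - r) := by ring
    rw [h2]
    exact dvd_add h1 (Dvd.dvd.mul_left hsr _)
  have key : ∀ y ∈ P * P, ((p : ℤ)) ^ 2 ∣ y.re + y.im * s := by
    intro y hy
    refine Submodule.mul_induction_on (C := fun y : OO A B => ((p : ℤ)) ^ 2 ∣ y.re + y.im * s)
      hy ?_ ?_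
    · intro x hx y hy
      have h1 : (x * y).re + (x * y).im * s = (x.re + x.im * s) * (y.re + y.im * s) -
          x.im * y.im * (s ^ 2 - B * s - A) := by
        rw [QuadraticAlgebra.re_mul, QuadraticAlgebra.im_mul]
        ring
      show ((p : ℤ)) ^ 2 ∣ (x * y).re + (x * y).im * s
      rw [h1]
      refine dvd_sub ?_ (Dvd.dvd.mul_left hs _)
      rw [pow_two]
      exact mul_dvd_mul (hP' x hx) (hP' y hy)
    · intro x y hx hy
      have h1 : (x + y).re + (x + y).im * s = (x.re + x.im * s) + (y.re + y.im * s) := by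
        rw [QuadraticAlgebra.re_add, QuadraticAlgebra.im_add]
        ring
      show ((p : ℤ)) ^ 2 ∣ (x + y).re + (x + y).im * s
      rw [h1]
      exact dvd_add hx hy
  have h1 := key _ hmem
  have h2 : ((p : ℕ) : OO A B).re = p := by simp
  have h3 : ((p : ℕ) : OO A B).im = 0 := by simp
  rw [h2, h3, zero_mul, add_zero] at h1
  have h4 : p ^ 2 ∣ p := by exact_mod_cast h1
  have h5 := Nat.le_of_dvd hp.pos h4
  have h6 := hp.one_lt
  nlinarith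

/-- UNR -/
theorem t_UNR {p : ℕ} (hC : CQ A B) (hp : p.Prime) (hd : ¬ (p : ℤ) ∣ absD A B)
    {P : Ideal (OO A B)} (hP : P.IsPrime) (hmem : ((p : ℕ) : OO A B) ∈ P) :
    ((p : ℕ) : OO A B) ∉ P ^ 2 := by
  intro hram
  have hpi : Prime (p : ℤ) := Nat.prime_iff_prime_int.1 hp
  have hPt : P ≠ ⊤ := hP.ne_top
  have hp0 : ((p : ℕ) : OO A B) ≠ 0 := natCast_ne_zero' hC hp.ne_zero
  have hPb : P ≠ ⊥ := fun h0 => hp0 (by rwa [h0, Ideal.mem_bot] at hmem)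
  have hle : idl (A := A) (B := B) p ≤ P := (Ideal.span_singleton_le_iff_mem _).2 hmem
  have hnP : nI P = p ∨ nI P = p ^ 2 := by
    have h1 := card_dvd hle
    rw [nI_idl hC hp.ne_zero, Nat.dvd_prime_pow hp] at h1
    obtain ⟨k, hk, hk'⟩ := h1
    have h2 := nI_ne_one hPt
    interval_cases k
    · exact absurd (by simpa using hk') h2
    · exact Or.inl (by simpa using hk')
    · exact Or.inr hk'
  have hle2 : idl (A := A) (B := B) p ≤ P * P := by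
    rw [← sq]
    exact (Ideal.span_singleton_le_iff_mem _).2 hram
  have hn : nI P = p := by
    rcases hnP with h1 | h1
    · exact h1
    · exfalso
      have h2 := card_dvd hle2
      rw [nI_mul hC hPb hPb, h1, nI_idl hC hp.ne_zero] at h2
      have h3 : 0 < p ^ 2 := pow_pos hp.pos 2
      have h4 := Nat.le_of_dvd h3 h2
      have h5 : 1 < p ^ 2 := Nat.one_lt_pow (by norm_num) hp.one_lt
      nlinarith
  refine not_sqU hp ?_ hn hram
  rw [Prime.coprime_iff_not_dvd hpi]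
  intro h1
  apply hd
  unfold absD
  rw [← dvd_neg, neg_neg]
  exact h1

end

end Pool.Agent.OEJ


end

section

/-!
# OE, block G: Theorem G for `PT p (PhiKE R e kk / (u om_0))`, `t = 1/p³`, for the exceptional fields, every prime `p ≥ 5` (helper59)

From `MEG.gptQE` (`ME2/G_GPT3.lean`) with `q = p³`, after `MEG.g_GPT4` (`p = 3`, `D = -4`) and `OBG.o_GPT`.
-/

set_option autoImplicit false

namespace Pool.Agent.OEG

open _root_.MU3 Pool.Agent.MU3A Pool.Agent.MU3B Pool.Agent.MU3Q Pool.Agent.MUX Pool.Agent.MuSym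
  Pool.Agent.MUXN Pool.Agent.NS Pool.Agent.NSG Pool.Agent.N2 Pool.Agent.OB Pool.Agent.OE
  Pool.Agent.MEG OnePoint UpperHalfPlane
open Pool.Agent.ME hiding ActE
open Pool.Agent.MUXU

noncomputable section

variable {A B : ℤ} {n : ℕ} {ι : Type} {p : ℕ} {P : Ideal (OO A B)} {V : ValuationSubring ℂ}

theorem int_le (V : ValuationSubring ℂ) (z : ℤ) : V.valuation (z : ℂ) ≤ 1 :=
  (V.valuation_le_one_iff _).2 (Pool.Agent.MU3A2.int_mem z)

theorem vp (h : CaseOE p A B P V) : V.valuation (p : ℂ) < 1 := by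
  have h1 : emb ((p : ℕ) : OO A B) ∈ V.nonunits := (h.hV _).2 h.mem
  rw [ValuationSubring.mem_nonunits_iff] at h1
  have h2 : emb ((p : ℕ) : OO A B) = (p : ℂ) := by
    unfold emb
    rw [QuadraticAlgebra.re_natCast, QuadraticAlgebra.im_natCast]
    norm_num
  rw [h2] at h1
  exact h1

/-- integers prime to `p` are units at `V` -/
theorem vn (h : CaseOE p A B P V) {m : ℕ} (hm : ¬ p ∣ m) : V.valuation (m : ℂ) = 1 := by
  have h1 : V.valuation (m : ℂ) ≤ 1 := by exact_mod_cast int_le V (m : ℤ)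
  refine le_antisymm h1 (not_lt.1 fun h2 => ?_)
  have hc : IsCoprime (m : ℤ) (p : ℤ) :=
    Nat.isCoprime_iff_coprime.2 ((h.pp.coprime_iff_not_dvd.2 hm).symm)
  obtain ⟨a, b, hab⟩ := hc
  have e : (a : ℂ) * m + b * p = 1 := by exact_mod_cast hab
  have h3 : V.valuation ((a : ℂ) * m + b * p) < 1 := by
    refine V.valuation.map_add_lt ?_ ?_
    · rw [map_mul]
      exact mul_lt_one_of_nonneg_of_lt_one_right (int_le V a) zero_le h2
    · rw [map_mul]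
      exact mul_lt_one_of_nonneg_of_lt_one_right (int_le V b) zero_le (vp h)
  rw [e, map_one] at h3
  exact lt_irrefl _ h3

/-- `LocN` -/
theorem loc (h : CaseOE p A B P V) : LocN A B V := by
  intro S hS
  have hC : CQ A B := h.toCQ
  have hPp : P.IsPrime := h.prime
  classical
  obtain ⟨t, ht, htS⟩ : ∃ t : OO A B, t ∉ P ∧ ∀ y ∈ S, ∃ c : OO A B, emb t * y = emb c := by
    induction S using Finset.induction_on with
    | empty =>
      exact ⟨1, fun h => hPp.ne_top (P.eq_top_iff_one.2 h),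
        fun y hy => absurd hy (Finset.notMem_empty y)⟩
    | insert y S hyS ih =>
      obtain ⟨t, ht, htS⟩ := ih (fun z hz => hS z (Finset.mem_insert_of_mem hz))
      obtain ⟨h1, h2⟩ := hS y (Finset.mem_insert_self y S)
      obtain ⟨u, hu, c, hc⟩ := OBG.LCN.one hC h.pp hPp h.mem h.hV h1 h2
      refine ⟨t * u, fun h => (hPp.mem_or_mem h).elim ht hu, ?_⟩
      intro z hz
      rcases Finset.mem_insert.1 hz with rfl | hz
      · refine ⟨t * c, ?_⟩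
        rw [emb_mul hC, emb_mul hC, ← hc]
        ring
      · obtain ⟨c', hc'⟩ := htS z hz
        refine ⟨u * c', ?_⟩
        rw [emb_mul hC, emb_mul hC, ← hc']
        ring
  exact ⟨t, OBG.LCN.val1 hC h.hV ht, htS⟩

/-- `LegN` for the lattice `u L` -/
theorem legX (R : RepsE A B n ι) {u e lam : ℂ} (h : GoodL V (R.L R.i0) u e lam) :
    IsAlgebraic ℚ u ∧ ∃ (L' : PeriodPair), LegN A B V L' (u * R.om R.i0) (e / u ^ 2) lam := by
  have hleg : LegQ (R.L R.i0) u e lam := h.eq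
  have halg := leg_algE (R.nl R.i0).nrm h.u0 hleg
  obtain ⟨L', hL'⟩ := u_SCX (R.L R.i0) u h.u0
  obtain ⟨s1, s2, -, -⟩ := ta_SCP (R.L R.i0) L' u h.u0 hL'
  have hlat := latE R h.u0 hL'
  refine ⟨halg.1, L', hlat.1, hlat.2, ?_, halg.2.2, h.vl, h.vl1⟩
  intro z hz
  have e1 : z = u * (u⁻¹ * z) := by rw [mul_inv_cancel_left₀ h.u0]
  have hz' : u⁻¹ * z ∉ (R.L R.i0).lattice := by
    intro h4
    apply hz
    rw [e1]
    exact (hL' _).1 h4
  have h5 := h.eq _ hz'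
  rw [e1, s1, s2]
  have hu := h.u0
  rw [show (R.L R.i0).weierstrassP (u⁻¹ * z) / u ^ 2 - e / u ^ 2 =
    ((R.L R.i0).weierstrassP (u⁻¹ * z) - e) / u ^ 2 by ring, ← h5]
  field_simp
  ring

/-- the integrality property of a lattice in Legendre form at `V` -/
theorem binX (h : CaseOE p A B P V) {L' : PeriodPair} {om e lam : ℂ}
    (hL : LegN A B V L' om e lam) : BinP V L' {lam} := by
  have hv2 : V.valuation (2 : ℂ) = 1 := by
    have h2 : ¬ p ∣ 2 := by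
      intro h2
      have h3 := Nat.le_of_dvd (by norm_num) h2
      have h5 := h.p5
      omega
    exact_mod_cast vn h h2
  refine ⟨fun x hx => ?_, ?_⟩
  · rw [Finset.mem_singleton.1 hx]
    exact hL.alg
  intro K _ hS N hN hζ Z z hQS hzK hz0 hden hcusp hper
  exact bin_leg Pool.Agent.MU3Q.wq (tg_GP tg_GV tg_GD) tg_DV K V p h.pp (by
    rw [ValuationSubring.mem_nonunits_iff]
    exact vp h) hv2 N hN hζ L' e lam hL.eq (hS lam (Finset.mem_singleton_self _)) hL.v1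
    hL.v2 Z z hQS hzK hz0 hden hcusp hper

/-- (GPT) for the exceptional fields, `p ≥ 5` -/
theorem oe_GPT : O_GPTE := by
  classical
  intro p A B P V f hS hT ι _ R u el lam hg e he r hr her kk hkk N' hN' hNd
  have hCO : CaseOE p A B P V := hS.toCaseOE
  have hE : CaseE A B := hCO.toCaseE
  have hp : p.Prime := hCO.pp
  have hp5 : 5 ≤ p := hCO.p5
  obtain ⟨hua, L', hL'⟩ := legX R hg
  have hn : 2 ≤ p * f := by
    have := Nat.pos_of_ne_zero hS.f0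
    nlinarith
  have hrE : V.valuation (rE A B : ℂ) = 1 := by
    have h3 : rE A B = 2 ∨ rE A B = 3 := by
      unfold rE
      split_ifs
      · exact Or.inl rfl
      · exact Or.inr rfl
    apply vn hCO
    intro hd
    have h4 : 0 < rE A B := by omega
    have h5 := Nat.le_of_dvd h4 hd
    omega
  obtain ⟨q, hq⟩ : ∃ q : ℕ, q = p ^ 3 := ⟨_, rfl⟩
  have hq1 : 1 < q := by rw [hq]; exact Nat.one_lt_pow (by norm_num) hp.one_lt
  have hq0 : 0 < q := by omega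
  obtain ⟨i0, hi0⟩ : ∃ i0 : Fin q, i0 = ⟨0, by omega⟩ := ⟨_, rfl⟩
  obtain ⟨i1, hi1⟩ : ∃ i1 : Fin q, i1 = ⟨1, hq1⟩ := ⟨_, rfl⟩
  have e0 : (i0 : ℕ) = 0 := by rw [hi0]
  have e1 : (i1 : ℕ) = 1 := by rw [hi1]
  obtain ⟨cc, hcc⟩ : ∃ cc : Fin q → ℂ, cc = fun t => (if t = i0 then 1 else 0) -
      (if t = i1 then 1 else 0) := ⟨_, rfl⟩
  have hF : ∀ F : Fin q → ℂ, ∑ t, cc t * F t = F i0 - F i1 := by
    intro F
    rw [hcc]
    simp only [sub_mul, ite_mul, one_mul, zero_mul, Finset.sum_sub_distrib, Finset.sum_ite_eq',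
      Finset.mem_univ, if_true]
  have hz : IsPrimitiveRoot (zq q) q := by
    have := Complex.isPrimitiveRoot_exp q hq0.ne'
    unfold zq
    exact_mod_cast this
  have hs : ∑ t, cc t * zq q ^ (t : ℕ) = 1 - zq q := by
    rw [hF (fun t => zq q ^ (t : ℕ)), e0, e1, pow_zero, pow_one]
  have hzq : (1 : ℂ) - zq q ≠ 0 := by
    intro h0
    exact hz.ne_one hq1 (by linear_combination -h0)
  obtain ⟨a, b, c, d, m1, m2, m3, m4⟩ := gptQE hE hT (loc hCO) hn R hg.u0 hua (binX hCO hL')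
    ⟨hL'.om0, hL'.mem⟩ he hr her hkk hN' hNd hq0 cc (by rw [hs]; exact hzq)
  refine ⟨a, b, c, d, m1, m2, m3, ?_⟩
  rw [hrE, one_mul, hs, hF (fun t => PhiKE R e kk (mob q (t : ℕ) 0 q ∞)
      (mob q (t : ℕ) 0 q (mob a b c d ∞)) / (u * R.om R.i0))] at m4
  have hvz : V.valuation (zq q - 1) ^ ((p - 1) * p ^ 2) = V.valuation (p : ℂ) := by
    have := MUXH.Hz.val_p p hp V 2 (zq q) (by
      have : (p : ℕ) ^ (2 + 1) = q := by rw [hq]
      rw [this]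
      exact hz)
    rw [mul_comm] at this
    exact this
  have hz2 : V.valuation (1 - zq q) = V.valuation (zq q - 1) := by
    rw [← neg_sub, Valuation.map_neg]
  rw [← hvz, ← hz2]
  refine pow_le_pow_left₀ zero_le ?_ _
  unfold Pool.Agent.OBH.PT
  dsimp only
  have hqc : ((p : ℤ) ^ 3) = (q : ℤ) := by rw [hq]; push_cast; ring
  rw [e0, e1] at m4
  rw [hqc]
  have f0 : ((0 : ℕ) : ℤ) = 0 := rfl
  have f1 : ((1 : ℕ) : ℤ) = 1 := rfl
  rw [f0, f1] at m4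
  rw [TrQ.mob_zero _ (by omega), TrQ.mob_zero _ (by omega)] at m4
  exact m4

end

end Pool.Agent.OEG


end

section

/-!
# OE, block HB (helper51): the sums `SGX` and the vector symbol `PV` of `QTE`

After `OT/HB_SGE.lean` (helper31), `HB_SGP.lean` (helper88), `HB_SYE.lean` (helper11), for `er = 1` and the exceptional fields.
-/

set_option autoImplicit false

namespace Pool.Agent.OEHB

open _root_.MU3 _root_.Pool.Agent.MU3A _root_.Pool.Agent.MU3B _root_.Pool.Agent.MU3F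
  _root_.Pool.Agent.MUX _root_.Pool.Agent.MuSym _root_.Pool.Agent.OB
  _root_.Pool.Agent.OBH _root_.Pool.Agent.OE OnePoint
open _root_.Pool.Agent.OT (HypT IsZ0 IsTw Yh PV coT tM)
open _root_.Pool.Agent.ME (CaseE TorXE RepsE IsNE IsEIE PhiKE SnXE STXE)

noncomputable section

/-- the weights `kk_i / e(N b_i)` -/
def kk0E {A B : ℤ} {n : ℕ} {ι : Type} (R : RepsE A B n ι) (e : OO A B → ℂ) (kk : ι → ℂ) (i : ι) :
    ℂ :=
  kk i / e ((nI (R.b i) : ℕ) : OO A B)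

section SGE

variable {A B : ℤ} {n' : ℕ} {ι : Type}

lemma SnX_per (R : RepsE A B n' ι) (m M : ℕ) (e : OO A B → ℂ) (i : ι) (c c' : ℤ)
    (h : (M : ℤ) ∣ c - c') : SnXE R m M e i c = SnXE R m M e i c' := by
  unfold SnXE
  congr 2
  funext x
  have h1 : ((M : ℤ) ∣ nm x * nI (R.b i) - c) ↔ ((M : ℤ) ∣ nm x * nI (R.b i) - c') := by
    constructor
    · intro h2
      have := dvd_add h2 h
      rwa [show nm x * (nI (R.b i) : ℤ) - c + (c - c') = nm x * nI (R.b i) - c' by ring] at this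
    · intro h2
      have := dvd_sub h2 h
      rwa [show nm x * (nI (R.b i) : ℤ) - c' - (c - c') = nm x * nI (R.b i) - c by ring] at this
  simp only [h1]

lemma STX_per [Fintype ι] (R : RepsE A B n' ι) (m M a : ℕ) (e : OO A B → ℂ) (kk : ι → ℂ)
    (c c' : ℤ) (h : (M : ℤ) ∣ c - c') : STXE R m M a e kk c = STXE R m M a e kk c' := by
  unfold STXE
  refine Finset.sum_congr rfl fun i _ => ?_
  rw [SnX_per R m M e i c c' h, SnX_per R m M e i ((a : ℤ) ^ 2 * c) ((a : ℤ) ^ 2 * c') (by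
    rw [← mul_sub]
    exact Dvd.dvd.mul_left h _)]

lemma SG_per [Fintype ι] (p : ℕ) (R : RepsE A B n' ι) (m M a : ℕ) (e : OO A B → ℂ) (kk : ι → ℂ)
    (t : ℤ → ℂ) (z₀ c c' : ℤ) (h : (M : ℤ) ∣ c - c') :
    SGX p R m M a e kk t z₀ c = SGX p R m M a e kk t z₀ c' := by
  unfold SGX
  refine Finset.sum_congr rfl fun k _ => ?_
  rw [STX_per R m M a e kk (z₀ ^ k * c) (z₀ ^ k * c') (by
    rw [← mul_sub]
    exact Dvd.dvd.mul_left h _)]

end SGE

/-- (SGE) the sums `SGX` under `c ↦ z₀ c` -/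
theorem oe_SGE {p n : ℕ} {z₀ : ℤ} {t : ℤ → ℂ} {q : ℕ} {A B : ℤ} {n' : ℕ} {ι : Type} [Fintype ι]
    (R : RepsE A B n' ι) (m a : ℕ) (e : OO A B → ℂ) (kk : ι → ℂ) (hp : p.Prime) (hz : IsZ0 p n z₀)
    (ht : IsTw p q t) :
    (∀ c c' : ℤ, ((p ^ (n + 1) : ℕ) : ℤ) ∣ c - c' →
      SGX p R m (p ^ (n + 1)) a e kk t z₀ c = SGX p R m (p ^ (n + 1)) a e kk t z₀ c') ∧
    t z₀ ^ q = 1 ∧
    ∀ (c : ℤ) (j : ℕ), t z₀ ^ j * SGX p R m (p ^ (n + 1)) a e kk t z₀ (z₀ ^ j * c) =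
      SGX p R m (p ^ (n + 1)) a e kk t z₀ c := by
  have hp1 : 1 ≤ p - 1 := by have := hp.two_le; omega
  have hzp : ¬ (p : ℤ) ∣ z₀ := by
    intro h1
    have h2 : (p : ℤ) ∣ ((p ^ (n + 1) : ℕ) : ℤ) := by
      push_cast
      exact dvd_pow_self _ (Nat.succ_ne_zero n)
    have h3 := h2.trans hz.one
    have h4 : (p : ℤ) ∣ z₀ ^ (p - 1) := dvd_pow h1 (by omega)
    have h5 : (p : ℤ) ∣ 1 := by
      have := dvd_sub h4 h3
      rwa [sub_sub_cancel] at this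
    have h6 : p ∣ 1 := by exact_mod_cast h5
    exact hp.one_lt.ne' (Nat.dvd_one.1 h6)
  have htpow : ∀ k : ℕ, t (z₀ ^ k) = t z₀ ^ k := by
    intro k
    induction k with
    | zero => rw [pow_zero, pow_zero, ht.one]
    | succ k ih => rw [pow_succ, ht.mul, ih, pow_succ]
  have hlast : t z₀ ^ (p - 1) = 1 := by
    rw [← htpow, ht.per (z₀ ^ (p - 1)) 1 ?_, ht.one]
    refine dvd_trans ?_ hz.one
    push_cast
    exact dvd_pow_self _ (Nat.succ_ne_zero n)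
  have step : ∀ c : ℤ, t z₀ * SGX p R m (p ^ (n + 1)) a e kk t z₀ (z₀ * c) =
      SGX p R m (p ^ (n + 1)) a e kk t z₀ c := by
    intro c
    unfold SGX
    rw [Finset.mul_sum]
    have h1 : ∀ k ∈ Finset.range (p - 1),
        t z₀ * (t (z₀ ^ k) * STXE R m (p ^ (n + 1)) a e kk (z₀ ^ k * (z₀ * c))) =
          t (z₀ ^ (k + 1)) * STXE R m (p ^ (n + 1)) a e kk (z₀ ^ (k + 1) * c) := by
      intro k _
      rw [htpow, htpow, pow_succ (t z₀) k, pow_succ z₀ k, mul_assoc (z₀ ^ k) z₀ c]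
      ring
    rw [Finset.sum_congr rfl h1]
    have h2 := Finset.sum_range_succ' (fun k => t (z₀ ^ k) *
      STXE R m (p ^ (n + 1)) a e kk (z₀ ^ k * c)) (p - 1)
    have h3 := Finset.sum_range_succ (fun k => t (z₀ ^ k) *
      STXE R m (p ^ (n + 1)) a e kk (z₀ ^ k * c)) (p - 1)
    have h4 : STXE R m (p ^ (n + 1)) a e kk (z₀ ^ (p - 1) * c) =
        STXE R m (p ^ (n + 1)) a e kk (z₀ ^ 0 * c) := by
      apply STX_per
      rw [← sub_mul, pow_zero]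
      exact Dvd.dvd.mul_right hz.one _
    have h5 : t (z₀ ^ (p - 1)) = t (z₀ ^ 0) := by rw [htpow, htpow, hlast, pow_zero]
    rw [h3] at h2
    rw [h4, h5] at h2
    exact (add_right_cancel h2).symm
  refine ⟨fun c c' h => SG_per p R m _ a e kk t z₀ c c' h, ?_, ?_⟩
  · exact ht.pow z₀ hzp
  · intro c j
    induction j with
    | zero => rw [pow_zero, pow_zero, one_mul, one_mul]
    | succ j ih =>
      rw [pow_succ (t z₀), mul_assoc]
      have := step (z₀ ^ j * c)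
      rw [show z₀ ^ (j + 1) * c = z₀ * (z₀ ^ j * c) by ring]
      rw [this]
      exact ih

/-- the function `Yh` of the full symbol at `c` -/
theorem Yh_eq {A B : ℤ} {n' : ℕ} {ι : Type} [Fintype ι] (R : RepsE A B n' ι) (e : OO A B → ℂ)
    (kk : ι → ℂ) (M : ℕ) (hM : M ≠ 0) (c : ℤ) :
    Yh M (ex (-1 / (M : ℚ)) ^ c) (PhiKE R e kk) ∞ ((0 : ℚ) : OnePoint ℚ) =
      ∑ i, kk i * ∑ β ∈ Finset.range M, ex (-(β * c) / (M : ℚ)) *
        PhiI (R.b i) e ∞ (((β / (M : ℚ) : ℚ) : ℚ) : OnePoint ℚ) := by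
  unfold Yh
  have h1 : ∀ β ∈ Finset.range M, (ex (-1 / (M : ℚ)) ^ c) ^ β *
      PhiKE R e kk (tM M β ∞) (tM M β ((0 : ℚ) : OnePoint ℚ)) =
      ∑ i, kk i * (ex (-(β * c) / (M : ℚ)) *
        PhiI (R.b i) e ∞ (((β / (M : ℚ) : ℚ) : ℚ) : OnePoint ℚ)) := by
    intro β _
    have h2 : (ex (-1 / (M : ℚ)) ^ c) ^ β = ex (-(β * c) / (M : ℚ)) := by
      rw [← zpow_natCast, ← zpow_mul, OT.SGP.ex_zpow]
      congr 1
      push_cast
      ring
    rw [h2, OT.SGP.tM_inf, OT.SGP.tM_zero M hM]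
    unfold PhiKE
    rw [Finset.mul_sum]
    refine Finset.sum_congr rfl fun i _ => ?_
    push_cast
    ring
  rw [Finset.sum_congr rfl h1, Finset.sum_comm]
  refine Finset.sum_congr rfl fun i _ => ?_
  rw [Finset.mul_sum]

/-- (SGP) the sums of the final statement as values of `PV` -/
theorem oe_SGP {p : ℕ} (hp : p.Prime) (hp2 : p ≠ 2) {A B : ℤ} (hC : CQ A B) {f : ℕ} (hf : f ≠ 0)
    {ι : Type} [Fintype ι] (R : RepsE A B (p * f) ι) {e : OO A B → ℂ}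
    (he : IsEI (idl (A := A) (B := B) (p * f)) e) (kk : ι → ℂ) (t : ℤ → ℂ) (z₀ : ℤ) (n : ℕ)
    (c : ℤ) :
    ∑ j ∈ Finset.range 2, (-1 : ℂ) ^ (1 - j) *
        SGX p R (lvX p f n) (p ^ (n + 1)) (aX p f) e kk t z₀ (c * (1 + (p : ℤ)) ^ j) =
      2 * f / R.om R.i0 * PV p n (ex (-1 / ((p ^ (n + 1) : ℕ) : ℚ))) (aX p f : ℕ) z₀ t
        (fun _ => PhiKE R e (kk0E R e kk)) c ∞ ((0 : ℚ) : OnePoint ℚ) := by
  have hq0 : q0 p * p ^ n = p ^ (n + 1) := by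
    unfold q0
    rw [if_neg hp2, pow_succ, mul_comm]
  have hM : p ^ (n + 1) ≠ 0 := pow_ne_zero _ hp.ne_zero
  set a : ℕ := aX p f with ha
  set D : ℂ := 2 * f / R.om R.i0 with hD
  set Y : ℤ → ℂ := fun m => Yh (p ^ (n + 1)) (ex (-1 / ((p ^ (n + 1) : ℕ) : ℚ)) ^ m)
    (PhiKE R e (kk0E R e kk)) ∞ ((0 : ℚ) : OnePoint ℚ) with hY
  -- the sums `SnXE`
  have hS : ∀ m : ℤ, ∑ i, kk i * SnXE R (lvX p f n) (p ^ (n + 1)) e i m = D * Y m := by
    intro m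
    rw [hY]
    show _ = D * Yh (p ^ (n + 1)) (ex (-1 / ((p ^ (n + 1) : ℕ) : ℚ)) ^ m)
      (PhiKE R e (kk0E R e kk)) ∞ ((0 : ℚ) : OnePoint ℚ)
    rw [Yh_eq R e (kk0E R e kk) _ hM m, Finset.mul_sum]
    refine Finset.sum_congr rfl fun i _ => ?_
    have h1 := MEH.SnXE_eq MUXF.xf_F5 hC hp hf R he (Ideal.mem_span_singleton_self _) n i m
    rw [hq0] at h1
    rw [h1]
    unfold kk0E
    ring
  -- the sums `STXE`
  have hT : ∀ m : ℤ, STXE R (lvX p f n) (p ^ (n + 1)) a e kk m =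
      D * ((a : ℂ) * Y ((a : ℤ) ^ 2 * m) - (a : ℂ) ^ 2 * Y m) := by
    intro m
    unfold STXE
    have h1 : ∀ i, kk i * ((a : ℂ) * SnXE R (lvX p f n) (p ^ (n + 1)) e i ((a : ℤ) ^ 2 * m) -
        (a : ℂ) ^ 2 * SnXE R (lvX p f n) (p ^ (n + 1)) e i m) =
        (a : ℂ) * (kk i * SnXE R (lvX p f n) (p ^ (n + 1)) e i ((a : ℤ) ^ 2 * m)) -
        (a : ℂ) ^ 2 * (kk i * SnXE R (lvX p f n) (p ^ (n + 1)) e i m) := fun i => by ring
    rw [Finset.sum_congr rfl fun i _ => h1 i, Finset.sum_sub_distrib, ← Finset.mul_sum,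
      ← Finset.mul_sum, hS, hS]
    ring
  unfold PV SGX
  rw [Finset.mul_sum]
  have hL : ∀ j ∈ Finset.range 2, (-1 : ℂ) ^ (1 - j) * ∑ k ∈ Finset.range (p - 1), t (z₀ ^ k) *
      STXE R (lvX p f n) (p ^ (n + 1)) a e kk (z₀ ^ k * (c * (1 + (p : ℤ)) ^ j)) =
      ∑ k ∈ Finset.range (p - 1), (-1 : ℂ) ^ (1 - j) * (t (z₀ ^ k) *
      (D * ((a : ℂ) * Y ((a : ℤ) ^ 2 * (z₀ ^ k * (c * (1 + (p : ℤ)) ^ j))) -
        (a : ℂ) ^ 2 * Y (z₀ ^ k * (c * (1 + (p : ℤ)) ^ j))))) := by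
    intro j _
    rw [Finset.mul_sum]
    exact Finset.sum_congr rfl fun k _ => by rw [hT]
  rw [Finset.sum_congr rfl hL, Finset.sum_comm]
  refine Finset.sum_congr rfl fun k _ => ?_
  have hR : ∀ j r : ℕ, Yh (p ^ (n + 1)) (ex (-1 / ((p ^ (n + 1) : ℕ) : ℚ)) ^
      (c * (a : ℤ) ^ (2 * r) * (1 + (p : ℤ)) ^ j * z₀ ^ k)) (PhiKE R e (kk0E R e kk)) ∞
      ((0 : ℚ) : OnePoint ℚ) = Y (c * (a : ℤ) ^ (2 * r) * (1 + (p : ℤ)) ^ j * z₀ ^ k) :=
    fun j r => rfl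
  simp only [hR]
  rw [Finset.mul_sum, Finset.mul_sum]
  refine Finset.sum_congr rfl fun j hj => ?_
  rw [Finset.sum_range_succ, Finset.sum_range_one]
  have e0 : c * (a : ℤ) ^ (2 * 0) * (1 + (p : ℤ)) ^ j * z₀ ^ k =
      z₀ ^ k * (c * (1 + (p : ℤ)) ^ j) := by ring
  have e1 : c * (a : ℤ) ^ (2 * 1) * (1 + (p : ℤ)) ^ j * z₀ ^ k =
      (a : ℤ) ^ 2 * (z₀ ^ k * (c * (1 + (p : ℤ)) ^ j)) := by ring
  rw [e0, e1]
  unfold coT
  rw [if_pos rfl, if_neg one_ne_zero]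
  push_cast
  ring

/-- (SYE) the symbol `PV` of `QTE` and of the whole `PhiKE` -/
theorem oe_SYE (h1 : OT.Ob_ZC) {p : ℕ} (hp : p.Prime) (hp2 : p ≠ 2) {A B : ℤ} (hcq : CQ A B)
    {n' : ℕ} {ι : Type} [Fintype ι] (R : RepsE A B n' ι) (e : OO A B → ℂ)
    (kk : ι → ℂ) (u : ℂ) {t : ℤ → ℂ} {q n : ℕ} (ht : IsTw p q t) {z₀ : ℤ} (hz : IsZ0 p n z₀)
    (a c : ℤ) (x : ℚ) :
    PV p n (ex (-1 / ((p ^ (n + 1) : ℕ) : ℚ))) a z₀ t (fun _ => QTE R e kk (t (-1)) u) c ∞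
          ((x : ℚ) : OnePoint ℚ) =
        (PV p n (ex (-1 / ((p ^ (n + 1) : ℕ) : ℚ))) a z₀ t (fun _ => PhiKE R e kk) c ∞
            ((x : ℚ) : OnePoint ℚ) +
          PV p n (ex (-1 / ((p ^ (n + 1) : ℕ) : ℚ))) a z₀ t (fun _ => PhiKE R e kk) c ∞
            ((-x : ℚ) : OnePoint ℚ)) / (u * R.om R.i0) := by
  have hM0 : p ^ (n + 1) ≠ 0 := pow_ne_zero _ hp.ne_zero
  have hpM : (p : ℤ) ∣ ((p ^ (n + 1) : ℕ) : ℤ) := by
    push_cast
    exact dvd_pow_self _ (Nat.succ_ne_zero n)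
  obtain ⟨hz1, hz2, -⟩ := h1 p n z₀ hp hp2 hz
  obtain ⟨ξ, hξ⟩ : ∃ ξ : ℂ, ξ = ex (-1 / ((p ^ (n + 1) : ℕ) : ℚ)) := ⟨_, rfl⟩
  have hξM : ξ ^ (p ^ (n + 1)) = 1 := by rw [hξ]; exact OT.SYE.ex_pow _ hM0
  have hξ0 : ξ ≠ 0 := by
    intro h
    rw [h, zero_pow hM0] at hξM
    exact zero_ne_one hξM
  have hξz : ∀ m m' : ℤ, ((p ^ (n + 1) : ℕ) : ℤ) ∣ m - m' → ξ ^ m = ξ ^ m' := by
    rintro m m' ⟨k, hk⟩
    have : m = m' + ((p ^ (n + 1) : ℕ) : ℤ) * k := by linear_combination hk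
    rw [this, zpow_add₀ hξ0, zpow_mul, zpow_natCast, hξM, one_zpow, mul_one]
  rw [← hξ]
  -- the period
  have hper : ∀ (x : ℚ) (k : ℤ),
      PhiKE R e kk ∞ ((x + k : ℚ) : OnePoint ℚ) = PhiKE R e kk ∞ (x : OnePoint ℚ) := by
    intro x k
    unfold PhiKE
    refine Finset.sum_congr rfl fun i _ => ?_
    rw [MUXHY.Qsx.PhiI_per MUXF.xf_PRD hcq (R.nl i).b_ne]
  -- the exponents
  obtain ⟨m, hm⟩ : ∃ m : ℕ → ℕ → ℕ → ℤ,
      m = fun k j r => c * a ^ (2 * r) * (1 + (p : ℤ)) ^ j * z₀ ^ k := ⟨_, rfl⟩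
  -- the terms
  obtain ⟨S, hSd⟩ : ∃ S : ℕ → ℚ → ℂ, S = fun k y => t (z₀ ^ k) * ∑ j ∈ Finset.range 2,
      ∑ r ∈ Finset.range 2, coT a j r *
        Yh (p ^ (n + 1)) (ξ ^ m k j r) (PhiKE R e kk) ∞
          ((y : ℚ) : OnePoint ℚ) := ⟨_, rfl⟩
  have hSper : ∀ (k : ℕ) (y : ℚ), S (k + (p - 1)) y = S k y := by
    intro k y
    have hd : ((p ^ (n + 1) : ℕ) : ℤ) ∣ z₀ ^ (k + (p - 1)) - z₀ ^ k := by
      have : z₀ ^ (k + (p - 1)) - z₀ ^ k = z₀ ^ k * (z₀ ^ (p - 1) - 1) := by ring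
      rw [this]
      exact hz.one.mul_left _
    rw [hSd]
    simp only
    rw [ht.per _ _ (hpM.trans hd)]
    congr 1
    refine Finset.sum_congr rfl fun j _ => Finset.sum_congr rfl fun r _ => ?_
    rw [hξz (m (k + (p - 1)) j r) (m k j r) (by
      rw [hm]
      simp only
      rw [← mul_sub]
      exact hd.mul_left _)]
  have hflip : ∀ (k : ℕ) (y : ℚ), t (z₀ ^ k) * ∑ j ∈ Finset.range 2, ∑ r ∈ Finset.range 2,
      coT a j r * Yh (p ^ (n + 1)) (ξ ^ m k j r) (QTE R e kk (t (-1)) u) ∞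
        ((y : ℚ) : OnePoint ℚ) = (S k y + S (k + (p - 1) / 2) (-y)) / (u * R.om R.i0) := by
    intro k y
    have hd : ((p ^ (n + 1) : ℕ) : ℤ) ∣ -z₀ ^ k - z₀ ^ (k + (p - 1) / 2) := by
      have : -z₀ ^ k - z₀ ^ (k + (p - 1) / 2) = -(z₀ ^ k * (z₀ ^ ((p - 1) / 2) + 1)) := by ring
      rw [this, dvd_neg]
      exact hz2.mul_left _
    have ht1 : t (z₀ ^ k) * t (-1) = t (z₀ ^ (k + (p - 1) / 2)) := by
      rw [← ht.mul]
      apply ht.per
      have : z₀ ^ k * -1 = -z₀ ^ k := by ring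
      rw [this]
      exact hpM.trans hd
    have hY : ∀ j r : ℕ, Yh (p ^ (n + 1)) (ξ ^ m k j r) (QTE R e kk (t (-1)) u) ∞
        ((y : ℚ) : OnePoint ℚ) = (Yh (p ^ (n + 1)) (ξ ^ m k j r)
          (PhiKE R e kk) ∞ ((y : ℚ) : OnePoint ℚ) + t (-1) *
          Yh (p ^ (n + 1)) (ξ ^ m (k + (p - 1) / 2) j r)
            (PhiKE R e kk) ∞ ((-y : ℚ) : OnePoint ℚ)) / (u * R.om R.i0) := by
      intro j r
      have e1 := OT.SYE.Yh_flip hM0 (ζ := ξ ^ m k j r) (by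
        rw [← zpow_natCast, ← zpow_mul, mul_comm, zpow_mul, zpow_natCast, hξM, one_zpow])
        (PhiKE R e kk) hper y
      have e2 : (ξ ^ m k j r)⁻¹ = ξ ^ m (k + (p - 1) / 2) j r := by
        rw [← zpow_neg]
        apply hξz
        rw [hm]
        simp only
        have : -(c * a ^ (2 * r) * (1 + (p : ℤ)) ^ j * z₀ ^ k) -
            c * a ^ (2 * r) * (1 + (p : ℤ)) ^ j * z₀ ^ (k + (p - 1) / 2) =
            c * a ^ (2 * r) * (1 + (p : ℤ)) ^ j * (-z₀ ^ k - z₀ ^ (k + (p - 1) / 2)) := by ring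
        rw [this]
        exact hd.mul_left _
      rw [e2] at e1
      rw [← e1]
      unfold Yh QTE
      rw [Finset.mul_sum, ← Finset.sum_add_distrib, Finset.sum_div]
      refine Finset.sum_congr rfl fun b _ => ?_
      ring
    simp only [hY]
    rw [hSd]
    simp only
    rw [← ht1]
    simp only [Finset.mul_sum, Finset.sum_div, add_div]
    rw [← Finset.sum_add_distrib]
    refine Finset.sum_congr rfl fun j _ => ?_
    rw [← Finset.sum_add_distrib]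
    refine Finset.sum_congr rfl fun r _ => ?_
    ring
  have hPV : ∀ y : ℚ, PV p n ξ a z₀ t (fun _ => QTE R e kk (t (-1)) u) c ∞
      ((y : ℚ) : OnePoint ℚ) = (∑ k ∈ Finset.range (p - 1), S k y +
        ∑ k ∈ Finset.range (p - 1), S k (-y)) / (u * R.om R.i0) := by
    intro y
    rw [← OT.SYE.shiftN (p - 1) (fun k => S k (-y)) (fun k => hSper k (-y)) ((p - 1) / 2),
      ← Finset.sum_add_distrib, Finset.sum_div]
    unfold PV
    refine Finset.sum_congr rfl fun k _ => ?_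
    rw [← hflip k y, hm]
  have hSP : ∀ y : ℚ, ∑ k ∈ Finset.range (p - 1), S k y =
      PV p n ξ a z₀ t (fun _ => PhiKE R e kk) c ∞ ((y : ℚ) : OnePoint ℚ) := by
    intro y
    unfold PV
    refine Finset.sum_congr rfl fun k _ => ?_
    rw [hSd, hm]
  rw [hPV, hSP, hSP]

end

end Pool.Agent.OEHB


end

section

/-!
# OE, block Z: the inputs from block W for the exceptional fields, `p ≥ 3` any prime (helper19)

After `ME/N/ZL.lean` (helper87): the same proof with `SetQ` (`OB/ZL.lean`) instead of `SetL` and with `t_SUBE` instead of `Sn_SUB_E`.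
-/

set_option autoImplicit false

open NumberField IsDedekindDomain

namespace Pool.Agent.OEJ

open _root_.MU3 Pool.Agent.MU3 Pool.Agent.MU3A Pool.Agent.MU3B Pool.Agent.RI Pool.Agent.RID
  Pool.Agent.MUX Pool.Agent.ME Pool.Agent.MUXK Pool.Agent.MUXJ Pool.Agent.MUXW Pool.Agent.MUXZ
open Pool.Agent.MU3V (Sub GD)
open Pool.Agent.NSZ (i1'_E)
open Pool.Agent.OBZ (SetQ tl_LVX)

noncomputable section

/-- (INW) the inputs from block W -/
def Z_INWE : Prop :=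
  ∀ (p : ℕ) (A B : ℤ) (f : ℕ)
    (_ : SetQ p A B f) (_ : CaseE A B) (_ : 2 ∣ lvX p f 0) (_ : TorXE A B) (ι : Type) [Finite ι]
    (R : RepsE A B (p * f) ι)
    (H : ι → Finset ℂ)
    (θ : ∀ n : ℕ, (RFE (idl (A := A) (B := B) (lvX p f n)) : IntermediateField (kk A B) ℂ))
    (_ : ThN_E p f R H θ)
    (K₀ K : IntermediateField ℚ ℂ) (Bn : ℕ → IntermediateField ℚ ℂ)
    [FiniteDimensional ℚ (kk A B)] [FiniteDimensional ℚ K] [∀ n, FiniteDimensional ℚ ↥(K ⊔ Bn n)]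
    (_ : SetX p (kk A B) K₀ K Bn) (_ : ∀ y ∈ K, y ∈ RFE (idl (A := A) (B := B) (lvX p f 0)))
    (_ : ∀ y ∈ RFE (⊤ : Ideal (OO A B)), y ∈ K)
    (hk : ∀ n, kk A B ≤ K ⊔ Bn n) (hk₀ : ∀ n, kk A B ≤ K₀ ⊔ Bn n),
    ∃ S : Finset ℕ, InpW p (kk A B) K₀ K Bn hk hk₀ S (fun n => cW (hk n) (θ n))
      (fun n => cW (hk₀ n) (θ n)) 0

open Pool.Agent.MUXZ.Z_INW in
/-- the inputs from block W -/
theorem z_INWE : Z_INWE := by
  intro p A B f hS hE hl2 T ι _ R H θ hθ K₀ K Bn _ _ _ hX hKF hHK hk hk₀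
  have hp : p.Prime := hS.hp
  have : Fact p.Prime := ⟨hp⟩
  have h2m : ∀ n, (2 : OO A B) ∣ ((lvX p f n : ℕ) : OO A B) := by
    intro n
    obtain ⟨t, ht⟩ := hl2
    refine ⟨((t * p ^ n : ℕ) : OO A B), ?_⟩
    have h1 : lvX p f n = 2 * (t * p ^ n) := by
      have h3 : lvX p f n = lvX p f 0 * p ^ n := by unfold lvX; ring
      rw [h3, ht]; ring
    rw [h1]
    push_cast
    ring
  have hnl : IsNE (⊤ : Ideal (OO A B)) (R.L R.i0) (R.om R.i0) := by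
    have h1 := R.nl R.i0
    rw [R.b0] at h1
    exact h1
  have hNL : NLex_E A B := ⟨_, _, _, hnl⟩
  have hm0 : ∀ n, lvX p f n ≠ 0 := fun n => (tl_LVX p A B f hS n).1
  have hsub : ∀ n, Sub (K ⊔ Bn n) (RFE (idl (A := A) (B := B) (lvX p f n))) := fun n =>
    t_SUBE p A B f hS T hNL K hKF n (Bn n) (hX.b.lay n)
  have hsub₀ : ∀ n, Sub (K₀ ⊔ Bn n) (RFE (idl (A := A) (B := B) (lvX p f n))) := fun n =>
    t_SUBE p A B f hS T hNL K₀ (fun y hy => hKF y (hX.le hy)) n (Bn n) (hX.b.lay n)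
  have hM := fun n => y_MEM A B (RFE (idl (A := A) (B := B) (lvX p f n))) (T.fin _ (idl_ne (hm0 n)))
    (T.gal _ (idl_ne (hm0 n))) (T.comm _ (idl_ne (hm0 n))) (K ⊔ Bn n) (hk n) (hsub n) (θ n)
    (hθ.ne n)
  have hM₀ := fun n => y_MEM A B (RFE (idl (A := A) (B := B) (lvX p f n)))
    (T.fin _ (idl_ne (hm0 n))) (T.gal _ (idl_ne (hm0 n))) (T.comm _ (idl_ne (hm0 n)))
    (K₀ ⊔ Bn n) (hk₀ n) (hsub₀ n) (θ n) (hθ.ne n)
  have hmem : ∀ n, cW (hk n) (θ n) ∈ K ⊔ Bn n := by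
    intro n
    rw [(hM n).1]
    exact ((hM n).2.1 _).1
  have hne : ∀ n, cW (hk n) (θ n) ≠ 0 := by
    intro n
    rw [(hM n).1]
    exact ((hM n).2.1 _).2
  have hmem₀ : ∀ n, cW (hk₀ n) (θ n) ∈ K₀ ⊔ Bn n := by
    intro n
    rw [(hM₀ n).1]
    exact ((hM₀ n).2.1 _).1
  obtain ⟨n0, hn0, hSUC'⟩ := y_SUC_E A B hE T (R.L R.i0) (R.om R.i0) hnl
  obtain ⟨n1, hn1, hKOL'⟩ := y_KOL_E A B hE T (p * f) ι R
  have ha0 : aX p f ≠ 0 := by
    intro h0
    have h1 := (tl_LVX p A B f hS 0).2.2.2.2.2.1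
    rw [h0] at h1
    exact absurd h1 (by decide)
  have haZ : (aX p f : ℤ) ≠ 0 := by exact_mod_cast ha0
  have hhalf : IsHalf (R.L R.i0) ((aX p f : ℤ) : ℂ) (H R.i0) := by
    have h1 := hθ.half R.i0
    rw [Int.cast_natCast]
    exact h1
  have hcopO : ∀ n, IsCoprime ((aX p f : ℤ) : OO A B) ((lvX p f n : ℕ) : OO A B) := fun n =>
    (tl_LVX p A B f hS n).2.2.2.2.2.2.2.1
  have hfn0 := hS.f0
  set S : Finset ℕ := n0.primeFactors ∪ n1.primeFactors ∪ (aX p f).primeFactors ∪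
    (p * f).primeFactors with hSdef
  have hSprime : ∀ q ∈ S, q.Prime := by
    intro q hq
    rw [hSdef] at hq
    simp only [Finset.mem_union] at hq
    rcases hq with ((h | h) | h) | h <;> exact Nat.prime_of_mem_primeFactors h
  have hS0 : ∀ q : ℕ, q.Prime → q ∣ n0 → q ∈ S := by
    intro q hq hd
    rw [hSdef]
    simp only [Finset.mem_union]
    exact Or.inl (Or.inl (Or.inl (Nat.mem_primeFactors.2 ⟨hq, hd, hn0⟩)))
  have hS1 : ∀ q : ℕ, q.Prime → q ∣ n1 → q ∈ S := by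
    intro q hq hd
    rw [hSdef]
    simp only [Finset.mem_union]
    exact Or.inl (Or.inl (Or.inr (Nat.mem_primeFactors.2 ⟨hq, hd, hn1⟩)))
  have hSa : ∀ q : ℕ, q.Prime → (q : ℤ) ∣ (aX p f : ℤ) → q ∈ S := by
    intro q hq hd
    have h1 : q ∣ aX p f := by exact_mod_cast hd
    rw [hSdef]
    simp only [Finset.mem_union]
    exact Or.inl (Or.inr (Nat.mem_primeFactors.2 ⟨hq, h1, ha0⟩))
  have hSm : ∀ n, ∀ q : ℕ, q.Prime → (q : ℤ) ∣ nm ((lvX p f n : ℕ) : OO A B) → q ∈ S := by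
    intro n q hq hd
    have h1 := (tl_LVX p A B f hS n).2.2.2.2.2.2.2.2.1 q hq hd
    rw [hSdef]
    simp only [Finset.mem_union]
    exact Or.inr (Nat.mem_primeFactors.2 ⟨hq, h1, mul_ne_zero hp.ne_zero hfn0⟩)
  have hHas : ∀ n, HasH_E A B (K ⊔ Bn n) := fun n x hx =>
    (le_sup_left : K ≤ K ⊔ Bn n) (hHK x hx)
  refine ⟨S, ?_⟩
  constructor
  case mem => exact hmem
  case ne => exact hne
  case mem₀ => exact hmem₀
  case norm =>
    intro n
    exact y_TOW A B (RFE (idl (A := A) (B := B) (lvX p f n))) (T.fin _ (idl_ne (hm0 n)))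
      (T.gal _ (idl_ne (hm0 n))) (T.comm _ (idl_ne (hm0 n))) (K₀ ⊔ Bn n) (K ⊔ Bn n) (hk₀ n) (hk n)
      (sup_le_sup_right hX.le _) (hsub n) (θ n) (hθ.ne n) (hmem n)
  case prime => exact hSprime
  case su =>
    intro n _
    exact hSUC' _ (natO_ne (hm0 n)) (tl_LVX p A B f hS n).2.2.2.2.1 (aX p f : ℤ) (H R.i0) haZ
      (hcopO n) hhalf S hS0 hSa (hSm n) (θ n) (hθ.om n) (K ⊔ Bn n) (hk n) (hsub n) _ rfl
  case nrm =>
    intro n _
    let akD : Algebra (kk A B) ↥(K ⊔ Bn n) := algC (hk n)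
    let akL : Algebra (kk A B) ↥(K ⊔ Bn (n + 1)) := algC (hk (n + 1))
    intro σ hσ
    have hle : K ⊔ Bn n ≤ K ⊔ Bn (n + 1) := sup_le_sup_left (hX.b.mono (Nat.le_succ n)) K
    have hord : orderOf σ = p := by
      have h1 := ordP p (kk A B) K Bn hX.b (n + 1) n (Nat.le_succ n) (hk n) (hk (n + 1)) σ hσ
      rw [h1]
      simp
    have hlev : ((lvX p f (n + 1) : ℕ) : OO A B) = (p : OO A B) * ((lvX p f n : ℕ) : OO A B) := by
      rw [(tl_LVX p A B f hS n).2.1]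
      push_cast
      rfl
    have hbm : (p : OO A B) ∣ ((lvX p f n : ℕ) : OO A B) := by
      obtain ⟨t, ht⟩ := (tl_LVX p A B f hS n).2.2.1
      rw [ht]
      push_cast
      exact dvd_mul_right _ _
    obtain ⟨C, hCH, hC0, hCe⟩ := i1'_E y_I1_E A B hE T (R.L R.i0) (R.om R.i0) hnl
      ((lvX p f n : ℕ) : OO A B) (p : OO A B) ((lvX p f (n + 1) : ℕ) : OO A B) hlev
      (natO_ne (hm0 n)) (h2m n) hbm (tl_LVX p A B f hS n).2.2.2.1 (aX p f : ℤ) (H R.i0) haZ (hcopO n)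
      hhalf (θ n) (θ (n + 1)) (hθ.om n) (hθ.om (n + 1)) (K ⊔ Bn n) (K ⊔ Bn (n + 1)) (hk n)
      (hk (n + 1)) hle (hHas n) (hsub n) (hsub (n + 1)) p σ hσ hord hp.ne_zero
      ⟨cW (hk (n + 1)) (θ (n + 1)), hmem (n + 1)⟩ rfl
    exact ⟨C, hHK C hCH, hC0, hCe⟩
  case kol =>
    intro n _
    let akD : Algebra (kk A B) ↥(K ⊔ Bn n) := algC (hk n)
    have h1 := hKOL' p hp _ (natO_ne (hm0 n)) (h2m n) (tl_LVX p A B f hS n).2.2.2.1 (aX p f : ℤ)
      (H R.i0) haZ (hcopO n) hhalf S hS1 hSa (hSm n) (θ n) (hθ.om n) (K ⊔ Bn n) (hk n) (hHas n)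
      (hsub n) ⟨cW (hk n) (θ n), hmem n⟩ rfl
    refine KolInP.mono ?_ h1
    intro g hg x hx
    exact hg x (hHK _ hx)

end

end Pool.Agent.OEJ


end

section

/-!
# OE, block J, modules VEX, DO, EINP, INPT (helper19): the inputs of block K for the fields `K₀ ⊔ Ln (r + 1)`, exceptional `k`

After `OB/J_VEXO.lean`, `OB/Z_EINP.lean`, `OT/J_INPT.lean` and `ME/ZSqE.lean`.
-/

set_option autoImplicit false

open NumberField IsDedekindDomain

namespace Pool.Agent.OEJ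

open _root_.MU3 Pool.Agent.MU3 Pool.Agent.MU3A Pool.Agent.MU3B Pool.Agent.RI Pool.Agent.RID
  Pool.Agent.MUX Pool.Agent.ME Pool.Agent.MUXK Pool.Agent.MUXE Pool.Agent.MUXJ Pool.Agent.MUXZ
  Pool.Agent.NSI Pool.Agent.OB Pool.Agent.MUXW Pool.Agent.OE
open Pool.Agent.OTJ (AbK LyL NewC gen_dvd gen_ne gen_p)
open _root_.Pool.Agent.TWR (Gen)
open Pool.Agent.NSZ (idl_ne_bot vex mem_idl)
open Pool.Agent.OBZ (SetQ tl_LVX)

noncomputable section

/-! ### The data -/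

/-- VEX: the prime ideal `P` above `p` and the valuation ring `V` above `P`. -/
theorem t_VEXE (p : ℕ) (A B : ℤ) (hE : CaseE A B) (hp : p.Prime) (h5 : 5 ≤ p) :
    ∃ (P : Ideal (OO A B)) (V : ValuationSubring ℂ), CaseOE p A B P V := by
  have h1 : (idl (A := A) (B := B) p) ≠ ⊤ := by
    intro h
    have h2 : (1 : OO A B) ∈ idl (A := A) (B := B) p := by rw [h]; trivial
    rw [mem_idl] at h2
    obtain ⟨h2, -⟩ := h2
    rw [QuadraticAlgebra.re_one] at h2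
    have := Int.le_of_dvd one_pos h2
    omega
  obtain ⟨P, hP, hle⟩ := Ideal.exists_le_maximal _ h1
  obtain ⟨V, hV⟩ := vex hE.toCQ P hP
  have hmem : ((p : ℕ) : OO A B) ∈ P := hle (Ideal.mem_span_singleton_self _)
  have hd : ¬ (p : ℤ) ∣ absD A B := by
    intro h2
    have h3 : absD A B = 4 ∨ absD A B = 3 := by
      unfold absD
      rw [hE.hA]
      rcases hE.toCQ.hB with hB | hB
      · rw [hB]
        norm_num
      · rw [hB]
        norm_num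
    rcases h3 with h3 | h3
    · rw [h3] at h2
      have := Int.le_of_dvd (by norm_num) h2
      omega
    · rw [h3] at h2
      have := Int.le_of_dvd (by norm_num) h2
      omega
  exact ⟨P, V, { hE with pp := hp, p5 := h5, prime := hP.isPrime, mem := hmem,
                         unr := t_UNR hE.toCQ hp hd hP.isPrime hmem, hV := hV }⟩

/-- `p` is in the maximal ideal of `V` -/
theorem caseOE_hp {p : ℕ} {A B : ℤ} {P : Ideal (OO A B)} {V : ValuationSubring ℂ}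
    (h : CaseOE p A B P V) : (p : ℂ) ∈ V.nonunits := by
  have h2 := (h.hV ((p : ℕ) : OO A B)).2 h.mem
  have h3 : emb ((p : ℕ) : OO A B) = (p : ℂ) := by
    rw [← RNGaux.eH_apply h.toCQ, map_natCast]
  rwa [h3] at h2

/-- the divisor `24` of the level -/
theorem t_DOE {p : ℕ} {A B : ℤ} {P : Ideal (OO A B)} {V : ValuationSubring ℂ}
    (h : CaseOE p A B P V) : ¬ p ∣ 24 ∧
      ∀ f : ℕ, f ≠ 0 → ¬ p ∣ f → 24 ∣ f → SetOE p A B P V f := by
  have hp := h.pp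
  have h5 := h.p5
  constructor
  · intro h1
    have e : (24 : ℕ) = 2 * (2 * (2 * 3)) := by norm_num
    rw [e] at h1
    rcases hp.dvd_mul.1 h1 with h2 | h2
    · have := Nat.le_of_dvd (by norm_num) h2
      omega
    · rcases hp.dvd_mul.1 h2 with h3 | h3
      · have := Nat.le_of_dvd (by norm_num) h3
        omega
      · rcases hp.dvd_mul.1 h3 with h3 | h3
        · have := Nat.le_of_dvd (by norm_num) h3
          omega
        · have := Nat.le_of_dvd (by norm_num) h3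
          omega
  · intro f hf0 hpf hdf
    have h6 : 2 * absD A B ∣ 24 := by
      unfold absD
      rw [h.hA]
      rcases h.toCQ.hB with hB | hB
      · rw [hB]
        norm_num
      · rw [hB]
        norm_num
    have h7 : (24 : ℤ) ∣ ((p * f : ℕ) : ℤ) := by exact_mod_cast hdf.mul_left p
    exact { h with f0 := hf0, fp := hpf, f12 := (by norm_num : 12 ∣ 24).trans hdf,
                   fD := h6.trans h7 }

/-- the level `f l^m` -/
theorem setOE_up {p : ℕ} {A B : ℤ} {P : Ideal (OO A B)} {V : ValuationSubring ℂ} {f : ℕ}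
    (hS : SetOE p A B P V f) {l g h : ℕ} (H : Gen l g h) (m : ℕ) :
    SetOE p A B P V (f * l ^ m) :=
  { hS.toCaseOE with
    f0 := Nat.mul_ne_zero hS.f0 (pow_ne_zero _ (gen_ne H))
    fp := fun hd => (hS.pp.dvd_mul.1 hd).elim hS.fp fun h1 =>
      gen_p H hS.p5 (hS.pp.dvd_of_dvd_pow h1)
    f12 := hS.f12.mul_right _
    fD := by
      refine hS.fD.trans ?_
      push_cast
      rw [← mul_assoc]
      exact dvd_mul_right _ _ }

theorem setQ_OE {p : ℕ} {A B : ℤ} {P : Ideal (OO A B)} {V : ValuationSubring ℂ} {f : ℕ}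
    (h : SetOE p A B P V f) : SetQ p A B f :=
  ⟨h.toCQ, h.pp, by have := h.p5; omega, h.f0, h.fp⟩

theorem lv_evenO {p f : ℕ} (hf : 12 ∣ f) (n : ℕ) : 2 ∣ lvX p f n := by
  unfold lvX
  exact Dvd.dvd.mul_right (Dvd.dvd.mul_right ((by norm_num : 2 ∣ 12).trans hf) _) _

/-! ### The input of block E -/

/-- the input of block I for the norm to any field `D ≤ RFE (lvX p f n)` -/
theorem eInpOE (hEF : O_EFINE)
    {p : ℕ} {A B : ℤ} {P : Ideal (OO A B)} {V : ValuationSubring ℂ} {f : ℕ}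
    (hS : SetOE p A B P V f) (hT : TorXE A B)
    {ι : Type} [Fintype ι] (R : RepsE A B (p * f) ι) {u e lam : ℂ}
    (hG : GoodL V (R.L R.i0) u e lam) {H : ι → Finset ℂ}
    {θ : ∀ n : ℕ, (RFE (idl (A := A) (B := B) (lvX p f n)) : IntermediateField (kk A B) ℂ)}
    (hth : ThN_E p f R H θ) (n : ℕ) (hn : 1 ≤ n) (D : IntermediateField ℚ ℂ) (h : kk A B ≤ D)
    (hD : ∀ y ∈ D, y ∈ RFE (idl (A := A) (B := B) (lvX p f n))) :
    EInpOE p P V f R u n h (fun τ => cWt h (θ n) τ) := by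
  obtain ⟨hl0, _, _, hl2, hlu, hodd, hac, _, _, hcop⟩ := tl_LVX p A B f (setQ_OE hS) n
  have hb : (idl (A := A) (B := B) (lvX p f n)) ≠ ⊥ := idl_ne_bot hl0
  have := hT.fin _ hb
  have := hT.gal _ hb
  obtain ⟨h1, h2, h3, _, _⟩ := y_MEM A B _ (hT.fin _ hb) (hT.gal _ hb) (hT.comm _ hb) D h hD
    (θ n) (hth.ne n)
  let := algC h
  have hconj : ∀ τ : D ≃ₐ[kk A B] D, ∃ y : D, (y : ℂ) = cWt h (θ n) 1 ∧
      ((τ y : D) : ℂ) = cWt h (θ n) τ := by
    intro τ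
    refine ⟨⟨cWt h (θ n) 1, (h2 1).1⟩, rfl, ?_⟩
    have hm : cW h (θ n) ∈ D := by rw [h1]; exact (h2 1).1
    have := h3 τ hm
    have he : (⟨cWt h (θ n) 1, (h2 1).1⟩ : D) = ⟨cW h (θ n), hm⟩ := Subtype.ext h1.symm
    rw [he]; exact this
  have hsq : ∀ τ : D ≃ₐ[kk A B] D, cXE R (lvX p f n) H h τ = cWt h (θ n) τ ^ 2 :=
    y_CXW_E A B hS.toCaseE hT (p * f) ι R (lvX p f n) hl0 (lv_evenO hS.f12 n)
      (fun i => hcop _ (R.cop i)) hl2 (aX p f) H (by unfold aX; omega) hac hth.half (θ n)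
      (hth.ptE n) D h hD
  have hfin : Finite (D ≃ₐ[kk A B] D) := MEZ.finG _ (hT.fin _ hb) D h hD
  refine ⟨(h2 1).2, hconj, ?_⟩
  rintro w hw g ⟨y, hy, hye⟩ τ'
  refine hEF p A B P V f hS hT ι R u e lam hG w hw n hn H hth.half D h hD ?_ g
    ⟨y ^ 2, pow_mem hy 2, ?_⟩ τ'
  · intro τ
    obtain ⟨z, hz1, hz2⟩ := hconj τ
    refine ⟨z ^ 2, ?_, ?_⟩
    · rw [hsq]
      push_cast
      rw [hz1]
    · rw [hsq, map_pow]
      push_cast
      rw [hz2]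
  · have h4 : (∏ᶠ τ : D ≃ₐ[kk A B] D, cXE R (lvX p f n) H h τ ^ g τ) =
        (∏ᶠ τ : D ≃ₐ[kk A B] D, cWt h (θ n) τ ^ g τ) ^ 2 := by
      have := Fintype.ofFinite (D ≃ₐ[kk A B] D)
      rw [finprod_eq_prod_of_fintype, finprod_eq_prod_of_fintype, ← Finset.prod_pow]
      refine Finset.prod_congr rfl fun τ _ => ?_
      rw [hsq, ← zpow_natCast, ← zpow_natCast, ← zpow_mul, ← zpow_mul, mul_comm]
    rw [h4, ← hye]
    ring

/-! ### The inputs of block K -/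

/-- (INPT) -/
theorem t_INPTE (hIT : O_ITE) (hRF : O_RFINE) (hEF : O_EFINE) :
    ∀ (p : ℕ) (A B : ℤ) (P : Ideal (OO A B)) (V : ValuationSubring ℂ),
      CaseOE p A B P V → TorXE A B → InpGTE p A B V := by
  intro p A B P V hC hT l g h hG f hf0 hfp hf12 hfD K₀ _ hk hA hK₀ Ln hL
  have hCQ : CQ A B := hC.toCQ
  have hS : SetOE p A B P V f := { hC with f0 := hf0, fp := hfp, f12 := hf12, fD := hfD }
  have : Fact (Nat.Prime p) := ⟨hC.pp⟩
  have hl : l ∣ f := (gen_dvd hG).trans hf12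
  obtain ⟨R⟩ := MEZ.rexE hC.toCaseE (p * f)
  obtain ⟨u, e, lam, hGL, -, -, -⟩ := (hRF p A B P V hC hT).1 _ _ _ (R.nl R.i0)
  obtain ⟨r₀, hr₀⟩ := hIT p A B P V f hS hT Unit R u e lam hGL l g h hG hl K₀ hk hA hK₀ Ln hL
  refine ⟨r₀, fun r hr K' K Bn _ _ _ _ _ hKeq hX hK hH hkn hk₀ hkK => ?_⟩
  have hS' := setOE_up hS hG (r + 1 + h)
  have hQ' := setQ_OE hS'
  have hodd := (tl_LVX p A B _ hQ' 0).2.2.2.2.2.1
  obtain ⟨H, hHalf, hθ⟩ := (tz_THN_E y_THG_E) A B hCQ hT (p * (f * l ^ (r + 1 + h))) Unit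
    (RLE R l (r + 1 + h) hl) (aX p (f * l ^ (r + 1 + h))) hodd
  have hθ' : ∀ n : ℕ, ∃ θ : (RFE (idl (A := A) (B := B) (lvX p (f * l ^ (r + 1 + h)) n)) :
      IntermediateField (kk A B) ℂ),
      (θ : ℂ) = ThetaH ((RLE R l (r + 1 + h) hl).L (RLE R l (r + 1 + h) hl).i0)
        (H (RLE R l (r + 1 + h) hl).i0)
        (ptE (RLE R l (r + 1 + h) hl) (lvX p (f * l ^ (r + 1 + h)) n)
          (RLE R l (r + 1 + h) hl).i0 1) ∧
      (θ : ℂ) = ThetaH ((RLE R l (r + 1 + h) hl).L (RLE R l (r + 1 + h) hl).i0)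
        (H (RLE R l (r + 1 + h) hl).i0)
        ((RLE R l (r + 1 + h) hl).om (RLE R l (r + 1 + h) hl).i0 /
          emb ((lvX p (f * l ^ (r + 1 + h)) n : ℕ) : OO A B)) ∧
      θ ≠ 0 := fun n =>
    hθ (lvX p (f * l ^ (r + 1 + h)) n) (tl_LVX p A B _ hQ' n).1 (tl_LVX p A B _ hQ' n).2.2.2.2.1
      (tl_LVX p A B _ hQ' n).2.2.2.2.2.2.1
  choose θ hθ1 hθ2 hθ3 using hθ'
  have hth : ThN_E p (f * l ^ (r + 1 + h)) (RLE R l (r + 1 + h) hl) H θ :=
    ⟨hHalf, hθ1, hθ2, hθ3⟩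
  obtain ⟨S, hW⟩ := z_INWE p A B (f * l ^ (r + 1 + h)) hQ' hC.toCaseE (lv_evenO hS'.f12 0) hT
    Unit (RLE R l (r + 1 + h) hl) H θ hth K' K Bn hX hK hH hkn hk₀
  have hNL : ∃ (b : Ideal (OO A B)) (L : PeriodPair) (om : ℂ), IsNE b L om :=
    ⟨_, _, _, R.nl R.i0⟩
  have hK'f : ∀ y ∈ K', y ∈ RFE (idl (A := A) (B := B) (lvX p (f * l ^ (r + 1 + h)) 0)) :=
    fun y hy => hK y (hX.le hy)
  have hInR : ∀ y ∈ K' ⊔ Bn 5,
      y ∈ RFE (idl (A := A) (B := B) (lvX p (f * l ^ (r + 1 + h)) 5)) :=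
    t_SUBE p A B _ hQ' hT hNL K' hK'f 5 (Bn 5) (hX.b0.lay 5)
  have hAK : AbK p hkK := by
    subst hKeq
    obtain ⟨h1, h2, h3⟩ := t_ABLE l g h hG A B hT hNL p f hC.pp hC.p5 hf0 K₀ hk hK₀ hA.cop
      (r + 1) (Ln (r + 1)) (hL.lay (r + 1)) hkK
    obtain ⟨ω, hω, hω1⟩ := hA.om
    exact ⟨h1, h2, h3, ω, (le_sup_left : K₀ ≤ K₀ ⊔ Ln (r + 1)) hω, hω1⟩
  refine ⟨S, fun n => cW (hkn n) (θ n), fun n => cW (hk₀ n) (θ n), 0, hW, fun χ hχ =>
    ⟨5, by norm_num, ?_⟩⟩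
  refine hr₀ r hr K' hKeq Bn hX.b0 (hk₀ 5) hkK hAK hK'f
    (fun τ => cWt (hk₀ 5) (θ 5) τ) ?_ _ _ ?_ χ hχ
  · exact eInpOE hEF hS' hT (RLE R l (r + 1 + h) hl) hGL hth 5 (by norm_num)
      (K' ⊔ Bn 5) (hk₀ 5) hInR
  · have hb : (idl (A := A) (B := B) (lvX p (f * l ^ (r + 1 + h)) 5)) ≠ ⊥ :=
      idl_ne_bot (tl_LVX p A B _ hQ' 5).1
    exact (y_MEM A B _ (hT.fin _ hb) (hT.gal _ hb) (hT.comm _ hb) _ (hk₀ 5) hInR (θ 5)
      (hth.ne 5)).1

end

end Pool.Agent.OEJ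


end

section

/-!
# OE, block J, module MAIN (helper19): nilpotency for the new characters, for the fields `kk A B`, `CaseE A B`

After `OT/J_MAINT.lean`.
-/

set_option autoImplicit false

open NumberField IsDedekindDomain

namespace Pool.Agent.OEJ

open _root_.MU3 Pool.Agent.MU3 Pool.Agent.MU3A Pool.Agent.MU3B Pool.Agent.RI Pool.Agent.RID
  Pool.Agent.MUX Pool.Agent.ME Pool.Agent.MUXK Pool.Agent.MUXE Pool.Agent.MUXJ Pool.Agent.MUXZ
  Pool.Agent.NSI Pool.Agent.OB Pool.Agent.OE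
open Pool.Agent.OTJ (AbK LyL NewC newC_mp fd_LL S_PIGS)
open _root_.Pool.Agent.TWR (Gen)

noncomputable section

/-- the result for the fields `kk A B` -/
def S_MAINTE : Prop :=
  ∀ (p : ℕ) [Fact p.Prime], 5 ≤ p → ∀ (A B : ℤ), CaseE A B →
    ∀ (l g h : ℕ), Gen l g h → ∀ (K₀ : IntermediateField ℚ ℂ) [FiniteDimensional ℚ K₀]
    (hk : kk A B ≤ K₀), AbK p hk → ∀ Ln : ℕ → IntermediateField ℚ ℂ, LyL l Ln →
    ∃ r₀ : ℕ, ∀ r, r₀ ≤ r → ∀ (K' : IntermediateField ℚ ℂ) (Bn : ℕ → IntermediateField ℚ ℂ)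
      [∀ n, FiniteDimensional ℚ ↥(K' ⊔ Bn n)], K' = K₀ ⊔ Ln (r + 1) →
      (∀ n, IsLayer p n (Bn n)) → Monotone Bn →
      ∀ (hk₀ : ∀ n, kk A B ≤ K' ⊔ Bn n) (hkK : kk A B ≤ K')
      (χ : (letI := algC hkK; (↥K' ≃ₐ[kk A B] ↥K') →* (AlgebraicClosure (ZMod p))ˣ)),
      NewC hkK (K₀ ⊔ Ln r) χ →
      BasX p (kk A B) K' Bn ∧
      ∃ m : ℕ, NilC (AlgebraicClosure (ZMod p)) (kk A B) K' Bn hk₀ hkK χ m

/-- (MAINTE) -/
theorem t_MAINTE (hRF : O_RFINE) (hEF : O_EFINE) (hIT : O_ITE) (hPIG : S_PIGS) : S_MAINTE := by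
  intro p hpf h5 A B hE l g h hG K₀ _ hk hA Ln hL
  have hp : p.Prime := hpf.out
  obtain ⟨P, V, hC⟩ := t_VEXE p A B hE hp h5
  obtain ⟨hpd, hd⟩ := t_DOE hC
  have hCQ : CQ A B := hE.toCQ
  have hTor : TorXE A B := Pool.Agent.MEC.c_TORE A B hE
  have hNL : NLex_E A B := by
    obtain ⟨L, w, hL⟩ := Pool.Agent.MEC.exists_isNE hE ⊤ (by
      have := (MUXE.xe_RNG A B hCQ).ded
      exact bot_ne_top.symm)
    exact ⟨⊤, L, w, hL⟩
  have hTU : TorU_E A B K₀ := Pool.Agent.JTE.torU_E A B hE K₀ hk hA.gal hA.ab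
  obtain ⟨M, hM, hKM⟩ := t_DIR_E A B hCQ hTor K₀ hTU
  obtain ⟨f, hf0, hfp, hfd, hKf⟩ := t_LEVE p 24 A B hp (by norm_num) hpd (by norm_num) hTor hNL
    K₀ hk hA.cop M hM hKM
  have hS := hd f hf0 hfp hfd
  obtain ⟨r₀, hr₀⟩ := t_INPTE hIT hRF hEF p A B P V hC hTor l g h hG f hS.f0 hS.fp hS.f12 hS.fD
    K₀ hk hA hKf Ln hL
  refine ⟨r₀, fun r hr K' Bn _ hKeq hlay hmono hk₀ hkK χ hχ => ?_⟩
  have hK'A : FiniteDimensional ℚ K' ∧ AbK p hkK := by
    subst hKeq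
    refine ⟨fd_LL hG hL K₀ (r + 1), ?_⟩
    obtain ⟨h1, h2, h3⟩ := t_ABLE l g h hG A B hTor hNL p f hp h5 hf0 K₀ hk hKf hA.cop
      (r + 1) (Ln (r + 1)) (hL.lay (r + 1)) hkK
    obtain ⟨ω, hω, hω1⟩ := hA.om
    exact ⟨h1, h2, h3, ω, (le_sup_left : K₀ ≤ K₀ ⊔ Ln (r + 1)) hω, hω1⟩
  obtain ⟨hK'fd, hAK⟩ := hK'A
  have hK'f : ∀ y ∈ K', y ∈ RFE (idl (A := A) (B := B) (lvX p (f * l ^ (r + 1 + h)) 0)) := by
    rw [hKeq]
    exact t_LLVE l g h hG A B hTor hNL p f hp.ne_zero hf0 K₀ hKf (r + 1) (Ln (r + 1))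
      (hL.lay (r + 1))
  have hl0 : l ≠ 0 := by
    rcases hG with ⟨rfl, -, -⟩ | ⟨rfl, -, -⟩ <;> norm_num
  have hf'0 : f * l ^ (r + 1 + h) ≠ 0 := Nat.mul_ne_zero hf0 (pow_ne_zero _ hl0)
  obtain ⟨K, hKfd, hSX, hKR, hHK⟩ := t_SETFE p A B P V hE hp h5 hC.prime hC.mem hC.hV hTor
    (f * l ^ (r + 1 + h)) hf'0 K' hkK hAK.cop hK'f hAK.om Bn hlay hmono
  have hfk : FiniteDimensional ℚ (kk A B) :=
    Module.Finite.of_injective (IntermediateField.inclusion hk).toLinearMap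
      (IntermediateField.inclusion hk).injective
  have hfB : ∀ n, FiniteDimensional ℚ ↥(K ⊔ Bn n) := fun n => by
    obtain ⟨h1, -, -⟩ := LAY_thm p n (Bn n) (hlay n)
    exact IntermediateField.finiteDimensional_sup K (Bn n)
  have hkn : ∀ n, kk A B ≤ K ⊔ Bn n := fun n => (hkK.trans hSX.le).trans le_sup_left
  obtain ⟨S, c, c₀, n₁, hW, hI⟩ := hr₀ r hr K' K Bn hKeq hSX hKR hHK hkn hk₀ hkK
  obtain ⟨hchar, halg⟩ := t_RES p V (caseOE_hp hC)
  obtain ⟨io⟩ := ex_io p (IsLocalRing.ResidueField V)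
  obtain ⟨m, hm, hI3⟩ := hI (mpO io hkK χ) (newC_mp io hkK _ χ hχ)
  have hI3A := I3At_mp io p (kk A B) K' Bn hkK χ 1 m (hk₀ m) (c₀ m) (hW.mem₀ m) hI3
  have hI3C := hPIG (AlgebraicClosure (ZMod p)) p (kk A B) K' K Bn hSX hkn hk₀ hkK S c c₀ n₁ hW χ
    m hm hI3A
  exact ⟨hSX.b0, o_MAINO (AlgebraicClosure (ZMod p)) p (kk A B) K' K Bn hSX hkn hk₀ hkK S c c₀ n₁
    hW χ hI3C⟩

end

end Pool.Agent.OEJ


end

section

/-!
# OE, block HQ (helper51): `HypQ` for the symbols of the exceptional fields, `p ≥ 5`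

After `OB/HB_HQ1.lean`.
-/

set_option autoImplicit false

namespace Pool.Agent.OEHQ

open _root_.MU3 _root_.Pool.Agent.MU3A _root_.Pool.Agent.MU3B _root_.Pool.Agent.MU3F _root_.Pool.Agent.MUX
  _root_.Pool.Agent.MUXH _root_.Pool.Agent.MUXHY _root_.Pool.Agent.MuSym _root_.Pool.Agent.OB
  _root_.Pool.Agent.OBH _root_.Pool.Agent.OE OnePoint
open _root_.Pool.Agent.ME (CaseE TorXE RepsE IsNE IsEIE PhiKE)
open _root_.Pool.Agent.MUXF (qb)

noncomputable section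

theorem oe_HQ1 (hT : O_TYFE) (hG : O_GPTE) : Sq_HQ1 := by
  intro p A B P V f hS hTor ι _ R u el lam hg w hw e heE r hrp her i hi1 hi2 hty s hs kk hkk
  have he : IsEI (idl (A := A) (B := B) (p * f)) e := heE.toIsEI
  have hpp : p.Prime := hS.pp
  have hp5 : 5 ≤ p := hS.p5
  obtain ⟨vp, vZ, v1, vr, D0, -, gb, gt, hpf, hN, hNne, hcop, -, -⟩ := oe_VAL p A B P V f hS
  obtain ⟨hnP, -⟩ := oe_RAM p A B P V hS.toCaseOE
  have hr0 : r ≠ 0 := by
    rintro rfl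
    exact hrp (dvd_zero p)
  have hnI5 : 5 ≤ nI P ∧ nI P ≤ p ^ 2 := by
    have h12 : p ≤ p ^ 2 := by nlinarith
    rcases hnP with h | h
    · rw [h]; exact ⟨hp5, h12⟩
    · rw [h]; exact ⟨hp5.trans h12, le_refl _⟩
  obtain ⟨nu1, num, nuper, nuv⟩ := oe_CHR p A B P V f hS e he r hr0 her
  have hk0 : ∀ j, kk j = 0 ∨ kk j ^ r = 1 := fun j => Or.inr (hkk j)
  obtain ⟨pi, KI, typ, unr, vpi⟩ := hT p A B P V f hS hTor ι R u el lam hg w hw e heE r hrp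
    her i hty kk hkk
  have hua : IsAlgebraic ℚ u := oe_UAL A B hS.toCaseE (p * f) ι R V u el lam hg
  obtain ⟨sym, alg, T, fin⟩ := oe_SAF p A B P V f hS hTor ι R e he r hr0 her kk hk0 u hg.u0 hua
  have hsA : IsAlgebraic ℚ ((s : ℤ) : ℂ) := isAlgebraic_intCast s
  have hsK : ((s : ℤ) : ℂ) ∈ KI := intCast_mem KI s
  set Φ : OnePoint ℚ → OnePoint ℚ → ℂ := fun x y => PhiKE R e kk x y / (u * R.om R.i0) with hΦ
  have hQ : ∀ x y, sgnPart ((s : ℤ) : ℂ) Φ x y =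
      Φ x y + ((s : ℤ) : ℂ) * Φ (mob (-1) 0 0 1 x) (mob (-1) 0 0 1 y) := fun x y => rfl
  have halg : ∀ x y, IsAlgebraic ℚ (sgnPart ((s : ℤ) : ℂ) Φ x y) := by
    intro x y
    rw [hQ]
    exact (alg x y).add (hsA.mul (alg _ _))
  have hfin : ∃ T : Finset ℂ, ∀ x y, sgnPart ((s : ℤ) : ℂ) Φ x y ∈
      AddSubgroup.closure (T : Set ℂ) := by
    refine ⟨T, fun x y => ?_⟩
    rw [hQ]
    refine add_mem (fin x y) ?_
    rw [← zsmul_eq_mul]
    exact zsmul_mem (fin _ _) s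
  have hdep : ∀ x : ℚ, ∑ j ∈ Finset.range p, Φ ∞ (((x + j) / p : ℚ) : OnePoint ℚ) = 0 := by
    intro x
    simp only [hΦ]
    unfold PhiKE
    rw [← Finset.sum_div, Finset.sum_comm]
    have h12 : ∀ c, ∑ j ∈ Finset.range p, kk c * PhiI (R.b c) e ∞
        (((x + j) / p : ℚ) : OnePoint ℚ) = 0 := by
      intro c
      rw [← Finset.mul_sum, oe_DEP p A B P V f hS e he (R.b c) (R.nl c).b_ne x, mul_zero]
    rw [Finset.sum_eq_zero fun c _ => h12 c, zero_div]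
  obtain ⟨hsym, -, hdepQ⟩ := to_HKN p hpp _ (nuX e) Φ ((s : ℤ) : ℂ) sym nu1 hdep
  have hpi0 : pi ≠ 0 := by
    rintro rfl
    have h12 : nI P - 1 ≠ 0 := by omega
    rw [map_zero, zero_pow h12, zero_mul] at vpi
    exact zero_ne_one vpi
  have hgap := to_TYP p hpp V vp KI 1 (nI P - 1) i le_rfl (by omega) (by rw [one_mul]; exact hi1)
    (by
      have h12 : nI P - 1 < p ^ 2 := by omega
      have h13 : 1 ≤ p - 1 := by omega
      calc 1 * (nI P - 1) = nI P - 1 := one_mul _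
        _ < p ^ 2 := h12
        _ = 1 * p ^ 2 := (one_mul _).symm
        _ ≤ (p - 1) * p ^ 2 := Nat.mul_le_mul_right _ h13)
    (fun w hw h1 => by rw [pow_one]; exact unr w hw h1) pi (by rw [one_mul]; exact vpi)
  refine ⟨pi, KI, ?_, hdepQ, unr, vpi⟩
  exact
    { pp := hpp
      p2 := by omega
      vp := vp
      N0 := hNne
      cop := hcop
      nu1 := nu1
      num := num
      nuper := nuper
      nuv := nuv
      sym := hsym
      bdd := to_BDN p hpp V vp _ halg hfin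
      pi0 := hpi0
      typ := by
        intro x y
        obtain ⟨a, ha, ha1⟩ := typ x y
        obtain ⟨b, hb, hb1⟩ := typ (mob (-1) 0 0 1 x) (mob (-1) 0 0 1 y)
        refine ⟨a + (s : ℂ) * b, KI.add_mem ha (KI.mul_mem hsK hb), ?_⟩
        rw [hQ]
        simp only [hΦ]
        rw [ha1, hb1]
        ring
      gap := fun a ha => (hgap a ha).1
      G := by
        obtain ⟨q, c, hq, hc, hsum⟩ := oe_PJ1 p A B P V f hS ι R e he kk (u * R.om R.i0)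
          ((s : ℤ) : ℂ)
        have hM : (p - 1) * p ^ 2 ≠ 0 := by
          have h12 : p - 1 ≠ 0 := by omega
          exact mul_ne_zero h12 (pow_ne_zero _ hpp.ne_zero)
        refine to_PRT p hpp V vp (p ^ (1 + 1) * N0O p 1 A B f) ((p - 1) * p ^ 2) Φ
          (sgnPart ((s : ℤ) : ℂ) Φ) q c hq hM hc hsum ?_
        intro N' hN' hd
        refine hG p A B P V f hS hTor ι R u el lam hg e heE r hr0 her kk ?_ N' hN' ?_
        · exact vr r _ hr0 (hkk _)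
        · rw [← hN]
          exact_mod_cast hd }

end

end Pool.Agent.OEHQ


end

section

/-!
# OE, block J, module NB (helper19): the result of the block, for `ℚ(i)`, `ℚ(√-3)`

After `OT/J_NBT.lean`.
-/

set_option autoImplicit false

open NumberField IsDedekindDomain

namespace Pool.Agent.OEJ

open _root_.MU3 Pool.Agent.MU3 Pool.Agent.MU3A Pool.Agent.MU3B Pool.Agent.RI Pool.Agent.RID
  Pool.Agent.MUX Pool.Agent.ME Pool.Agent.MUXK Pool.Agent.MUXE Pool.Agent.MUXJ Pool.Agent.MUXZ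
  Pool.Agent.NSI Pool.Agent.OB Pool.Agent.OE
open Pool.Agent.OTJ (AbK LyL NewC newC_mp fd_LL S_PIGS)
open _root_.Pool.Agent.TWR (Gen)
open Pool.Agent.OBF.CHIx

/-- a subfield of a quadratic field with an element which is not real is equal to it -/
theorem quad_eq {k k' : IntermediateField ℚ ℂ} (h : Module.finrank ℚ k = 2)
    (hle : k' ≤ k) {z : ℂ} (hz : z ∈ k') (hr : (starRingEnd ℂ) z ≠ z) : k = k' := by
  have f1 : FiniteDimensional ℚ k := Module.finite_of_finrank_pos (by rw [h]; norm_num)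
  have f3 : FiniteDimensional ℚ k' :=
    Module.Finite.of_injective (IntermediateField.inclusion hle).toLinearMap
      (IntermediateField.inclusion hle).injective
  have h1 : Module.finrank ℚ k' ≠ 1 := by
    intro h1
    have h2 : k' = ⊥ := IntermediateField.finrank_eq_one_iff.1 h1
    rw [h2] at hz
    obtain ⟨q, hq⟩ := IntermediateField.mem_bot.1 hz
    apply hr
    rw [← hq]
    simp
  have h2 : Module.finrank ℚ k' = 2 := by
    have h3 : Module.finrank ℚ k' ≤ Module.finrank ℚ k :=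
      LinearMap.finrank_le_finrank_of_injective
        (f := (IntermediateField.inclusion hle).toLinearMap)
        (IntermediateField.inclusion hle).injective
    have h4 : 0 < Module.finrank ℚ k' := Module.finrank_pos
    omega
  exact (IntermediateField.eq_of_le_of_finrank_eq hle (h2.trans h.symm)).symm

theorem wC_one : wC (MUXZ.pA 1) (MUXZ.pB 1) = Complex.I := by
  unfold wC
  rw [MUXZ.absD_p]
  unfold MUXZ.pB
  norm_num

theorem wC_three : wC (MUXZ.pA 3) (MUXZ.pB 3) = (1 + (Real.sqrt 3 : ℝ) * Complex.I) / 2 := by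
  unfold wC
  rw [MUXZ.absD_p]
  unfold MUXZ.pB
  norm_num
  ring

theorem sqrt3_sq : (((Real.sqrt 3 : ℝ) : ℂ) * Complex.I) ^ 2 = -3 := by
  have h3 : ((Real.sqrt 3 : ℝ) : ℂ) ^ 2 = 3 := by
    rw [← Complex.ofReal_pow, Real.sq_sqrt (by norm_num)]
    norm_num
  rw [mul_pow, h3, Complex.I_sq]
  norm_num

/-- `ℚ(i)` -/
theorem kk_eq_one {k : IntermediateField ℚ ℂ} (h : Module.finrank ℚ k = 2)
    (hz : ∃ z ∈ k, z ^ 2 = -1) : k = kk (MUXZ.pA 1) (MUXZ.pB 1) := by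
  obtain ⟨z, hz, hz1⟩ := hz
  have hI : Complex.I ∈ k := by
    have h1 : (Complex.I - z) * (Complex.I + z) = 0 := by
      linear_combination Complex.I_sq - hz1
    rcases mul_eq_zero.1 h1 with h2 | h2
    · rw [sub_eq_zero.1 h2]
      exact hz
    · rw [eq_neg_of_add_eq_zero_left h2]
      exact neg_mem hz
  refine quad_eq h ?_ JT.kk_one ?_
  · refine IntermediateField.adjoin_simple_le_iff.2 ?_
    rw [wC_one]
    exact hI
  · rw [Complex.conj_I]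
    intro h1
    have h2 := congrArg Complex.im h1
    simp at h2
    norm_num at h2

/-- `ℚ(√-3)` -/
theorem kk_eq_three {k : IntermediateField ℚ ℂ} (h : Module.finrank ℚ k = 2)
    (hz : ∃ z ∈ k, z ^ 2 = -3) : k = kk (MUXZ.pA 3) (MUXZ.pB 3) := by
  obtain ⟨z, hz, hz1⟩ := hz
  have hI : ((Real.sqrt 3 : ℝ) : ℂ) * Complex.I ∈ k := by
    have h1 : (((Real.sqrt 3 : ℝ) : ℂ) * Complex.I - z) *
        (((Real.sqrt 3 : ℝ) : ℂ) * Complex.I + z) = 0 := by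
      linear_combination sqrt3_sq - hz1
    rcases mul_eq_zero.1 h1 with h2 | h2
    · rw [sub_eq_zero.1 h2]
      exact hz
    · rw [eq_neg_of_add_eq_zero_left h2]
      exact neg_mem hz
  have hw : wC (MUXZ.pA 3) (MUXZ.pB 3) ∈ k := by
    rw [wC_three]
    have h2 : (2 : ℂ) ∈ k := by
      exact_mod_cast k.algebraMap_mem 2
    exact div_mem (add_mem (one_mem _) hI) h2
  obtain ⟨w, hw', hw3⟩ := JT.kk_three
  refine quad_eq h (IntermediateField.adjoin_simple_le_iff.2 hw) hw' ?_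
  intro h1
  obtain ⟨x, rfl⟩ := Complex.conj_eq_iff_real.1 h1
  have h2 : x ^ 2 = -3 := by exact_mod_cast hw3
  nlinarith [sq_nonneg x]

theorem case_one : CaseE (MUXZ.pA 1) (MUXZ.pB 1) :=
  { MUXZ.cq_p (d := 1) squarefree_one with hA := by unfold MUXZ.pA; norm_num }

theorem case_three : CaseE (MUXZ.pA 3) (MUXZ.pB 3) :=
  { MUXZ.cq_p (d := 3) Nat.prime_three.squarefree with hA := by unfold MUXZ.pA; norm_num }

/-- (NB) -/
theorem t_NBE (hM : S_MAINTE) (hLAY : OBF.Sf_LAY) : OEF.O_TJE := by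
  intro p hpf h5 l g h hG k K₀ _ hk h2 hi hcase hA Ln hL
  obtain ⟨A, B, hE, rfl⟩ : ∃ (A B : ℤ), CaseE A B ∧ k = kk A B := by
    rcases hcase with h4 | h3
    · exact ⟨_, _, case_one, kk_eq_one h2 h4⟩
    · exact ⟨_, _, case_three, kk_eq_three h2 h3⟩
  obtain ⟨r₀, hr₀⟩ := hM p h5 A B hE l g h hG K₀ hk hA Ln hL
  refine ⟨r₀, fun r hr h' χ hχ => ?_⟩
  obtain ⟨Bn, hlay, hmono, hu⟩ := hLAY p (by omega)
  have hfd := fd_LL hG hL K₀ (r + 1)
  have hfL : ∀ n, FiniteDimensional ℚ ↥(K₀ ⊔ Ln (r + 1) ⊔ Bn n) := fun n => by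
    obtain ⟨h1, -, -⟩ := LAY_thm p n (Bn n) (hlay n)
    exact IntermediateField.finiteDimensional_sup (K₀ ⊔ Ln (r + 1)) (Bn n)
  have hk₀ : ∀ n, kk A B ≤ K₀ ⊔ Ln (r + 1) ⊔ Bn n := fun n =>
    h'.trans le_sup_left
  obtain ⟨hBX, m, hm⟩ := hr₀ r hr (K₀ ⊔ Ln (r + 1)) Bn rfl hlay hmono hk₀ h' (toC h' χ) (by
    let _ := algC h'
    obtain ⟨s', hs', h1⟩ := hχ
    refine ⟨AlgEquiv.autCongr (extEquiv h') s', fun x hx => ?_, fun h6 => h1 ?_⟩
    · have h7 := hs' ⟨(x : ℂ), x.2⟩ hx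
      exact Subtype.ext (congrArg Subtype.val h7)
    · have e1 : toC h' χ (AlgEquiv.autCongr (extEquiv h') s') = χ s' :=
        toC_apply h' χ (AlgEquiv.autCongr (extEquiv h') s') s' (by
          intro x x' hx
          obtain rfl : x' = ⟨(x : ℂ), x.2⟩ := Subtype.ext hx
          rfl)
      rw [← e1]
      exact h6)
  exact OBF.nil_mu p _ _ Bn hBX hu hk₀ h' χ m hm

end Pool.Agent.OEJ


end

section

/-!
# OE, block HB (helper51): the hypotheses of the abstract theorem `Ot_H` for the symbols `QTE`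

After `OT/HB_ND.lean` (helper52), `HB_HT1.lean` (helper53), `HB_HT2.lean`, `HB_HT3.lean` (helper22), `HB_HT.lean` (helper52).
-/

set_option autoImplicit false

namespace Pool.Agent.OEHB

open _root_.MU3 _root_.Pool.Agent.MU3A _root_.Pool.Agent.MU3B _root_.Pool.Agent.MU3F
  _root_.Pool.Agent.MUX _root_.Pool.Agent.MUXH _root_.Pool.Agent.MuSym _root_.Pool.Agent.OB
  _root_.Pool.Agent.OBH _root_.Pool.Agent.OE _root_.Pool.Agent.OEHQ OnePoint
open _root_.Pool.Agent.OT (HypT IsZ0 IsTw Yh)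
open _root_.Pool.Agent.ME (CaseE TorXE RepsE IsNE IsEIE PhiKE)

noncomputable section

lemma QTE_sgn {A B : ℤ} {n : ℕ} {ι : Type} [Fintype ι] (R : RepsE A B n ι)
    (e : OO A B → ℂ) (kk : ι → ℂ) (s u : ℂ) :
    QTE R e kk s u = sgnPart s (fun x y => PhiKE R e kk x y / (u * R.om R.i0)) := by
  funext x y
  unfold QTE sgnPart
  ring

/-- (ND) closed cycles of all levels on which the Fourier coefficients of `QTE` are not small -/
theorem oe_ND (h1 : OTH.S_NDN) (h3 : Sq_HQ1) {p : ℕ} {A B : ℤ} {P : Ideal (OO A B)}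
    {V : ValuationSubring ℂ} {f : ℕ} (hS : SetOE p A B P V f) (hT : TorXE A B)
    {ι : Type} [Fintype ι] (R : RepsE A B (p * f) ι) {u el lam : ℂ}
    (hg : GoodL V (R.L R.i0) u el lam) {w : OO A B → ℂ} (hw : IsTeiP p 1 P V w)
    {e : OO A B → ℂ} (he : IsEIE (idl (A := A) (B := B) (p * f)) e) {r : ℕ} (hrp : ¬ p ∣ r)
    (her : ∀ x, e x ≠ 0 → e x ^ r = 1) {i : ℕ} (hi1 : nI P - 1 ≤ i * (p - 1))
    (hi2 : i ≤ nI P - 2) (hty : ∀ x, x - 1 ∈ gO P f → x ∉ P → e x = w x ^ i)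
    {s : ℂ} (hs : s = 1 ∨ s = -1) {kk : ι → ℂ} (hkk : ∀ i, kk i ^ r = 1) {n : ℕ} (hn : 2 ≤ n)
    {ξ : ℂ} (hξ : IsPrimitiveRoot ξ (p ^ (n + 1))) :
    OTH.ND p n V (p ^ (1 + 1) * N0O p 1 A B f) ξ (QTE R e kk s u) := by
  obtain ⟨s', hs', rfl⟩ : ∃ s' : ℤ, (s' = 1 ∨ s' = -1) ∧ (s' : ℂ) = s := by
    rcases hs with rfl | rfl
    · exact ⟨1, Or.inl rfl, by norm_num⟩
    · exact ⟨-1, Or.inr rfl, by norm_num⟩
  have pp : p.Prime := hS.pp
  have p5 : 5 ≤ p := hS.p5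
  obtain ⟨r1, -⟩ := oe_RAM p A B P V hS.toCaseOE
  obtain ⟨pi, KI, hyp, hdep, hKI, hpi⟩ := h3 p A B P V f hS hT ι R u el lam hg w hw e he r hrp
    her i hi1 hi2 hty s' hs' kk hkk
  rw [QTE_sgn]
  have hle : nI P ≤ p ^ 2 := by
    rcases r1 with h | h
    · rw [h, pow_two]
      exact Nat.le_mul_self p
    · exact h.le
  have hge : p ≤ nI P := by
    rcases r1 with h | h
    · exact h.ge
    · rw [h, pow_two]
      exact Nat.le_mul_self p
  refine h1 p V (N0O p 1 A B f) 1 (nI P - 1) i (nuX e) _ pi KI hyp hdep hKI hi1 (by omega) ?_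
    hpi n hn ξ hξ
  have h7 : p ^ 2 ≤ (p - 1) * p ^ 2 := Nat.le_mul_of_pos_left _ (by omega)
  omega

/-- (HT1) symbols, algebraic, bounded -/
theorem oe_HT1 {p : ℕ} {A B : ℤ} {P : Ideal (OO A B)}
    {V : ValuationSubring ℂ} {f : ℕ} (hS : SetOE p A B P V f) (hT : TorXE A B)
    {ι : Type} [Fintype ι] (R : RepsE A B (p * f) ι)
    {e : OO A B → ℂ} (he : IsEI (idl (A := A) (B := B) (p * f)) e) {r : ℕ} (hr0 : r ≠ 0)
    (her : ∀ x, e x ≠ 0 → e x ^ r = 1) {kk : ι → ℂ} (hkk : ∀ i, kk i ^ r = 1)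
    {u : ℂ} (hu : u ≠ 0) (hua : IsAlgebraic ℚ u) {s : ℂ} (hs : s = 1 ∨ s = -1) :
    IsSym (p ^ (1 + 1) * N0O p 1 A B f) (nuX e) (QTE R e kk s u) ∧
    (∀ x y, IsAlgebraic ℚ (QTE R e kk s u x y)) ∧
    ∃ K : ℕ, ∀ x y, V.valuation ((p : ℂ) ^ K * QTE R e kk s u x y) ≤ 1 := by
  have hpp : p.Prime := hS.pp
  obtain ⟨vp, -⟩ := oe_VAL p A B P V f hS
  obtain ⟨sym, alg, fin⟩ := oe_SAF p A B P V f hS hT ι R e he r hr0 her kk
    (fun j => Or.inr (hkk j)) u hu hua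
  obtain ⟨K, hK⟩ := to_BDN p hpp V vp _ alg fin
  have sA : IsAlgebraic ℚ s := by
    rcases hs with rfl | rfl
    · exact isAlgebraic_one
    · exact isAlgebraic_one.neg
  have sv : V.valuation s ≤ 1 := by
    rcases hs with rfl | rfl
    · rw [map_one]
    · rw [Valuation.map_neg, map_one]
  have hQ : ∀ x y, QTE R e kk s u x y = PhiKE R e kk x y / (u * R.om R.i0) +
      s * (PhiKE R e kk (mob (-1) 0 0 1 x) (mob (-1) 0 0 1 y) / (u * R.om R.i0)) := by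
    intro x y
    unfold QTE
    rw [add_div, mul_div_assoc]
  refine ⟨?_, fun x y => ?_, K, fun x y => ?_⟩
  · have h9 := OT.HT1.isSym_add sym (OT.HT1.isSym_neg sym) s
    have h12 : (fun x y => (fun x y => PhiKE R e kk x y / (u * R.om R.i0)) x y +
          s * (fun x y => (fun x y => PhiKE R e kk x y / (u * R.om R.i0))
            (mob (-1) 0 0 1 x) (mob (-1) 0 0 1 y)) x y) = QTE R e kk s u := by
      funext x y
      rw [hQ]
    rw [← h12]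
    exact h9
  · rw [hQ]
    exact (alg x y).add (sA.mul (alg _ _))
  · rw [hQ, mul_add]
    refine (Valuation.map_add V.valuation _ _).trans (max_le (hK x y) ?_)
    rw [mul_left_comm, map_mul]
    exact mul_le_one' sv (hK _ _)

/-- depletion at `l` for `PhiKE` -/
theorem dep {A B : ℤ} (hc : CQ A B) {n : ℕ} (hn : n ≠ 0) {ι : Type} [Fintype ι]
    (R : RepsE A B n ι) (e : OO A B → ℂ) (he : IsEI (idl (A := A) (B := B) n) e) (wt : ι → ℂ)
    (l : ℕ) (hl : l.Prime) (hln : l ∣ n) (x : ℚ) :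
    ∑ j ∈ Finset.range l, PhiKE R e wt ∞ ((x + (j : ℚ) / l : ℚ) : OnePoint ℚ) = 0 := by
  have hb : idl (A := A) (B := B) n ≠ ⊥ := by
    rw [Ne, Ideal.span_singleton_eq_bot]
    intro h
    have h1 := congrArg QuadraticAlgebra.re h
    rw [QuadraticAlgebra.re_natCast] at h1
    exact hn (by exact_mod_cast h1)
  have hgl : idl n ≤ Ideal.span {((l : ℕ) : OO A B)} := by
    rw [Ideal.span_singleton_le_span_singleton]
    obtain ⟨k, hk⟩ := hln
    refine ⟨(k : OO A B), ?_⟩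
    rw [hk]
    push_cast
    rfl
  unfold PhiKE
  rw [Finset.sum_comm]
  refine Finset.sum_eq_zero fun i _ => ?_
  rw [← Finset.mul_sum, Pool.Agent.TWB.t_DPL A B hc _ _ e l (R.nl i).b_ne hb he hl hgl x, mul_zero]

/-- (HT3) depletion at `l` -/
theorem oe_HT3 {A B : ℤ} (hc : CQ A B) {p f l : ℕ} (hp : p ≠ 0) (hf : f ≠ 0) (hl : l.Prime)
    (hlf : l ∣ f) {ι : Type} [Fintype ι] (R : RepsE A B (p * f) ι) {e : OO A B → ℂ}
    (he : IsEI (idl (A := A) (B := B) (p * f)) e) (kk : ι → ℂ) (s u : ℂ) (x : ℚ) :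
    ∑ j ∈ Finset.range l, QTE R e kk s u ∞ ((x + (j : ℚ) / l : ℚ) : OnePoint ℚ) = 0 := by
  have hn : p * f ≠ 0 := mul_ne_zero hp hf
  have hln : l ∣ p * f := hlf.mul_left p
  have hl0 : (l : ℚ) ≠ 0 := by exact_mod_cast hl.ne_zero
  have h1 := dep hc hn R e he kk l hl hln x
  have h2 : ∑ j ∈ Finset.range l, PhiKE R e kk (mob (-1) 0 0 1 ∞)
      (mob (-1) 0 0 1 ((x + (j : ℚ) / l : ℚ) : OnePoint ℚ)) = 0 := by
    have h3 := dep hc hn R e he kk l hl hln (-x - (l - 1) / l)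
    rw [← Finset.sum_range_reflect] at h3
    rw [← h3]
    refine Finset.sum_congr rfl fun j hj => ?_
    have hj' : j < l := Finset.mem_range.1 hj
    have hc : ((l - 1 - j : ℕ) : ℚ) = (l : ℚ) - 1 - j := by
      rw [Nat.sub_sub, Nat.cast_sub (by omega)]
      push_cast
      ring
    rw [OT.HT3.mob_inf, OT.HT3.mob_neg, hc]
    congr 2
    field_simp
    ring
  unfold QTE
  rw [← Finset.sum_div, Finset.sum_add_distrib, ← Finset.mul_sum, h1, h2, mul_zero, add_zero,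
    zero_div]

/-- (HT) the hypotheses of the abstract theorem -/
theorem oe_HT (h1 : OTH.S_NDN) (h3 : Sq_HQ1) {p : ℕ} {A B : ℤ} {P : Ideal (OO A B)}
    {V : ValuationSubring ℂ} {f : ℕ} (hS : SetOE p A B P V f) (hT : TorXE A B)
    {ι : Type} [Fintype ι] (R : RepsE A B (p * f) ι) {u el lam : ℂ}
    (hg : GoodL V (R.L R.i0) u el lam) {w : OO A B → ℂ} (hw : IsTeiP p 1 P V w)
    {e : OO A B → ℂ} (heE : IsEIE (idl (A := A) (B := B) (p * f)) e) {r : ℕ} (hrp : ¬ p ∣ r)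
    (her : ∀ x, e x ≠ 0 → e x ^ r = 1) {i : ℕ} (hi1 : nI P - 1 ≤ i * (p - 1))
    (hi2 : i ≤ nI P - 2) (hty : ∀ x, x - 1 ∈ gO P f → x ∉ P → e x = w x ^ i)
    {t : ℤ → ℂ} (ht : IsTw p (nI P - 1) t) {kk : ι → ℂ} (hkk : ∀ i, kk i ^ r = 1)
    {l : ℕ} (hl : l.Prime) (hlf : l ∣ f) {n : ℕ} (hn : 5 ≤ n) {z₀ : ℤ} (hz : IsZ0 p n z₀)
    {ξ : ℂ} (hξ : IsPrimitiveRoot ξ (p ^ (n + 1))) :
    HypT p n V (p ^ (1 + 1) * N0O p 1 A B f) (nuX e) (t (-1)) z₀ t
      (fun _ => QTE R e kk (t (-1)) u) ξ l := by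
  have he : IsEI (idl (A := A) (B := B) (p * f)) e := heE.toIsEI
  have hr0 : r ≠ 0 := by
    rintro rfl
    exact hrp (dvd_zero p)
  have pp : p.Prime := hS.pp
  have p5 : 5 ≤ p := hS.p5
  obtain ⟨vp, -, -, -, -, -, -, -, -, -, hN0, -, -, -⟩ := oe_VAL p A B P V f hS
  obtain ⟨hnu1, -, hnuper, hnuv⟩ := oe_CHR p A B P V f hS e he r hr0 her
  obtain ⟨r1, -⟩ := oe_RAM p A B P V hS.toCaseOE
  have hs := OT.HT.sq_m1 ht
  have hua : IsAlgebraic ℚ u := oe_UAL A B hS.toCaseE (p * f) ι R V u el lam hg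
  obtain ⟨hsym, halg, K, hK⟩ := oe_HT1 hS hT R he hr0 her hkk hg.u0 hua hs
  have hs2 : t (-1) * t (-1) = 1 := by rcases hs with h | h <;> rw [h] <;> norm_num
  refine
    { pp := pp
      p5 := p5
      vp := vp
      n5 := hn
      N0 := mul_ne_zero (pow_ne_zero _ pp.ne_zero) hN0
      nu1 := hnu1
      nuv := hnuv
      nua := ?_
      nuper := ?_
      s1 := hs
      z0 := hz
      tw := ⟨nI P - 1, ?_, ht⟩
      ts := rfl
      xi := hξ
      sym := fun _ => hsym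
      alg := fun _ => halg
      bdd := ⟨K, fun _ => hK⟩
      neg := ?_
      perk := fun _ => rfl
      dep := fun _ x => oe_HT3 hS.toCQ pp.ne_zero hS.f0 hl hlf R he kk (t (-1)) u x
      nd := oe_ND h1 h3 hS hT R hg hw heE hrp her hi1 hi2 hty hs hkk (by omega) hξ }
  · intro d
    unfold nuX
    refine IsAlgebraic.mul ?_ (OT.HT.alg_root hr0 ?_)
    · exact isAlgebraic_intCast _
    · by_cases h : e (d : OO A B) = 0
      · exact Or.inl h
      · exact Or.inr (her _ h)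
  · intro d d' h
    refine hnuper d d' (dvd_trans ?_ h)
    rw [Int.natCast_dvd_natCast]
    exact Nat.mul_dvd_mul_right (dvd_pow_self p (by omega)) (N0O p 1 A B f)
  · intro h
    have h9 : p ∣ nI P := by
      rcases r1 with h' | h'
      · rw [h']
      · rw [h']
        exact dvd_pow_self p two_ne_zero
    have h10 : 1 ≤ nI P := by
      rcases r1 with h' | h'
      · rw [h']
        exact pp.one_lt.le
      · rw [h']
        exact Nat.one_le_pow _ _ pp.pos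
    have h11 := (Nat.dvd_sub_iff_right h10 h9).1 h
    exact pp.one_lt.ne' (Nat.dvd_one.1 h11)
  · intro k x y
    unfold QTE
    rw [OT.HT2.mob_mob, OT.HT2.mob_mob]
    linear_combination (-(PhiKE R e kk (mob (-1) 0 0 1 x)
      (mob (-1) 0 0 1 y) / (u * R.om R.i0))) * hs2

end

end Pool.Agent.OEHB


end

section

/-!
# OE, block J (helper19): the result of the block from the results of the blocks R, E, I
-/

set_option autoImplicit false

namespace Pool.Agent.OEJ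

open _root_.MU3 Pool.Agent.MU3 Pool.Agent.MU3A Pool.Agent.MU3B Pool.Agent.RI Pool.Agent.RID
  Pool.Agent.MUX Pool.Agent.MUXK Pool.Agent.MUXE Pool.Agent.MUXJ Pool.Agent.MUXW Pool.Agent.MUXZ
  Pool.Agent.OB Pool.Agent.OE

/-- THE RESULT of block J for the exceptional fields -/
theorem o_TJE (hR : O_RFINE) (hE : O_EFINE) (hI : O_ITE) : OEF.O_TJE :=
  t_NBE (t_MAINTE hR hE hI (OTJ.t_PIGS (OTJ.t_LEM1S k_GALX k_RSX) OB.o_NRX)) OBF.tf_LAY

end Pool.Agent.OEJ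


end

section

/-!
# OE, block HB (helper51): the result `O_HETAE` from TYPE and Theorem G

After `OT/HB_HETA.lean` (helper59).
-/

set_option autoImplicit false

namespace Pool.Agent.OEHB

open _root_.MU3 _root_.Pool.Agent.MU3A _root_.Pool.Agent.MU3B _root_.Pool.Agent.MU3F
  _root_.Pool.Agent.MUX _root_.Pool.Agent.MuSym _root_.Pool.Agent.OB _root_.Pool.Agent.OBH
  _root_.Pool.Agent.MUXHY _root_.Pool.Agent.OE _root_.Pool.Agent.OEHQ OnePoint
open _root_.Pool.Agent.OT (HypT IsZ0 IsTw Yh PV coT tM Ot_H)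
open _root_.Pool.Agent.OT.Heta (Wb PV_coe)
open _root_.Pool.Agent.ME (CaseE TorXE RepsE IsNE IsEIE PhiKE SnXE STXE)
open _root_.Pool.Agent.TWR (Gen)
open Finset

noncomputable section

theorem phi_per {A B : ℤ} (hC : CQ A B) {m : ℕ} {ι : Type} [Fintype ι] (R : RepsE A B m ι)
    (e : OO A B → ℂ) (kk : ι → ℂ) (x : ℚ) (k : ℤ) :
    PhiKE R e kk ∞ ((x + k : ℚ) : OnePoint ℚ) = PhiKE R e kk ∞ (x : OnePoint ℚ) := by
  unfold PhiKE
  refine Finset.sum_congr rfl fun i _ => ?_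
  rw [Qsx.PhiI_per MUXF.xf_PRD hC (R.nl i).b_ne]

lemma e_nI {A B : ℤ} {n : ℕ} {ι : Type} (R : RepsE A B n ι) {g : Ideal (OO A B)}
    {e : OO A B → ℂ} (he : IsEI g e) (hn : ((n : ℕ) : OO A B) ∈ g) (c : ι) :
    e ((nI (R.b c) : ℕ) : OO A B) ≠ 0 := by
  rw [he.supp]
  exact MUXY.y_COP_E A B n ι R g 1 (by rw [pow_one]; exact hn) c

theorem oe_HETA0 (hH : Ot_H) (hN : OTH.S_NDN) (hQ : Sq_HQ1) (hBIR : OT.Ob_BIR) (hEPS : OT.Ob_EPS)
    (hZC : OT.Ob_ZC) : O_HETAE := by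
  intro p A B P V f hS hTor ι _ R u el lam hG w hw e heE r₁ hr₁ her i hi1 hi2 hew t ht kk hkk
    l g h hGen hl n hn z₀ hz₀
  have he : IsEI (idl (A := A) (B := B) (p * f)) e := heE.toIsEI
  obtain ⟨vp, -, v1, vr, -, -, gne, -, hpf, -, -, -, -, -⟩ := oe_VAL p A B P V f hS
  obtain ⟨hnI, -⟩ := oe_RAM p A B P V hS.toCaseOE
  have hcq : CQ A B := hS.toCQ
  have hp : p.Prime := hS.pp
  have hp5 : 5 ≤ p := hS.p5
  have hp2 : p ≠ 2 := by omega
  have hpz : Prime (p : ℤ) := Nat.prime_iff_prime_int.mp hp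
  have hf0 : f ≠ 0 := hS.f0
  have hlp : l.Prime := by
    rcases hGen with ⟨h, -, -⟩ | ⟨h, -, -⟩ <;> rw [h]
    · exact Nat.prime_three
    · exact Nat.prime_two
  have hpl : ¬ p ∣ l := fun h1 => hS.fp (h1.trans hl)
  -- the weights
  have heN : ∀ c, e ((nI (R.b c) : ℕ) : OO A B) ≠ 0 := e_nI R he hpf
  have hκ : ∀ c, kk0E R e kk c ^ r₁ = 1 := by
    intro c
    unfold kk0E
    rw [div_pow, hkk, her _ (heN c), div_one]
  -- the root of unity
  set M : ℕ := p ^ (n + 1) with hM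
  have hM0 : M ≠ 0 := pow_ne_zero _ hp.ne_zero
  have hξ : IsPrimitiveRoot (ex (-1 / ((p ^ (n + 1) : ℕ) : ℚ))) (p ^ (n + 1)) := by
    have h1 := Hfx.prim p (n + 1) hp (-1) (by
      intro h
      exact hpz.not_isUnit (isUnit_of_dvd_one ((dvd_neg).1 h)))
    push_cast at h1 ⊢
    exact h1
  have hT := oe_HT hN hQ hS hTor R hG hw heE hr₁ her hi1 hi2 hew ht (kk := kk0E R e kk) hκ hlp hl
    hn hz₀ hξ
  obtain ⟨r₀, hr₀⟩ := hH l g h hGen p n V _ _ _ z₀ t _ _ hT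
  refine ⟨max r₀ 2, fun r hr ψ hψ1 hψ2 => ?_⟩
  have hr2 : 2 ≤ r := (le_max_right _ _).trans hr
  have hNZ : NeZero (l ^ r) := ⟨pow_ne_zero _ hlp.ne_zero⟩
  have hψp : ψ.IsPrimitive := TWG.Gau.prim hlp hr2 ψ hψ2
  have hi1' : ψ⁻¹ (-1) = 1 := by rw [MulChar.inv_apply_eq_inv', hψ1, inv_one]
  have hi2' : ψ⁻¹ (1 + (l : ZMod (l ^ r)) ^ (r - 1)) ≠ 1 := by
    rw [MulChar.inv_apply_eq_inv']
    intro h
    exact hψ2 (inv_eq_one.1 h)
  -- the number `a`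
  set f' : ℕ := f * l ^ r with hf'
  have hf'0 : f' ≠ 0 := mul_ne_zero hf0 (pow_ne_zero _ hlp.ne_zero)
  have hpf' : ¬ p ∣ f' := by
    intro h
    rcases (Nat.Prime.dvd_mul hp).1 h with h | h
    · exact hS.fp h
    · exact hpl (hp.dvd_of_dvd_pow h)
  have hq0 : q0 p = p := by
    unfold q0
    rw [if_neg hp2]
  have haz : ((aX p f' : ℕ) : ℤ) - 1 = p * (2 * f') := by
    unfold aX
    rw [hq0]
    push_cast
    ring
  have hap : (p : ℤ) ∣ ((aX p f' : ℕ) : ℤ) - 1 := by rw [haz]; exact Dvd.intro _ rfl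
  have hap2 : ¬ (p : ℤ) ^ 2 ∣ ((aX p f' : ℕ) : ℤ) - 1 := by
    rw [haz, sq]
    intro h
    have h1 : (p : ℤ) ∣ 2 * (f' : ℤ) :=
      (mul_dvd_mul_iff_left (by exact_mod_cast hp.ne_zero)).1 h
    rcases hpz.dvd_or_dvd h1 with h2 | h2
    · have := Int.le_of_dvd (by norm_num) h2
      omega
    · exact hpf' (by exact_mod_cast h2)
  obtain ⟨c, hc, hcv⟩ := hr₀ r ((le_max_left _ _).trans hr) ψ⁻¹ hi1' hi2' ((aX p f' : ℕ) : ℤ)
    hap hap2
  have hsye := fun x : ℚ => oe_SYE hZC hp hp2 hcq R e (kk0E R e kk) u ht hz₀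
    ((aX p f' : ℕ) : ℤ) c x
  -- the functions
  set G : ℚ → ℂ := fun x => PV p n (ex (-1 / ((p ^ (n + 1) : ℕ) : ℚ))) ((aX p f' : ℕ) : ℤ) z₀ t
    (fun _ => PhiKE R e (kk0E R e kk)) c ∞ ((x : ℚ) : OnePoint ℚ) with hGdef
  have hGc : ∀ x : ℚ, G x = ∑ b ∈ range (p ^ (n + 1)),
      Wb p (ex (-1 / ((p ^ (n + 1) : ℕ) : ℚ))) ((aX p f' : ℕ) : ℤ) z₀ t c b *
        PhiKE R e (kk0E R e kk) ∞
          ((x + (b : ℚ) / ((p ^ (n + 1) : ℕ) : ℚ) : ℚ) : OnePoint ℚ) := fun x =>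
    PV_coe p n hp.ne_zero _ _ z₀ t _ c x
  have hGper : ∀ (x : ℚ) (k : ℤ), G (x + k) = G x := by
    intro x k
    rw [hGc, hGc]
    refine Finset.sum_congr rfl fun b _ => ?_
    have h1 : x + (k : ℚ) + (b : ℚ) / ((p ^ (n + 1) : ℕ) : ℚ) =
        (x + (b : ℚ) / ((p ^ (n + 1) : ℕ) : ℚ)) + (k : ℤ) := by ring
    rw [h1, phi_per hcq]
  have hq1 : ((l ^ r : ℕ) : ℚ) ≠ 0 := by exact_mod_cast hNZ.out
  -- the even part
  have hev : ∑ e' ∈ range (l ^ r), ψ⁻¹ (e' : ZMod (l ^ r)) * G (-((e' : ℚ) / (l : ℚ) ^ r)) =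
      ∑ e' ∈ range (l ^ r), ψ⁻¹ (e' : ZMod (l ^ r)) * G ((e' : ℚ) / (l : ℚ) ^ r) := by
    have h1 := MU3H.Qs.sum_mul (q := l ^ r)
      (G := fun b : ℤ => ψ⁻¹ (b : ZMod (l ^ r)) * G ((b : ℚ) / (l : ℚ) ^ r)) (fun b k => by
        have e1 : (((b + ((l ^ r : ℕ) : ℤ) * k : ℤ)) : ZMod (l ^ r)) = (b : ZMod (l ^ r)) := by
          push_cast
          have := ZMod.natCast_self (l ^ r)
          push_cast at this
          rw [this, zero_mul, add_zero]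
        have e2 : (((b + ((l ^ r : ℕ) : ℤ) * k : ℤ)) : ℚ) / (l : ℚ) ^ r =
            (b : ℚ) / (l : ℚ) ^ r + (k : ℤ) := by
          have : (l : ℚ) ^ r ≠ 0 := by exact_mod_cast hNZ.out
          push_cast
          field_simp
        show ψ⁻¹ (((b + ((l ^ r : ℕ) : ℤ) * k : ℤ)) : ZMod (l ^ r)) *
          G ((((b + ((l ^ r : ℕ) : ℤ) * k : ℤ)) : ℚ) / (l : ℚ) ^ r) = _
        rw [e1, e2, hGper]) (u := -1) (isCoprime_one_left).neg_left
    refine Eq.trans (Finset.sum_congr rfl fun e' _ => ?_) (h1.trans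
      (Finset.sum_congr rfl fun e' _ => ?_))
    · show ψ⁻¹ (e' : ZMod (l ^ r)) * G (-((e' : ℚ) / (l : ℚ) ^ r)) =
        ψ⁻¹ ((-1 * (e' : ℤ) : ℤ) : ZMod (l ^ r)) *
          G (((-1 * (e' : ℤ) : ℤ) : ℚ) / (l : ℚ) ^ r)
      have e1 : ((-1 * (e' : ℤ) : ℤ) : ZMod (l ^ r)) = (-1) * (e' : ZMod (l ^ r)) := by
        push_cast
        ring
      have e2 : (((-1 * (e' : ℤ) : ℤ) : ℚ) / (l : ℚ) ^ r) = -((e' : ℚ) / (l : ℚ) ^ r) := by
        push_cast
        ring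
      rw [e1, e2, map_mul, hi1', one_mul]
    · show ψ⁻¹ (((e' : ℤ)) : ZMod (l ^ r)) * G ((((e' : ℤ)) : ℚ) / (l : ℚ) ^ r) = _
      push_cast
      rfl
  have hS1 : ∑ e' ∈ range (l ^ r), ψ⁻¹ (e' : ZMod (l ^ r)) *
      PV p n (ex (-1 / ((p ^ (n + 1) : ℕ) : ℚ))) ((aX p f' : ℕ) : ℤ) z₀ t
        (fun _ => QTE R e (kk0E R e kk) (t (-1)) u) c ∞
          (((e' : ℚ) / (l : ℚ) ^ r : ℚ) : OnePoint ℚ) =
      2 / (u * R.om R.i0) * ∑ e' ∈ range (l ^ r), ψ⁻¹ (e' : ZMod (l ^ r)) *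
        G ((e' : ℚ) / (l : ℚ) ^ r) := by
    have h1 : ∀ e' ∈ range (l ^ r), ψ⁻¹ (e' : ZMod (l ^ r)) *
      PV p n (ex (-1 / ((p ^ (n + 1) : ℕ) : ℚ))) ((aX p f' : ℕ) : ℤ) z₀ t
        (fun _ => QTE R e (kk0E R e kk) (t (-1)) u) c ∞
          (((e' : ℚ) / (l : ℚ) ^ r : ℚ) : OnePoint ℚ) =
        1 / (u * R.om R.i0) * (ψ⁻¹ (e' : ZMod (l ^ r)) * G ((e' : ℚ) / (l : ℚ) ^ r)) +
          1 / (u * R.om R.i0) * (ψ⁻¹ (e' : ZMod (l ^ r)) * G (-((e' : ℚ) / (l : ℚ) ^ r))) := by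
      intro e' _
      rw [hsye]
      show ψ⁻¹ (e' : ZMod (l ^ r)) * ((G ((e' : ℚ) / (l : ℚ) ^ r) +
        G (-((e' : ℚ) / (l : ℚ) ^ r))) / (u * R.om R.i0)) = _
      ring
    rw [Finset.sum_congr rfl h1, Finset.sum_add_distrib, ← Finset.mul_sum, ← Finset.mul_sum, hev]
    ring
  -- the level `f'`
  set R' : RepsE A B (p * f') ι := RLE R l r hl with hR'
  set e' : OO A B → ℂ := fun x => e x * ψ (nm x) with he'
  have hE' : IsEI (idl (A := A) (B := B) (p * f')) e' :=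
    hEPS A B hcq p f l r hp hf0 hlp hl e he ψ
  set kk' : ι → ℂ := fun i => kk i * ψ ((nI (R.b i) : ℕ)) with hkk'
  have hgne' : idl (A := A) (B := B) (p * f') ≠ ⊥ := by
    have h1 : ((p * f' : ℕ) : OO A B) ∈ idl (A := A) (B := B) (p * f') :=
      Ideal.mem_span_singleton_self _
    intro h2
    rw [h2, Ideal.mem_bot] at h1
    have h3 := congrArg QuadraticAlgebra.re h1
    rw [QuadraticAlgebra.re_natCast, QuadraticAlgebra.re_zero] at h3
    exact mul_ne_zero hp.ne_zero hf'0 (by exact_mod_cast h3)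
  have hψu : ∀ i, ψ ((nI (R.b i) : ℕ)) ≠ 0 := by
    intro i
    have h1 := (RLE R l r hl).cop i
    have h2 : (nI (R.b i)).Coprime (l ^ r) :=
      Nat.Coprime.coprime_mul_left_right (Nat.Coprime.coprime_mul_left_right h1)
    have h3 : IsUnit ((nI (R.b i) : ℕ) : ZMod (l ^ r)) := (ZMod.isUnit_iff_coprime _ _).2 h2
    exact (h3.map ψ).ne_zero
  have hk1 : ∀ i, kk0E R' e' kk' i * ψ ((nI (R.b i) : ℕ)) = kk0E R e kk i := by
    intro i
    have h1 : e' ((nI (R.b i) : ℕ) : OO A B) =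
        e ((nI (R.b i) : ℕ) : OO A B) * ψ ((nI (R.b i) : ℕ)) ^ 2 := by
      have hnm : nm (((nI (R.b i) : ℕ) : OO A B)) = (nI (R.b i) : ℤ) ^ 2 := by
        show (((nI (R.b i) : ℕ) : OO A B)).re ^ 2 + B * (((nI (R.b i) : ℕ) : OO A B)).re *
          (((nI (R.b i) : ℕ) : OO A B)).im - A * (((nI (R.b i) : ℕ) : OO A B)).im ^ 2 = _
        rw [QuadraticAlgebra.re_natCast, QuadraticAlgebra.im_natCast]
        ring
      show e ((nI (R.b i) : ℕ) : OO A B) * ψ (nm ((nI (R.b i) : ℕ) : OO A B)) = _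
      rw [hnm]
      push_cast
      rw [map_pow]
    show kk i * ψ ((nI (R.b i) : ℕ)) / e' ((nI (R.b i) : ℕ) : OO A B) *
      ψ ((nI (R.b i) : ℕ)) = kk i / e ((nI (R.b i) : ℕ) : OO A B)
    rw [h1]
    have := heN i
    have := hψu i
    field_simp
  set τ : ℂ := gaussSum ψ⁻¹ (ZMod.stdAddChar (N := l ^ r)) with hτ
  have hB1 : ∀ x : ℚ, τ * PhiKE R' e' (kk0E R' e' kk') ∞ (x : OnePoint ℚ) =
      ∑ c ∈ range (l ^ r), ψ⁻¹ (c : ZMod (l ^ r)) *
        PhiKE R e (kk0E R e kk) ∞ ((x + (c : ℚ) / ((l ^ r : ℕ) : ℚ) : ℚ) : OnePoint ℚ) := by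
    intro x
    unfold PhiKE
    simp only [Finset.mul_sum]
    rw [Finset.sum_comm]
    refine Finset.sum_congr rfl fun i _ => ?_
    have h1 := hBIR A B hcq (R.b i) (idl (A := A) (B := B) (p * f))
      (idl (A := A) (B := B) (p * f')) e (R.nl i).b_ne gne hgne' he (l ^ r) ψ hψp hE' x
    have h2 : τ * (kk0E R' e' kk' i * PhiI (R'.b i) e' ∞ (x : OnePoint ℚ)) =
        kk0E R' e' kk' i * (τ * PhiI (R.b i) e' ∞ (x : OnePoint ℚ)) := by
      show τ * (kk0E R' e' kk' i * PhiI (R.b i) e' ∞ (x : OnePoint ℚ)) = _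
      ring
    rw [h2, h1, ← mul_assoc, hk1 i, Finset.mul_sum]
    refine Finset.sum_congr rfl fun c _ => ?_
    ring
  have hB2 : τ * PV p n (ex (-1 / ((p ^ (n + 1) : ℕ) : ℚ))) ((aX p f' : ℕ) : ℤ) z₀ t
      (fun _ => PhiKE R' e' (kk0E R' e' kk')) c ∞ ((0 : ℚ) : OnePoint ℚ) =
      ∑ e' ∈ range (l ^ r), ψ⁻¹ (e' : ZMod (l ^ r)) * G ((e' : ℚ) / (l : ℚ) ^ r) := by
    rw [PV_coe p n hp.ne_zero, Finset.mul_sum]
    simp only [hGc, Finset.mul_sum]
    rw [Finset.sum_comm]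
    refine Finset.sum_congr rfl fun b _ => ?_
    have h1 := hB1 (0 + (b : ℚ) / ((p ^ (n + 1) : ℕ) : ℚ))
    rw [mul_left_comm, h1, Finset.mul_sum]
    refine Finset.sum_congr rfl fun c' _ => ?_
    have h2 : 0 + (b : ℚ) / ((p ^ (n + 1) : ℕ) : ℚ) + (c' : ℚ) / ((l ^ r : ℕ) : ℚ) =
        (c' : ℚ) / (l : ℚ) ^ r + (b : ℚ) / ((p ^ (n + 1) : ℕ) : ℚ) := by
      push_cast
      ring
    rw [h2]
    ring
  have hP := oe_SGP hp hp2 hcq hf'0 R' hE' kk' t z₀ n c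
  set PVV : ℂ := PV p n (ex (-1 / ((p ^ (n + 1) : ℕ) : ℚ))) ((aX p f' : ℕ) : ℤ) z₀ t
      (fun _ => PhiKE R' e' (kk0E R' e' kk')) c ∞ ((0 : ℚ) : OnePoint ℚ) with hPVV
  set SS : ℂ := ∑ j ∈ Finset.range 2, (-1 : ℂ) ^ (1 - j) *
        SGX p R' (lvX p f' n) (p ^ (n + 1)) (aX p f') e' kk' t z₀ (c * (1 + (p : ℤ)) ^ j) with hSS
  have hu0 : u ≠ 0 := hG.u0
  have hom : R.om R.i0 ≠ 0 := (R.nl R.i0).om_ne
  have hfc : (f' : ℂ) ≠ 0 := Nat.cast_ne_zero.2 hf'0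
  have hfin : ∑ e' ∈ range (l ^ r), ψ⁻¹ (e' : ZMod (l ^ r)) *
      PV p n (ex (-1 / ((p ^ (n + 1) : ℕ) : ℚ))) ((aX p f' : ℕ) : ℤ) z₀ t
        (fun _ => QTE R e (kk0E R e kk) (t (-1)) u) c ∞
          (((e' : ℚ) / (l : ℚ) ^ r : ℚ) : OnePoint ℚ) = τ / f' * (SS / u) := by
    rw [hS1, ← hB2, hP]
    show 2 / (u * R.om R.i0) * (τ * PVV) = τ / f' * (2 * f' / R.om R.i0 * PVV / u)
    field_simp
  rw [hfin, map_mul, map_div₀] at hcv
  -- valuations
  have hvl : V.valuation ((l : ℕ) : ℂ) = 1 := by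
    have := v1 l (fun h => hpl (by exact_mod_cast h))
    exact_mod_cast this
  have hvτ : V.valuation τ = 1 := by
    refine TWG.Gau.gone V ψ⁻¹ (TWG.Gau.prim_inv hψp) ?_
    push_cast
    rw [map_pow, hvl, one_pow]
  have hvf : V.valuation (f' : ℂ) = 1 := by
    have := v1 f' (fun h => hpf' (by exact_mod_cast h))
    exact_mod_cast this
  rw [hvτ, hvf, div_one, one_mul] at hcv
  -- the index `c`
  obtain ⟨-, -, hzc⟩ := hZC p n z₀ hp hp2 hz₀
  obtain ⟨m, k', hmk⟩ := hzc c hc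
  have hnP : nI P - 1 ≠ 0 ∧ ¬ p ∣ nI P - 1 := by
    rcases hnI with h | h
    · rw [h]
      refine ⟨by omega, fun h1 => ?_⟩
      have := Nat.le_of_dvd (by omega) h1
      omega
    · rw [h]
      have h4 : p ≤ p ^ 2 := by nlinarith
      refine ⟨by omega, fun h1 => ?_⟩
      have h2 : p ∣ p ^ 2 := dvd_pow_self _ two_ne_zero
      have h3 := (Nat.dvd_sub_iff_right (by omega : 1 ≤ p ^ 2) h2).1 h1
      exact hp.one_lt.ne' (Nat.dvd_one.1 h3)
  obtain ⟨hs1, hs2, hs3⟩ := oe_SGE R' (lvX p f' n) (aX p f') e' kk' hp hz₀ ht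
  have hvt : V.valuation (t z₀) = 1 := TWG.Gau.root_one V hnP.1 hs2
  have hSG : t z₀ ^ m * SS = ∑ j ∈ Finset.range 2, (-1 : ℂ) ^ (1 - j) *
      SGX p R' (lvX p f' n) (p ^ (n + 1)) (aX p f') e' kk' t z₀ ((1 + (p : ℤ)) ^ (k' + j)) := by
    rw [hSS, Finset.mul_sum]
    refine Finset.sum_congr rfl fun j _ => ?_
    have h1 := hs1 (c * (1 + (p : ℤ)) ^ j) (z₀ ^ m * (1 + (p : ℤ)) ^ (k' + j)) (by
      have : c * (1 + (p : ℤ)) ^ j - z₀ ^ m * (1 + (p : ℤ)) ^ (k' + j) =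
          (c - z₀ ^ m * (1 + (p : ℤ)) ^ k') * (1 + (p : ℤ)) ^ j := by ring
      rw [this]
      exact Dvd.dvd.mul_right hmk _)
    rw [h1, mul_left_comm, hs3]
  refine ⟨k', ?_⟩
  have h5 : V.valuation (SS / u) = V.valuation ((t z₀ ^ m * SS) / u) := by
    rw [mul_div_assoc, map_mul, map_pow, hvt, one_pow, one_mul]
  rw [h5, hSG] at hcv
  exact hcv

/-- THE RESULT of the blocks HQ, HB -/
theorem oe_HETA (hH : Ot_H) (hN : OTH.S_NDN) (hT : O_TYFE) (hG : O_GPTE) : O_HETAE :=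
  oe_HETA0 hH hN (oe_HQ1 hT hG) OT.ob_BIR OT.ob_EPS OT.ob_ZC

end

end Pool.Agent.OEHB


end

section

/-!
# OE, blocks HQ and HB put together (helper51): `O_HETAE` from TYPE and Theorem G
-/

set_option autoImplicit false

namespace Pool.Agent.OEHB

open Pool.Agent.OE

theorem oe_HETAE (hT : O_TYFE) (hG : O_GPTE) : O_HETAE :=
  oe_HETA (OTH.h_HT OTH.h_LAG OTH.h_VSY OTH.h_CNG TWV.a_TWV) OTH.h_NDN hT hG

end Pool.Agent.OEHB


end
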