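import Pool.Agent.OUM.Stmt

/-!
# Definitions for the theorem on the towers `K B_r` (all imaginary quadratic fields)

All fields are subfields of `ℂ`. The other definitions are in `Pool/Agent/OUM/Stmt.lean`,
`Pool/Agent/OBM/Stmt.lean` and `Pool/Agent/VB/HDefs.lean`.
-/

set_option autoImplicit false

namespace Pool.Agent.MuBr

/-- `k` is an imaginary quadratic field. -/
structure ImQuadratic (k : IntermediateField ℚ ℂ) : Prop where
  deg : Module.finrank ℚ k = 2
  imag : ∃ z ∈ k, (starRingEnd ℂ) z ≠ z

end Pool.Agent.MuBr
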